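import Pool.Agent.L0h38.Q4.A1

/-!
# The archimedean part from its pieces
-/

open Polynomial Pool.Agent.H337R2 Filter Topology

namespace Pool.Agent.L0h38.Q4

noncomputable section

namespace A_

lemma small (C K : ℕ) (ε : ℝ) (hε : 0 < ε) : ∀ᶠ ν : ℕ in atTop,
    ((C * (33 * (ν - 1)) : ℕ) : ℝ) * Real.log (((2 * ν : ℕ) : ℝ) + ((33 * (ν - 1) : ℕ) : ℝ)) +
      ((2 * (33 * (ν - 1)) : ℕ) : ℝ) * Real.log (2 * ((2 * ν : ℕ) : ℝ) ^ K) ≤ ε * (ν : ℝ) ^ 2 := by
  have h1 : Tendsto (fun ν : ℕ => Real.log ν / ν) atTop (𝓝 0) := by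
    have h := Real.isLittleO_log_id_atTop.tendsto_div_nhds_zero
    exact h.comp tendsto_natCast_atTop_atTop
  have h2 : Tendsto (fun ν : ℕ => (1 : ℝ) / ν) atTop (𝓝 0) := tendsto_one_div_atTop_nhds_zero_nat
  have h3 : Tendsto (fun ν : ℕ => (33 * C * Real.log 35 + 66 * Real.log 2 + 66 * K * Real.log 2) * ((1 : ℝ) / ν) +
      (33 * C + 66 * K) * (Real.log ν / ν)) atTop (𝓝 0) := by
    have := (h2.const_mul (33 * C * Real.log 35 + 66 * Real.log 2 + 66 * K * Real.log 2)).add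
      (h1.const_mul (33 * C + 66 * K : ℝ))
    simpa using this
  filter_upwards [h3.eventually_lt_const hε, eventually_ge_atTop 2] with ν hν hν2
  have hν0 : (0 : ℝ) < ν := by exact_mod_cast (by omega : 0 < ν)
  have hν1 : (1 : ℝ) ≤ ν := by exact_mod_cast (by omega : 1 ≤ ν)
  have hl0 : 0 ≤ Real.log ν := Real.log_nonneg hν1
  have hl2 : 0 ≤ Real.log 2 := Real.log_nonneg (by norm_num)
  have hl35 : 0 ≤ Real.log 35 := Real.log_nonneg (by norm_num)
  have e1 : ((33 * (ν - 1) : ℕ) : ℝ) ≤ 33 * ν := by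
    exact_mod_cast (by omega : 33 * (ν - 1) ≤ 33 * ν)
  have e0 : (0 : ℝ) ≤ ((33 * (ν - 1) : ℕ) : ℝ) := by positivity
  have e2 : Real.log (((2 * ν : ℕ) : ℝ) + ((33 * (ν - 1) : ℕ) : ℝ)) ≤ Real.log 35 + Real.log ν := by
    rw [← Real.log_mul (by norm_num) hν0.ne']
    apply Real.log_le_log
    · push_cast at *
      positivity
    · push_cast at *
      linarith
  have e3 : Real.log (2 * ((2 * ν : ℕ) : ℝ) ^ K) = Real.log 2 + K * (Real.log 2 + Real.log ν) := by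
    push_cast
    rw [Real.log_mul (by norm_num) (by positivity), Real.log_pow, Real.log_mul (by norm_num) hν0.ne']
  rw [e3]
  have e4 : ((C * (33 * (ν - 1)) : ℕ) : ℝ) * Real.log (((2 * ν : ℕ) : ℝ) + ((33 * (ν - 1) : ℕ) : ℝ)) ≤
      C * (33 * ν) * (Real.log 35 + Real.log ν) := by
    rw [Nat.cast_mul]
    have : 0 ≤ Real.log (((2 * ν : ℕ) : ℝ) + ((33 * (ν - 1) : ℕ) : ℝ)) := by
      apply Real.log_nonneg
      have : (1 : ℝ) ≤ ((2 * ν : ℕ) : ℝ) := by exact_mod_cast (by omega : 1 ≤ 2 * ν)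
      linarith
    apply mul_le_mul _ e2 this (by positivity)
    exact mul_le_mul_of_nonneg_left e1 (by positivity)
  have e5 : ((2 * (33 * (ν - 1)) : ℕ) : ℝ) * (Real.log 2 + K * (Real.log 2 + Real.log ν)) ≤
      66 * ν * (Real.log 2 + K * (Real.log 2 + Real.log ν)) := by
    apply mul_le_mul_of_nonneg_right _ (by positivity)
    exact_mod_cast (by omega : 2 * (33 * (ν - 1)) ≤ 66 * ν)
  have e6 : C * (33 * ν) * (Real.log 35 + Real.log ν) + 66 * ν * (Real.log 2 + K * (Real.log 2 + Real.log ν)) =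
      (ν : ℝ) ^ 2 * ((33 * C * Real.log 35 + 66 * Real.log 2 + 66 * K * Real.log 2) * ((1 : ℝ) / ν) +
      (33 * C + 66 * K) * (Real.log ν / ν)) := by
    field_simp
    ring
  have e7 : (ν : ℝ) ^ 2 * ((33 * C * Real.log 35 + 66 * Real.log 2 + 66 * K * Real.log 2) * ((1 : ℝ) / ν) +
      (33 * C + 66 * K) * (Real.log ν / ν)) ≤ (ν : ℝ) ^ 2 * ε := mul_le_mul_of_nonneg_left hν.le (by positivity)
  linarith

end A_

open A_ in
theorem A_of (hLF : S_LF) (hOM1 : S_OM1) (hOM2 : S_OM2) (hARCH : S_ARCH) (hDOMX : S_DOMX) (hDOMY : S_DOMY)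
    (hWA : S_WA) (hASA : S_ASA) (hASX : S_ASX) (hNUMA : S_NUMA) : S_A := by
  intro α β γ θ θ' hz
  obtain ⟨C, hC⟩ := hARCH
  obtain ⟨K1, h1⟩ := hOM2 β
  obtain ⟨K2, h2⟩ := hOM2 γ
  have hNUM : cA1 + cX1 < 1600 := hNUMA
  obtain ⟨ε, hε, hε3⟩ : ∃ ε : ℝ, 0 < ε ∧ cA1 + cX1 + 3 * ε ≤ 1600 :=
    ⟨(1600 - cA1 - cX1) / 3, by linarith, by linarith⟩
  filter_upwards [hWA 1000, hASA 1000 ε hε, hASX ε hε, small C (K1 + K2) ε hε, eventually_ge_atTop 5]
    with ν hwa hasa hasx hsmall hν hν4 hD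
  have hxs := hasx hν4
  set n := 2 * ν with hn
  set m := 33 * (ν - 1) with hm
  have hn2 : 2 ≤ n := by omega
  have hm1 : 1 ≤ m := by omega
  have hdet := det_eq n m α β γ θ θ'
  set K : ℝ := 2 * (n : ℝ) ^ (K1 + K2) with hK
  have hn1 : (1 : ℝ) ≤ n := by exact_mod_cast (by omega : 1 ≤ n)
  have hK1 : 1 ≤ K := by
    have : (1 : ℝ) ≤ (n : ℝ) ^ (K1 + K2) := one_le_pow₀ hn1
    rw [hK]; linarith
  have hW : ∀ t, 0 ≤ wt n t := by
    intro t
    unfold wt
    positivity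
  have hbd : |(MM n m α β γ θ θ').det| ≤
      ((n : ℝ) + m) ^ (C * m) * K ^ (2 * m) * (∏ i ∈ Finset.range m, BA 1000 n m i) *
        DX n ((ν - 1) / 2) ^ 8712 * DY n ((ν - 1) / 4) ^ 8712 := by
    apply det_le_of_tendsto (fun T => MT3 n m T (wt n) (ww n β γ)) _
      (fun r c => tends hLF hOM1 n m α β γ θ θ' (by omega) (by omega) hz r c)
    intro T
    apply hC n m T ((ν - 1) / 2) ((ν - 1) / 4) (wt n) (ww n β γ) K _ _ (fun i => BA 1000 n m i) hn2 hm1
      (by omega) (by omega) hW hK1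
    · intro a j hj l hl
      exact ww_le β γ K1 K2 h1 h2 n hn2 a j hj l hl
    · intro S hS hcard
      exact hDOMX n _ S (by omega) hS hcard
    · intro S hS hcard
      exact hDOMY n _ S (by omega) hS hcard
    · intro i hi t hit
      have := hwa i hi t hit
      push_cast at this ⊢
      exact this
  have hDD : ((DD ν α β γ : ℚ) : ℝ) = (MM n m α β γ θ θ').det := hdet
  rw [hDD]
  have hpos : 0 < |(MM n m α β γ θ θ').det| := by
    rw [← hDD]
    exact abs_pos.2 (by exact_mod_cast hD)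
  have hlog := Real.log_le_log hpos hbd
  refine hlog.trans ?_
  have hP := (lt_of_lt_of_le hpos hbd).ne'
  have hP1 := left_ne_zero_of_mul hP
  have hP2 := right_ne_zero_of_mul hP
  have hP3 := left_ne_zero_of_mul hP1
  have hP4 := right_ne_zero_of_mul hP1
  have hP5 := left_ne_zero_of_mul hP3
  have hP6 := right_ne_zero_of_mul hP3
  have hP7 := left_ne_zero_of_mul hP5
  have hP8 := right_ne_zero_of_mul hP5
  rw [Real.log_mul hP1 hP2, Real.log_mul hP3 hP4, Real.log_mul hP5 hP6, Real.log_mul hP7 hP8,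
    Real.log_pow, Real.log_pow, Real.log_pow, Real.log_pow, Real.log_prod]
  · have hν0 : (0 : ℝ) ≤ (ν : ℝ) ^ 2 := by positivity
    have h8 : ((8712 : ℕ) : ℝ) = 8712 := by norm_num
    rw [h8]
    have h9 : (cA1 + cX1 + 3 * ε) * (ν : ℝ) ^ 2 ≤ 1600 * (ν : ℝ) ^ 2 := mul_le_mul_of_nonneg_right hε3 hν0
    nlinarith [hxs, hasa, hsmall, h9]
  · intro i hi
    exact Finset.prod_ne_zero_iff.1 hP6 i hi

end

end Pool.Agent.L0h38.Q4
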