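import Pool.Agent.L0h38.Q4.Stm

/-!
# The archimedean part from its pieces: matrices
-/

open Polynomial Pool.Agent.H337R2 Filter Topology

namespace Pool.Agent.L0h38.Q4

noncomputable section

namespace A_

/-- real matrix with the series in the first block -/
def MM (n m : ℕ) (α β γ : ℕ → ℚ) (θ θ' : ℝ) : Matrix (Fin 3 × Fin m) (Fin 3 × Fin m) ℝ :=
  Matrix.of fun r c =>
    if c.1 = 0 then ((AL n α (X ^ (r.1.1 * m + r.2.1 + c.2.1)) : ℚ) : ℝ) +
      θ * ((BL n β (X ^ (r.1.1 * m + r.2.1 + c.2.1)) : ℚ) : ℝ) +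
      θ' * ((BL n γ (X ^ (r.1.1 * m + r.2.1 + c.2.1)) : ℚ) : ℝ)
    else if c.1 = 1 then ((BL n β (X ^ (r.1.1 * m + r.2.1 + c.2.1)) : ℚ) : ℝ)
    else ((BL n γ (X ^ (r.1.1 * m + r.2.1 + c.2.1)) : ℚ) : ℝ)

lemma det_eq (n m : ℕ) (α β γ : ℕ → ℚ) (θ θ' : ℝ) :
    (((M3 (LL n α β γ) m).det : ℚ) : ℝ) = (MM n m α β γ θ θ').det := by
  have h1 : (((M3 (LL n α β γ) m).det : ℚ) : ℝ) = ((M3 (LL n α β γ) m).map (Rat.castHom ℝ)).det := by
    have := RingHom.map_det (Rat.castHom ℝ) (M3 (LL n α β γ) m)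
    rw [← RingHom.mapMatrix_apply, ← this]
    rfl
  let E0 : Matrix (Fin 3) (Fin 3) ℝ := !![1, 0, 0; θ, 1, 0; θ', 0, 1]
  have h2 : MM n m α β γ θ θ' =
      (M3 (LL n α β γ) m).map (Rat.castHom ℝ) * Matrix.kroneckerMap (· * ·) E0 (1 : Matrix (Fin m) (Fin m) ℝ) := by
    ext r c
    rw [Matrix.mul_apply, Fintype.sum_prod_type]
    simp only [Matrix.kroneckerMap_apply, Matrix.one_apply, mul_ite, mul_one, mul_zero]
    simp only [Finset.sum_ite_eq', Finset.mem_univ, if_true]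
    obtain ⟨b, j⟩ := c
    rw [Fin.sum_univ_three]
    fin_cases b
    · simp [MM, M3, LL, E0]
      ring
    · simp [MM, M3, LL, E0]
    · simp [MM, M3, LL, E0]
  have h3 : E0.det = 1 := by
    rw [Matrix.det_fin_three]
    simp [E0]
  rw [h1, h2, Matrix.det_mul, Matrix.det_kronecker, h3]
  simp

lemma det_le_of_tendsto {ι : Type} [Fintype ι] [DecidableEq ι] (F : ℕ → Matrix ι ι ℝ) (M : Matrix ι ι ℝ)
    (hF : ∀ i j, Tendsto (fun T => F T i j) atTop (𝓝 (M i j))) (b : ℝ) (hb : ∀ T, |(F T).det| ≤ b) :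
    |M.det| ≤ b := by
  have h1 : Tendsto F atTop (𝓝 M) := tendsto_pi_nhds.2 fun i => tendsto_pi_nhds.2 (hF i)
  have h2 : Tendsto (fun T => |(F T).det|) atTop (𝓝 |M.det|) :=
    (continuous_abs.comp (Continuous.matrix_det continuous_id)).continuousAt.tendsto.comp h1
  exact le_of_tendsto h2 (Eventually.of_forall hb)

/-- the weights of the nodes -/
def ww (n : ℕ) (β γ : ℕ → ℚ) (a : Fin 2) (j l : ℕ) : ℝ :=
  ((om n (if a = 0 then β else γ) (n - j) l + om n (if a = 0 then β else γ) (n + 1 + j) l : ℚ) : ℝ)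

lemma hasse_X (N l : ℕ) (x : ℚ) : (hasseDeriv l (X ^ N : ℚ[X])).eval x = (N.choose l : ℚ) * x ^ (N - l) := by
  rw [hasseDeriv_apply]
  rw [Polynomial.X_pow_eq_monomial, Polynomial.sum_monomial_index]
  · simp
  · simp

lemma BL_nodes (hOM1 : S_OM1) (n : ℕ) (β : ℕ → ℚ) (N : ℕ) :
    ((BL n β (X ^ N) : ℚ) : ℝ) = ∑ j ∈ Finset.range n, ∑ l ∈ Finset.range 99,
      ((om n β (n - j) l + om n β (n + 1 + j) l : ℚ) : ℝ) * hd N j l := by
  rw [hOM1]
  have h1 : ∑ k ∈ sP n, ∑ l ∈ Finset.range 99,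
      om n β k l * (hasseDeriv l (X ^ N : ℚ[X])).eval (((n : ℚ) - k) * ((n : ℚ) + 1 - k)) =
      ∑ j ∈ Finset.range n, ∑ l ∈ Finset.range 99, (om n β (n - j) l + om n β (n + 1 + j) l) *
        ((N.choose l : ℚ) * ((j : ℚ) * (j + 1)) ^ (N - l)) := by
    have h2 : sP n = (Finset.range n).image (fun j => n - j) ∪ (Finset.range n).image (fun j => n + 1 + j) := by
      ext k
      simp only [sP, Finset.mem_Icc, Finset.mem_union, Finset.mem_image, Finset.mem_range]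
      constructor
      · intro hk
        rcases le_or_gt k n with h | h
        · exact Or.inl ⟨n - k, by omega, by omega⟩
        · exact Or.inr ⟨k - n - 1, by omega, by omega⟩
      · rintro (⟨j, hj, rfl⟩ | ⟨j, hj, rfl⟩) <;> omega
    have h3 : Disjoint ((Finset.range n).image (fun j => n - j)) ((Finset.range n).image (fun j => n + 1 + j)) := by
      rw [Finset.disjoint_left]
      intro k hk hk'
      simp only [Finset.mem_image, Finset.mem_range] at hk hk'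
      omega
    rw [h2, Finset.sum_union h3, Finset.sum_image, Finset.sum_image, ← Finset.sum_add_distrib]
    · apply Finset.sum_congr rfl
      intro j hj
      rw [Finset.mem_range] at hj
      rw [← Finset.sum_add_distrib]
      apply Finset.sum_congr rfl
      intro l _
      rw [hasse_X, hasse_X, Nat.cast_sub hj.le]
      push_cast
      rw [show ((n : ℚ) - (n - j)) * (n + 1 - (n - j)) = j * (j + 1) by ring,
        show ((n : ℚ) - (n + 1 + j)) * (n + 1 - (n + 1 + j)) = j * (j + 1) by ring]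
      ring
    · intro a _ b _ h
      simp only at h
      omega
    · intro a ha b hb h
      simp only [Finset.coe_range, Set.mem_Iio] at ha hb h
      omega
  rw [h1]
  push_cast
  apply Finset.sum_congr rfl
  intro j _
  apply Finset.sum_congr rfl
  intro l _
  unfold hd nx Pool.Agent.N334.W.nx
  push_cast
  ring

/-- the truncated matrices converge -/
lemma tends (hLF : S_LF) (hOM1 : S_OM1) (n m : ℕ) (α β γ : ℕ → ℚ) (θ θ' : ℝ) (hn : 1 ≤ n)
    (hdeg : 8 * m + 403 ≤ 198 * n + 4)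
    (hz : ∀ i, Odd i → 3 ≤ i → i ≤ 99 → zr i = (α i : ℝ) + θ * (β i : ℝ) + θ' * (γ i : ℝ)) (r c : Fin 3 × Fin m) :
    Tendsto (fun T => MT3 n m T (wt n) (ww n β γ) r c) atTop (𝓝 (MM n m α β γ θ θ' r c)) := by
  obtain ⟨b, j⟩ := c
  have hr1 := r.1.2
  have hr2 := r.2.2
  have hj := j.2
  fin_cases b
  · have h1 := hLF n α β γ θ θ' (X ^ (r.1.1 * m + r.2.1 + j.1)) hn hz (by
      rw [natDegree_X_pow]
      have : r.1.1 * m ≤ 2 * m := Nat.mul_le_mul_right _ (by omega)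
      omega)
    have h2 := h1.tendsto_sum_nat
    have e1 : MM n m α β γ θ θ' r (0, j) = ((AL n α (X ^ (r.1.1 * m + r.2.1 + j.1)) : ℚ) : ℝ) +
      θ * ((BL n β (X ^ (r.1.1 * m + r.2.1 + j.1)) : ℚ) : ℝ) +
      θ' * ((BL n γ (X ^ (r.1.1 * m + r.2.1 + j.1)) : ℚ) : ℝ) := by
      simp [MM]
    have e2 : ∀ T, MT3 n m T (wt n) (ww n β γ) r (0, j) =
        ∑ t ∈ Finset.range T, wt n t * nx 1 (n + t) ^ (r.1.1 * m + r.2.1 + j.1) := by
      intro T
      simp [MT3]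
    change Tendsto (fun T => MT3 n m T (wt n) (ww n β γ) r (0, j)) atTop (𝓝 (MM n m α β γ θ θ' r (0, j)))
    rw [e1]
    simp only [e2]
    refine h2.congr fun T => ?_
    apply Finset.sum_congr rfl
    intro t _
    congr 1
    unfold nx Pool.Agent.N334.W.nx
    simp only [eval_pow, eval_X]
    push_cast
    ring
  · have e1 : MM n m α β γ θ θ' r (1, j) = ((BL n β (X ^ (r.1.1 * m + r.2.1 + j.1)) : ℚ) : ℝ) := by
      simp [MM]
    have e2 : ∀ T, MT3 n m T (wt n) (ww n β γ) r (1, j) = MM n m α β γ θ θ' r (1, j) := by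
      intro T
      rw [e1, BL_nodes hOM1]
      simp [MT3, ww]
    change Tendsto (fun T => MT3 n m T (wt n) (ww n β γ) r (1, j)) atTop (𝓝 (MM n m α β γ θ θ' r (1, j)))
    simp only [e2]
    exact tendsto_const_nhds
  · have e1 : MM n m α β γ θ θ' r (2, j) = ((BL n γ (X ^ (r.1.1 * m + r.2.1 + j.1)) : ℚ) : ℝ) := by
      simp [MM]
    have e2 : ∀ T, MT3 n m T (wt n) (ww n β γ) r (2, j) = MM n m α β γ θ θ' r (2, j) := by
      intro T
      rw [e1, BL_nodes hOM1]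
      simp [MT3, ww]
    change Tendsto (fun T => MT3 n m T (wt n) (ww n β γ) r (2, j)) atTop (𝓝 (MM n m α β γ θ θ' r (2, j)))
    simp only [e2]
    exact tendsto_const_nhds

/-- the bound for the weights of the nodes -/
lemma ww_le (β γ : ℕ → ℚ) (K1 K2 : ℕ)
    (h1 : ∀ n : ℕ, 2 ≤ n → ∀ k ∈ sP n, ∀ l < 99,
      |((om n β k l : ℚ) : ℝ)| ≤ (n : ℝ) ^ K1 * (((2 * n - 1).choose (k - 1) : ℕ) : ℝ) ^ 99 *
        |2 * (n : ℝ) + 1 - 2 * k| ^ l)
    (h2 : ∀ n : ℕ, 2 ≤ n → ∀ k ∈ sP n, ∀ l < 99,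
      |((om n γ k l : ℚ) : ℝ)| ≤ (n : ℝ) ^ K2 * (((2 * n - 1).choose (k - 1) : ℕ) : ℝ) ^ 99 *
        |2 * (n : ℝ) + 1 - 2 * k| ^ l) (n : ℕ) (hn : 2 ≤ n) (a : Fin 2) (j : ℕ) (hj : j < n) (l : ℕ) (hl : l < 99) :
    |ww n β γ a j l| ≤ (2 * (n : ℝ) ^ (K1 + K2)) * bb n j ^ 99 * (2 * (j : ℝ) + 1) ^ l := by
  have hn1 : (1 : ℝ) ≤ n := by exact_mod_cast (by omega : 1 ≤ n)
  have key : ∀ (δ : ℕ → ℚ) (K : ℕ), K ≤ K1 + K2 → (∀ n : ℕ, 2 ≤ n → ∀ k ∈ sP n, ∀ l < 99,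
      |((om n δ k l : ℚ) : ℝ)| ≤ (n : ℝ) ^ K * (((2 * n - 1).choose (k - 1) : ℕ) : ℝ) ^ 99 *
        |2 * (n : ℝ) + 1 - 2 * k| ^ l) →
      |((om n δ (n - j) l + om n δ (n + 1 + j) l : ℚ) : ℝ)| ≤
        (2 * (n : ℝ) ^ (K1 + K2)) * bb n j ^ 99 * (2 * (j : ℝ) + 1) ^ l := by
    intro δ K hK h
    have a1 := h n hn (n - j) (by rw [Finset.mem_Icc]; omega) l hl
    have a2 := h n hn (n + 1 + j) (by rw [Finset.mem_Icc]; omega) l hl
    have e1 : |2 * (n : ℝ) + 1 - 2 * ((n - j : ℕ) : ℝ)| = 2 * (j : ℝ) + 1 := by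
      rw [Nat.cast_sub hj.le, show 2 * (n : ℝ) + 1 - 2 * ((n : ℝ) - j) = 2 * j + 1 by ring]
      exact abs_of_nonneg (by positivity)
    have e2 : |2 * (n : ℝ) + 1 - 2 * ((n + 1 + j : ℕ) : ℝ)| = 2 * (j : ℝ) + 1 := by
      push_cast
      rw [show 2 * (n : ℝ) + 1 - 2 * ((n : ℝ) + 1 + j) = -(2 * j + 1) by ring, abs_neg]
      exact abs_of_nonneg (by positivity)
    have e3 : (((2 * n - 1).choose (n - j - 1) : ℕ) : ℝ) = bb n j := by
      unfold bb
      rw [show n - j - 1 = n - 1 - j by omega]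
    have e4 : (((2 * n - 1).choose (n + 1 + j - 1) : ℕ) : ℝ) = bb n j := by
      unfold bb
      rw [← Nat.choose_symm (by omega : n - 1 - j ≤ 2 * n - 1)]
      rw [show 2 * n - 1 - (n - 1 - j) = n + 1 + j - 1 by omega]
    rw [e1, e3] at a1
    rw [e2, e4] at a2
    have hb : 0 ≤ bb n j := by unfold bb; positivity
    have hpow : (n : ℝ) ^ K ≤ (n : ℝ) ^ (K1 + K2) := pow_le_pow_right₀ hn1 hK
    have h5 : (n : ℝ) ^ K * bb n j ^ 99 * (2 * (j : ℝ) + 1) ^ l ≤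
        (n : ℝ) ^ (K1 + K2) * bb n j ^ 99 * (2 * (j : ℝ) + 1) ^ l := by
      gcongr
    push_cast
    calc _ ≤ |((om n δ (n - j) l : ℚ) : ℝ)| + |((om n δ (n + 1 + j) l : ℚ) : ℝ)| := abs_add_le _ _
      _ ≤ _ := by linarith
  unfold ww
  by_cases ha : a = 0
  · simp only [ha, if_true]
    exact key β K1 (by omega) h1
  · simp only [ha, if_false]
    exact key γ K2 (by omega) h2

end A_

end

end Pool.Agent.L0h38.Q4
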