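import Pool.Agent.L0h38.Q4.ARCHf
import Pool.Agent.N334.W.GV
import Pool.Agent.N334.W.PT
import Pool.Agent.N334.W.RR

/-!
# Q4/ARCH: the bound of the truncated three-block determinant (helper9)
-/

set_option autoImplicit false

open Finset

namespace Pool.Agent.L0h38.Q4

noncomputable section

namespace ARCHx

variable {n T m : ℕ}

theorem XC_nonneg (n m : ℕ) {K : ℝ} (hK : 0 ≤ K) (D1 D2 : ℝ) : 0 ≤ XC n m K D1 D2 := by
  have h1 : 0 ≤ K * 3 ^ 196 * (2 * (n : ℝ)) ^ 264 :=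
    mul_nonneg (mul_nonneg hK (pow_nonneg (by norm_num) _)) (pow_nonneg (by positivity) _)
  have h2 : 0 ≤ (n : ℝ) ^ 264 := pow_nonneg (Nat.cast_nonneg _) _
  have h3 : 0 ≤ (D1 ^ 66) ^ 132 := Even.pow_nonneg ⟨66, by norm_num⟩ _
  have h4 : 0 ≤ (D2 ^ 33) ^ 132 := Even.pow_nonneg ⟨66, by norm_num⟩ _
  unfold XC
  exact mul_nonneg (pow_nonneg h1 _) (mul_nonneg (mul_nonneg h3 (pow_nonneg h2 _))
    (mul_nonneg (mul_nonneg h4 (pow_nonneg h2 _)) (mul_nonneg h4 (pow_nonneg h2 _))))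

theorem ph_nonneg (a : Atom n T) : 0 ≤ phA a := by
  unfold phA
  split_ifs
  · exact inv_nonneg.2 (sq_nonneg _)
  · exact zero_le_one

/-- the bound of a term -/
theorem term_bound (hGV : Pool.Agent.N334.W.S_GV) (hPT : Pool.Agent.N334.W.S_PT)
    (hRR : Pool.Agent.N334.W.S_RR) {NX NY : ℕ} {W : ℕ → ℝ} {ω : Fin 2 → ℕ → ℕ → ℝ}
    {K D1 D2 : ℝ} {B : ℕ → ℝ} (hn : 2 ≤ n) (hm : 1 ≤ m) (hX : 2 * m = 132 * NX)
    (hY : m = 132 * NY) (hW : ∀ t, 0 ≤ W t) (hK : 1 ≤ K)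
    (hω : ∀ a, ∀ j < n, ∀ l < 99, |ω a j l| ≤ K * bb n j ^ 99 * (2 * (j : ℝ) + 1) ^ l)
    (hD1 : ∀ S ⊆ Finset.range n, S.card = NX → (∏ a ∈ S, bb n a) * vd 1 S ^ 2 ≤ D1)
    (hD2 : ∀ S ⊆ Finset.range n, S.card = NY → (∏ a ∈ S, bb n a) * vd 1 S ^ 4 ≤ D2)
    (hB : ∀ i < m, ∀ t, i ≤ t → W t * ((n : ℝ) + t + 1) ^ (4 * m + 4 * i + 1000) ≤ B i)
    (hB0 : 0 ≤ ∏ k ∈ range m, B k) (f : Fin 3 × Fin m → Atom n T) :
    |(∏ r, co W ω (f r)) * (Um f).det * (Vm f).det| ≤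
      Ec (3 * m) * Ec m ^ 3 * (XC n m K D1 D2 * ((∏ k ∈ range m, B k) * ∏ r, phA (f r))) := by
  have hR : 0 ≤ Ec (3 * m) * Ec m ^ 3 * (XC n m K D1 D2 * ((∏ k ∈ range m, B k) *
      ∏ r, phA (f r))) :=
    mul_nonneg (mul_nonneg (Ec_pos _).le (pow_nonneg (Ec_pos _).le _))
      (mul_nonneg (XC_nonneg n m (by linarith) D1 D2)
        (mul_nonneg hB0 (Finset.prod_nonneg fun r _ => ph_nonneg _)))
  by_cases hU : (Um f).det = 0
  · rw [hU, mul_zero, zero_mul, abs_zero]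
    exact hR
  by_cases hV : (Vm f).det = 0
  · rw [hV, mul_zero, abs_zero]
    exact hR
  obtain ⟨σ, hσ1, hσ2⟩ := exists_sort f hU hV
  have hinj := inj_of_U f hU
  have h := term_sorted hGV hPT hRR hn hm hX hY hW hK hω hD1 hD2 hB (fun r => f (σ r))
    (fun r r' h1 h2 => σ.injective (hinj _ _ h1 h2)) hσ1 hσ2
  rw [Um_perm, Vm_perm, Equiv.prod_comp σ (fun r => |co W ω (f r)|),
    Equiv.prod_comp σ (fun r => phA (f r))] at h
  rw [abs_mul, abs_mul, Finset.abs_prod]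
  exact h

theorem sum_ph (hn : 2 ≤ n) : ∑ a : Atom n T, phA a ≤ 1 + 19602 * n := by
  rw [Fintype.sum_sum_type]
  have h1 : ∑ t : Fin T, phA (Sum.inl t : Atom n T) ≤ 1 := by
    have h2 := Pool.Agent.N334.W.Arch.sum_inv_sq (n + 1) T (by omega)
    rw [← Fin.sum_univ_eq_sum_range (fun t => (((t : ℝ) + ((n + 1 : ℕ) : ℝ)) ^ 2)⁻¹) T] at h2
    refine le_trans (le_of_eq ?_) h2
    refine Finset.sum_congr rfl fun t _ => ?_
    have h3 : pos (Sum.inl t : Atom n T) = 2 := rfl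
    rw [phA, if_pos h3]
    change ((((n + t.1 : ℕ) : ℝ) + 1) ^ 2)⁻¹ = _
    congr 2
    push_cast
    ring
  have h2 : ∑ y : Fin 2 × Fin n × Fin 99 × Fin 99, phA (Sum.inr y : Atom n T) ≤ 19602 * n := by
    have h3 : ∀ y : Fin 2 × Fin n × Fin 99 × Fin 99, phA (Sum.inr y : Atom n T) ≤ 1 := by
      intro y
      rw [phA, if_neg]
      simp only [pos]
      split_ifs
      · decide
      · decide
    calc ∑ y : Fin 2 × Fin n × Fin 99 × Fin 99, phA (Sum.inr y : Atom n T)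
        ≤ ∑ _y : Fin 2 × Fin n × Fin 99 × Fin 99, (1 : ℝ) := Finset.sum_le_sum fun y _ => h3 y
      _ = 19602 * n := by
          rw [Finset.sum_const, Finset.card_univ, Fintype.card_prod, Fintype.card_prod,
            Fintype.card_prod, Fintype.card_fin, Fintype.card_fin, Fintype.card_fin, nsmul_eq_mul]
          push_cast
          ring
  linarith

theorem Ec_le (a m : ℕ) (q : ℝ) (hm : 1 ≤ a * m) (hq : 3 * ((a * m : ℕ) : ℝ) ≤ q ^ 2) :
    Ec (a * m) ≤ q ^ (264 * a * m) := by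
  have hm' : (0 : ℝ) < ((a * m : ℕ) : ℝ) := by exact_mod_cast hm
  have h1 : Ec (a * m) = (Real.exp 1 * ((a * m : ℕ) : ℝ)) ^ (132 * a * m) := by
    rw [Ec]
    conv_rhs => rw [← Real.exp_log hm', ← Real.exp_add, ← Real.exp_nat_mul]
    congr 1
    push_cast
    ring
  have he : Real.exp 1 ≤ 3 := by
    have := Real.exp_one_lt_d9
    linarith
  rw [h1]
  calc (Real.exp 1 * ((a * m : ℕ) : ℝ)) ^ (132 * a * m) ≤ (q ^ 2) ^ (132 * a * m) := by
        apply pow_le_pow_left₀ (by positivity)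
        exact le_trans (mul_le_mul_of_nonneg_right he hm'.le) hq
    _ = q ^ (264 * a * m) := by
        rw [← pow_mul]
        congr 1
        ring

theorem XC_le (n m : ℕ) (K D1 D2 q : ℝ) (hK : 0 ≤ K) (hq3 : 3 ≤ q) (hn : (n : ℝ) ≤ q)
    (h2n : 2 * (n : ℝ) ≤ q ^ 2) :
    XC n m K D1 D2 ≤ q ^ (2504 * m) * (K ^ (2 * m) * (D1 ^ 8712 * D2 ^ 8712)) := by
  have hn0 : (0 : ℝ) ≤ n := Nat.cast_nonneg _
  have hq0 : 0 ≤ q := by linarith
  have e1 : (D1 ^ 66) ^ 132 = D1 ^ 8712 := by rw [← pow_mul]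
  have e2 : (D2 ^ 33) ^ 132 * (D2 ^ 33) ^ 132 = D2 ^ 8712 := by
    rw [← pow_mul, ← pow_add]
  have hD : 0 ≤ K ^ (2 * m) * (D1 ^ 8712 * D2 ^ 8712) :=
    mul_nonneg (pow_nonneg hK _) (mul_nonneg (Even.pow_nonneg ⟨4356, by norm_num⟩ _)
      (Even.pow_nonneg ⟨4356, by norm_num⟩ _))
  have h1 : ((3 : ℝ) ^ 196) ^ (2 * m) ≤ q ^ (392 * m) := by
    rw [← pow_mul]
    have : 196 * (2 * m) = 392 * m := by ring
    rw [this]
    exact pow_le_pow_left₀ (by norm_num) hq3 _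
  have h2 : ((2 * (n : ℝ)) ^ 264) ^ (2 * m) ≤ q ^ (1056 * m) := by
    rw [← pow_mul]
    calc (2 * (n : ℝ)) ^ (264 * (2 * m)) ≤ (q ^ 2) ^ (264 * (2 * m)) :=
          pow_le_pow_left₀ (by positivity) h2n _
      _ = q ^ (1056 * m) := by
          rw [← pow_mul]
          congr 1
          ring
  have h3 : ((n : ℝ) ^ 264) ^ (2 * m) * (((n : ℝ) ^ 264) ^ m * ((n : ℝ) ^ 264) ^ m) ≤
      q ^ (1056 * m) := by
    rw [← pow_add, ← pow_add, ← pow_mul]
    have : 264 * (2 * m + (m + m)) = 1056 * m := by ring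
    rw [this]
    exact pow_le_pow_left₀ hn0 hn _
  have key : XC n m K D1 D2 = (((3 : ℝ) ^ 196) ^ (2 * m) * ((2 * (n : ℝ)) ^ 264) ^ (2 * m) *
      (((n : ℝ) ^ 264) ^ (2 * m) * (((n : ℝ) ^ 264) ^ m * ((n : ℝ) ^ 264) ^ m))) *
      (K ^ (2 * m) * (D1 ^ 8712 * D2 ^ 8712)) := by
    unfold XC
    rw [mul_pow, mul_pow, ← e1, ← e2]
    generalize ((3 : ℝ) ^ 196) ^ (2 * m) = a1
    generalize ((2 * (n : ℝ)) ^ 264) ^ (2 * m) = a2
    generalize ((n : ℝ) ^ 264) ^ (2 * m) = a3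
    generalize ((n : ℝ) ^ 264) ^ m = a4
    generalize (D1 ^ 66) ^ 132 = a5
    generalize (D2 ^ 33) ^ 132 = a6
    generalize K ^ (2 * m) = a7
    ring
  rw [key]
  apply mul_le_mul_of_nonneg_right _ hD
  have p2 : 0 ≤ ((2 * (n : ℝ)) ^ 264) ^ (2 * m) := pow_nonneg (pow_nonneg (by positivity) _) _
  have p3 : 0 ≤ ((n : ℝ) ^ 264) ^ (2 * m) * (((n : ℝ) ^ 264) ^ m * ((n : ℝ) ^ 264) ^ m) :=
    mul_nonneg (pow_nonneg (pow_nonneg hn0 _) _) (mul_nonneg (pow_nonneg (pow_nonneg hn0 _) _)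
      (pow_nonneg (pow_nonneg hn0 _) _))
  calc ((3 : ℝ) ^ 196) ^ (2 * m) * ((2 * (n : ℝ)) ^ 264) ^ (2 * m) *
      (((n : ℝ) ^ 264) ^ (2 * m) * (((n : ℝ) ^ 264) ^ m * ((n : ℝ) ^ 264) ^ m))
      ≤ q ^ (392 * m) * q ^ (1056 * m) * q ^ (1056 * m) :=
        mul_le_mul (mul_le_mul h1 h2 p2 (pow_nonneg hq0 _)) h3 p3
          (mul_nonneg (pow_nonneg hq0 _) (pow_nonneg hq0 _))
    _ = q ^ (2504 * m) := by
        rw [← pow_add, ← pow_add]
        congr 1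
        ring

end ARCHx

open ARCHx

theorem ARCH : S_ARCH := by
  have hGV := Pool.Agent.N334.W.GV
  have hPT := Pool.Agent.N334.W.PT
  have hRR := Pool.Agent.N334.W.RR
  refine ⟨4100, ?_⟩
  intro n m T NX NY W ω K D1 D2 B hn hm hX hY hW hK hω hD1 hD2 hB
  have hn' : (2 : ℝ) ≤ n := by exact_mod_cast hn
  have hm132 : 132 ≤ m := by
    rcases Nat.eq_zero_or_pos NY with h | h
    · rw [h] at hY
      omega
    · omega
  have hm' : (132 : ℝ) ≤ m := by exact_mod_cast hm132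
  obtain ⟨q, hq⟩ : ∃ q : ℝ, q = (n : ℝ) + m := ⟨_, rfl⟩
  have hq134 : 134 ≤ q := by rw [hq]; linarith
  have hq0 : 0 ≤ q := by linarith
  have hqn : (n : ℝ) ≤ q := by rw [hq]; linarith
  have hqm : (m : ℝ) ≤ q := by rw [hq]; linarith
  have hB1 : ∀ i < m, 0 ≤ B i := by
    intro i hi
    exact le_trans (mul_nonneg (hW i) (pow_nonneg (by positivity) _)) (hB i hi i le_rfl)
  have hB0 : 0 ≤ ∏ k ∈ range m, B k :=
    Finset.prod_nonneg fun k hk => hB1 k (Finset.mem_range.1 hk)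
  have hterm := fun f : Fin 3 × Fin m → Atom n T =>
    term_bound hGV hPT hRR hn hm hX hY hW hK hω hD1 hD2 hB hB0 f
  have hexp := expand (n := n) (T := T) (m := m) W ω
  have hfac : (1 : ℝ) ≤ ((3 * m).factorial : ℝ) := by
    exact_mod_cast Nat.succ_le_of_lt (Nat.factorial_pos _)
  have hsum : ∑ f : Fin 3 × Fin m → Atom n T, ∏ r, phA (f r) ≤ (1 + 19602 * (n : ℝ)) ^ (3 * m) := by
    have h1 : ∑ f : Fin 3 × Fin m → Atom n T, ∏ r, phA (f r) =
        ∏ _r : Fin 3 × Fin m, ∑ a : Atom n T, phA a := by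
      rw [Finset.prod_univ_sum, Fintype.piFinset_univ]
    rw [h1, Finset.prod_const, Finset.card_univ, Fintype.card_prod, Fintype.card_fin,
      Fintype.card_fin]
    exact pow_le_pow_left₀ (Finset.sum_nonneg fun a _ => ph_nonneg a) (sum_ph hn) _
  have hE1 : Ec (3 * m) ≤ q ^ (792 * m) := by
    have := Ec_le 3 m q (by omega) (by push_cast; nlinarith)
    simpa using this
  have hE2 : Ec m ^ 3 ≤ q ^ (792 * m) := by
    have h1 := Ec_le 1 m q (by omega) (by push_cast; nlinarith)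
    rw [one_mul] at h1
    calc Ec m ^ 3 ≤ (q ^ (264 * 1 * m)) ^ 3 := pow_le_pow_left₀ (Ec_pos m).le h1 3
      _ = q ^ (792 * m) := by
        rw [← pow_mul]
        congr 1
        ring
  have hXC := XC_le n m K D1 D2 q (by linarith) (by linarith) hqn (by nlinarith)
  have hS : (1 + 19602 * (n : ℝ)) ^ (3 * m) ≤ q ^ (12 * m) := by
    have h1 : 1 + 19602 * (n : ℝ) ≤ q ^ 4 := by
      have h2 : (19603 : ℝ) ≤ q ^ 3 := by
        calc (19603 : ℝ) ≤ 134 ^ 3 := by norm_num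
          _ ≤ q ^ 3 := pow_le_pow_left₀ (by norm_num) hq134 3
      calc 1 + 19602 * (n : ℝ) ≤ 19603 * n := by linarith
        _ ≤ q ^ 3 * q := mul_le_mul h2 hqn (by linarith) (by positivity)
        _ = q ^ 4 := by ring
    calc (1 + 19602 * (n : ℝ)) ^ (3 * m) ≤ (q ^ 4) ^ (3 * m) :=
          pow_le_pow_left₀ (by positivity) h1 _
      _ = q ^ (12 * m) := by
          rw [← pow_mul]
          congr 1
          ring
  have hXn := XC_nonneg n m (show (0 : ℝ) ≤ K by linarith) D1 D2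
  have hE1n := (Ec_pos (3 * m)).le
  have hE2n : 0 ≤ Ec m ^ 3 := pow_nonneg (Ec_pos m).le 3
  rw [← hq]
  calc |(MT3 n m T W ω).det| ≤ ((3 * m).factorial : ℝ) * |(MT3 n m T W ω).det| :=
        le_mul_of_one_le_left (abs_nonneg _) hfac
    _ = |((3 * m).factorial : ℝ) * (MT3 n m T W ω).det| := by
        rw [abs_mul, abs_of_nonneg (by linarith : (0 : ℝ) ≤ ((3 * m).factorial : ℝ))]
    _ ≤ ∑ f : Fin 3 × Fin m → Atom n T,
          Ec (3 * m) * Ec m ^ 3 * (XC n m K D1 D2 * ((∏ k ∈ range m, B k) * ∏ r, phA (f r))) := by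
        rw [hexp]
        exact (Finset.abs_sum_le_sum_abs _ _).trans (Finset.sum_le_sum fun f _ => hterm f)
    _ = Ec (3 * m) * Ec m ^ 3 * (XC n m K D1 D2 * ((∏ k ∈ range m, B k) *
          ∑ f : Fin 3 × Fin m → Atom n T, ∏ r, phA (f r))) := by
        rw [Finset.mul_sum, Finset.mul_sum, Finset.mul_sum]
    _ ≤ Ec (3 * m) * Ec m ^ 3 * (XC n m K D1 D2 * ((∏ k ∈ range m, B k) * q ^ (12 * m))) := by
        apply mul_le_mul_of_nonneg_left _ (mul_nonneg hE1n hE2n)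
        apply mul_le_mul_of_nonneg_left _ hXn
        exact mul_le_mul_of_nonneg_left (hsum.trans hS) hB0
    _ ≤ q ^ (792 * m) * q ^ (792 * m) *
          ((q ^ (2504 * m) * (K ^ (2 * m) * (D1 ^ 8712 * D2 ^ 8712))) *
            ((∏ k ∈ range m, B k) * q ^ (12 * m))) := by
        have hBq : 0 ≤ (∏ k ∈ range m, B k) * q ^ (12 * m) := mul_nonneg hB0 (pow_nonneg hq0 _)
        apply mul_le_mul (mul_le_mul hE1 hE2 hE2n (pow_nonneg hq0 _))
          (mul_le_mul_of_nonneg_right hXC hBq) (mul_nonneg hXn hBq)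
          (mul_nonneg (pow_nonneg hq0 _) (pow_nonneg hq0 _))
    _ = q ^ (4100 * m) * K ^ (2 * m) * (∏ i ∈ range m, B i) * D1 ^ 8712 * D2 ^ 8712 := by
        have e : q ^ (4100 * m) = q ^ (792 * m) * q ^ (792 * m) * q ^ (2504 * m) * q ^ (12 * m) := by
          rw [← pow_add, ← pow_add, ← pow_add]
          congr 1
          ring
        rw [e]
        generalize q ^ (792 * m) = a1
        generalize q ^ (2504 * m) = a2
        generalize q ^ (12 * m) = a3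
        generalize D1 ^ 8712 = a4
        generalize D2 ^ 8712 = a5
        generalize K ^ (2 * m) = a6
        generalize (∏ i ∈ range m, B i) = a7
        ring

end

end Pool.Agent.L0h38.Q4
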