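import Pool.Agent.L0h38.Q4.Stm
import Pool.Agent.N334.W.ARCH
import Pool.Agent.TH650.GB.CB

/-!
# Q4/ARCH: the atoms of the three-block determinant (helper9)
-/

set_option autoImplicit false

open Finset

namespace Pool.Agent.L0h38.Q4

noncomputable section

namespace ARCHx

/-- the atoms: summation points `t`, and pole points `(block, node, l₁, l₂)` -/
abbrev Atom (n T : ℕ) := Fin T ⊕ (Fin 2 × Fin n × Fin 99 × Fin 99)

variable {n T m : ℕ}

/-- position of the block of the atom: `0`, `1` for the poles, `2` for the summation points -/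
def pos : Atom n T → Fin 3
  | Sum.inl _ => 2
  | Sum.inr a => if a.1 = 0 then 0 else 1

/-- node -/
def nd : Atom n T → ℕ
  | Sum.inl t => n + t.1
  | Sum.inr a => a.2.1.1

/-- order of the derivative in the row determinant -/
def al : Atom n T → ℕ
  | Sum.inl _ => 0
  | Sum.inr a => a.2.2.1.1

/-- order of the derivative in the column determinant -/
def be : Atom n T → ℕ
  | Sum.inl _ => 0
  | Sum.inr a => a.2.2.2.1

/-- coefficient -/
def co (W : ℕ → ℝ) (ω : Fin 2 → ℕ → ℕ → ℝ) : Atom n T → ℝ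
  | Sum.inl t => W t.1
  | Sum.inr a => if a.2.2.1.1 + a.2.2.2.1 < 99 then ω a.1 a.2.1.1 (a.2.2.1.1 + a.2.2.2.1) else 0

/-- Hasse derivative of a power -/
def pw (x : ℝ) (a i : ℕ) : ℝ := (i.choose a : ℝ) * x ^ (i - a)

lemma pw_zero (x : ℝ) (i : ℕ) : pw x 0 i = x ^ i := by simp [pw]

lemma pw_add (x : ℝ) (i j l : ℕ) :
    ((i + j).choose l : ℝ) * x ^ (i + j - l) =
      ∑ p ∈ Finset.HasAntidiagonal.antidiagonal l, pw x p.1 i * pw x p.2 j := by
  rw [Nat.add_choose_eq, Nat.cast_sum, Finset.sum_mul]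
  apply Finset.sum_congr rfl
  intro p hp
  rw [Finset.HasAntidiagonal.mem_antidiagonal] at hp
  unfold pw
  by_cases h1 : p.1 ≤ i
  · by_cases h2 : p.2 ≤ j
    · have h3 : i + j - l = (i - p.1) + (j - p.2) := by omega
      rw [h3, pow_add]
      push_cast
      ring
    · rw [Nat.choose_eq_zero_of_lt (show j < p.2 by omega)]
      simp
  · rw [Nat.choose_eq_zero_of_lt (show i < p.1 by omega)]
    simp

/-- row matrix -/
def Um (f : Fin 3 × Fin m → Atom n T) : Matrix (Fin 3 × Fin m) (Fin 3 × Fin m) ℝ :=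
  Matrix.of fun a c => pw (nx 1 (nd (f a))) (al (f a)) (c.1.1 * m + c.2.1)

/-- column matrix -/
def Vm (f : Fin 3 × Fin m → Atom n T) : Matrix (Fin 3 × Fin m) (Fin 3 × Fin m) ℝ :=
  Matrix.of fun a c => if c.1 = pos (f a) + 1 then pw (nx 1 (nd (f a))) (be (f a)) c.2.1 else 0

lemma MT3_eq (W : ℕ → ℝ) (ω : Fin 2 → ℕ → ℕ → ℝ) :
    MT3 n m T W ω = (Matrix.of fun (r : Fin 3 × Fin m) (a : Atom n T) =>
        co W ω a * pw (nx 1 (nd a)) (al a) (r.1.1 * m + r.2.1)) *
      (Matrix.of fun (a : Atom n T) (c : Fin 3 × Fin m) =>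
        if c.1 = pos a + 1 then pw (nx 1 (nd a)) (be a) c.2.1 else 0) := by
  ext r c
  rw [Matrix.mul_apply, Fintype.sum_sum_type]
  unfold MT3
  rw [Matrix.of_apply]
  simp only [Matrix.of_apply]
  -- the contribution of the poles
  have key : ∀ a : Fin 2, ∑ b : Fin n × Fin 99 × Fin 99,
      co W ω (Sum.inr (a, b) : Atom n T) * pw (nx 1 (nd (Sum.inr (a, b) : Atom n T)))
        (al (Sum.inr (a, b) : Atom n T)) (r.1.1 * m + r.2.1) *
      pw (nx 1 (nd (Sum.inr (a, b) : Atom n T))) (be (Sum.inr (a, b) : Atom n T)) c.2.1 =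
      ∑ j ∈ Finset.range n, ∑ l ∈ Finset.range 99,
        ω a j l * hd (r.1.1 * m + r.2.1 + c.2.1) j l := by
    intro a
    rw [Fintype.sum_prod_type, ← Fin.sum_univ_eq_sum_range (fun j => ∑ l ∈ Finset.range 99,
        ω a j l * hd (r.1.1 * m + r.2.1 + c.2.1) j l) n]
    refine Finset.sum_congr rfl fun j _ => ?_
    rw [Fintype.sum_prod_type]
    have h1 : ∀ l ∈ Finset.range 99, ω a j.1 l * hd (r.1.1 * m + r.2.1 + c.2.1) j.1 l =
        ∑ p ∈ Finset.HasAntidiagonal.antidiagonal l, ω a j.1 (p.1 + p.2) *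
          (pw (nx 1 j.1) p.1 (r.1.1 * m + r.2.1) * pw (nx 1 j.1) p.2 c.2.1) := by
      intro l _
      unfold hd
      rw [pw_add, Finset.mul_sum]
      refine Finset.sum_congr rfl fun p hp => ?_
      rw [Finset.HasAntidiagonal.mem_antidiagonal] at hp
      rw [hp]
    rw [Finset.sum_congr rfl h1, Pool.Agent.N334.W.Arch.sum_anti 99 (fun x y => ω a j.1 (x + y) *
          (pw (nx 1 j.1) x (r.1.1 * m + r.2.1) * pw (nx 1 j.1) y c.2.1)),
      ← Fin.sum_univ_eq_sum_range (fun x => ∑ y ∈ Finset.range 99, if x + y < 99 then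
        ω a j.1 (x + y) * (pw (nx 1 j.1) x (r.1.1 * m + r.2.1) * pw (nx 1 j.1) y c.2.1) else 0) 99]
    refine Finset.sum_congr rfl fun x _ => ?_
    rw [← Fin.sum_univ_eq_sum_range (fun y => if x.1 + y < 99 then
        ω a j.1 (x.1 + y) * (pw (nx 1 j.1) x.1 (r.1.1 * m + r.2.1) * pw (nx 1 j.1) y c.2.1) else 0) 99]
    refine Finset.sum_congr rfl fun y _ => ?_
    simp only [co, nd, al, be]
    split_ifs <;> ring
  rw [Fintype.sum_prod_type, Fin.sum_univ_two]
  obtain ⟨c1, c2⟩ := c
  fin_cases c1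
  · have e0 : (∑ x : Fin T, co W ω (Sum.inl x : Atom n T) *
        pw (nx 1 (nd (Sum.inl x : Atom n T))) (al (Sum.inl x : Atom n T)) (r.1.1 * m + r.2.1) *
        (if (0 : Fin 3) = pos (Sum.inl x : Atom n T) + 1 then
          pw (nx 1 (nd (Sum.inl x : Atom n T))) (be (Sum.inl x : Atom n T)) c2.1 else 0)) =
        ∑ t ∈ Finset.range T, W t * nx 1 (n + t) ^ (r.1.1 * m + r.2.1 + c2.1) := by
      rw [← Fin.sum_univ_eq_sum_range (fun t => W t * nx 1 (n + t) ^ (r.1.1 * m + r.2.1 + c2.1)) T]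
      refine Finset.sum_congr rfl fun t _ => ?_
      have h : (0 : Fin 3) = pos (Sum.inl t : Atom n T) + 1 := by
        rw [pos]; decide
      rw [if_pos h]
      simp only [co, nd, al, be, pw_zero]
      ring
    have e1 : ∀ b : Fin n × Fin 99 × Fin 99,
        ¬ (0 : Fin 3) = pos (Sum.inr ((0 : Fin 2), b) : Atom n T) + 1 := by
      intro b
      simp [pos]
    have e2 : ∀ b : Fin n × Fin 99 × Fin 99,
        ¬ (0 : Fin 3) = pos (Sum.inr ((1 : Fin 2), b) : Atom n T) + 1 := by
      intro b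
      have h : ¬ ((1 : Fin 2) = 0) := by decide
      simp only [pos, if_neg h]
      decide
    simp only [Fin.zero_eta, Fin.isValue, if_true]
    simp only [e1, e2, if_false, mul_zero, Finset.sum_const_zero, add_zero]
    exact e0.symm
  · have e0 : ∀ x : Fin T, ¬ (1 : Fin 3) = pos (Sum.inl x : Atom n T) + 1 := by
      intro x
      simp only [pos]
      decide
    have e1 : ∀ b : Fin n × Fin 99 × Fin 99,
        (1 : Fin 3) = pos (Sum.inr ((0 : Fin 2), b) : Atom n T) + 1 := by
      intro b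
      simp [pos]
    have e2 : ∀ b : Fin n × Fin 99 × Fin 99,
        ¬ (1 : Fin 3) = pos (Sum.inr ((1 : Fin 2), b) : Atom n T) + 1 := by
      intro b
      have h : ¬ ((1 : Fin 2) = 0) := by decide
      simp only [pos, if_neg h]
      decide
    simp only [Fin.mk_one, Fin.isValue, one_ne_zero, if_true, if_false]
    simp only [e0, if_false, mul_zero, Finset.sum_const_zero, zero_add, e2, add_zero]
    simp only [← e1, if_true]
    exact (key 0).symm
  · have e0 : ∀ x : Fin T, ¬ (2 : Fin 3) = pos (Sum.inl x : Atom n T) + 1 := by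
      intro x
      simp only [pos]
      decide
    have e1 : ∀ b : Fin n × Fin 99 × Fin 99,
        ¬ (2 : Fin 3) = pos (Sum.inr ((0 : Fin 2), b) : Atom n T) + 1 := by
      intro b
      simp only [pos]
      decide
    have e2 : ∀ b : Fin n × Fin 99 × Fin 99,
        (2 : Fin 3) = pos (Sum.inr ((1 : Fin 2), b) : Atom n T) + 1 := by
      intro b
      have h : ¬ ((1 : Fin 2) = 0) := by decide
      simp only [pos, if_neg h]
      decide
    have h20 : ¬ (2 : Fin 3) = 0 := by decide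
    have h21 : ¬ (2 : Fin 3) = 1 := by decide
    simp only [Fin.reduceFinMk, Fin.isValue, h20, h21, if_false]
    simp only [e0, if_false, mul_zero, Finset.sum_const_zero, zero_add, e1]
    simp only [← e2, if_true]
    exact (key 1).symm

/-- the expansion -/
theorem expand (W : ℕ → ℝ) (ω : Fin 2 → ℕ → ℕ → ℝ) :
    ((3 * m).factorial : ℝ) * (MT3 n m T W ω).det =
      ∑ f : Fin 3 × Fin m → Atom n T, (∏ r, co W ω (f r)) * (Um f).det * (Vm f).det := by
  have h := Pool.Agent.TH650.GB.cb (Matrix.of fun (r : Fin 3 × Fin m) (a : Atom n T) =>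
        co W ω a * pw (nx 1 (nd a)) (al a) (r.1.1 * m + r.2.1))
      (Matrix.of fun (a : Atom n T) (c : Fin 3 × Fin m) =>
        if c.1 = pos a + 1 then pw (nx 1 (nd a)) (be a) c.2.1 else 0)
  rw [← MT3_eq, Fintype.card_prod, Fintype.card_fin, Fintype.card_fin] at h
  rw [h]
  refine Finset.sum_congr rfl fun f _ => ?_
  congr 1
  have h2 : (Matrix.of fun (r : Fin 3 × Fin m) (a : Atom n T) =>
        co W ω a * pw (nx 1 (nd a)) (al a) (r.1.1 * m + r.2.1)).submatrix id f =
      (Um f).transpose * Matrix.diagonal (fun r => co W ω (f r)) := by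
    ext i j
    simp [Matrix.mul_diagonal, mul_comm, Um]
  rw [h2, Matrix.det_mul, Matrix.det_transpose, Matrix.det_diagonal]
  ring

end ARCHx

end

end Pool.Agent.L0h38.Q4
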