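import Pool.Agent.L0h38.Q4.ARCHa

/-!
# Q4/ARCH: sorting of the atoms (helper9)
-/

set_option autoImplicit false

open Finset

namespace Pool.Agent.L0h38.Q4

noncomputable section

namespace ARCHx

variable {n T m : ℕ}

theorem inj_of_U (f : Fin 3 × Fin m → Atom n T) (h : (Um f).det ≠ 0) (r r' : Fin 3 × Fin m)
    (h1 : nd (f r) = nd (f r')) (h2 : al (f r) = al (f r')) : r = r' := by
  by_contra hne
  apply h
  apply Matrix.det_zero_of_row_eq hne
  funext c
  simp only [Um, Matrix.of_apply]
  rw [h1, h2]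

theorem card_le_of_V (f : Fin 3 × Fin m → Atom n T) (h : (Vm f).det ≠ 0) (a : Fin 3) :
    (Finset.univ.filter fun r => pos (f r) = a).card ≤ m := by
  classical
  by_contra hc
  push Not at hc
  apply h
  rw [Matrix.det_apply]
  refine Finset.sum_eq_zero fun σ _ => ?_
  have h1 : (Finset.univ.filter fun c : Fin 3 × Fin m => c.1 = a + 1).card = m := by
    have : (Finset.univ.filter fun c : Fin 3 × Fin m => c.1 = a + 1) =
        ({a + 1} : Finset (Fin 3)) ×ˢ (Finset.univ : Finset (Fin m)) := by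
      ext ⟨x, y⟩
      simp [eq_comm]
    rw [this, Finset.card_product, Finset.card_singleton, one_mul, Finset.card_univ,
      Fintype.card_fin]
  have h2 : ∃ r, pos (f r) = a ∧ (σ⁻¹ r).1 ≠ a + 1 := by
    by_contra h3
    push Not at h3
    have h4 : (Finset.univ.filter fun r => pos (f r) = a).card ≤
        (Finset.univ.filter fun c : Fin 3 × Fin m => c.1 = a + 1).card := by
      apply Finset.card_le_card_of_injOn (fun r => σ⁻¹ r)
      · intro r hr
        have hr' := (Finset.mem_filter.1 (Finset.mem_coe.1 hr)).2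
        exact Finset.mem_coe.2 (Finset.mem_filter.2 ⟨Finset.mem_univ _, h3 r hr'⟩)
      · intro r _ r' _ hrr
        exact (σ⁻¹).injective hrr
    omega
  obtain ⟨r, hr, hr2⟩ := h2
  have h3 : ∏ i, Vm f (σ i) i = 0 := by
    apply Finset.prod_eq_zero (Finset.mem_univ (σ⁻¹ r))
    have h5 : σ (σ⁻¹ r) = r := σ.apply_symm_apply r
    rw [h5]
    simp only [Vm, Matrix.of_apply]
    rw [hr, if_neg hr2]
  rw [h3, smul_zero]

theorem card_of_V (f : Fin 3 × Fin m → Atom n T) (h : (Vm f).det ≠ 0) (a : Fin 3) :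
    (Finset.univ.filter fun r => pos (f r) = a).card = m := by
  classical
  have h1 := card_le_of_V f h
  have h2 : ∑ a : Fin 3, (Finset.univ.filter fun r => pos (f r) = a).card =
      Fintype.card (Fin 3 × Fin m) := by
    rw [← Finset.card_univ]
    exact (Finset.card_eq_sum_card_fiberwise (f := fun r => pos (f r)) (t := Finset.univ)
      (fun r _ => Finset.mem_coe.2 (Finset.mem_univ _))).symm
  rw [Fintype.card_prod, Fintype.card_fin, Fintype.card_fin, Fin.sum_univ_three] at h2
  have e0 := h1 0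
  have e1 := h1 1
  have e2 := h1 2
  fin_cases a
  · change (Finset.univ.filter fun r => pos (f r) = 0).card = m
    omega
  · change (Finset.univ.filter fun r => pos (f r) = 1).card = m
    omega
  · change (Finset.univ.filter fun r => pos (f r) = 2).card = m
    omega

/-- sorting -/
theorem exists_sort (f : Fin 3 × Fin m → Atom n T) (hU : (Um f).det ≠ 0) (hV : (Vm f).det ≠ 0) :
    ∃ σ : Equiv.Perm (Fin 3 × Fin m), (∀ a b, pos (f (σ (a, b))) = a) ∧
      StrictMono fun b : Fin m => nd (f (σ (2, b))) := by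
  classical
  have hc := card_of_V f hV
  have hc' : ∀ a : Fin 3, Fintype.card {r // pos (f r) = a} = m := by
    intro a
    rw [Fintype.card_subtype]
    exact hc a
  let e : ∀ a : Fin 3, Fin m ≃ {r // pos (f r) = a} := fun a =>
    (Fintype.equivFinOfCardEq (hc' a)).symm
  let e' : ∀ a : Fin 3, Fin m ≃ {r // pos (f r) = a} := fun a =>
    (Tuple.sort fun b => nd (f (e a b).1)).trans (e a)
  let σ : Equiv.Perm (Fin 3 × Fin m) := (Equiv.sigmaEquivProd (Fin 3) (Fin m)).symm.trans
    ((Equiv.sigmaCongrRight e').trans (Equiv.sigmaFiberEquiv fun r => pos (f r)))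
  have hσ : ∀ a b, σ (a, b) = (e' a b).1 := fun a b => rfl
  have hpos : ∀ a b, pos (f (σ (a, b))) = a := by
    intro a b
    rw [hσ]
    exact (e' a b).2
  refine ⟨σ, hpos, ?_⟩
  have hmono : Monotone fun b : Fin m => nd (f (σ (2, b))) :=
    Tuple.monotone_sort fun b => nd (f (e 2 b).1)
  refine hmono.strictMono_of_injective ?_
  intro b b' hbb
  have hinl : ∀ x : Atom n T, pos x = 2 → al x = 0 := by
    intro x hx
    rcases x with t | y
    · rfl
    · exfalso
      simp only [pos] at hx
      split_ifs at hx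
      · exact absurd hx (by decide)
      · exact absurd hx (by decide)
  have h1 := inj_of_U f hU (σ (2, b)) (σ (2, b')) hbb
    (by rw [hinl _ (hpos 2 b), hinl _ (hpos 2 b')])
  have h2 := σ.injective h1
  exact (Prod.mk.inj h2).2

theorem Um_perm (f : Fin 3 × Fin m → Atom n T) (σ : Equiv.Perm (Fin 3 × Fin m)) :
    |(Um (fun r => f (σ r))).det| = |(Um f).det| := by
  have h : Um (fun r => f (σ r)) = (Um f).submatrix σ (Equiv.refl _) := rfl
  rw [h]
  exact Matrix.abs_det_submatrix_equiv_equiv σ (Equiv.refl _) (Um f)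

theorem Vm_perm (f : Fin 3 × Fin m → Atom n T) (σ : Equiv.Perm (Fin 3 × Fin m)) :
    |(Vm (fun r => f (σ r))).det| = |(Vm f).det| := by
  have h : Vm (fun r => f (σ r)) = (Vm f).submatrix σ (Equiv.refl _) := rfl
  rw [h]
  exact Matrix.abs_det_submatrix_equiv_equiv σ (Equiv.refl _) (Vm f)

/-- the column determinant of a sorted family -/
theorem Vm_block (f : Fin 3 × Fin m → Atom n T) (hpos : ∀ a b, pos (f (a, b)) = a) :
    |(Vm f).det| = ∏ a : Fin 3, |(Matrix.of fun b c : Fin m =>
      pw (nx 1 (nd (f (a, b)))) (be (f (a, b))) c.1).det| := by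
  classical
  let τ : Fin 3 × Fin m ≃ Fin 3 × Fin m := Equiv.prodCongr (Equiv.addRight (1 : Fin 3)) (Equiv.refl _)
  let D : Fin 3 → Matrix (Fin m) (Fin m) ℝ := fun a => Matrix.of fun b c : Fin m =>
      pw (nx 1 (nd (f (a, b)))) (be (f (a, b))) c.1
  have h1 : (Vm f).submatrix (Equiv.prodComm (Fin m) (Fin 3)) ((Equiv.prodComm (Fin m) (Fin 3)).trans τ) =
      Matrix.blockDiagonal D := by
    ext ⟨b, a⟩ ⟨c, a'⟩
    rw [Matrix.blockDiagonal_apply]
    simp only [Matrix.submatrix_apply, Vm, Matrix.of_apply, Equiv.prodComm_apply, Prod.swap_prod_mk,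
      hpos]
    have h2 : (((Equiv.prodComm (Fin m) (Fin 3)).trans τ) (c, a')) = (a' + 1, c) := rfl
    rw [h2]
    simp only [add_left_inj, D, Matrix.of_apply]
    by_cases h3 : a' = a
    · rw [if_pos h3, if_pos h3.symm]
    · rw [if_neg h3, if_neg (fun h => h3 h.symm)]
  have h2 := Matrix.abs_det_submatrix_equiv_equiv (Equiv.prodComm (Fin m) (Fin 3))
    ((Equiv.prodComm (Fin m) (Fin 3)).trans τ) (Vm f)
  rw [h1, Matrix.det_blockDiagonal, Finset.abs_prod] at h2
  exact h2.symm

end ARCHx

end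

end Pool.Agent.L0h38.Q4
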