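import Pool.Agent.L0h38.Q4.ARCHb

/-!
# Q4/ARCH: bounds of the determinants and products over pairs (helper9)
-/

set_option autoImplicit false

open Finset

namespace Pool.Agent.L0h38.Q4

noncomputable section

namespace ARCHx

/-- the product over the pairs of nodes -/
def pr (t : ℕ → ℕ) (M : ℕ) : ℝ := ∏ j ∈ range M, ∏ i ∈ range j, max 1 |nx 1 (t j) - nx 1 (t i)|

theorem fin_pair (M : ℕ) (H : ℕ → ℕ → ℝ) :
    ∏ i : Fin M, ∏ j ∈ Finset.Ioi i, H j.1 i.1 = ∏ j ∈ range M, ∏ i ∈ range j, H j i := by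
  have h1 : ∏ i : Fin M, ∏ j ∈ Finset.Ioi i, H j.1 i.1 = ∏ j : Fin M, ∏ i ∈ Finset.Iio j, H j.1 i.1 := by
    apply Finset.prod_comm'
    intro x y
    simp
  rw [h1, ← Fin.prod_univ_eq_prod_range (fun j => ∏ i ∈ range j, H j i) M]
  refine Finset.prod_congr rfl fun j _ => ?_
  have h2 : range j.1 = (Finset.Iio j).map Fin.valEmbedding := by
    rw [Fin.map_valEmbedding_Iio]
    ext x
    simp
  rw [h2, Finset.prod_map]
  rfl

theorem mult {t α : ℕ → ℕ} {L : ℕ} (hinj : ∀ i < L, ∀ j < L, t i = t j → α i = α j → i = j)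
    (hα : ∀ i < L, α i < 99) (k M : ℕ) (hk : k + M ≤ L) (a : ℕ) :
    (Finset.univ.filter fun i : Fin M => t (k + i.1) = a).card ≤ 132 := by
  have h1 : (Finset.univ.filter fun i : Fin M => t (k + i.1) = a).card ≤ (range 99).card := by
    apply Finset.card_le_card_of_injOn (fun i => α (k + i.1))
    · intro i _
      have := i.2
      exact Finset.mem_coe.2 (Finset.mem_range.2 (hα _ (by omega)))
    · intro i hi j hj hij
      have hi' := (Finset.mem_filter.1 (Finset.mem_coe.1 hi)).2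
      have hj' := (Finset.mem_filter.1 (Finset.mem_coe.1 hj)).2
      have h2 := i.2
      have h3 := j.2
      have h4 := hinj _ (by omega) _ (by omega) (hi'.trans hj'.symm) hij
      exact Fin.ext (by omega)
  rw [card_range] at h1
  omega

/-- the bound of a determinant -/
theorem det_bd (hGV : Pool.Agent.N334.W.S_GV) (hPT : Pool.Agent.N334.W.S_PT) (M : ℕ) (t β : ℕ → ℕ)
    (h : ∀ a : ℕ, (Finset.univ.filter fun i : Fin M => t i.1 = a).card ≤ 132) :
    |(Matrix.of fun i j : Fin M => pw (nx 1 (t i.1)) (β i.1) j.1).det| ≤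
      (∏ i ∈ range M, (3 / (2 * (t i : ℝ) + 1)) ^ β i) *
        (Real.exp (M * 132 * (1 + Real.log M)) * (∏ i ∈ range M, (2 * (t i : ℝ) + 1) ^ 132) *
          pr t M) := by
  have h1 := Pool.Agent.N334.W.Arch.det_bound hGV hPT (s := 132) (c := 1) (m := M) (by norm_num)
    le_rfl (fun i => t i.1) (fun i => β i.1) h
  have e1 : (∏ i : Fin M, (3 / (2 * ((t i.1 : ℕ) : ℝ) + ((1 : ℕ) : ℝ))) ^ β i.1) =
      ∏ i ∈ range M, (3 / (2 * (t i : ℝ) + 1)) ^ β i := by
    rw [Nat.cast_one]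
    exact Fin.prod_univ_eq_prod_range (fun i => (3 / (2 * (t i : ℝ) + 1)) ^ β i) M
  have e2 : (∏ i : Fin M, (2 * ((t i.1 : ℕ) : ℝ) + ((1 : ℕ) : ℝ)) ^ 132) =
      ∏ i ∈ range M, (2 * (t i : ℝ) + 1) ^ 132 := by
    rw [Nat.cast_one]
    exact Fin.prod_univ_eq_prod_range (fun i => (2 * (t i : ℝ) + 1) ^ 132) M
  have e3 : (∏ i : Fin M, ∏ j ∈ Finset.Ioi i, max 1 |Pool.Agent.N334.W.nx 1 (t j.1) -
      Pool.Agent.N334.W.nx 1 (t i.1)|) = pr t M :=
    fin_pair M (fun j i => max 1 |nx 1 (t j) - nx 1 (t i)|)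
  rw [e1, e2, e3] at h1
  exact h1

theorem pr_nonneg (t : ℕ → ℕ) (M : ℕ) : 0 ≤ pr t M :=
  Finset.prod_nonneg fun _ _ => Finset.prod_nonneg fun _ _ => le_trans zero_le_one (le_max_left _ _)

theorem nx_nonneg (a : ℕ) : 0 ≤ nx 1 a := by
  unfold nx Pool.Agent.N334.W.nx
  positivity

theorem nx_mono {a b : ℕ} (h : a ≤ b) : nx 1 a ≤ nx 1 b := by
  unfold nx Pool.Agent.N334.W.nx
  have h1 : (a : ℝ) ≤ b := by exact_mod_cast h
  have h0 : (0 : ℝ) ≤ a := Nat.cast_nonneg _
  push_cast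
  nlinarith

theorem nx_le (a : ℕ) : nx 1 a ≤ ((a : ℝ) + 1) ^ 2 := by
  unfold nx Pool.Agent.N334.W.nx
  have h0 : (0 : ℝ) ≤ a := Nat.cast_nonneg _
  push_cast
  nlinarith

/-- a factor of the pair product with a larger node -/
theorem fac_le {a b : ℕ} (h : a ≤ b) : max 1 |nx 1 b - nx 1 a| ≤ ((b : ℝ) + 1) ^ 2 := by
  have h0 : (0 : ℝ) ≤ b := Nat.cast_nonneg _
  apply max_le
  · nlinarith
  · rw [abs_of_nonneg (sub_nonneg.2 (nx_mono h))]
    have := nx_nonneg a
    have := nx_le b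
    linarith

theorem fac_pos (x : ℝ) : 0 ≤ max 1 |x| := le_trans zero_le_one (le_max_left _ _)

/-- the pairs with the last `m` nodes -/
theorem pr_split (t : ℕ → ℕ) (N m : ℕ) (h : ∀ k < m, ∀ i < N + k, t i ≤ t (N + k)) :
    pr t (N + m) ≤ pr t N * ∏ k ∈ range m, ((t (N + k) : ℝ) + 1) ^ (2 * (N + k)) := by
  unfold pr
  rw [Finset.prod_range_add]
  apply mul_le_mul_of_nonneg_left _
    (Finset.prod_nonneg fun _ _ => Finset.prod_nonneg fun _ _ => fac_pos _)
  apply Finset.prod_le_prod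
  · intro k _
    exact Finset.prod_nonneg fun _ _ => fac_pos _
  · intro k hk
    rw [Finset.mem_range] at hk
    calc ∏ i ∈ range (N + k), max 1 |nx 1 (t (N + k)) - nx 1 (t i)|
        ≤ ∏ _i ∈ range (N + k), ((t (N + k) : ℝ) + 1) ^ 2 := by
          apply Finset.prod_le_prod
          · intro i _
            exact fac_pos _
          · intro i hi
            exact fac_le (h k hk i (Finset.mem_range.1 hi))
      _ = ((t (N + k) : ℝ) + 1) ^ (2 * (N + k)) := by
          rw [Finset.prod_const, card_range, ← pow_mul]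

/-- the use of the distribution of the nodes -/
theorem rr_use (hRR : Pool.Agent.N334.W.S_RR) (n N u k' : ℕ) (hu : k' * u = 132) (hk' : Even k')
    (t : ℕ → ℕ) (ht : ∀ i < 132 * N, t i < n)
    (hm : ∀ a : ℕ, (Finset.univ.filter fun i : Fin (132 * N) => t i.1 = a).card ≤ 132) (D : ℝ)
    (hD : ∀ S ⊆ Finset.range n, S.card = N → (∏ a ∈ S, bb n a) * vd 1 S ^ k' ≤ D) :
    (∏ i ∈ range (132 * N), bb n (t i) ^ u) * pr t (132 * N) ≤
      (D ^ u) ^ 132 * ((n : ℝ) ^ 264) ^ (132 * N) := by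
  obtain ⟨A, h1, h2, h3⟩ := hRR 132 1 N (fun i => t i.1) (by norm_num) le_rfl hm
  -- the sets are contained in `range n`
  have hA : ∀ α, A α ⊆ Finset.range n := by
    intro α a ha
    by_contra hc
    have h4 := h2 (fun x => if x < n then 1 else 0)
    have h5 : ∏ i : Fin (132 * N), (if t i.1 < n then (1 : ℝ) else 0) = 1 := by
      apply Finset.prod_eq_one
      intro i _
      rw [if_pos (ht i.1 i.2)]
    have h6 : ∏ α, ∏ a ∈ A α, (if a < n then (1 : ℝ) else 0) = 0 := by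
      apply Finset.prod_eq_zero (Finset.mem_univ α)
      apply Finset.prod_eq_zero ha
      rw [if_neg (fun h => hc (Finset.mem_range.2 h))]
    rw [h5, h6] at h4
    exact one_ne_zero h4
  have hbb : ∀ a, 0 ≤ bb n a := fun a => Nat.cast_nonneg _
  have e3 : (∏ i : Fin (132 * N), ∏ j ∈ Finset.Ioi i, max 1 |Pool.Agent.N334.W.nx 1 (t j.1) -
      Pool.Agent.N334.W.nx 1 (t i.1)|) = pr t (132 * N) :=
    fin_pair (132 * N) (fun j i => max 1 |nx 1 (t j) - nx 1 (t i)|)
  rw [e3] at h3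
  have h4 : ∏ i : Fin (132 * N), (Pool.Agent.N334.W.nx 1 (t i.1) + 1) ^ 132 ≤
      ((n : ℝ) ^ 264) ^ (132 * N) := by
    calc ∏ i : Fin (132 * N), (Pool.Agent.N334.W.nx 1 (t i.1) + 1) ^ 132
        ≤ ∏ _i : Fin (132 * N), (n : ℝ) ^ 264 := by
          apply Finset.prod_le_prod
          · intro i _
            have := nx_nonneg (t i.1)
            exact pow_nonneg (by linarith) _
          · intro i _
            have h5 : Pool.Agent.N334.W.nx 1 (t i.1) + 1 ≤ (n : ℝ) ^ 2 := by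
              have h6 : ((t i.1 : ℕ) : ℝ) + 1 ≤ n := by exact_mod_cast ht i.1 i.2
              have h7 : (0 : ℝ) ≤ (t i.1 : ℕ) := Nat.cast_nonneg _
              unfold Pool.Agent.N334.W.nx
              push_cast
              nlinarith
            have h8 := nx_nonneg (t i.1)
            calc (Pool.Agent.N334.W.nx 1 (t i.1) + 1) ^ 132 ≤ ((n : ℝ) ^ 2) ^ 132 :=
                  pow_le_pow_left₀ (by linarith) h5 _
              _ = (n : ℝ) ^ 264 := by rw [← pow_mul]
      _ = _ := by rw [Finset.prod_const, Finset.card_univ, Fintype.card_fin]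
  have h5 : ∏ i ∈ range (132 * N), bb n (t i) ^ u = ∏ α, (∏ a ∈ A α, bb n a) ^ u := by
    have h6 := h2 (fun x => bb n x ^ u)
    rw [← Fin.prod_univ_eq_prod_range (fun i => bb n (t i) ^ u) (132 * N)]
    rw [h6]
    exact Finset.prod_congr rfl fun α _ => by rw [Finset.prod_pow]
  rw [h5]
  have hb0 : 0 ≤ ∏ α, (∏ a ∈ A α, bb n a) ^ u :=
    Finset.prod_nonneg fun α _ => pow_nonneg (Finset.prod_nonneg fun a _ => hbb a) _
  calc (∏ α, (∏ a ∈ A α, bb n a) ^ u) * pr t (132 * N)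
      ≤ (∏ α, (∏ a ∈ A α, bb n a) ^ u) * ((∏ α, vd 1 (A α)) ^ 132 * ((n : ℝ) ^ 264) ^ (132 * N)) := by
        apply mul_le_mul_of_nonneg_left _ hb0
        refine h3.trans ?_
        apply mul_le_mul_of_nonneg_left h4
        exact Even.pow_nonneg ⟨66, by norm_num⟩ _
    _ = (∏ α, ((∏ a ∈ A α, bb n a) * vd 1 (A α) ^ k') ^ u) * ((n : ℝ) ^ 264) ^ (132 * N) := by
        rw [← mul_assoc, ← Finset.prod_pow, ← Finset.prod_mul_distrib]
        congr 1
        refine Finset.prod_congr rfl fun α _ => ?_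
        rw [mul_pow, ← pow_mul, hu]
    _ ≤ (D ^ u) ^ 132 * ((n : ℝ) ^ 264) ^ (132 * N) := by
        apply mul_le_mul_of_nonneg_right _ (pow_nonneg (pow_nonneg (Nat.cast_nonneg _) _) _)
        calc ∏ α, ((∏ a ∈ A α, bb n a) * vd 1 (A α) ^ k') ^ u ≤ ∏ _α : Fin 132, D ^ u := by
              have h7 : ∀ α, 0 ≤ (∏ a ∈ A α, bb n a) * vd 1 (A α) ^ k' := fun α =>
                mul_nonneg (Finset.prod_nonneg fun a _ => hbb a) (hk'.pow_nonneg _)
              apply Finset.prod_le_prod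
              · intro α _
                exact pow_nonneg (h7 α) _
              · intro α _
                exact pow_le_pow_left₀ (h7 α) (hD (A α) (hA α) (h1 α)) _
          _ = (D ^ u) ^ 132 := by rw [Finset.prod_const, Finset.card_univ, Fintype.card_fin]

end ARCHx

end

end Pool.Agent.L0h38.Q4
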