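import Pool.Agent.L0h38.Q4.ARCHc

/-!
# Q4/ARCH: the bound of a term, in terms of sequences (helper9)
-/

set_option autoImplicit false

open Finset

namespace Pool.Agent.L0h38.Q4

noncomputable section

namespace ARCHx

/-- the summation points -/
theorem seq_A (n m : ℕ) (hn : 2 ≤ n) (t : ℕ → ℕ) (τ : ℕ → ℕ) (W B g : ℕ → ℝ)
    (hW : ∀ t, 0 ≤ W t) (htX : ∀ i < 2 * m, t i < n) (htA : ∀ k < m, t (2 * m + k) = n + τ k)
    (hτ : ∀ k < m, k ≤ τ k) (hτm : ∀ k < m, ∀ j < k, τ j ≤ τ k)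
    (hg0 : ∀ k < m, 0 ≤ g (2 * m + k))
    (hg : ∀ k < m, g (2 * m + k) ≤ W (τ k) * (2 * (t (2 * m + k) : ℝ) + 1) ^ 264)
    (hB : ∀ i < m, ∀ t, i ≤ t → W t * ((n : ℝ) + t + 1) ^ (4 * m + 4 * i + 1000) ≤ B i) :
    (∏ k ∈ range m, g (2 * m + k)) * (pr t (2 * m + m) * pr (fun b => t (2 * m + b)) m) ≤
      pr t (2 * m) * ∏ k ∈ range m, (B k * ((((t (2 * m + k) : ℕ) : ℝ) + 1) ^ 2)⁻¹) := by
  obtain ⟨Y, hY⟩ : ∃ Y : ℕ → ℝ, Y = fun k => ((t (2 * m + k) : ℕ) : ℝ) + 1 := ⟨_, rfl⟩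
  have hYk : ∀ k, ((t (2 * m + k) : ℕ) : ℝ) + 1 = Y k := fun k => by rw [hY]
  have hn' : (2 : ℝ) ≤ n := by exact_mod_cast hn
  have hYn : ∀ k < m, Y k = (n : ℝ) + τ k + 1 := by
    intro k hk
    rw [hY]
    simp only [htA k hk]
    push_cast
    ring
  have hY2 : ∀ k < m, 2 ≤ Y k := by
    intro k hk
    rw [hYn k hk]
    have : (0 : ℝ) ≤ τ k := Nat.cast_nonneg _
    linarith
  have h1 := pr_split t (2 * m) m (by
    intro k hk i hi
    rw [htA k hk]
    by_cases h : i < 2 * m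
    · have := htX i h
      omega
    · obtain ⟨j, rfl⟩ : ∃ j, i = 2 * m + j := ⟨i - 2 * m, by omega⟩
      rw [htA j (by omega)]
      have := hτm k hk j (by omega)
      omega)
  have h2 := pr_split (fun b => t (2 * m + b)) 0 m (by
    intro k hk i hi
    simp only [zero_add] at hi ⊢
    rw [htA k hk, htA i (by omega)]
    have := hτm k hk i hi
    omega)
  simp only [zero_add] at h2
  have h0 : pr (fun b => t (2 * m + b)) 0 = 1 := by simp [pr]
  rw [h0, one_mul] at h2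
  simp only [hYk] at h1 h2 ⊢
  have hP1 : 0 ≤ ∏ k ∈ range m, Y k ^ (2 * (2 * m + k)) := by
    apply Finset.prod_nonneg
    intro k hk
    have := hY2 k (Finset.mem_range.1 hk)
    exact pow_nonneg (by linarith) _
  have hG0 : 0 ≤ ∏ k ∈ range m, g (2 * m + k) :=
    Finset.prod_nonneg fun k hk => hg0 k (Finset.mem_range.1 hk)
  have h3 : (∏ k ∈ range m, g (2 * m + k)) * ((∏ k ∈ range m, Y k ^ (2 * (2 * m + k))) *
      ∏ k ∈ range m, Y k ^ (2 * k)) ≤ ∏ k ∈ range m, (B k * (Y k ^ 2)⁻¹) := by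
    rw [← Finset.prod_mul_distrib, ← Finset.prod_mul_distrib]
    apply Finset.prod_le_prod
    · intro k hk
      rw [Finset.mem_range] at hk
      have := hY2 k hk
      exact mul_nonneg (hg0 k hk) (mul_nonneg (pow_nonneg (by linarith) _) (pow_nonneg (by linarith) _))
    · intro k hk
      rw [Finset.mem_range] at hk
      have hy := hY2 k hk
      have hy0 : 0 ≤ Y k := by linarith
      have hW0 := hW (τ k)
      have h4 := hB k hk (τ k) (hτ k hk)
      rw [← hYn k hk] at h4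
      have h5 : (2 * (t (2 * m + k) : ℝ) + 1) ^ 264 ≤ Y k ^ 528 := by
        have h6 : 2 * (t (2 * m + k) : ℝ) + 1 ≤ Y k ^ 2 := by
          have h7 : (t (2 * m + k) : ℝ) = Y k - 1 := by rw [hY]; ring
          rw [h7]
          nlinarith
        have h8 : (0 : ℝ) ≤ 2 * (t (2 * m + k) : ℝ) + 1 := by positivity
        calc (2 * (t (2 * m + k) : ℝ) + 1) ^ 264 ≤ (Y k ^ 2) ^ 264 := pow_le_pow_left₀ h8 h6 _
          _ = Y k ^ 528 := by rw [← pow_mul]
      have h6 : g (2 * m + k) ≤ W (τ k) * Y k ^ 528 :=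
        (hg k hk).trans (mul_le_mul_of_nonneg_left h5 hW0)
      calc g (2 * m + k) * (Y k ^ (2 * (2 * m + k)) * Y k ^ (2 * k))
          ≤ (W (τ k) * Y k ^ 528) * (Y k ^ (2 * (2 * m + k)) * Y k ^ (2 * k)) :=
            mul_le_mul_of_nonneg_right h6 (mul_nonneg (pow_nonneg hy0 _) (pow_nonneg hy0 _))
        _ = W (τ k) * Y k ^ (4 * m + 4 * k + 528) := by
            have : 4 * m + 4 * k + 528 = 528 + (2 * (2 * m + k) + 2 * k) := by ring
            rw [this, pow_add, pow_add]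
            ring
        _ = W (τ k) * Y k ^ (4 * m + 4 * k + 530) * (Y k ^ 2)⁻¹ := by
            have e530 : Y k ^ (4 * m + 4 * k + 530) = Y k ^ (4 * m + 4 * k + 528) * Y k ^ 2 := by
              rw [← pow_add]
            have h7 : Y k ^ 2 ≠ 0 := pow_ne_zero _ (by linarith)
            rw [e530, mul_assoc (W (τ k)), mul_assoc (Y k ^ (4 * m + 4 * k + 528)),
              mul_inv_cancel₀ h7, mul_one]
        _ ≤ W (τ k) * Y k ^ (4 * m + 4 * k + 1000) * (Y k ^ 2)⁻¹ := by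
            apply mul_le_mul_of_nonneg_right _ (inv_nonneg.2 (sq_nonneg _))
            apply mul_le_mul_of_nonneg_left _ hW0
            exact pow_le_pow_right₀ (by linarith) (by omega)
        _ ≤ B k * (Y k ^ 2)⁻¹ :=
            mul_le_mul_of_nonneg_right h4 (inv_nonneg.2 (sq_nonneg _))
  calc (∏ k ∈ range m, g (2 * m + k)) * (pr t (2 * m + m) * pr (fun b => t (2 * m + b)) m)
      ≤ (∏ k ∈ range m, g (2 * m + k)) * ((pr t (2 * m) * ∏ k ∈ range m, Y k ^ (2 * (2 * m + k))) *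
        ∏ k ∈ range m, Y k ^ (2 * k)) := by
        apply mul_le_mul_of_nonneg_left _ hG0
        exact mul_le_mul h1 h2 (pr_nonneg _ _) (mul_nonneg (pr_nonneg _ _) hP1)
    _ = pr t (2 * m) * ((∏ k ∈ range m, g (2 * m + k)) *
        ((∏ k ∈ range m, Y k ^ (2 * (2 * m + k))) * ∏ k ∈ range m, Y k ^ (2 * k))) := by ring
    _ ≤ _ := mul_le_mul_of_nonneg_left h3 (pr_nonneg _ _)

/-- the poles -/
theorem seq_X (hRR : Pool.Agent.N334.W.S_RR) (n m NX NY : ℕ) (hX : 2 * m = 132 * NX)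
    (hY : m = 132 * NY) (t : ℕ → ℕ) (g : ℕ → ℝ) (G D1 D2 : ℝ) (hG : 0 ≤ G)
    (htX : ∀ i < 2 * m, t i < n) (hg0 : ∀ i < 2 * m, 0 ≤ g i)
    (hg : ∀ i < 2 * m, g i ≤ G * bb n (t i) ^ 99)
    (hm : ∀ k M, k + M ≤ 3 * m → ∀ a : ℕ,
      (Finset.univ.filter fun i : Fin M => t (k + i.1) = a).card ≤ 132)
    (hD1 : ∀ S ⊆ Finset.range n, S.card = NX → (∏ a ∈ S, bb n a) * vd 1 S ^ 2 ≤ D1)
    (hD2 : ∀ S ⊆ Finset.range n, S.card = NY → (∏ a ∈ S, bb n a) * vd 1 S ^ 4 ≤ D2) :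
    (∏ i ∈ range (2 * m), g i) * (pr t (2 * m) * (pr t m * pr (fun b => t (m + b)) m)) ≤
      G ^ (2 * m) * (((D1 ^ 66) ^ 132 * ((n : ℝ) ^ 264) ^ (2 * m)) *
        (((D2 ^ 33) ^ 132 * ((n : ℝ) ^ 264) ^ m) * ((D2 ^ 33) ^ 132 * ((n : ℝ) ^ 264) ^ m))) := by
  have hbb : ∀ a, 0 ≤ bb n a := fun a => Nat.cast_nonneg _
  have r1 := rr_use hRR n NX 66 2 (by norm_num) ⟨1, rfl⟩ t (by rw [← hX]; exact htX)
    (by
      rw [← hX]
      intro a
      have := hm 0 (2 * m) (by omega) a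
      simpa only [zero_add] using this) D1 hD1
  rw [← hX] at r1
  have r2 := rr_use hRR n NY 33 4 (by norm_num) ⟨2, rfl⟩ t
    (by rw [← hY]; intro i hi; exact htX i (by omega))
    (by
      rw [← hY]
      intro a
      have := hm 0 m (by omega) a
      simpa only [zero_add] using this) D2 hD2
  rw [← hY] at r2
  have r3 := rr_use hRR n NY 33 4 (by norm_num) ⟨2, rfl⟩ (fun b => t (m + b))
    (by rw [← hY]; intro i hi; exact htX (m + i) (by omega))
    (by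
      rw [← hY]
      intro a
      exact hm m m (by omega) a) D2 hD2
  rw [← hY] at r3
  have h1 : ∏ i ∈ range (2 * m), g i ≤ G ^ (2 * m) * ((∏ i ∈ range (2 * m), bb n (t i) ^ 66) *
      ((∏ i ∈ range m, bb n (t i) ^ 33) * ∏ i ∈ range m, bb n (t (m + i)) ^ 33)) := by
    calc ∏ i ∈ range (2 * m), g i ≤ ∏ i ∈ range (2 * m), (G * bb n (t i) ^ 99) :=
          Finset.prod_le_prod (fun i hi => hg0 i (Finset.mem_range.1 hi))
            (fun i hi => hg i (Finset.mem_range.1 hi))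
      _ = G ^ (2 * m) * ((∏ i ∈ range (2 * m), bb n (t i) ^ 66) *
            ∏ i ∈ range (2 * m), bb n (t i) ^ 33) := by
          have e : ∀ i, bb n (t i) ^ 99 = bb n (t i) ^ 66 * bb n (t i) ^ 33 := fun i =>
            pow_add (bb n (t i)) 66 33
          simp only [e]
          rw [Finset.prod_mul_distrib, Finset.prod_mul_distrib, Finset.prod_const, card_range]
      _ = _ := by
          have h2 : ∏ i ∈ range (2 * m), bb n (t i) ^ 33 =
              (∏ i ∈ range m, bb n (t i) ^ 33) * ∏ i ∈ range m, bb n (t (m + i)) ^ 33 := by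
            rw [two_mul, Finset.prod_range_add]
          rw [h2]
  obtain ⟨b1, hb1⟩ : ∃ b1 : ℝ, b1 = ∏ i ∈ range (2 * m), bb n (t i) ^ 66 := ⟨_, rfl⟩
  obtain ⟨b2, hb2⟩ : ∃ b2 : ℝ, b2 = ∏ i ∈ range m, bb n (t i) ^ 33 := ⟨_, rfl⟩
  obtain ⟨b3, hb3⟩ : ∃ b3 : ℝ, b3 = ∏ i ∈ range m, bb n (t (m + i)) ^ 33 := ⟨_, rfl⟩
  rw [← hb1] at r1 h1
  rw [← hb2] at r2 h1
  rw [← hb3] at r3 h1
  have b1n : 0 ≤ b1 := by rw [hb1]; exact Finset.prod_nonneg fun i _ => pow_nonneg (hbb _) _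
  have b2n : 0 ≤ b2 := by rw [hb2]; exact Finset.prod_nonneg fun i _ => pow_nonneg (hbb _) _
  have b3n : 0 ≤ b3 := by rw [hb3]; exact Finset.prod_nonneg fun i _ => pow_nonneg (hbb _) _
  have p1 := pr_nonneg t (2 * m)
  have p2 := pr_nonneg t m
  have p3 := pr_nonneg (fun b => t (m + b)) m
  have hGm : 0 ≤ G ^ (2 * m) := pow_nonneg hG _
  calc (∏ i ∈ range (2 * m), g i) * (pr t (2 * m) * (pr t m * pr (fun b => t (m + b)) m))
      ≤ (G ^ (2 * m) * (b1 * (b2 * b3))) * (pr t (2 * m) * (pr t m * pr (fun b => t (m + b)) m)) :=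
        mul_le_mul_of_nonneg_right h1 (mul_nonneg p1 (mul_nonneg p2 p3))
    _ = G ^ (2 * m) * ((b1 * pr t (2 * m)) * ((b2 * pr t m) * (b3 * pr (fun b => t (m + b)) m))) := by
        ring
    _ ≤ _ := by
        apply mul_le_mul_of_nonneg_left _ hGm
        apply mul_le_mul r1 _ (mul_nonneg (mul_nonneg b2n p2) (mul_nonneg b3n p3))
          ((mul_nonneg b1n p1).trans r1)
        exact mul_le_mul r2 r3 (mul_nonneg b3n p3) ((mul_nonneg b2n p2).trans r2)

end ARCHx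

end

end Pool.Agent.L0h38.Q4
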