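import Pool.Agent.L0h38.Q4.ARCHd

/-!
# Q4/ARCH: the bound of a term (helper9)
-/

set_option autoImplicit false

open Finset

namespace Pool.Agent.L0h38.Q4

noncomputable section

namespace ARCHx

variable {n T m : ℕ}

/-- the factor of an atom in the final sum -/
def phA (a : Atom n T) : ℝ := if pos a = 2 then (((nd a : ℝ) + 1) ^ 2)⁻¹ else 1

/-- the exponential factor -/
def Ec (M : ℕ) : ℝ := Real.exp (M * 132 * (1 + Real.log M))

theorem Ec_pos (M : ℕ) : 0 < Ec M := Real.exp_pos _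

theorem pos_inl {a : Atom n T} (h : pos a = 2) : ∃ t : Fin T, a = Sum.inl t := by
  rcases a with t | y
  · exact ⟨t, rfl⟩
  · exfalso
    simp only [pos] at h
    split_ifs at h
    · exact absurd h (by decide)
    · exact absurd h (by decide)

theorem pos_inr {a : Atom n T} (h : pos a ≠ 2) : ∃ y, a = Sum.inr y := by
  rcases a with t | y
  · exact absurd rfl h
  · exact ⟨y, rfl⟩

theorem nd_lt {a : Atom n T} (h : pos a ≠ 2) : nd a < n := by
  obtain ⟨y, rfl⟩ := pos_inr h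
  exact y.2.1.2

theorem al_lt (a : Atom n T) : al a < 99 := by
  rcases a with t | y
  · change 0 < 99
    norm_num
  · exact y.2.2.1.2

theorem be_lt (a : Atom n T) : be a < 99 := by
  rcases a with t | y
  · change 0 < 99
    norm_num
  · exact y.2.2.2.2

theorem co_le {W : ℕ → ℝ} {ω : Fin 2 → ℕ → ℕ → ℝ} {K : ℝ} (hK : 1 ≤ K)
    (hω : ∀ a, ∀ j < n, ∀ l < 99, |ω a j l| ≤ K * bb n j ^ 99 * (2 * (j : ℝ) + 1) ^ l)
    {a : Atom n T} (h : pos a ≠ 2) :
    |co W ω a| ≤ K * bb n (nd a) ^ 99 * (2 * (nd a : ℝ) + 1) ^ (al a + be a) := by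
  obtain ⟨y, rfl⟩ := pos_inr h
  simp only [co, nd, al, be]
  have hbb : 0 ≤ bb n y.2.1.1 := Nat.cast_nonneg _
  split_ifs with h1
  · exact hω y.1 y.2.1.1 y.2.1.2 _ h1
  · rw [abs_zero]
    exact mul_nonneg (mul_nonneg (by linarith) (pow_nonneg hbb _)) (pow_nonneg (by positivity) _)

/-- enumeration of the index set -/
def q (hm : 1 ≤ m) (i : ℕ) : Fin 3 × Fin m :=
  if h : i < 3 * m then finProdFinEquiv.symm ⟨i, h⟩ else (0, ⟨0, hm⟩)

theorem q_fin (hm : 1 ≤ m) (i : Fin (3 * m)) : q hm i.1 = finProdFinEquiv.symm i := by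
  rw [q, dif_pos i.2]

theorem q_val (hm : 1 ≤ m) (a : Fin 3) (b : Fin m) : q hm (a.1 * m + b.1) = (a, b) := by
  have ha := a.2
  have hb := b.2
  have h : a.1 * m + b.1 < 3 * m := by nlinarith
  rw [q, dif_pos h, Equiv.symm_apply_eq]
  apply Fin.ext
  rw [finProdFinEquiv_apply_val]
  change a.1 * m + b.1 = b.1 + m * a.1
  ring

theorem q_inj (hm : 1 ≤ m) (i : ℕ) (hi : i < 3 * m) (j : ℕ) (hj : j < 3 * m)
    (h : q hm i = q hm j) : i = j := by
  rw [q, q, dif_pos hi, dif_pos hj] at h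
  have := finProdFinEquiv.symm.injective h
  simpa using this

theorem prod_q (hm : 1 ≤ m) (H : Fin 3 × Fin m → ℝ) :
    ∏ r, H r = ∏ i ∈ range (3 * m), H (q hm i) := by
  rw [← Fin.prod_univ_eq_prod_range (fun i => H (q hm i)) (3 * m),
    ← Equiv.prod_comp finProdFinEquiv.symm H]
  exact Finset.prod_congr rfl fun i _ => by rw [q_fin]

theorem prod3 (m : ℕ) (H : ℕ → ℝ) :
    ∏ a : Fin 3, ∏ b ∈ range m, H (a.1 * m + b) = ∏ i ∈ range (3 * m), H i := by
  rw [Fin.prod_univ_three]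
  have h : 3 * m = m + m + m := by ring
  rw [h, Finset.prod_range_add, Finset.prod_range_add]
  simp only [Fin.val_zero, Fin.val_one, Fin.val_two, zero_mul, zero_add, one_mul, two_mul]

theorem Um_seq (hm : 1 ≤ m) (f : Fin 3 × Fin m → Atom n T) :
    |(Um f).det| = |(Matrix.of fun i j : Fin (3 * m) =>
      pw (nx 1 (nd (f (q hm i.1)))) (al (f (q hm i.1))) j.1).det| := by
  have h := Matrix.abs_det_submatrix_equiv_equiv (finProdFinEquiv (m := 3) (n := m)).symm
    (finProdFinEquiv (m := 3) (n := m)).symm (Um f)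
  rw [← h]
  congr 2
  ext i j
  simp only [Matrix.submatrix_apply, Um, Matrix.of_apply, q_fin]
  congr 1
  have h1 := congrArg Fin.val ((finProdFinEquiv (m := 3) (n := m)).apply_symm_apply j)
  rw [finProdFinEquiv_apply_val] at h1
  rw [← h1]
  ring

theorem Vm_seq (hm : 1 ≤ m) (f : Fin 3 × Fin m → Atom n T) (hpos : ∀ a b, pos (f (a, b)) = a) :
    |(Vm f).det| = ∏ a : Fin 3, |(Matrix.of fun b c : Fin m =>
      pw (nx 1 (nd (f (q hm (a.1 * m + b.1))))) (be (f (q hm (a.1 * m + b.1)))) c.1).det| := by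
  rw [Vm_block f hpos]
  simp only [q_val]

end ARCHx

end

end Pool.Agent.L0h38.Q4
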