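import Pool.Agent.L0h38.Q4.ARCHe

/-!
# Q4/ARCH: the bound of the term of a sorted family (helper9)
-/

set_option autoImplicit false

open Finset

namespace Pool.Agent.L0h38.Q4

noncomputable section

namespace ARCHx

variable {n T m : ℕ}

/-- the constant of the poles -/
def XC (n m : ℕ) (K D1 D2 : ℝ) : ℝ :=
  (K * 3 ^ 196 * (2 * (n : ℝ)) ^ 264) ^ (2 * m) * (((D1 ^ 66) ^ 132 * ((n : ℝ) ^ 264) ^ (2 * m)) *
    (((D2 ^ 33) ^ 132 * ((n : ℝ) ^ 264) ^ m) * ((D2 ^ 33) ^ 132 * ((n : ℝ) ^ 264) ^ m)))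

/-- algebra: collecting the factors -/
theorem collect (m : ℕ) (c x y : ℕ → ℝ) (α β : ℕ → ℕ) (E1 E2 P : ℝ) (Q : Fin 3 → ℝ) :
    (∏ i ∈ range (3 * m), c i) * ((∏ i ∈ range (3 * m), x i ^ α i) *
        (E1 * (∏ i ∈ range (3 * m), y i ^ 132) * P)) *
      ∏ a : Fin 3, ((∏ b ∈ range m, x (a.1 * m + b) ^ β (a.1 * m + b)) *
        (E2 * (∏ b ∈ range m, y (a.1 * m + b) ^ 132) * Q a)) =
    E1 * E2 ^ 3 * (∏ i ∈ range (3 * m), (c i * (x i ^ α i * x i ^ β i) * (y i ^ 132 * y i ^ 132))) *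
      (P * (Q 0 * Q 1 * Q 2)) := by
  have h1 : ∏ a : Fin 3, ((∏ b ∈ range m, x (a.1 * m + b) ^ β (a.1 * m + b)) *
        (E2 * (∏ b ∈ range m, y (a.1 * m + b) ^ 132) * Q a)) =
      (∏ i ∈ range (3 * m), x i ^ β i) * (E2 ^ 3 * (∏ i ∈ range (3 * m), y i ^ 132) *
        (Q 0 * Q 1 * Q 2)) := by
    rw [Finset.prod_mul_distrib, Finset.prod_mul_distrib, Finset.prod_mul_distrib,
      prod3 m (fun i => x i ^ β i), prod3 m (fun i => y i ^ 132), Finset.prod_const,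
      Finset.card_univ, Fintype.card_fin, Fin.prod_univ_three]
  rw [h1, Finset.prod_mul_distrib, Finset.prod_mul_distrib, Finset.prod_mul_distrib,
    Finset.prod_mul_distrib]
  ring

theorem perm4 (a b c d : ℝ) : (a * b) * c * d = a * c * d * b := by ring

theorem term_sorted (hGV : Pool.Agent.N334.W.S_GV) (hPT : Pool.Agent.N334.W.S_PT)
    (hRR : Pool.Agent.N334.W.S_RR) {NX NY : ℕ} {W : ℕ → ℝ} {ω : Fin 2 → ℕ → ℕ → ℝ}
    {K D1 D2 : ℝ} {B : ℕ → ℝ} (hn : 2 ≤ n) (hm : 1 ≤ m) (hX : 2 * m = 132 * NX)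
    (hY : m = 132 * NY) (hW : ∀ t, 0 ≤ W t) (hK : 1 ≤ K)
    (hω : ∀ a, ∀ j < n, ∀ l < 99, |ω a j l| ≤ K * bb n j ^ 99 * (2 * (j : ℝ) + 1) ^ l)
    (hD1 : ∀ S ⊆ Finset.range n, S.card = NX → (∏ a ∈ S, bb n a) * vd 1 S ^ 2 ≤ D1)
    (hD2 : ∀ S ⊆ Finset.range n, S.card = NY → (∏ a ∈ S, bb n a) * vd 1 S ^ 4 ≤ D2)
    (hB : ∀ i < m, ∀ t, i ≤ t → W t * ((n : ℝ) + t + 1) ^ (4 * m + 4 * i + 1000) ≤ B i)
    (f : Fin 3 × Fin m → Atom n T)
    (hinj : ∀ r r', nd (f r) = nd (f r') → al (f r) = al (f r') → r = r')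
    (hpos : ∀ a b, pos (f (a, b)) = a) (hmono : StrictMono fun b : Fin m => nd (f (2, b))) :
    (∏ r, |co W ω (f r)|) * |(Um f).det| * |(Vm f).det| ≤
      Ec (3 * m) * Ec m ^ 3 * (XC n m K D1 D2 * ((∏ k ∈ range m, B k) * ∏ r, phA (f r))) := by
  obtain ⟨t, ht⟩ : ∃ t : ℕ → ℕ, t = fun i => nd (f (q hm i)) := ⟨_, rfl⟩
  obtain ⟨α, hα⟩ : ∃ α : ℕ → ℕ, α = fun i => al (f (q hm i)) := ⟨_, rfl⟩
  obtain ⟨β, hβ⟩ : ∃ β : ℕ → ℕ, β = fun i => be (f (q hm i)) := ⟨_, rfl⟩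
  obtain ⟨c, hc⟩ : ∃ c : ℕ → ℝ, c = fun i => |co W ω (f (q hm i))| := ⟨_, rfl⟩
  have ht' : ∀ i, nd (f (q hm i)) = t i := fun i => by rw [ht]
  have hα' : ∀ i, al (f (q hm i)) = α i := fun i => by rw [hα]
  have hβ' : ∀ i, be (f (q hm i)) = β i := fun i => by rw [hβ]
  have hc' : ∀ i, |co W ω (f (q hm i))| = c i := fun i => by rw [hc]
  have hc0 : ∀ i, 0 ≤ c i := fun i => by rw [hc]; exact abs_nonneg _
  -- positions
  have hposX : ∀ i < 2 * m, pos (f (q hm i)) ≠ 2 := by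
    intro i hi
    by_cases h : i < m
    · have h1 := q_val hm 0 ⟨i, h⟩
      simp only [Fin.val_zero, zero_mul, zero_add] at h1
      rw [h1, hpos]
      decide
    · have h1 := q_val hm 1 ⟨i - m, by omega⟩
      have h2 : (1 : Fin 3).1 * m + (i - m) = i := by
        simp only [Fin.val_one, one_mul]
        omega
      simp only [h2] at h1
      rw [h1, hpos]
      decide
  have hqA : ∀ k (hk : k < m), q hm (2 * m + k) = (2, ⟨k, hk⟩) := by
    intro k hk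
    exact q_val hm 2 ⟨k, hk⟩
  have hposA : ∀ k < m, pos (f (q hm (2 * m + k))) = 2 := by
    intro k hk
    rw [hqA k hk, hpos]
  -- multiplicities
  have hm' : ∀ k M, k + M ≤ 3 * m → ∀ a : ℕ,
      (Finset.univ.filter fun i : Fin M => t (k + i.1) = a).card ≤ 132 := by
    intro k M hkM a
    refine mult (t := t) (α := α) (L := 3 * m) ?_ ?_ k M hkM a
    · intro i hi j hj h1 h2
      apply q_inj hm i hi j hj
      apply hinj
      · rw [ht', ht', h1]
      · rw [hα', hα', h2]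
    · intro i _
      rw [hα]
      exact al_lt _
  -- the determinants
  have hU := det_bd hGV hPT (3 * m) t α (by
    intro a
    have := hm' 0 (3 * m) (by omega) a
    simpa only [zero_add] using this)
  have hU' := Um_seq hm f
  simp only [ht', hα'] at hU'
  rw [← hU'] at hU
  have hV' := Vm_seq hm f hpos
  simp only [ht', hβ'] at hV'
  have hV : |(Vm f).det| ≤ ∏ a : Fin 3, ((∏ b ∈ range m, (3 / (2 * (t (a.1 * m + b) : ℝ) + 1)) ^
      β (a.1 * m + b)) * (Ec m * (∏ b ∈ range m, (2 * (t (a.1 * m + b) : ℝ) + 1) ^ 132) *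
        pr (fun b => t (a.1 * m + b)) m)) := by
    rw [hV']
    apply Finset.prod_le_prod
    · intro a _
      exact abs_nonneg _
    · intro a _
      refine det_bd hGV hPT m (fun b => t (a.1 * m + b)) (fun b => β (a.1 * m + b)) ?_
      intro x
      refine hm' (a.1 * m) m ?_ x
      have := a.2
      nlinarith
  have hy0 : ∀ i, (0 : ℝ) < 2 * (t i : ℝ) + 1 := fun i => by positivity
  have hx0 : ∀ i, (0 : ℝ) ≤ 3 / (2 * (t i : ℝ) + 1) := fun i => by positivity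
  have hE1 := (Ec_pos (3 * m)).le
  have hE2 := (Ec_pos m).le
  change |(Um f).det| ≤ (∏ i ∈ range (3 * m), (3 / (2 * (t i : ℝ) + 1)) ^ α i) *
    (Ec (3 * m) * (∏ i ∈ range (3 * m), (2 * (t i : ℝ) + 1) ^ 132) * pr t (3 * m)) at hU
  have hUn : 0 ≤ (∏ i ∈ range (3 * m), (3 / (2 * (t i : ℝ) + 1)) ^ α i) *
    (Ec (3 * m) * (∏ i ∈ range (3 * m), (2 * (t i : ℝ) + 1) ^ 132) * pr t (3 * m)) :=
    (abs_nonneg _).trans hU
  have hcn : 0 ≤ ∏ i ∈ range (3 * m), c i := Finset.prod_nonneg fun i _ => hc0 i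
  have hco : ∏ r, |co W ω (f r)| = ∏ i ∈ range (3 * m), c i := by
    rw [prod_q hm (fun r => |co W ω (f r)|)]
    exact Finset.prod_congr rfl fun i _ => hc' i
  have step1 : (∏ r, |co W ω (f r)|) * |(Um f).det| * |(Vm f).det| ≤
      Ec (3 * m) * Ec m ^ 3 * (∏ i ∈ range (3 * m), (c i * ((3 / (2 * (t i : ℝ) + 1)) ^ α i *
        (3 / (2 * (t i : ℝ) + 1)) ^ β i) * ((2 * (t i : ℝ) + 1) ^ 132 * (2 * (t i : ℝ) + 1) ^ 132))) *
      (pr t (3 * m) * (pr (fun b => t ((0 : Fin 3).1 * m + b)) m *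
        pr (fun b => t ((1 : Fin 3).1 * m + b)) m * pr (fun b => t ((2 : Fin 3).1 * m + b)) m)) := by
    have e := collect m c (fun i => 3 / (2 * (t i : ℝ) + 1)) (fun i => 2 * (t i : ℝ) + 1) α β
      (Ec (3 * m)) (Ec m) (pr t (3 * m)) (fun a : Fin 3 => pr (fun b => t (a.1 * m + b)) m)
    beta_reduce at e
    rw [← e, hco]
    exact mul_le_mul (mul_le_mul_of_nonneg_left hU hcn) hV (abs_nonneg _) (mul_nonneg hcn hUn)
  obtain ⟨g, hg⟩ : ∃ g : ℕ → ℝ, g = fun i => c i * ((3 / (2 * (t i : ℝ) + 1)) ^ α i *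
        (3 / (2 * (t i : ℝ) + 1)) ^ β i) * ((2 * (t i : ℝ) + 1) ^ 132 * (2 * (t i : ℝ) + 1) ^ 132) :=
    ⟨_, rfl⟩
  have hg' : ∀ i, c i * ((3 / (2 * (t i : ℝ) + 1)) ^ α i *
        (3 / (2 * (t i : ℝ) + 1)) ^ β i) * ((2 * (t i : ℝ) + 1) ^ 132 * (2 * (t i : ℝ) + 1) ^ 132) =
      g i := fun i => by rw [hg]
  simp only [hg'] at step1
  have hg0 : ∀ i, 0 ≤ g i := by
    intro i
    rw [← hg' i]
    exact mul_nonneg (mul_nonneg (hc0 i) (mul_nonneg (pow_nonneg (hx0 i) _) (pow_nonneg (hx0 i) _)))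
      (mul_nonneg (pow_nonneg (hy0 i).le _) (pow_nonneg (hy0 i).le _))
  -- the summation points
  obtain ⟨τ, hτ⟩ : ∃ τ : ℕ → ℕ, τ = fun k => t (2 * m + k) - n := ⟨_, rfl⟩
  have hAt : ∀ k < m, ∃ s : Fin T, f (q hm (2 * m + k)) = Sum.inl s := fun k hk => pos_inl (hposA k hk)
  have htA : ∀ k < m, t (2 * m + k) = n + τ k := by
    intro k hk
    obtain ⟨s, hs⟩ := hAt k hk
    have h1 : t (2 * m + k) = n + s.1 := by rw [← ht', hs]; rfl
    rw [hτ]
    simp only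
    omega
  have htm : ∀ k < m, ∀ j < k, t (2 * m + j) < t (2 * m + k) := by
    intro k hk j hj
    rw [← ht', ← ht', hqA k hk, hqA j (by omega)]
    exact hmono (show (⟨j, by omega⟩ : Fin m) < ⟨k, hk⟩ from hj)
  have hτm : ∀ k < m, ∀ j < k, τ j ≤ τ k := by
    intro k hk j hj
    have h1 := htm k hk j hj
    rw [htA k hk, htA j (by omega)] at h1
    omega
  have hτk : ∀ k < m, k ≤ τ k := by
    intro k
    induction k with
    | zero => intro _; exact Nat.zero_le _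
    | succ k ih =>
      intro hk
      have h1 := ih (by omega)
      have h2 := htm (k + 1) hk k (by omega)
      rw [htA (k + 1) hk, htA k (by omega)] at h2
      omega
  have hgA : ∀ k < m, g (2 * m + k) ≤ W (τ k) * (2 * (t (2 * m + k) : ℝ) + 1) ^ 264 := by
    intro k hk
    obtain ⟨s, hs⟩ := hAt k hk
    have h1 : c (2 * m + k) = W (τ k) := by
      rw [← hc', hs]
      change |W s.1| = _
      have h2 : τ k = s.1 := by
        have h3 : t (2 * m + k) = n + s.1 := by rw [← ht', hs]; rfl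
        rw [hτ]
        simp only
        omega
      rw [h2, abs_of_nonneg (hW _)]
    have h2 : α (2 * m + k) = 0 := by rw [← hα', hs]; rfl
    have h3 : β (2 * m + k) = 0 := by rw [← hβ', hs]; rfl
    rw [← hg', h1, h2, h3, pow_zero, one_mul, mul_one, ← pow_add]
  have sA := seq_A n m hn t τ W B g hW (fun i hi => by rw [← ht']; exact nd_lt (hposX i hi)) htA hτk
    hτm (fun k _ => hg0 _) hgA hB
  -- the poles
  have hgX : ∀ i < 2 * m, g i ≤ (K * 3 ^ 196 * (2 * (n : ℝ)) ^ 264) * bb n (t i) ^ 99 := by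
    intro i hi
    have h1 := co_le (W := W) hK hω (hposX i hi)
    rw [hc', ht', hα', hβ'] at h1
    have hbb : 0 ≤ bb n (t i) := Nat.cast_nonneg _
    have hti : t i < n := by rw [← ht']; exact nd_lt (hposX i hi)
    have hαi : α i ≤ 98 := by
      have := al_lt (f (q hm i))
      rw [hα'] at this
      omega
    have hβi : β i ≤ 98 := by
      have := be_lt (f (q hm i))
      rw [hβ'] at this
      omega
    have h2 : (2 * (t i : ℝ) + 1) ≤ 2 * (n : ℝ) := by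
      have : (t i : ℝ) + 1 ≤ n := by exact_mod_cast hti
      linarith
    have h3 : (2 * (t i : ℝ) + 1) ^ (α i + β i) * ((3 / (2 * (t i : ℝ) + 1)) ^ α i *
        (3 / (2 * (t i : ℝ) + 1)) ^ β i) ≤ 3 ^ 196 := by
      have h4 : (2 * (t i : ℝ) + 1) ^ (α i + β i) * ((3 / (2 * (t i : ℝ) + 1)) ^ α i *
        (3 / (2 * (t i : ℝ) + 1)) ^ β i) = 3 ^ (α i + β i) := by
        rw [← pow_add, ← mul_pow, mul_div_cancel₀ _ (hy0 i).ne']
      rw [h4]
      exact pow_le_pow_right₀ (by norm_num) (by omega)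
    have h5 : (2 * (t i : ℝ) + 1) ^ 132 * (2 * (t i : ℝ) + 1) ^ 132 ≤ (2 * (n : ℝ)) ^ 264 := by
      rw [← pow_add]
      exact pow_le_pow_left₀ (hy0 i).le h2 _
    have hK0 : 0 ≤ K := by linarith
    have hxx : 0 ≤ (3 / (2 * (t i : ℝ) + 1)) ^ α i * (3 / (2 * (t i : ℝ) + 1)) ^ β i :=
      mul_nonneg (pow_nonneg (hx0 i) _) (pow_nonneg (hx0 i) _)
    have hyy : 0 ≤ (2 * (t i : ℝ) + 1) ^ 132 * (2 * (t i : ℝ) + 1) ^ 132 :=
      mul_nonneg (pow_nonneg (hy0 i).le _) (pow_nonneg (hy0 i).le _)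
    have hKb : 0 ≤ K * bb n (t i) ^ 99 := mul_nonneg hK0 (pow_nonneg hbb _)
    rw [← hg']
    calc c i * ((3 / (2 * (t i : ℝ) + 1)) ^ α i * (3 / (2 * (t i : ℝ) + 1)) ^ β i) *
          ((2 * (t i : ℝ) + 1) ^ 132 * (2 * (t i : ℝ) + 1) ^ 132)
        ≤ (K * bb n (t i) ^ 99 * (2 * (t i : ℝ) + 1) ^ (α i + β i)) *
          ((3 / (2 * (t i : ℝ) + 1)) ^ α i * (3 / (2 * (t i : ℝ) + 1)) ^ β i) *
          ((2 * (t i : ℝ) + 1) ^ 132 * (2 * (t i : ℝ) + 1) ^ 132) :=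
          mul_le_mul_of_nonneg_right (mul_le_mul_of_nonneg_right h1 hxx) hyy
      _ = (K * bb n (t i) ^ 99) * ((2 * (t i : ℝ) + 1) ^ (α i + β i) *
          ((3 / (2 * (t i : ℝ) + 1)) ^ α i * (3 / (2 * (t i : ℝ) + 1)) ^ β i)) *
          ((2 * (t i : ℝ) + 1) ^ 132 * (2 * (t i : ℝ) + 1) ^ 132) := by
          rw [mul_assoc (K * bb n (t i) ^ 99)]
      _ ≤ (K * bb n (t i) ^ 99) * 3 ^ 196 *
          ((2 * (t i : ℝ) + 1) ^ 132 * (2 * (t i : ℝ) + 1) ^ 132) :=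
          mul_le_mul_of_nonneg_right (mul_le_mul_of_nonneg_left h3 hKb) hyy
      _ ≤ (K * bb n (t i) ^ 99) * 3 ^ 196 * (2 * (n : ℝ)) ^ 264 :=
          mul_le_mul_of_nonneg_left h5 (mul_nonneg hKb (pow_nonneg (by norm_num) _))
      _ = _ := perm4 _ _ _ _
  have hG0 : 0 ≤ K * 3 ^ 196 * (2 * (n : ℝ)) ^ 264 :=
    mul_nonneg (mul_nonneg (by linarith) (pow_nonneg (by norm_num) _)) (pow_nonneg (by positivity) _)
  have sX := seq_X hRR n m NX NY hX hY t g (K * 3 ^ 196 * (2 * (n : ℝ)) ^ 264) D1 D2 hG0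
    (fun i hi => by rw [← ht']; exact nd_lt (hposX i hi)) (fun i _ => hg0 i) hgX hm' hD1 hD2
  -- the factors of the final sum
  have hph : ∏ k ∈ range m, (B k * ((((t (2 * m + k) : ℕ) : ℝ) + 1) ^ 2)⁻¹) =
      (∏ k ∈ range m, B k) * ∏ r, phA (f r) := by
    rw [Finset.prod_mul_distrib]
    congr 1
    rw [prod_q hm (fun r => phA (f r))]
    have h3 : 3 * m = 2 * m + m := by ring
    rw [h3, Finset.prod_range_add]
    have h4 : ∏ i ∈ range (2 * m), phA (f (q hm i)) = 1 := by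
      apply Finset.prod_eq_one
      intro i hi
      rw [phA, if_neg (hposX i (Finset.mem_range.1 hi))]
    rw [h4, one_mul]
    refine Finset.prod_congr rfl fun k hk => ?_
    rw [phA, if_pos (hposA k (Finset.mem_range.1 hk)), ht']
  rw [hph] at sA
  -- conclusion
  have e3 : 3 * m = 2 * m + m := by ring
  have step2 : (∏ i ∈ range (3 * m), g i) * (pr t (3 * m) *
      (pr (fun b => t ((0 : Fin 3).1 * m + b)) m *
        pr (fun b => t ((1 : Fin 3).1 * m + b)) m * pr (fun b => t ((2 : Fin 3).1 * m + b)) m)) ≤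
      XC n m K D1 D2 * ((∏ k ∈ range m, B k) * ∏ r, phA (f r)) := by
    have f0 : (fun b => t ((0 : Fin 3).1 * m + b)) = t := by
      funext b
      simp
    have f1 : (fun b => t ((1 : Fin 3).1 * m + b)) = fun b => t (m + b) := by
      funext b
      simp
    have f2 : (fun b => t ((2 : Fin 3).1 * m + b)) = fun b => t (2 * m + b) := rfl
    rw [f0, f1, f2, e3, Finset.prod_range_add]
    have hAn : 0 ≤ (∏ k ∈ range m, g (2 * m + k)) *
        (pr t (2 * m + m) * pr (fun b => t (2 * m + b)) m) :=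
      mul_nonneg (Finset.prod_nonneg fun k _ => hg0 _) (mul_nonneg (pr_nonneg _ _) (pr_nonneg _ _))
    have hX1 : 0 ≤ ∏ i ∈ range (2 * m), g i := Finset.prod_nonneg fun k _ => hg0 _
    have hX2 : 0 ≤ pr t m * pr (fun b => t (m + b)) m := mul_nonneg (pr_nonneg _ _) (pr_nonneg _ _)
    have hBp : 0 ≤ (∏ k ∈ range m, B k) * ∏ r, phA (f r) := by
      rw [← hph]
      apply Finset.prod_nonneg
      intro k hk
      have h5 := hB k (Finset.mem_range.1 hk) k le_rfl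
      have h6 : 0 ≤ B k := le_trans (mul_nonneg (hW k) (pow_nonneg (by positivity) _)) h5
      exact mul_nonneg h6 (inv_nonneg.2 (sq_nonneg _))
    calc (∏ i ∈ range (2 * m), g i) * (∏ k ∈ range m, g (2 * m + k)) * (pr t (2 * m + m) *
          (pr t m * pr (fun b => t (m + b)) m * pr (fun b => t (2 * m + b)) m))
        = ((∏ i ∈ range (2 * m), g i) * (pr t m * pr (fun b => t (m + b)) m)) *
          ((∏ k ∈ range m, g (2 * m + k)) *
            (pr t (2 * m + m) * pr (fun b => t (2 * m + b)) m)) := by ring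
      _ ≤ ((∏ i ∈ range (2 * m), g i) * (pr t m * pr (fun b => t (m + b)) m)) *
          (pr t (2 * m) * ((∏ k ∈ range m, B k) * ∏ r, phA (f r))) :=
          mul_le_mul_of_nonneg_left sA (mul_nonneg hX1 hX2)
      _ = ((∏ i ∈ range (2 * m), g i) * (pr t (2 * m) * (pr t m * pr (fun b => t (m + b)) m))) *
          ((∏ k ∈ range m, B k) * ∏ r, phA (f r)) := by ring
      _ ≤ _ := mul_le_mul_of_nonneg_right sX hBp
  calc (∏ r, |co W ω (f r)|) * |(Um f).det| * |(Vm f).det|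
      ≤ _ := step1
    _ = Ec (3 * m) * Ec m ^ 3 * ((∏ i ∈ range (3 * m), g i) * (pr t (3 * m) *
      (pr (fun b => t ((0 : Fin 3).1 * m + b)) m *
        pr (fun b => t ((1 : Fin 3).1 * m + b)) m * pr (fun b => t ((2 : Fin 3).1 * m + b)) m))) := by
        ring
    _ ≤ _ := mul_le_mul_of_nonneg_left step2 (mul_nonneg hE1 (pow_nonneg hE2 _))

end ARCHx

end

end Pool.Agent.L0h38.Q4
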