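import Pool.Agent.L0h38.Q4.Stm
import Pool.Agent.N334.W.ASY

/-!
# Part ASA: size of the product of the `BA` (helper88)
-/

open Filter Topology

namespace Pool.Agent.L0h38.Q4

namespace ASA_

open Pool.Agent.N334.W.R0_ Pool.Agent.N334.W.ASY_

lemma ph_mul (a x : ℝ) (ha : 0 < a) (hx : 0 < x) :
    N334.W.R0_.ph (a * x) = x * (a * Real.log a - a) + a * x * Real.log x := by
  unfold N334.W.R0_.ph
  rw [Real.log_mul ha.ne' hx.ne']
  ring

lemma log_BA (E n m i : ℕ) (hn : 1 ≤ n) : Real.log (BA E n m i) =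
    99 * (Real.log ((2 * n - 1).factorial : ℝ) + Real.log (i.factorial : ℝ) -
      Real.log ((i + 2 * n).factorial : ℝ)) + 401 * Real.log (2 * (i : ℝ) + 2 * n + 1) +
      (4 * m + 4 * i + E) * Real.log ((n : ℝ) + i + 1) := by
  unfold BA wt
  rw [Real.log_mul (by positivity) (by positivity), Real.log_mul (by positivity) (by positivity),
    Real.log_pow, Real.log_pow, Real.log_pow, Real.log_div (by positivity) (by positivity),
    Real.log_mul (by positivity) (by positivity)]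
  push_cast
  ring

/-- upper bound for the sum -/
noncomputable def UA (c x : ℝ) : ℝ :=
  99 * (33 * x * (x * (4 * Real.log 4 - 4) + 4 * x * Real.log x) + T 33 (-33) x -
    (T 37 (-34) x - T 4 (-1) x)) +
  4 * (31 * x * (x * (35 * Real.log 35 - 35) + 35 * x * Real.log x - (x * (2 * Real.log 2 - 2) +
    2 * x * Real.log x)) + (T 35 (-32) x - T 2 1 x) + 1221 / 2 * x ^ 2) +
  (c * x * Real.log (100 * x) + c * x)

lemma err_lim (c : ℝ) : Tendsto (fun x : ℝ => (c * x * Real.log (100 * x) + c * x) / x ^ 2) atTop (𝓝 0) := by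
  have h3 : Tendsto (fun n : ℝ => Real.log n / n) atTop (𝓝 0) :=
    Real.isLittleO_log_id_atTop.tendsto_div_nhds_zero
  have h4 : Tendsto (fun n : ℝ => 1 / n) atTop (𝓝 0) := tendsto_const_nhds.div_atTop tendsto_id
  have h5 := (h3.const_mul c).add (h4.const_mul (c * Real.log 100 + c))
  simp only [mul_zero, add_zero] at h5
  refine h5.congr' ?_
  filter_upwards [eventually_gt_atTop 0] with n hn0
  rw [Real.log_mul (by norm_num) hn0.ne']
  field_simp
  ring

lemma UA_lim (c : ℝ) : Tendsto (fun x : ℝ => UA c x / x ^ 2 - 6534 * Real.log x) atTop (𝓝 cA1) := by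
  have h := ((((T_lim 33 (-33) (by norm_num)).sub ((T_lim 37 (-34) (by norm_num)).sub
    (T_lim 4 (-1) (by norm_num)))).const_mul 99).add
    (((T_lim 35 (-32) (by norm_num)).sub (T_lim 2 1 (by norm_num))).const_mul 4)).add (err_lim c)
  have h2 := h.add (tendsto_const_nhds (x := 99 * (33 * (4 * Real.log 4 - 4)) +
    4 * (31 * ((35 * Real.log 35 - 35) - (2 * Real.log 2 - 2)) + 1221 / 2)))
  have e : 99 * (Pool.Agent.N334.W.G2 33 - (Pool.Agent.N334.W.G2 37 - Pool.Agent.N334.W.G2 4)) +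
      4 * (Pool.Agent.N334.W.G2 35 - Pool.Agent.N334.W.G2 2) + 0 +
      (99 * (33 * (4 * Real.log 4 - 4)) +
    4 * (31 * ((35 * Real.log 35 - 35) - (2 * Real.log 2 - 2)) + 1221 / 2)) = cA1 := by
    unfold cA1
    simp only [G2, N334.W.G2]
    ring
  rw [e] at h2
  refine h2.congr' ?_
  filter_upwards [eventually_gt_atTop 0] with n hn0
  unfold UA
  field_simp
  ring

lemma sum_log (n m : ℕ) : ∑ i ∈ Finset.range m, Real.log ((n : ℝ) + i + 1) =
    Real.log ((n + m).factorial : ℝ) - Real.log (n.factorial : ℝ) := by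
  induction m with
  | zero => simp
  | succ m ih =>
    rw [Finset.sum_range_succ, ih]
    have := log_fac_succ (n + m)
    rw [show n + (m + 1) = n + m + 1 by ring, this]
    push_cast
    ring

lemma sum_id (n m : ℕ) : ∑ i ∈ Finset.range m, ((n : ℝ) + i + 1) = m * n + m * (m + 1) / 2 := by
  induction m with
  | zero => simp
  | succ m ih =>
    rw [Finset.sum_range_succ, ih]
    push_cast
    ring

lemma bound (E v : ℕ) : ∑ i ∈ Finset.range (33 * (v + 1)), Real.log (BA E (2 * (v + 2)) (33 * (v + 1)) i) ≤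
    UA (100000 + 33 * E) ((v + 2 : ℕ) : ℝ) := by
  set x : ℝ := ((v + 2 : ℕ) : ℝ) with hx
  have hv : (0 : ℝ) ≤ v := Nat.cast_nonneg v
  have hx2 : 2 ≤ x := by rw [hx]; push_cast; linarith
  have hm : ((33 * (v + 1) : ℕ) : ℝ) = 33 * x - 33 := by rw [hx]; push_cast; ring
  have hn : ((2 * (v + 2) : ℕ) : ℝ) = 2 * x := by rw [hx]; push_cast; ring
  set Λ : ℝ := Real.log (100 * x) with hΛ
  have hΛ0 : 0 ≤ Λ := Real.log_nonneg (by linarith)
  have hlog : ∀ k : ℕ, k + 1 ≤ 100 * (v + 2) → Real.log ((k : ℝ) + 1) ≤ Λ := by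
    intro k hk
    refine Real.log_le_log (by positivity) ?_
    rw [hx]
    exact_mod_cast hk
  have hE0 : (0 : ℝ) ≤ E := Nat.cast_nonneg E
  -- the first factorial
  have f0 : Real.log ((2 * (2 * (v + 2)) - 1).factorial : ℝ) ≤
      x * (4 * Real.log 4 - 4) + 4 * x * Real.log x + 2 * Λ := by
    have h1 : Real.log ((2 * (2 * (v + 2)) - 1).factorial : ℝ) ≤
        Real.log ((2 * (2 * (v + 2))).factorial : ℝ) := by
      apply Real.log_le_log (by positivity)
      exact_mod_cast Nat.factorial_le (by omega)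
    have h2 := le_ph (2 * (2 * (v + 2)))
    have h3 := hlog (2 * (2 * (v + 2))) (by omega)
    have h4 : ((2 * (2 * (v + 2)) : ℕ) : ℝ) = 4 * x := by rw [hx]; push_cast; ring
    rw [h4] at h2 h3
    rw [ph_mul 4 x (by norm_num) (by linarith)] at h2
    linarith
  have f0pos : 0 ≤ x * (4 * Real.log 4 - 4) + 4 * x * Real.log x := by
    have h41 : 1 ≤ Real.log 4 := by
      have : Real.log 4 = 2 * Real.log 2 := by
        rw [show (4 : ℝ) = 2 ^ 2 by norm_num, Real.log_pow]; push_cast; ring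
      have := Real.log_two_gt_d9
      linarith
    have h6 : 0 ≤ Real.log x := Real.log_nonneg (by linarith)
    have h7 : 0 ≤ x * (4 * Real.log 4 - 4) := mul_nonneg (by linarith) (by linarith)
    have h8 : 0 ≤ x * Real.log x := mul_nonneg (by linarith) h6
    linarith
  have hterm : ∀ i ∈ Finset.range (33 * (v + 1)),
      Real.log (BA E (2 * (v + 2)) (33 * (v + 1)) i) ≤
      99 * (x * (4 * Real.log 4 - 4) + 4 * x * Real.log x) +
      99 * N334.W.R0_.ph ((0 + i : ℕ) : ℝ) - 99 * N334.W.R0_.ph ((4 * v + 7 + i + 1 : ℕ) : ℝ) +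
      4 * (31 * x) * Real.log (((2 * (v + 2) : ℕ) : ℝ) + i + 1) +
      4 * N334.W.R0_.ph ((2 * v + 5 + i : ℕ) : ℝ) + 4 * (((2 * (v + 2) : ℕ) : ℝ) + i + 1) +
      (797 + E) * Λ := by
    intro i hi
    rw [Finset.mem_range] at hi
    rw [log_BA _ _ _ _ (by omega)]
    have q2 := le_ph i
    have r2 := hlog i (by omega)
    have q3 := ph_le (i + 2 * (2 * (v + 2)))
    have e3 : i + 2 * (2 * (v + 2)) = 4 * v + 7 + i + 1 := by ring
    rw [e3] at q3 ⊢
    have r4 : Real.log (2 * (i : ℝ) + 2 * ((2 * (v + 2) : ℕ) : ℝ) + 1) ≤ Λ := by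
      have := hlog (2 * i + 2 * (2 * (v + 2))) (by omega)
      push_cast at this ⊢
      exact this
    have r5 : Real.log (((2 * (v + 2) : ℕ) : ℝ) + i + 1) ≤ Λ := by
      have := hlog (2 * (v + 2) + i) (by omega)
      push_cast at this ⊢
      exact this
    have r6 : 0 ≤ Real.log (((2 * (v + 2) : ℕ) : ℝ) + i + 1) := by
      apply Real.log_nonneg
      have : (0 : ℝ) ≤ i := Nat.cast_nonneg i
      rw [hn]
      linarith
    -- (4 m + 4 i) log k
    have r7 : (4 * ((33 * (v + 1) : ℕ) : ℝ) + 4 * i + E) * Real.log (((2 * (v + 2) : ℕ) : ℝ) + i + 1) ≤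
        4 * (31 * x) * Real.log (((2 * (v + 2) : ℕ) : ℝ) + i + 1) +
      4 * N334.W.R0_.ph ((2 * v + 5 + i : ℕ) : ℝ) + 4 * (((2 * (v + 2) : ℕ) : ℝ) + i + 1) + E * Λ := by
      have e5 : ((2 * v + 5 + i : ℕ) : ℝ) = ((2 * (v + 2) : ℕ) : ℝ) + i + 1 := by push_cast; ring
      have e6 : 4 * N334.W.R0_.ph ((2 * v + 5 + i : ℕ) : ℝ) + 4 * (((2 * (v + 2) : ℕ) : ℝ) + i + 1) =
          4 * (((2 * (v + 2) : ℕ) : ℝ) + i + 1) * Real.log (((2 * (v + 2) : ℕ) : ℝ) + i + 1) := by
        rw [e5]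
        unfold N334.W.R0_.ph
        ring
      have e7 : (4 * ((33 * (v + 1) : ℕ) : ℝ) + 4 * i + E) * Real.log (((2 * (v + 2) : ℕ) : ℝ) + i + 1) =
          4 * (31 * x) * Real.log (((2 * (v + 2) : ℕ) : ℝ) + i + 1) - 136 *
            Real.log (((2 * (v + 2) : ℕ) : ℝ) + i + 1) +
          4 * (((2 * (v + 2) : ℕ) : ℝ) + i + 1) * Real.log (((2 * (v + 2) : ℕ) : ℝ) + i + 1) +
          E * Real.log (((2 * (v + 2) : ℕ) : ℝ) + i + 1) := by
        rw [hm, hn]
        ring
      have e8 : E * Real.log (((2 * (v + 2) : ℕ) : ℝ) + i + 1) ≤ E * Λ := mul_le_mul_of_nonneg_left r5 hE0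
      linarith
    rw [zero_add]
    linarith
  have hsum := Finset.sum_le_sum hterm
  have s1 := up 0 (33 * (v + 1))
  have s2 := lo (4 * v + 7) (33 * (v + 1))
  have s3 := up (2 * v + 5) (33 * (v + 1))
  have s4 := sum_log (2 * (v + 2)) (33 * (v + 1))
  have s5 := sum_id (2 * (v + 2)) (33 * (v + 1))
  have hG0 : N334.W.G2 0 = 0 := by simp [N334.W.G2]
  have g1 : ((0 + 33 * (v + 1) : ℕ) : ℝ) = 33 * x + -33 := by rw [zero_add, hm]; ring
  have g2 : ((4 * v + 7 + 33 * (v + 1) : ℕ) : ℝ) = 37 * x + -34 := by rw [hx]; push_cast; ring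
  have g2' : ((4 * v + 7 : ℕ) : ℝ) = 4 * x + -1 := by rw [hx]; push_cast; ring
  have g3 : ((2 * v + 5 + 33 * (v + 1) : ℕ) : ℝ) = 35 * x + -32 := by rw [hx]; push_cast; ring
  have g3' : ((2 * v + 5 : ℕ) : ℝ) = 2 * x + 1 := by rw [hx]; push_cast; ring
  rw [g1, Nat.cast_zero, hG0, hm] at s1
  rw [g2, g2', hm] at s2
  rw [g3, g3', hm] at s3
  -- the logarithms
  have k1 : Real.log ((2 * (v + 2) + 33 * (v + 1)).factorial : ℝ) ≤
      x * (35 * Real.log 35 - 35) + 35 * x * Real.log x + 2 * Λ := by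
    have h1 := le_ph (2 * (v + 2) + 33 * (v + 1))
    have h2 := hlog (2 * (v + 2) + 33 * (v + 1)) (by omega)
    have h3 : N334.W.R0_.ph ((2 * (v + 2) + 33 * (v + 1) : ℕ) : ℝ) ≤ N334.W.R0_.ph (35 * x) := by
      apply ph_mono
      · have : 1 ≤ 2 * (v + 2) + 33 * (v + 1) := by omega
        exact_mod_cast this
      · rw [hx]; push_cast; linarith
    rw [ph_mul 35 x (by norm_num) (by linarith)] at h3
    linarith
  have k2 : x * (2 * Real.log 2 - 2) + 2 * x * Real.log x ≤ Real.log ((2 * (v + 2)).factorial : ℝ) := by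
    have h1 := ph_le (2 * (v + 2))
    rw [hn, ph_mul 2 x (by norm_num) (by linarith)] at h1
    exact h1
  have k3 : 4 * (31 * x) * ∑ i ∈ Finset.range (33 * (v + 1)), Real.log (((2 * (v + 2) : ℕ) : ℝ) + i + 1) ≤
      4 * (31 * x) * (x * (35 * Real.log 35 - 35) + 35 * x * Real.log x + 2 * Λ -
        (x * (2 * Real.log 2 - 2) + 2 * x * Real.log x)) := by
    apply mul_le_mul_of_nonneg_left _ (by linarith)
    rw [s4]
    linarith
  have k4 : ∑ i ∈ Finset.range (33 * (v + 1)), (((2 * (v + 2) : ℕ) : ℝ) + i + 1) ≤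
      1221 / 2 * x ^ 2 + 33 / 2 * x := by
    rw [s5, hm, hn]
    nlinarith
  have k5 : ((33 * (v + 1) : ℕ) : ℝ) * (99 * (x * (4 * Real.log 4 - 4) + 4 * x * Real.log x)) ≤
      33 * x * (99 * (x * (4 * Real.log 4 - 4) + 4 * x * Real.log x)) := by
    apply mul_le_mul_of_nonneg_right _ (by linarith)
    rw [hm]; linarith
  have k6 : ((33 * (v + 1) : ℕ) : ℝ) * ((797 + E) * Λ) ≤ 33 * x * ((797 + E) * Λ) := by
    apply mul_le_mul_of_nonneg_right _ (by positivity)
    rw [hm]; linarith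
  simp only [Finset.sum_add_distrib, Finset.sum_sub_distrib, ← Finset.mul_sum,
    Finset.sum_const, Finset.card_range, nsmul_eq_mul] at hsum
  simp only [Finset.sum_add_distrib, Finset.sum_const, Finset.card_range, nsmul_eq_mul] at k4
  unfold UA T
  rw [← hΛ]
  have hxΛ : 0 ≤ x * Λ := mul_nonneg (by linarith) hΛ0
  have hxE : 0 ≤ x * E := mul_nonneg (by linarith) hE0
  have z1 : ((100000 : ℝ) + 33 * E) * x * Λ + (100000 + 33 * E) * x =
      100000 * (x * Λ) + 33 * (x * E * Λ) + 100000 * x + 33 * (x * E) := by ring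
  have z2 : 33 * x * ((797 + E) * Λ) = 26301 * (x * Λ) + 33 * (x * E * Λ) := by ring
  rw [z1]
  rw [z2] at k6
  linarith

end ASA_

open ASA_

theorem ASA : S_ASA := by
  intro E ε hε
  have h1 : Tendsto (fun ν : ℕ => (ν : ℝ)) atTop atTop := tendsto_natCast_atTop_atTop
  have h3 := ((UA_lim (100000 + 33 * E)).comp h1).eventually (gt_mem_nhds (lt_add_of_pos_right cA1 hε))
  filter_upwards [h3, eventually_ge_atTop 2] with ν hν hν2
  obtain ⟨v, rfl⟩ := Nat.exists_eq_add_of_le' hν2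
  have hb := bound E v
  have e : v + 2 - 1 = v + 1 := rfl
  rw [e]
  refine hb.trans ?_
  simp only [Function.comp_apply] at hν
  have hx : (0 : ℝ) < ((v + 2 : ℕ) : ℝ) := by positivity
  generalize ((v + 2 : ℕ) : ℝ) = x at hν hx
  have hx2 : 0 < x ^ 2 := by positivity
  have h5 : UA (100000 + 33 * E) x / x ^ 2 < 6534 * Real.log x + cA1 + ε := by linarith
  rw [div_lt_iff₀ hx2] at h5
  linarith

end Pool.Agent.L0h38.Q4
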