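import Pool.Agent.L0h38.Q4.Stm
import Pool.Agent.N334.W.ASY

/-!
# Part ASX: size of `DX` and `DY` (helper88)
-/

open Filter Topology

namespace Pool.Agent.L0h38.Q4

namespace ASX_

open Pool.Agent.N334.W.R0_ Pool.Agent.N334.W.ASY_

lemma prod_pos_aux (L N i : ℕ) (h : N < L) (hi : i < N) :
    0 < ∏ j ∈ Finset.range N, (2 * (L : ℝ) - 1 - i - j) := by
  refine Finset.prod_pos fun j hj => ?_
  rw [Finset.mem_range] at hj
  have h1 : (i : ℝ) + 1 ≤ N := by exact_mod_cast hi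
  have h2 : (j : ℝ) + 1 ≤ N := by exact_mod_cast hj
  have h3 : (N : ℝ) + 1 ≤ L := by exact_mod_cast h
  linarith

lemma log_DcI (L N : ℕ) (h : N < L) : Real.log (DcI L N) =
    ∑ i ∈ Finset.range N, (-4 * Real.log ((L - 1 - i).factorial : ℝ) + 2 * Real.log (i.factorial : ℝ) -
      Real.log ((2 * L - 1 - i).factorial : ℝ) + Real.log ((2 * L - 1 - N - i).factorial : ℝ)) := by
  unfold DcI
  rw [Real.log_prod]
  · refine Finset.sum_congr rfl fun i hi => ?_
    rw [Finset.mem_range] at hi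
    have hpos := prod_pos_aux L N i h hi
    have e3 : ∏ j ∈ Finset.range N, (2 * (L : ℝ) - 1 - i - j) =
        ∏ j ∈ Finset.range N, (((2 * L - 1 - i : ℕ) : ℝ) - j) := by
      refine Finset.prod_congr rfl fun j _ => ?_
      rw [Nat.cast_sub (by omega), Nat.cast_sub (by omega)]
      push_cast
      ring
    have e1 : L - i - 1 = L - 1 - i := by omega
    have e2 : 2 * L - 1 - i - N = 2 * L - 1 - N - i := by omega
    rw [Real.log_mul (by positivity) (by positivity), Real.log_div (by positivity) (by positivity),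
      Real.log_one, Real.log_pow, Real.log_div (by positivity) hpos.ne', Real.log_pow, e3,
      desc _ _ (by omega), e1, e2]
    push_cast
    ring
  · intro i hi
    rw [Finset.mem_range] at hi
    have hpos := prod_pos_aux L N i h hi
    positivity

lemma DcI_bound (L N : ℕ) (h : N < L) : Real.log (DcI L N) ≤
    -4 * (G2 ((L : ℝ) - 1) - G2 ((L : ℝ) - N - 1)) + 2 * G2 N -
      (G2 (2 * (L : ℝ) - 1) - G2 (2 * (L : ℝ) - 1 - N)) + (G2 (2 * (L : ℝ) - N) - G2 (2 * (L : ℝ) - 2 * N)) +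
      8 * N + 6 * N * Real.log (2 * L) := by
  rw [log_DcI L N h]
  have hNL : (N : ℝ) + 1 ≤ L := by exact_mod_cast h
  have hN0 : (0 : ℝ) ≤ N := Nat.cast_nonneg N
  set Λ : ℝ := Real.log (2 * L) with hΛ
  have hlog : ∀ k : ℕ, k + 1 ≤ 2 * L → Real.log ((k : ℝ) + 1) ≤ Λ := by
    intro k hk
    refine Real.log_le_log (by positivity) ?_
    exact_mod_cast hk
  have hterm : ∀ i ∈ Finset.range N,
      (-4 * Real.log ((L - 1 - i).factorial : ℝ) + 2 * Real.log (i.factorial : ℝ) -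
      Real.log ((2 * L - 1 - i).factorial : ℝ) + Real.log ((2 * L - 1 - N - i).factorial : ℝ)) ≤
      -4 * N334.W.R0_.ph ((L - 1 - i : ℕ) : ℝ) + 2 * N334.W.R0_.ph ((0 + i : ℕ) : ℝ) - N334.W.R0_.ph ((2 * L - 1 - i : ℕ) : ℝ) +
        N334.W.R0_.ph ((2 * L - 1 - N - i : ℕ) : ℝ) + 6 * Λ := by
    intro i hi
    rw [Finset.mem_range] at hi
    have q1 := ph_le (L - 1 - i)
    have q2 := le_ph i
    have q3 := ph_le (2 * L - 1 - i)
    have q4 := le_ph (2 * L - 1 - N - i)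
    have r2 := hlog i (by omega)
    have r4 := hlog (2 * L - 1 - N - i) (by omega)
    rw [zero_add]
    linarith
  have hsum := Finset.sum_le_sum hterm
  have s1 := lo (L - 1 - N) N
  have s2 := up 0 N
  have s3 := lo (2 * L - 1 - N) N
  have s4 := up (2 * L - 2 * N) N
  have t1 : ∑ i ∈ Finset.range N, N334.W.R0_.ph ((L - 1 - i : ℕ) : ℝ) =
      ∑ i ∈ Finset.range N, N334.W.R0_.ph ((L - 1 - N + i + 1 : ℕ) : ℝ) := by
    rw [refl_sum (L - 1) N (by omega) (fun k => N334.W.R0_.ph (k : ℝ))]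
    refine Finset.sum_congr rfl fun i _ => ?_
    congr 2
    omega
  have t3 : ∑ i ∈ Finset.range N, N334.W.R0_.ph ((2 * L - 1 - i : ℕ) : ℝ) =
      ∑ i ∈ Finset.range N, N334.W.R0_.ph ((2 * L - 1 - N + i + 1 : ℕ) : ℝ) := by
    rw [refl_sum (2 * L - 1) N (by omega) (fun k => N334.W.R0_.ph (k : ℝ))]
    refine Finset.sum_congr rfl fun i _ => ?_
    congr 2
    omega
  have t4 : ∑ i ∈ Finset.range N, N334.W.R0_.ph ((2 * L - 1 - N - i : ℕ) : ℝ) =
      ∑ i ∈ Finset.range N, N334.W.R0_.ph ((2 * L - 2 * N + i : ℕ) : ℝ) := by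
    rw [refl_sum (2 * L - 1 - N) N (by omega) (fun k => N334.W.R0_.ph (k : ℝ))]
    refine Finset.sum_congr rfl fun i _ => ?_
    congr 2
    omega
  simp only [Finset.sum_add_distrib, Finset.sum_sub_distrib, ← Finset.mul_sum, t1, t3, t4,
    Finset.sum_const, Finset.card_range, nsmul_eq_mul] at hsum
  have hG0 : G2 0 = 0 := by simp [G2, N334.W.G2]
  have u1 : ((L - 1 - N + N : ℕ) : ℝ) = (L : ℝ) - 1 := by
    rw [Nat.sub_add_cancel (by omega), Nat.cast_sub (by omega)]; push_cast; ring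
  have u1' : ((L - 1 - N : ℕ) : ℝ) = (L : ℝ) - N - 1 := by
    rw [Nat.cast_sub (by omega), Nat.cast_sub (by omega)]; push_cast; ring
  have u3 : ((2 * L - 1 - N + N : ℕ) : ℝ) = 2 * (L : ℝ) - 1 := by
    rw [Nat.sub_add_cancel (by omega), Nat.cast_sub (by omega)]; push_cast; ring
  have u3' : ((2 * L - 1 - N : ℕ) : ℝ) = 2 * (L : ℝ) - 1 - N := by
    rw [Nat.cast_sub (by omega), Nat.cast_sub (by omega)]; push_cast; ring
  have u4' : ((2 * L - 2 * N : ℕ) : ℝ) = 2 * (L : ℝ) - 2 * N := by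
    rw [Nat.cast_sub (by omega)]; push_cast; ring
  have u4 : ((2 * L - 2 * N + N : ℕ) : ℝ) = 2 * (L : ℝ) - N := by
    rw [Nat.cast_add, u4']; ring
  rw [u1, u1'] at s1
  rw [u3, u3'] at s3
  rw [u4, u4'] at s4
  rw [zero_add, Nat.cast_zero] at s2
  have hG0' : Pool.Agent.N334.W.G2 0 = 0 := hG0
  rw [hG0'] at s2
  simp only [Finset.sum_add_distrib, Finset.sum_sub_distrib, ← Finset.mul_sum]
  simp only [zero_add] at hsum s2
  linarith

lemma DcI_pos (L N : ℕ) (h : N < L) : 0 < DcI L N := by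
  unfold DcI
  refine Finset.prod_pos fun i hi => ?_
  rw [Finset.mem_range] at hi
  have hpos := prod_pos_aux L N i h hi
  positivity

lemma bb_pos (n : ℕ) (hn : 1 ≤ n) : 0 < bb n 0 := by
  unfold bb
  have : 0 < (2 * n - 1).choose (n - 1 - 0) := Nat.choose_pos (by omega)
  exact_mod_cast this

lemma log_bb (n : ℕ) (hn : 1 ≤ n) : Real.log (bb n 0) ≤ 2 * n * Real.log 2 := by
  have h1 : bb n 0 ≤ (2 : ℝ) ^ (2 * n) := by
    unfold bb
    have h2 : (2 * n - 1).choose (n - 1 - 0) ≤ 2 ^ (2 * n - 1) := Nat.choose_le_two_pow _ _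
    have h3 : 2 ^ (2 * n - 1) ≤ 2 ^ (2 * n) := Nat.pow_le_pow_right (by norm_num) (by omega)
    exact_mod_cast h2.trans h3
  have h4 := Real.log_le_log (bb_pos n hn) h1
  rw [Real.log_pow] at h4
  push_cast at h4
  exact h4

/-- `log ((M-1)! M!)` -/
lemma fac_bound (M : ℕ) (hM : 1 ≤ M) :
    Real.log (((M - 1).factorial : ℝ) * (M.factorial : ℝ)) ≤ 2 * N334.W.R0_.ph M + 4 * Real.log (M + 1) := by
  rw [Real.log_mul (by positivity) (by positivity)]
  have h1 := le_ph M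
  have h2 : Real.log ((M - 1).factorial : ℝ) ≤ Real.log (M.factorial : ℝ) := by
    apply Real.log_le_log (by positivity)
    exact_mod_cast Nat.factorial_le (by omega)
  linarith

lemma ph_mul (a x : ℝ) (ha : 0 < a) (hx : 0 < x) :
    N334.W.R0_.ph (a * x) = x * (a * Real.log a - a) + a * x * Real.log x := by
  unfold N334.W.R0_.ph
  rw [Real.log_mul ha.ne' hx.ne']
  ring

/-- upper bound for `log DX`, `x = ν` -/
noncomputable def UX (x : ℝ) : ℝ :=
  x / 2 * (4 * x * Real.log 2 + 2 * (2 * (x * (4 * Real.log 4 - 4) + 4 * x * Real.log x))) +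
  (-4 * (T 4 (-1) x - T (7 / 2) (-1 / 2) x) + 2 * T (1 / 2) (-1 / 2) x -
    (T 8 (-1) x - T (15 / 2) (-1 / 2) x) + (T (15 / 2) (1 / 2) x - T 7 1 x)) +
  (20 * x * Real.log (16 * x) + 20 * x)

/-- upper bound for `log DY`, `x = ν` -/
noncomputable def UY (x : ℝ) : ℝ :=
  x / 4 * (4 * x * Real.log 2 + 4 * (2 * (x * (8 * Real.log 8 - 8) + 8 * x * Real.log x))) +
  2 * (-4 * (T 8 (-1) x - T (31 / 4) (-3 / 4) x) + 2 * T (1 / 4) (-1 / 4) x -
    (T 16 (-1) x - T (63 / 4) (-3 / 4) x) + (T (63 / 4) (1 / 4) x - T (31 / 2) (1 / 2) x)) +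
  (40 * x * Real.log (16 * x) + 40 * x)

lemma boundX (u : ℕ) (hu : 1 ≤ u) :
    Real.log (DX (2 * (4 * u + 1)) ((4 * u + 1 - 1) / 2)) ≤ UX ((4 * u + 1 : ℕ) : ℝ) := by
  have e0 : (4 * u + 1 - 1) / 2 = 2 * u := by omega
  rw [e0]
  set x : ℝ := ((4 * u + 1 : ℕ) : ℝ) with hx
  have hu1 : (1 : ℝ) ≤ u := by exact_mod_cast hu
  have hx5 : 5 ≤ x := by rw [hx]; push_cast; linarith
  have hN : ((2 * u : ℕ) : ℝ) = (x - 1) / 2 := by rw [hx]; push_cast; ring
  have hL : ((2 * (2 * (4 * u + 1)) : ℕ) : ℝ) = 4 * x := by rw [hx]; push_cast; ring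
  have hlx0 : 0 ≤ Real.log (16 * x) := Real.log_nonneg (by linarith)
  unfold DX
  have hb := bb_pos (2 * (4 * u + 1)) (by omega)
  rw [Real.log_mul (by positivity) (DcI_pos _ _ (by omega)).ne', Real.log_pow,
    Real.log_mul hb.ne' (by positivity), Real.log_pow]
  have h1 := log_bb (2 * (4 * u + 1)) (by omega)
  have h2 := fac_bound (2 * (2 * (4 * u + 1))) (by omega)
  have h3 := DcI_bound (2 * (2 * (4 * u + 1))) (2 * u) (by omega)
  rw [hL, hN] at h3
  rw [hL, ph_mul 4 x (by norm_num) (by linarith)] at h2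
  have e1 : (((2 * (4 * u + 1) : ℕ)) : ℝ) = 2 * x := by rw [hx]; push_cast; ring
  rw [e1] at h1
  rw [hN]
  have h4 : Real.log (4 * x + 1) ≤ Real.log (16 * x) := Real.log_le_log (by linarith) (by linarith)
  have h5 : Real.log (2 * (4 * x)) ≤ Real.log (16 * x) := Real.log_le_log (by linarith) (by linarith)
  have hl2 : 0 < Real.log 2 := Real.log_pos (by norm_num)
  -- positivity of the bracket
  have hB : Real.log (bb (2 * (4 * u + 1)) 0) + ((2 : ℕ) : ℝ) * Real.log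
      (((2 * (2 * (4 * u + 1)) - 1).factorial : ℝ) * ((2 * (2 * (4 * u + 1))).factorial : ℝ)) ≤
      4 * x * Real.log 2 + 2 * (2 * (x * (4 * Real.log 4 - 4) + 4 * x * Real.log x)) +
        8 * Real.log (16 * x) := by
    push_cast at h2 ⊢
    linarith
  have hBpos : 0 ≤ 4 * x * Real.log 2 + 2 * (2 * (x * (4 * Real.log 4 - 4) + 4 * x * Real.log x)) +
        8 * Real.log (16 * x) := by
    have h41 : 1 ≤ Real.log 4 := by
      have : Real.log 4 = 2 * Real.log 2 := by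
        rw [show (4 : ℝ) = 2 ^ 2 by norm_num, Real.log_pow]; push_cast; ring
      have := Real.log_two_gt_d9
      linarith
    have h6 : 0 ≤ Real.log x := Real.log_nonneg (by linarith)
    have h7 : 0 ≤ x * (4 * Real.log 4 - 4) := mul_nonneg (by linarith) (by linarith)
    have h8 : 0 ≤ x * Real.log x := mul_nonneg (by linarith) h6
    have h9 : 0 ≤ x * Real.log 2 := mul_nonneg (by linarith) hl2.le
    linarith
  have hC : (x - 1) / 2 * (Real.log (bb (2 * (4 * u + 1)) 0) + ((2 : ℕ) : ℝ) * Real.log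
      (((2 * (2 * (4 * u + 1)) - 1).factorial : ℝ) * ((2 * (2 * (4 * u + 1))).factorial : ℝ))) ≤
      x / 2 * (4 * x * Real.log 2 + 2 * (2 * (x * (4 * Real.log 4 - 4) + 4 * x * Real.log x))) +
      4 * x * Real.log (16 * x) := by
    calc _ ≤ (x - 1) / 2 * (4 * x * Real.log 2 + 2 * (2 * (x * (4 * Real.log 4 - 4) + 4 * x * Real.log x)) +
        8 * Real.log (16 * x)) := mul_le_mul_of_nonneg_left hB (by linarith)
      _ ≤ x / 2 * (4 * x * Real.log 2 + 2 * (2 * (x * (4 * Real.log 4 - 4) + 4 * x * Real.log x)) +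
        8 * Real.log (16 * x)) := mul_le_mul_of_nonneg_right (by linarith) hBpos
      _ = _ := by ring
  have e2 : 4 * x - 1 = 4 * x + -1 := by ring
  have e3 : 4 * x - (x - 1) / 2 - 1 = 7 / 2 * x + -1 / 2 := by ring
  have e4 : (x - 1) / 2 = 1 / 2 * x + -1 / 2 := by ring
  have e5 : 2 * (4 * x) - 1 = 8 * x + -1 := by ring
  have e6 : 2 * (4 * x) - 1 - (x - 1) / 2 = 15 / 2 * x + -1 / 2 := by ring
  have e7 : 2 * (4 * x) - (x - 1) / 2 = 15 / 2 * x + 1 / 2 := by ring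
  have e8 : 2 * (4 * x) - 2 * ((x - 1) / 2) = 7 * x + 1 := by ring
  have e4' : G2 ((x - 1) / 2) = G2 (1 / 2 * x + -1 / 2) := by rw [e4]
  rw [e2, e3, e4', e6, e7, e8, e5] at h3
  have hD : 6 * ((x - 1) / 2) * Real.log (2 * (4 * x)) ≤ 3 * x * Real.log (16 * x) := by
    have h10 : (x - 1) / 2 * Real.log (2 * (4 * x)) ≤ (x - 1) / 2 * Real.log (16 * x) :=
      mul_le_mul_of_nonneg_left h5 (by linarith)
    have h11 : (x - 1) / 2 * Real.log (16 * x) ≤ x / 2 * Real.log (16 * x) :=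
      mul_le_mul_of_nonneg_right (by linarith) hlx0
    linarith
  have hE : 0 ≤ x * Real.log (16 * x) := mul_nonneg (by linarith) hlx0
  unfold UX T
  have hG : ∀ y, Pool.Agent.N334.W.G2 y = G2 y := fun _ => rfl
  simp only [hG] at h3 ⊢
  linarith

lemma boundY (u : ℕ) (hu : 1 ≤ u) :
    Real.log (DY (2 * (4 * u + 1)) ((4 * u + 1 - 1) / 4)) ≤ UY ((4 * u + 1 : ℕ) : ℝ) := by
  have e0 : (4 * u + 1 - 1) / 4 = u := by omega
  rw [e0]
  set x : ℝ := ((4 * u + 1 : ℕ) : ℝ) with hx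
  have hu1 : (1 : ℝ) ≤ u := by exact_mod_cast hu
  have hx5 : 5 ≤ x := by rw [hx]; push_cast; linarith
  have hN : (u : ℝ) = (x - 1) / 4 := by rw [hx]; push_cast; ring
  have hL : ((4 * (2 * (4 * u + 1)) : ℕ) : ℝ) = 8 * x := by rw [hx]; push_cast; ring
  have hlx0 : 0 ≤ Real.log (16 * x) := Real.log_nonneg (by linarith)
  unfold DY
  have hb := bb_pos (2 * (4 * u + 1)) (by omega)
  have hD0 := DcI_pos (4 * (2 * (4 * u + 1))) u (by omega)
  rw [Real.log_mul (by positivity) (by positivity), Real.log_pow,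
    Real.log_mul hb.ne' (by positivity), Real.log_pow, Real.log_pow]
  have h1 := log_bb (2 * (4 * u + 1)) (by omega)
  have h2 := fac_bound (4 * (2 * (4 * u + 1))) (by omega)
  have h3 := DcI_bound (4 * (2 * (4 * u + 1))) u (by omega)
  rw [hL, hN] at h3
  rw [hL, ph_mul 8 x (by norm_num) (by linarith)] at h2
  have e1 : (((2 * (4 * u + 1) : ℕ)) : ℝ) = 2 * x := by rw [hx]; push_cast; ring
  rw [e1] at h1
  rw [hN]
  have h4 : Real.log (8 * x + 1) ≤ Real.log (16 * x) := Real.log_le_log (by linarith) (by linarith)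
  have h5 : Real.log (2 * (8 * x)) ≤ Real.log (16 * x) := Real.log_le_log (by linarith) (by linarith)
  have hl2 : 0 < Real.log 2 := Real.log_pos (by norm_num)
  have hB : Real.log (bb (2 * (4 * u + 1)) 0) + ((4 : ℕ) : ℝ) * Real.log
      (((4 * (2 * (4 * u + 1)) - 1).factorial : ℝ) * ((4 * (2 * (4 * u + 1))).factorial : ℝ)) ≤
      4 * x * Real.log 2 + 4 * (2 * (x * (8 * Real.log 8 - 8) + 8 * x * Real.log x)) +
        16 * Real.log (16 * x) := by
    push_cast at h2 ⊢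
    linarith
  have hBpos : 0 ≤ 4 * x * Real.log 2 + 4 * (2 * (x * (8 * Real.log 8 - 8) + 8 * x * Real.log x)) +
        16 * Real.log (16 * x) := by
    have h41 : 1 ≤ Real.log 8 := by
      have : Real.log 8 = 3 * Real.log 2 := by
        rw [show (8 : ℝ) = 2 ^ 3 by norm_num, Real.log_pow]; push_cast; ring
      have := Real.log_two_gt_d9
      linarith
    have h6 : 0 ≤ Real.log x := Real.log_nonneg (by linarith)
    have h7 : 0 ≤ x * (8 * Real.log 8 - 8) := mul_nonneg (by linarith) (by linarith)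
    have h8 : 0 ≤ x * Real.log x := mul_nonneg (by linarith) h6
    have h9 : 0 ≤ x * Real.log 2 := mul_nonneg (by linarith) hl2.le
    linarith
  have hC : (x - 1) / 4 * (Real.log (bb (2 * (4 * u + 1)) 0) + ((4 : ℕ) : ℝ) * Real.log
      (((4 * (2 * (4 * u + 1)) - 1).factorial : ℝ) * ((4 * (2 * (4 * u + 1))).factorial : ℝ))) ≤
      x / 4 * (4 * x * Real.log 2 + 4 * (2 * (x * (8 * Real.log 8 - 8) + 8 * x * Real.log x))) +
      4 * x * Real.log (16 * x) := by
    calc _ ≤ (x - 1) / 4 * (4 * x * Real.log 2 + 4 * (2 * (x * (8 * Real.log 8 - 8) + 8 * x * Real.log x)) +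
        16 * Real.log (16 * x)) := mul_le_mul_of_nonneg_left hB (by linarith)
      _ ≤ x / 4 * (4 * x * Real.log 2 + 4 * (2 * (x * (8 * Real.log 8 - 8) + 8 * x * Real.log x)) +
        16 * Real.log (16 * x)) := mul_le_mul_of_nonneg_right (by linarith) hBpos
      _ = _ := by ring
  have e2 : 8 * x - 1 = 8 * x + -1 := by ring
  have e3 : 8 * x - (x - 1) / 4 - 1 = 31 / 4 * x + -3 / 4 := by ring
  have e4 : (x - 1) / 4 = 1 / 4 * x + -1 / 4 := by ring
  have e5 : 2 * (8 * x) - 1 = 16 * x + -1 := by ring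
  have e6 : 2 * (8 * x) - 1 - (x - 1) / 4 = 63 / 4 * x + -3 / 4 := by ring
  have e7 : 2 * (8 * x) - (x - 1) / 4 = 63 / 4 * x + 1 / 4 := by ring
  have e8 : 2 * (8 * x) - 2 * ((x - 1) / 4) = 31 / 2 * x + 1 / 2 := by ring
  have e4' : G2 ((x - 1) / 4) = G2 (1 / 4 * x + -1 / 4) := by rw [e4]
  rw [e3, e4', e6, e7, e8, e5, e2] at h3
  have hD : 6 * ((x - 1) / 4) * Real.log (2 * (8 * x)) ≤ 3 / 2 * x * Real.log (16 * x) := by
    have h10 : (x - 1) / 4 * Real.log (2 * (8 * x)) ≤ (x - 1) / 4 * Real.log (16 * x) :=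
      mul_le_mul_of_nonneg_left h5 (by linarith)
    have h11 : (x - 1) / 4 * Real.log (16 * x) ≤ x / 4 * Real.log (16 * x) :=
      mul_le_mul_of_nonneg_right (by linarith) hlx0
    linarith
  have hE : 0 ≤ x * Real.log (16 * x) := mul_nonneg (by linarith) hlx0
  unfold UY T
  have hG : ∀ y, Pool.Agent.N334.W.G2 y = G2 y := fun _ => rfl
  simp only [hG] at h3 ⊢
  push_cast
  linarith

lemma err_lim (c : ℝ) : Tendsto (fun x : ℝ => (c * x * Real.log (16 * x) + c * x) / x ^ 2) atTop (𝓝 0) := by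
  have h3 : Tendsto (fun n : ℝ => Real.log n / n) atTop (𝓝 0) :=
    Real.isLittleO_log_id_atTop.tendsto_div_nhds_zero
  have h4 : Tendsto (fun n : ℝ => 1 / n) atTop (𝓝 0) := tendsto_const_nhds.div_atTop tendsto_id
  have h5 := (h3.const_mul c).add (h4.const_mul (c * Real.log 16 + c))
  simp only [mul_zero, add_zero] at h5
  refine h5.congr' ?_
  filter_upwards [eventually_gt_atTop 0] with n hn0
  rw [Real.log_mul (by norm_num) hn0.ne']
  field_simp
  ring

lemma UX_lim : Tendsto (fun x : ℝ => UX x / x ^ 2 - 1 / 2 * Real.log x) atTop (𝓝 cDX) := by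
  have h := ((((((T_lim 4 (-1) (by norm_num)).sub (T_lim (7 / 2) (-1 / 2) (by norm_num))).const_mul (-4)).add
    ((T_lim (1 / 2) (-1 / 2) (by norm_num)).const_mul 2)).sub
    ((T_lim 8 (-1) (by norm_num)).sub (T_lim (15 / 2) (-1 / 2) (by norm_num)))).add
    ((T_lim (15 / 2) (1 / 2) (by norm_num)).sub (T_lim 7 1 (by norm_num)))).add (err_lim 20)
  have h2 := h.add (tendsto_const_nhds (x := 2 * Real.log 2 + 8 * Real.log 4 - 8))
  have e : -4 * (Pool.Agent.N334.W.G2 4 - Pool.Agent.N334.W.G2 (7 / 2)) +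
      2 * Pool.Agent.N334.W.G2 (1 / 2) - (Pool.Agent.N334.W.G2 8 - Pool.Agent.N334.W.G2 (15 / 2)) +
      (Pool.Agent.N334.W.G2 (15 / 2) - Pool.Agent.N334.W.G2 7) + 0 +
      (2 * Real.log 2 + 8 * Real.log 4 - 8) = cDX := by
    unfold cDX
    simp only [G2]
    ring
  rw [e] at h2
  refine h2.congr' ?_
  filter_upwards [eventually_gt_atTop 0] with n hn0
  unfold UX
  field_simp
  ring

lemma UY_lim : Tendsto (fun x : ℝ => UY x / x ^ 2 - 1 / 4 * Real.log x) atTop (𝓝 cDY) := by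
  have h := (((((((T_lim 8 (-1) (by norm_num)).sub (T_lim (31 / 4) (-3 / 4) (by norm_num))).const_mul (-4)).add
    ((T_lim (1 / 4) (-1 / 4) (by norm_num)).const_mul 2)).sub
    ((T_lim 16 (-1) (by norm_num)).sub (T_lim (63 / 4) (-3 / 4) (by norm_num)))).add
    ((T_lim (63 / 4) (1 / 4) (by norm_num)).sub (T_lim (31 / 2) (1 / 2) (by norm_num)))).const_mul 2).add
    (err_lim 40)
  have h2 := h.add (tendsto_const_nhds (x := Real.log 2 + 16 * Real.log 8 - 16))
  have e : 2 * (-4 * (Pool.Agent.N334.W.G2 8 - Pool.Agent.N334.W.G2 (31 / 4)) +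
      2 * Pool.Agent.N334.W.G2 (1 / 4) - (Pool.Agent.N334.W.G2 16 - Pool.Agent.N334.W.G2 (63 / 4)) +
      (Pool.Agent.N334.W.G2 (63 / 4) - Pool.Agent.N334.W.G2 (31 / 2))) + 0 +
      (Real.log 2 + 16 * Real.log 8 - 16) = cDY := by
    unfold cDY
    simp only [G2]
    ring
  rw [e] at h2
  refine h2.congr' ?_
  filter_upwards [eventually_gt_atTop 0] with n hn0
  unfold UY
  field_simp
  ring

end ASX_

open ASX_

theorem ASX : S_ASX := by
  intro ε hε
  have h1 : Tendsto (fun ν : ℕ => (ν : ℝ)) atTop atTop := tendsto_natCast_atTop_atTop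
  have h2 : Tendsto (fun x : ℝ => 8712 * (UX x / x ^ 2 - 1 / 2 * Real.log x) +
      8712 * (UY x / x ^ 2 - 1 / 4 * Real.log x)) atTop (𝓝 cX1) := by
    have := (UX_lim.const_mul 8712).add (UY_lim.const_mul 8712)
    have e : 8712 * cDX + 8712 * cDY = cX1 := by unfold cX1; ring
    rwa [e] at this
  have h3 := (h2.comp h1).eventually (gt_mem_nhds (lt_add_of_pos_right cX1 hε))
  filter_upwards [h3, eventually_ge_atTop 5] with ν hν hν2 hmod
  obtain ⟨u, rfl⟩ : ∃ u, ν = 4 * u + 1 := ⟨ν / 4, by omega⟩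
  have hX := boundX u (by omega)
  have hY := boundY u (by omega)
  simp only [Function.comp_apply] at hν
  have hx : (0 : ℝ) < ((4 * u + 1 : ℕ) : ℝ) := by positivity
  generalize ((4 * u + 1 : ℕ) : ℝ) = x at hν hx hX hY
  have hx2 : 0 < x ^ 2 := by positivity
  have h4 : 8712 * UX x + 8712 * UY x < (6534 * Real.log x + cX1 + ε) * x ^ 2 := by
    have h5 : (8712 * UX x + 8712 * UY x) / x ^ 2 < 6534 * Real.log x + cX1 + ε := by
      have e : (8712 * UX x + 8712 * UY x) / x ^ 2 = 8712 * (UX x / x ^ 2) + 8712 * (UY x / x ^ 2) := by ring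
      rw [e]
      linarith
    rwa [div_lt_iff₀ hx2] at h5
  nlinarith

end Pool.Agent.L0h38.Q4
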