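import Pool.Agent.L0h38.Q4.Stm
import Pool.Agent.H337R2.Med

/-!
# C1: `p`-adic size of the partial fraction coefficients
-/

open Polynomial Pool.Agent.H337R2

namespace Pool.Agent.L0h38.Q4

noncomputable section

namespace C1

variable {p : ℕ} [hp : Fact p.Prime]

omit hp in
lemma cst_nonneg (n : ℕ) : 0 ≤ padicNorm p ((((2 * n - 1).factorial : ℕ) : ℚ) ^ 99) := padicNorm.nonneg _

lemma PB_two (n k : ℕ) (ρ : ℚ) (hρ : 1 ≤ ρ) :
    PB p ρ 1 (PowerSeries.C 2 * PowerSeries.X + PowerSeries.C (2 * -(k : ℚ) + ((2 * n + 1 : ℕ) : ℚ))) := by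
  apply PB.lin (by linarith) zero_le_one
  · have := padicNorm.of_int (p := p) ((2 * n + 1 : ℤ) - 2 * k)
    push_cast at this
    rw [show (2 : ℚ) * -(k : ℚ) + ((2 * n + 1 : ℕ) : ℚ) = 2 * n + 1 - 2 * k by push_cast; ring]
    exact this
  · rw [one_mul]
    have := padicNorm.of_int (p := p) 2
    push_cast at this
    exact this.trans hρ

lemma PB_PP (n k : ℕ) (ρ : ℚ) (hρ : 1 ≤ ρ) :
    PB p ρ (padicNorm p ((((2 * n - 1).factorial : ℕ) : ℚ) ^ 99)) (TS (-(k : ℚ)) (PP n)) := by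
  unfold PP
  rw [(TS (-(k : ℚ))).map_mul, TS_C, (TS (-(k : ℚ))).map_pow, TS_lin2]
  have h1 : padicNorm p ((((2 * n - 1).factorial : ℕ) : ℚ) ^ 99) =
      padicNorm p ((((2 * n - 1).factorial : ℕ) : ℚ) ^ 99) * 1 ^ 401 := by ring
  rw [h1]
  exact PB.mul (by linarith) (cst_nonneg n) (by norm_num) (PB.C (by linarith) (cst_nonneg n) le_rfl)
    (PB.pow (by linarith) zero_le_one (PB_two n k ρ hρ) 401)

lemma PB_PP_mir (n k : ℕ) (h : (p : ℤ) ∣ 2 * (k : ℤ) - (2 * n + 1)) :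
    PB p (p : ℚ) (padicNorm p ((((2 * n - 1).factorial : ℕ) : ℚ) ^ 99) * ((p : ℚ)⁻¹) ^ 401)
      (TS (-(k : ℚ)) (PP n)) := by
  have hp0 : (0 : ℚ) < p := p_pos'
  have hinv : (0 : ℚ) ≤ (p : ℚ)⁻¹ := inv_nonneg.2 hp0.le
  unfold PP
  rw [(TS (-(k : ℚ))).map_mul, TS_C, (TS (-(k : ℚ))).map_pow, TS_lin2]
  refine PB.mul hp0.le (cst_nonneg n) (by positivity) (PB.C hp0.le (cst_nonneg n) le_rfl)
    (PB.pow hp0.le hinv ?_ 401)
  apply PB.lin hp0.le hinv
  · have h2 : (p : ℤ) ^ 1 ∣ ((2 * n + 1 : ℤ) - 2 * k) := by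
      rw [pow_one]
      have := (dvd_neg (a := (p : ℤ))).2 h
      rwa [neg_sub] at this
    have h3 := (padicNorm.dvd_iff_norm_le (p := p) (n := 1) (z := (2 * n + 1 : ℤ) - 2 * k)).1 (by
      simpa using h2)
    push_cast at h3
    rw [show (2 : ℚ) * -(k : ℚ) + ((2 * n + 1 : ℕ) : ℚ) = 2 * n + 1 - 2 * k by push_cast; ring]
    refine h3.trans (le_of_eq ?_)
    simp
  · rw [inv_mul_cancel₀ hp0.ne']
    have := padicNorm.of_int (p := p) 2
    push_cast at this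
    exact this

lemma mem_ne {n k m : ℕ} (hm : m ∈ sP n) (hk : k ∈ sP n) (hmk : m ≠ k) (hp2 : 2 * n < p ^ 2) :
    padicNorm p ((m : ℚ) - k) = if (p : ℤ) ∣ (m : ℤ) - k then (p : ℚ)⁻¹ else 1 := by
  have h1 : ((m : ℤ) - k) ≠ 0 := by
    intro h; apply hmk; omega
  have h2 : |(m : ℤ) - k| < (p : ℤ) ^ 2 := by
    rw [Finset.mem_Icc] at hm hk
    have h3 : ((2 * n : ℕ) : ℤ) < ((p ^ 2 : ℕ) : ℤ) := by exact_mod_cast hp2
    have h4 : (((p ^ 2 : ℕ) : ℤ)) = (p : ℤ) ^ 2 := by push_cast; ring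
    rw [← h4, abs_lt]
    omega
  have h3 := norm_small (p := p) h1 h2
  push_cast at h3
  exact h3

omit hp in
lemma dvd_iff (m k : ℕ) : (p : ℤ) ∣ (m : ℤ) - k ↔ m % p = k % p := by
  rw [← Nat.modEq_iff_dvd]
  constructor
  · intro h; exact h.symm
  · intro h; exact h.symm

omit hp in
lemma Np_eq {n k : ℕ} (hk : k ∈ sP n) : 99 * Np n p k = 99 +
    ∑ m ∈ (sP n).erase k, mP m * (if (p : ℤ) ∣ (m : ℤ) - k then 1 else 0) := by
  have h1 : Np n p k = ∑ m ∈ sP n, (if (p : ℤ) ∣ (m : ℤ) - k then 1 else 0) := by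
    unfold Np
    rw [Finset.card_filter]
    apply Finset.sum_congr rfl
    intro m _
    simp only [dvd_iff]
  rw [h1, ← Finset.add_sum_erase _ _ hk, ← Finset.mul_sum]
  simp only [sub_self, dvd_zero, if_true]
  ring

lemma pa_bound {n : ℕ} (hp2 : 2 * n < p ^ 2) (E : ℚ[X]) {k : ℕ} (hk : k ∈ sP n) (A : ℚ) (hA : 0 ≤ A)
    (hE : PB p (p : ℚ) A (TS (-(k : ℚ)) E)) (i : ℕ) (B : ℚ) (hB : 0 ≤ B)
    (hPP : PB p (p : ℚ) B (TS (-(k : ℚ)) (PP n))) :
    padicNorm p (pa (sP n) mP (PP n * E) k i) ≤ B * A * (p : ℚ) ^ (99 * (Np n p k : ℤ) - i) := by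
  have hp0 : (0 : ℚ) < p := p_pos'
  have hpne : (p : ℚ) ≠ 0 := hp0.ne'
  unfold pa
  split_ifs with hi
  · have hPE := PB.mul hp0.le hB hA hPP hE
    rw [← map_mul] at hPE
    have h1 := pfc_bound (p := p) (sP n) mP (PP n * E) k (p : ℚ) _
      (fun m => if (p : ℤ) ∣ (m : ℤ) - k then (p : ℚ) else 1) hp0.le (mul_nonneg hB hA)
      hPE
      (by
        intro m hm _
        rw [mem_ne (Finset.mem_of_mem_erase hm) hk (Finset.ne_of_mem_erase hm) hp2]
        split_ifs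
        · simp
        · simp [(Fact.out : p.Prime).one_lt.le])
      (by
        intro m _
        split_ifs
        · exact hp0.le
        · exact zero_le_one) (mP k - i)
    refine h1.trans (le_of_eq ?_)
    rw [prod_ite_pow, mul_assoc (B * A), ← pow_add, ← zpow_natCast]
    have h5 := Np_eq (p := p) hk
    have h6 : (mP k - i : ℕ) + i = 99 := by
      have : mP k = 99 := rfl
      omega
    generalize (∑ m ∈ (sP n).erase k, mP m * (if (p : ℤ) ∣ (m : ℤ) - k then 1 else 0)) = S at h5 ⊢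
    generalize (mP k - i : ℕ) = d at h6 ⊢
    congr 2
    omega
  · rw [padicNorm.zero]
    positivity

end C1

theorem C1 : S_C1 := by
  intro n p _ hn hp2 E k hk A hA hE i
  have hp0 : (0 : ℚ) < p := p_pos'
  have hpne : (p : ℚ) ≠ 0 := hp0.ne'
  have hp1 : (1 : ℚ) ≤ p := by exact_mod_cast (Fact.out : p.Prime).one_lt.le
  have hc : padicNorm p ((((2 * n - 1).factorial : ℕ) : ℚ) ^ 99) = (p : ℚ) ^ (-(99 * (((2 * n - 1) / p : ℕ) : ℤ))) := by
    rw [padicNorm_pow', norm_factorial (by omega), ← zpow_natCast, ← zpow_mul]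
    congr 1
    push_cast
    ring
  constructor
  · refine (C1.pa_bound hp2 E hk A hA hE i _ (C1.cst_nonneg n) (C1.PB_PP n k (p : ℚ) hp1)).trans (le_of_eq ?_)
    rw [hc, mul_right_comm, ← zpow_add₀ hpne]
    congr 2
    unfold eP
    ring
  · intro hmir
    refine (C1.pa_bound hp2 E hk A hA hE i _ (mul_nonneg (C1.cst_nonneg n) (by positivity))
      (C1.PB_PP_mir n k hmir)).trans (le_of_eq ?_)
    rw [hc, inv_pow, ← zpow_natCast, ← zpow_neg, ← zpow_add₀ hpne, mul_right_comm, ← zpow_add₀ hpne]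
    congr 2
    unfold eP
    push_cast
    ring

theorem C1I : S_C1I := by
  intro n p _ hn E k hk A hA hE i hno
  have hcst := C1.cst_nonneg (p := p) n
  unfold pa
  split_ifs with hi
  · have hPE := PB.mul zero_le_one hcst hA (C1.PB_PP (p := p) n k 1 le_rfl) hE
    rw [← map_mul] at hPE
    have h1 := pfc_bound (p := p) (sP n) mP (PP n * E) k 1 _
      (fun _ => 1) zero_le_one (mul_nonneg hcst hA) hPE
      (by
        intro m hm _
        have h2 := hno m (Finset.mem_of_mem_erase hm) (Finset.ne_of_mem_erase hm)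
        have h3 := (padicNorm.int_eq_one_iff (p := p) _).2 h2
        push_cast at h3
        rw [h3]; simp)
      (by intro m _; exact zero_le_one) (mP k - i)
    rw [padicNorm_pow'] at h1
    simpa using h1
  · rw [padicNorm.zero]
    exact mul_nonneg (pow_nonneg (padicNorm.nonneg _) _) hA

end

end Pool.Agent.L0h38.Q4
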