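import Pool.Agent.L0h38.Q4.Stm
import Pool.Agent.TH650.GB.CB
import Pool.Agent.N334.W.CL2

/-!
# CLI: the products for the inner classical weight are bounded by the classical Hankel determinant
-/

open Polynomial

namespace Pool.Agent.L0h38.Q4

noncomputable section

namespace CLI_

/-- the weight -/
def w (L a : ℕ) : ℝ := (2 * (a : ℝ) + 1) / (((L - 1 - a).factorial : ℝ) * ((L + a).factorial : ℝ)) ^ 2

lemma w_nonneg (L a : ℕ) : 0 ≤ w L a := by
  unfold w
  positivity

/-- the basis -/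
def PH (L i : ℕ) : ℝ[X] := ∏ l ∈ Finset.range i, (X - C (nx 1 (L - 1 - l)))

lemma PH_monic (L i : ℕ) : (PH L i).Monic := monic_prod_of_monic _ _ fun _ _ => monic_X_sub_C _

lemma PH_deg (L i : ℕ) : (PH L i).natDegree = i := by
  unfold PH
  rw [natDegree_prod_of_monic _ _ fun _ _ => monic_X_sub_C _]
  simp only [natDegree_X_sub_C, Finset.sum_const, Finset.card_range, smul_eq_mul, mul_one]

lemma PH_eval (L i j : ℕ) : (PH L i).eval (nx 1 j) = ∏ l ∈ Finset.range i, (nx 1 j - nx 1 (L - 1 - l)) := by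
  unfold PH
  rw [eval_prod]
  refine Finset.prod_congr rfl fun l _ => ?_
  rw [eval_sub, eval_X, eval_C]

lemma PH_zero (L i j : ℕ) (hj : j < L) (hij : L ≤ i + j) : (PH L i).eval (nx 1 j) = 0 := by
  rw [PH_eval]
  apply Finset.prod_eq_zero (i := L - 1 - j) (Finset.mem_range.2 (by omega))
  rw [show L - 1 - (L - 1 - j) = j by omega, sub_self]

lemma PH_val (L i j : ℕ) (hij : i + j < L) : (PH L i).eval (nx 1 j) *
    (((L - 1 - i - j).factorial : ℝ) * ((L - i + j).factorial : ℝ)) =
    (-1) ^ i * (((L - 1 - j).factorial : ℝ) * ((L + j).factorial : ℝ)) := by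
  rw [PH_eval]
  induction i with
  | zero => simp
  | succ i ih =>
    have h1 := ih (by omega)
    rw [Finset.prod_range_succ, pow_succ]
    obtain ⟨d, hd⟩ : ∃ d, L = i + 1 + j + 1 + d := ⟨L - (i + 1 + j + 1), by omega⟩
    subst hd
    have e1 : i + 1 + j + 1 + d - 1 - (i + 1) - j = d := by omega
    have e2 : i + 1 + j + 1 + d - (i + 1) + j = 2 * j + 1 + d := by omega
    have e3 : i + 1 + j + 1 + d - 1 - i - j = d + 1 := by omega
    have e4 : i + 1 + j + 1 + d - i + j = (2 * j + 1 + d) + 1 := by omega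
    have e5 : i + 1 + j + 1 + d - 1 - i = j + 1 + d := by omega
    rw [e3, e4, Nat.factorial_succ, Nat.factorial_succ] at h1
    rw [e1, e2, e5]
    have e6 : nx 1 j - nx 1 (j + 1 + d) = -(((d : ℝ) + 1) * (2 * (j : ℝ) + 2 + d)) := by
      unfold nx Pool.Agent.N334.W.nx
      push_cast
      ring
    rw [e6]
    push_cast at h1 ⊢
    linear_combination (-1 : ℝ) * h1

/-- the telescoping term -/
def g (A B j : ℕ) : ℝ := if j < A ∧ j < B then
  1 / (((A - 1 - j).factorial : ℝ) * ((B - 1 - j).factorial : ℝ) * ((A + j - 1).factorial : ℝ) *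
    ((B + j - 1).factorial : ℝ) * ((A : ℝ) + B - 1)) else 0

/-- the summand -/
def f (A B j : ℕ) : ℝ := if j < A ∧ j < B then
  (2 * (j : ℝ) + 1) / (((A - 1 - j).factorial : ℝ) * ((A + j).factorial : ℝ) *
    (((B - 1 - j).factorial : ℝ) * ((B + j).factorial : ℝ))) else 0

lemma g_step (A B j : ℕ) : g A B j - g A B (j + 1) = f A B j := by
  unfold g f
  by_cases h : j < A ∧ j < B
  · rw [if_pos h, if_pos h]
    obtain ⟨a, ha⟩ : ∃ a, A = j + 1 + a := ⟨A - (j + 1), by omega⟩
    obtain ⟨b, hb⟩ : ∃ b, B = j + 1 + b := ⟨B - (j + 1), by omega⟩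
    subst ha hb
    have e1 : j + 1 + a - 1 - j = a := by omega
    have e2 : j + 1 + b - 1 - j = b := by omega
    have e3 : j + 1 + a + j - 1 = 2 * j + a := by omega
    have e4 : j + 1 + b + j - 1 = 2 * j + b := by omega
    have e5 : j + 1 + a + j = (2 * j + a) + 1 := by omega
    have e6 : j + 1 + b + j = (2 * j + b) + 1 := by omega
    rw [e1, e2, e3, e4, e5, e6, Nat.factorial_succ, Nat.factorial_succ]
    have p1 : (a.factorial : ℝ) ≠ 0 := by positivity
    have p2 : (b.factorial : ℝ) ≠ 0 := by positivity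
    have p3 : ((2 * j + a).factorial : ℝ) ≠ 0 := by positivity
    have p4 : ((2 * j + b).factorial : ℝ) ≠ 0 := by positivity
    have p5 : ((2 * (j : ℝ) + a + 1)) ≠ 0 := by positivity
    have p6 : ((2 * (j : ℝ) + b + 1)) ≠ 0 := by positivity
    have p7 : (((j + 1 + a : ℕ) : ℝ) + ((j + 1 + b : ℕ) : ℝ) - 1) ≠ 0 := by
      have : (((j + 1 + a : ℕ) : ℝ) + ((j + 1 + b : ℕ) : ℝ) - 1) = 2 * (j : ℝ) + a + b + 1 := by
        push_cast
        ring
      rw [this]
      positivity
    by_cases h2 : j + 1 < j + 1 + a ∧ j + 1 < j + 1 + b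
    · rw [if_pos h2]
      obtain ⟨a', rfl⟩ : ∃ a', a = a' + 1 := ⟨a - 1, by omega⟩
      obtain ⟨b', rfl⟩ : ∃ b', b = b' + 1 := ⟨b - 1, by omega⟩
      have e7 : j + 1 + (a' + 1) - 1 - (j + 1) = a' := by omega
      have e8 : j + 1 + (b' + 1) - 1 - (j + 1) = b' := by omega
      have e9 : j + 1 + (a' + 1) + (j + 1) - 1 = (2 * j + (a' + 1)) + 1 := by omega
      have e10 : j + 1 + (b' + 1) + (j + 1) - 1 = (2 * j + (b' + 1)) + 1 := by omega
      rw [e7, e8, e9, e10, Nat.factorial_succ (2 * j + (a' + 1)), Nat.factorial_succ (2 * j + (b' + 1)),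
        Nat.factorial_succ a', Nat.factorial_succ b']
      have q1 : (a'.factorial : ℝ) ≠ 0 := by positivity
      have q2 : (b'.factorial : ℝ) ≠ 0 := by positivity
      push_cast at p5 p6 p7 ⊢
      have q3 : (2 * (j : ℝ) + (a' + 1) + 1) ≠ 0 := by positivity
      have q4 : (2 * (j : ℝ) + (b' + 1) + 1) ≠ 0 := by positivity
      have q5 : ((a' : ℝ) + 1) ≠ 0 := by positivity
      have q6 : ((b' : ℝ) + 1) ≠ 0 := by positivity
      field_simp
      ring
    · rw [if_neg h2]
      have h3 : a = 0 ∨ b = 0 := by omega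
      push_cast at p7 ⊢
      rw [sub_zero]
      rcases h3 with rfl | rfl
      · push_cast at p5 p6 p7 ⊢
        field_simp
        ring
      · push_cast at p5 p6 p7 ⊢
        field_simp
        ring
  · rw [if_neg h, if_neg h, if_neg (by omega), sub_zero]

lemma sum_f (A B T : ℕ) : ∑ j ∈ Finset.range T, f A B j = g A B 0 - g A B T := by
  induction T with
  | zero => simp
  | succ T ih => rw [Finset.sum_range_succ, ih, ← g_step]; ring

/-- Gram matrix -/
lemma gram (L a b : ℕ) (ha : a < L) (hb : b < L) :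
    ∑ j ∈ Finset.range L, w L j * (PH L a).eval (nx 1 j) * (PH L b).eval (nx 1 j) =
      ((-1) ^ a / ((L - a - 1).factorial : ℝ) ^ 2) * (1 / (2 * (L : ℝ) - 1 - a - b)) *
        ((-1) ^ b / ((L - b - 1).factorial : ℝ) ^ 2) := by
  have hterm : ∀ j ∈ Finset.range L, w L j * (PH L a).eval (nx 1 j) * (PH L b).eval (nx 1 j) =
      (-1) ^ a * (-1) ^ b * f (L - a) (L - b) j := by
    intro j hj
    rw [Finset.mem_range] at hj
    by_cases h : j < L - a ∧ j < L - b
    · have h1 := PH_val L a j (by omega)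
      have h2 := PH_val L b j (by omega)
      unfold f w
      rw [if_pos h]
      have e1 : L - a - 1 - j = L - 1 - a - j := by omega
      have e2 : L - b - 1 - j = L - 1 - b - j := by omega
      rw [e1, e2]
      have p1 : ((L - 1 - a - j).factorial : ℝ) ≠ 0 := by positivity
      have p2 : ((L - 1 - b - j).factorial : ℝ) ≠ 0 := by positivity
      have p3 : ((L - a + j).factorial : ℝ) ≠ 0 := by positivity
      have p4 : ((L - b + j).factorial : ℝ) ≠ 0 := by positivity
      have p5 : ((L - 1 - j).factorial : ℝ) ≠ 0 := by positivity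
      have p6 : ((L + j).factorial : ℝ) ≠ 0 := by positivity
      rw [← eq_div_iff (mul_ne_zero p1 p3)] at h1
      rw [← eq_div_iff (mul_ne_zero p2 p4)] at h2
      rw [h1, h2]
      field_simp
    · have h3 : L ≤ a + j ∨ L ≤ b + j := by omega
      unfold f
      rw [if_neg h, mul_zero]
      rcases h3 with h3 | h3
      · rw [PH_zero L a j hj h3]; ring
      · rw [PH_zero L b j hj h3]; ring
  rw [Finset.sum_congr rfl hterm, ← Finset.mul_sum, sum_f]
  have h0' : g (L - a) (L - b) L = 0 := by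
    unfold g
    rw [if_neg (by omega)]
  rw [h0', sub_zero]
  unfold g
  rw [if_pos ⟨by omega, by omega⟩]
  have e1 : L - a - 1 - 0 = L - a - 1 := by omega
  have e2 : L - b - 1 - 0 = L - b - 1 := by omega
  have e3 : L - a + 0 - 1 = L - a - 1 := by omega
  have e4 : L - b + 0 - 1 = L - b - 1 := by omega
  rw [e1, e2, e3, e4]
  have e5 : (((L - a : ℕ) : ℝ)) + ((L - b : ℕ) : ℝ) - 1 = 2 * (L : ℝ) - 1 - a - b := by
    rw [Nat.cast_sub ha.le, Nat.cast_sub hb.le]
    ring
  rw [e5]
  have p1 : ((L - a - 1).factorial : ℝ) ≠ 0 := by positivity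
  have p2 : ((L - b - 1).factorial : ℝ) ≠ 0 := by positivity
  have p3 : 2 * (L : ℝ) - 1 - a - b ≠ 0 := by
    have h1 : (a : ℝ) + 1 ≤ L := by exact_mod_cast ha
    have h2 : (b : ℝ) + 1 ≤ L := by exact_mod_cast hb
    have : 0 < 2 * (L : ℝ) - 1 - a - b := by linarith
    exact this.ne'
  field_simp

/-- the Vandermonde product of a finite set -/
lemma vd_eq (c N : ℕ) (S : Finset ℕ) (hS : S.card = N) :
    vd c S = (Matrix.vandermonde fun i : Fin N => nx c (S.orderEmbOfFin hS i)).det := by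
  rw [Matrix.det_vandermonde]
  unfold vd Pool.Agent.N334.W.vd
  have h1 : S = Finset.univ.map (S.orderEmbOfFin hS).toEmbedding := by
    ext x
    simp only [Finset.mem_map, Finset.mem_univ, true_and]
    have h2 := Finset.range_orderEmbOfFin S hS
    rw [Set.ext_iff] at h2
    exact (h2 x).symm
  have h3 : ∀ G : ℕ → ℝ, ∏ a ∈ S, G a = ∏ i : Fin N, G (S.orderEmbOfFin hS i) := by
    intro G
    conv_lhs => rw [h1]
    rw [Finset.prod_map]
    rfl
  rw [h3]
  refine Finset.prod_congr rfl fun i _ => ?_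
  rw [Finset.prod_filter, h3, ← Finset.prod_filter]
  refine Finset.prod_congr ?_ fun _ _ => rfl
  ext j
  simp

/-- every product is bounded by the Gram determinant -/
lemma trunc (c N : ℕ) (W : ℕ → ℝ) (hw : ∀ t, 0 ≤ W t) (P : ℕ → ℝ[X]) (hP : ∀ i, (P i).Monic)
    (hPd : ∀ i, (P i).natDegree = i) (S : Finset ℕ) (hS : S.card = N) (T : ℕ) (hT : ∀ a ∈ S, a < T) :
    (∏ a ∈ S, W a) * vd c S ^ 2 ≤
      (Matrix.of fun i j : Fin N => ∑ t ∈ Finset.range T,
        W t * (P i).eval (nx c t) * (P j).eval (nx c t)).det := by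
  classical
  let e : Fin N → Fin T := fun i => ⟨S.orderEmbOfFin hS i, hT _ (Finset.orderEmbOfFin_mem S hS i)⟩
  have he : Function.Injective e := fun i j h => by
    have h1 : S.orderEmbOfFin hS i = S.orderEmbOfFin hS j := congrArg Fin.val h
    exact (S.orderEmbOfFin hS).injective h1
  have h1 := Pool.Agent.TH650.GB.cb_gram (fun r : Fin T => W r)
    (fun (r : Fin T) (i : Fin N) => (P i).eval (nx c r))
  have h2 : (∑ r : Fin T, W r • Matrix.vecMulVec (fun i : Fin N => (P i).eval (nx c r))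
      (fun i : Fin N => (P i).eval (nx c r))) =
      Matrix.of fun i j : Fin N => ∑ t ∈ Finset.range T,
        W t * (P i).eval (nx c t) * (P j).eval (nx c t) := by
    ext i j
    rw [Matrix.sum_apply, Matrix.of_apply,
      ← Fin.sum_univ_eq_sum_range (fun t => W t * (P i).eval (nx c t) *
        (P j).eval (nx c t))]
    refine Finset.sum_congr rfl fun r _ => ?_
    rw [Matrix.smul_apply, Matrix.vecMulVec_apply, smul_eq_mul]
    ring
  rw [h2] at h1
  have h3 : ∀ I : Fin N → Fin T,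
      (Matrix.of fun a (i : Fin N) => (P i).eval (nx c (I a))).det =
        (Matrix.vandermonde fun a => nx c (I a)).det := fun I =>
    (Matrix.det_eval_matrixOfPolynomials_eq_det_vandermonde (fun a => nx c (I a))
      (fun i : Fin N => P i) (fun i => hPd i) (fun i => hP i)).symm
  simp only [h3] at h1
  let G : (Fin N → Fin T) → ℝ := fun I => (∏ a, W (I a)) *
    (Matrix.vandermonde fun a => nx c (I a)).det ^ 2
  have hG : ∀ I, 0 ≤ G I := fun I => mul_nonneg (Finset.prod_nonneg fun a _ => hw _) (sq_nonneg _)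
  have h4 : ∀ σ : Equiv.Perm (Fin N), G (e ∘ σ) = (∏ a ∈ S, W a) * vd c S ^ 2 := by
    intro σ
    have h5 : (Matrix.vandermonde fun a => nx c (e (σ a))) =
        (Matrix.vandermonde fun a => nx c (e a)).submatrix σ id := rfl
    have h6 : ∏ a, W (e (σ a)) = ∏ a, W (e a) :=
      Equiv.prod_comp σ fun a => W (e a)
    have h7 : ∏ a, W (e a) = ∏ a ∈ S, W a := by
      have h8 : S = Finset.univ.map (S.orderEmbOfFin hS).toEmbedding := by
        ext x
        simp only [Finset.mem_map, Finset.mem_univ, true_and]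
        have h2 := Finset.range_orderEmbOfFin S hS
        rw [Set.ext_iff] at h2
        exact (h2 x).symm
      conv_rhs => rw [h8]
      rw [Finset.prod_map]
      rfl
    change (∏ a, W (e (σ a))) * (Matrix.vandermonde fun a => nx c (e (σ a))).det ^ 2 = _
    rw [h5, Matrix.det_permute, h6, h7, mul_pow, vd_eq c N S hS]
    have h9 : (((Equiv.Perm.sign σ : ℤˣ) : ℤ) : ℝ) ^ 2 = 1 := by
      rw [← Int.cast_pow]
      rcases Int.units_eq_one_or (Equiv.Perm.sign σ) with h | h <;> rw [h] <;> norm_num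
    rw [h9, one_mul]
  have h5 : ∑ σ : Equiv.Perm (Fin N), G (e ∘ σ) ≤ ∑ I, G I := by
    have hinj : Function.Injective fun σ : Equiv.Perm (Fin N) => e ∘ σ := fun σ τ h => by
      refine Equiv.ext fun a => he ?_
      exact congrFun h a
    have h6 : ∑ σ : Equiv.Perm (Fin N), G (e ∘ σ) =
        ∑ I ∈ Finset.univ.map ⟨_, hinj⟩, G I := by
      rw [Finset.sum_map]
      rfl
    rw [h6]
    exact Finset.sum_le_sum_of_subset_of_nonneg (Finset.subset_univ _) fun I _ _ => hG I
  rw [Finset.sum_congr rfl fun σ _ => h4 σ, Finset.sum_const, Finset.card_univ,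
    Fintype.card_perm, nsmul_eq_mul] at h5
  have h6 : ((Fintype.card (Fin N)).factorial : ℝ) * ((∏ a ∈ S, W a) * vd c S ^ 2) ≤
      ((Fintype.card (Fin N)).factorial : ℝ) * _ := h5.trans (le_of_eq h1.symm)
  exact le_of_mul_le_mul_left h6 (by positivity)

end CLI_

open CLI_ in
/-- **CLI** -/
theorem CLI : S_CLI := by
  intro L N S hN hS hcard
  have h1 := trunc 1 N (w L) (w_nonneg L) (PH L) (PH_monic L) (PH_deg L) S hcard L
    (fun a ha => Finset.mem_range.1 (hS ha))
  refine (show _ = (∏ a ∈ S, w L a) * vd 1 S ^ 2 from rfl).le.trans (h1.trans (le_of_eq ?_))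
  have h3 : (Matrix.of fun i j : Fin N => ∑ t ∈ Finset.range L,
        w L t * (PH L i).eval (nx 1 t) * (PH L j).eval (nx 1 t)) =
        Matrix.diagonal (fun i : Fin N => (-1) ^ i.1 / ((L - i.1 - 1).factorial : ℝ) ^ 2) *
        (Matrix.of fun i j : Fin N => 1 / ((2 * (L : ℝ) - 1) - (i.1 : ℝ) - (j.1 : ℝ))) *
        Matrix.diagonal (fun i : Fin N => (-1) ^ i.1 / ((L - i.1 - 1).factorial : ℝ) ^ 2) := by
    ext i j
    rw [Matrix.mul_diagonal, Matrix.diagonal_mul]
    exact gram L i.1 j.1 (by omega) (by omega)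
  have hcN : 2 * (N : ℝ) - 2 < 2 * (L : ℝ) - 1 := by
    have h5 : (N : ℝ) ≤ L := by exact_mod_cast hN
    linarith
  rw [h3, Matrix.det_mul, Matrix.det_mul, Matrix.det_diagonal, Pool.Agent.N334.W.CL2 N _ hcN]
  unfold DcI
  rw [← Fin.prod_univ_eq_prod_range (fun i : ℕ => (1 / ((L - i - 1).factorial : ℝ) ^ 4) *
      ((i.factorial : ℝ) ^ 2 / ∏ j ∈ Finset.range N, (2 * (L : ℝ) - 1 - i - j))),
    ← Fin.prod_univ_eq_prod_range (fun i : ℕ =>
      ((i.factorial : ℝ) ^ 2 / ∏ j ∈ Finset.range N, ((2 * (L : ℝ) - 1) - i - j))),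
    ← Finset.prod_mul_distrib, ← Finset.prod_mul_distrib]
  refine Finset.prod_congr rfl fun i _ => ?_
  have h7 : ((-1 : ℝ) ^ i.1) ^ 2 = 1 := by
    rw [← pow_mul, mul_comm, pow_mul, neg_one_sq, one_pow]
  have h8 : ((-1 : ℝ) ^ i.1 / ((L - i.1 - 1).factorial : ℝ) ^ 2) *
      ((-1 : ℝ) ^ i.1 / ((L - i.1 - 1).factorial : ℝ) ^ 2) = 1 / ((L - i.1 - 1).factorial : ℝ) ^ 4 := by
    rw [div_mul_div_comm, ← pow_two, h7, ← pow_add]
  rw [← h8]
  ring

end

end Pool.Agent.L0h38.Q4
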