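import Pool.Agent.L0h38.Q4.Stm

/-!
# DOMX, DOMY: domination by the inner classical weights
-/

namespace Pool.Agent.L0h38.Q4

noncomputable section

namespace DOM_

lemma bb_nonneg (n a : ℕ) : 0 ≤ bb n a := by
  unfold bb
  positivity

lemma bb_step {n a : ℕ} (h : a + 1 < n) :
    bb n (a + 1) * ((n : ℝ) + (a + 1)) = bb n a * ((n : ℝ) - (a + 1)) := by
  unfold bb
  obtain ⟨k, rfl⟩ : ∃ k, n = a + 2 + k := ⟨n - (a + 2), by omega⟩
  have h1 := Nat.choose_succ_right_eq (2 * (a + 2 + k) - 1) k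
  have e1 : a + 2 + k - 1 - (a + 1) = k := by omega
  have e2 : a + 2 + k - 1 - a = k + 1 := by omega
  rw [e1, e2]
  have e3 : 2 * (a + 2 + k) - 1 - k = 2 * a + 3 + k := by omega
  rw [e3] at h1
  have h2 : (((2 * (a + 2 + k) - 1).choose (k + 1) : ℕ) : ℝ) * ((k : ℝ) + 1) =
      (((2 * (a + 2 + k) - 1).choose k : ℕ) : ℝ) * (2 * (a : ℝ) + 3 + k) := by exact_mod_cast h1
  push_cast
  linear_combination (-1 : ℝ) * h2

lemma bb_dom (n L e : ℕ) (hL : n ≤ L)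
    (hkey : ∀ b : ℝ, 0 ≤ b → b ≤ n → ((n : ℝ) - b) * ((L : ℝ) + b) ^ e ≤ ((n : ℝ) + b) * ((L : ℝ) - b) ^ e)
    (a : ℕ) (ha : a < n) :
    bb n a * (((L - 1 - a).factorial : ℝ) * ((L + a).factorial : ℝ)) ^ e ≤
      bb n 0 * (((L - 1).factorial : ℝ) * (L.factorial : ℝ)) ^ e := by
  induction a with
  | zero => simp
  | succ a ih =>
    refine le_trans ?_ (ih (by omega))
    obtain ⟨d, rfl⟩ : ∃ d, L = a + 2 + d := ⟨L - (a + 2), by omega⟩
    have e1 : a + 2 + d - 1 - (a + 1) = d := by omega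
    have e2 : a + 2 + d - 1 - a = d + 1 := by omega
    have e3 : a + 2 + d + (a + 1) = (a + 2 + d + a) + 1 := by omega
    rw [e1, e2, e3, Nat.factorial_succ, Nat.factorial_succ]
    have h1 := bb_step ha
    have hk := hkey ((a : ℝ) + 1) (by positivity) (by
      have : ((a + 1 : ℕ) : ℝ) ≤ n := by exact_mod_cast ha.le
      push_cast at this
      exact this)
    have hn : (0 : ℝ) < (n : ℝ) + (a + 1) := by positivity
    have hbb : bb n (a + 1) = bb n a * ((n : ℝ) - (a + 1)) / ((n : ℝ) + (a + 1)) := by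
      rw [eq_div_iff hn.ne', h1]
    rw [hbb]
    push_cast at hk ⊢
    have hd : ((a : ℝ) + 2 + d - (a + 1)) = d + 1 := by ring
    rw [hd] at hk
    have hF : (0 : ℝ) ≤ ((d.factorial : ℝ) * ((a + 2 + d + a).factorial : ℝ)) ^ e := by positivity
    have h4 : bb n a * ((n : ℝ) - (a + 1)) / ((n : ℝ) + (a + 1)) *
        ((d.factorial : ℝ) * ((((a : ℝ) + 2 + d + a) + 1) * ((a + 2 + d + a).factorial : ℝ))) ^ e =
        (bb n a * ((d.factorial : ℝ) * ((a + 2 + d + a).factorial : ℝ)) ^ e) *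
          ((((n : ℝ) - (a + 1)) * ((a : ℝ) + 2 + d + (a + 1)) ^ e) / ((n : ℝ) + (a + 1))) := by
      have : ((d.factorial : ℝ) * ((((a : ℝ) + 2 + d + a) + 1) * ((a + 2 + d + a).factorial : ℝ))) ^ e =
          ((d.factorial : ℝ) * ((a + 2 + d + a).factorial : ℝ)) ^ e * ((a : ℝ) + 2 + d + (a + 1)) ^ e := by
        rw [← mul_pow]
        congr 1
        ring
      rw [this]
      ring
    have h5 : bb n a * ((((d : ℝ) + 1) * (d.factorial : ℝ)) * ((a + 2 + d + a).factorial : ℝ)) ^ e =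
        (bb n a * ((d.factorial : ℝ) * ((a + 2 + d + a).factorial : ℝ)) ^ e) * ((d : ℝ) + 1) ^ e := by
      have : ((((d : ℝ) + 1) * (d.factorial : ℝ)) * ((a + 2 + d + a).factorial : ℝ)) ^ e =
          ((d.factorial : ℝ) * ((a + 2 + d + a).factorial : ℝ)) ^ e * ((d : ℝ) + 1) ^ e := by
        rw [← mul_pow]
        congr 1
        ring
      rw [this]
      ring
    rw [h4, h5]
    apply mul_le_mul_of_nonneg_left _ (mul_nonneg (bb_nonneg n a) hF)
    rw [div_le_iff₀ hn]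
    linarith

lemma key2 (n : ℕ) (b : ℝ) (hb : 0 ≤ b) (hbn : b ≤ n) :
    ((n : ℝ) - b) * (((2 * n : ℕ) : ℝ) + b) ^ 2 ≤ ((n : ℝ) + b) * (((2 * n : ℕ) : ℝ) - b) ^ 2 := by
  push_cast
  have h : 0 ≤ 2 * b ^ 3 := by positivity
  nlinarith

lemma key4 (n : ℕ) (b : ℝ) (hb : 0 ≤ b) (hbn : b ≤ n) :
    ((n : ℝ) - b) * (((4 * n : ℕ) : ℝ) + b) ^ 4 ≤ ((n : ℝ) + b) * (((4 * n : ℕ) : ℝ) - b) ^ 4 := by
  push_cast
  have h : 0 ≤ 160 * (n : ℝ) ^ 2 * b ^ 3 + 2 * b ^ 5 := by positivity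
  have h2 : ((n : ℝ) + b) * (4 * n - b) ^ 4 - (n - b) * (4 * n + b) ^ 4 =
      160 * (n : ℝ) ^ 2 * b ^ 3 + 2 * b ^ 5 := by ring
  linarith

lemma vd_sq_nonneg (S : Finset ℕ) : 0 ≤ vd 1 S ^ 2 := sq_nonneg _

lemma prod_dom (n L e : ℕ) (S : Finset ℕ) (hS : S ⊆ Finset.range n)
    (hdom : ∀ a < n, bb n a * (((L - 1 - a).factorial : ℝ) * ((L + a).factorial : ℝ)) ^ (2 * e) ≤
      bb n 0 * (((L - 1).factorial : ℝ) * (L.factorial : ℝ)) ^ (2 * e)) :
    ∏ a ∈ S, bb n a ≤ (bb n 0 * (((L - 1).factorial : ℝ) * (L.factorial : ℝ)) ^ (2 * e)) ^ S.card *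
      (∏ a ∈ S, ((2 * (a : ℝ) + 1) / (((L - 1 - a).factorial : ℝ) * ((L + a).factorial : ℝ)) ^ 2)) ^ e := by
  rw [← Finset.prod_pow, ← Finset.prod_const, ← Finset.prod_mul_distrib]
  apply Finset.prod_le_prod
  · intro a _
    exact bb_nonneg n a
  · intro a ha
    have h1 := hdom a (Finset.mem_range.1 (hS ha))
    have hF : (0 : ℝ) < (((L - 1 - a).factorial : ℝ) * ((L + a).factorial : ℝ)) ^ (2 * e) := by positivity
    rw [← le_div_iff₀ hF] at h1
    refine h1.trans ?_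
    rw [div_pow, ← pow_mul, div_eq_mul_inv]
    apply mul_le_mul_of_nonneg_left _ (mul_nonneg (bb_nonneg n 0) (by positivity))
    rw [inv_eq_one_div]
    apply div_le_div_of_nonneg_right _ hF.le
    apply one_le_pow₀
    have : (0 : ℝ) ≤ a := by positivity
    linarith

end DOM_

open DOM_ in
/-- **DOMX** -/
theorem DOMX_of (hCLI : S_CLI) : S_DOMX := by
  intro n N S hn hS hcard
  have hN : N ≤ n := by
    have := Finset.card_le_card hS
    rw [hcard, Finset.card_range] at this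
    exact this
  have h1 := prod_dom n (2 * n) 1 S hS (fun a ha => bb_dom n (2 * n) 2 (by omega) (key2 n) a ha)
  have h2 := hCLI (2 * n) N S (by omega) (hS.trans (Finset.range_mono (by omega))) hcard
  rw [pow_one, mul_one, hcard] at h1
  unfold DX
  have hA : (0 : ℝ) ≤ (bb n 0 * (((2 * n - 1).factorial : ℝ) * ((2 * n).factorial : ℝ)) ^ 2) ^ N :=
    pow_nonneg (mul_nonneg (bb_nonneg n 0) (by positivity)) _
  calc (∏ a ∈ S, bb n a) * vd 1 S ^ 2 ≤ _ := mul_le_mul_of_nonneg_right h1 (vd_sq_nonneg S)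
    _ = (bb n 0 * (((2 * n - 1).factorial : ℝ) * ((2 * n).factorial : ℝ)) ^ 2) ^ N *
        ((∏ a ∈ S, ((2 * (a : ℝ) + 1) / (((2 * n - 1 - a).factorial : ℝ) * ((2 * n + a).factorial : ℝ)) ^ 2)) *
          vd 1 S ^ 2) := by ring
    _ ≤ _ := mul_le_mul_of_nonneg_left h2 hA

open DOM_ in
/-- **DOMY** -/
theorem DOMY_of (hCLI : S_CLI) : S_DOMY := by
  intro n N S hn hS hcard
  have hN : N ≤ n := by
    have := Finset.card_le_card hS
    rw [hcard, Finset.card_range] at this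
    exact this
  have h1 := prod_dom n (4 * n) 2 S hS (fun a ha => bb_dom n (4 * n) 4 (by omega) (key4 n) a ha)
  have h2 := hCLI (4 * n) N S (by omega) (hS.trans (Finset.range_mono (by omega))) hcard
  rw [hcard] at h1
  unfold DY
  have hA : (0 : ℝ) ≤ (bb n 0 * (((4 * n - 1).factorial : ℝ) * ((4 * n).factorial : ℝ)) ^ 4) ^ N :=
    pow_nonneg (mul_nonneg (bb_nonneg n 0) (by positivity)) _
  have hP : (0 : ℝ) ≤ (∏ a ∈ S, ((2 * (a : ℝ) + 1) / (((4 * n - 1 - a).factorial : ℝ) *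
      ((4 * n + a).factorial : ℝ)) ^ 2)) * vd 1 S ^ 2 :=
    mul_nonneg (Finset.prod_nonneg fun a _ => by positivity) (vd_sq_nonneg S)
  calc (∏ a ∈ S, bb n a) * vd 1 S ^ 4 ≤ _ := mul_le_mul_of_nonneg_right h1 (by
        have : vd 1 S ^ 4 = (vd 1 S ^ 2) ^ 2 := by ring
        rw [this]
        exact sq_nonneg _)
    _ = (bb n 0 * (((4 * n - 1).factorial : ℝ) * ((4 * n).factorial : ℝ)) ^ 4) ^ N *
        ((∏ a ∈ S, ((2 * (a : ℝ) + 1) / (((4 * n - 1 - a).factorial : ℝ) * ((4 * n + a).factorial : ℝ)) ^ 2)) *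
          vd 1 S ^ 2) ^ 2 := by ring
    _ ≤ _ := mul_le_mul_of_nonneg_left (pow_le_pow_left₀ hP h2 2) hA

end

end Pool.Agent.L0h38.Q4
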