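import Pool.Agent.N334.W.Defs

/-!
# Four linearly independent numbers among `1, ζ(3), ζ(5), …, ζ(99)`: definitions

`R(t) = ((2n-1)!)^99 (2t+2n+1)^401 / ∏_{k=1}^{2n} (t+k)^99`, `x(t) = (t+n)(t+n+1)`, `n = 2ν`, and three-block
Hankel determinants of size `3m`, `m = 33(ν-1)`, of the functionals

* `A`: the linear form `Q ↦ ∑_{t ≥ 0} R(t) Q(x(t))` with `ζ(i)` replaced by rational numbers `α i`,
* `B`, `C`: its linear parts `∑ ρ_i β i`, `∑ ρ_i γ i`,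

if `ζ(i) = α i + θ β i + θ' γ i`.
-/

open Polynomial Pool.Agent.H337R2

namespace Pool.Agent.L0h38.Q4

noncomputable section

/-- `q` is a common denominator of the `u e` -/
abbrev UInt := Pool.Agent.N334.W.UInt

/-- the nodes `x = j (j + c)` -/
abbrev nx := Pool.Agent.N334.W.nx

/-- the Vandermonde product of the nodes `x_a`, `a ∈ A` -/
abbrev vd := Pool.Agent.N334.W.vd

/-- the poles are at `-k`, `1 ≤ k ≤ 2n` -/
abbrev sP (n : ℕ) : Finset ℕ := Finset.Icc 1 (2 * n)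

/-- all poles have order 99 -/
abbrev mP : ℕ → ℕ := fun _ => 99

/-- numerator `((2n-1)!)^99 (2t+2n+1)^401` -/
def PP (n : ℕ) : ℚ[X] := C (((2 * n - 1).factorial : ℚ) ^ 99) * (2 * X + C ((2 * n + 1 : ℕ) : ℚ)) ^ 401

/-- `x(t) = (t+n)(t+n+1)` -/
def xP (n : ℕ) : ℚ[X] := (X + C (n : ℚ)) * (X + C ((n + 1 : ℕ) : ℚ))

/-- coefficient of `ζ(i)` -/
def rho (n : ℕ) (P : ℚ[X]) (i : ℕ) : ℚ := ∑ k ∈ sP n, pa (sP n) mP P k i

/-- the linear form with `ζ(i)` replaced by `α i` -/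
def xa (n : ℕ) (α : ℕ → ℚ) (P : ℚ[X]) : ℚ :=
  ∑ i ∈ Finset.Icc 1 99, (rho n P i * α i - ∑ k ∈ sP n, pa (sP n) mP P k i * hs i (k - 1))

/-- the linear form in the coefficients -/
def xb (n : ℕ) (β : ℕ → ℚ) (P : ℚ[X]) : ℚ := ∑ i ∈ Finset.Icc 1 99, rho n P i * β i

lemma pa_add (s : Finset ℕ) (μ : ℕ → ℕ) (P Q : ℚ[X]) (k i : ℕ) :
    pa s μ (P + Q) k i = pa s μ P k i + pa s μ Q k i :=
  Pool.Agent.N334.W.pa_add s μ P Q k i

lemma pa_C_mul (s : Finset ℕ) (μ : ℕ → ℕ) (c : ℚ) (P : ℚ[X]) (k i : ℕ) :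
    pa s μ (C c * P) k i = c * pa s μ P k i :=
  Pool.Agent.N334.W.pa_C_mul s μ c P k i

lemma rho_add (n : ℕ) (P Q : ℚ[X]) (i : ℕ) : rho n (P + Q) i = rho n P i + rho n Q i := by
  unfold rho
  rw [← Finset.sum_add_distrib]
  exact Finset.sum_congr rfl fun k _ => pa_add _ _ _ _ _ _

lemma rho_C_mul (n : ℕ) (c : ℚ) (P : ℚ[X]) (i : ℕ) : rho n (C c * P) i = c * rho n P i := by
  unfold rho
  rw [Finset.mul_sum]
  exact Finset.sum_congr rfl fun k _ => pa_C_mul _ _ _ _ _ _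

lemma xa_add (n : ℕ) (α : ℕ → ℚ) (P Q : ℚ[X]) : xa n α (P + Q) = xa n α P + xa n α Q := by
  unfold xa
  rw [← Finset.sum_add_distrib]
  apply Finset.sum_congr rfl
  intro i _
  simp only [rho_add, pa_add, add_mul, Finset.sum_add_distrib]
  ring

lemma xa_C_mul (n : ℕ) (α : ℕ → ℚ) (c : ℚ) (P : ℚ[X]) : xa n α (C c * P) = c * xa n α P := by
  unfold xa
  rw [Finset.mul_sum]
  apply Finset.sum_congr rfl
  intro i _
  simp only [rho_C_mul, pa_C_mul, mul_sub, Finset.mul_sum]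
  congr 1
  · ring
  · exact Finset.sum_congr rfl fun k _ => by ring

lemma xb_add (n : ℕ) (β : ℕ → ℚ) (P Q : ℚ[X]) : xb n β (P + Q) = xb n β P + xb n β Q := by
  unfold xb
  rw [← Finset.sum_add_distrib]
  exact Finset.sum_congr rfl fun i _ => by rw [rho_add, add_mul]

lemma xb_C_mul (n : ℕ) (β : ℕ → ℚ) (c : ℚ) (P : ℚ[X]) : xb n β (C c * P) = c * xb n β P := by
  unfold xb
  rw [Finset.mul_sum]
  exact Finset.sum_congr rfl fun i _ => by rw [rho_C_mul, mul_assoc]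

/-- the functional `A` -/
def AL (n : ℕ) (α : ℕ → ℚ) : ℚ[X] →ₗ[ℚ] ℚ where
  toFun Q := xa n α (PP n * Q.comp (xP n))
  map_add' P Q := by rw [Polynomial.add_comp, mul_add, xa_add]
  map_smul' c P := by
    rw [RingHom.id_apply, Polynomial.smul_eq_C_mul, Polynomial.mul_comp, Polynomial.C_comp, mul_left_comm,
      xa_C_mul, smul_eq_mul]

/-- the functionals `B` and `C` -/
def BL (n : ℕ) (β : ℕ → ℚ) : ℚ[X] →ₗ[ℚ] ℚ where
  toFun Q := xb n β (PP n * Q.comp (xP n))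
  map_add' P Q := by rw [Polynomial.add_comp, mul_add, xb_add]
  map_smul' c P := by
    rw [RingHom.id_apply, Polynomial.smul_eq_C_mul, Polynomial.mul_comp, Polynomial.C_comp, mul_left_comm,
      xb_C_mul, smul_eq_mul]

lemma AL_apply (n : ℕ) (α : ℕ → ℚ) (Q : ℚ[X]) : AL n α Q = xa n α (PP n * Q.comp (xP n)) := rfl

lemma BL_apply (n : ℕ) (β : ℕ → ℚ) (Q : ℚ[X]) : BL n β Q = xb n β (PP n * Q.comp (xP n)) := rfl

/-- three-block Hankel matrix: rows `X^i`, `i < 3m`; columns `(b, j)`: the functional `L b` and `X^j`, `j < m` -/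
def M3 (L : Fin 3 → ℚ[X] →ₗ[ℚ] ℚ) (m : ℕ) : Matrix (Fin 3 × Fin m) (Fin 3 × Fin m) ℚ :=
  Matrix.of fun r c => L c.1 (X ^ (r.1.1 * m + r.2.1 + c.2.1))

/-- the three functionals -/
def LL (n : ℕ) (α β γ : ℕ → ℚ) : Fin 3 → ℚ[X] →ₗ[ℚ] ℚ := ![AL n α, BL n β, BL n γ]

/-- the determinants, `n = 2ν`, `m = 33(ν-1)` -/
def DD (ν : ℕ) (α β γ : ℕ → ℚ) : ℚ := (M3 (LL (2 * ν) α β γ) (33 * (ν - 1))).det

/-! ### archimedean part -/

/-- `R(t)`, `t ≥ 0` -/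
def wt (n t : ℕ) : ℝ :=
  (((2 * n - 1).factorial : ℝ) * (t.factorial : ℝ) / ((t + 2 * n).factorial : ℝ)) ^ 99 *
    (2 * (t : ℝ) + 2 * n + 1) ^ 401

/-- `x(-k + s) = x(-k) + s (s + 2n+1-2k)`; coefficient of the `l`-th (Hasse) derivative at the pole `-k` -/
def om (n : ℕ) (β : ℕ → ℚ) (k l : ℕ) : ℚ :=
  ∑ i ∈ Finset.Icc 1 99, β i * PowerSeries.coeff (99 - i)
    (TS (-(k : ℚ)) (PP n) * VV ((sP n).erase k) mP (-(k : ℚ)) *
      (PowerSeries.X * (PowerSeries.X + PowerSeries.C ((2 * (n : ℚ) + 1 - 2 * k)))) ^ l)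

/-- `C(2n-1, n-1-j)`: the size of `R` at the poles of node `j < n` -/
def bb (n j : ℕ) : ℝ := (((2 * n - 1).choose (n - 1 - j) : ℕ) : ℝ)

/-- `l`-th Hasse derivative of `x^N` at the node `j` -/
def hd (N j l : ℕ) : ℝ := (N.choose l : ℝ) * nx 1 j ^ (N - l)

/-- the truncated matrix: the nodes are `j(j+1)`; `j = n + t` for the summation points, `j < n` for the poles -/
def MT3 (n m T : ℕ) (W : ℕ → ℝ) (ω : Fin 2 → ℕ → ℕ → ℝ) : Matrix (Fin 3 × Fin m) (Fin 3 × Fin m) ℝ :=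
  Matrix.of fun r c =>
    if c.1 = 0 then ∑ t ∈ Finset.range T, W t * nx 1 (n + t) ^ (r.1.1 * m + r.2.1 + c.2.1)
    else ∑ j ∈ Finset.range n, ∑ l ∈ Finset.range 99,
      ω (if c.1 = 1 then 0 else 1) j l * hd (r.1.1 * m + r.2.1 + c.2.1) j l

/-- the Hankel determinant of size `N` of the weight `(2a+1) / ((L-1-a)! (L+a)!)^2` on the nodes `a(a+1)`, `a < L` -/
def DcI (L N : ℕ) : ℝ :=
  ∏ i ∈ Finset.range N, ((1 / ((L - i - 1).factorial : ℝ) ^ 4) *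
    ((i.factorial : ℝ) ^ 2 / ∏ j ∈ Finset.range N, (2 * (L : ℝ) - 1 - i - j)))

/-- bound for the sets of nodes of all the `2m` pole points -/
def DX (n N : ℕ) : ℝ :=
  (bb n 0 * (((2 * n - 1).factorial : ℝ) * ((2 * n).factorial : ℝ)) ^ 2) ^ N * DcI (2 * n) N

/-- bound for the sets of nodes of the `m` pole points of one block -/
def DY (n N : ℕ) : ℝ :=
  (bb n 0 * (((4 * n - 1).factorial : ℝ) * ((4 * n).factorial : ℝ)) ^ 4) ^ N * DcI (4 * n) N ^ 2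

/-- bound for the summation points -/
def BA (E n m i : ℕ) : ℝ := wt n i * ((n : ℝ) + i + 1) ^ (4 * m + 4 * i + E)

/-- `x^2/2 log x - 3x^2/4` -/
abbrev G2 := Pool.Agent.N334.W.G2

/-- the constant of the summation points -/
def cA1 : ℝ := 99 * (33 * (4 * Real.log 4 - 4) + G2 33 - (G2 37 - G2 4)) +
  4 * (31 * ((35 * Real.log 35 - 35) - (2 * Real.log 2 - 2)) +
    (35 ^ 2 / 2 * Real.log 35 - 35 ^ 2 / 4) - (2 * Real.log 2 - 1))

/-- the constant of `DX` -/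
def cDX : ℝ := 2 * Real.log 2 + 8 * Real.log 4 - 8 - 4 * (G2 4 - G2 (7 / 2)) + 2 * G2 (1 / 2) -
  (G2 8 - 2 * G2 (15 / 2) + G2 7)

/-- the constant of `DY` -/
def cDY : ℝ := Real.log 2 + 16 * Real.log 8 - 16 + 2 * (-4 * (G2 8 - G2 (31 / 4)) + 2 * G2 (1 / 4) -
  (G2 16 - 2 * G2 (63 / 4) + G2 (31 / 2)))

/-- the constant of the poles -/
def cX1 : ℝ := 8712 * (cDX + cDY)

/-- harmonic numbers -/
abbrev Hn := Pool.Agent.N334.W.Hn

/-- the limit of the sum of the exponents over `2n/J < p ≤ n`, per `ν^2` -/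
def e2 (J : ℕ) : ℝ :=
  -13068 * (Real.log J - Real.log 2) + 39204 * (Real.log J - Real.log 2 - Hn J + 3 / 2) - 165 * (2 - 4 / J) +
    29403 * (-Real.log J + Real.log 2 + (Hn (J - 1) + Hn J - 5 / 2) / 2) + 5 * (4 - 16 / (J : ℝ) ^ 2)

/-! ### `p`-adic part -/

/-- number of poles in the residue class of `k` modulo `p` -/
def Np (n p k : ℕ) : ℕ := ((sP n).filter fun k' => k' % p = k % p).card

/-- the exponent `e_p(k)` -/
def eP (n p k : ℕ) : ℤ := 99 * ((Np n p k : ℤ) - (((2 * n - 1) / p : ℕ) : ℤ))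

/-- representative of the class pair of `k` (for `k ≤ 2n+1`) -/
def kap (n p k : ℕ) : ℕ := min (k % p) ((2 * n + 1 - k) % p)

/-- the set of class pairs -/
def Kset (n p : ℕ) : Finset ℕ := (Finset.range p).filter fun r => r ≤ (2 * n + 1 - r) % p

/-- `ν(ν+1)/2` -/
def T1 (x : ℕ) : ℕ := x * (x + 1) / 2

/-- the proportion of the classes with an extra pole -/
def ph (n p : ℕ) : ℝ := (((2 * n - 1) % p + 1 : ℕ) : ℝ) / p

/-- exponent of `p` in the bound for the determinant, `√(2n) < p ≤ n` -/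
def EP (K : ℝ) (n m p : ℕ) : ℝ :=
  -12 * (m : ℝ) ^ 2 / p + (297 * ph n p - 5) * m + 29403 / 16 * ph n p * (1 - ph n p) * p + 10 * p +
    K * (8 * (m : ℝ) / p + 99) ^ 2

/-! ### non-vanishing at `n = 2p` -/

/-- node polynomial `x - x(-r)` -/
def XN (n r : ℕ) : ℚ[X] := X - C (((n : ℚ) - r) * ((n : ℚ) + 1 - r))

/-- local power series at the pole `j` (non-vanishing, `n = 2p`) -/
def ser (j e : ℕ) : PowerSeries ℚ :=
  (∏ b ∈ (Finset.range 4).erase j, iv ((b : ℚ) - j) ^ 99) * (PowerSeries.X + PowerSeries.C (-(j : ℚ))) ^ e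

/-- local functional `A` on monomials -/
def Fm (e : ℕ) : ℚ :=
  - ∑ j ∈ Finset.range 4, ∑ i ∈ Finset.Icc 1 99,
    PowerSeries.coeff (99 - i) (ser j e) * (hs i j + (-1) ^ (i + 1) * hs i (3 - j))

/-- local functional `B` on monomials -/
def Bm (i0 e : ℕ) : ℚ := 2 * ∑ j ∈ Finset.range 4, PowerSeries.coeff (99 - i0) (ser j e)

/-- the local matrix: rows `u^i`, `i < 198`; columns `(b, j)`, `j < 66` -/
def Mloc (i1 : ℕ) : Matrix (Fin 3 × Fin 66) (Fin 3 × Fin 66) ℚ :=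
  Matrix.of fun r c =>
    if c.1 = 0 then Fm (r.1.1 * 66 + r.2.1 + c.2.1)
    else if c.1 = 1 then Bm 3 (r.1.1 * 66 + r.2.1 + c.2.1)
    else Bm i1 (r.1.1 * 66 + r.2.1 + c.2.1)

end

end Pool.Agent.L0h38.Q4
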