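import Pool.Agent.L0h38.Q4.Stm

/-!
# E2: the choice of the levels

`E2 : S_E2`.
-/

open Polynomial Pool.Agent.H337R2

namespace Pool.Agent.L0h38.Q4

noncomputable section

namespace E2_

lemma Np_congr {n p k k' : ℕ} (h : k % p = k' % p) : Np n p k = Np n p k' := by
  unfold Np
  rw [h]

lemma eP_congr {n p k k' : ℕ} (h : k % p = k' % p) : eP n p k = eP n p k' := by
  unfold eP
  rw [Np_congr h]

/-- the reflection `k ↦ 2n+1-k` -/
lemma Np_refl {n p k : ℕ} (hk : k ≤ 2 * n + 1) : Np n p (2 * n + 1 - k) = Np n p k := by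
  unfold Np
  apply Finset.card_bij' (fun a _ => 2 * n + 1 - a) (fun a _ => 2 * n + 1 - a)
  · intro a ha
    simp only [Finset.mem_filter, Finset.mem_Icc] at ha ⊢
    obtain ⟨⟨h1, h2⟩, h3⟩ := ha
    refine ⟨⟨by omega, by omega⟩, ?_⟩
    have h4 : (2 * n + 1 - a) + a ≡ k + (2 * n + 1 - k) [MOD p] := by
      have : (2 * n + 1 - a) + a = k + (2 * n + 1 - k) := by omega
      rw [this]
    have h5 : (2 * n + 1 - a) + a ≡ k + a [MOD p] := by
      refine h4.trans ?_
      exact Nat.ModEq.add_left k (Nat.ModEq.symm h3)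
    exact Nat.ModEq.add_right_cancel' a h5
  · intro a ha
    simp only [Finset.mem_filter, Finset.mem_Icc] at ha ⊢
    obtain ⟨⟨h1, h2⟩, h3⟩ := ha
    refine ⟨⟨by omega, by omega⟩, ?_⟩
    have h4 : (2 * n + 1 - a) + a ≡ (2 * n + 1 - k) + k [MOD p] := by
      have : (2 * n + 1 - a) + a = (2 * n + 1 - k) + k := by omega
      rw [this]
    have h5 : (2 * n + 1 - a) + a ≡ (2 * n + 1 - k) + a [MOD p] := by
      refine h4.trans ?_
      exact Nat.ModEq.add_left _ (Nat.ModEq.symm h3)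
    exact Nat.ModEq.add_right_cancel' a h5
  · intro a ha
    simp only [Finset.mem_filter, Finset.mem_Icc] at ha
    omega
  · intro a ha
    simp only [Finset.mem_filter, Finset.mem_Icc] at ha
    omega

lemma eP_refl {n p k : ℕ} (hk : k ≤ 2 * n + 1) : eP n p (2 * n + 1 - k) = eP n p k := by
  unfold eP
  rw [Np_refl hk]

lemma eP_kap {n p k : ℕ} (hk : k ≤ 2 * n + 1) : eP n p (kap n p k) = eP n p k := by
  unfold kap
  rcases min_choice (k % p) ((2 * n + 1 - k) % p) with h | h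
  · rw [h]
    exact eP_congr (Nat.mod_mod _ _)
  · rw [h, eP_congr (Nat.mod_mod _ _)]
    exact eP_refl hk

lemma Np_count (n p k : ℕ) (hp : 0 < p) :
    Np n p k = (2 * n).count (fun j => j ≡ k + (p - 1) [MOD p]) := by
  unfold Np
  rw [Nat.count_eq_card_filter_range]
  refine Finset.card_bij' (fun a _ => a - 1) (fun a _ => a + 1) ?_ ?_ ?_ ?_
  · intro a ha
    simp only [Finset.mem_filter, Finset.mem_Icc, Finset.mem_range] at ha ⊢
    obtain ⟨⟨h1, h2⟩, h3⟩ := ha
    refine ⟨by omega, ?_⟩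
    have h4 : (a - 1) + 1 ≡ k + (p - 1) + 1 [MOD p] := by
      have e1 : (a - 1) + 1 = a := by omega
      have e2 : k + (p - 1) + 1 = k + p := by omega
      rw [e1, e2]
      unfold Nat.ModEq
      rw [Nat.add_mod_right]
      exact h3
    exact Nat.ModEq.add_right_cancel' 1 h4
  · intro a ha
    simp only [Finset.mem_filter, Finset.mem_Icc, Finset.mem_range] at ha ⊢
    obtain ⟨h1, h3⟩ := ha
    refine ⟨⟨by omega, by omega⟩, ?_⟩
    have h4 := Nat.ModEq.add_right 1 h3
    have e2 : k + (p - 1) + 1 = k + p := by omega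
    rw [e2] at h4
    unfold Nat.ModEq at h4
    rw [Nat.add_mod_right] at h4
    exact h4
  · intro a ha
    simp only [Finset.mem_filter, Finset.mem_Icc] at ha
    omega
  · intro a ha
    omega

lemma Np_or {n p k : ℕ} (hn : 1 ≤ n) (hp : 0 < p) :
    Np n p k = (2 * n - 1) / p ∨ Np n p k = (2 * n - 1) / p + 1 := by
  rw [Np_count n p k hp, Nat.count_modEq_card _ hp]
  have h1 : (2 * n - 1) % p < p := Nat.mod_lt _ hp
  have h2 : p * ((2 * n - 1) / p) + (2 * n - 1) % p = 2 * n - 1 := Nat.div_add_mod _ _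
  have h3 : (2 * n) % p < p := Nat.mod_lt _ hp
  have h4 : p * ((2 * n) / p) + (2 * n) % p = 2 * n := Nat.div_add_mod _ _
  rcases Nat.lt_or_ge ((2 * n - 1) % p + 1) p with h | h
  · have h5 : (2 * n) / p = (2 * n - 1) / p := by
      have : 2 * n = ((2 * n - 1) % p + 1) + p * ((2 * n - 1) / p) := by omega
      rw [this, Nat.add_mul_div_left _ _ hp, Nat.div_eq_of_lt h]
      have e : ((2 * n - 1) % p + 1 + p * ((2 * n - 1) / p) - 1) = 2 * n - 1 := by omega
      rw [e]
      omega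
    rw [h5]
    split_ifs <;> omega
  · have h6 : 2 * n = p * ((2 * n - 1) / p + 1) := by
      have : p * ((2 * n - 1) / p + 1) = p * ((2 * n - 1) / p) + p := by ring
      omega
    have h7 : (2 * n) / p = (2 * n - 1) / p + 1 := by
      conv_lhs => rw [h6]
      exact Nat.mul_div_cancel_left _ hp
    have h8 : (2 * n) % p = 0 := by
      rw [h6]
      exact Nat.mul_mod_right _ _
    rw [h7, h8]
    right
    simp

lemma eP_or {n p k : ℕ} (hn : 1 ≤ n) (hp : 0 < p) : eP n p k = 0 ∨ eP n p k = 99 := by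
  unfold eP
  rcases Np_or (k := k) hn hp with h | h
  · left
    rw [h]
    ring
  · right
    rw [h]
    push_cast
    ring

lemma sum_Np (n p : ℕ) (hp : 0 < p) : ∑ r ∈ Finset.range p, Np n p r = 2 * n := by
  have h1 : (sP n).card = ∑ r ∈ Finset.range p, ((sP n).filter fun k' => k' % p = r).card :=
    Finset.card_eq_sum_card_fiberwise (f := fun k' => k' % p) (fun k _ => by
      simp only [Finset.coe_range, Set.mem_Iio]
      exact Nat.mod_lt _ hp)
  have h2 : (sP n).card = 2 * n := by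
    unfold sP
    rw [Nat.card_Icc]
    omega
  rw [h2] at h1
  rw [h1]
  apply Finset.sum_congr rfl
  intro r hr
  unfold Np
  rw [Nat.mod_eq_of_lt (Finset.mem_range.1 hr)]

lemma sum_eP {n p : ℕ} (hn : 1 ≤ n) (hp : 0 < p) :
    ∑ r ∈ Finset.range p, ((eP n p r : ℤ) : ℝ) = 99 * ((2 * n - 1) % p + 1 : ℕ) := by
  have h1 := sum_Np n p hp
  have h2 : p * ((2 * n - 1) / p) + (2 * n - 1) % p = 2 * n - 1 := Nat.div_add_mod _ _
  unfold eP
  generalize (2 * n - 1) / p = Q at h2 ⊢
  generalize (2 * n - 1) % p = R at h2 ⊢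
  have h3 : ((∑ r ∈ Finset.range p, Np n p r : ℕ) : ℝ) = ((p * Q + R + 1 : ℕ) : ℝ) := by
    rw [h1, h2]
    congr 1
    omega
  push_cast at h3
  push_cast
  rw [← Finset.mul_sum, Finset.sum_sub_distrib, Finset.sum_const, Finset.card_range, nsmul_eq_mul, h3]
  ring

/-- sums of functions of `eP` over all classes -/
lemma sum_F {n p : ℕ} (hn : 1 ≤ n) (hp : 0 < p) (F : ℝ → ℝ) :
    ∑ r ∈ Finset.range p, F ((eP n p r : ℤ) : ℝ) =
      (p : ℝ) * F 0 + ((2 * n - 1) % p + 1 : ℕ) * (F 99 - F 0) := by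
  have h1 : ∀ r ∈ Finset.range p, F ((eP n p r : ℤ) : ℝ) =
      F 0 + ((eP n p r : ℤ) : ℝ) * ((F 99 - F 0) / 99) := by
    intro r _
    rcases eP_or (k := r) hn hp with h | h
    · rw [h]
      simp
    · rw [h]
      push_cast
      ring
  rw [Finset.sum_congr rfl h1, Finset.sum_add_distrib, ← Finset.sum_mul, sum_eP hn hp, Finset.sum_const,
    Finset.card_range, nsmul_eq_mul]
  ring

/-- the sum over the class pairs -/
theorem Kset_sum {n p : ℕ} (hp : p.Prime) (hp2 : p ≠ 2) (hpn : p < 2 * n + 1) (f : ℕ → ℝ) (M : ℝ)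
    (hM : 0 ≤ M) (hf : ∀ r < p, f r = f ((2 * n + 1 - r) % p)) (hfM : ∀ r < p, f r ≤ M) :
    2 * ∑ r ∈ Kset n p, f r ≤ ∑ r ∈ Finset.range p, f r + M := by
  classical
  set g : ℕ → ℕ := fun r => (2 * n + 1 - r) % p with hg
  have hadd : ∀ r < p, (r + g r) % p = (2 * n + 1) % p := by
    intro r hr
    simp only [hg]
    rw [Nat.add_mod_mod]
    congr 1
    omega
  have hglt : ∀ r, g r < p := fun r => Nat.mod_lt _ hp.pos
  have hgg : ∀ r < p, g (g r) = r := by
    intro r hr
    have h1 := hadd r hr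
    have h2 := hadd (g r) (hglt r)
    have h3 : (g r + g (g r)) ≡ (g r + r) [MOD p] := by
      unfold Nat.ModEq
      rw [h2, ← h1, add_comm]
    have h4 := Nat.ModEq.add_left_cancel' (g r) h3
    exact h4.eq_of_lt_of_lt (hglt _) hr
  have h1 : ∑ r ∈ Finset.range p, f r = ∑ r ∈ (Finset.range p).filter (fun r => r ≤ g r), f r +
      ∑ r ∈ (Finset.range p).filter (fun r => ¬ r ≤ g r), f r :=
    (Finset.sum_filter_add_sum_filter_not _ _ _).symm
  have h2 : ∑ r ∈ (Finset.range p).filter (fun r => ¬ r ≤ g r), f r =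
      ∑ r ∈ (Finset.range p).filter (fun r => r < g r), f r := by
    apply Finset.sum_bij' (fun r _ => g r) (fun r _ => g r)
    · intro r hr
      rw [Finset.mem_filter, Finset.mem_range] at hr ⊢
      refine ⟨hglt r, ?_⟩
      rw [hgg r hr.1]
      omega
    · intro r hr
      rw [Finset.mem_filter, Finset.mem_range] at hr ⊢
      refine ⟨hglt r, ?_⟩
      rw [hgg r hr.1]
      omega
    · intro r hr
      rw [Finset.mem_filter, Finset.mem_range] at hr
      exact hgg r hr.1
    · intro r hr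
      rw [Finset.mem_filter, Finset.mem_range] at hr
      exact hgg r hr.1
    · intro r hr
      rw [Finset.mem_filter, Finset.mem_range] at hr
      exact hf r hr.1
  have h3 : ∑ r ∈ (Finset.range p).filter (fun r => r ≤ g r), f r =
      ∑ r ∈ (Finset.range p).filter (fun r => r < g r), f r +
      ∑ r ∈ (Finset.range p).filter (fun r => r = g r), f r := by
    rw [← Finset.sum_union]
    · apply Finset.sum_congr _ (fun _ _ => rfl)
      ext r
      simp only [Finset.mem_filter, Finset.mem_union, Finset.mem_range]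
      omega
    · rw [Finset.disjoint_left]
      intro r hr hr'
      rw [Finset.mem_filter] at hr hr'
      omega
  have h4 : ((Finset.range p).filter (fun r => r = g r)).card ≤ 1 := by
    rw [Finset.card_le_one]
    intro a ha b hb
    rw [Finset.mem_filter, Finset.mem_range] at ha hb
    have ha2 := hadd a ha.1
    rw [← ha.2] at ha2
    have hb2 := hadd b hb.1
    rw [← hb.2] at hb2
    have h5 : (2 * a) ≡ (2 * b) [MOD p] := by
      unfold Nat.ModEq
      rw [two_mul, two_mul, ha2, hb2]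
    have hcop : Nat.gcd p 2 = 1 := (Nat.coprime_primes hp Nat.prime_two).2 hp2
    have h6 : a ≡ b [MOD p] := Nat.ModEq.cancel_left_of_coprime hcop h5
    exact h6.eq_of_lt_of_lt ha.1 hb.1
  have h5 : ∑ r ∈ (Finset.range p).filter (fun r => r = g r), f r ≤ M := by
    calc ∑ r ∈ (Finset.range p).filter (fun r => r = g r), f r
        ≤ ∑ _r ∈ (Finset.range p).filter (fun r => r = g r), M := by
          apply Finset.sum_le_sum
          intro r hr
          rw [Finset.mem_filter, Finset.mem_range] at hr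
          exact hfM r hr.1
      _ = (((Finset.range p).filter (fun r => r = g r)).card : ℝ) * M := by
          rw [Finset.sum_const, nsmul_eq_mul]
      _ ≤ 1 * M := mul_le_mul_of_nonneg_right (by exact_mod_cast h4) hM
      _ = M := one_mul M
  have hK : Kset n p = (Finset.range p).filter (fun r => r ≤ g r) := rfl
  rw [hK, h1, h2, h3]
  linarith

lemma two_T1 (x : ℕ) : 2 * ((T1 x : ℕ) : ℝ) = (x : ℝ) * ((x : ℝ) + 1) := by
  have h : 2 * T1 x = x * (x + 1) := by
    unfold T1
    exact Nat.mul_div_cancel' (Nat.even_mul_succ_self x).two_dvd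
  have := congrArg (fun z : ℕ => (z : ℝ)) h
  push_cast at this
  exact this

/-- the value for one class pair -/
def G (y : ℝ) : ℝ := 3 / 8 * y ^ 2 + 3 / 4 * y + 3 / 8

lemma G_bound (Y : ℕ) : ((T1 (Y - Y / 4) : ℕ) : ℝ) + 3 * ((T1 (Y / 4) : ℕ) : ℝ) ≤ G (Y : ℝ) := by
  have h1 := two_T1 (Y - Y / 4)
  have h2 := two_T1 (Y / 4)
  have h3 : ∃ c r : ℕ, Y = 4 * c + r ∧ r ≤ 3 ∧ Y / 4 = c ∧ Y - Y / 4 = 3 * c + r :=
    ⟨Y / 4, Y % 4, by omega, by omega, rfl, by omega⟩
  obtain ⟨c, r, hY, hr, hc, hm⟩ := h3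
  rw [hm] at h1 ⊢
  rw [hc] at h2 ⊢
  have hYr : (Y : ℝ) = 4 * (c : ℝ) + (r : ℝ) := by exact_mod_cast hY
  push_cast at h1
  unfold G
  rw [hYr]
  have hr' : (r : ℝ) ^ 2 - 2 * r ≤ 3 := by
    interval_cases r <;> norm_num
  nlinarith

end E2_

open E2_ in
/-- E2: the choice of the levels -/
theorem E2 : S_E2 := by
  refine ⟨1, ?_⟩
  intro n m p hp hn hpp hp3 hpn hpm
  have hp0 : 0 < p := hp.pos
  have hpR : (3 : ℝ) ≤ (p : ℝ) := by exact_mod_cast hp3
  have hpRpos : (0 : ℝ) < (p : ℝ) := by linarith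
  set h : ℝ := ph n p with hh
  set x : ℝ := 8 * (m : ℝ) / p with hx
  set a : ℤ := ⌊99 * h - x⌋ with ha
  have hR : (((2 * n - 1) % p + 1 : ℕ) : ℝ) = (p : ℝ) * h := by
    rw [hh]
    unfold ph
    field_simp
  have hh1 : h ≤ 1 := by
    rw [hh]
    unfold ph
    rw [div_le_one hpRpos]
    exact_mod_cast Nat.mod_lt _ hp0
  have hh0 : 0 ≤ h := by
    rw [hh]
    unfold ph
    positivity
  have hx99 : 99 ≤ x := by
    rw [hx, le_div_iff₀ hpRpos]
    exact_mod_cast hpm
  have ha1 : (a : ℝ) ≤ 99 * h - x := Int.floor_le _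
  have ha2 : 99 * h - x < (a : ℝ) + 1 := Int.lt_floor_add_one _
  have ha0 : a ≤ 0 := by
    have : (a : ℝ) ≤ 0 := by linarith
    exact_mod_cast this
  have hmx : (m : ℝ) = x * p / 8 := by
    rw [hx]
    field_simp
  -- the levels
  refine ⟨a, fun κ => (eP n p κ - a).toNat - (eP n p κ - a).toNat / 4, fun κ => (eP n p κ - a).toNat / 4, ?_, ?_⟩
  · intro k hk
    have hk' : k ≤ 2 * n + 1 := by
      have := (Finset.mem_Icc.1 hk).2
      omega
    show eP n p k - a ≤ (((eP n p (kap n p k) - a).toNat - (eP n p (kap n p k) - a).toNat / 4 : ℕ) : ℤ) +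
      (((eP n p (kap n p k) - a).toNat / 4 : ℕ) : ℤ)
    rw [eP_kap hk']
    have h1 : eP n p k - a ≤ ((eP n p k - a).toNat : ℤ) := Int.self_le_toNat _
    omega
  · have hY : ∀ r, (((eP n p r - a).toNat : ℕ) : ℝ) = ((eP n p r : ℤ) : ℝ) - (a : ℝ) := by
      intro r
      have h1 : 0 ≤ eP n p r - a := by
        rcases eP_or (k := r) hn hp0 with h | h <;> rw [h] <;> omega
      have h2 : (((eP n p r - a).toNat : ℕ) : ℤ) = eP n p r - a := Int.toNat_of_nonneg h1
      have h3 := congrArg (fun z : ℤ => (z : ℝ)) h2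
      push_cast at h3
      exact h3
    have haR : (a : ℝ) ≤ 0 := by exact_mod_cast ha0
    set M : ℝ := G (99 - (a : ℝ)) with hM
    set f : ℕ → ℝ := fun κ => ((T1 ((eP n p κ - a).toNat - (eP n p κ - a).toNat / 4) : ℕ) : ℝ) +
      3 * ((T1 ((eP n p κ - a).toNat / 4) : ℕ) : ℝ) with hf
    have hfG : ∀ r, f r ≤ G (((eP n p r : ℤ) : ℝ) - (a : ℝ)) := by
      intro r
      have h1 := G_bound ((eP n p r - a).toNat)
      rw [hY r] at h1
      exact h1
    have hGM : ∀ r, G (((eP n p r : ℤ) : ℝ) - (a : ℝ)) ≤ M := by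
      intro r
      rcases eP_or (k := r) hn hp0 with h | h
      · rw [h, hM]
        unfold G
        push_cast
        nlinarith
      · rw [h, hM]
        push_cast
        exact le_refl _
    have hM0 : 0 ≤ M := by
      rw [hM]
      unfold G
      nlinarith
    have hsum : 2 * ∑ r ∈ Kset n p, f r ≤ ∑ r ∈ Finset.range p, f r + M := by
      apply Kset_sum hp (by omega) (by omega) f M hM0
      · intro r hr
        have h1 : eP n p r = eP n p ((2 * n + 1 - r) % p) := by
          rw [eP_congr (Nat.mod_mod _ _), eP_refl (by omega)]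
        simp only [hf]
        rw [← h1]
      · intro r _
        exact (hfG r).trans (hGM r)
    have hall : ∑ r ∈ Finset.range p, f r ≤ (p : ℝ) * G (0 - (a : ℝ)) +
        ((p : ℝ) * h) * (G (99 - (a : ℝ)) - G (0 - (a : ℝ))) := by
      have h1 := sum_F hn hp0 (fun z => G (z - (a : ℝ)))
      rw [hR] at h1
      rw [← h1]
      exact Finset.sum_le_sum fun r _ => hfG r
    have hcast : ((3 * m * a - 8 * m + ∑ κ ∈ Kset n p,
        ((T1 ((eP n p κ - a).toNat - (eP n p κ - a).toNat / 4) : ℤ) +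
          3 * T1 ((eP n p κ - a).toNat / 4)) : ℤ) : ℝ) =
        3 * m * a - 8 * m + ∑ κ ∈ Kset n p, f κ := by
      push_cast
      rfl
    rw [hcast]
    unfold EP
    rw [← hh, ← hx]
    have hsum2 : ∑ κ ∈ Kset n p, f κ ≤ ((p : ℝ) * G (0 - (a : ℝ)) +
        ((p : ℝ) * h) * (G (99 - (a : ℝ)) - G (0 - (a : ℝ))) + M) / 2 := by linarith
    refine (add_le_add_right hsum2 _).trans ?_
    rw [hM]
    unfold G
    obtain ⟨δ, hδ⟩ : ∃ δ : ℝ, δ = 99 * h - x - a := ⟨_, rfl⟩
    have haδ : (a : ℝ) = 99 * h - x - δ := by linarith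
    have hδ0 : 0 ≤ δ := by linarith
    have hδ1 : δ ≤ 1 := by linarith
    have hmm : -12 * (m : ℝ) ^ 2 / p = -12 / 64 * x ^ 2 * p := by
      rw [hmx]
      field_simp
      ring
    rw [hmm, hmx, haδ]
    have e1 : 0 ≤ (x + 99) ^ 2 - 1 / 2 * (3 / 8 * (99 - (99 * h - x - δ)) ^ 2 + 3 / 4 * (99 - (99 * h - x - δ)) + 3 / 8) := by
      have hz : 99 - (99 * h - x - δ) ≤ x + 100 := by linarith
      have hz0 : 0 ≤ 99 - (99 * h - x - δ) := by linarith
      nlinarith
    have e2 : 0 ≤ 10 * (p : ℝ) - p * (3 / 16 * δ ^ 2 + 3 / 8 * δ + 3 / 16) := by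
      have : 3 / 16 * δ ^ 2 + 3 / 8 * δ + 3 / 16 ≤ 10 := by nlinarith
      nlinarith
    linarith [e1, e2]

end

end Pool.Agent.L0h38.Q4
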