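import Pool.Agent.L0h38.Q4.Stm

/-! The index lemma. -/

open Polynomial Pool.Agent.H337R2 Filter Topology

namespace Pool.Agent.L0h38.Q4

variable {ι : Type} [Fintype ι] [DecidableEq ι]

theorem ix_basis {G : Type} [AddCommGroup G] [Finite G] (p : ℕ) [hp : Fact p.Prime]
    (f : (ι → ℤ) →+ G) (a : ℕ) (hG : Nat.card G = p ^ a) :
    ∃ (U : Matrix ι ι ℤ) (a' : ℕ), a' ≤ a ∧ (∀ i, f (U i) = 0) ∧ U.det.natAbs = p ^ a' := by
  have hidx : f.ker.index ∣ p ^ a := by
    rw [AddSubgroup.index_ker, ← hG]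
    exact AddSubgroup.card_addSubgroup_dvd_card f.range
  obtain ⟨a', ha', hidx'⟩ := (Nat.dvd_prime_pow hp.out).1 hidx
  have hfin : Finite ((ι → ℤ) ⧸ f.ker.toIntSubmodule) := by
    apply Nat.finite_of_card_ne_zero
    change Nat.card ((ι → ℤ) ⧸ f.ker) ≠ 0
    have : Nat.card ((ι → ℤ) ⧸ f.ker) = f.ker.index := rfl
    rw [this, hidx']
    exact pow_ne_zero _ hp.out.ne_zero
  have hrank := (Submodule.finiteQuotient_iff f.ker.toIntSubmodule).1 hfin
  have hrank' : Module.finrank ℤ f.ker.toIntSubmodule = Fintype.card ι := by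
    rw [hrank, Module.finrank_fintype_fun_eq_card]
  let b : Module.Basis ι ℤ f.ker.toIntSubmodule :=
    (Module.finBasisOfFinrankEq ℤ _ hrank').reindex (Fintype.equivFin ι).symm
  refine ⟨fun i => (b i : ι → ℤ), a', ha', fun i => ?_, ?_⟩
  · exact (b i).2
  · have h := AddSubgroup.index_eq_natAbs_det (Pi.basisFun ℤ ι) f.ker b
    rw [hidx'] at h
    rw [h, Pi.basisFun_det]
    rfl

theorem ix_det {p : ℕ} [hp : Fact p.Prime] (M : Matrix ι ι ℚ) (c : ℤ)
    (h : ∀ i j, padicNorm p (M i j) ≤ (p : ℚ) ^ c) :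
    padicNorm p M.det ≤ (p : ℚ) ^ (c * (Fintype.card ι : ℤ)) := by
  have hp0 : (0 : ℚ) ≤ (p : ℚ) := by positivity
  rw [Matrix.det_apply]
  refine padicNorm.sum_le' (fun σ _ => ?_) (by positivity)
  have h1 : padicNorm p (Equiv.Perm.sign σ • ∏ i, M (σ i) i) = padicNorm p (∏ i, M (σ i) i) := by
    rcases Int.units_eq_one_or (Equiv.Perm.sign σ) with h2 | h2
    · rw [h2, one_smul]
    · rw [h2, Units.neg_smul, one_smul, padicNorm.neg]
  rw [h1]
  have h2 : ∀ s : Finset ι, padicNorm p (∏ i ∈ s, M (σ i) i) ≤ (p : ℚ) ^ (c * (s.card : ℤ)) := by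
    intro s
    induction s using Finset.induction_on with
    | empty => simp
    | insert i s his ih =>
      rw [Finset.prod_insert his, padicNorm.mul, Finset.card_insert_of_notMem his]
      calc padicNorm p (M (σ i) i) * padicNorm p (∏ i ∈ s, M (σ i) i)
          ≤ (p : ℚ) ^ c * (p : ℚ) ^ (c * (s.card : ℤ)) :=
            mul_le_mul (h _ _) ih (padicNorm.nonneg _) (by positivity)
        _ = (p : ℚ) ^ (c * ((s.card + 1 : ℕ) : ℤ)) := by
            rw [← zpow_add₀ (by exact_mod_cast hp.out.ne_zero)]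
            congr 1
            push_cast
            ring
  exact h2 Finset.univ

theorem IX : S_IX := by
  intro ι _ _ G H _ _ _ _ p hp M f g c a b hG hH h
  have := hp
  obtain ⟨U, a', ha', hU, hUd⟩ := ix_basis p f a hG
  obtain ⟨V, b', hb', hV, hVd⟩ := ix_basis p g b hH
  have hp1 : (1 : ℚ) ≤ (p : ℚ) := by exact_mod_cast hp.out.one_lt.le
  have hp0 : (p : ℚ) ≠ 0 := by exact_mod_cast hp.out.ne_zero
  set N : Matrix ι ι ℚ := U.map (Int.cast : ℤ → ℚ) * M * (V.map (Int.cast : ℤ → ℚ)).transpose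
    with hN
  have hentry : ∀ i j, padicNorm p (N i j) ≤ (p : ℚ) ^ c := by
    intro i j
    have h1 := h (U i) (V j) (hU i) (hV j)
    have h2 : N i j = ∑ x, ∑ y, (U i x : ℚ) * M x y * (V j y : ℚ) := by
      rw [hN, Matrix.mul_apply, Finset.sum_comm]
      refine Finset.sum_congr rfl fun y _ => ?_
      rw [Matrix.mul_apply, Finset.sum_mul]
      rfl
    rw [h2]
    exact h1
  have h1 := ix_det N c hentry
  have norm_pow : ∀ (z : ℤ) (k : ℕ), z.natAbs = p ^ k →
      padicNorm p (z : ℚ) = (p : ℚ) ^ (-(k : ℤ)) := by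
    intro z k hz
    have h2 : padicNorm p (z : ℚ) = padicNorm p ((z.natAbs : ℕ) : ℚ) := by
      rcases Int.natAbs_eq z with h3 | h3
      · conv_lhs => rw [h3]
        simp
      · conv_lhs => rw [h3]
        simp
    rw [h2, hz]
    push_cast
    have h4 : ∀ k : ℕ, padicNorm p ((p : ℚ) ^ k) = (p : ℚ) ^ (-(k : ℤ)) := by
      intro k
      induction k with
      | zero => simp
      | succ m ih =>
        rw [pow_succ, padicNorm.mul, ih, padicNorm.padicNorm_p_of_prime, ← zpow_neg_one,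
          ← zpow_add₀ hp0]
        congr 1
        push_cast
        ring
    exact h4 k
  have hdet : padicNorm p N.det = (p : ℚ) ^ (-(a' : ℤ)) * padicNorm p M.det *
      (p : ℚ) ^ (-(b' : ℤ)) := by
    rw [hN, Matrix.det_mul, Matrix.det_mul, Matrix.det_transpose, padicNorm.mul, padicNorm.mul]
    congr 1
    · congr 1
      rw [← norm_pow _ _ hUd]
      congr 1
      exact ((Int.castRingHom ℚ).map_det U).symm
    · rw [← norm_pow _ _ hVd]
      congr 1
      exact ((Int.castRingHom ℚ).map_det V).symm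
  rw [hdet] at h1
  have h3 : padicNorm p M.det = (p : ℚ) ^ (a' : ℤ) * ((p : ℚ) ^ (-(a' : ℤ)) *
      padicNorm p M.det * (p : ℚ) ^ (-(b' : ℤ))) * (p : ℚ) ^ (b' : ℤ) := by
    rw [zpow_neg, zpow_neg]
    field_simp
  rw [h3]
  calc (p : ℚ) ^ (a' : ℤ) * ((p : ℚ) ^ (-(a' : ℤ)) *
      padicNorm p M.det * (p : ℚ) ^ (-(b' : ℤ))) * (p : ℚ) ^ (b' : ℤ)
      ≤ (p : ℚ) ^ (a' : ℤ) * ((p : ℚ) ^ (c * (Fintype.card ι : ℤ))) * (p : ℚ) ^ (b' : ℤ) := by
        gcongr
    _ = (p : ℚ) ^ (c * (Fintype.card ι : ℤ) + a' + b') := by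
        rw [← zpow_add₀ hp0, ← zpow_add₀ hp0]
        congr 1
        ring
    _ ≤ (p : ℚ) ^ (c * (Fintype.card ι : ℤ) + a + b) := by
        apply zpow_le_zpow_right₀ hp1
        have : (a' : ℤ) ≤ a := by exact_mod_cast ha'
        have : (b' : ℤ) ≤ b := by exact_mod_cast hb'
        linarith

end Pool.Agent.L0h38.Q4
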