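import Pool.Agent.L0h38.Q4.Stm
import Pool.Agent.H574R2.D3.B1

/-!
# LF: the linear form as a series (port of `H574R2/D3/B1`, `Dim7/B1`)
-/

open Polynomial Pool.Agent.H337R2 Filter Topology

namespace Pool.Agent.L0h38.Q4

noncomputable section

namespace LF

open Pool.Agent.H574R2.D3 (B1_tel)

/-- the linear form, summation from `t = 0`, poles at `-k`, `k ≥ 1` -/
theorem form (s : Finset ℕ) (μ : ℕ → ℕ) (P : ℚ[X])
    (hdeg : P.natDegree + 2 ≤ (QQ s μ).natDegree) (r : ℕ)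
    (hs0 : ∀ k ∈ s, 1 ≤ k) (hr : ∀ k ∈ s, μ k ≤ r) :
    HasSum (fun t : ℕ => ((P.eval (t : ℚ) / (QQ s μ).eval (t : ℚ) : ℚ) : ℝ))
      (∑ i ∈ Finset.Icc 1 r,
        (((∑ k ∈ s, pa s μ P k i : ℚ) : ℝ) * (if i = 1 then 0 else zr i) -
          ((∑ k ∈ s, pa s μ P k i * hs i (k - 1) : ℚ) : ℝ))) := by
  have hdeg' : P.degree < (QQ s μ).degree := by
    rw [Polynomial.degree_eq_natDegree (QQ_monic _ _).ne_zero]
    exact lt_of_le_of_lt Polynomial.degree_le_natDegree (by exact_mod_cast (by omega))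
  have hres := residue_sum s μ P hdeg
  let φ : ℕ → ℝ := fun t => ∑ k ∈ s, ∑ i ∈ Finset.Icc 1 r,
    ((pa s μ P k i : ℚ) : ℝ) * (1 / ((t : ℝ) + (((k - 1 : ℕ) : ℝ) + 1)) ^ i)
  have hφ : HasSum φ (∑ i ∈ Finset.Icc 1 r,
        (((∑ k ∈ s, pa s μ P k i : ℚ) : ℝ) * (if i = 1 then 0 else zr i) -
          ((∑ k ∈ s, pa s μ P k i * hs i (k - 1) : ℚ) : ℝ))) := by
    have hφ2 : φ = fun t : ℕ => ∑ i ∈ Finset.Icc 1 r, ∑ k ∈ s,
        ((pa s μ P k i : ℚ) : ℝ) * (1 / ((t : ℝ) + (((k - 1 : ℕ) : ℝ) + 1)) ^ i) := by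
      funext t
      exact Finset.sum_comm
    rw [hφ2]
    apply hasSum_sum
    intro i hi
    rw [Finset.mem_Icc] at hi
    by_cases hi1 : i = 1
    · subst hi1
      have h1 : HasSum (fun t : ℕ => ∑ k ∈ s, ((pa s μ P k 1 : ℚ) : ℝ) *
          (1 / ((t : ℝ) + (((k - 1 : ℕ) : ℝ) + 1)) - 1 / ((t : ℝ) + 1)))
          (∑ k ∈ s, ((pa s μ P k 1 : ℚ) : ℝ) * (-((hs 1 (k - 1) : ℚ) : ℝ))) := by
        apply hasSum_sum
        intro k _
        exact (B1_tel (k - 1)).mul_left _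
      convert h1 using 1
      · funext t
        have h2 : ∑ k ∈ s, ((pa s μ P k 1 : ℚ) : ℝ) * (1 / ((t : ℝ) + 1)) = 0 := by
          rw [← Finset.sum_mul]
          have : (∑ k ∈ s, ((pa s μ P k 1 : ℚ) : ℝ)) = ((∑ k ∈ s, pa s μ P k 1 : ℚ) : ℝ) := by
            push_cast; rfl
          rw [this, hres]
          simp
        simp only [mul_sub, Finset.sum_sub_distrib, pow_one]
        rw [h2, sub_zero]
      · rw [if_pos rfl, mul_zero, zero_sub]
        push_cast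
        rw [← Finset.sum_neg_distrib]
        exact Finset.sum_congr rfl fun k _ => by ring
    · have h1 : HasSum (fun t : ℕ => ∑ k ∈ s, ((pa s μ P k i : ℚ) : ℝ) *
          (1 / ((t : ℝ) + (((k - 1 : ℕ) : ℝ) + 1)) ^ i))
          (∑ k ∈ s, ((pa s μ P k i : ℚ) : ℝ) * (zr i - ((hs i (k - 1) : ℚ) : ℝ))) := by
        apply hasSum_sum
        intro k _
        exact (hasSum_tail (by omega) (k - 1)).mul_left _
      convert h1 using 1
      rw [if_neg hi1]
      push_cast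
      rw [Finset.sum_mul, ← Finset.sum_sub_distrib]
      exact Finset.sum_congr rfl fun k _ => by ring
  have hval : ∀ t : ℕ, φ t = ((P.eval (t : ℚ) / (QQ s μ).eval (t : ℚ) : ℚ) : ℝ) := by
    intro t
    have hne : ∀ k ∈ s, (t : ℚ) + (k : ℚ) ≠ 0 := by
      intro k hk
      have h2 : (1 : ℚ) ≤ k := by exact_mod_cast hs0 k hk
      have h3 : (0 : ℚ) ≤ t := by positivity
      intro h4
      linarith
    have h5 : P.eval (t : ℚ) / (QQ s μ).eval (t : ℚ) =
        PowerSeries.coeff 0 (RS s μ P (t : ℚ)) := by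
      unfold RS
      have hQ := TS_QQ_mul_VV s μ (t : ℚ) (fun m hm _ => hne m hm)
      have hQ2 := congrArg (PowerSeries.constantCoeff (R := ℚ)) hQ
      rw [map_mul, constCoeff_TS, map_one] at hQ2
      rw [PowerSeries.coeff_zero_eq_constantCoeff_apply, map_mul, constCoeff_TS]
      have hQ3 : (QQ s μ).eval (t : ℚ) ≠ 0 := left_ne_zero_of_mul_eq_one hQ2
      rw [div_eq_iff hQ3, mul_assoc, mul_comm (PowerSeries.constantCoeff _), hQ2, mul_one]
    rw [h5, coeff_RS s μ P hdeg' _ hne 0]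
    push_cast
    show ∑ k ∈ s, _ = _
    apply Finset.sum_congr rfl
    intro k hk
    have h6 := sum_pfc_eq s μ P r k (hr k hk) (fun a i => ((a : ℚ) : ℝ) *
          (1 / ((t : ℝ) + (((k - 1 : ℕ) : ℝ) + 1)) ^ i)) (by intro i; simp)
    rw [← h6]
    apply Finset.sum_congr rfl
    intro j _
    have h7 : (((k - 1 : ℕ) : ℝ) + 1) = (k : ℝ) := by
      rw [Nat.cast_sub (hs0 k hk)]
      push_cast
      ring
    rw [h7]
    simp only [pow_zero, add_zero, Nat.choose_self, Nat.cast_one, mul_one]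
  have h8 : (fun t : ℕ => ((P.eval (t : ℚ) / (QQ s μ).eval (t : ℚ) : ℚ) : ℝ)) = φ := by
    funext t
    rw [hval]
  rw [h8]
  exact hφ

lemma xP_comp (n : ℕ) : (xP n).comp (-X - C ((2 * n + 1 : ℕ) : ℚ)) = xP n := by
  have h1 : (C ((2 * n + 1 : ℕ) : ℚ) : ℚ[X]) = C (n : ℚ) + C ((n + 1 : ℕ) : ℚ) := by
    rw [← map_add]
    congr 1
    push_cast
    ring
  unfold xP
  rw [h1]
  simp only [Polynomial.mul_comp, Polynomial.add_comp, Polynomial.X_comp, Polynomial.C_comp]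
  ring

lemma PP_comp (n : ℕ) : (PP n).comp (-X - C ((2 * n + 1 : ℕ) : ℚ)) = -PP n := by
  unfold PP
  rw [Polynomial.mul_comp, Polynomial.C_comp, Polynomial.pow_comp]
  have h1 : (2 * X + C ((2 * n + 1 : ℕ) : ℚ) : ℚ[X]).comp (-X - C ((2 * n + 1 : ℕ) : ℚ)) =
      -(2 * X + C ((2 * n + 1 : ℕ) : ℚ)) := by
    simp only [Polynomial.add_comp, Polynomial.mul_comp, Polynomial.X_comp, Polynomial.C_comp,
      Polynomial.ofNat_comp]
    ring
  rw [h1, Odd.neg_pow (by norm_num), mul_neg]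

lemma P_comp (n : ℕ) (Q : ℚ[X]) :
    (PP n * Q.comp (xP n)).comp (-X - C ((2 * n + 1 : ℕ) : ℚ)) = -(PP n * Q.comp (xP n)) := by
  rw [Polynomial.mul_comp, PP_comp, Polynomial.comp_assoc, xP_comp, neg_mul]

lemma deg_le (n : ℕ) (Q : ℚ[X]) : (PP n * Q.comp (xP n)).natDegree ≤ 401 + 2 * Q.natDegree := by
  have h1 : (xP n).natDegree ≤ 2 := by
    unfold xP
    refine Polynomial.natDegree_mul_le.trans ?_
    rw [Polynomial.natDegree_X_add_C, Polynomial.natDegree_X_add_C]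
  have h2 : (PP n).natDegree ≤ 401 := by
    unfold PP
    refine (Polynomial.natDegree_C_mul_le _ _).trans ?_
    refine Polynomial.natDegree_pow_le.trans ?_
    have : (2 * X + C ((2 * n + 1 : ℕ) : ℚ) : ℚ[X]).natDegree ≤ 1 := by
      refine (Polynomial.natDegree_add_le _ _).trans ?_
      refine max_le ?_ (by rw [Polynomial.natDegree_C]; exact Nat.zero_le _)
      rw [show (2 : ℚ[X]) = C (2 : ℚ) from rfl]
      exact (Polynomial.natDegree_C_mul_le _ _).trans (by rw [Polynomial.natDegree_X])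
    omega
  refine Polynomial.natDegree_mul_le.trans (Nat.add_le_add h2 ?_)
  refine Polynomial.natDegree_comp_le.trans ?_
  calc Q.natDegree * (xP n).natDegree ≤ Q.natDegree * 2 := Nat.mul_le_mul_left _ h1
    _ = _ := by ring

lemma sum_mP (n : ℕ) : ∑ k ∈ sP n, mP k = 198 * n := by
  rw [Finset.sum_const, Nat.card_Icc, smul_eq_mul]
  omega

lemma prod_fact (t N : ℕ) : (t.factorial : ℚ) * ∏ k ∈ Finset.Icc 1 N, ((t : ℚ) + k) =
    ((t + N).factorial : ℚ) := by
  induction N with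
  | zero => simp
  | succ N ih =>
    rw [Finset.prod_Icc_succ_top (by omega), ← mul_assoc, ih, ← add_assoc, Nat.factorial_succ]
    push_cast
    ring

lemma val (n t : ℕ) (Q : ℚ[X]) :
    (((PP n * Q.comp (xP n)).eval (t : ℚ) / (QQ (sP n) mP).eval (t : ℚ) : ℚ) : ℝ) =
      wt n t * ((Q.eval (((n + t : ℕ) : ℚ) * (((n + t : ℕ) : ℚ) + 1)) : ℚ) : ℝ) := by
  have hf : ((t.factorial : ℕ) : ℚ) ≠ 0 := by exact_mod_cast Nat.factorial_ne_zero t
  have hQQ : (QQ (sP n) mP).eval (t : ℚ) =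
      (((t + 2 * n).factorial : ℚ) / (t.factorial : ℚ)) ^ 99 := by
    unfold QQ
    rw [Polynomial.eval_prod]
    have h0 : ∀ m ∈ sP n, ((X + C (m : ℚ) : ℚ[X]) ^ mP m).eval (t : ℚ) = ((t : ℚ) + m) ^ 99 := by
      intro m _
      rw [Polynomial.eval_pow, Polynomial.eval_add, Polynomial.eval_X, Polynomial.eval_C]
    rw [Finset.prod_congr rfl h0, Finset.prod_pow]
    congr 1
    rw [eq_div_iff hf, mul_comm]
    exact prod_fact t (2 * n)
  have hx : (xP n).eval (t : ℚ) = ((n + t : ℕ) : ℚ) * (((n + t : ℕ) : ℚ) + 1) := by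
    unfold xP
    rw [Polynomial.eval_mul, Polynomial.eval_add, Polynomial.eval_add, Polynomial.eval_X,
      Polynomial.eval_C, Polynomial.eval_C]
    push_cast
    ring
  have hP : (PP n).eval (t : ℚ) = (((2 * n - 1).factorial : ℚ)) ^ 99 * (2 * (t : ℚ) + 2 * n + 1) ^ 401 := by
    unfold PP
    rw [Polynomial.eval_mul, Polynomial.eval_C, Polynomial.eval_pow, Polynomial.eval_add,
      Polynomial.eval_mul, Polynomial.eval_X, Polynomial.eval_C, Polynomial.eval_ofNat]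
    have : (2 * (t : ℚ) + ((2 * n + 1 : ℕ) : ℚ)) = 2 * (t : ℚ) + 2 * n + 1 := by push_cast; ring
    rw [this]
  rw [Polynomial.eval_mul, Polynomial.eval_comp, hx, hP, hQQ]
  unfold wt
  generalize Q.eval (((n + t : ℕ) : ℚ) * (((n + t : ℕ) : ℚ) + 1)) = q
  have hfR : ((t.factorial : ℕ) : ℝ) ≠ 0 := by exact_mod_cast Nat.factorial_ne_zero t
  have hfR2 : (((t + 2 * n).factorial : ℕ) : ℝ) ≠ 0 := by
    exact_mod_cast Nat.factorial_ne_zero (t + 2 * n)
  simp only [Rat.cast_div, Rat.cast_mul, Rat.cast_pow, Rat.cast_natCast, Rat.cast_ofNat,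
    Rat.cast_add, Rat.cast_one]
  have e1 : (((2 * n - 1).factorial : ℝ) * (t.factorial : ℝ) / ((t + 2 * n).factorial : ℝ)) ^ 99 =
      ((2 * n - 1).factorial : ℝ) ^ 99 / (((t + 2 * n).factorial : ℝ) / (t.factorial : ℝ)) ^ 99 := by
    rw [← div_pow]
    congr 1
    field_simp
  rw [e1]
  have h3 : (2 * (t : ℝ) + 2 * (n : ℝ) + 1) = (2 * t + 2 * n + 1 : ℝ) := rfl
  generalize (2 * (t : ℝ) + 2 * (n : ℝ) + 1) ^ 401 = A
  generalize ((2 * n - 1).factorial : ℝ) ^ 99 = B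
  generalize (((t + 2 * n).factorial : ℝ) / (t.factorial : ℝ)) ^ 99 = D
  ring

end LF

theorem LF : S_LF := by
  intro n α β γ θ θ' Q hn h hQ
  set P : ℚ[X] := PP n * Q.comp (xP n) with hP
  have hd : P.natDegree + 2 ≤ (QQ (sP n) mP).natDegree := by
    rw [QQ_natDegree, LF.sum_mP]
    have := LF.deg_le n Q
    rw [← hP] at this
    omega
  have h1 := LF.form (sP n) mP P hd 99
    (fun k hk => (Finset.mem_Icc.1 hk).1) (fun k _ => le_rfl)
  have h2 : (fun t : ℕ => wt n t * ((Q.eval (((n + t : ℕ) : ℚ) * (((n + t : ℕ) : ℚ) + 1)) : ℚ) : ℝ)) =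
      fun t : ℕ => ((P.eval (t : ℚ) / (QQ (sP n) mP).eval (t : ℚ) : ℚ) : ℝ) := by
    funext t
    rw [LF.val]
  rw [h2]
  convert h1 using 1
  rw [AL_apply, BL_apply, BL_apply, ← hP]
  unfold xa xb rho
  push_cast
  rw [Finset.mul_sum, Finset.mul_sum, ← Finset.sum_add_distrib, ← Finset.sum_add_distrib]
  apply Finset.sum_congr rfl
  intro i hi
  rw [Finset.mem_Icc] at hi
  have key : (∑ k ∈ sP n, ((pa (sP n) mP P k i : ℚ) : ℝ)) *
      ((α i : ℝ) + θ * (β i : ℝ) + θ' * (γ i : ℝ)) = (∑ k ∈ sP n, ((pa (sP n) mP P k i : ℚ) : ℝ)) *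
      (if i = 1 then 0 else zr i) := by
    by_cases hodd : Odd i
    · by_cases hi1 : i = 1
      · subst hi1
        have h6 := residue_sum (sP n) mP P hd
        have h4 : (∑ k ∈ sP n, ((pa (sP n) mP P k 1 : ℚ) : ℝ)) = 0 := by
          have : (((∑ k ∈ sP n, pa (sP n) mP P k 1 : ℚ)) : ℝ) = 0 := by
            rw [h6]; simp
          push_cast at this
          exact this
        rw [h4, zero_mul, zero_mul]
      · rw [if_neg hi1, h i hodd (by obtain ⟨j, hj⟩ := hodd; omega) hi.2]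
    · have hodd' := Nat.not_odd_iff_even.1 hodd
      have h6 := even_vanish (sP n) mP P (2 * n + 1)
        (fun k hk => by
          rw [Finset.mem_Icc] at hk ⊢
          omega) (fun k hk => rfl)
        (by rw [hP]; exact LF.P_comp n Q) (by
          rw [LF.sum_mP]
          exact (by norm_num : Even 198).mul_right _) hodd' hi.1
      have h4 : (∑ k ∈ sP n, ((pa (sP n) mP P k i : ℚ) : ℝ)) = 0 := by
        have : (((∑ k ∈ sP n, pa (sP n) mP P k i : ℚ)) : ℝ) = 0 := by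
          rw [h6]; simp
        push_cast at this
        exact this
      rw [h4, zero_mul, zero_mul]
  linear_combination key

end

end Pool.Agent.L0h38.Q4
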