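import Mathlib.Data.Nat.Notation
import Pool.Agent.L0h38.Q4.LOCd

/-!
# Kernel computations for the local determinant (project Q4, piece LOC)
-/

set_option autoImplicit false

noncomputable section

namespace Pool.Agent.L0h38.Q4.LOC

/-- the digit `d` of `N` in base `32` -/
def dg (N d : ℕ) : ℕ := Nat.mod (Nat.shiftRight N (Nat.mul 5 d)) 32

/-- the digits `0, …, n-1` of `N` (base `32`) as digits in base `B` -/
def pk (B N n : ℕ) : ℕ :=
  Nat.rec 0 (fun k acc => Nat.add acc (Nat.mul (dg N k) (Nat.pow B k))) n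

/-- base for the power series -/
def B1 : ℕ := 0x1000000000000000000000000000000000000000000000000

/-- base for the matrix -/
def B2 : ℕ := 0x100000

/-- the digit `d` of `N` in base `B` -/
def dB (B N d : ℕ) : ℕ := Nat.mod (Nat.div N (Nat.pow B d)) B

/-- conjunction of `f 0, …, f (n-1)` -/
def all (f : ℕ → Bool) (n : ℕ) : Bool := Nat.rec true (fun k acc => and (f k) acc) n

/-! ### the matrix -/

/-- `∑ j, (digit (i + j) of L) * w j` -/
def dot (L : ℕ) (ws : List ℕ) : ℕ → ℕ :=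
  List.rec (fun _ => 0) (fun w _ ih => fun i => Nat.add (Nat.mul (dg L i) (pk B2 w 198)) (ih (Nat.succ i))) ws

/-- all the digits of `R` (base `B2`) are `0` modulo `23`, except for the digit `i`, which is `1` -/
def chkR (R i : ℕ) : ℕ → Bool := fun k => Nat.beq (Nat.mod (dB B2 R k) 23) (cond (Nat.beq k i) 1 0)

/-- the check for the row `i` -/
def chkRow (L0 L1 L2 : ℕ) (c0 c1 c2 : List ℕ) : ℕ → Bool := fun i =>
  all (chkR (Nat.add (Nat.add (dot L0 c0 i) (dot L1 c1 i)) (dot L2 c2 i)) i) 198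

theorem chk5 : all (chkRow LA LB3 LB5 C50 C51 C52) 198 = true := by decide +kernel

theorem chk7 : all (chkRow LA LB3 LB7 C70 C71 C72) 198 = true := by decide +kernel

/-! ### the series -/

/-- `(X + c) ^ e` modulo `23`, at `X = B` -/
def PB (B c e : ℕ) : ℕ :=
  Nat.mul (Nat.pow (Nat.add (Nat.pow B 23) c) (Nat.div e 23)) (Nat.pow (Nat.add B c) (Nat.mod e 23))

/-- `T * (X + a)^99 * (X + b)^99 * (X + c)^99 = 1` modulo `X ^ 99` -/
def chkT (T a b c : ℕ) : ℕ → Bool := fun d =>
  Nat.beq (Nat.mod (dB B1 (Nat.mul (pk B1 T 99) (Nat.mul (PB B1 a 99) (Nat.mul (PB B1 b 99) (PB B1 c 99)))) d) 23)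
    (cond (Nat.beq d 0) 1 0)

theorem chkT0 : all (chkT TL0 1 2 3) 99 = true := by decide +kernel
theorem chkT1 : all (chkT TL1 22 1 2) 99 = true := by decide +kernel
theorem chkT2 : all (chkT TL2 21 22 1) 99 = true := by decide +kernel
theorem chkT3 : all (chkT TL3 20 21 22) 99 = true := by decide +kernel

/-- the coefficient `d` of `T (X + c)^e` -/
def cf (T c e d : ℕ) : ℕ := dB B1 (Nat.mul (pk B1 T 99) (PB B1 c e)) d

/-- the coefficient `98` of `T W (X + c)^e` -/
def cw (T W c e : ℕ) : ℕ := dB B1 (Nat.mul (Nat.mul (pk B1 T 99) (pk B1 W 99)) (PB B1 c e)) 98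

/-- the check for `Fm e` -/
def chkA : ℕ → Bool := fun e =>
  Nat.beq (Nat.mod (Nat.mul 22 (Nat.add (Nat.add (cw TL0 WL0 0 e) (cw TL1 WL1 22 e))
    (Nat.add (cw TL2 WL2 21 e) (cw TL3 WL3 20 e)))) 23) (dg LA e)

theorem chkA_all : all chkA 263 = true := by decide +kernel

/-- the check for `Bm i0 e`, `d = 99 - i0` -/
def chkB (L d : ℕ) : ℕ → Bool := fun e =>
  Nat.beq (Nat.mod (Nat.mul 2 (Nat.add (Nat.add (cf TL0 0 e d) (cf TL1 22 e d))
    (Nat.add (cf TL2 21 e d) (cf TL3 20 e d)))) 23) (dg L e)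

theorem chkB3_all : all (chkB LB3 96) 263 = true := by decide +kernel
theorem chkB5_all : all (chkB LB5 94) 263 = true := by decide +kernel
theorem chkB7_all : all (chkB LB7 92) 263 = true := by decide +kernel

/-- inverses of `1, 2, 3` modulo `23` -/
def inv23 (l : ℕ) : ℕ := cond (Nat.beq l 0) 1 (cond (Nat.beq l 1) 12 8)

/-- harmonic sums modulo `23` -/
def hN (i m : ℕ) : ℕ := Nat.rec 0 (fun l acc => Nat.add acc (Nat.pow (inv23 l) i)) m

/-- the check for the weights -/
def chkW (W j j' : ℕ) : ℕ → Bool := fun i =>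
  Nat.beq (Nat.mod (Nat.add (hN (Nat.add i 1) j) (Nat.mul (Nat.pow 22 (Nat.add i 2)) (hN (Nat.add i 1) j'))) 23)
    (dg W i)

theorem chkW0 : all (chkW WL0 0 3) 99 = true := by decide +kernel
theorem chkW1 : all (chkW WL1 1 2) 99 = true := by decide +kernel
theorem chkW2 : all (chkW WL2 2 1) 99 = true := by decide +kernel
theorem chkW3 : all (chkW WL3 3 0) 99 = true := by decide +kernel

end Pool.Agent.L0h38.Q4.LOC

end
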