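import Mathlib
import Pool.Agent.L0h38.Q4.LOCk

/-!
# Polynomials with natural coefficients and digits (project Q4, piece LOC)
-/

set_option autoImplicit false

open Polynomial

namespace Pool.Agent.L0h38.Q4.LOC

theorem fact23 : Fact (Nat.Prime 23) := ⟨by norm_num⟩

attribute [local instance] fact23

theorem all_spec {f : ℕ → Bool} {n : ℕ} (h : all f n = true) : ∀ k < n, f k = true := by
  induction n with
  | zero => intro k hk; omega
  | succ n ih =>
    have h1 : (f n && all f n) = true := h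
    rw [Bool.and_eq_true] at h1
    intro k hk
    rcases Nat.lt_succ_iff_lt_or_eq.1 hk with h2 | h2
    · exact ih h1.2 k h2
    · rw [h2]; exact h1.1

/-! ### digits -/

theorem dig (B : ℕ) : ∀ (d : ℕ) (P : ℕ[X]), (∀ k, P.coeff k < B) → dB B (P.eval B) d = P.coeff d := by
  intro d
  induction d with
  | zero =>
    intro P h
    show P.eval B / B ^ 0 % B = P.coeff 0
    have h1 : P.eval B = P.divX.eval B * B + P.coeff 0 := by
      conv_lhs => rw [← P.divX_mul_X_add]
      simp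
    rw [h1, pow_zero, Nat.div_one, Nat.mul_add_mod_self_right, Nat.mod_eq_of_lt (h 0)]
  | succ d ih =>
    intro P h
    have h1 : P.eval B = P.divX.eval B * B + P.coeff 0 := by
      conv_lhs => rw [← P.divX_mul_X_add]
      simp
    have hB : 0 < B := lt_of_le_of_lt (Nat.zero_le _) (h 0)
    have h2 : P.eval B / B = P.divX.eval B := by
      rw [h1, Nat.add_div_of_dvd_right (Dvd.intro_left _ rfl), Nat.mul_div_cancel _ hB,
        Nat.div_eq_of_lt (h 0), add_zero]
    have h3 := ih P.divX fun k => by rw [coeff_divX]; exact h _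
    rw [coeff_divX] at h3
    rw [← h3]
    show P.eval B / B ^ (d + 1) % B = P.divX.eval B / B ^ d % B
    rw [← h2, Nat.div_div_eq_div_mul, pow_succ']

theorem coeff_le (P : ℕ[X]) (k : ℕ) : P.coeff k ≤ P.eval 1 := by
  rw [eval_eq_sum]
  unfold Polynomial.sum
  by_cases h : k ∈ P.support
  · have := Finset.single_le_sum (f := fun e => P.coeff e * 1 ^ e) (fun i _ => Nat.zero_le _) h
    simpa using this
  · rw [notMem_support_iff.1 h]
    exact Nat.zero_le _

theorem dig_of (B : ℕ) (P : ℕ[X]) (h : P.eval 1 < B) (d : ℕ) : dB B (P.eval B) d = P.coeff d :=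
  dig B d P fun k => lt_of_le_of_lt (coeff_le P k) h

/-- the polynomial with the digits of `N` as coefficients -/
noncomputable def Pol (N n : ℕ) : ℕ[X] := ∑ d ∈ Finset.range n, C (dg N d) * X ^ d

theorem dg_lt (N d : ℕ) : dg N d < 32 := Nat.mod_lt _ (by norm_num)

theorem pk_eq (B N n : ℕ) : pk B N n = (Pol N n).eval B := by
  induction n with
  | zero => simp [Pol, pk]
  | succ n ih =>
    have h1 : pk B N (n + 1) = pk B N n + dg N n * B ^ n := rfl
    rw [h1, ih]
    unfold Pol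
    rw [Finset.sum_range_succ, eval_add, eval_mul, eval_C, eval_pow, eval_X]

theorem Pol_coeff (N n d : ℕ) : (Pol N n).coeff d = if d < n then dg N d else 0 := by
  unfold Pol
  rw [finsetSum_coeff]
  simp only [coeff_C_mul_X_pow]
  rw [Finset.sum_ite_eq]
  simp only [Finset.mem_range]

theorem Pol_one (N n : ℕ) : (Pol N n).eval 1 ≤ n * 31 := by
  rw [← pk_eq]
  induction n with
  | zero => simp [pk]
  | succ n ih =>
    have h1 : pk 1 N (n + 1) = pk 1 N n + dg N n * 1 ^ n := rfl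
    have h2 := dg_lt N n
    rw [h1, one_pow]
    omega

/-- `(X + c) ^ e` modulo `23` -/
noncomputable def Pp (c e : ℕ) : ℕ[X] := (X ^ 23 + C c) ^ (e / 23) * (X + C c) ^ (e % 23)

theorem PB_eq (B c e : ℕ) : PB B c e = (Pp c e).eval B := by
  have h1 : PB B c e = (B ^ 23 + c) ^ (e / 23) * (B + c) ^ (e % 23) := rfl
  rw [h1]
  simp [Pp]

theorem Pp_one {c e : ℕ} (hc : c ≤ 22) {m : ℕ} (he : e / 23 + e % 23 ≤ m) : (Pp c e).eval 1 ≤ 23 ^ m := by
  have h1 : (Pp c e).eval 1 = (1 + c) ^ (e / 23 + e % 23) := by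
    simp [Pp, pow_add]
  rw [h1]
  calc (1 + c) ^ (e / 23 + e % 23) ≤ 23 ^ (e / 23 + e % 23) := Nat.pow_le_pow_left (by omega) _
    _ ≤ 23 ^ m := Nat.pow_le_pow_right (by norm_num) he

theorem cf_eq {T c e : ℕ} (hc : c ≤ 22) (he : e < 263) (d : ℕ) :
    cf T c e d = (Pol T 99 * Pp c e).coeff d := by
  have h1 : cf T c e d = dB B1 (pk B1 T 99 * PB B1 c e) d := rfl
  rw [h1, pk_eq, PB_eq, ← eval_mul]
  apply dig_of
  rw [eval_mul]
  calc (Pol T 99).eval 1 * (Pp c e).eval 1 ≤ (99 * 31) * 23 ^ 33 :=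
        Nat.mul_le_mul (Pol_one _ _) (Pp_one hc (by omega))
    _ < B1 := by unfold B1; norm_num

theorem cw_eq {T W c e : ℕ} (hc : c ≤ 22) (he : e < 263) :
    cw T W c e = (Pol T 99 * Pol W 99 * Pp c e).coeff 98 := by
  have h1 : cw T W c e = dB B1 (pk B1 T 99 * pk B1 W 99 * PB B1 c e) 98 := rfl
  rw [h1, pk_eq, pk_eq, PB_eq, ← eval_mul, ← eval_mul]
  apply dig_of
  rw [eval_mul, eval_mul]
  calc (Pol T 99).eval 1 * (Pol W 99).eval 1 * (Pp c e).eval 1 ≤ (99 * 31) * (99 * 31) * 23 ^ 33 :=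
        Nat.mul_le_mul (Nat.mul_le_mul (Pol_one _ _) (Pol_one _ _)) (Pp_one hc (by omega))
    _ < B1 := by unfold B1; norm_num

theorem chkT_eq {T a b c d : ℕ} (ha : a ≤ 22) (hb : b ≤ 22) (hc : c ≤ 22) (h : chkT T a b c d = true) :
    (Pol T 99 * (Pp a 99 * (Pp b 99 * Pp c 99))).coeff d % 23 = if d = 0 then 1 else 0 := by
  have h1 : dB B1 (pk B1 T 99 * (PB B1 a 99 * (PB B1 b 99 * PB B1 c 99))) d % 23 =
      cond (Nat.beq d 0) 1 0 := Nat.eq_of_beq_eq_true h
  rw [pk_eq, PB_eq, PB_eq, PB_eq, ← eval_mul, ← eval_mul, ← eval_mul, dig_of] at h1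
  · rw [h1]
    cases d <;> rfl
  · rw [eval_mul, eval_mul, eval_mul]
    calc (Pol T 99).eval 1 * ((Pp a 99).eval 1 * ((Pp b 99).eval 1 * (Pp c 99).eval 1)) ≤
          (99 * 31) * (23 ^ 11 * (23 ^ 11 * 23 ^ 11)) :=
          Nat.mul_le_mul (Pol_one _ _) (Nat.mul_le_mul (Pp_one ha (by norm_num))
            (Nat.mul_le_mul (Pp_one hb (by norm_num)) (Pp_one hc (by norm_num))))
      _ < B1 := by unfold B1; norm_num

/-! ### reduction of the polynomials -/

/-- a polynomial with natural coefficients as a power series modulo `23` -/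
noncomputable def ph : ℕ[X] →+* PowerSeries (ZMod 23) :=
  (Polynomial.coeToPowerSeries.ringHom).comp (Polynomial.mapRingHom (Nat.castRingHom (ZMod 23)))

theorem ph_coeff (P : ℕ[X]) (d : ℕ) : PowerSeries.coeff d (ph P) = ((P.coeff d : ℕ) : ZMod 23) := by
  simp [ph]

theorem ph_Pp (c e : ℕ) : ph (Pp c e) = (PowerSeries.X + PowerSeries.C (c : ZMod 23)) ^ e := by
  have h1 : (Pp c e).map (Nat.castRingHom (ZMod 23)) = (X + C (c : ZMod 23)) ^ e := by
    unfold Pp
    have h2 : (X + C (c : ZMod 23)) ^ 23 = X ^ 23 + C (c : ZMod 23) := by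
      rw [add_pow_char, ← map_pow, ZMod.pow_card]
    have h3 : (X + C (c : ZMod 23)) ^ e = ((X + C (c : ZMod 23)) ^ 23) ^ (e / 23) *
        (X + C (c : ZMod 23)) ^ (e % 23) := by
      rw [← pow_mul, ← pow_add, Nat.div_add_mod]
    rw [h3, h2]
    simp
  unfold ph
  rw [RingHom.comp_apply, Polynomial.coe_mapRingHom, h1, Polynomial.coeToPowerSeries.ringHom_apply,
    Polynomial.coe_pow, Polynomial.coe_add, Polynomial.coe_X, Polynomial.coe_C]

end Pool.Agent.L0h38.Q4.LOC
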