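import Pool.Agent.L0h38.Q4.Defs
import Pool.Agent.L0h38.Q4.LOCp

/-!
# Reduction modulo `23` (project Q4, piece LOC)
-/

set_option autoImplicit false

open Polynomial Pool.Agent.H337R2

namespace Pool.Agent.L0h38.Q4.LOC

attribute [local instance] fact23

/-- `x` reduces to `a` modulo `23` -/
def Rl (x : ℚ) (a : ZMod 23) : Prop :=
  ∃ z : ℤ_[23], (z : ℚ_[23]) = (x : ℚ_[23]) ∧ PadicInt.toZMod z = a

theorem Rl.add {x y : ℚ} {a b : ZMod 23} (hx : Rl x a) (hy : Rl y b) : Rl (x + y) (a + b) := by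
  obtain ⟨z, hz, hz'⟩ := hx
  obtain ⟨w, hw, hw'⟩ := hy
  exact ⟨z + w, by rw [PadicInt.coe_add, hz, hw, Rat.cast_add], by rw [map_add, hz', hw']⟩

theorem Rl.mul {x y : ℚ} {a b : ZMod 23} (hx : Rl x a) (hy : Rl y b) : Rl (x * y) (a * b) := by
  obtain ⟨z, hz, hz'⟩ := hx
  obtain ⟨w, hw, hw'⟩ := hy
  exact ⟨z * w, by rw [PadicInt.coe_mul, hz, hw, Rat.cast_mul], by rw [map_mul, hz', hw']⟩

theorem Rl.nat (n : ℕ) : Rl (n : ℚ) (n : ZMod 23) :=
  ⟨(n : ℤ_[23]), by rw [PadicInt.coe_natCast, Rat.cast_natCast], map_natCast _ _⟩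

theorem Rl.zero : Rl 0 0 := by
  exact_mod_cast Rl.nat 0

theorem Rl.one : Rl 1 1 := by
  exact_mod_cast Rl.nat 1

theorem Rl.neg {x : ℚ} {a : ZMod 23} (hx : Rl x a) : Rl (-x) (-a) := by
  obtain ⟨z, hz, hz'⟩ := hx
  exact ⟨-z, by rw [PadicInt.coe_neg, hz, Rat.cast_neg], by rw [map_neg, hz']⟩

theorem Rl.pow {x : ℚ} {a : ZMod 23} (h : Rl x a) (k : ℕ) : Rl (x ^ k) (a ^ k) := by
  induction k with
  | zero => rw [pow_zero, pow_zero]; exact Rl.one
  | succ k ih => rw [pow_succ, pow_succ]; exact ih.mul h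

theorem Rl.sum {ι : Type} (s : Finset ι) (f : ι → ℚ) (g : ι → ZMod 23) (h : ∀ i ∈ s, Rl (f i) (g i)) :
    Rl (∑ i ∈ s, f i) (∑ i ∈ s, g i) := by
  classical
  induction s using Finset.induction_on with
  | empty => simpa using Rl.zero
  | insert a s ha ih =>
    rw [Finset.sum_insert ha, Finset.sum_insert ha]
    exact (h a (Finset.mem_insert_self a s)).add (ih fun i hi => h i (Finset.mem_insert_of_mem hi))

theorem isUnit_of {z : ℤ_[23]} (h : PadicInt.toZMod z ≠ 0) : IsUnit z := by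
  by_contra hcon
  have h2 : z ∈ IsLocalRing.maximalIdeal ℤ_[23] := (IsLocalRing.mem_maximalIdeal z).2 hcon
  rw [← PadicInt.ker_toZMod] at h2
  exact h h2

theorem Rl.inv {x : ℚ} {a b : ZMod 23} (h : Rl x a) (hab : a * b = 1) : Rl x⁻¹ b := by
  obtain ⟨z, hz, hz'⟩ := h
  have hne : PadicInt.toZMod z ≠ 0 := by
    rw [hz']
    rintro rfl
    rw [zero_mul] at hab
    exact absurd hab (by decide)
  obtain ⟨u, rfl⟩ := isUnit_of hne
  have h3 : (((u : ℤ_[23]) : ℚ_[23])) * (((u⁻¹ : ℤ_[23]ˣ) : ℤ_[23]) : ℚ_[23]) = 1 := by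
    rw [← PadicInt.coe_mul, Units.mul_inv, PadicInt.coe_one]
  have h4 : PadicInt.toZMod (u : ℤ_[23]) * PadicInt.toZMod ((u⁻¹ : ℤ_[23]ˣ) : ℤ_[23]) = 1 := by
    rw [← map_mul, Units.mul_inv, map_one]
  refine ⟨((u⁻¹ : ℤ_[23]ˣ) : ℤ_[23]), ?_, ?_⟩
  · rw [Rat.cast_inv, ← hz]
    exact eq_inv_of_mul_eq_one_right h3
  · rw [hz'] at h4
    calc PadicInt.toZMod ((u⁻¹ : ℤ_[23]ˣ) : ℤ_[23])
        = (a * b) * PadicInt.toZMod ((u⁻¹ : ℤ_[23]ˣ) : ℤ_[23]) := by rw [hab, one_mul]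
      _ = b * (a * PadicInt.toZMod ((u⁻¹ : ℤ_[23]ˣ) : ℤ_[23])) := by ring
      _ = b := by rw [h4, mul_one]

/-! ### power series -/

/-- `F` reduces to `f` modulo `23` -/
def RS (F : PowerSeries ℚ) (f : PowerSeries (ZMod 23)) : Prop :=
  ∃ z : PowerSeries ℤ_[23],
    PowerSeries.map (PadicInt.Coe.ringHom (p := 23)) z = PowerSeries.map (Rat.castHom ℚ_[23]) F ∧
    PowerSeries.map (PadicInt.toZMod (p := 23)) z = f

theorem RS.mul {F G : PowerSeries ℚ} {f g : PowerSeries (ZMod 23)} (hF : RS F f) (hG : RS G g) :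
    RS (F * G) (f * g) := by
  obtain ⟨z, hz, hz'⟩ := hF
  obtain ⟨w, hw, hw'⟩ := hG
  exact ⟨z * w, by rw [map_mul, map_mul, hz, hw], by rw [map_mul, hz', hw']⟩

theorem RS.one : RS 1 1 := ⟨1, by rw [map_one, map_one], by rw [map_one]⟩

theorem RS.pow {F : PowerSeries ℚ} {f : PowerSeries (ZMod 23)} (hF : RS F f) (n : ℕ) :
    RS (F ^ n) (f ^ n) := by
  induction n with
  | zero => rw [pow_zero, pow_zero]; exact RS.one
  | succ n ih => rw [pow_succ, pow_succ]; exact ih.mul hF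

theorem RS.lin {a : ℚ} {b : ZMod 23} (h : Rl a b) :
    RS (PowerSeries.X + PowerSeries.C a) (PowerSeries.X + PowerSeries.C b) := by
  obtain ⟨z, hz, hz'⟩ := h
  refine ⟨PowerSeries.X + PowerSeries.C z, ?_, ?_⟩
  · rw [map_add, map_add, PowerSeries.map_X, PowerSeries.map_X, PowerSeries.map_C, PowerSeries.map_C]
    congr 2
  · rw [map_add, PowerSeries.map_X, PowerSeries.map_C, hz']

theorem RS.coeff {F : PowerSeries ℚ} {f : PowerSeries (ZMod 23)} (h : RS F f) (d : ℕ) :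
    Rl (PowerSeries.coeff d F) (PowerSeries.coeff d f) := by
  obtain ⟨z, hz, rfl⟩ := h
  refine ⟨PowerSeries.coeff d z, ?_, by rw [PowerSeries.coeff_map]⟩
  have := congrArg (PowerSeries.coeff d) hz
  rw [PowerSeries.coeff_map, PowerSeries.coeff_map] at this
  exact this

/-- the inverse of a series that reduces to a unit -/
theorem RS.inv {F G : PowerSeries ℚ} {f : PowerSeries (ZMod 23)} (h : RS F f) (hFG : F * G = 1)
    (hf : PowerSeries.constantCoeff f ≠ 0) : ∃ g : PowerSeries (ZMod 23), f * g = 1 ∧ RS G g := by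
  obtain ⟨z, hz, rfl⟩ := h
  have h1 : IsUnit z := by
    rw [PowerSeries.isUnit_iff_constantCoeff]
    apply isUnit_of
    have : PowerSeries.constantCoeff (PowerSeries.map (PadicInt.toZMod (p := 23)) z) =
        PadicInt.toZMod (PowerSeries.constantCoeff z) := by
      rw [← PowerSeries.coeff_zero_eq_constantCoeff_apply, PowerSeries.coeff_map,
        PowerSeries.coeff_zero_eq_constantCoeff_apply]
    rw [← this]
    exact hf
  obtain ⟨w, hw⟩ := h1.exists_right_inv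
  refine ⟨PowerSeries.map (PadicInt.toZMod (p := 23)) w, by rw [← map_mul, hw, map_one], w, ?_, rfl⟩
  have h2 : PowerSeries.map (PadicInt.Coe.ringHom (p := 23)) z *
      PowerSeries.map (PadicInt.Coe.ringHom (p := 23)) w = 1 := by rw [← map_mul, hw, map_one]
  have h3 : PowerSeries.map (PadicInt.Coe.ringHom (p := 23)) z *
      PowerSeries.map (Rat.castHom ℚ_[23]) G = 1 := by rw [hz, ← map_mul, hFG, map_one]
  calc PowerSeries.map (PadicInt.Coe.ringHom (p := 23)) w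
      = PowerSeries.map (PadicInt.Coe.ringHom (p := 23)) w *
        (PowerSeries.map (PadicInt.Coe.ringHom (p := 23)) z *
          PowerSeries.map (Rat.castHom ℚ_[23]) G) := by rw [h3, mul_one]
    _ = (PowerSeries.map (PadicInt.Coe.ringHom (p := 23)) z *
        PowerSeries.map (PadicInt.Coe.ringHom (p := 23)) w) *
          PowerSeries.map (Rat.castHom ℚ_[23]) G := by ring
    _ = PowerSeries.map (Rat.castHom ℚ_[23]) G := by rw [h2, one_mul]

/-- series with the same coefficients up to `n` give products with the same coefficients up to `n` -/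
theorem coeff_congr {R : Type} [CommRing R] {t g : PowerSeries R} {n : ℕ}
    (h : ∀ d ≤ n, PowerSeries.coeff d t = PowerSeries.coeff d g) (u : PowerSeries R) (d : ℕ) (hd : d ≤ n) :
    PowerSeries.coeff d (u * t) = PowerSeries.coeff d (u * g) := by
  rw [PowerSeries.coeff_mul, PowerSeries.coeff_mul]
  refine Finset.sum_congr rfl fun x hx => ?_
  rw [Finset.HasAntidiagonal.mem_antidiagonal] at hx
  rw [h x.2 (by omega)]

theorem inv_unique {R : Type} [CommRing R] {v t g : PowerSeries R} {n : ℕ} (hg : v * g = 1)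
    (h : ∀ d ≤ n, PowerSeries.coeff d (t * v) = PowerSeries.coeff d (1 : PowerSeries R)) (d : ℕ) (hd : d ≤ n) :
    PowerSeries.coeff d t = PowerSeries.coeff d g := by
  have h1 : t = g * (t * v) := by
    calc t = t * (v * g) := by rw [hg, mul_one]
      _ = g * (t * v) := by ring
  have h2 := coeff_congr h g d hd
  rw [← h1, mul_one] at h2
  exact h2

/-! ### the local series -/

/-- the literal data `T`, `c` belong to the pole `j` -/
structure Dat (j T c : ℕ) : Prop where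
  ex : ∃ (G : PowerSeries ℚ) (g : PowerSeries (ZMod 23)), RS G g ∧
    (∀ e, ser j e = G * (PowerSeries.X + PowerSeries.C (-(j : ℚ))) ^ e) ∧
    ∀ d ≤ 98, PowerSeries.coeff d (ph (Pol T 99)) = PowerSeries.coeff d g
  hc : Rl (-(j : ℚ)) (c : ZMod 23)
  le : c ≤ 22

theorem pow_aux {R : Type} [CommRing R] (a b c x y z : R) (n : ℕ) :
    a ^ n * (b ^ n * c ^ n) * (x ^ n * y ^ n * z ^ n) = (a * x) ^ n * (b * y) ^ n * (c * z) ^ n := by
  rw [mul_pow, mul_pow, mul_pow]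
  ring

theorem dat_of {j T a b c e : ℕ} {A B C' : ℚ} (hA : Rl A (a : ZMod 23)) (hB : Rl B (b : ZMod 23))
    (hC : Rl C' (c : ZMod 23)) (hA0 : A ≠ 0) (hB0 : B ≠ 0) (hC0 : C' ≠ 0)
    (ha : a ≤ 22) (hb : b ≤ 22) (hc : c ≤ 22) (ha1 : 1 ≤ a) (hb1 : 1 ≤ b) (hc1 : 1 ≤ c)
    (hchk : all (chkT T a b c) 99 = true)
    (hj : ∀ e, ser j e = iv A ^ 99 * iv B ^ 99 * iv C' ^ 99 * (PowerSeries.X + PowerSeries.C (-(j : ℚ))) ^ e)
    (he : Rl (-(j : ℚ)) (e : ZMod 23)) (hle : e ≤ 22) : Dat j T e := by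
  refine ⟨?_, he, hle⟩
  have h1 : RS ((PowerSeries.X + PowerSeries.C A) ^ 99 * ((PowerSeries.X + PowerSeries.C B) ^ 99 *
      (PowerSeries.X + PowerSeries.C C') ^ 99))
      ((PowerSeries.X + PowerSeries.C (a : ZMod 23)) ^ 99 * ((PowerSeries.X + PowerSeries.C (b : ZMod 23)) ^ 99 *
        (PowerSeries.X + PowerSeries.C (c : ZMod 23)) ^ 99)) :=
    ((RS.lin hA).pow 99).mul (((RS.lin hB).pow 99).mul ((RS.lin hC).pow 99))
  have h2 : (PowerSeries.X + PowerSeries.C A) ^ 99 * ((PowerSeries.X + PowerSeries.C B) ^ 99 *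
      (PowerSeries.X + PowerSeries.C C') ^ 99) * (iv A ^ 99 * iv B ^ 99 * iv C' ^ 99) = 1 := by
    rw [pow_aux, lin_mul_iv hA0, lin_mul_iv hB0, lin_mul_iv hC0, one_pow, one_mul, one_mul]
  have hnz : ∀ x : ℕ, 1 ≤ x → x ≤ 22 → (x : ZMod 23) ≠ 0 := by
    intro x hx1 hx2 h
    rw [ZMod.natCast_eq_zero_iff] at h
    exact absurd (Nat.le_of_dvd (by omega) h) (by omega)
  obtain ⟨g, hg, hG⟩ := h1.inv h2 (by
    simp only [map_mul, map_pow, map_add, PowerSeries.constantCoeff_X, PowerSeries.constantCoeff_C, zero_add]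
    exact mul_ne_zero (pow_ne_zero _ (hnz a ha1 ha)) (mul_ne_zero (pow_ne_zero _ (hnz b hb1 hb))
      (pow_ne_zero _ (hnz c hc1 hc))))
  refine ⟨_, g, hG, hj, inv_unique hg fun d hd => ?_⟩
  have h3 := chkT_eq ha hb hc (all_spec hchk d (by omega))
  rw [← ph_Pp a 99, ← ph_Pp b 99, ← ph_Pp c 99, ← map_mul ph, ← map_mul ph, ← map_mul ph, ph_coeff,
    ← ZMod.natCast_mod, h3, PowerSeries.coeff_one]
  split_ifs <;> simp

theorem Dat.coeff {j T c : ℕ} (h : Dat j T c) {e d : ℕ} (he : e < 263) (hd : d ≤ 98) :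
    Rl (PowerSeries.coeff d (ser j e)) ((cf T c e d : ℕ) : ZMod 23) := by
  obtain ⟨G, g, hG, h1, h2⟩ := h.ex
  have h3 := (hG.mul ((RS.lin h.hc).pow e)).coeff d
  rw [h1 e]
  convert h3 using 1
  rw [cf_eq h.le he, ← ph_coeff, map_mul ph, ph_Pp, mul_comm (ph _), mul_comm g]
  exact coeff_congr h2 _ d hd

theorem Dat.sum {j T c W : ℕ} (h : Dat j T c) {e : ℕ} (he : e < 263) (w : ℕ → ℚ)
    (hw : ∀ k < 99, Rl (w (k + 1)) ((dg W k : ℕ) : ZMod 23)) :
    Rl (∑ i ∈ Finset.Icc 1 99, PowerSeries.coeff (99 - i) (ser j e) * w i)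
      ((cw T W c e : ℕ) : ZMod 23) := by
  obtain ⟨G, g, hG, h1, h2⟩ := h.ex
  have h3 := hG.mul ((RS.lin h.hc).pow e)
  have e1 : ∀ F : ℕ → ℚ, ∑ i ∈ Finset.Icc 1 99, F i = ∑ k ∈ Finset.range 99, F (k + 1) := by
    intro F
    rw [Finset.range_eq_Ico, Finset.sum_Ico_add' (fun i => F i) 0 99 1]
    rfl
  rw [e1]
  have h4 : Rl (∑ k ∈ Finset.range 99, PowerSeries.coeff (99 - (k + 1)) (ser j e) * w (k + 1))
      (∑ k ∈ Finset.range 99, PowerSeries.coeff (98 - k)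
        (g * (PowerSeries.X + PowerSeries.C (c : ZMod 23)) ^ e) * ((dg W k : ℕ) : ZMod 23)) := by
    refine Rl.sum _ _ _ fun k hk => ?_
    rw [Finset.mem_range] at hk
    refine Rl.mul ?_ (hw k hk)
    have e2 : 99 - (k + 1) = 98 - k := by omega
    rw [e2, h1 e]
    exact h3.coeff _
  convert h4 using 1
  rw [cw_eq h.le he, ← ph_coeff, map_mul ph, map_mul ph, ph_Pp]
  have e3 : ph (Pol T 99) * ph (Pol W 99) * (PowerSeries.X + PowerSeries.C (c : ZMod 23)) ^ e =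
      (ph (Pol W 99) * (PowerSeries.X + PowerSeries.C (c : ZMod 23)) ^ e) * ph (Pol T 99) := by ring
  rw [e3, coeff_congr h2 _ 98 le_rfl]
  have e4 : ph (Pol W 99) * (PowerSeries.X + PowerSeries.C (c : ZMod 23)) ^ e * g =
      ph (Pol W 99) * (g * (PowerSeries.X + PowerSeries.C (c : ZMod 23)) ^ e) := by ring
  rw [e4, PowerSeries.coeff_mul, Finset.Nat.sum_antidiagonal_eq_sum_range_succ_mk]
  refine Finset.sum_congr rfl fun k hk => ?_
  rw [Finset.mem_range] at hk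
  show PowerSeries.coeff k (ph (Pol W 99)) * PowerSeries.coeff (98 - k) _ = _
  rw [ph_coeff, Pol_coeff, if_pos (by omega), mul_comm]

end Pool.Agent.L0h38.Q4.LOC
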