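import Pool.Agent.L0h38.Q4.Stm
import Pool.Agent.L0h38.Q4.LOCr

/-!
# The local determinant is not zero (project Q4, piece LOC): computation modulo `23`
-/

set_option autoImplicit false

open Polynomial Pool.Agent.H337R2

namespace Pool.Agent.L0h38.Q4

namespace LOC

attribute [local instance] fact23

theorem rl_int (a b c : ℕ) (h : (a : ZMod 23) - b = c) : Rl ((a : ℚ) - b) (c : ZMod 23) := by
  rw [← h, sub_eq_add_neg, sub_eq_add_neg]
  exact (Rl.nat a).add (Rl.nat b).neg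

theorem er0 : (Finset.range 4).erase 0 = {1, 2, 3} := by decide
theorem er1 : (Finset.range 4).erase 1 = {0, 2, 3} := by decide
theorem er2 : (Finset.range 4).erase 2 = {0, 1, 3} := by decide
theorem er3 : (Finset.range 4).erase 3 = {0, 1, 2} := by decide

theorem prod3 (a b c : ℕ) (hab : a ≠ b) (hac : a ≠ c) (hbc : b ≠ c) (g : ℕ → PowerSeries ℚ) :
    ∏ i ∈ ({a, b, c} : Finset ℕ), g i = g a * g b * g c := by
  rw [Finset.prod_insert (by simp [hab, hac]), Finset.prod_insert (by simp [hbc]), Finset.prod_singleton, mul_assoc]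

theorem neg_rl (j c : ℕ) (h : -(j : ZMod 23) = c) : Rl (-(j : ℚ)) (c : ZMod 23) := by
  rw [← h]
  exact (Rl.nat j).neg

theorem dat0 : Dat 0 TL0 0 :=
  dat_of (A := ((1 : ℕ) : ℚ) - ((0 : ℕ) : ℚ)) (B := ((2 : ℕ) : ℚ) - ((0 : ℕ) : ℚ))
    (C' := ((3 : ℕ) : ℚ) - ((0 : ℕ) : ℚ)) (a := 1) (b := 2) (c := 3) (rl_int _ _ _ (by decide))
    (rl_int _ _ _ (by decide)) (rl_int _ _ _ (by decide)) (by norm_num) (by norm_num) (by norm_num)
    (by norm_num) (by norm_num) (by norm_num) (by norm_num) (by norm_num) (by norm_num) chkT0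
    (fun e => by unfold ser; rw [er0, prod3 _ _ _ (by norm_num) (by norm_num) (by norm_num)])
    (neg_rl _ _ (by decide)) (by norm_num)

theorem dat1 : Dat 1 TL1 22 :=
  dat_of (A := ((0 : ℕ) : ℚ) - ((1 : ℕ) : ℚ)) (B := ((2 : ℕ) : ℚ) - ((1 : ℕ) : ℚ))
    (C' := ((3 : ℕ) : ℚ) - ((1 : ℕ) : ℚ)) (a := 22) (b := 1) (c := 2) (rl_int _ _ _ (by decide))
    (rl_int _ _ _ (by decide)) (rl_int _ _ _ (by decide)) (by norm_num) (by norm_num) (by norm_num)
    (by norm_num) (by norm_num) (by norm_num) (by norm_num) (by norm_num) (by norm_num) chkT1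
    (fun e => by unfold ser; rw [er1, prod3 _ _ _ (by norm_num) (by norm_num) (by norm_num)])
    (neg_rl _ _ (by decide)) (by norm_num)

theorem dat2 : Dat 2 TL2 21 :=
  dat_of (A := ((0 : ℕ) : ℚ) - ((2 : ℕ) : ℚ)) (B := ((1 : ℕ) : ℚ) - ((2 : ℕ) : ℚ))
    (C' := ((3 : ℕ) : ℚ) - ((2 : ℕ) : ℚ)) (a := 21) (b := 22) (c := 1) (rl_int _ _ _ (by decide))
    (rl_int _ _ _ (by decide)) (rl_int _ _ _ (by decide)) (by norm_num) (by norm_num) (by norm_num)
    (by norm_num) (by norm_num) (by norm_num) (by norm_num) (by norm_num) (by norm_num) chkT2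
    (fun e => by unfold ser; rw [er2, prod3 _ _ _ (by norm_num) (by norm_num) (by norm_num)])
    (neg_rl _ _ (by decide)) (by norm_num)

theorem dat3 : Dat 3 TL3 20 :=
  dat_of (A := ((0 : ℕ) : ℚ) - ((3 : ℕ) : ℚ)) (B := ((1 : ℕ) : ℚ) - ((3 : ℕ) : ℚ))
    (C' := ((2 : ℕ) : ℚ) - ((3 : ℕ) : ℚ)) (a := 20) (b := 21) (c := 22) (rl_int _ _ _ (by decide))
    (rl_int _ _ _ (by decide)) (rl_int _ _ _ (by decide)) (by norm_num) (by norm_num) (by norm_num)
    (by norm_num) (by norm_num) (by norm_num) (by norm_num) (by norm_num) (by norm_num) chkT3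
    (fun e => by unfold ser; rw [er3, prod3 _ _ _ (by norm_num) (by norm_num) (by norm_num)])
    (neg_rl _ _ (by decide)) (by norm_num)

/-! ### the weights -/

theorem inv_rl (l : ℕ) (hl : l < 3) : Rl (1 / ((l : ℚ) + 1)) ((inv23 l : ℕ) : ZMod 23) := by
  rw [one_div]
  have h1 : Rl ((l : ℚ) + 1) ((l : ZMod 23) + 1) := (Rl.nat l).add Rl.one
  refine h1.inv ?_
  interval_cases l <;> decide

theorem hs_rl (i m : ℕ) (hm : m ≤ 3) : Rl (hs i m) ((hN i m : ℕ) : ZMod 23) := by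
  have h1 : ((hN i m : ℕ) : ZMod 23) = ∑ l ∈ Finset.range m, ((inv23 l : ℕ) : ZMod 23) ^ i := by
    clear hm
    induction m with
    | zero => simp [hN]
    | succ m ih =>
      have h2 : hN i (m + 1) = hN i m + inv23 m ^ i := rfl
      rw [h2, Finset.sum_range_succ, ← ih]
      push_cast
      rfl
  rw [h1]
  unfold hs
  refine Rl.sum _ _ _ fun l hl => ?_
  rw [Finset.mem_range] at hl
  rw [← one_div_pow]
  exact (inv_rl l (by omega)).pow i

theorem w_rl {W j j' : ℕ} (h : all (chkW W j j') 99 = true) (hj : j ≤ 3) (hj' : j' ≤ 3) (k : ℕ) (hk : k < 99) :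
    Rl (hs (k + 1) j + (-1) ^ (k + 1 + 1) * hs (k + 1) j') ((dg W k : ℕ) : ZMod 23) := by
  have h1 : (hN (k + 1) j + 22 ^ (k + 2) * hN (k + 1) j') % 23 = dg W k :=
    Nat.eq_of_beq_eq_true (all_spec h k hk)
  have h2 : Rl (-1 : ℚ) (((22 : ℕ) : ℕ) : ZMod 23) := by
    have := neg_rl 1 22 (by decide)
    simpa using this
  rw [← h1, ZMod.natCast_mod]
  have h3 := (hs_rl (k + 1) j hj).add ((h2.pow (k + 1 + 1)).mul (hs_rl (k + 1) j' hj'))
  convert h3 using 1
  push_cast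
  rfl

/-! ### the sequences -/

theorem range4 {M : Type} [AddCommMonoid M] (f : ℕ → M) :
    ∑ j ∈ Finset.range 4, f j = (f 0 + f 1) + (f 2 + f 3) := by
  rw [Finset.sum_range_succ, Finset.sum_range_succ, Finset.sum_range_succ, Finset.sum_range_succ,
    Finset.sum_range_zero, zero_add]
  abel

theorem Fm_rl (e : ℕ) (he : e < 263) : Rl (Fm e) ((dg LA e : ℕ) : ZMod 23) := by
  have h1 : (22 * ((cw TL0 WL0 0 e + cw TL1 WL1 22 e) + (cw TL2 WL2 21 e + cw TL3 WL3 20 e))) % 23 = dg LA e :=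
    Nat.eq_of_beq_eq_true (all_spec chkA_all e he)
  have h2 := ((dat0.sum he (fun i => hs i 0 + (-1) ^ (i + 1) * hs i (3 - 0))
    (w_rl chkW0 (by norm_num) (by norm_num))).add
    (dat1.sum he (fun i => hs i 1 + (-1) ^ (i + 1) * hs i (3 - 1))
    (w_rl chkW1 (by norm_num) (by norm_num)))).add
    ((dat2.sum he (fun i => hs i 2 + (-1) ^ (i + 1) * hs i (3 - 2))
    (w_rl chkW2 (by norm_num) (by norm_num))).add
    (dat3.sum he (fun i => hs i 3 + (-1) ^ (i + 1) * hs i (3 - 3))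
    (w_rl chkW3 (by norm_num) (by norm_num))))
  rw [← h1, ZMod.natCast_mod]
  unfold Fm
  rw [range4]
  convert h2.neg using 1
  have h3 : ((22 : ℕ) : ZMod 23) = -1 := by decide
  rw [Nat.cast_mul, h3]
  push_cast
  ring

theorem Bm_rl {L i0 d : ℕ} (h : all (chkB L d) 263 = true) (hd : 99 - i0 = d) (hd' : d ≤ 98)
    (e : ℕ) (he : e < 263) : Rl (Bm i0 e) ((dg L e : ℕ) : ZMod 23) := by
  have h1 : (2 * ((cf TL0 0 e d + cf TL1 22 e d) + (cf TL2 21 e d + cf TL3 20 e d))) % 23 = dg L e :=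
    Nat.eq_of_beq_eq_true (all_spec h e he)
  have h2 := (Rl.nat 2).mul (((dat0.coeff he hd').add (dat1.coeff he hd')).add
    ((dat2.coeff he hd').add (dat3.coeff he hd')))
  rw [← h1, ZMod.natCast_mod]
  unfold Bm
  rw [range4, hd]
  convert h2 using 1
  all_goals
    push_cast
    rfl

/-! ### the matrix -/

theorem dot_eq (L : ℕ) (ws : List ℕ) (i : ℕ) :
    dot L ws i = (∑ j ∈ Finset.range ws.length, C (dg L (i + j)) * Pol (ws.getD j 0) 198).eval B2 := by
  induction ws generalizing i with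
  | nil => simp [dot]
  | cons w ws ih =>
    have h1 : dot L (w :: ws) i = dg L i * pk B2 w 198 + dot L ws (i + 1) := rfl
    have h2 : ∑ j ∈ Finset.range ws.length, C (dg L (i + (j + 1))) * Pol ((w :: ws).getD (j + 1) 0) 198 =
        ∑ j ∈ Finset.range ws.length, C (dg L (i + 1 + j)) * Pol (ws.getD j 0) 198 := by
      refine Finset.sum_congr rfl fun j _ => ?_
      rw [List.getD_cons_succ, show i + (j + 1) = i + 1 + j by omega]
    rw [h1, ih, List.length_cons, Finset.sum_range_succ', h2, eval_add, eval_mul, eval_C,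
      List.getD_cons_zero, add_zero, pk_eq, add_comm]

theorem coeff_dot {L : ℕ} {ws : List ℕ} (hl : ws.length = 66) (i k : ℕ) :
    (∑ j ∈ Finset.range ws.length, C (dg L (i + j)) * Pol (ws.getD j 0) 198).coeff k =
      if k < 198 then ∑ j ∈ Finset.range 66, dg L (i + j) * dg (ws.getD j 0) k else 0 := by
  rw [finsetSum_coeff, hl]
  split_ifs with hk
  · refine Finset.sum_congr rfl fun j _ => ?_
    rw [coeff_C_mul, Pol_coeff, if_pos hk]
  · refine Finset.sum_eq_zero fun j _ => ?_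
    rw [coeff_C_mul, Pol_coeff, if_neg hk, mul_zero]

theorem sum_le (L k i : ℕ) (ws : List ℕ) :
    ∑ j ∈ Finset.range 66, dg L (i + j) * dg (ws.getD j 0) k ≤ 66 * 961 := by
  calc _ ≤ ∑ _j ∈ Finset.range 66, 961 := by
        refine Finset.sum_le_sum fun j _ => ?_
        calc _ ≤ 31 * 31 := Nat.mul_le_mul (Nat.le_of_lt_succ (dg_lt _ _)) (Nat.le_of_lt_succ (dg_lt _ _))
          _ = 961 := by norm_num
    _ = 66 * 961 := by simp

theorem row_spec {L0 L1 L2 : ℕ} {c0 c1 c2 : List ℕ} (h0 : c0.length = 66) (h1 : c1.length = 66)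
    (h2 : c2.length = 66) (h : all (chkRow L0 L1 L2 c0 c1 c2) 198 = true) (i : ℕ) (hi : i < 198)
    (k : ℕ) (hk : k < 198) :
    (∑ j ∈ Finset.range 66, dg L0 (i + j) * dg (c0.getD j 0) k + ∑ j ∈ Finset.range 66, dg L1 (i + j) * dg (c1.getD j 0) k +
      ∑ j ∈ Finset.range 66, dg L2 (i + j) * dg (c2.getD j 0) k) % 23 = if k = i then 1 else 0 := by
  have h3 : dB B2 (dot L0 c0 i + dot L1 c1 i + dot L2 c2 i) k % 23 = cond (Nat.beq k i) 1 0 :=
    Nat.eq_of_beq_eq_true (all_spec (all_spec h i hi) k hk)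
  rw [dot_eq, dot_eq, dot_eq, ← eval_add, ← eval_add, dig] at h3
  · rw [coeff_add, coeff_add, coeff_dot h0, coeff_dot h1, coeff_dot h2, if_pos hk, if_pos hk, if_pos hk] at h3
    rw [h3]
    by_cases hki : k = i
    · rw [if_pos hki, hki, Nat.beq_refl]
      rfl
    · rw [if_neg hki]
      have : Nat.beq k i = false := by
        rw [Bool.eq_false_iff]
        intro hc
        exact hki (Nat.eq_of_beq_eq_true hc)
      rw [this]
      rfl
  · intro l
    rw [coeff_add, coeff_add, coeff_dot h0, coeff_dot h1, coeff_dot h2]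
    have e0 := sum_le L0 l i c0
    have e1 := sum_le L1 l i c1
    have e2 := sum_le L2 l i c2
    unfold B2
    split_ifs
    · omega
    · omega

theorem det_ne {ι : Type} [Fintype ι] [DecidableEq ι] (M : Matrix ι ι ℚ) (N B : Matrix ι ι (ZMod 23))
    (h : ∀ i j, Rl (M i j) (N i j)) (hB : N * B = 1) : M.det ≠ 0 := by
  intro h0
  choose Z hZ hZ' using h
  have e1 : (Matrix.of Z).det = 0 := by
    have h1 : (Matrix.of Z).map (PadicInt.Coe.ringHom (p := 23)) = M.map (Rat.castHom ℚ_[23]) := by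
      ext i j
      exact hZ i j
    have h2 := RingHom.map_det (PadicInt.Coe.ringHom (p := 23)) (Matrix.of Z)
    have h3 := RingHom.map_det (Rat.castHom ℚ_[23]) M
    rw [h0, map_zero] at h3
    have h4 : (PadicInt.Coe.ringHom (p := 23)) (Matrix.of Z).det = 0 := by
      rw [h2, RingHom.mapMatrix_apply, h1, h3, RingHom.mapMatrix_apply]
    exact Subtype.ext h4
  have e2 : N.det = 0 := by
    have h1 : (Matrix.of Z).map (PadicInt.toZMod (p := 23)) = N := by
      ext i j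
      exact hZ' i j
    have h2 := RingHom.map_det (PadicInt.toZMod (p := 23)) (Matrix.of Z)
    rw [e1, map_zero, RingHom.mapMatrix_apply, h1] at h2
    exact h2.symm
  have e4 := congrArg Matrix.det hB
  rw [Matrix.det_mul, e2, zero_mul, Matrix.det_one] at e4
  exact absurd e4 (by decide)

theorem main {L2 i1 : ℕ} {c0 c1 c2 : List ℕ} (h0 : c0.length = 66) (h1 : c1.length = 66)
    (h2 : c2.length = 66) (h : all (chkRow LA LB3 L2 c0 c1 c2) 198 = true)
    (hL : ∀ e < 263, Rl (Bm i1 e) ((dg L2 e : ℕ) : ZMod 23)) : (Mloc i1).det ≠ 0 := by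
  have hB3 := Bm_rl chkB3_all (i0 := 3) rfl (by norm_num)
  refine det_ne (Mloc i1)
    (Matrix.of fun r c => if c.1 = 0 then ((dg LA (r.1.1 * 66 + r.2.1 + c.2.1) : ℕ) : ZMod 23)
      else if c.1 = 1 then ((dg LB3 (r.1.1 * 66 + r.2.1 + c.2.1) : ℕ) : ZMod 23)
      else ((dg L2 (r.1.1 * 66 + r.2.1 + c.2.1) : ℕ) : ZMod 23))
    (Matrix.of fun c r => if c.1 = 0 then ((dg (c0.getD c.2.1 0) (r.1.1 * 66 + r.2.1) : ℕ) : ZMod 23)
      else if c.1 = 1 then ((dg (c1.getD c.2.1 0) (r.1.1 * 66 + r.2.1) : ℕ) : ZMod 23)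
      else ((dg (c2.getD c.2.1 0) (r.1.1 * 66 + r.2.1) : ℕ) : ZMod 23)) ?_ ?_
  · intro r c
    have hr1 := r.1.2
    have hr2 := r.2.2
    have hc2 := c.2.2
    have hlt : r.1.1 * 66 + r.2.1 + c.2.1 < 263 := by omega
    unfold Mloc
    rw [Matrix.of_apply, Matrix.of_apply]
    split_ifs
    · exact Fm_rl _ hlt
    · exact hB3 _ hlt
    · exact hL _ hlt
  · ext r r'
    have hr1 := r.1.2
    have hr2 := r.2.2
    have hr1' := r'.1.2
    have hr2' := r'.2.2
    have key := row_spec h0 h1 h2 h (r.1.1 * 66 + r.2.1) (by omega) (r'.1.1 * 66 + r'.2.1) (by omega)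
    rw [Matrix.mul_apply, Fintype.sum_prod_type, Fin.sum_univ_three]
    simp only [Matrix.of_apply]
    have n1 : (1 : Fin 3) ≠ 0 := by decide
    have n2 : (2 : Fin 3) ≠ 0 := by decide
    have n3 : (2 : Fin 3) ≠ 1 := by decide
    simp only [if_true, if_neg n1, if_neg n2, if_neg n3]
    have e1 : ∀ (L : ℕ) (w : List ℕ), ∑ x : Fin 66, ((dg L (r.1.1 * 66 + r.2.1 + x.1) : ℕ) : ZMod 23) *
        ((dg (w.getD x.1 0) (r'.1.1 * 66 + r'.2.1) : ℕ) : ZMod 23) =
        ((∑ j ∈ Finset.range 66, dg L (r.1.1 * 66 + r.2.1 + j) * dg (w.getD j 0) (r'.1.1 * 66 + r'.2.1) : ℕ) :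
          ZMod 23) := by
      intro L w
      rw [← Fin.sum_univ_eq_sum_range
        (fun j => dg L (r.1.1 * 66 + r.2.1 + j) * dg (w.getD j 0) (r'.1.1 * 66 + r'.2.1)) 66, Nat.cast_sum]
      refine Finset.sum_congr rfl fun x _ => ?_
      rw [Nat.cast_mul]
    rw [e1, e1, e1, ← Nat.cast_add, ← Nat.cast_add, ← ZMod.natCast_mod, key, Matrix.one_apply]
    by_cases hrr : r = r'
    · rw [if_pos hrr, if_pos (by rw [hrr]), Nat.cast_one]
    · rw [if_neg hrr, if_neg, Nat.cast_zero]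
      intro hc
      apply hrr
      refine Prod.ext (Fin.ext ?_) (Fin.ext ?_) <;> omega

end LOC

open LOC in
/-- **the local determinant is not zero** -/
theorem LOC : S_LOC := by
  rintro i1 (rfl | rfl)
  · exact main rfl rfl rfl chk5 (Bm_rl chkB5_all rfl (by norm_num))
  · exact main rfl rfl rfl chk7 (Bm_rl chkB7_all rfl (by norm_num))

end Pool.Agent.L0h38.Q4
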