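import Pool.Agent.L0h38.Q4.Stm
import Pool.Agent.H337R2.Med

/-!
# Level conditions for integer polynomials in `x`
-/

open Polynomial Pool.Agent.H337R2

namespace Pool.Agent.L0h38.Q4

noncomputable section

namespace LV

/-- level condition: `Q` vanishes to the order `ν` at `x0` modulo `p`, with levels -/
def Lev (p : ℕ) (x0 : ℤ) (ν : ℕ) (Q : ℤ[X]) : Prop :=
  ∀ i < ν, ((p : ℤ) ^ (ν - i)) ∣ (hasseDeriv i Q).eval x0

/-- the node of the class `κ` -/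
def x0 (n κ : ℕ) : ℤ := ((n : ℤ) - κ) * ((n : ℤ) + 1 - κ)

variable {p : ℕ} [hp : Fact p.Prime]

lemma PB_sum {ι : Type*} {ρ A : ℚ} (hρ : 0 ≤ ρ) (hA : 0 ≤ A) (s : Finset ι) (f : ι → PowerSeries ℚ)
    (hf : ∀ i ∈ s, PB p ρ A (f i)) : PB p ρ A (∑ i ∈ s, f i) := by
  intro j
  rw [map_sum]
  exact padicNorm.sum_le' (fun i hi => hf i hi j) (by positivity)

lemma xP_sub (n κ : ℕ) : xP n - C ((x0 n κ : ℤ) : ℚ) = (X + C (κ : ℚ)) * (X + C (2 * (n : ℚ) + 1 - κ)) := by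
  unfold xP x0
  push_cast
  simp only [map_sub, map_mul, map_add, map_one]
  rw [show (C (2 : ℚ) : ℚ[X]) = 2 from rfl]
  ring

/-- `x(t) - x0` at the poles of the class pair of `κ` -/
lemma PB_node (n κ k : ℕ) (h : (p : ℤ) ∣ (κ : ℤ) - k ∨ (p : ℤ) ∣ 2 * (n : ℤ) + 1 - κ - k) :
    PB p (p : ℚ) (p : ℚ)⁻¹ (TS (-(k : ℚ)) (xP n - C ((x0 n κ : ℤ) : ℚ))) := by
  have hp0 : (0 : ℚ) < p := p_pos'
  have hp1 : (1 : ℚ) ≤ p := p_one'
  have hinv : (0 : ℚ) ≤ (p : ℚ)⁻¹ := inv_nonneg.2 hp0.le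
  rw [xP_sub, map_mul, TS_lin, TS_lin]
  have key : ∀ z : ℤ, (p : ℤ) ∣ z → PB p (p : ℚ) (p : ℚ)⁻¹ (PowerSeries.X + PowerSeries.C (z : ℚ)) := by
    intro z hz
    apply PB.linX hp0.le hinv
    · have h3 := (padicNorm.dvd_iff_norm_le (p := p) (n := 1) (z := z)).1 (by simpa using hz)
      refine h3.trans (le_of_eq ?_)
      simp
    · rw [inv_mul_cancel₀ hp0.ne']
  have key1 : ∀ z : ℤ, PB p (p : ℚ) 1 (PowerSeries.X + PowerSeries.C (z : ℚ)) := by
    intro z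
    exact PB.linX hp0.le zero_le_one (padicNorm.of_int z) (by linarith)
  rcases h with h | h
  · have h1 := PB.mul hp0.le hinv zero_le_one (key _ h) (key1 (2 * n + 1 - κ - k))
    rw [mul_one] at h1
    push_cast at h1
    convert h1 using 4 <;> ring
  · have h1 := PB.mul hp0.le zero_le_one hinv (key1 (κ - k)) (key _ h)
    rw [one_mul] at h1
    push_cast at h1
    convert h1 using 4 <;> ring

/-- polynomials with a level condition at the poles of the class pair -/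
theorem PB_lev (n κ k ν : ℕ) (h : (p : ℤ) ∣ (κ : ℤ) - k ∨ (p : ℤ) ∣ 2 * (n : ℤ) + 1 - κ - k) (Q : ℤ[X])
    (hQ : Lev p (x0 n κ) ν Q) :
    PB p (p : ℚ) ((p : ℚ)⁻¹ ^ ν) (TS (-(k : ℚ)) ((Q.map (Int.castRingHom ℚ)).comp (xP n))) := by
  have hp0 : (0 : ℚ) < p := p_pos'
  have hp1 : (1 : ℚ) ≤ p := p_one'
  have hinv : (0 : ℚ) ≤ (p : ℚ)⁻¹ := inv_nonneg.2 hp0.le
  have hinv1 : (p : ℚ)⁻¹ ≤ 1 := inv_le_one_of_one_le₀ hp1
  have h1 : (Q.map (Int.castRingHom ℚ)).comp (xP n) = ∑ i ∈ Finset.range (Q.natDegree + 1),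
      C (((hasseDeriv i Q).eval (x0 n κ) : ℤ) : ℚ) * (xP n - C ((x0 n κ : ℤ) : ℚ)) ^ i := by
    have h2 := sum_taylor_eq Q (x0 n κ)
    rw [sum_over_range' _ _ (Q.natDegree + 1) (by rw [natDegree_taylor]; omega)] at h2
    · conv_lhs => rw [← h2]
      rw [Polynomial.map_sum, Polynomial.sum_comp]
      apply Finset.sum_congr rfl
      intro i _
      simp [taylor_coeff]
    · simp
  rw [h1, map_sum]
  apply PB_sum hp0.le (by positivity)
  intro i _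
  rw [map_mul, map_pow, TS_C]
  have h3 := PB.pow hp0.le hinv (PB_node n κ k h) i
  by_cases hi : i < ν
  · have h4 := (padicNorm.dvd_iff_norm_le (p := p) (n := ν - i) (z := (hasseDeriv i Q).eval (x0 n κ))).1
      (by exact_mod_cast hQ i hi)
    have h5 := PB.mul hp0.le (by positivity) (by positivity) (PB.C hp0.le (by positivity) h4) h3
    refine PB.mono hp0.le h5 (le_of_eq ?_)
    rw [zpow_neg, zpow_natCast, ← inv_pow, ← pow_add]
    congr 1
    omega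
  · have h5 := PB.mul hp0.le zero_le_one (by positivity) (PB.C hp0.le zero_le_one
      (padicNorm.of_int ((hasseDeriv i Q).eval (x0 n κ)))) h3
    rw [one_mul] at h5
    refine PB.mono hp0.le h5 ?_
    exact pow_le_pow_of_le_one hinv hinv1 (by omega)

/-- index set of the level conditions -/
abbrev Ix (K : Finset ℕ) (μ : ℕ → ℕ) : Type := Σ κ : K, Fin (μ κ)

/-- values of the Hasse derivatives modulo powers of `p` -/
def lv (p : ℕ) (n : ℕ) (K : Finset ℕ) (μ : ℕ → ℕ) :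
    ℤ[X] →+ ((x : Ix K μ) → ZMod (p ^ (μ x.1 - x.2))) where
  toFun Q x := (((hasseDeriv x.2 Q).eval (x0 n x.1) : ℤ) : ZMod (p ^ (μ x.1 - x.2)))
  map_zero' := by
    funext x
    simp
  map_add' P Q := by
    funext x
    simp

omit hp in
lemma lv_ker (n : ℕ) (K : Finset ℕ) (μ : ℕ → ℕ) (Q : ℤ[X]) (h : lv p n K μ Q = 0) (κ : ℕ) (hκ : κ ∈ K) :
    Lev p (x0 n κ) (μ κ) Q := by
  intro i hi
  have h1 := congrFun h ⟨⟨κ, hκ⟩, ⟨i, hi⟩⟩
  change (((hasseDeriv i Q).eval (x0 n κ) : ℤ) : ZMod (p ^ (μ κ - i))) = 0 at h1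
  rw [ZMod.intCast_zmod_eq_zero_iff_dvd] at h1
  exact_mod_cast h1

lemma fin_lv (K : Finset ℕ) (μ : ℕ → ℕ) : Finite ((x : Ix K μ) → ZMod (p ^ (μ x.1 - x.2))) := by
  have : ∀ x : Ix K μ, NeZero (p ^ (μ x.1 - x.2)) := fun x => ⟨pow_ne_zero _ hp.out.ne_zero⟩
  infer_instance

omit hp in
lemma sum_T1 (m : ℕ) : ∑ i : Fin m, (m - (i : ℕ)) = T1 m := by
  rw [Fin.sum_univ_eq_sum_range (fun i => m - i) m]
  have h := Finset.sum_range_reflect (fun i => m - i) m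
  have h2 : ∑ j ∈ Finset.range m, (m - (m - 1 - j)) = ∑ j ∈ Finset.range m, (j + 1) := by
    apply Finset.sum_congr rfl
    intro j hj
    rw [Finset.mem_range] at hj
    omega
  rw [← h, h2]
  unfold T1
  have h3 := Finset.sum_range_id_mul_two (m + 1)
  rw [Finset.sum_range_succ' (fun i => i) m] at h3
  simp only [add_zero, add_tsub_cancel_right] at h3
  have h4 : (m + 1) * m = m * (m + 1) := mul_comm _ _
  omega

omit hp in
lemma card_lv (K : Finset ℕ) (μ : ℕ → ℕ) :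
    Nat.card ((x : Ix K μ) → ZMod (p ^ (μ x.1 - x.2))) = p ^ (∑ κ ∈ K, T1 (μ κ)) := by
  rw [Nat.card_pi]
  simp only [Nat.card_zmod]
  rw [Finset.prod_pow_eq_pow_sum]
  congr 1
  rw [Fintype.sum_sigma]
  simp only [sum_T1]
  exact Finset.sum_coe_sort K (fun κ => T1 (μ κ))

end LV

end

end Pool.Agent.L0h38.Q4
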