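import Pool.Agent.L0h38.Q4.Stm
import Pool.Agent.N334.W.NUM

/-!
# Part NUMA: numerical inequality (helper88)
-/

namespace Pool.Agent.L0h38.Q4

namespace NUMA_

open Pool.Agent.N334.W.NUMaux

/-- the constant in terms of logarithms of primes -/
lemma const_eq : cA1 + cX1 = 95964 - 27840046 * Real.log 2 + 18376875 / 2 * Real.log 3 +
    496840 * Real.log 5 + 4329031 * Real.log 7 + 107811 / 2 * Real.log 11 - 135531 / 2 * Real.log 37 := by
  have l4 : Real.log 4 = 2 * Real.log 2 := by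
    rw [show (4 : ℝ) = 2 ^ 2 by norm_num, Real.log_pow]; norm_num
  have l8 : Real.log 8 = 3 * Real.log 2 := by
    rw [show (8 : ℝ) = 2 ^ 3 by norm_num, Real.log_pow]; norm_num
  have l16 : Real.log 16 = 4 * Real.log 2 := by
    rw [show (16 : ℝ) = 2 ^ 4 by norm_num, Real.log_pow]; norm_num
  have l33 : Real.log 33 = Real.log 3 + Real.log 11 := by
    rw [← Real.log_mul (by norm_num) (by norm_num)]; norm_num
  have l35 : Real.log 35 = Real.log 5 + Real.log 7 := by
    rw [← Real.log_mul (by norm_num) (by norm_num)]; norm_num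
  have l72 : Real.log (7 / 2) = Real.log 7 - Real.log 2 := Real.log_div (by norm_num) (by norm_num)
  have l12 : Real.log (1 / 2) = - Real.log 2 := by
    rw [Real.log_div (by norm_num) (by norm_num), Real.log_one]; ring
  have l152 : Real.log (15 / 2) = Real.log 3 + Real.log 5 - Real.log 2 := by
    rw [← Real.log_mul (by norm_num) (by norm_num), ← Real.log_div (by norm_num) (by norm_num)]; norm_num
  have l314 : Real.log (31 / 4) = Real.log 31 - 2 * Real.log 2 := by
    rw [Real.log_div (by norm_num) (by norm_num), l4]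
  have l312 : Real.log (31 / 2) = Real.log 31 - Real.log 2 := Real.log_div (by norm_num) (by norm_num)
  have l14 : Real.log (1 / 4) = - (2 * Real.log 2) := by
    rw [Real.log_div (by norm_num) (by norm_num), Real.log_one, l4]; ring
  have l9 : Real.log 9 = 2 * Real.log 3 := by
    rw [show (9 : ℝ) = 3 ^ 2 by norm_num, Real.log_pow]; norm_num
  have l634 : Real.log (63 / 4) = 2 * Real.log 3 + Real.log 7 - 2 * Real.log 2 := by
    rw [← l9, ← l4, ← Real.log_mul (by norm_num) (by norm_num), ← Real.log_div (by norm_num) (by norm_num)]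
    norm_num
  unfold cA1 cX1 cDX cDY G2 N334.W.G2
  rw [l72, l12, l152, l314, l312, l14, l634, l33, l35, l16, l8, l4]
  ring

end NUMA_

open NUMA_ Pool.Agent.N334.W.NUMaux

theorem NUMA : S_NUMA := by
  unfold S_NUMA
  rw [const_eq]
  have l2a := Real.log_two_gt_d9
  have l2b := Real.log_two_lt_d9
  have p3 : (3 : ℝ) ^ 306 ≤ 2 ^ 485 := by
    rw [show (306 : ℕ) = 102 * 3 from rfl, show (485 : ℕ) = 161 * 3 + 2 from rfl, pow_mul, pow_add, pow_mul]
    norm_num
  have p7 : (7 : ℝ) ^ 353 ≤ 2 ^ 991 := by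
    rw [show (353 : ℕ) = 88 * 4 + 1 from rfl, show (991 : ℕ) = 247 * 4 + 3 from rfl, pow_add, pow_mul, pow_add,
      pow_mul]
    norm_num
  have p5 : (5 : ℝ) ^ 205 ≤ 2 ^ 476 := by
    rw [show (205 : ℕ) = 102 * 2 + 1 from rfl, show (476 : ℕ) = 238 * 2 from rfl, pow_add, pow_mul, pow_mul]
    norm_num
  have h3 : Real.log 3 ≤ ((485 : ℕ) : ℝ) / ((306 : ℕ) : ℝ) * Real.log 2 :=
    log_le_of_pow (by norm_num) (by norm_num) p3
  have h7 : Real.log 7 ≤ ((991 : ℕ) : ℝ) / ((353 : ℕ) : ℝ) * Real.log 2 :=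
    log_le_of_pow (by norm_num) (by norm_num) p7
  have h5 : Real.log 5 ≤ ((476 : ℕ) : ℝ) / ((205 : ℕ) : ℝ) * Real.log 2 :=
    log_le_of_pow (by norm_num) (by norm_num) p5
  have h11 : Real.log 11 ≤ ((128 : ℕ) : ℝ) / ((37 : ℕ) : ℝ) * Real.log 2 :=
    log_le_of_pow (by norm_num) (by norm_num) (by norm_num)
  have h37 : ((224 : ℕ) : ℝ) / ((43 : ℕ) : ℝ) * Real.log 2 ≤ Real.log 37 :=
    le_log_of_pow (by norm_num) (by norm_num)
  push_cast at h3 h7 h5 h11 h37
  nlinarith [h3, h7, h5, h11, h37, l2a, l2b]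

end Pool.Agent.L0h38.Q4
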