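import Pool.Agent.L0h38.Q4.Stm
import Pool.Agent.N334.W.NUM

/-!
# NUMP: the final numerical inequality of the `p`-adic part
-/

open Filter Topology

namespace Pool.Agent.L0h38.Q4

noncomputable section

namespace NUMP_

/-- an upper bound of Euler's constant -/
lemma gamma_lt : Real.eulerMascheroniConstant < 761 / 280 - 3 * Real.log 2 := by
  have h1 := Real.eulerMascheroniConstant_lt_eulerMascheroniSeq' 8
  have h2 : Real.eulerMascheroniSeq' 8 = 761 / 280 - Real.log 8 := by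
    rw [Real.eulerMascheroniSeq']
    norm_num [harmonic, Finset.sum_range_succ]
  have h3 : Real.log 8 = 3 * Real.log 2 := by
    rw [show (8 : ℝ) = 2 ^ 3 by norm_num, Real.log_pow]
    norm_num
  rw [h2, h3] at h1
  exact h1

end NUMP_

open NUMP_ in
/-- **NUMP** -/
theorem NUMP : S_NUMP := by
  intro C
  set γ := Real.eulerMascheroniConstant with hγ
  have hγ2 := gamma_lt
  rw [← hγ] at hγ2
  have l2a := Real.log_two_gt_d9
  have hD := Pool.Agent.N334.W.NUMaux.tendsto_Hn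
  rw [← hγ] at hD
  have hE : Tendsto (fun J : ℕ => 1 / (J : ℝ)) atTop (𝓝 0) := tendsto_one_div_atTop_nhds_zero_nat
  have hL : -9801 * γ + (-22869 * Real.log 2 + 13068 * γ + 48161 / 4) + (C + 660 - 29403 / 2) * 0 -
      80 * (0 * 0) < -1700 := by
    linarith
  have hlim : Tendsto (fun J : ℕ => -9801 * (Hn J - Real.log J) +
      (-22869 * Real.log 2 + 13068 * γ + 48161 / 4) + (C + 660 - 29403 / 2) * (1 / (J : ℝ)) -
      80 * ((1 / (J : ℝ)) * (1 / (J : ℝ)))) atTop
      (𝓝 (-9801 * γ + (-22869 * Real.log 2 + 13068 * γ + 48161 / 4) + (C + 660 - 29403 / 2) * 0 -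
      80 * (0 * 0))) :=
    (((hD.const_mul _).add tendsto_const_nhds).add (hE.const_mul _)).sub ((hE.mul hE).const_mul _)
  have hev := hlim.eventually (gt_mem_nhds hL)
  obtain ⟨J, hJ, hJ1⟩ := (hev.and (eventually_ge_atTop 2)).exists
  refine ⟨J, hJ1, ?_⟩
  have hJ0 : (J : ℝ) ≠ 0 := by
    have : (2 : ℝ) ≤ J := by exact_mod_cast hJ1
    linarith
  have hpred := Pool.Agent.N334.W.NUMaux.Hn_pred (J := J) (by omega)
  have h4 : Real.log 4 = 2 * Real.log 2 := by
    rw [show (4 : ℝ) = 2 ^ 2 by norm_num, Real.log_pow]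
    norm_num
  have hpred' : Hn (J - 1) = Hn J - 1 / J := hpred
  refine lt_of_eq_of_lt ?_ hJ
  unfold e2
  rw [hpred', h4]
  have e1 : (4 : ℝ) / J = 4 * (1 / J) := by ring
  have e2 : (16 : ℝ) / (J : ℝ) ^ 2 = 16 * ((1 / (J : ℝ)) * (1 / (J : ℝ))) := by
    field_simp
  have e3 : C / (J : ℝ) = C * (1 / J) := by ring
  rw [e1, e2, e3]
  ring

end

end Pool.Agent.L0h38.Q4
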