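import Pool.Agent.L0h38.Q4.Stm2
import Pool.Agent.L0h38.Q4.LV
import Pool.Agent.L0h38.Q4.E2
import Pool.Agent.H336R2.HD.H1
import Pool.Agent.H337R2.Sym

/-!
# NVB: the diagonal blocks (`n = 2p`)
-/

open Polynomial Pool.Agent.H337R2

namespace Pool.Agent.L0h38.Q4

noncomputable section

namespace NVB_

variable {p : ℕ} [hp : Fact p.Prime]

/-! ### the exponent -/

lemma eP_val (k : ℕ) : eP (2 * p) p k = 99 := by
  have hp0 := hp.out.pos
  have h1 : Np (2 * p) p k = 4 := by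
    rw [E2_.Np_count (2 * p) p k hp0, Nat.count_modEq_card _ hp0]
    have h2 : 2 * (2 * p) = 4 * p := by ring
    rw [h2, Nat.mul_div_cancel _ hp0, Nat.mul_mod_left]
    simp
  have h3 : (2 * (2 * p) - 1) / p = 3 := by
    have h4 : 2 * (2 * p) - 1 = (p - 1) + p * 3 := by omega
    rw [h4, Nat.add_mul_div_left _ _ hp0, Nat.div_eq_of_lt (by omega)]
  unfold eP
  rw [h1, h3]
  norm_num

/-! ### the numerator -/

theorem inv0 : (0 : ℚ) ≤ (p : ℚ)⁻¹ := inv_nonneg.2 p_pos'.le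

/-- the polynomial -/
def Qr (p r e : ℕ) : ℚ[X] := XN (2 * p) r ^ e * OT p r 264

/-- the numerator in `t` -/
def EM (p : ℕ) (Q : ℚ[X]) : ℚ[X] := Q.comp (xP (2 * p))

omit hp in
theorem XN_comp (s : ℕ) : (XN (2 * p) s).comp (xP (2 * p)) =
    xP (2 * p) - C ((LV.x0 (2 * p) s : ℤ) : ℚ) := by
  unfold XN LV.x0
  simp only [Polynomial.sub_comp, Polynomial.X_comp, Polynomial.C_comp]
  push_cast
  rfl

omit hp in
theorem EE_Qr (r e : ℕ) : EM p (Qr p r e) = (XN (2 * p) r).comp (xP (2 * p)) ^ e *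
    ∏ s ∈ (Finset.Icc 1 ((p - 1) / 2)).erase r, (XN (2 * p) s).comp (xP (2 * p)) ^ 264 := by
  unfold EM Qr OT
  simp only [Polynomial.mul_comp, Polynomial.pow_comp, Polynomial.prod_comp]

theorem PB_lin1 (a : ℤ) (k : ℕ) : PB p (p : ℚ) 1 (TS (-(k : ℚ)) (X + C (a : ℚ))) := by
  rw [TS_lin]
  apply PB.linX p_pos'.le zero_le_one
  · have := padicNorm.of_int (p := p) (-(k : ℤ) + a)
    push_cast at this
    exact this
  · rw [one_mul]; exact p_one'

theorem PB_XN (s k : ℕ) : PB p (p : ℚ) 1 (TS (-(k : ℚ)) ((XN (2 * p) s).comp (xP (2 * p)))) := by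
  rw [XN_comp, LV.xP_sub, map_mul]
  have h1 := PB_lin1 (p := p) (s : ℤ) k
  have h2 := PB_lin1 (p := p) (2 * ((2 * p : ℕ) : ℤ) + 1 - s) k
  rw [Int.cast_natCast] at h1
  rw [show ((2 * ((2 * p : ℕ) : ℤ) + 1 - s : ℤ) : ℚ) = 2 * ((2 * p : ℕ) : ℚ) + 1 - s by push_cast; ring] at h2
  have h3 := PB.mul p_pos'.le zero_le_one zero_le_one h1 h2
  rw [one_mul] at h3
  exact h3

theorem PB_XNp (s k : ℕ) (h : (p : ℤ) ∣ (s : ℤ) - k ∨ (p : ℤ) ∣ 2 * ((2 * p : ℕ) : ℤ) + 1 - s - k) :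
    PB p (p : ℚ) (p : ℚ)⁻¹ (TS (-(k : ℚ)) ((XN (2 * p) s).comp (xP (2 * p)))) := by
  rw [XN_comp]
  exact LV.PB_node (2 * p) s k h

/-- all factors of `EM` with individual bounds -/
theorem PB_EE (r e k : ℕ) (ar : ℚ) (a : ℕ → ℚ) (hr : 0 ≤ ar) (ha : ∀ r', 0 ≤ a r')
    (br : PB p (p : ℚ) ar (TS (-(k : ℚ)) ((XN (2 * p) r).comp (xP (2 * p)))))
    (b : ∀ r' ∈ (Finset.Icc 1 ((p - 1) / 2)).erase r,
      PB p (p : ℚ) (a r') (TS (-(k : ℚ)) ((XN (2 * p) r').comp (xP (2 * p))))) :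
    PB p (p : ℚ) (ar ^ e * ∏ r' ∈ (Finset.Icc 1 ((p - 1) / 2)).erase r, a r' ^ 264)
      (TS (-(k : ℚ)) (EM p (Qr p r e))) := by
  rw [EE_Qr, map_mul, map_pow, map_prod]
  simp only [map_pow]
  have h1 := PB.prod (p := p) ((Finset.Icc 1 ((p - 1) / 2)).erase r) (fun r' => a r' ^ 264)
    (fun r' => (TS (-(k : ℚ)) ((XN (2 * p) r').comp (xP (2 * p)))) ^ 264) p_pos'.le
    (fun r' _ => pow_nonneg (ha r') _) (fun r' hr' => PB.pow p_pos'.le (ha r') (b r' hr') 264)
  exact PB.mul p_pos'.le (pow_nonneg hr _) (Finset.prod_nonneg fun r' _ => pow_nonneg (ha r') _)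
      (PB.pow p_pos'.le hr br e) h1

/-- the pole `k` is in the class pair of `s` -/
def Cls (p s k : ℕ) : Prop := (p : ℤ) ∣ (s : ℤ) - k ∨ (p : ℤ) ∣ 2 * ((2 * p : ℕ) : ℤ) + 1 - s - k

theorem PB_near (r e k : ℕ) (h : Cls p r k) :
    PB p (p : ℚ) ((p : ℚ)⁻¹ ^ e) (TS (-(k : ℚ)) (EM p (Qr p r e))) := by
  have := PB_EE (p := p) r e k (p : ℚ)⁻¹ (fun _ => 1) inv0 (fun _ => zero_le_one)
    (PB_XNp r k h) (fun r' _ => PB_XN r' k)
  simpa using this

theorem PB_one (r e k : ℕ) : PB p (p : ℚ) 1 (TS (-(k : ℚ)) (EM p (Qr p r e))) := by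
  have := PB_EE (p := p) r e k 1 (fun _ => 1) zero_le_one (fun _ => zero_le_one)
    (PB_XN r k) (fun r' _ => PB_XN r' k)
  simpa using this

theorem PB_far (r e k s : ℕ) (hs : s ∈ Finset.Icc 1 ((p - 1) / 2)) (hne : s ≠ r)
    (h : Cls p s k) :
    PB p (p : ℚ) ((p : ℚ)⁻¹ ^ 264) (TS (-(k : ℚ)) (EM p (Qr p r e))) := by
  classical
  have := PB_EE (p := p) r e k 1 (fun r' => if r' = s then (p : ℚ)⁻¹ else 1)
    zero_le_one (fun r' => by split_ifs; exacts [inv0, zero_le_one]) (PB_XN r k)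
    (fun r' _ => by
      split_ifs with h'
      · rw [h']; exact PB_XNp s k h
      · exact PB_XN r' k)
  have h2 : ∏ r' ∈ (Finset.Icc 1 ((p - 1) / 2)).erase r, (if r' = s then (p : ℚ)⁻¹ else 1) ^ 264 =
      (p : ℚ)⁻¹ ^ 264 := by
    rw [Finset.prod_eq_single s]
    · rw [if_pos rfl]
    · intro b _ hb
      rw [if_neg hb, one_pow]
    · intro h3
      exact absurd (Finset.mem_erase.2 ⟨hne, hs⟩) h3
  rw [h2] at this
  simpa using this

/-- the class pairs cover all classes except the self-mirrored one -/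
theorem exists_rep (hp2 : p ≠ 2) (k : ℕ) (hk : ¬ (p : ℤ) ∣ 2 * (k : ℤ) - (2 * ((2 * p : ℕ) : ℤ) + 1)) :
    ∃ s ∈ Finset.Icc 1 ((p - 1) / 2), Cls p s k := by
  have hp0 := hp.out.pos
  have hp1 := hp.out.one_lt
  have hodd := hp.out.eq_two_or_odd.resolve_left hp2
  have hm := Nat.mod_lt k hp0
  have hdm := Nat.div_add_mod k p
  have hdz : (k : ℤ) = p * ((k / p : ℕ) : ℤ) + ((k % p : ℕ) : ℤ) := by exact_mod_cast hdm.symm
  set m := k % p with hmd
  set d := k / p with hdd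
  have hm2 : 2 * m ≠ p + 1 := by
    intro h
    apply hk
    refine ⟨2 * d - 3, ?_⟩
    have h' : (2 : ℤ) * m = p + 1 := by exact_mod_cast h
    push_cast
    linear_combination 2 * hdz + h'
  by_cases h0 : m = 0
  · -- class of `0`, mirrored `1`
    refine ⟨1, Finset.mem_Icc.2 ⟨le_rfl, by omega⟩, Or.inr ⟨4 - d, ?_⟩⟩
    rw [h0] at hdz
    push_cast at hdz ⊢
    linear_combination -hdz
  by_cases h : m ≤ (p - 1) / 2
  · refine ⟨m, Finset.mem_Icc.2 ⟨by omega, h⟩, Or.inl ⟨-(d : ℤ), ?_⟩⟩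
    linear_combination -hdz
  · refine ⟨p + 1 - m, Finset.mem_Icc.2 ⟨by omega, by omega⟩, Or.inr ⟨3 - d, ?_⟩⟩
    rw [Nat.cast_sub (by omega)]
    push_cast
    linear_combination -hdz

/-- the coefficients -/
def cf (p r e k i : ℕ) : ℚ := pa (sP (2 * p)) mP (PP (2 * p) * EM p (Qr p r e)) k i

/-- statement of `C1` for `n = 2p` -/
def C1st (p : ℕ) : Prop := ∀ (E : ℚ[X]) (k : ℕ), k ∈ sP (2 * p) → ∀ (A : ℚ), 0 ≤ A →
  PB p (p : ℚ) A (TS (-(k : ℚ)) E) → ∀ i : ℕ,
    padicNorm p (pa (sP (2 * p)) mP (PP (2 * p) * E) k i) ≤ (p : ℚ) ^ (99 - i : ℤ) * A ∧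
    ((p : ℤ) ∣ 2 * (k : ℤ) - (2 * ((2 * p : ℕ) : ℤ) + 1) →
      padicNorm p (pa (sP (2 * p)) mP (PP (2 * p) * E) k i) ≤ (p : ℚ) ^ (99 - i - 401 : ℤ) * A)

/-- bound of the coefficients in the classes of `r` -/
theorem pa_near (hC : C1st p) (r e k i : ℕ) (hk : k ∈ sP (2 * p)) (h : Cls p r k) :
    padicNorm p (cf p r e k i) ≤ (p : ℚ) ^ (99 - (i : ℤ) - e) := by
  have h1 := (hC (EM p (Qr p r e)) k hk _ (pow_nonneg inv0 e) (PB_near r e k h) i).1
  refine h1.trans (le_of_eq ?_)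
  rw [inv_pow, ← zpow_natCast, ← zpow_neg, ← zpow_add₀ p_pos'.ne']
  congr 1

/-- bound of the coefficients in the other classes -/
theorem pa_far (hC : C1st p) (hp2 : p ≠ 2) (r e k i : ℕ) (hk : k ∈ sP (2 * p)) (h : ¬ Cls p r k) :
    padicNorm p (cf p r e k i) ≤ (p : ℚ) ^ (99 - (i : ℤ) - 264) := by
  by_cases hk0 : (p : ℤ) ∣ 2 * (k : ℤ) - (2 * ((2 * p : ℕ) : ℤ) + 1)
  · have h1 := (hC (EM p (Qr p r e)) k hk _ zero_le_one (PB_one r e k) i).2 hk0
    refine h1.trans ?_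
    rw [mul_one]
    apply zpow_le_zpow_right₀ p_one'
    omega
  · obtain ⟨s, hs, h'⟩ := exists_rep (p := p) hp2 k hk0
    have h1 := (hC (EM p (Qr p r e)) k hk _ (pow_nonneg inv0 264)
      (PB_far r e k s hs (fun e => h (e ▸ h')) h') i).1
    refine h1.trans (le_of_eq ?_)
    rw [inv_pow, ← zpow_natCast, ← zpow_neg, ← zpow_add₀ p_pos'.ne']
    congr 1

/-! ### reflection -/

theorem EM_reflect (n : ℕ) (Q : ℚ[X]) :
    (Q.comp (xP n)).comp (-X - C ((2 * n + 1 : ℕ) : ℚ)) = Q.comp (xP n) := by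
  rw [Polynomial.comp_assoc]
  congr 1
  unfold xP
  simp only [Polynomial.mul_comp, Polynomial.add_comp, Polynomial.X_comp, Polynomial.C_comp]
  push_cast
  simp only [map_add, map_mul, map_one, map_natCast]
  rw [show (C (2 : ℚ) : ℚ[X]) = 2 from rfl]
  ring

theorem PP_reflect (n : ℕ) : (PP n).comp (-X - C ((2 * n + 1 : ℕ) : ℚ)) = -PP n := by
  unfold PP
  simp only [Polynomial.mul_comp, Polynomial.pow_comp, Polynomial.add_comp, Polynomial.X_comp,
    Polynomial.C_comp, Polynomial.ofNat_comp, Nat.cast_ofNat]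
  have h1 : 2 * (-X - C ((2 * n + 1 : ℕ) : ℚ)) + C ((2 * n + 1 : ℕ) : ℚ) =
      -(2 * X + C ((2 * n + 1 : ℕ) : ℚ)) := by ring
  rw [h1, Odd.neg_pow (by decide), mul_neg]

/-- reflection of the coefficients -/
theorem pa_reflect (r e : ℕ) {k i : ℕ} (h1 : 1 ≤ k) (h2 : k ≤ 4 * p) (hi : 1 ≤ i)
    (hi6 : i ≤ 99) :
    cf p r e (4 * p + 1 - k) i = (-1) ^ (i + 1) * cf p r e k i := by
  have hp0 := hp.out.pos
  unfold cf pa
  rw [if_pos hi6, if_pos hi6]
  have h5 := pfc_reflect (sP (2 * p)) mP (PP (2 * p) * EM p (Qr p r e)) (2 * (2 * p) + 1)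
    (fun k hk => by
      rw [Finset.mem_Icc] at hk ⊢
      omega)
    (fun k hk => rfl)
    (by
      rw [Polynomial.mul_comp, PP_reflect, neg_mul]
      unfold EM
      rw [EM_reflect])
    (by
      rw [Finset.sum_const, smul_eq_mul]
      apply Even.mul_right
      rw [Nat.card_Icc]
      exact ⟨2 * p, by omega⟩)
    (k := k) (Finset.mem_Icc.2 (by omega)) (j := 99 - i) (by show 99 - i < 99; omega)
  rw [show 2 * (2 * p) + 1 = 4 * p + 1 by ring] at h5
  rw [h5]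
  show -(-1) ^ (99 - (99 - i)) * _ = _
  rw [show 99 - (99 - i) = i by omega, pow_succ]
  ring

/-! ### splitting the sum over the poles -/

omit hp in
theorem mul_ne_of {r a b p : ℕ} (hr1 : 1 ≤ r) (hr2 : 2 * r < p) : r + a * p + (r + b * p) ≠ 4 * p + 1 := by
  intro h
  have h1 : 2 * r + (a + b) * p = 4 * p + 1 := by linarith
  have h2 : (a + b) * p < 4 * p := by omega
  have h3 : a + b < 4 := Nat.lt_of_mul_lt_mul_right h2
  have h4 : (a + b) * p ≤ 3 * p := Nat.mul_le_mul_right p (by omega)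
  omega

omit hp in
theorem sum_split {r : ℕ} (hr1 : 1 ≤ r) (hr2 : 2 * r < p) : ∃ S ⊆ sP (2 * p),
    (∀ k ∈ S, ∀ j ∈ Finset.range 4, k ≠ r + j * p ∧ k ≠ 4 * p + 1 - (r + j * p)) ∧
    ∀ g : ℕ → ℚ, ∑ k ∈ sP (2 * p), g k =
      (∑ j ∈ Finset.range 4, (g (r + j * p) + g (4 * p + 1 - (r + j * p)))) + ∑ k ∈ S, g k := by
  classical
  have hb : ∀ j ∈ Finset.range 4, j * p ≤ 3 * p := fun j hj => by
    rw [Finset.mem_range] at hj
    exact Nat.mul_le_mul_right p (by omega)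
  have hdis : Disjoint ((Finset.range 4).image (fun j => r + j * p))
      ((Finset.range 4).image (fun j => 4 * p + 1 - (r + j * p))) := by
    rw [Finset.disjoint_left]
    intro k hk hk'
    rw [Finset.mem_image] at hk hk'
    obtain ⟨j, hj, rfl⟩ := hk
    obtain ⟨j', hj', h⟩ := hk'
    have h1 := hb j hj
    have h2 := hb j' hj'
    refine mul_ne_of (a := j) (b := j') hr1 hr2 ?_
    omega
  have hsub : (Finset.range 4).image (fun j => r + j * p) ∪
      (Finset.range 4).image (fun j => 4 * p + 1 - (r + j * p)) ⊆ sP (2 * p) := by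
    intro k hk
    rw [Finset.mem_union, Finset.mem_image, Finset.mem_image] at hk
    rw [Finset.mem_Icc]
    rcases hk with ⟨j, hj, rfl⟩ | ⟨j, hj, rfl⟩
    · have := hb j hj
      omega
    · have := hb j hj
      omega
  refine ⟨sP (2 * p) \ ((Finset.range 4).image (fun j => r + j * p) ∪
      (Finset.range 4).image (fun j => 4 * p + 1 - (r + j * p))), Finset.sdiff_subset, ?_, ?_⟩
  · intro k hk j hj
    rw [Finset.mem_sdiff, Finset.mem_union, not_or] at hk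
    exact ⟨fun h => hk.2.1 (Finset.mem_image.2 ⟨j, hj, h.symm⟩),
      fun h => hk.2.2 (Finset.mem_image.2 ⟨j, hj, h.symm⟩)⟩
  · intro g
    have h1 : ∑ j ∈ Finset.range 4, g (r + j * p) =
        ∑ k ∈ (Finset.range 4).image (fun j => r + j * p), g k := by
      rw [Finset.sum_image]
      intro a _ b _ hab
      have : a * p = b * p := by simpa using hab
      exact Nat.eq_of_mul_eq_mul_right (by omega) this
    have h2 : ∑ j ∈ Finset.range 4, g (4 * p + 1 - (r + j * p)) =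
        ∑ k ∈ (Finset.range 4).image (fun j => 4 * p + 1 - (r + j * p)), g k := by
      rw [Finset.sum_image]
      intro a ha b hb' hab
      have h3 := hb a ha
      have h4 := hb b hb'
      have : a * p = b * p := by
        simp only at hab
        omega
      exact Nat.eq_of_mul_eq_mul_right (by omega) this
    rw [Finset.sum_add_distrib, h1, h2, ← Finset.sum_union hdis, add_comm]
    exact (Finset.sum_sdiff hsub).symm

theorem rest_class {r k : ℕ} (hr1 : 1 ≤ r) (hr2 : 2 * r < p) (h1 : 1 ≤ k) (h2 : k ≤ 4 * p)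
    (h : ∀ j ∈ Finset.range 4, k ≠ r + j * p ∧ k ≠ 4 * p + 1 - (r + j * p)) : ¬ Cls p r k := by
  have hp0 := hp.out.pos
  have h1' : (1 : ℤ) ≤ k := by exact_mod_cast h1
  have h2' : (k : ℤ) ≤ 4 * p := by exact_mod_cast h2
  have hr1' : (1 : ℤ) ≤ r := by exact_mod_cast hr1
  have hr2' : (2 : ℤ) * r < p := by exact_mod_cast hr2
  rintro (⟨m, hm⟩ | ⟨m, hm⟩)
  · -- `k = r - p m`
    have hm' : (k : ℤ) = r - p * m := by linarith
    have h3 : m < 1 := by
      by_contra hcon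
      push Not at hcon
      have := mul_le_mul_of_nonneg_left hcon (by positivity : (0 : ℤ) ≤ p)
      linarith
    have h4 : -4 < m := by
      by_contra hcon
      push Not at hcon
      have := mul_le_mul_of_nonneg_left hcon (by positivity : (0 : ℤ) ≤ p)
      linarith
    have h5 := (h (-m).toNat (by rw [Finset.mem_range]; omega)).1
    apply h5
    have h6 : (((-m).toNat : ℕ) : ℤ) = -m := Int.toNat_of_nonneg (by omega)
    have : (k : ℤ) = ((r + (-m).toNat * p : ℕ) : ℤ) := by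
      push_cast
      rw [h6, hm']
      ring
    exact_mod_cast this
  · -- `k = 4p + 1 - r - p m`
    push_cast at hm
    have hm' : (k : ℤ) = 4 * p + 1 - r - p * m := by linarith
    have h3 : -1 < m := by
      by_contra hcon
      push Not at hcon
      have h0 : m ≤ -1 := by omega
      have := mul_le_mul_of_nonneg_left h0 (by positivity : (0 : ℤ) ≤ p)
      linarith
    have h4 : m < 4 := by
      by_contra hcon
      push Not at hcon
      have := mul_le_mul_of_nonneg_left hcon (by positivity : (0 : ℤ) ≤ p)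
      linarith
    have h5 := (h m.toNat (by rw [Finset.mem_range]; omega)).2
    apply h5
    have h6 : ((m.toNat : ℕ) : ℤ) = m := Int.toNat_of_nonneg (by omega)
    have h7 : r + m.toNat * p ≤ 4 * p + 1 := by
      have : ((r + m.toNat * p : ℕ) : ℤ) ≤ ((4 * p + 1 : ℕ) : ℤ) := by
        push_cast
        rw [h6]
        linarith
      exact_mod_cast this
    have : (k : ℤ) = ((4 * p + 1 - (r + m.toNat * p) : ℕ) : ℤ) := by
      rw [Nat.cast_sub h7]
      push_cast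
      rw [h6, hm']
      ring
    exact_mod_cast this

/-! ### small facts on norms -/

theorem nadd {a b c : ℚ} (ha : padicNorm p a ≤ c) (hb : padicNorm p b ≤ c) :
    padicNorm p (a + b) ≤ c := padicNorm.nonarchimedean.trans (max_le ha hb)

theorem nsub {a b c : ℚ} (ha : padicNorm p a ≤ c) (hb : padicNorm p b ≤ c) :
    padicNorm p (a - b) ≤ c := padicNorm.sub.trans (max_le ha hb)

theorem nmul {a b x y : ℚ} (ha : padicNorm p a ≤ x) (hb : padicNorm p b ≤ y) :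
    padicNorm p (a * b) ≤ x * y := by
  rw [padicNorm.mul]
  exact mul_le_mul ha hb (padicNorm.nonneg _) ((padicNorm.nonneg _).trans ha)

theorem norm_zp (m : ℤ) : padicNorm p ((p : ℚ) ^ m) = (p : ℚ) ^ (-m) := by
  have hp0 : (p : ℚ) ≠ 0 := p_pos'.ne'
  have h1 : padicNorm p ((p : ℚ) ^ m) = (padicNorm p (p : ℚ)) ^ m := by
    cases m with
    | ofNat a => rw [Int.ofNat_eq_natCast, zpow_natCast, zpow_natCast, padicNorm_pow']
    | negSucc a =>
      rw [zpow_negSucc, zpow_negSucc, inv_eq_one_div, padicNorm.div, padicNorm.one, padicNorm_pow', one_div]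
  rw [h1, padicNorm.padicNorm_p hp.out.one_lt, inv_zpow, zpow_neg]

theorem norm_int_le (z : ℤ) : padicNorm p (z : ℚ) ≤ 1 := padicNorm.of_int z

theorem norm_sgn (i : ℕ) : padicNorm p ((-1 : ℚ) ^ i) ≤ 1 := by
  have := norm_int_le (p := p) ((-1) ^ i)
  push_cast at this
  exact this

/-- statement of the harmonic sums -/
def H1st (p : ℕ) : Prop := ∀ (r a e : ℕ), r < p → a < p → 1 ≤ e →
    padicNorm p ((p : ℚ) ^ e * hs e (a * p + r) - hs e a) ≤ (p : ℚ)⁻¹

/-- statement of NVA -/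
def NVAst (p r : ℕ) : Prop :=
  ∃ w : ℚ, padicNorm p w = 1 ∧ ∀ e j i : ℕ, e ≤ 262 → j ≤ 3 → 1 ≤ i → i ≤ 99 →
    padicNorm p ((p : ℚ) ^ (99 - (e : ℤ) - i) * cf p r e (r + j * p) i -
      w * (1 - 2 * (r : ℚ)) ^ e * PowerSeries.coeff (99 - i) (ser j e)) ≤ (p : ℚ)⁻¹

omit hp in
theorem cls_self (r j : ℕ) : Cls p r (r + j * p) := Or.inl ⟨-(j : ℤ), by push_cast; ring⟩

/-- normalised coefficient is integral -/
theorem cf_norm (hC : C1st p) {r e i j : ℕ} (hr1 : 1 ≤ r) (hr2 : 2 * r < p) (hj : j ≤ 3) :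
    padicNorm p ((p : ℚ) ^ (99 - (e : ℤ) - i) * cf p r e (r + j * p) i) ≤ 1 := by
  have hjp : j * p ≤ 3 * p := Nat.mul_le_mul_right p hj
  have hka := pa_near (p := p) hC r e (r + j * p) i (Finset.mem_Icc.2 (by omega)) (cls_self r j)
  have h1 := nmul (norm_zp (p := p) (99 - (e : ℤ) - i)).le hka
  refine h1.trans (le_of_eq ?_)
  rw [← zpow_add₀ p_pos'.ne']
  rw [show -(99 - (e : ℤ) - i) + (99 - (i : ℤ) - e) = 0 by ring, zpow_zero]

/-- the contribution of one pair of poles -/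
theorem pair_term (H1_hs : H1st p) (hC : C1st p) (hp60 : 60 ≤ p) (α : ℚ) (hα : padicNorm p α ≤ 1)
    {r e i j : ℕ} (hr1 : 1 ≤ r) (hr2 : 2 * r < p) (hj3 : j ≤ 3)
    (hi1 : 1 ≤ i) (hi6 : i ≤ 99) (γ : ℚ)
    (hγ : padicNorm p ((p : ℚ) ^ (99 - (e : ℤ) - i) * cf p r e (r + j * p) i - γ) ≤ (p : ℚ)⁻¹) :
    padicNorm p ((p : ℚ) ^ (99 - (e : ℤ)) *
      (cf p r e (r + j * p) i * (α - hs i (r + j * p - 1)) +
      cf p r e (4 * p + 1 - (r + j * p)) i * (α - hs i (4 * p + 1 - (r + j * p) - 1))) +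
      γ * (hs i j + (-1) ^ (i + 1) * hs i (3 - j))) ≤ (p : ℚ)⁻¹ := by
  have hp0 := hp.out.pos
  have hjp : j * p ≤ 3 * p := Nat.mul_le_mul_right p hj3
  have e1 : r + j * p - 1 = j * p + (r - 1) := by omega
  have e2 : 4 * p + 1 - (r + j * p) - 1 = (3 - j) * p + (p - r) := by
    have : (3 - j) * p + j * p = 3 * p := by
      rw [← Nat.add_mul]
      congr 1
      omega
    omega
  have hA1 := cf_norm (p := p) hC (e := e) (i := i) hr1 hr2 hj3
  rw [pa_reflect (p := p) r e (k := r + j * p) (i := i) (by omega) (by omega) hi1 hi6, e1, e2]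
  set a := cf p r e (r + j * p) i with ha
  -- normalised coefficient
  set A := (p : ℚ) ^ (99 - (e : ℤ) - i) * a with hA
  have haA : (p : ℚ) ^ (99 - (e : ℤ)) * a = A * (p : ℚ) ^ i := by
    rw [hA, ← zpow_natCast (p : ℚ) i, mul_right_comm, ← zpow_add₀ p_pos'.ne']
    congr 2
    ring
  have hb := H1_hs (r - 1) j i (by omega) (by omega) hi1
  have hb' := H1_hs (p - r) (3 - j) i (by omega) (by omega) hi1
  have hH := hs_norm_small (p := p) i j (by omega)
  have hH' := hs_norm_small (p := p) i (3 - j) (by omega)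
  set b := (p : ℚ) ^ i * hs i (j * p + (r - 1)) with hbd
  set b' := (p : ℚ) ^ i * hs i ((3 - j) * p + (p - r)) with hbd'
  set H := hs i j with hHd
  set H' := hs i (3 - j) with hHd'
  have key : (p : ℚ) ^ (99 - (e : ℤ)) *
      (a * (α - hs i (j * p + (r - 1))) +
      (-1) ^ (i + 1) * a * (α - hs i ((3 - j) * p + (p - r)))) +
      γ * (H + (-1) ^ (i + 1) * H') =
      (((p : ℚ) ^ (99 - (e : ℤ)) * a * α + (-1) ^ (i + 1) * ((p : ℚ) ^ (99 - (e : ℤ)) * a * α)) -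
      (A * (b - H) + (-1) ^ (i + 1) * (A * (b' - H')))) - (A - γ) * (H + (-1) ^ (i + 1) * H') := by
    have h1 : (p : ℚ) ^ (99 - (e : ℤ)) * a * hs i (j * p + (r - 1)) = A * b := by
      rw [haA, hbd]; ring
    have h2 : (p : ℚ) ^ (99 - (e : ℤ)) * a * hs i ((3 - j) * p + (p - r)) = A * b' := by
      rw [haA, hbd']; ring
    linear_combination (-1 : ℚ) * h1 - (-1) ^ (i + 1) * h2
  rw [key]
  have hu1 : padicNorm p ((p : ℚ) ^ (99 - (e : ℤ)) * a * α) ≤ (p : ℚ)⁻¹ := by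
    rw [haA]
    have hnp : padicNorm p ((p : ℚ) ^ i) = (p : ℚ) ^ (-(i : ℤ)) := by
      rw [← zpow_natCast, norm_zp]
    have h1 : padicNorm p (A * (p : ℚ) ^ i) ≤ 1 * (p : ℚ) ^ (-(i : ℤ)) := nmul hA1 hnp.le
    have h2 := nmul h1 hα
    rw [mul_one, one_mul] at h2
    refine h2.trans ?_
    rw [← zpow_neg_one]
    apply zpow_le_zpow_right₀ p_one'
    omega
  have hs1 := norm_sgn (p := p) (i + 1)
  have hle : ∀ {x : ℚ}, padicNorm p x ≤ (p : ℚ)⁻¹ →
      padicNorm p ((-1) ^ (i + 1) * x) ≤ (p : ℚ)⁻¹ := fun {x} hx => by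
    have := nmul hs1 hx
    rwa [one_mul] at this
  have hAb : ∀ {x : ℚ}, padicNorm p x ≤ (p : ℚ)⁻¹ → padicNorm p (A * x) ≤ (p : ℚ)⁻¹ :=
    fun {x} hx => by
    have := nmul hA1 hx
    rwa [one_mul] at this
  have hHH : padicNorm p (H + (-1) ^ (i + 1) * H') ≤ 1 := by
    refine nadd hH ?_
    have := nmul hs1 hH'
    rwa [one_mul] at this
  refine nsub (nsub (nadd hu1 (hle hu1)) (nadd (hAb hb) (hle (hAb hb')))) ?_
  have := nmul hγ hHH
  rwa [mul_one] at this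

/-- the contribution of the other poles -/
theorem rest_term (hC : C1st p) (hp60 : 60 ≤ p) (α : ℚ) (hα : padicNorm p α ≤ 1)
    {r e i k : ℕ} (hr1 : 1 ≤ r) (hr2 : 2 * r < p) (he : e ≤ 262) (hk : k ∈ sP (2 * p))
    (hrest : ∀ j ∈ Finset.range 4, k ≠ r + j * p ∧ k ≠ 4 * p + 1 - (r + j * p)) :
    padicNorm p ((p : ℚ) ^ (99 - (e : ℤ)) * (cf p r e k i * (α - hs i (k - 1)))) ≤ (p : ℚ)⁻¹ := by
  have hk' := Finset.mem_Icc.1 hk
  have h1 := pa_far (p := p) hC (by omega) r e k i hk (rest_class hr1 hr2 (by omega) (by omega) hrest)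
  have h2 := hs_norm_med (p := p) i (k - 1) (by
    have : k ≤ 4 * p := by omega
    nlinarith [Nat.sub_le k 1])
  have h3 : padicNorm p (α - hs i (k - 1)) ≤ (p : ℚ) ^ i :=
    nsub (hα.trans (one_le_pow₀ p_one')) h2
  have h4 := nmul (norm_zp (p := p) (99 - (e : ℤ))).le (nmul h1 h3)
  refine h4.trans ?_
  rw [← zpow_natCast (p : ℚ) i, ← zpow_add₀ p_pos'.ne', ← zpow_add₀ p_pos'.ne', ← zpow_neg_one]
  apply zpow_le_zpow_right₀ p_one'
  omega

/-- the `B`-part: one pair -/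
theorem pairB_term (hC : C1st p) (β : ℕ → ℚ) (hβ : ∀ i, padicNorm p (β i) ≤ 1)
    {i0 : ℕ} (hi0 : Odd i0) (hβ0 : ∀ i < i0, β i = 0)
    {r e i j : ℕ} (hr1 : 1 ≤ r) (hr2 : 2 * r < p) (hj3 : j ≤ 3)
    (hi1 : 1 ≤ i) (hi6 : i ≤ 99) (γ : ℚ)
    (hγ : padicNorm p ((p : ℚ) ^ (99 - (e : ℤ) - i) * cf p r e (r + j * p) i - γ) ≤ (p : ℚ)⁻¹) :
    padicNorm p ((p : ℚ) ^ (99 - (e : ℤ) - i0) *
      ((cf p r e (r + j * p) i + cf p r e (4 * p + 1 - (r + j * p)) i) * β i) -
      (if i = i0 then 2 * γ * β i else 0)) ≤ (p : ℚ)⁻¹ := by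
  have hjp : j * p ≤ 3 * p := Nat.mul_le_mul_right p hj3
  rcases lt_trichotomy i i0 with h | h | h
  · rw [hβ0 i h, mul_zero, mul_zero, if_neg (by omega), sub_zero, padicNorm.zero]
    exact inv0
  · subst h
    rw [if_pos rfl]
    rw [pa_reflect (p := p) r e (k := r + j * p) (i := i) (by omega) (by omega) hi1 hi6]
    have hsg : ((-1 : ℚ)) ^ (i + 1) = 1 := Even.neg_one_pow (hi0.add_one)
    rw [hsg, one_mul]
    set a := cf p r e (r + j * p) i with ha
    have e1 : (p : ℚ) ^ (99 - (e : ℤ) - i) * ((a + a) * β i) - 2 * γ * β i =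
        2 * (((p : ℚ) ^ (99 - (e : ℤ) - i) * a - γ) * β i) := by
      ring
    rw [e1]
    have h2 : padicNorm p (2 : ℚ) ≤ 1 := by
      have := norm_int_le (p := p) 2
      push_cast at this
      exact this
    have h3 := nmul h2 (nmul hγ (hβ i))
    rwa [mul_one, one_mul] at h3
  · rw [if_neg (by omega), sub_zero]
    rw [pa_reflect (p := p) r e (k := r + j * p) (i := i) (by omega) (by omega) hi1 hi6]
    set a := cf p r e (r + j * p) i with ha
    have hk := pa_near (p := p) hC r e (r + j * p) i (Finset.mem_Icc.2 (by omega))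
      (cls_self r j)
    rw [← ha] at hk
    have hk2 : padicNorm p (a + (-1) ^ (i + 1) * a) ≤ (p : ℚ) ^ (99 - (i : ℤ) - e) := by
      refine nadd hk ?_
      have := nmul (norm_sgn (p := p) (i + 1)) hk
      rwa [one_mul] at this
    have h3 := nmul (norm_zp (p := p) (99 - (e : ℤ) - i0)).le (nmul hk2 (hβ i))
    rw [mul_one, ← zpow_add₀ p_pos'.ne'] at h3
    refine h3.trans ?_
    rw [← zpow_neg_one]
    apply zpow_le_zpow_right₀ p_one'
    omega

/-- the `B`-part: other poles -/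
theorem restB_term (hC : C1st p) (hp60 : 60 ≤ p) (β : ℕ → ℚ) (hβ : ∀ i, padicNorm p (β i) ≤ 1)
    {i0 : ℕ} (hβ0 : ∀ i < i0, β i = 0)
    {r e i k : ℕ} (hr1 : 1 ≤ r) (hr2 : 2 * r < p) (he : e ≤ 262) (hk : k ∈ sP (2 * p))
    (hrest : ∀ j ∈ Finset.range 4, k ≠ r + j * p ∧ k ≠ 4 * p + 1 - (r + j * p)) :
    padicNorm p ((p : ℚ) ^ (99 - (e : ℤ) - i0) * (cf p r e k i * β i)) ≤ (p : ℚ)⁻¹ := by
  by_cases h : i < i0
  · rw [hβ0 i h, mul_zero, mul_zero, padicNorm.zero]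
    exact inv0
  · have hk' := Finset.mem_Icc.1 hk
    have h1 := pa_far (p := p) hC (by omega) r e k i hk (rest_class hr1 hr2 (by omega) (by omega) hrest)
    have h3 := nmul (norm_zp (p := p) (99 - (e : ℤ) - i0)).le (nmul h1 (hβ i))
    rw [mul_one, ← zpow_add₀ p_pos'.ne'] at h3
    refine h3.trans ?_
    rw [← zpow_neg_one]
    apply zpow_le_zpow_right₀ p_one'
    omega

theorem main {p : ℕ} [Fact p.Prime] (h1s : H1st p) (hC : C1st p) (hp : 60 ≤ p)
    (r : ℕ) (hr1 : 1 ≤ r) (hr2 : 2 * r < p) (h2s : NVAst p r) :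
    ∃ w : ℚ, padicNorm p w = 1 ∧ ∀ e : ℕ, e ≤ 262 →
    (∀ α : ℕ → ℚ, (∀ i, padicNorm p (α i) ≤ 1) →
      padicNorm p ((p : ℚ) ^ (99 - (e : ℤ)) * AL (2 * p) α (XN (2 * p) r ^ e * OT p r 264) -
        w * (1 - 2 * (r : ℚ)) ^ e * Fm e) ≤ (p : ℚ)⁻¹) ∧
    (∀ (β : ℕ → ℚ) (i0 : ℕ), (∀ i, padicNorm p (β i) ≤ 1) → Odd i0 → i0 ≤ 99 → (∀ i < i0, β i = 0) →
      padicNorm p ((p : ℚ) ^ (99 - (e : ℤ) - i0) * BL (2 * p) β (XN (2 * p) r ^ e * OT p r 264) -
        w * (1 - 2 * (r : ℚ)) ^ e * (β i0 * Bm i0 e)) ≤ (p : ℚ)⁻¹) := by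
  obtain ⟨w, hw1, hw⟩ := h2s
  refine ⟨w, hw1, fun e he => ?_⟩
  obtain ⟨S, hS, hSr, hsum⟩ := sum_split (p := p) hr1 hr2
  have hQ : Qr p r e = XN (2 * p) r ^ e * OT p r 264 := by unfold Qr; rfl
  constructor
  · intro α hα
    rw [← hQ]
    have hN : (p : ℚ) ^ (99 - (e : ℤ)) * AL (2 * p) α (Qr p r e) - w * (1 - 2 * (r : ℚ)) ^ e * Fm e =
        ∑ i ∈ Finset.Icc 1 99,
        ((∑ j ∈ Finset.range 4, ((p : ℚ) ^ (99 - (e : ℤ)) *
        (cf p r e (r + j * p) i * (α i - hs i (r + j * p - 1)) +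
        cf p r e (4 * p + 1 - (r + j * p)) i * (α i - hs i (4 * p + 1 - (r + j * p) - 1))) +
        (w * (1 - 2 * (r : ℚ)) ^ e * PowerSeries.coeff (99 - i) (ser j e)) *
          (hs i j + (-1) ^ (i + 1) * hs i (3 - j)))) +
        ∑ k ∈ S, (p : ℚ) ^ (99 - (e : ℤ)) * (cf p r e k i * (α i - hs i (k - 1)))) := by
      have h1 : w * (1 - 2 * (r : ℚ)) ^ e * Fm e = -∑ i ∈ Finset.Icc 1 99,
          ∑ j ∈ Finset.range 4, (w * (1 - 2 * (r : ℚ)) ^ e * PowerSeries.coeff (99 - i) (ser j e)) *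
          (hs i j + (-1) ^ (i + 1) * hs i (3 - j)) := by
        unfold Fm
        rw [mul_neg, Finset.sum_comm, Finset.mul_sum]
        congr 1
        refine Finset.sum_congr rfl fun i _ => ?_
        rw [Finset.mul_sum]
        refine Finset.sum_congr rfl fun j _ => ?_
        ring
      have h2 : AL (2 * p) α (Qr p r e) = ∑ i ∈ Finset.Icc 1 99,
          ∑ k ∈ sP (2 * p), cf p r e k i * (α i - hs i (k - 1)) := by
        rw [AL_apply]
        unfold xa rho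
        refine Finset.sum_congr rfl fun i _ => ?_
        rw [Finset.sum_mul, ← Finset.sum_sub_distrib]
        refine Finset.sum_congr rfl fun k _ => ?_
        unfold cf EM
        ring
      rw [h1, sub_neg_eq_add, h2, Finset.mul_sum, ← Finset.sum_add_distrib]
      refine Finset.sum_congr rfl fun i _ => ?_
      rw [hsum]
      simp only [Finset.sum_add_distrib, ← Finset.mul_sum]
      ring
    rw [hN]
    apply padicNorm.sum_le' _ inv0
    intro i hi
    rw [Finset.mem_Icc] at hi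
    refine nadd ?_ ?_
    · apply padicNorm.sum_le' _ inv0
      intro j hj
      rw [Finset.mem_range] at hj
      exact pair_term h1s hC hp (α i) (hα i) hr1 hr2 (by omega) hi.1 hi.2 _
        (hw e j i he (by omega) hi.1 hi.2)
    · apply padicNorm.sum_le' _ inv0
      intro k hk
      exact rest_term hC hp (α i) (hα i) hr1 hr2 he (hS hk) (hSr k hk)
  · intro β i0 hβ hodd hi0 hβ0
    rw [← hQ]
    have hN : (p : ℚ) ^ (99 - (e : ℤ) - i0) * BL (2 * p) β (Qr p r e) -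
        w * (1 - 2 * (r : ℚ)) ^ e * (β i0 * Bm i0 e) =
        ∑ i ∈ Finset.Icc 1 99,
        ((∑ j ∈ Finset.range 4, ((p : ℚ) ^ (99 - (e : ℤ) - i0) *
        ((cf p r e (r + j * p) i + cf p r e (4 * p + 1 - (r + j * p)) i) * β i) -
        (if i = i0 then 2 * (w * (1 - 2 * (r : ℚ)) ^ e * PowerSeries.coeff (99 - i) (ser j e)) * β i
          else 0))) +
        ∑ k ∈ S, (p : ℚ) ^ (99 - (e : ℤ) - i0) * (cf p r e k i * β i)) := by
      have h1 : w * (1 - 2 * (r : ℚ)) ^ e * (β i0 * Bm i0 e) = ∑ i ∈ Finset.Icc 1 99,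
          ∑ j ∈ Finset.range 4,
          (if i = i0 then 2 * (w * (1 - 2 * (r : ℚ)) ^ e * PowerSeries.coeff (99 - i) (ser j e)) * β i
            else 0) := by
        rw [Finset.sum_eq_single_of_mem i0 (Finset.mem_Icc.2 ⟨hodd.pos, hi0⟩)]
        · simp only [if_true]
          unfold Bm
          rw [Finset.mul_sum, Finset.mul_sum, Finset.mul_sum]
          refine Finset.sum_congr rfl fun j _ => ?_
          ring
        · intro i _ hi
          simp [hi]
      have h2 : BL (2 * p) β (Qr p r e) = ∑ i ∈ Finset.Icc 1 99,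
          ∑ k ∈ sP (2 * p), cf p r e k i * β i := by
        rw [BL_apply]
        unfold xb rho
        refine Finset.sum_congr rfl fun i _ => ?_
        rw [Finset.sum_mul]
        refine Finset.sum_congr rfl fun k _ => ?_
        unfold cf EM
        ring
      rw [h1, h2, Finset.mul_sum, ← Finset.sum_sub_distrib]
      refine Finset.sum_congr rfl fun i _ => ?_
      rw [hsum]
      simp only [Finset.sum_sub_distrib, ← Finset.mul_sum, Finset.sum_add_distrib, add_mul,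
        ← Finset.sum_mul]
      ring
    rw [hN]
    apply padicNorm.sum_le' _ inv0
    intro i hi
    rw [Finset.mem_Icc] at hi
    refine nadd ?_ ?_
    · apply padicNorm.sum_le' _ inv0
      intro j hj
      rw [Finset.mem_range] at hj
      exact pairB_term hC β hβ hodd hβ0 hr1 hr2 (by omega) hi.1 hi.2 _
        (hw e j i he (by omega) hi.1 hi.2)
    · apply padicNorm.sum_le' _ inv0
      intro k hk
      exact restB_term hC hp β hβ hβ0 hr1 hr2 he (hS hk) (hSr k hk)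

end NVB_

/-- **NVB**: the diagonal blocks -/
theorem NVB_of (hNVA : S_NVA) (hC1 : S_C1) : S_NVB := by
  intro p hpF hp r hr1 hr2
  have hA : NVB_.NVAst p r := by
    obtain ⟨w, hw1, hw⟩ := hNVA hp r hr1 hr2
    refine ⟨w, hw1, fun e j i he hj hi1 hi2 => ?_⟩
    unfold NVB_.cf NVB_.EM NVB_.Qr
    exact hw e j i he hj hi1 hi2
  refine NVB_.main (fun r a e hr ha he => Pool.Agent.H336R2.HD.H1_hs r a e hr ha he) ?_ (by omega) r hr1 hr2 hA
  intro E k hk A hA hE i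
  have h1 := hC1 (n := 2 * p) (p := p) (by omega) (by nlinarith) E hk A hA hE i
  rw [NVB_.eP_val] at h1
  push_cast at h1 ⊢
  exact h1

end

end Pool.Agent.L0h38.Q4
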