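import Pool.Agent.L0h38.Q4.Defs

/-!
# Statements of the parts of the non-vanishing (`n = 2p`)

Classes modulo `p` of the poles `-k`, `1 ≤ k ≤ 4p`: every class has four poles `r + jp`, `j = 0, 1, 2, 3`; the mirror
`k ↦ 4p+1-k` maps `r + jp` to `(p+1-r) + (3-j)p`. Class pairs `r = 1, …, (p-1)/2`; the class `r = (p+1)/2` is
self-mirrored and negligible because of the factor `(2t+4p+1)^401`.
-/

open Polynomial Pool.Agent.H337R2 Filter Topology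

namespace Pool.Agent.L0h38.Q4

noncomputable section

/-- the other class pairs, with multiplicity `c` -/
def OT (p r c : ℕ) : ℚ[X] := ∏ s ∈ (Finset.Icc 1 ((p - 1) / 2)).erase r, XN (2 * p) s ^ c

/-- NVA: principal coefficients of the partial fractions in the class `r` -/
def S_NVA : Prop := ∀ {p : ℕ} [Fact p.Prime], 300 ≤ p → ∀ r : ℕ, 1 ≤ r → 2 * r < p →
  ∃ w : ℚ, padicNorm p w = 1 ∧ ∀ e j i : ℕ, e ≤ 262 → j ≤ 3 → 1 ≤ i → i ≤ 99 →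
    padicNorm p ((p : ℚ) ^ (99 - (e : ℤ) - i) *
        pa (sP (2 * p)) mP (PP (2 * p) * (XN (2 * p) r ^ e * OT p r 264).comp (xP (2 * p))) (r + j * p) i -
      w * (1 - 2 * (r : ℚ)) ^ e * PowerSeries.coeff (99 - i) (ser j e)) ≤ (p : ℚ)⁻¹

/-- NVB: the diagonal blocks -/
def S_NVB : Prop := ∀ {p : ℕ} [Fact p.Prime], 300 ≤ p → ∀ r : ℕ, 1 ≤ r → 2 * r < p →
  ∃ w : ℚ, padicNorm p w = 1 ∧ ∀ e : ℕ, e ≤ 262 →
    (∀ α : ℕ → ℚ, (∀ i, padicNorm p (α i) ≤ 1) →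
      padicNorm p ((p : ℚ) ^ (99 - (e : ℤ)) * AL (2 * p) α (XN (2 * p) r ^ e * OT p r 264) -
        w * (1 - 2 * (r : ℚ)) ^ e * Fm e) ≤ (p : ℚ)⁻¹) ∧
    (∀ (β : ℕ → ℚ) (i0 : ℕ), (∀ i, padicNorm p (β i) ≤ 1) → Odd i0 → i0 ≤ 99 → (∀ i < i0, β i = 0) →
      padicNorm p ((p : ℚ) ^ (99 - (e : ℤ) - i0) * BL (2 * p) β (XN (2 * p) r ^ e * OT p r 264) -
        w * (1 - 2 * (r : ℚ)) ^ e * (β i0 * Bm i0 e)) ≤ (p : ℚ)⁻¹)

/-- NVC: the off-diagonal blocks -/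
def S_NVC : Prop := ∀ {p : ℕ} [Fact p.Prime], 300 ≤ p → ∀ (r s l l' : ℕ), 1 ≤ r → 2 * r < p → 1 ≤ s → 2 * s < p →
  r ≠ s → l < 198 → l' < 66 →
    (∀ α : ℕ → ℚ, (∀ i, padicNorm p (α i) ≤ 1) →
      padicNorm p ((p : ℚ) ^ (99 - (l : ℤ) - l') *
        AL (2 * p) α ((XN (2 * p) r ^ l * OT p r 198) * (XN (2 * p) s ^ l' * OT p s 66))) ≤ (p : ℚ)⁻¹) ∧
    (∀ (β : ℕ → ℚ) (i0 : ℕ), (∀ i, padicNorm p (β i) ≤ 1) → i0 ≤ 99 → (∀ i < i0, β i = 0) →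
      padicNorm p ((p : ℚ) ^ (99 - (l : ℤ) - l' - i0) *
        BL (2 * p) β ((XN (2 * p) r ^ l * OT p r 198) * (XN (2 * p) s ^ l' * OT p s 66))) ≤ (p : ℚ)⁻¹)

end

end Pool.Agent.L0h38.Q4
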