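import Pool.Agent.L0h38.Q4.LV
import Pool.Agent.L0h38.Q4.C1
import Pool.Agent.L0h38.Q4.Stm2
import Pool.Agent.L0h38.Q4.E2

/-!
# NVC: the off-diagonal blocks (`n = 2p`)
-/

open Polynomial Pool.Agent.H337R2

namespace Pool.Agent.L0h38.Q4

noncomputable section

namespace NVC_

variable {p : ℕ} [hp : Fact p.Prime]

/-- `A`-functional -/
lemma A_le {n : ℕ} (hp2 : 2 * n < p ^ 2) (α : ℕ → ℚ) (hα : ∀ i, padicNorm p (α i) ≤ 1) (P : ℚ[X]) (a : ℤ)
    (h : ∀ k ∈ sP n, ∀ i, padicNorm p (pa (sP n) mP P k i) ≤ (p : ℚ) ^ (a - i)) :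
    padicNorm p (xa n α P) ≤ (p : ℚ) ^ a := by
  have hp0 : (p : ℚ) ≠ 0 := p_pos'.ne'
  have hp1 : (1 : ℚ) ≤ p := p_one'
  have hW : (0 : ℚ) ≤ (p : ℚ) ^ a := by positivity
  unfold xa
  apply padicNorm.sum_le' _ hW
  intro i hi
  rw [Finset.mem_Icc] at hi
  have e : (rho n P i * α i - ∑ k ∈ sP n, pa (sP n) mP P k i * hs i (k - 1)) =
      (∑ k ∈ sP n, pa (sP n) mP P k i * α i) -
        ∑ k ∈ sP n, (pa (sP n) mP P k i * hs i (k - 1)) := by
    unfold rho
    rw [← Finset.sum_mul]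
  rw [e]
  refine padicNorm.sub.trans (max_le ?_ ?_)
  · apply padicNorm.sum_le' _ hW
    intro k hk
    rw [padicNorm.mul]
    calc _ ≤ (p : ℚ) ^ a * 1 := mul_le_mul ((h k hk i).trans (zpow_le_zpow_right₀ hp1 (by omega)))
          (hα i) (padicNorm.nonneg _) hW
      _ = _ := mul_one _
  · apply padicNorm.sum_le' _ hW
    intro k hk
    have hk' := Finset.mem_Icc.1 hk
    rw [padicNorm.mul]
    have h4 := hs_norm_med (p := p) i (k - 1) (by omega)
    calc _ ≤ ((p : ℚ) ^ (a - i) * (p : ℚ) ^ i) :=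
          (mul_le_mul (h k hk i) h4 (padicNorm.nonneg _) (by positivity))
      _ = _ := by
        rw [← zpow_natCast (p : ℚ) i, ← zpow_add₀ hp0]
        congr 1
        ring

/-- `B`-functional -/
lemma B_le {n : ℕ} (β : ℕ → ℚ) (hβ : ∀ i, padicNorm p (β i) ≤ 1) (w : ℕ) (hβ0 : ∀ i < w, β i = 0) (P : ℚ[X])
    (a : ℤ) (h : ∀ k ∈ sP n, ∀ i, padicNorm p (pa (sP n) mP P k i) ≤ (p : ℚ) ^ (a - i)) :
    padicNorm p (xb n β P) ≤ (p : ℚ) ^ (a - w) := by
  have hp1 : (1 : ℚ) ≤ p := p_one'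
  have hW : (0 : ℚ) ≤ (p : ℚ) ^ (a - w) := by positivity
  unfold xb
  apply padicNorm.sum_le' _ hW
  intro i hi
  by_cases hi3 : i < w
  · rw [hβ0 i hi3]
    simpa using hW
  · have e : (rho n P i * β i) = ∑ k ∈ sP n, pa (sP n) mP P k i * β i := by
      unfold rho
      rw [← Finset.sum_mul]
    rw [e]
    apply padicNorm.sum_le' _ hW
    intro k hk
    rw [padicNorm.mul]
    calc _ ≤ (p : ℚ) ^ (a - w) * 1 := mul_le_mul ((h k hk i).trans (zpow_le_zpow_right₀ hp1 (by omega)))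
          (hβ i) (padicNorm.nonneg _) hW
      _ = _ := mul_one _

omit hp in
lemma eP_eq (hp0 : 0 < p) (k : ℕ) : eP (2 * p) p k = 99 := by
  have h1 : Np (2 * p) p k = 4 := by
    rw [E2_.Np_count (2 * p) p k hp0, Nat.count_modEq_card _ hp0]
    have h2 : 2 * (2 * p) = 4 * p := by ring
    rw [h2, Nat.mul_div_cancel _ hp0, Nat.mul_mod_left]
    simp
  have h3 : (2 * (2 * p) - 1) / p = 3 := by
    have h4 : 2 * (2 * p) - 1 = (p - 1) + p * 3 := by omega
    rw [h4, Nat.add_mul_div_left _ _ hp0, Nat.div_eq_of_lt (by omega)]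
  unfold eP
  rw [h1, h3]
  norm_num

/-- the class pairs -/
lemma cls (hp2 : p ≠ 2) (k : ℕ) :
    (∃ c, 1 ≤ c ∧ c ≤ (p - 1) / 2 ∧ ((p : ℤ) ∣ (c : ℤ) - k ∨ (p : ℤ) ∣ 2 * ((2 * p : ℕ) : ℤ) + 1 - c - k)) ∨
      (p : ℤ) ∣ 2 * (k : ℤ) - (2 * ((2 * p : ℕ) : ℤ) + 1) := by
  have hp0 : 0 < p := hp.out.pos
  have hodd : p % 2 = 1 := by
    rcases hp.out.eq_two_or_odd with h | h
    · exact absurd h hp2
    · exact h
  have hp3 : 2 < p := by
    have := hp.out.two_le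
    omega
  have h1 : k % p < p := Nat.mod_lt _ hp0
  have h2 : p * (k / p) + k % p = k := Nat.div_add_mod _ _
  have h2' : (p : ℤ) * ((k / p : ℕ) : ℤ) + ((k % p : ℕ) : ℤ) = (k : ℤ) := by exact_mod_cast h2
  generalize hρ : k % p = ρ at h1 h2 h2'
  generalize hQ : ((k / p : ℕ) : ℤ) = Q at h2'
  rcases Nat.eq_zero_or_pos ρ with h3 | h3
  · left
    refine ⟨1, le_refl _, by omega, Or.inr ⟨4 - Q, ?_⟩⟩
    rw [← h2', h3]
    push_cast
    ring
  · rcases Nat.lt_or_ge ((p - 1) / 2) ρ with h4 | h4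
    · rcases Nat.eq_or_lt_of_le (Nat.succ_le_of_lt h4) with h5 | h5
      · right
        have h6 : 2 * ρ = p + 1 := by omega
        have h6' : 2 * (ρ : ℤ) = (p : ℤ) + 1 := by exact_mod_cast h6
        refine ⟨2 * Q - 3, ?_⟩
        rw [← h2']
        push_cast
        linear_combination h6'
      · left
        refine ⟨p + 1 - ρ, by omega, by omega, Or.inr ⟨3 - Q, ?_⟩⟩
        rw [← h2', Nat.cast_sub (by omega)]
        push_cast
        ring
    · left
      refine ⟨ρ, h3, h4, Or.inl ⟨-Q, ?_⟩⟩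
      rw [← h2']
      ring

lemma XN_comp (n s : ℕ) : (XN n s).comp (xP n) = xP n - C ((LV.x0 n s : ℤ) : ℚ) := by
  unfold XN LV.x0
  rw [sub_comp, X_comp, C_comp]
  push_cast
  rfl

/-- integral node -/
lemma PB_XN1 (n s k : ℕ) : PB p (p : ℚ) 1 (TS (-(k : ℚ)) ((XN n s).comp (xP n))) := by
  have hp0 : (0 : ℚ) < p := p_pos'
  have hp1 : (1 : ℚ) ≤ p := p_one'
  rw [XN_comp, LV.xP_sub, map_mul, TS_lin, TS_lin]
  have key1 : ∀ z : ℤ, PB p (p : ℚ) 1 (PowerSeries.X + PowerSeries.C (z : ℚ)) := by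
    intro z
    exact PB.linX hp0.le zero_le_one (padicNorm.of_int z) (by linarith)
  have h1 := PB.mul hp0.le zero_le_one zero_le_one (key1 (s - k)) (key1 (2 * n + 1 - s - k))
  rw [mul_one] at h1
  push_cast at h1
  convert h1 using 4 <;> ring

/-- the sizes of the nodes at a pole of the class pair `c` -/
def bs (p c s : ℕ) : ℚ := if s = c then (p : ℚ)⁻¹ else 1

lemma bs_nonneg (c s : ℕ) : 0 ≤ bs p c s := by
  unfold bs
  split_ifs
  · exact inv_nonneg.2 p_pos'.le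
  · exact zero_le_one

lemma PB_XN (n c s k : ℕ) (h : (p : ℤ) ∣ (c : ℤ) - k ∨ (p : ℤ) ∣ 2 * (n : ℤ) + 1 - c - k) :
    PB p (p : ℚ) (bs p c s) (TS (-(k : ℚ)) ((XN n s).comp (xP n))) := by
  unfold bs
  split_ifs with hs
  · rw [XN_comp, hs]
    exact LV.PB_node n c k h
  · exact PB_XN1 n s k

lemma comp_pow' (P Q : ℚ[X]) (e : ℕ) : (P ^ e).comp Q = (P.comp Q) ^ e := by
  rw [pow_comp]

/-- general bound -/
lemma PB_all (n k r s l l' : ℕ) (b : ℕ → ℚ) (hb : ∀ x, 0 ≤ b x)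
    (h : ∀ x, PB p (p : ℚ) (b x) (TS (-(k : ℚ)) ((XN n x).comp (xP n)))) (S S' : Finset ℕ) :
    PB p (p : ℚ) ((b r ^ l * ∏ x ∈ S, b x ^ 198) * (b s ^ l' * ∏ x ∈ S', b x ^ 66))
      (TS (-(k : ℚ)) (((XN n r ^ l * ∏ x ∈ S, XN n x ^ 198) * (XN n s ^ l' * ∏ x ∈ S', XN n x ^ 66)).comp (xP n))) := by
  have hp0 : (0 : ℚ) ≤ p := p_pos'.le
  simp only [mul_comp, Polynomial.prod_comp, comp_pow', map_mul, map_prod, map_pow]
  refine PB.mul hp0 (mul_nonneg (pow_nonneg (hb _) _) (Finset.prod_nonneg fun _ _ => pow_nonneg (hb _) _))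
    (mul_nonneg (pow_nonneg (hb _) _) (Finset.prod_nonneg fun _ _ => pow_nonneg (hb _) _)) ?_ ?_
  · exact PB.mul hp0 (pow_nonneg (hb _) _) (Finset.prod_nonneg fun _ _ => pow_nonneg (hb _) _)
      (PB.pow hp0 (hb _) (h _) _) (PB.prod _ _ _ hp0 (fun _ _ => pow_nonneg (hb _) _)
        fun _ _ => PB.pow hp0 (hb _) (h _) _)
  · exact PB.mul hp0 (pow_nonneg (hb _) _) (Finset.prod_nonneg fun _ _ => pow_nonneg (hb _) _)
      (PB.pow hp0 (hb _) (h _) _) (PB.prod _ _ _ hp0 (fun _ _ => pow_nonneg (hb _) _)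
        fun _ _ => PB.pow hp0 (hb _) (h _) _)

omit hp in
lemma prod_bs (c e : ℕ) (S : Finset ℕ) :
    ∏ x ∈ S, bs p c x ^ e = if c ∈ S then (p : ℚ)⁻¹ ^ e else 1 := by
  unfold bs
  simp only [ite_pow, one_pow]
  rw [Finset.prod_ite_eq']

end NVC_

open NVC_ in
theorem NVC_of (hC1 : S_C1) : S_NVC := by
  intro p hpF hp300 r s l l' hr hrp hs hsp hrs hl hl'
  have hp0' : 0 < p := hpF.out.pos
  have hp0 : (p : ℚ) ≠ 0 := p_pos'.ne'
  have hp1 : (1 : ℚ) ≤ p := p_one'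
  have hp00 : (0 : ℚ) < p := p_pos'
  have hodd : p % 2 = 1 := by
    rcases hpF.out.eq_two_or_odd with h | h
    · omega
    · exact h
  have hpp : 2 * (2 * p) < p ^ 2 := by nlinarith
  have hrI : r ∈ Finset.Icc 1 ((p - 1) / 2) := by
    rw [Finset.mem_Icc]
    omega
  have hsI : s ∈ Finset.Icc 1 ((p - 1) / 2) := by
    rw [Finset.mem_Icc]
    omega
  set Q : ℚ[X] := (XN (2 * p) r ^ l * OT p r 198) * (XN (2 * p) s ^ l' * OT p s 66) with hQ
  have hinvz : ∀ m : ℕ, (p : ℚ)⁻¹ ^ m = (p : ℚ) ^ (-(m : ℤ)) := by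
    intro m
    rw [zpow_neg, zpow_natCast, inv_pow]
  have key : ∀ k ∈ sP (2 * p), ∀ i, padicNorm p (pa (sP (2 * p)) mP (PP (2 * p) * Q.comp (xP (2 * p))) k i) ≤
      (p : ℚ) ^ ((98 - (l : ℤ) - l') - i) := by
    intro k hk i
    rcases cls (p := p) (by omega) k with ⟨c, hc1, hc2, hc⟩ | hself
    · have hcI : c ∈ Finset.Icc 1 ((p - 1) / 2) := Finset.mem_Icc.2 ⟨hc1, hc2⟩
      have hPB := PB_all (2 * p) k r s l l' (bs p c) (bs_nonneg c) (fun x => PB_XN (2 * p) c x k hc)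
        ((Finset.Icc 1 ((p - 1) / 2)).erase r) ((Finset.Icc 1 ((p - 1) / 2)).erase s)
      have h1 := (hC1 (by omega) hpp (Q.comp (xP (2 * p))) hk _ (by
        exact mul_nonneg (mul_nonneg (pow_nonneg (bs_nonneg _ _) _)
          (Finset.prod_nonneg fun _ _ => pow_nonneg (bs_nonneg _ _) _))
          (mul_nonneg (pow_nonneg (bs_nonneg _ _) _)
          (Finset.prod_nonneg fun _ _ => pow_nonneg (bs_nonneg _ _) _))) hPB i).1
      refine h1.trans ?_
      rw [eP_eq hp0', prod_bs, prod_bs]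
      have hv : ∃ v : ℕ, ((bs p c r ^ l * if c ∈ (Finset.Icc 1 ((p - 1) / 2)).erase r then (p : ℚ)⁻¹ ^ 198 else 1) *
          (bs p c s ^ l' * if c ∈ (Finset.Icc 1 ((p - 1) / 2)).erase s then (p : ℚ)⁻¹ ^ 66 else 1)) =
          (p : ℚ)⁻¹ ^ v ∧ l + l' + 1 ≤ v := by
        by_cases hcr : c = r
        · refine ⟨l + 66, ?_, by omega⟩
          have hsc : s ≠ c := by
            intro h
            exact hrs (by rw [h, hcr])
          rw [if_neg (by simp [hcr]), if_pos (by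
            rw [Finset.mem_erase]
            exact ⟨fun h => hsc h.symm, hcI⟩)]
          unfold bs
          rw [if_pos hcr.symm, if_neg hsc]
          ring
        · by_cases hcs : c = s
          · refine ⟨198 + l', ?_, by omega⟩
            rw [if_pos (by
              rw [Finset.mem_erase]
              exact ⟨hcr, hcI⟩), if_neg (by simp [hcs])]
            unfold bs
            rw [if_neg (fun h => hcr h.symm), if_pos hcs.symm]
            ring
          · refine ⟨264, ?_, by omega⟩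
            rw [if_pos (by
              rw [Finset.mem_erase]
              exact ⟨hcr, hcI⟩), if_pos (by
              rw [Finset.mem_erase]
              exact ⟨hcs, hcI⟩)]
            unfold bs
            rw [if_neg (fun h => hcr h.symm), if_neg (fun h => hcs h.symm)]
            ring
      obtain ⟨v, hv1, hv2⟩ := hv
      rw [hv1, hinvz, ← zpow_add₀ hp0]
      apply zpow_le_zpow_right₀ hp1
      have : (l : ℤ) + l' + 1 ≤ v := by exact_mod_cast hv2
      linarith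
    · have hPB := PB_all (p := p) (2 * p) k r s l l' (fun _ => (1 : ℚ)) (fun _ => zero_le_one)
        (fun x => PB_XN1 (2 * p) x k)
        ((Finset.Icc 1 ((p - 1) / 2)).erase r) ((Finset.Icc 1 ((p - 1) / 2)).erase s)
      simp only [one_pow, Finset.prod_const_one, mul_one] at hPB
      have h1 := (hC1 (by omega) hpp (Q.comp (xP (2 * p))) hk 1 zero_le_one hPB i).2 (by exact_mod_cast hself)
      refine h1.trans ?_
      rw [eP_eq hp0', mul_one]
      apply zpow_le_zpow_right₀ hp1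
      omega
  have hnp : ∀ z : ℤ, padicNorm p ((p : ℚ) ^ z) = (p : ℚ) ^ (-z) := by
    intro z
    rcases Int.eq_nat_or_neg z with ⟨m, rfl | rfl⟩
    · rw [zpow_natCast, padicNorm_pow', padicNorm.padicNorm_p hpF.out.one_lt, hinvz]
    · have h1 : padicNorm p ((p : ℚ) ^ (-(m : ℤ))) * padicNorm p ((p : ℚ) ^ (m : ℤ)) = 1 := by
        rw [← padicNorm.mul, ← zpow_add₀ hp0, neg_add_cancel, zpow_zero, padicNorm.one]
      rw [zpow_natCast (p : ℚ) m, padicNorm_pow', padicNorm.padicNorm_p hpF.out.one_lt, hinvz] at h1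
      rw [neg_neg]
      calc padicNorm p ((p : ℚ) ^ (-(m : ℤ))) = padicNorm p ((p : ℚ) ^ (-(m : ℤ))) *
            ((p : ℚ) ^ (-(m : ℤ)) * (p : ℚ) ^ (m : ℤ)) := by
            rw [← zpow_add₀ hp0, neg_add_cancel, zpow_zero, mul_one]
        _ = _ := by rw [← mul_assoc, h1, one_mul]
  refine ⟨?_, ?_⟩
  · intro α hα
    rw [padicNorm.mul, hnp]
    have h1 := A_le hpp α hα _ (98 - (l : ℤ) - l') key
    rw [← AL_apply] at h1
    calc _ ≤ (p : ℚ) ^ (-(99 - (l : ℤ) - l')) * (p : ℚ) ^ (98 - (l : ℤ) - l') :=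
          mul_le_mul_of_nonneg_left h1 (by positivity)
      _ = _ := by
        rw [← zpow_add₀ hp0, ← zpow_neg_one]
        congr 1
        ring
  · intro β i0 hβ hi0 hβ0
    rw [padicNorm.mul, hnp]
    have h1 := B_le β hβ i0 hβ0 _ (98 - (l : ℤ) - l') key
    rw [← BL_apply] at h1
    calc _ ≤ (p : ℚ) ^ (-(99 - (l : ℤ) - l' - i0)) * (p : ℚ) ^ (98 - (l : ℤ) - l' - i0) :=
          mul_le_mul_of_nonneg_left h1 (by positivity)
      _ = _ := by
        rw [← zpow_add₀ hp0, ← zpow_neg_one]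
        congr 1
        ring

/-- NVC: the off-diagonal blocks -/
theorem NVC : S_NVC := NVC_of C1

end

end Pool.Agent.L0h38.Q4
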