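import Pool.Agent.L0h38.Q4.Stm
import Pool.Agent.L0h38.Q4.Stm2
import Pool.Agent.H336R2.HD.H6pre

/-!
# Part NVD: non-vanishing from the local statements (helper88)
-/

open Polynomial Pool.Agent.H337R2

namespace Pool.Agent.L0h38.Q4

noncomputable section

namespace NVD

/-- determinant after scaling of rows and columns -/
lemma det_scale {α : Type} [Fintype α] [DecidableEq α] (c d : α → ℚ) (M : Matrix α α ℚ) :
    (Matrix.of fun a b => c a * d b * M a b).det = (∏ a, c a) * ((∏ a, d a) * M.det) := by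
  have h1 : (Matrix.of fun a b => c a * d b * M a b) =
      Matrix.of fun a b => c a * (Matrix.of fun a b => d b * M a b) a b := by
    ext a b
    simp only [Matrix.of_apply]
    ring
  rw [h1, Matrix.det_mul_column, Matrix.det_mul_row]

lemma XN_natDegree (n r : ℕ) : (XN n r).natDegree ≤ 1 := by
  unfold XN
  exact (natDegree_X_sub_C _).le

/-- the test polynomials -/
def PT (p r c l : ℕ) : ℚ[X] := XN (2 * p) r ^ l * OT p r c

lemma PT_natDegree (p r c l : ℕ) (hr1 : 1 ≤ r) (hr2 : 2 * r < p) (hl : l < c)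
    (hodd : p % 2 = 1) : (PT p r c l).natDegree < c * ((p - 1) / 2) := by
  have h1 : (XN (2 * p) r ^ l).natDegree ≤ l := by
    refine natDegree_pow_le.trans ?_
    have := XN_natDegree (2 * p) r
    nlinarith
  have h2 : (OT p r c).natDegree ≤ c * ((p - 1) / 2 - 1) := by
    unfold OT
    refine (natDegree_prod_le _ _).trans ?_
    have h3 : ∀ r' ∈ (Finset.Icc 1 ((p - 1) / 2)).erase r, (XN (2 * p) r' ^ c).natDegree ≤ c := by
      intro r' _
      refine natDegree_pow_le.trans ?_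
      have := XN_natDegree (2 * p) r'
      nlinarith
    refine (Finset.sum_le_sum h3).trans ?_
    rw [Finset.sum_const, Finset.card_erase_of_mem, Nat.card_Icc, smul_eq_mul]
    · rw [mul_comm]
      exact Nat.mul_le_mul_left _ (by omega)
    · rw [Finset.mem_Icc]
      omega
  unfold PT
  refine (natDegree_mul_le).trans_lt ?_
  obtain ⟨h, hh⟩ : ∃ h, (p - 1) / 2 = h + 1 := ⟨(p - 1) / 2 - 1, by omega⟩
  rw [hh] at h2 ⊢
  rw [Nat.add_sub_cancel] at h2
  rw [mul_add, mul_one]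
  omega

lemma PT_mul (p r l l' : ℕ) : PT p r 198 l * PT p r 66 l' =
    XN (2 * p) r ^ (l + l') * OT p r 264 := by
  unfold PT
  rw [pow_add]
  have h : OT p r 264 = OT p r 198 * OT p r 66 := by
    unfold OT
    rw [← Finset.prod_mul_distrib]
    refine Finset.prod_congr rfl fun r' _ => ?_
    rw [← pow_add]
  rw [h]
  ring

lemma norm_prod (p : ℕ) [Fact p.Prime] {ι : Type} [Fintype ι] (f : ι → ℚ)
    (hf : ∀ i, padicNorm p (f i) = 1) : padicNorm p (∏ i, f i) = 1 := by
  have h4 : padicNorm p (∏ i, f i) = ∏ i, padicNorm p (f i) := by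
    exact map_prod (⟨⟨fun x => padicNorm p x, padicNorm.one⟩, fun x y => padicNorm.mul x y⟩ :
      ℚ →* ℚ) f Finset.univ
  rw [h4]
  exact Finset.prod_eq_one fun i _ => hf i

lemma norm_pow (p : ℕ) [Fact p.Prime] (x : ℚ) (hx : padicNorm p x = 1) (k : ℕ) :
    padicNorm p (x ^ k) = 1 := by
  induction k with
  | zero => simp
  | succ k ih => rw [pow_succ, padicNorm.mul, ih, hx, one_mul]

lemma fin_int (F : ℕ → ℚ) (N : ℕ) :
    ∃ p2 : ℕ, ∀ e ∈ Finset.range N, ∀ p : ℕ, p2 ≤ p → p.Prime → padicNorm p (F e) ≤ 1 := by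
  choose f hf using fun e : ℕ => Pool.Agent.H336R2.HD.H6_int (F e)
  refine ⟨(Finset.range N).sup f, fun e he p hp hpp => hf e p ?_ hpp⟩
  exact (Finset.le_sup (f := f) he).trans hp

lemma UInt_norm (p q : ℕ) (hpp : p.Prime) (hqp : q < p) (u : ℕ → ℚ) (hu : UInt q u) (i : ℕ) :
    padicNorm p (u i) ≤ 1 := by
  have : Fact p.Prime := ⟨hpp⟩
  have hq0 : 0 < q := hu.1
  obtain ⟨z, hz⟩ := hu.2 i
  have h1 : padicNorm p ((q : ℕ) : ℚ) = 1 := by
    rw [padicNorm.nat_eq_one_iff]
    intro h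
    have := Nat.le_of_dvd hq0 h
    omega
  have h2 : padicNorm p ((q : ℚ) * u i) ≤ 1 := by
    rw [hz]
    exact padicNorm.of_int z
  rw [padicNorm.mul] at h2
  rw [h1, one_mul] at h2
  exact h2

/-- a linear functional on a product of polynomials -/
lemma L_mul (L : ℚ[X] →ₗ[ℚ] ℚ) (P Q : ℚ[X]) (M N : ℕ) (hP : P.natDegree < M) (hQ : Q.natDegree < N) :
    L (P * Q) = ∑ j ∈ Finset.range N, (∑ i ∈ Finset.range M, P.coeff i * L (X ^ (i + j))) * Q.coeff j := by
  have h1 : P * Q = ∑ i ∈ Finset.range M, ∑ j ∈ Finset.range N,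
      (P.coeff i * Q.coeff j) • (X ^ (i + j) : ℚ[X]) := by
    conv_lhs => rw [as_sum_range' P M hP, as_sum_range' Q N hQ]
    rw [Finset.sum_mul_sum]
    refine Finset.sum_congr rfl fun i _ => Finset.sum_congr rfl fun j _ => ?_
    rw [monomial_mul_monomial, smul_X_eq_monomial]
  rw [h1, map_sum, Finset.sum_congr rfl fun i _ => map_sum _ _ _, Finset.sum_comm]
  refine Finset.sum_congr rfl fun j _ => ?_
  rw [Finset.sum_mul]
  refine Finset.sum_congr rfl fun i _ => ?_
  rw [map_smul, smul_eq_mul]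
  ring

lemma sum_prod (m : ℕ) (f : ℕ → ℚ) :
    ∑ s : Fin 3 × Fin m, f (s.1.1 * m + s.2.1) = ∑ i ∈ Finset.range (3 * m), f i := by
  rw [← Fin.sum_univ_eq_sum_range, ← (finProdFinEquiv (m := 3) (n := m)).sum_comp]
  refine Finset.sum_congr rfl fun s _ => ?_
  simp only [finProdFinEquiv_apply_val]
  congr 1
  ring

/-- non-vanishing from a family of test polynomials -/
lemma det_ne (L : Fin 3 → ℚ[X] →ₗ[ℚ] ℚ) (m : ℕ) {R : Type} [Fintype R] [DecidableEq R]
    (hR : Fintype.card R = 3 * m) (P : R → ℚ[X]) (Q : R → ℚ[X]) (c : R → Fin 3)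
    (hP : ∀ r, (P r).natDegree < 3 * m) (hQ : ∀ r, (Q r).natDegree < m)
    (h : (Matrix.of fun r s : R => L (c s) (P r * Q s)).det ≠ 0) : (M3 L m).det ≠ 0 := by
  intro h0
  apply h
  have hcard : Fintype.card R = Fintype.card (Fin 3 × Fin m) := by
    rw [hR, Fintype.card_prod, Fintype.card_fin, Fintype.card_fin]
  obtain ⟨e⟩ : Nonempty (R ≃ Fin 3 × Fin m) := ⟨Fintype.equivOfCardEq hcard⟩
  set Rw : Matrix R R ℚ := Matrix.of fun r s => (P r).coeff ((e s).1.1 * m + (e s).2.1) with hRw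
  set Cl : Matrix R R ℚ := Matrix.of fun s r => if (e s).1 = c r then (Q r).coeff (e s).2.1 else 0 with hCl
  have key : (Matrix.of fun r s : R => L (c s) (P r * Q s)) = Rw * (M3 L m).submatrix e e * Cl := by
    ext r s
    rw [Matrix.of_apply, L_mul (L (c s)) (P r) (Q s) (3 * m) m (hP r) (hQ s), Matrix.mul_apply]
    rw [← e.symm.sum_comp, Fintype.sum_prod_type, Finset.sum_eq_single (c s)]
    · rw [← Fin.sum_univ_eq_sum_range (fun j => (∑ i ∈ Finset.range (3 * m), (P r).coeff i *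
        (L (c s)) (X ^ (i + j))) * (Q s).coeff j)]
      refine Finset.sum_congr rfl fun j _ => ?_
      simp only [hCl, Matrix.of_apply, Equiv.apply_symm_apply, if_true]
      congr 1
      rw [Matrix.mul_apply, ← e.symm.sum_comp, ← sum_prod]
      refine Finset.sum_congr rfl fun i _ => ?_
      simp only [hRw, Matrix.of_apply, Equiv.apply_symm_apply, Matrix.submatrix_apply, M3]
    · intro b _ hb
      refine Finset.sum_eq_zero fun j _ => ?_
      simp only [hCl, Matrix.of_apply, Equiv.apply_symm_apply, if_neg hb, mul_zero]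
    · intro hn
      exact absurd (Finset.mem_univ _) hn
  rw [key, Matrix.det_mul, Matrix.det_mul, Matrix.det_submatrix_equiv_self, h0, mul_zero, zero_mul]

/-- weights of the blocks -/
def ww (i1 : ℕ) (c : Fin 3) : ℕ := if c = 0 then 0 else if c = 1 then 3 else i1

/-- leading coefficients of the blocks -/
def cc (β γ : ℕ → ℚ) (i1 : ℕ) (c : Fin 3) : ℚ := if c = 0 then 1 else if c = 1 then β 3 else γ i1

/-- local functionals -/
def FB (i1 : ℕ) (c : Fin 3) (e : ℕ) : ℚ := if c = 0 then Fm e else if c = 1 then Bm 3 e else Bm i1 e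

end NVD

open NVD in
/-- non-vanishing at primes -/
theorem NV_of (hB : S_NVB) (hC : S_NVC) (hLOC : S_LOC) : S_NV := by
  intro α β γ q i1 hα hβ hγ hi1 hβ0 hβ3 hγ0 hγ1
  obtain ⟨p1, hp1⟩ := Pool.Agent.H336R2.HD.H6_unit _ (hLOC i1 hi1)
  obtain ⟨p2, hp2⟩ := fin_int Fm 300
  obtain ⟨p3, hp3⟩ := fin_int (Bm 3) 300
  obtain ⟨p4, hp4⟩ := Pool.Agent.H336R2.HD.H6_unit _ hβ3
  obtain ⟨p5, hp5⟩ := fin_int (Bm i1) 300
  obtain ⟨p6, hp6⟩ := Pool.Agent.H336R2.HD.H6_unit _ hγ1
  refine ⟨p1 + p2 + p3 + p4 + p5 + p6 + q + 300, fun p hp hpp => ?_⟩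
  have : Fact p.Prime := ⟨hpp⟩
  have hp300 : 300 ≤ p := by omega
  have hodd : p % 2 = 1 := by
    rcases hpp.eq_two_or_odd with h | h
    · omega
    · exact h
  have hαp : ∀ i, padicNorm p (α i) ≤ 1 := UInt_norm p q hpp (by omega) α hα
  have hβp : ∀ i, padicNorm p (β i) ≤ 1 := UInt_norm p q hpp (by omega) β hβ
  have hγp : ∀ i, padicNorm p (γ i) ≤ 1 := UInt_norm p q hpp (by omega) γ hγ
  set h := (p - 1) / 2 with hh
  have hph : p = 2 * h + 1 := by omega
  have hp0 : (p : ℚ) ≠ 0 := by exact_mod_cast hpp.ne_zero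
  have hi1odd : Odd i1 := by rcases hi1 with rfl | rfl <;> decide
  have hi199 : i1 ≤ 99 := by rcases hi1 with rfl | rfl <;> norm_num
  -- the diagonal blocks
  have hw : ∀ r : Fin h, ∃ w : ℚ, padicNorm p w = 1 ∧ ∀ (c : Fin 3) (e : ℕ), e ≤ 262 →
      padicNorm p ((p : ℚ) ^ (99 - (e : ℤ) - ww i1 c) *
        LL (2 * p) α β γ c (XN (2 * p) (r.1 + 1) ^ e * OT p (r.1 + 1) 264) -
        w * (1 - 2 * ((r.1 + 1 : ℕ) : ℚ)) ^ e * (cc β γ i1 c * FB i1 c e)) ≤ (p : ℚ)⁻¹ := by
    intro r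
    have hr := r.2
    obtain ⟨w, hw1, hw2⟩ := hB hp300 (r.1 + 1) (by omega) (by omega)
    refine ⟨w, hw1, fun c e he => ?_⟩
    fin_cases c
    · have h1 := (hw2 e he).1 α hαp
      simpa [ww, cc, FB, LL] using h1
    · have h1 := (hw2 e he).2 β 3 hβp (by decide) (by norm_num) hβ0
      simpa [ww, cc, FB, LL] using h1
    · have h1 := (hw2 e he).2 γ i1 hγp hi1odd hi199 hγ0
      simpa [ww, cc, FB, LL] using h1
  have hoff : ∀ (r s : Fin h) (l l' : ℕ) (c : Fin 3), r ≠ s → l < 198 → l' < 66 →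
      padicNorm p ((p : ℚ) ^ (99 - (l : ℤ) - l' - ww i1 c) *
        LL (2 * p) α β γ c (PT p (r.1 + 1) 198 l * PT p (s.1 + 1) 66 l')) ≤ (p : ℚ)⁻¹ := by
    intro r s l l' c hrs hl hl'
    have hr := r.2
    have hs := s.2
    have hrs' : r.1 + 1 ≠ s.1 + 1 := by
      intro h1
      apply hrs
      ext
      omega
    have h0 := hC hp300 (r.1 + 1) (s.1 + 1) l l' (by omega) (by omega) (by omega) (by omega) hrs' hl hl'
    fin_cases c
    · have h1 := h0.1 α hαp
      simpa [ww, LL, PT] using h1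
    · have h1 := h0.2 β 3 hβp (by norm_num) hβ0
      simpa [ww, LL, PT] using h1
    · have h1 := h0.2 γ i1 hγp hi199 hγ0
      simpa [ww, LL, PT] using h1
  choose w hw1 hw2 using hw
  have hunit : ∀ r : Fin h, padicNorm p (1 - 2 * ((r.1 + 1 : ℕ) : ℚ)) = 1 := by
    intro r
    have hr := r.2
    have h3 : (1 - 2 * ((r.1 + 1 : ℕ) : ℚ)) = ((-((2 * r.1 + 1 : ℕ) : ℤ) : ℤ) : ℚ) := by
      push_cast
      ring
    rw [h3, padicNorm.int_eq_one_iff]
    intro h4
    rw [Int.dvd_neg, Int.natCast_dvd_natCast] at h4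
    have := Nat.le_of_dvd (by omega) h4
    omega
  have hFB : ∀ (c : Fin 3) (e : ℕ), e < 300 → padicNorm p (FB i1 c e) ≤ 1 := by
    intro c e he
    unfold FB
    split_ifs
    · exact hp2 e (Finset.mem_range.2 he) p (by omega) hpp
    · exact hp3 e (Finset.mem_range.2 he) p (by omega) hpp
    · exact hp5 e (Finset.mem_range.2 he) p (by omega) hpp
  have hcc : ∀ c : Fin 3, padicNorm p (cc β γ i1 c) = 1 := by
    intro c
    unfold cc
    split_ifs
    · exact padicNorm.one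
    · exact hp4 p (by omega) hpp
    · exact hp6 p (by omega) hpp
  -- the Gram matrix
  set P : (Fin 3 × Fin 66) × Fin h → ℚ[X] := fun a => PT p (a.2.1 + 1) 198 (a.1.1.1 * 66 + a.1.2.1) with hP
  set Q : (Fin 3 × Fin 66) × Fin h → ℚ[X] := fun a => PT p (a.2.1 + 1) 66 a.1.2.1 with hQ
  set G : Matrix ((Fin 3 × Fin 66) × Fin h) ((Fin 3 × Fin 66) × Fin h) ℚ :=
    Matrix.of fun r s => LL (2 * p) α β γ s.1.1 (P r * Q s) with hG
  have key : G.det ≠ 0 := by
    set c : (Fin 3 × Fin 66) × Fin h → ℚ := fun a => (p : ℚ) ^ (99 - ((a.1.1.1 * 66 + a.1.2.1 : ℕ) : ℤ)) with hc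
    set d : (Fin 3 × Fin 66) × Fin h → ℚ := fun a => (p : ℚ) ^ (-(a.1.2.1 : ℤ) - ww i1 a.1.1) with hd
    set M : Matrix ((Fin 3 × Fin 66) × Fin h) ((Fin 3 × Fin 66) × Fin h) ℚ :=
      Matrix.of fun a b => c a * d b * G a b with hM
    set Bl : Fin h → Matrix (Fin 3 × Fin 66) (Fin 3 × Fin 66) ℚ := fun r =>
      Matrix.of fun l l' => w r * (1 - 2 * ((r.1 + 1 : ℕ) : ℚ)) ^ (l.1.1 * 66 + l.2.1 + l'.2.1) *
        (cc β γ i1 l'.1 * FB i1 l'.1 (l.1.1 * 66 + l.2.1 + l'.2.1)) with hBl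
    have hM0 : M.det ≠ 0 := by
      apply Pool.Agent.H336R2.HD.A6_det_congr p M (Matrix.blockDiagonal Bl)
      · intro a b
        rw [Matrix.blockDiagonal_apply]
        split_ifs with hab
        · simp only [hBl, Matrix.of_apply]
          have ha := a.1.1.2
          have ha' := a.1.2.2
          have hb := b.1.2.2
          rw [padicNorm.mul, padicNorm.mul, hw1, one_mul, norm_pow p _ (hunit a.2), one_mul,
            padicNorm.mul, hcc, one_mul]
          exact hFB _ _ (by omega)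
        · simp
      · intro a b
        rw [Matrix.blockDiagonal_apply]
        have ha := a.1.1.2
        have ha' := a.1.2.2
        have hb := b.1.2.2
        have hMab : M a b = (p : ℚ) ^ (99 - ((a.1.1.1 * 66 + a.1.2.1 : ℕ) : ℤ) - (b.1.2.1 : ℤ) - ww i1 b.1.1) *
              LL (2 * p) α β γ b.1.1 (PT p (a.2.1 + 1) 198 (a.1.1.1 * 66 + a.1.2.1) *
                PT p (b.2.1 + 1) 66 b.1.2.1) := by
            simp only [hM, hG, Matrix.of_apply, hc, hd, hQ, hP]
            rw [← zpow_add₀ hp0]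
            congr 2
            ring
        split_ifs with hab
        · rw [hMab, ← hab, PT_mul]
          have h1 := hw2 a.2 b.1.1 (a.1.1.1 * 66 + a.1.2.1 + b.1.2.1) (by omega)
          have h2 : (99 - ((a.1.1.1 * 66 + a.1.2.1 + b.1.2.1 : ℕ) : ℤ)) - ww i1 b.1.1 =
              99 - ((a.1.1.1 * 66 + a.1.2.1 : ℕ) : ℤ) - (b.1.2.1 : ℤ) - ww i1 b.1.1 := by
            push_cast
            ring
          rw [h2] at h1
          exact h1
        · rw [hMab, sub_zero]
          exact hoff a.2 b.2 _ _ _ hab (by omega) hb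
      · rw [Matrix.det_blockDiagonal]
        apply norm_prod p
        intro r
        have h1 : Bl r = Matrix.of fun l l' => (w r) *
            (Matrix.of fun l l' : Fin 3 × Fin 66 => ((1 - 2 * ((r.1 + 1 : ℕ) : ℚ)) ^ (l.1.1 * 66 + l.2.1)) *
              ((1 - 2 * ((r.1 + 1 : ℕ) : ℚ)) ^ l'.2.1 * cc β γ i1 l'.1) * (Mloc i1) l l') l l' := by
          ext l l'
          simp only [hBl, Matrix.of_apply]
          have e1 : Mloc i1 l l' = FB i1 l'.1 (l.1.1 * 66 + l.2.1 + l'.2.1) := by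
            simp only [Mloc, Matrix.of_apply, FB]
          rw [e1, pow_add]
          generalize (1 - 2 * ((r.1 + 1 : ℕ) : ℚ)) ^ (l.1.1 * 66 + l.2.1) = z1
          generalize (1 - 2 * ((r.1 + 1 : ℕ) : ℚ)) ^ l'.2.1 = z2
          generalize FB i1 l'.1 (l.1.1 * 66 + l.2.1 + l'.2.1) = z3
          generalize cc β γ i1 l'.1 = z4
          ring
        rw [h1, Matrix.det_mul_column (fun _ => w r), det_scale (fun l : Fin 3 × Fin 66 =>
          ((1 - 2 * ((r.1 + 1 : ℕ) : ℚ)) ^ (l.1.1 * 66 + l.2.1))) (fun l' : Fin 3 × Fin 66 =>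
          ((1 - 2 * ((r.1 + 1 : ℕ) : ℚ)) ^ l'.2.1 * cc β γ i1 l'.1))]
        have h5 : ∀ i : Fin 3 × Fin 66,
            padicNorm p ((1 - 2 * ((r.1 + 1 : ℕ) : ℚ)) ^ (i.1.1 * 66 + i.2.1)) = 1 := fun i =>
          norm_pow p _ (hunit r) _
        have h6 : ∀ i : Fin 3 × Fin 66,
            padicNorm p ((1 - 2 * ((r.1 + 1 : ℕ) : ℚ)) ^ i.2.1 * cc β γ i1 i.1) = 1 := by
          intro i
          rw [padicNorm.mul, norm_pow p _ (hunit r), hcc, one_mul]
        rw [padicNorm.mul, padicNorm.mul, padicNorm.mul, norm_prod p _ (fun _ => hw1 r),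
          norm_prod p _ h5, norm_prod p _ h6, hp1 p (by omega) hpp]
        norm_num
    intro h0
    apply hM0
    rw [hM, det_scale, h0, mul_zero, mul_zero]
  -- conclusion
  have hm : 33 * (p - 1) = 66 * h := by omega
  unfold DD
  rw [hm]
  refine det_ne (LL (2 * p) α β γ) (66 * h) ?_ P Q (fun s => s.1.1) ?_ ?_ key
  · simp only [Fintype.card_prod, Fintype.card_fin]
    ring
  · intro a
    have ha := a.1.1.2
    have ha' := a.1.2.2
    have ha2 := a.2.2
    have := PT_natDegree p (a.2.1 + 1) 198 (a.1.1.1 * 66 + a.1.2.1) (by omega) (by omega) (by omega) hodd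
    rw [← hh] at this
    rw [hP]
    refine this.trans_le ?_
    omega
  · intro a
    have ha := a.1.2.2
    have ha2 := a.2.2
    have := PT_natDegree p (a.2.1 + 1) 66 a.1.2.1 (by omega) (by omega) ha hodd
    rw [← hh] at this
    rw [hQ]
    exact this

end

end Pool.Agent.L0h38.Q4
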