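import Pool.Agent.L0h38.Q4.Stm

/-!
# OM1: the linear parts in terms of Hasse derivatives at the nodes of the poles (helper37)
-/

set_option autoImplicit false

open Polynomial Pool.Agent.H337R2

namespace Pool.Agent.L0h38.Q4

namespace OM1

/-- Taylor expansion of `Q (x(t))` at the pole `-k` -/
lemma TS_comp (n k N : ℕ) (Q : ℚ[X])
    (hN : (Polynomial.taylor (((n : ℚ) - k) * ((n : ℚ) + 1 - k)) Q).natDegree < N) :
    TS (-(k : ℚ)) (Q.comp (xP n)) = ∑ l ∈ Finset.range N,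
      PowerSeries.C ((hasseDeriv l Q).eval (((n : ℚ) - k) * ((n : ℚ) + 1 - k))) *
        (PowerSeries.X * (PowerSeries.X + PowerSeries.C ((2 * (n : ℚ) + 1 - 2 * k)))) ^ l := by
  obtain ⟨x, hx⟩ : ∃ x, x = ((n : ℚ) - k) * ((n : ℚ) + 1 - k) := ⟨_, rfl⟩
  rw [← hx] at hN ⊢
  have hTS : TS (-(k : ℚ)) (xP n - C x) =
      PowerSeries.X * (PowerSeries.X + PowerSeries.C ((2 * (n : ℚ) + 1 - 2 * k))) := by
    unfold xP
    rw [map_sub, map_mul, TS_lin, TS_lin, TS_C, hx]
    have e1 : (PowerSeries.C ((2 * (n : ℚ) + 1 - 2 * k)) : PowerSeries ℚ) =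
        PowerSeries.C (-(k : ℚ) + n) + PowerSeries.C (-(k : ℚ) + ((n + 1 : ℕ) : ℚ)) := by
      rw [← map_add]
      congr 1
      push_cast
      ring
    have e2 : (PowerSeries.C (((n : ℚ) - k) * ((n : ℚ) + 1 - k)) : PowerSeries ℚ) =
        PowerSeries.C (-(k : ℚ) + n) * PowerSeries.C (-(k : ℚ) + ((n + 1 : ℕ) : ℚ)) := by
      rw [← map_mul]
      congr 1
      push_cast
      ring
    rw [e1, e2]
    ring
  have hQ : Q.comp (xP n) = ∑ l ∈ Finset.range N, C ((hasseDeriv l Q).eval x) * (xP n - C x) ^ l := by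
    have h1 : Q.comp (xP n) = (Polynomial.taylor x Q).comp (xP n - C x) := by
      rw [Polynomial.taylor_apply, Polynomial.comp_assoc]
      congr 1
      simp
    rw [h1, Polynomial.comp_eq_sum_left, Polynomial.sum_over_range' _ _ N hN]
    · refine Finset.sum_congr rfl fun l _ => ?_
      rw [Polynomial.taylor_coeff]
    · intro l
      simp
  rw [hQ, map_sum]
  refine Finset.sum_congr rfl fun l _ => ?_
  rw [map_mul, map_pow, hTS, TS_C]

/-- the coefficient of `1/(t+k)^i` -/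
lemma pa_eq (n k i : ℕ) (Q : ℚ[X]) (hi : i ∈ Finset.Icc 1 99) :
    pa (sP n) mP (PP n * Q.comp (xP n)) k i = ∑ l ∈ Finset.range 99,
      (hasseDeriv l Q).eval (((n : ℚ) - k) * ((n : ℚ) + 1 - k)) * PowerSeries.coeff (99 - i)
        (TS (-(k : ℚ)) (PP n) * VV ((sP n).erase k) mP (-(k : ℚ)) *
          (PowerSeries.X * (PowerSeries.X + PowerSeries.C ((2 * (n : ℚ) + 1 - 2 * k)))) ^ l) := by
  rw [Finset.mem_Icc] at hi
  obtain ⟨x, hx⟩ : ∃ x, x = ((n : ℚ) - k) * ((n : ℚ) + 1 - k) := ⟨_, rfl⟩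
  obtain ⟨N, hN⟩ : ∃ N, N = max 99 ((Polynomial.taylor x Q).natDegree + 1) := ⟨_, rfl⟩
  have h99 : 99 ≤ N := by rw [hN]; exact le_max_left _ _
  have hNd : (Polynomial.taylor x Q).natDegree < N := by
    rw [hN]
    exact lt_of_lt_of_le (Nat.lt_succ_self _) (le_max_right _ _)
  unfold pa
  rw [if_pos hi.2]
  unfold pfc
  rw [(TS (-(k : ℚ))).map_mul, TS_comp n k N Q (by rw [← hx]; exact hNd), ← hx, Finset.mul_sum, Finset.sum_mul, map_sum]
  rw [show mP k - i = 99 - i from rfl]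
  have hz : ∀ l ∈ Finset.range N, l ∉ Finset.range 99 →
      PowerSeries.coeff (99 - i) (TS (-(k : ℚ)) (PP n) *
        (PowerSeries.C ((hasseDeriv l Q).eval x) *
          (PowerSeries.X * (PowerSeries.X + PowerSeries.C ((2 * (n : ℚ) + 1 - 2 * k)))) ^ l) *
        VV ((sP n).erase k) mP (-(k : ℚ))) = 0 := by
    intro l _ hl
    rw [Finset.mem_range, not_lt] at hl
    have h1 : TS (-(k : ℚ)) (PP n) *
        (PowerSeries.C ((hasseDeriv l Q).eval x) *
          (PowerSeries.X * (PowerSeries.X + PowerSeries.C ((2 * (n : ℚ) + 1 - 2 * k)))) ^ l) *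
        VV ((sP n).erase k) mP (-(k : ℚ)) = PowerSeries.X ^ l * (TS (-(k : ℚ)) (PP n) *
        (PowerSeries.C ((hasseDeriv l Q).eval x) *
          (PowerSeries.X + PowerSeries.C ((2 * (n : ℚ) + 1 - 2 * k))) ^ l) *
        VV ((sP n).erase k) mP (-(k : ℚ))) := by
      rw [mul_pow]
      ring
    rw [h1, PowerSeries.coeff_X_pow_mul', if_neg (by omega)]
  rw [← Finset.sum_subset (Finset.range_subset_range.2 h99) hz]
  refine Finset.sum_congr rfl fun l _ => ?_
  rw [← PowerSeries.coeff_C_mul]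
  congr 1
  ring

end OM1

theorem OM1 : S_OM1 := by
  intro n β Q
  rw [BL_apply]
  unfold xb rho
  have h1 : ∀ i ∈ Finset.Icc 1 99, (∑ k ∈ sP n, pa (sP n) mP (PP n * Q.comp (xP n)) k i) * β i =
      ∑ k ∈ sP n, ∑ l ∈ Finset.range 99, β i * PowerSeries.coeff (99 - i)
        (TS (-(k : ℚ)) (PP n) * VV ((sP n).erase k) mP (-(k : ℚ)) *
          (PowerSeries.X * (PowerSeries.X + PowerSeries.C ((2 * (n : ℚ) + 1 - 2 * k)))) ^ l) *
        (hasseDeriv l Q).eval (((n : ℚ) - k) * ((n : ℚ) + 1 - k)) := by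
    intro i hi
    rw [Finset.sum_mul]
    refine Finset.sum_congr rfl fun k _ => ?_
    rw [OM1.pa_eq n k i Q hi, Finset.sum_mul]
    refine Finset.sum_congr rfl fun l _ => ?_
    ring
  rw [Finset.sum_congr rfl h1, Finset.sum_comm]
  refine Finset.sum_congr rfl fun k _ => ?_
  rw [Finset.sum_comm]
  refine Finset.sum_congr rfl fun l _ => ?_
  unfold om
  rw [Finset.sum_mul]

end Pool.Agent.L0h38.Q4
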