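import Pool.Agent.L0h38.Q4.Stm
import Pool.Agent.N334.W.OM2

/-!
# OM2: bounds of the coefficients of the Hasse derivatives (helper37)
-/

set_option autoImplicit false

open Polynomial Pool.Agent.H337R2 Pool.Agent.N334.W

namespace Pool.Agent.L0h38.Q4

namespace OM2

noncomputable section

lemma maj_iv (a : ℚ) : OM2_Maj (iv a) (1 / |a|) (1 / |a|) := by
  intro j
  rw [iv, PowerSeries.coeff_mk, abs_div, abs_pow, abs_neg, abs_one, one_pow, abs_pow]
  apply le_of_eq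
  rw [pow_succ, one_div, one_div, inv_pow, mul_comm, mul_inv]

lemma maj_lin {g u r : ℚ} (hur : |u| ≤ |g| * r) :
    OM2_Maj (PowerSeries.C u * PowerSeries.X + PowerSeries.C g) |g| r := by
  intro j
  rw [map_add]
  rcases j with _ | j
  · simp
  · rw [PowerSeries.coeff_C_mul, PowerSeries.coeff_X, PowerSeries.coeff_C, if_neg (Nat.succ_ne_zero j), add_zero]
    have hr : 0 ≤ |g| * r := (abs_nonneg _).trans hur
    split_ifs with h
    · have h0 : j = 0 := by omega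
      subst h0
      rw [mul_one, zero_add, pow_one]
      exact hur
    · simp only [mul_zero, abs_zero]
      rcases eq_or_lt_of_le (abs_nonneg g) with h0 | h0
      · rw [← h0]
        simp
      · have hr' : 0 ≤ r := by
          by_contra hcon
          push Not at hcon
          nlinarith
        positivity

/-- the numbers `|k' - k|` -/
lemma prod_dist (n k : ℕ) (hk : k ∈ sP n) : ∏ k' ∈ (sP n).erase k, |-(k : ℚ) + k'| =
    ((k - 1).factorial : ℚ) * ((2 * n - k).factorial : ℚ) := by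
  rw [Finset.mem_Icc] at hk
  have e : (sP n).erase k = Finset.Ico 1 k ∪ Finset.Ico (k + 1) (2 * n + 1) := by
    ext a
    simp only [Finset.mem_erase, Finset.mem_Icc, Finset.mem_union, Finset.mem_Ico]
    omega
  have hd : Disjoint (Finset.Ico 1 k) (Finset.Ico (k + 1) (2 * n + 1)) := by
    rw [Finset.disjoint_left]
    intro a ha hb
    rw [Finset.mem_Ico] at ha hb
    omega
  rw [e, Finset.prod_union hd]
  congr 1
  · rw [Finset.prod_Ico_eq_prod_range, ← Finset.prod_range_add_one_eq_factorial,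
      ← Finset.prod_range_reflect (fun i : ℕ => |-(k : ℚ) + ((1 + i : ℕ) : ℚ)|)]
    push_cast
    refine Finset.prod_congr rfl fun i hi => ?_
    rw [Finset.mem_range] at hi
    have h1 : (k - 1 - 1 - i) + 1 + (i + 1) = k := by omega
    have h2 : (((k - 1 - 1 - i : ℕ) : ℚ) + 1) + ((i : ℚ) + 1) = k := by exact_mod_cast h1
    rw [show -(k : ℚ) + (1 + ((k - 1 - 1 - i : ℕ) : ℚ)) = -((i : ℚ) + 1) by linarith, abs_neg]
    exact abs_of_pos (by positivity)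
  · rw [Finset.prod_Ico_eq_prod_range, ← Finset.prod_range_add_one_eq_factorial]
    push_cast
    refine Finset.prod_congr rfl fun i hi => ?_
    rw [show -(k : ℚ) + (k + 1 + i) = (i : ℚ) + 1 by ring]
    exact abs_of_pos (by positivity)

lemma maj_VV (n k : ℕ) (hk : k ∈ sP n) : OM2_Maj (VV ((sP n).erase k) mP (-(k : ℚ)))
    ((1 / (((k - 1).factorial : ℚ) * ((2 * n - k).factorial : ℚ))) ^ 99) (198 * n) := by
  have hne : ∀ k' ∈ (sP n).erase k, -(k : ℚ) + k' ≠ 0 := by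
    intro k' hk' h0
    apply (Finset.mem_erase.1 hk').1
    have : (k' : ℚ) = k := by linarith
    exact_mod_cast this
  have h1 : ∀ k' ∈ (sP n).erase k, 1 ≤ |-(k : ℚ) + k'| := by
    intro k' hk'
    have h := hne k' hk'
    have e : -(k : ℚ) + k' = ((-(k : ℤ) + k' : ℤ) : ℚ) := by push_cast; ring
    rw [e] at h ⊢
    have h2 : (-(k : ℤ) + k') ≠ 0 := by exact_mod_cast h
    have h3 : 1 ≤ |(-(k : ℤ) + k')| := Int.one_le_abs h2
    exact_mod_cast h3
  have h3 : OM2_Maj (VV ((sP n).erase k) mP (-(k : ℚ))) (∏ k' ∈ (sP n).erase k, (1 / |-(k : ℚ) + k'|) ^ 99)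
      (∑ k' ∈ (sP n).erase k, (99 : ℚ) * (1 / |-(k : ℚ) + k'|)) := by
    unfold VV
    refine OM2_prod _ _ _ _ (fun k' hk' => ?_) (fun k' hk' => ?_) (fun k' hk' => ?_)
    · have h4 := OM2_pow (maj_iv (-(k : ℚ) + k')) (by positivity) (by positivity) 99
      exact_mod_cast h4
    · positivity
    · positivity
  have h4 : ∑ k' ∈ (sP n).erase k, (99 : ℚ) * (1 / |-(k : ℚ) + k'|) ≤ 198 * n := by
    have e1 : ∀ k' ∈ (sP n).erase k, (99 : ℚ) * (1 / |-(k : ℚ) + k'|) ≤ 99 := by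
      intro k' hk'
      have h5 := h1 k' hk'
      have h6 : 1 / |-(k : ℚ) + k'| ≤ 1 := by
        rw [div_le_one (by linarith)]
        exact h5
      linarith
    refine (Finset.sum_le_sum e1).trans ?_
    rw [Finset.sum_const, nsmul_eq_mul]
    have h7 : ((sP n).erase k).card ≤ 2 * n := by
      refine (Finset.card_erase_le).trans ?_
      rw [Nat.card_Icc]
      omega
    have h8 : (((sP n).erase k).card : ℚ) ≤ 2 * n := by exact_mod_cast h7
    linarith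
  have e : ∏ k' ∈ (sP n).erase k, (1 / |-(k : ℚ) + k'|) ^ 99 =
      (1 / (((k - 1).factorial : ℚ) * ((2 * n - k).factorial : ℚ))) ^ 99 := by
    rw [Finset.prod_pow, ← prod_dist n k hk, Finset.prod_div_distrib, Finset.prod_const_one]
  rw [e] at h3
  exact OM2_mono h3 (by positivity) (Finset.sum_nonneg fun k' _ => by positivity) h4

lemma maj_PP (n k : ℕ) (hu : 1 ≤ |2 * (n : ℚ) + 1 - 2 * k|) : OM2_Maj (TS (-(k : ℚ)) (PP n))
    (((2 * n - 1).factorial : ℚ) ^ 99 * |2 * (n : ℚ) + 1 - 2 * k| ^ 401) 802 := by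
  have h1 : TS (-(k : ℚ)) (PP n) = PowerSeries.C (((2 * n - 1).factorial : ℚ) ^ 99) *
      (PowerSeries.C 2 * PowerSeries.X + PowerSeries.C (2 * (n : ℚ) + 1 - 2 * k)) ^ 401 := by
    unfold PP
    rw [(TS (-(k : ℚ))).map_mul, TS_C, (TS (-(k : ℚ))).map_pow, (TS (-(k : ℚ))).map_add,
      (TS (-(k : ℚ))).map_mul, TS_X, TS_C]
    have e2 : (TS (-(k : ℚ))) 2 = PowerSeries.C 2 := by
      have := TS_C (-(k : ℚ)) 2
      rwa [show (C (2 : ℚ) : ℚ[X]) = 2 from rfl] at this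
    rw [e2]
    congr 2
    rw [mul_add, ← map_mul, add_assoc, ← map_add]
    congr 2
    push_cast
    ring
  rw [h1]
  have h2 : OM2_Maj (PowerSeries.C 2 * PowerSeries.X + PowerSeries.C (2 * (n : ℚ) + 1 - 2 * k))
      |2 * (n : ℚ) + 1 - 2 * k| 2 := maj_lin (by
        rw [abs_of_pos (by norm_num : (0 : ℚ) < 2)]
        linarith)
  have h3 := OM2_pow h2 (abs_nonneg _) (by norm_num) 401
  have h4 := OM2_C (((2 * n - 1).factorial : ℚ) ^ 99)
  rw [abs_of_nonneg (by positivity)] at h4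
  have h5 := OM2_mul h4 h3 (by positivity) (by positivity) le_rfl (by norm_num)
  have e : (0 : ℚ) + ((401 : ℕ) : ℚ) * 2 = 802 := by norm_num
  rw [e] at h5
  exact h5

/-- the bound of one coefficient -/
lemma coeff_bd (n k l d : ℕ) (hn : 1 ≤ n) (hk : k ∈ sP n) (hl : l < 99) (hd : d < 99) :
    |PowerSeries.coeff d (TS (-(k : ℚ)) (PP n) * VV ((sP n).erase k) mP (-(k : ℚ)) *
      (PowerSeries.X * (PowerSeries.X + PowerSeries.C ((2 * (n : ℚ) + 1 - 2 * k)))) ^ l)| ≤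
    ((2 * (n : ℚ)) ^ 401 * (1099 * n) ^ 98) * ((((2 * n - 1).choose (k - 1) : ℕ) : ℚ)) ^ 99 *
      |2 * (n : ℚ) + 1 - 2 * k| ^ l := by
  obtain ⟨u, hu⟩ : ∃ u, u = 2 * (n : ℚ) + 1 - 2 * k := ⟨_, rfl⟩
  have hnq : (1 : ℚ) ≤ n := by exact_mod_cast hn
  have hk' := Finset.mem_Icc.1 hk
  have hkq1 : (1 : ℚ) ≤ k := by exact_mod_cast hk'.1
  have hkq2 : (k : ℚ) ≤ 2 * n := by exact_mod_cast hk'.2
  have hu1 : 1 ≤ |u| := by
    have e : u = ((2 * (n : ℤ) + 1 - 2 * k : ℤ) : ℚ) := by rw [hu]; push_cast; ring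
    rw [e]
    have h2 : (2 * (n : ℤ) + 1 - 2 * k) ≠ 0 := by omega
    have h3 : 1 ≤ |(2 * (n : ℤ) + 1 - 2 * k)| := Int.one_le_abs h2
    exact_mod_cast h3
  have hu2 : |u| ≤ 2 * n := by
    rw [hu, abs_le]
    constructor <;> linarith
  have hP := maj_PP n k (by rw [← hu]; exact hu1)
  have hV := maj_VV n k hk
  rw [← hu] at hP ⊢
  have hX : OM2_Maj (PowerSeries.C 1 * PowerSeries.X + PowerSeries.C u) |u| 1 := maj_lin (by
    rw [abs_one]; linarith)
  have h1 := OM2_mul hP hV (by positivity) (by positivity) (by norm_num) (by positivity)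
  have h2 := OM2_mul h1 (OM2_pow hX (abs_nonneg _) zero_le_one l) (by positivity) (by positivity)
    (by positivity) (by positivity)
  rw [map_one, one_mul] at h2
  have h3 : TS (-(k : ℚ)) (PP n) * VV ((sP n).erase k) mP (-(k : ℚ)) *
      (PowerSeries.X * (PowerSeries.X + PowerSeries.C u)) ^ l = PowerSeries.X ^ l *
      (TS (-(k : ℚ)) (PP n) * VV ((sP n).erase k) mP (-(k : ℚ)) *
      (PowerSeries.X + PowerSeries.C u) ^ l) := by
    rw [mul_pow]
    ring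
  rw [h3, PowerSeries.coeff_X_pow_mul']
  split_ifs with hld
  swap
  · rw [abs_zero]
    positivity
  refine (h2 (d - l)).trans ?_
  have hr : (802 + 198 * (n : ℚ) + (l : ℚ) * 1) ^ (d - l) ≤ (1099 * n) ^ 98 := by
    have e1 : (l : ℚ) ≤ 99 := by exact_mod_cast hl.le
    calc (802 + 198 * (n : ℚ) + (l : ℚ) * 1) ^ (d - l) ≤ (1099 * (n : ℚ)) ^ (d - l) :=
          pow_le_pow_left₀ (by positivity) (by linarith) _
      _ ≤ (1099 * n) ^ 98 := pow_le_pow_right₀ (by linarith) (by omega)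
  have hch : ((2 * n - 1).factorial : ℚ) * (1 / (((k - 1).factorial : ℚ) * ((2 * n - k).factorial : ℚ))) =
      (((2 * n - 1).choose (k - 1) : ℕ) : ℚ) := by
    have e5 : 2 * n - 1 - (k - 1) = 2 * n - k := by omega
    rw [Nat.cast_choose ℚ (by omega : k - 1 ≤ 2 * n - 1), mul_one_div, e5]
  have hu3 : |u| ^ 401 ≤ (2 * (n : ℚ)) ^ 401 := pow_le_pow_left₀ (abs_nonneg _) hu2 _
  have e4 : ((2 * n - 1).factorial : ℚ) ^ 99 * |u| ^ 401 *
      (1 / (((k - 1).factorial : ℚ) * ((2 * n - k).factorial : ℚ))) ^ 99 * |u| ^ l *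
      (802 + 198 * (n : ℚ) + (l : ℚ) * 1) ^ (d - l) =
      (|u| ^ 401 * (802 + 198 * (n : ℚ) + (l : ℚ) * 1) ^ (d - l)) *
      ((((2 * n - 1).choose (k - 1) : ℕ) : ℚ)) ^ 99 * |u| ^ l := by
    rw [← hch, mul_pow]
    ring
  rw [e4]
  have h5 : |u| ^ 401 * (802 + 198 * (n : ℚ) + (l : ℚ) * 1) ^ (d - l) ≤ (2 * (n : ℚ)) ^ 401 * (1099 * n) ^ 98 :=
    mul_le_mul hu3 hr (by positivity) (by positivity)
  have h6 : 0 ≤ ((((2 * n - 1).choose (k - 1) : ℕ) : ℚ)) ^ 99 := by positivity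
  exact mul_le_mul_of_nonneg_right (mul_le_mul_of_nonneg_right h5 h6) (by positivity)

end

end OM2

theorem OM2 : S_OM2 := by
  intro β
  obtain ⟨K0, hK0⟩ : ∃ K0 : ℕ, ∑ i ∈ Finset.Icc 1 99, |β i| ≤ (2 : ℚ) ^ K0 := by
    obtain ⟨K0, hK0⟩ := pow_unbounded_of_one_lt (∑ i ∈ Finset.Icc 1 99, |β i|) (by norm_num : (1 : ℚ) < 2)
    exact ⟨K0, hK0.le⟩
  refine ⟨K0 + (802 + 12 * 98), fun n hn k hk l hl => ?_⟩
  have hnq : (2 : ℚ) ≤ n := by exact_mod_cast hn
  have hB : |om n β k l| ≤ (n : ℚ) ^ (K0 + (802 + 12 * 98)) *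
      ((((2 * n - 1).choose (k - 1) : ℕ) : ℚ)) ^ 99 * |2 * (n : ℚ) + 1 - 2 * k| ^ l := by
    unfold om
    refine (Finset.abs_sum_le_sum_abs _ _).trans ?_
    have h1 : ∀ i ∈ Finset.Icc 1 99, |β i * PowerSeries.coeff (99 - i)
        (TS (-(k : ℚ)) (PP n) * VV ((sP n).erase k) mP (-(k : ℚ)) *
          (PowerSeries.X * (PowerSeries.X + PowerSeries.C ((2 * (n : ℚ) + 1 - 2 * k)))) ^ l)| ≤
        |β i| * (((2 * (n : ℚ)) ^ 401 * (1099 * n) ^ 98) * ((((2 * n - 1).choose (k - 1) : ℕ) : ℚ)) ^ 99 *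
      |2 * (n : ℚ) + 1 - 2 * k| ^ l) := by
      intro i hi
      rw [Finset.mem_Icc] at hi
      rw [abs_mul]
      exact mul_le_mul_of_nonneg_left (OM2.coeff_bd n k l (99 - i) (by omega) hk hl (by omega)) (abs_nonneg _)
    refine (Finset.sum_le_sum h1).trans ?_
    rw [← Finset.sum_mul]
    have h2 : (2 * (n : ℚ)) ^ 401 ≤ (n : ℚ) ^ 802 := by
      calc (2 * (n : ℚ)) ^ 401 ≤ ((n : ℚ) ^ 2) ^ 401 := pow_le_pow_left₀ (by positivity) (by nlinarith) _
        _ = (n : ℚ) ^ 802 := by rw [← pow_mul]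
    have h3 : (1099 * (n : ℚ)) ^ 98 ≤ (n : ℚ) ^ (12 * 98) := by
      have h4 : 1099 * (n : ℚ) ≤ (n : ℚ) ^ 12 := by
        have h5 : (2 : ℚ) ^ 11 ≤ (n : ℚ) ^ 11 := pow_le_pow_left₀ (by norm_num) hnq _
        have h6 : (n : ℚ) ^ 12 = (n : ℚ) ^ 11 * n := by ring
        rw [h6]
        exact mul_le_mul_of_nonneg_right (le_trans (by norm_num) h5) (by positivity)
      calc (1099 * (n : ℚ)) ^ 98 ≤ ((n : ℚ) ^ 12) ^ 98 := pow_le_pow_left₀ (by positivity) h4 _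
        _ = (n : ℚ) ^ (12 * 98) := by rw [← pow_mul]
    have h4 : ∑ i ∈ Finset.Icc 1 99, |β i| ≤ (n : ℚ) ^ K0 :=
      hK0.trans (pow_le_pow_left₀ (by norm_num) hnq _)
    have h5 : (2 * (n : ℚ)) ^ 401 * (1099 * n) ^ 98 ≤ (n : ℚ) ^ 802 * (n : ℚ) ^ (12 * 98) :=
      mul_le_mul h2 h3 (by positivity) (by positivity)
    have h6 : (∑ i ∈ Finset.Icc 1 99, |β i|) * ((2 * (n : ℚ)) ^ 401 * (1099 * n) ^ 98) ≤
        (n : ℚ) ^ (K0 + (802 + 12 * 98)) := by
      rw [pow_add, pow_add]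
      exact mul_le_mul h4 h5 (by positivity) (by positivity)
    calc (∑ i ∈ Finset.Icc 1 99, |β i|) * (((2 * (n : ℚ)) ^ 401 * (1099 * n) ^ 98) *
          ((((2 * n - 1).choose (k - 1) : ℕ) : ℚ)) ^ 99 * |2 * (n : ℚ) + 1 - 2 * k| ^ l)
        = ((∑ i ∈ Finset.Icc 1 99, |β i|) * ((2 * (n : ℚ)) ^ 401 * (1099 * n) ^ 98)) *
          (((((2 * n - 1).choose (k - 1) : ℕ) : ℚ)) ^ 99 * |2 * (n : ℚ) + 1 - 2 * k| ^ l) := by ring
      _ ≤ (n : ℚ) ^ (K0 + (802 + 12 * 98)) *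
          (((((2 * n - 1).choose (k - 1) : ℕ) : ℚ)) ^ 99 * |2 * (n : ℚ) + 1 - 2 * k| ^ l) :=
          mul_le_mul_of_nonneg_right h6 (by positivity)
      _ = _ := by ring
  have h2 : ((|om n β k l| : ℚ) : ℝ) ≤ (((n : ℚ) ^ (K0 + (802 + 12 * 98)) *
      ((((2 * n - 1).choose (k - 1) : ℕ) : ℚ)) ^ 99 * |2 * (n : ℚ) + 1 - 2 * k| ^ l : ℚ) : ℝ) := by
    exact_mod_cast hB
  push_cast at h2
  exact h2

end Pool.Agent.L0h38.Q4
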