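import Pool.Agent.L0h38.Q4.LV

/-!
# P0, PL: the small and the large primes

The determinant is computed with the basis `CP i = ∏_{a < i} (x - a (a+1))`; at `x = (t+n)(t+n+1)` these
polynomials are products of `2i` consecutive integers, so they are divisible by `(2i)!`.
-/

open Polynomial Pool.Agent.H337R2

namespace Pool.Agent.L0h38.Q4

noncomputable section

namespace P0_

/-! ### determinants -/

/-- the position of an index -/
def ix (m : ℕ) (r : Fin 3 × Fin m) : ℕ := r.1.1 * m + r.2.1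

lemma ix_lt (m : ℕ) (r : Fin 3 × Fin m) : ix m r < 3 * m := by
  unfold ix
  have h1 := r.1.2
  have h2 := r.2.2
  have h3 : r.1.1 * m ≤ 2 * m := Nat.mul_le_mul_right m (by omega)
  omega

lemma ix_eq (m : ℕ) (r : Fin 3 × Fin m) : ((finProdFinEquiv r : Fin (3 * m)) : ℕ) = ix m r := by
  unfold ix
  simp [finProdFinEquiv]
  ring

lemma ix_inj (m : ℕ) {r s : Fin 3 × Fin m} (h : ix m r = ix m s) : r = s := by
  apply (finProdFinEquiv (m := 3) (n := m)).injective
  apply Fin.ext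
  rw [ix_eq, ix_eq, h]

/-- triangular matrices with ones on the diagonal -/
lemma det_tri (m : ℕ) (M : Matrix (Fin 3 × Fin m) (Fin 3 × Fin m) ℚ)
    (h0 : ∀ r s, ix m r < ix m s → M r s = 0) (h1 : ∀ r, M r r = 1) : M.det = 1 := by
  rw [← Matrix.det_reindex_self (finProdFinEquiv (m := 3) (n := m)) M, Matrix.det_of_isLowerTriangular]
  · apply Finset.prod_eq_one
    intro i _
    rw [Matrix.reindex_apply, Matrix.submatrix_apply]
    exact h1 _
  · intro i j hij
    rw [Matrix.reindex_apply, Matrix.submatrix_apply]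
    apply h0
    rw [← ix_eq, ← ix_eq, Equiv.apply_symm_apply, Equiv.apply_symm_apply]
    exact hij

lemma expand1 (m : ℕ) (P : ℚ[X]) (h : P.natDegree < m) :
    P = ∑ k : Fin m, (P.coeff k) • (X ^ (k : ℕ) : ℚ[X]) := by
  conv_lhs => rw [P.as_sum_range' m h]
  rw [Fin.sum_univ_eq_sum_range (fun k => (P.coeff k) • (X ^ k : ℚ[X])) m]
  apply Finset.sum_congr rfl
  intro k _
  rw [← Polynomial.C_mul_X_pow_eq_monomial, Polynomial.smul_eq_C_mul]

lemma expand3 (m : ℕ) (P : ℚ[X]) (h : P.natDegree < 3 * m) :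
    P = ∑ r : Fin 3 × Fin m, (P.coeff (ix m r)) • (X ^ (ix m r) : ℚ[X]) := by
  conv_lhs => rw [expand1 (3 * m) P h]
  symm
  apply Fintype.sum_equiv (finProdFinEquiv (m := 3) (n := m))
  intro r
  rw [ix_eq]

/-- change of the basis -/
lemma det_basis (L : Fin 3 → ℚ[X] →ₗ[ℚ] ℚ) (m : ℕ) (P : ℕ → ℚ[X])
    (hP : ∀ i, (P i).Monic ∧ (P i).natDegree = i) :
    (Matrix.of fun r c : Fin 3 × Fin m => L c.1 (P (ix m r) * P c.2.1)).det = (M3 L m).det := by
  have hcoe : ∀ i, (P i).coeff i = 1 := by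
    intro i
    have h3 := (hP i).1
    rw [Polynomial.Monic, Polynomial.leadingCoeff, (hP i).2] at h3
    exact h3
  have hR : (Matrix.of fun r s : Fin 3 × Fin m => (P (ix m r)).coeff (ix m s)).det = 1 := by
    apply det_tri
    · intro r s hrs
      rw [Matrix.of_apply]
      apply Polynomial.coeff_eq_zero_of_natDegree_lt
      rw [(hP _).2]
      exact hrs
    · intro r
      rw [Matrix.of_apply]
      exact hcoe _
  have hC : (Matrix.of fun c d : Fin 3 × Fin m => if c.1 = d.1 then (P c.2.1).coeff d.2.1 else 0).det = 1 := by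
    apply det_tri
    · intro r s hrs
      rw [Matrix.of_apply]
      split_ifs with h
      · apply Polynomial.coeff_eq_zero_of_natDegree_lt
        rw [(hP _).2]
        unfold ix at hrs
        rw [h] at hrs
        omega
      · rfl
    · intro r
      rw [Matrix.of_apply, if_pos rfl]
      exact hcoe _
  have hM : (Matrix.of fun r c : Fin 3 × Fin m => L c.1 (P (ix m r) * P c.2.1)) =
      (Matrix.of fun r s : Fin 3 × Fin m => (P (ix m r)).coeff (ix m s)) * M3 L m *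
        (Matrix.of fun c d : Fin 3 × Fin m => if c.1 = d.1 then (P c.2.1).coeff d.2.1 else 0).transpose := by
    ext r c
    rw [Matrix.of_apply, Matrix.mul_apply]
    have h1 : P (ix m r) * P c.2.1 = ∑ j : Fin m, ∑ s : Fin 3 × Fin m,
        ((P c.2.1).coeff j.1 * (P (ix m r)).coeff (ix m s)) • (X ^ (ix m s + j.1) : ℚ[X]) := by
      conv_lhs => rw [expand3 m (P (ix m r)) (by rw [(hP _).2]; exact ix_lt m r),
        expand1 m (P c.2.1) (by rw [(hP _).2]; exact c.2.2), Finset.sum_mul_sum, Finset.sum_comm]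
      apply Finset.sum_congr rfl
      intro j _
      apply Finset.sum_congr rfl
      intro s _
      rw [smul_mul_smul_comm, ← pow_add, mul_comm ((P c.2.1).coeff j.1)]
    rw [h1, map_sum, Fintype.sum_prod_type, Finset.sum_eq_single c.1]
    · apply Finset.sum_congr rfl
      intro j _
      rw [map_sum, Matrix.transpose_apply, Matrix.of_apply, if_pos rfl, Matrix.mul_apply, Finset.sum_mul]
      apply Finset.sum_congr rfl
      intro s _
      rw [map_smul, smul_eq_mul, Matrix.of_apply]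
      change _ = (P (ix m r)).coeff (ix m s) * L c.1 (X ^ (s.1.1 * m + s.2.1 + j.1)) * (P c.2.1).coeff j.1
      unfold ix
      ring
    · intro b _ hb
      apply Finset.sum_eq_zero
      intro j _
      rw [Matrix.transpose_apply, Matrix.of_apply, if_neg (fun h => hb h.symm), mul_zero]
    · intro h
      exact absurd (Finset.mem_univ _) h
  rw [hM, Matrix.det_mul, Matrix.det_mul, Matrix.det_transpose, hR, hC, one_mul, mul_one]

lemma padic_det (p : ℕ) [Fact p.Prime] {ι : Type} [Fintype ι] [DecidableEq ι] (M : Matrix ι ι ℚ)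
    (U V : ι → ℚ) (hU : ∀ i, 0 ≤ U i) (hV : ∀ i, 0 ≤ V i) (h : ∀ i j, padicNorm p (M i j) ≤ U i * V j) :
    padicNorm p M.det ≤ (∏ i, U i) * ∏ i, V i := by
  rw [Matrix.det_apply]
  refine padicNorm.sum_le' (fun σ _ => ?_)
    (mul_nonneg (Finset.prod_nonneg fun i _ => hU i) (Finset.prod_nonneg fun i _ => hV i))
  have h1 : padicNorm p (∏ i, M (σ i) i) = ∏ i, padicNorm p (M (σ i) i) := by
    classical
    refine Finset.induction_on (Finset.univ : Finset ι) ?_ ?_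
    · simp
    · intro a s ha ih
      rw [Finset.prod_insert ha, Finset.prod_insert ha, padicNorm.mul, ih]
  have hs : padicNorm p (Equiv.Perm.sign σ • ∏ i, M (σ i) i) = ∏ i, padicNorm p (M (σ i) i) := by
    rcases Int.units_eq_one_or (Equiv.Perm.sign σ) with hσ | hσ
    · rw [hσ, one_smul, h1]
    · rw [hσ, Units.neg_smul, one_smul, padicNorm.neg, h1]
  rw [hs]
  calc ∏ i, padicNorm p (M (σ i) i) ≤ ∏ i, (U (σ i) * V i) :=
        Finset.prod_le_prod (fun i _ => padicNorm.nonneg _) fun i _ => h _ _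
    _ = (∏ i, U (σ i)) * ∏ i, V i := Finset.prod_mul_distrib
    _ = _ := by rw [Equiv.prod_comp σ U]

/-! ### norms -/

variable {p : ℕ} [hp : Fact p.Prime]

lemma inv_le {a : ℤ} {l : ℕ} (ha : a ≠ 0) (hlt : |a| < (p : ℤ) ^ (l + 1)) :
    (padicNorm p (a : ℚ))⁻¹ ≤ (p : ℚ) ^ l := by
  have ha' : (a : ℚ) ≠ 0 := by exact_mod_cast ha
  rw [padicNorm.eq_zpow_of_nonzero ha', padicValRat.of_int, ← zpow_neg, neg_neg, zpow_natCast]
  have h1 : ((p : ℤ) ^ padicValInt p a) ∣ a := padicValInt_dvd a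
  have h2 := Int.natAbs_dvd_natAbs.2 h1
  rw [Int.natAbs_pow, Int.natAbs_natCast] at h2
  have h3 := Nat.le_of_dvd (Int.natAbs_pos.2 ha) h2
  have h4 : p ^ padicValInt p a < p ^ (l + 1) := by
    refine lt_of_le_of_lt h3 ?_
    have h5 : ((a.natAbs : ℕ) : ℤ) < ((p ^ (l + 1) : ℕ) : ℤ) := by
      rw [Int.natCast_natAbs]
      push_cast
      exact hlt
    exact_mod_cast h5
  have h5 := (Nat.pow_lt_pow_iff_right hp.out.one_lt).1 h4
  exact pow_le_pow_right₀ (by exact_mod_cast hp.out.one_lt.le) (by omega)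

lemma fac_pos (N : ℕ) : 0 < padicNorm p ((N.factorial : ℕ) : ℚ) :=
  lt_of_le_of_ne (padicNorm.nonneg _)
    (Ne.symm (padicNorm.nonzero (by exact_mod_cast Nat.factorial_ne_zero N)))

lemma fac (N : ℕ) : padicNorm p ((N.factorial : ℕ) : ℚ) =
    ∏ j ∈ Finset.range N, padicNorm p ((j + 1 : ℕ) : ℚ) := by
  induction N with
  | zero => simp
  | succ N ih =>
    rw [Nat.factorial_succ, Nat.cast_mul, padicNorm.mul, ih, Finset.prod_range_succ, mul_comm]

lemma PB_add {ρ A : ℚ} {f g : PowerSeries ℚ}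
    (hf : PB p ρ A f) (hg : PB p ρ A g) : PB p ρ A (f + g) := by
  intro j
  rw [map_add]
  exact (padicNorm.nonarchimedean).trans (max_le (hf j) (hg j))

omit hp in
lemma PB_neg {ρ A : ℚ} {f : PowerSeries ℚ} (hf : PB p ρ A f) : PB p ρ A (-f) := by
  intro j
  rw [map_neg, padicNorm.neg]
  exact hf j

/-- `∏_{l<N} (X + a + l)` -/
def fN (a : ℤ) (N : ℕ) : PowerSeries ℚ :=
  ∏ l ∈ Finset.range N, (PowerSeries.X + PowerSeries.C ((a : ℚ) + l))

lemma fN_shift (a : ℤ) (N : ℕ) :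
    fN (a + 1) (N + 1) = fN a (N + 1) + PowerSeries.C ((N + 1 : ℕ) : ℚ) * fN (a + 1) N := by
  unfold fN
  rw [Finset.prod_range_succ _ N, Finset.prod_range_succ' _ N]
  have h : ∀ l ∈ Finset.range N, (PowerSeries.X + PowerSeries.C ((a : ℚ) + ((l + 1 : ℕ) : ℚ))) =
      (PowerSeries.X + PowerSeries.C (((a + 1 : ℤ) : ℚ) + l) : PowerSeries ℚ) := by
    intro l _
    push_cast
    congr 2
    ring
  rw [Finset.prod_congr rfl h]
  have h2 : (PowerSeries.X + PowerSeries.C (((a + 1 : ℤ) : ℚ) + N) : PowerSeries ℚ) =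
      (PowerSeries.X + PowerSeries.C ((a : ℚ) + (0 : ℕ))) + PowerSeries.C ((N + 1 : ℕ) : ℚ) := by
    rw [add_assoc, ← map_add]
    congr 2
    push_cast
    ring
  rw [h2]
  ring

lemma PB_fN {M : ℕ} (ρ : ℚ) (hρ1 : 1 ≤ ρ)
    (hρ : ∀ l : ℕ, 1 ≤ l → l ≤ M → (padicNorm p (l : ℚ))⁻¹ ≤ ρ) (N : ℕ) (hN : N ≤ M) :
    ∀ a : ℤ, PB p ρ (padicNorm p ((N.factorial : ℕ) : ℚ)) (fN a N) := by
  have hρ0 : (0 : ℚ) ≤ ρ := by linarith
  have key : ∀ l : ℕ, 1 ≤ l → l ≤ M → 1 ≤ padicNorm p (l : ℚ) * ρ := by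
    intro l h1 h2
    have h3 : 0 < padicNorm p (l : ℚ) := by
      refine lt_of_le_of_ne (padicNorm.nonneg _) (Ne.symm (padicNorm.nonzero ?_))
      exact_mod_cast (by omega : l ≠ 0)
    have h4 := hρ l h1 h2
    calc (1 : ℚ) = padicNorm p (l : ℚ) * (padicNorm p (l : ℚ))⁻¹ := (mul_inv_cancel₀ h3.ne').symm
      _ ≤ _ := by gcongr
  induction N with
  | zero =>
    intro a
    have := PB.one (p := p) hρ0
    simpa [fN] using this
  | succ N ih =>
    have ih := ih (by omega)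
    have hfac : padicNorm p (((N + 1).factorial : ℕ) : ℚ) =
        padicNorm p ((N + 1 : ℕ) : ℚ) * padicNorm p ((N.factorial : ℕ) : ℚ) := by
      rw [Nat.factorial_succ, Nat.cast_mul, padicNorm.mul]
    -- the case `a = 0`
    have h0 : PB p ρ (padicNorm p (((N + 1).factorial : ℕ) : ℚ)) (fN 0 (N + 1)) := by
      have hprod : ∀ K : ℕ, K ≤ N → PB p ρ (padicNorm p ((K.factorial : ℕ) : ℚ))
          (∏ l ∈ Finset.range K, (PowerSeries.X + PowerSeries.C (((l + 1 : ℕ) : ℚ)))) := by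
        intro K
        induction K with
        | zero => intro _; simpa using PB.one (p := p) hρ0
        | succ K ihK =>
          intro hK
          rw [Finset.prod_range_succ, Nat.factorial_succ, Nat.cast_mul, padicNorm.mul, mul_comm
            (padicNorm p ((K + 1 : ℕ) : ℚ))]
          exact PB.mul hρ0 (padicNorm.nonneg _) (padicNorm.nonneg _) (ihK (by omega))
            (PB.linX hρ0 (padicNorm.nonneg _) le_rfl (key (K + 1) (by omega) (by omega)))
      unfold fN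
      rw [Finset.prod_range_succ', hfac, mul_comm (padicNorm p ((N + 1 : ℕ) : ℚ))]
      apply PB.mul hρ0 (padicNorm.nonneg _) (padicNorm.nonneg _)
      · have := hprod N le_rfl
        simpa using this
      · apply PB.linX hρ0 (padicNorm.nonneg _)
        · simp [padicNorm.nonneg]
        · exact key (N + 1) (by omega) (by omega)
    have hmul : ∀ a : ℤ, PB p ρ (padicNorm p (((N + 1).factorial : ℕ) : ℚ))
        (PowerSeries.C ((N + 1 : ℕ) : ℚ) * fN a N) := by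
      intro a
      rw [hfac]
      exact PB.mul hρ0 (padicNorm.nonneg _) (padicNorm.nonneg _)
        (PB.C hρ0 (padicNorm.nonneg _) le_rfl) (ih a)
    intro a
    induction a using Int.induction_on with
    | zero => exact h0
    | succ i hi =>
      rw [fN_shift]
      exact PB_add hi (hmul _)
    | pred i hi =>
      have h := fN_shift (-(i : ℤ) - 1) N
      rw [sub_add_cancel] at h
      have h2 : fN (-(i : ℤ) - 1) (N + 1) =
          fN (-(i : ℤ)) (N + 1) + -(PowerSeries.C ((N + 1 : ℕ) : ℚ) * fN (-(i : ℤ)) N) := by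
        rw [h]; ring
      rw [h2]
      exact PB_add hi (PB_neg (hmul _))

/-! ### the polynomials `CP i` -/

/-- `∏_{a < i} (x - a (a+1))` -/
def CP (i : ℕ) : ℚ[X] := ∏ a ∈ Finset.range i, (X - C ((a : ℚ) * (a + 1)))

lemma CP_monic (i : ℕ) : (CP i).Monic ∧ (CP i).natDegree = i := by
  unfold CP
  constructor
  · exact Polynomial.monic_prod_of_monic _ _ fun _ _ => Polynomial.monic_X_sub_C _
  · rw [Polynomial.natDegree_prod_of_monic _ _ fun _ _ => Polynomial.monic_X_sub_C _,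
      Finset.sum_congr rfl fun l _ => Polynomial.natDegree_X_sub_C _]
    simp

lemma TS_CP (n k i : ℕ) : TS (-(k : ℚ)) ((CP i).comp (xP n)) = fN ((n : ℤ) - k - i + 1) (2 * i) := by
  induction i with
  | zero => simp [CP, fN]
  | succ i ih =>
    have h1 : (CP (i + 1)).comp (xP n) = (CP i).comp (xP n) * (xP n - C ((i : ℚ) * (i + 1))) := by
      unfold CP
      rw [Finset.prod_range_succ, Polynomial.mul_comp, Polynomial.sub_comp, Polynomial.X_comp, Polynomial.C_comp]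
    have h2 : xP n - C ((i : ℚ) * (i + 1)) = (X + C ((n : ℚ) - i)) * (X + C ((n : ℚ) + i + 1)) := by
      unfold xP
      push_cast
      simp only [map_sub, map_mul, map_add, map_one]
      ring
    rw [h1, h2, map_mul, ih, map_mul, TS_lin, TS_lin]
    unfold fN
    rw [show 2 * (i + 1) = (2 * i + 1) + 1 by ring, Finset.prod_range_succ, Finset.prod_range_succ' _ (2 * i)]
    have h3 : ∀ l ∈ Finset.range (2 * i),
        (PowerSeries.X + PowerSeries.C ((((n : ℤ) - k - ((i + 1 : ℕ) : ℤ) + 1 : ℤ) : ℚ) + ((l + 1 : ℕ) : ℚ)) :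
          PowerSeries ℚ) = PowerSeries.X + PowerSeries.C ((((n : ℤ) - k - i + 1 : ℤ) : ℚ) + (l : ℚ)) := by
      intro l _
      push_cast
      congr 2
      ring
    rw [Finset.prod_congr rfl h3]
    have h4 : (PowerSeries.X + PowerSeries.C ((((n : ℤ) - k - ((i + 1 : ℕ) : ℤ) + 1 : ℤ) : ℚ) +
        ((2 * i + 1 : ℕ) : ℚ)) : PowerSeries ℚ) = PowerSeries.X + PowerSeries.C (-(k : ℚ) + ((n : ℚ) + i + 1)) := by
      push_cast
      congr 2
      ring
    have h5 : (PowerSeries.X + PowerSeries.C ((((n : ℤ) - k - ((i + 1 : ℕ) : ℤ) + 1 : ℤ) : ℚ) +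
        ((0 : ℕ) : ℚ)) : PowerSeries ℚ) = PowerSeries.X + PowerSeries.C (-(k : ℚ) + ((n : ℚ) - i)) := by
      push_cast
      congr 2
      ring
    rw [h4, h5]
    ring

lemma PB_CP {n M : ℕ} (ρ : ℚ) (hρ1 : 1 ≤ ρ)
    (hρ : ∀ l : ℕ, 1 ≤ l → l ≤ M → (padicNorm p (l : ℚ))⁻¹ ≤ ρ) (i : ℕ) (hi : 2 * i ≤ M) (k : ℕ) :
    PB p ρ (padicNorm p (((2 * i).factorial : ℕ) : ℚ)) (TS (-(k : ℚ)) ((CP i).comp (xP n))) := by
  rw [TS_CP]
  exact PB_fN ρ hρ1 hρ (2 * i) hi _

/-! ### the poles -/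

lemma prod_norm (n k : ℕ) (hk : k ∈ sP n) :
    ∏ m ∈ (sP n).erase k, padicNorm p (-(k : ℚ) + m) =
      padicNorm p (((k - 1).factorial : ℕ) : ℚ) * padicNorm p (((2 * n - k).factorial : ℕ) : ℚ) := by
  have hk' := Finset.mem_Icc.1 hk
  have h1 : (sP n).erase k = Finset.Ico 1 k ∪ Finset.Ioc k (2 * n) := by
    ext m
    simp only [Finset.mem_erase, Finset.mem_Icc, Finset.mem_union, Finset.mem_Ico,
      Finset.mem_Ioc]
    omega
  have h2 : Disjoint (Finset.Ico 1 k) (Finset.Ioc k (2 * n)) := by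
    rw [Finset.disjoint_left]
    intro m hm hm'
    rw [Finset.mem_Ico] at hm
    rw [Finset.mem_Ioc] at hm'
    omega
  rw [h1, Finset.prod_union h2, fac, fac]
  congr 1
  · refine Finset.prod_nbij' (fun m => k - 1 - m) (fun j => k - 1 - j) ?_ ?_ ?_ ?_ ?_
    · intro m hm
      rw [Finset.mem_Ico] at hm
      rw [Finset.mem_range]
      omega
    · intro j hj
      rw [Finset.mem_range] at hj
      rw [Finset.mem_Ico]
      omega
    · intro m hm
      rw [Finset.mem_Ico] at hm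
      omega
    · intro j hj
      rw [Finset.mem_range] at hj
      omega
    · intro m hm
      rw [Finset.mem_Ico] at hm
      have h3 : (-(k : ℚ) + m) = -((k - 1 - m + 1 : ℕ) : ℚ) := by
        have h4 : k - 1 - m + 1 = k - m := by omega
        rw [h4, Nat.cast_sub (by omega)]
        ring
      rw [h3, padicNorm.neg]
  · refine Finset.prod_nbij' (fun m => m - k - 1) (fun j => k + 1 + j) ?_ ?_ ?_ ?_ ?_
    · intro m hm
      rw [Finset.mem_Ioc] at hm
      rw [Finset.mem_range]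
      omega
    · intro j hj
      rw [Finset.mem_range] at hj
      rw [Finset.mem_Ioc]
      omega
    · intro m hm
      rw [Finset.mem_Ioc] at hm
      omega
    · intro j hj
      rw [Finset.mem_range] at hj
      omega
    · intro m hm
      rw [Finset.mem_Ioc] at hm
      have h3 : (-(k : ℚ) + m) = ((m - k - 1 + 1 : ℕ) : ℚ) := by
        have h4 : m - k - 1 + 1 = m - k := by omega
        rw [h4, Nat.cast_sub (by omega)]
        ring
      rw [h3]

lemma prod_le (n k : ℕ) (hk : k ∈ sP n) :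
    padicNorm p (((2 * n - 1).factorial : ℕ) : ℚ) *
      ∏ m ∈ (sP n).erase k, (padicNorm p (-(k : ℚ) + m))⁻¹ ≤ 1 := by
  have hk' := Finset.mem_Icc.1 hk
  rw [Finset.prod_inv_distrib, prod_norm n k hk]
  have h1 : (2 * n - 1).factorial = (2 * n - 1).choose (k - 1) * ((k - 1).factorial * (2 * n - k).factorial) := by
    rw [← mul_assoc]
    have h2 := Nat.choose_mul_factorial_mul_factorial (n := 2 * n - 1) (k := k - 1) (by omega)
    rw [show 2 * n - 1 - (k - 1) = 2 * n - k by omega] at h2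
    exact h2.symm
  have h2 := fac_pos (p := p) (k - 1)
  have h3 := fac_pos (p := p) (2 * n - k)
  rw [← div_eq_mul_inv, div_le_one (mul_pos h2 h3), h1, Nat.cast_mul, padicNorm.mul, Nat.cast_mul,
    padicNorm.mul]
  have h4 : padicNorm p (((2 * n - 1).choose (k - 1) : ℕ) : ℚ) ≤ 1 := padicNorm.of_nat _
  calc _ ≤ 1 * (padicNorm p (((k - 1).factorial : ℕ) : ℚ) *
        padicNorm p (((2 * n - k).factorial : ℕ) : ℚ)) :=
        mul_le_mul_of_nonneg_right h4 (mul_pos h2 h3).le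
    _ = _ := one_mul _

lemma PB_poles {n : ℕ} (ρ : ℚ) (hρ1 : 1 ≤ ρ)
    (hρ : ∀ a : ℤ, a ≠ 0 → |a| < 2 * n → (padicNorm p (a : ℚ))⁻¹ ≤ ρ) (k : ℕ) (hk : k ∈ sP n) :
    PB p ρ 1 (PowerSeries.C (((2 * n - 1).factorial : ℚ) ^ 99) *
      VV ((sP n).erase k) mP (-(k : ℚ))) := by
  have hρ0 : (0 : ℚ) ≤ ρ := by linarith
  have hk' := Finset.mem_Icc.1 hk
  have h1 : PowerSeries.C (((2 * n - 1).factorial : ℚ) ^ 99) *
      VV ((sP n).erase k) mP (-(k : ℚ)) =
      (PowerSeries.C (((2 * n - 1).factorial : ℕ) : ℚ) *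
        ∏ m ∈ (sP n).erase k, iv (-(k : ℚ) + m)) ^ 99 := by
    unfold VV
    rw [mul_pow, map_pow, Finset.prod_pow]
  have h2 : PB p ρ (∏ m ∈ (sP n).erase k, (padicNorm p (-(k : ℚ) + m))⁻¹)
      (∏ m ∈ (sP n).erase k, iv (-(k : ℚ) + m)) := by
    refine PB.prod _ _ _ hρ0 (fun m _ => inv_nonneg.2 (padicNorm.nonneg _)) fun m hm => ?_
    have hmk : m ≠ k := Finset.ne_of_mem_erase hm
    have hm' := Finset.mem_Icc.1 (Finset.mem_of_mem_erase hm)
    have hne : -(k : ℚ) + m ≠ 0 := by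
      intro h0
      apply hmk
      have : (m : ℚ) = k := by linarith
      exact_mod_cast this
    refine PB.iv hne le_rfl ?_
    have h3 := hρ ((m : ℤ) - k) (by omega) (by rw [abs_lt]; omega)
    push_cast at h3
    rwa [show (m : ℚ) - k = -(k : ℚ) + m by ring] at h3
  have h3 := PB.mul hρ0 (padicNorm.nonneg _)
    (Finset.prod_nonneg fun m _ => inv_nonneg.2 (padicNorm.nonneg _))
    (PB.C (p := p) (a := (((2 * n - 1).factorial : ℕ) : ℚ)) hρ0 (padicNorm.nonneg _) le_rfl) h2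
  have h4 := PB.mono hρ0 h3 (prod_le n k hk)
  have h5 := PB.pow hρ0 zero_le_one h4 99
  rw [one_pow] at h5
  rw [h1]
  exact h5

/-- the bound of the partial fraction coefficients -/
lemma pa_le {n : ℕ} (ρ : ℚ) (hρ1 : 1 ≤ ρ)
    (hρ : ∀ a : ℤ, a ≠ 0 → |a| < 2 * n → (padicNorm p (a : ℚ))⁻¹ ≤ ρ) (k : ℕ) (hk : k ∈ sP n)
    (E : ℚ[X]) (A : ℚ) (hA : 0 ≤ A) (hE : PB p ρ A (TS (-(k : ℚ)) E)) (i : ℕ) (hi : i ≤ 99) :
    padicNorm p (pa (sP n) mP (PP n * E) k i) ≤ A * ρ ^ (99 - i) := by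
  have hρ0 : (0 : ℚ) ≤ ρ := by linarith
  unfold pa
  rw [if_pos hi]
  unfold pfc PP
  have h1 : TS (-(k : ℚ)) (C (((2 * n - 1).factorial : ℚ) ^ 99) * (2 * X + C ((2 * n + 1 : ℕ) : ℚ)) ^ 401 * E) *
      VV ((sP n).erase k) mP (-(k : ℚ)) =
      (PowerSeries.C (((2 * n - 1).factorial : ℚ) ^ 99) *
        VV ((sP n).erase k) mP (-(k : ℚ))) *
      ((PowerSeries.C 2 * PowerSeries.X + PowerSeries.C (2 * (-(k : ℚ)) + ((2 * n + 1 : ℕ) : ℚ))) ^ 401 *
        TS (-(k : ℚ)) E) := by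
    rw [(TS (-(k : ℚ))).map_mul, (TS (-(k : ℚ))).map_mul, TS_C, (TS (-(k : ℚ))).map_pow, TS_lin2]
    generalize (PowerSeries.C 2 * PowerSeries.X + PowerSeries.C (2 * (-(k : ℚ)) + ((2 * n + 1 : ℕ) : ℚ))) ^ 401 = Z
    generalize VV ((sP n).erase k) mP (-(k : ℚ)) = V
    generalize PowerSeries.C (((2 * n - 1).factorial : ℚ) ^ 99) = Y
    ring
  rw [h1]
  have h2 : PB p ρ 1 (PowerSeries.C 2 * PowerSeries.X +
      PowerSeries.C (2 * (-(k : ℚ)) + ((2 * n + 1 : ℕ) : ℚ))) := by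
    apply PB.lin hρ0 zero_le_one
    · have := padicNorm.of_int (p := p) (2 * (-(k : ℤ)) + (2 * n + 1 : ℕ))
      push_cast at this ⊢
      exact this
    · rw [one_mul]
      have := padicNorm.of_int (p := p) 2
      push_cast at this
      exact this.trans hρ1
  have h2' := PB.pow hρ0 zero_le_one h2 401
  rw [one_pow] at h2'
  have h3 := PB.mul hρ0 zero_le_one (mul_nonneg zero_le_one hA) (PB_poles ρ hρ1 hρ k hk)
    (PB.mul hρ0 zero_le_one hA h2' hE)
  have h4 := h3 (99 - i)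
  rw [one_mul, one_mul] at h4
  exact h4

lemma hs_le {n : ℕ} (ρ : ℚ) (hρ1 : 1 ≤ ρ)
    (hρ : ∀ a : ℤ, a ≠ 0 → |a| < 2 * n → (padicNorm p (a : ℚ))⁻¹ ≤ ρ) (e m : ℕ) (hm : m < 2 * n) :
    padicNorm p (hs e m) ≤ ρ ^ e := by
  have hρ0 : (0 : ℚ) ≤ ρ := by linarith
  unfold hs
  apply padicNorm.sum_le' _ (by positivity)
  intro j hj
  rw [Finset.mem_range] at hj
  rw [padicNorm.div, padicNorm.one, padicNorm_pow', one_div, ← inv_pow]
  apply pow_le_pow_left₀ (inv_nonneg.2 (padicNorm.nonneg _))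
  have := hρ ((j : ℤ) + 1) (by omega) (by rw [abs_of_nonneg (by omega)]; omega)
  push_cast at this
  exact this

lemma int_u {q : ℕ} {u : ℕ → ℚ} (hu : UInt q u) (i : ℕ) : padicNorm p ((q : ℚ) * u i) ≤ 1 := by
  obtain ⟨z, hz⟩ := hu.2 i
  rw [hz]
  exact padicNorm.of_int z

/-- the functionals -/
lemma A_le {n : ℕ} (ρ : ℚ) (hρ1 : 1 ≤ ρ)
    (hρ : ∀ a : ℤ, a ≠ 0 → |a| < 2 * n → (padicNorm p (a : ℚ))⁻¹ ≤ ρ) (q : ℕ) (α : ℕ → ℚ) (hα : UInt q α)
    (Q : ℚ[X]) (A : ℚ) (hA : 0 ≤ A) (hQ : ∀ k ∈ sP n, PB p ρ A (TS (-(k : ℚ)) (Q.comp (xP n)))) :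
    padicNorm p ((q : ℚ) * AL n α Q) ≤ ρ ^ 99 * A := by
  have hρ0 : (0 : ℚ) ≤ ρ := by linarith
  have hW : 0 ≤ ρ ^ 99 * A := by positivity
  rw [AL_apply]
  unfold xa
  rw [Finset.mul_sum]
  apply padicNorm.sum_le' _ hW
  intro i hi
  rw [Finset.mem_Icc] at hi
  have e : (q : ℚ) * (rho n (PP n * Q.comp (xP n)) i * α i -
      ∑ k ∈ sP n, pa (sP n) mP (PP n * Q.comp (xP n)) k i * hs i (k - 1)) =
      (∑ k ∈ sP n, pa (sP n) mP (PP n * Q.comp (xP n)) k i * ((q : ℚ) * α i)) -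
        ∑ k ∈ sP n, (q : ℚ) * (pa (sP n) mP (PP n * Q.comp (xP n)) k i * hs i (k - 1)) := by
    unfold rho
    rw [← Finset.sum_mul, ← Finset.mul_sum]
    ring
  rw [e]
  refine padicNorm.sub.trans (max_le ?_ ?_)
  · apply padicNorm.sum_le' _ hW
    intro k hk
    rw [padicNorm.mul]
    calc _ ≤ (A * ρ ^ (99 - i)) * 1 :=
          mul_le_mul (pa_le ρ hρ1 hρ k hk _ A hA (hQ k hk) i hi.2) (int_u hα i) (padicNorm.nonneg _) (by positivity)
      _ = ρ ^ (99 - i) * A := by ring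
      _ ≤ ρ ^ 99 * A := mul_le_mul_of_nonneg_right (pow_le_pow_right₀ hρ1 (by omega)) hA
  · apply padicNorm.sum_le' _ hW
    intro k hk
    have hk' := Finset.mem_Icc.1 hk
    rw [padicNorm.mul, padicNorm.mul]
    have h0 : padicNorm p (q : ℚ) ≤ 1 := padicNorm.of_nat _
    have h1 := hs_le (p := p) ρ hρ1 hρ i (k - 1) (by omega)
    have h2 := pa_le ρ hρ1 hρ k hk _ A hA (hQ k hk) i hi.2
    calc _ ≤ 1 * ((A * ρ ^ (99 - i)) * ρ ^ i) := by
          refine mul_le_mul h0 (mul_le_mul h2 h1 (padicNorm.nonneg _) (by positivity))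
            (mul_nonneg (padicNorm.nonneg _) (padicNorm.nonneg _)) zero_le_one
      _ = ρ ^ (99 - i + i) * A := by rw [pow_add]; ring
      _ = ρ ^ 99 * A := by
          congr 2
          omega

lemma B_le {n : ℕ} (ρ : ℚ) (hρ1 : 1 ≤ ρ)
    (hρ : ∀ a : ℤ, a ≠ 0 → |a| < 2 * n → (padicNorm p (a : ℚ))⁻¹ ≤ ρ) (q : ℕ) (β : ℕ → ℚ) (hβ : UInt q β)
    (Q : ℚ[X]) (A : ℚ) (hA : 0 ≤ A) (hQ : ∀ k ∈ sP n, PB p ρ A (TS (-(k : ℚ)) (Q.comp (xP n)))) :
    padicNorm p ((q : ℚ) * BL n β Q) ≤ ρ ^ 99 * A := by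
  have hρ0 : (0 : ℚ) ≤ ρ := by linarith
  have hW : 0 ≤ ρ ^ 99 * A := by positivity
  rw [BL_apply]
  unfold xb
  rw [Finset.mul_sum]
  apply padicNorm.sum_le' _ hW
  intro i hi
  rw [Finset.mem_Icc] at hi
  have e : (q : ℚ) * (rho n (PP n * Q.comp (xP n)) i * β i) =
      ∑ k ∈ sP n, pa (sP n) mP (PP n * Q.comp (xP n)) k i * ((q : ℚ) * β i) := by
    unfold rho
    rw [← Finset.sum_mul]
    ring
  rw [e]
  apply padicNorm.sum_le' _ hW
  intro k hk
  rw [padicNorm.mul]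
  calc _ ≤ (A * ρ ^ (99 - i)) * 1 :=
        mul_le_mul (pa_le ρ hρ1 hρ k hk _ A hA (hQ k hk) i hi.2) (int_u hβ i) (padicNorm.nonneg _) (by positivity)
    _ = ρ ^ (99 - i) * A := by ring
    _ ≤ ρ ^ 99 * A := mul_le_mul_of_nonneg_right (pow_le_pow_right₀ hρ1 (by omega)) hA

lemma L_le {n : ℕ} (ρ : ℚ) (hρ1 : 1 ≤ ρ)
    (hρ : ∀ a : ℤ, a ≠ 0 → |a| < 2 * n → (padicNorm p (a : ℚ))⁻¹ ≤ ρ) (q : ℕ) (α β γ : ℕ → ℚ) (hα : UInt q α)
    (hβ : UInt q β) (hγ : UInt q γ) (b : Fin 3)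
    (Q : ℚ[X]) (A : ℚ) (hA : 0 ≤ A) (hQ : ∀ k ∈ sP n, PB p ρ A (TS (-(k : ℚ)) (Q.comp (xP n)))) :
    padicNorm p ((q : ℚ) * LL n α β γ b Q) ≤ ρ ^ 99 * A := by
  fin_cases b
  · exact A_le ρ hρ1 hρ q α hα Q A hA hQ
  · exact B_le ρ hρ1 hρ q β hβ Q A hA hQ
  · exact B_le ρ hρ1 hρ q γ hγ Q A hA hQ

/-- the determinant -/
theorem main {n : ℕ} (ρ : ℚ) (hρ1 : 1 ≤ ρ)
    (hρ : ∀ a : ℤ, a ≠ 0 → |a| < 2 * n → (padicNorm p (a : ℚ))⁻¹ ≤ ρ) (q : ℕ) (α β γ : ℕ → ℚ) (hα : UInt q α)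
    (hβ : UInt q β) (hγ : UInt q γ) (m : ℕ) (W : ℕ → ℚ) (hW : ∀ i, 0 ≤ W i) (P : ℕ → ℚ[X])
    (hP : ∀ i, (P i).Monic ∧ (P i).natDegree = i)
    (hPW : ∀ i < 3 * m, ∀ k ∈ sP n, PB p ρ (W i) (TS (-(k : ℚ)) ((P i).comp (xP n)))) :
    padicNorm p ((q : ℚ) ^ (3 * m) * (M3 (LL n α β γ) m).det) ≤
      ρ ^ (297 * m) * ((∏ i ∈ Finset.range (3 * m), W i) * ∏ i ∈ Finset.range m, W i ^ 3) := by
  have hρ0 : (0 : ℚ) ≤ ρ := by linarith
  have h1 : (q : ℚ) ^ (3 * m) * (M3 (LL n α β γ) m).det =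
      ((q : ℚ) • (Matrix.of fun r c : Fin 3 × Fin m => LL n α β γ c.1 (P (ix m r) * P c.2.1))).det := by
    rw [Matrix.det_smul, Fintype.card_prod, Fintype.card_fin, Fintype.card_fin, det_basis _ m P hP]
  rw [h1]
  have h2 := padic_det p
    ((q : ℚ) • (Matrix.of fun r c : Fin 3 × Fin m => LL n α β γ c.1 (P (ix m r) * P c.2.1)))
    (fun r => ρ ^ 99 * W (ix m r)) (fun c => W c.2.1) (fun r => mul_nonneg (by positivity) (hW _))
    (fun c => hW _) (by
      intro r c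
      have h4 : (((q : ℚ) • (Matrix.of fun r c : Fin 3 × Fin m =>
          LL n α β γ c.1 (P (ix m r) * P c.2.1))) r c) =
          (q : ℚ) * LL n α β γ c.1 (P (ix m r) * P c.2.1) := by
        rw [Matrix.smul_apply, Matrix.of_apply, smul_eq_mul]
      rw [h4, mul_assoc]
      apply L_le ρ hρ1 hρ q α β γ hα hβ hγ c.1 _ _ (mul_nonneg (hW _) (hW _))
      intro k hk
      rw [Polynomial.mul_comp, map_mul]
      refine PB.mul hρ0 (hW _) (hW _) (hPW _ (ix_lt m r) k hk) (hPW _ ?_ k hk)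
      have := c.2.2
      omega)
  refine h2.trans (le_of_eq ?_)
  have h5 : ∏ r : Fin 3 × Fin m, W (ix m r) = ∏ i ∈ Finset.range (3 * m), W i := by
    rw [Finset.prod_range]
    apply Fintype.prod_equiv (finProdFinEquiv (m := 3) (n := m))
    intro r
    rw [ix_eq]
  have h6 : ∏ c : Fin 3 × Fin m, W c.2.1 = ∏ i ∈ Finset.range m, W i ^ 3 := by
    rw [Finset.prod_pow, Finset.prod_range, Fintype.prod_prod_type]
    simp
  rw [Finset.prod_mul_distrib, Finset.prod_const, Finset.card_univ, Fintype.card_prod, Fintype.card_fin,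
    Fintype.card_fin, h5, h6, ← pow_mul, mul_assoc]
  congr 2
  ring

end P0_

open P0_ in
/-- P0: the small primes -/
theorem P0 : S_P0 := by
  intro n p hpF hn q α β γ hα hβ hγ m l h2n h6m
  have hp1 : (1 : ℚ) ≤ p := by exact_mod_cast hpF.out.one_lt.le
  have hρ1 : (1 : ℚ) ≤ (p : ℚ) ^ l := one_le_pow₀ hp1
  refine main ((p : ℚ) ^ l) hρ1 ?_ q α β γ hα hβ hγ m (fun i => padicNorm p (((2 * i).factorial : ℕ) : ℚ))
    (fun i => padicNorm.nonneg _) CP CP_monic ?_
  · intro a ha ha'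
    apply inv_le ha
    have h1 : ((2 * n : ℕ) : ℤ) < ((p ^ (l + 1) : ℕ) : ℤ) := by exact_mod_cast h2n
    push_cast at h1
    linarith
  · intro i hi k _
    apply PB_CP (M := 6 * m) ((p : ℚ) ^ l) hρ1 _ i (by omega) k
    intro a ha ha'
    have h3 := inv_le (p := p) (a := (a : ℤ)) (l := l) (by omega) (by
      rw [abs_of_nonneg (Int.natCast_nonneg a)]
      have h1 : ((6 * m : ℕ) : ℤ) < ((p ^ (l + 1) : ℕ) : ℤ) := by exact_mod_cast h6m
      push_cast at h1
      have h2 : (a : ℤ) ≤ 6 * m := by exact_mod_cast ha'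
      linarith)
    rwa [Int.cast_natCast] at h3

open P0_ in
/-- PL: the large primes -/
theorem PL : S_PL := by
  intro n p hpF hn h2n q α β γ hα hβ hγ m
  have h := main (p := p) (n := n) 1 le_rfl (by
      intro a ha ha'
      have h3 := inv_le (p := p) (a := a) (l := 0) ha (by
        have h1 : ((2 * n : ℕ) : ℤ) ≤ ((p : ℕ) : ℤ) := by exact_mod_cast h2n
        push_cast at h1
        rw [zero_add, pow_one]
        linarith)
      simpa using h3) q α β γ hα hβ hγ m (fun _ => 1) (fun _ => zero_le_one) (fun i => X ^ i)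
    (fun i => ⟨Polynomial.monic_X_pow i, Polynomial.natDegree_X_pow i⟩) (by
      intro i _ k _
      rw [Polynomial.X_pow_comp, map_pow]
      have h1 : PB p 1 1 (TS (-(k : ℚ)) (xP n)) := by
        unfold xP
        rw [map_mul, TS_lin, TS_lin]
        have h2 : ∀ z : ℤ, PB p 1 1 (PowerSeries.X + PowerSeries.C (z : ℚ)) := fun z =>
          PB.linX zero_le_one zero_le_one (padicNorm.of_int z) (by norm_num)
        have h3 := PB.mul zero_le_one zero_le_one zero_le_one (h2 (-(k : ℤ) + n)) (h2 (-(k : ℤ) + (n + 1 : ℕ)))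
        rw [mul_one] at h3
        push_cast at h3 ⊢
        exact h3
      have h2 := PB.pow zero_le_one zero_le_one h1 i
      rwa [one_pow] at h2)
  simpa using h

end

end Pool.Agent.L0h38.Q4
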