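import Pool.Agent.L0h38.Q4.LV
import Pool.Agent.L0h38.Q4.C1

/-!
# P2: the primes between `√(2n)` and `n`
-/

open Polynomial Pool.Agent.H337R2

namespace Pool.Agent.L0h38.Q4

noncomputable section

namespace P2

open LV

/-- polynomial of a vector of rows -/
def ur (m : ℕ) : (Fin 3 × Fin m → ℤ) →+ ℤ[X] where
  toFun u := ∑ r : Fin 3 × Fin m, C (u r) * X ^ (r.1.1 * m + r.2.1)
  map_zero' := by simp
  map_add' u v := by simp [add_mul, Finset.sum_add_distrib]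

/-- polynomial of the block `b` of a vector of columns -/
def vc (m : ℕ) (b : Fin 3) : (Fin 3 × Fin m → ℤ) →+ ℤ[X] where
  toFun v := ∑ j : Fin m, C (v (b, j)) * X ^ j.1
  map_zero' := by simp
  map_add' u v := by simp [add_mul, Finset.sum_add_distrib]

lemma expd (L : ℚ[X] →ₗ[ℚ] ℚ) (m : ℕ) (u v : Fin 3 × Fin m → ℤ) (b : Fin 3) :
    L ((ur m u * vc m b v).map (Int.castRingHom ℚ)) =
      ∑ r : Fin 3 × Fin m, ∑ j : Fin m, (u r : ℚ) * (v (b, j) : ℚ) * L (X ^ (r.1.1 * m + r.2.1 + j.1)) := by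
  have h1 : (ur m u * vc m b v).map (Int.castRingHom ℚ) = ∑ r : Fin 3 × Fin m, ∑ j : Fin m,
      ((u r : ℚ) * (v (b, j) : ℚ)) • (X : ℚ[X]) ^ (r.1.1 * m + r.2.1 + j.1) := by
    change ((∑ r : Fin 3 × Fin m, C (u r) * X ^ (r.1.1 * m + r.2.1)) * (∑ j : Fin m, C (v (b, j)) * X ^ j.1)).map
      (Int.castRingHom ℚ) = _
    rw [Polynomial.map_mul, Polynomial.map_sum, Polynomial.map_sum, Finset.sum_mul_sum]
    apply Finset.sum_congr rfl
    intro r _
    apply Finset.sum_congr rfl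
    intro j _
    simp only [Polynomial.map_mul, Polynomial.map_C, Polynomial.map_pow, Polynomial.map_X, Int.coe_castRingHom,
      smul_eq_C_mul, pow_add, C_mul]
    ring
  rw [h1, map_sum]
  apply Finset.sum_congr rfl
  intro r _
  rw [map_sum]
  apply Finset.sum_congr rfl
  intro j _
  rw [map_smul, smul_eq_mul]

variable {p : ℕ} [hp : Fact p.Prime]

lemma int_u {q : ℕ} {u : ℕ → ℚ} (hu : UInt q u) (i : ℕ) : padicNorm p ((q : ℚ) * u i) ≤ 1 := by
  obtain ⟨z, hz⟩ := hu.2 i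
  rw [hz]
  exact padicNorm.of_int z

/-- `A`-functional -/
lemma A_le {n : ℕ} (hp2 : 2 * n < p ^ 2) (q : ℕ) (α : ℕ → ℚ) (hα : UInt q α) (P : ℚ[X]) (a : ℤ)
    (h : ∀ k ∈ sP n, ∀ i, padicNorm p (pa (sP n) mP P k i) ≤ (p : ℚ) ^ (a - i)) :
    padicNorm p ((q : ℚ) * xa n α P) ≤ (p : ℚ) ^ a := by
  have hp0 : (p : ℚ) ≠ 0 := p_pos'.ne'
  have hp1 : (1 : ℚ) ≤ p := p_one'
  have hW : (0 : ℚ) ≤ (p : ℚ) ^ a := by positivity
  have hq1 : padicNorm p (q : ℚ) ≤ 1 := padicNorm.of_nat q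
  unfold xa
  rw [Finset.mul_sum]
  apply padicNorm.sum_le' _ hW
  intro i hi
  rw [Finset.mem_Icc] at hi
  have e : (q : ℚ) * (rho n P i * α i - ∑ k ∈ sP n, pa (sP n) mP P k i * hs i (k - 1)) =
      (∑ k ∈ sP n, pa (sP n) mP P k i * ((q : ℚ) * α i)) -
        ∑ k ∈ sP n, (q : ℚ) * (pa (sP n) mP P k i * hs i (k - 1)) := by
    unfold rho
    rw [← Finset.sum_mul, ← Finset.mul_sum]
    ring
  rw [e]
  refine padicNorm.sub.trans (max_le ?_ ?_)
  · apply padicNorm.sum_le' _ hW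
    intro k hk
    rw [padicNorm.mul]
    calc _ ≤ (p : ℚ) ^ a * 1 := mul_le_mul ((h k hk i).trans (zpow_le_zpow_right₀ hp1 (by omega)))
          (int_u hα i) (padicNorm.nonneg _) hW
      _ = _ := mul_one _
  · apply padicNorm.sum_le' _ hW
    intro k hk
    have hk' := Finset.mem_Icc.1 hk
    rw [padicNorm.mul, padicNorm.mul]
    have h4 := hs_norm_med (p := p) i (k - 1) (by omega)
    calc _ ≤ 1 * ((p : ℚ) ^ (a - i) * (p : ℚ) ^ i) := mul_le_mul hq1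
          (mul_le_mul (h k hk i) h4 (padicNorm.nonneg _) (by positivity))
          (mul_nonneg (padicNorm.nonneg _) (padicNorm.nonneg _)) zero_le_one
      _ = _ := by
        rw [one_mul, ← zpow_natCast (p : ℚ) i, ← zpow_add₀ hp0]
        congr 1
        ring

/-- `B`-functional -/
lemma B_le {n : ℕ} (q : ℕ) (β : ℕ → ℚ) (hβ : UInt q β) (w : ℕ) (hβ0 : ∀ i < w, β i = 0) (P : ℚ[X]) (a : ℤ)
    (h : ∀ k ∈ sP n, ∀ i, padicNorm p (pa (sP n) mP P k i) ≤ (p : ℚ) ^ (a - i)) :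
    padicNorm p ((q : ℚ) * xb n β P) ≤ (p : ℚ) ^ (a - w) := by
  have hp1 : (1 : ℚ) ≤ p := p_one'
  have hW : (0 : ℚ) ≤ (p : ℚ) ^ (a - w) := by positivity
  unfold xb
  rw [Finset.mul_sum]
  apply padicNorm.sum_le' _ hW
  intro i hi
  by_cases hi3 : i < w
  · rw [hβ0 i hi3]
    simpa using hW
  · have e : (q : ℚ) * (rho n P i * β i) = ∑ k ∈ sP n, pa (sP n) mP P k i * ((q : ℚ) * β i) := by
      unfold rho
      rw [← Finset.sum_mul]
      ring
    rw [e]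
    apply padicNorm.sum_le' _ hW
    intro k hk
    rw [padicNorm.mul]
    calc _ ≤ (p : ℚ) ^ (a - w) * 1 := mul_le_mul ((h k hk i).trans (zpow_le_zpow_right₀ hp1 (by omega)))
          (int_u hβ i) (padicNorm.nonneg _) hW
      _ = _ := mul_one _

omit hp in
lemma dvd_of_mod_eq {a b : ℕ} (h : a % p = b % p) : (p : ℤ) ∣ (a : ℤ) - b := by
  have h1 : b ≡ a [MOD p] := h.symm
  exact (Nat.modEq_iff_dvd).1 h1

/-- the representative of the class pair -/
lemma kap_mem {n k : ℕ} (hpn : p ≤ n) (hk : k ∈ sP n) :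
    kap n p k ∈ Kset n p ∧ ((p : ℤ) ∣ ((kap n p k : ℕ) : ℤ) - k ∨
      (p : ℤ) ∣ 2 * (n : ℤ) + 1 - ((kap n p k : ℕ) : ℤ) - k) := by
  have hp0 : 0 < p := hp.out.pos
  rw [Finset.mem_Icc] at hk
  unfold kap Kset
  rw [Finset.mem_filter, Finset.mem_range]
  have h1 : k % p < p := Nat.mod_lt _ hp0
  have h2 : (2 * n + 1 - k) % p < p := Nat.mod_lt _ hp0
  have key : ∀ a b : ℕ, a < p → b ≤ 2 * n + 1 → b % p = a → (2 * n + 1 - a) % p = (2 * n + 1 - b) % p := by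
    intro a b ha hb hab
    have h3 : (2 * n + 1 - b) ≡ (2 * n + 1 - a) [MOD p] := by
      rw [Nat.modEq_iff_dvd]
      have h4 : (p : ℤ) ∣ (b : ℤ) - a := by
        apply dvd_of_mod_eq
        rw [hab, Nat.mod_eq_of_lt ha]
      rw [Nat.cast_sub (by omega), Nat.cast_sub hb]
      have : (((2 * n + 1 : ℕ) : ℤ) - a) - (((2 * n + 1 : ℕ) : ℤ) - b) = (b : ℤ) - a := by ring
      rw [this]
      exact h4
    exact h3.symm
  rcases le_total (k % p) ((2 * n + 1 - k) % p) with h | h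
  · rw [min_eq_left h]
    refine ⟨⟨h1, ?_⟩, Or.inl ?_⟩
    · rw [key (k % p) k h1 (by omega) rfl]
      exact h
    · apply dvd_of_mod_eq
      rw [Nat.mod_mod]
  · rw [min_eq_right h]
    refine ⟨⟨h2, ?_⟩, Or.inr ?_⟩
    · rw [key ((2 * n + 1 - k) % p) (2 * n + 1 - k) h2 (by omega) rfl]
      rw [show 2 * n + 1 - (2 * n + 1 - k) = k by omega]
      exact h
    · have h3 := dvd_of_mod_eq (p := p) (a := 2 * n + 1 - k) (b := (2 * n + 1 - k) % p) (by rw [Nat.mod_mod])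
      rw [Nat.cast_sub (by omega)] at h3
      convert h3 using 1
      push_cast
      ring

/-- the scaling of the columns -/
def sc (p : ℕ) : Fin 3 → ℚ := ![1, (p : ℚ)⁻¹ ^ 3, (p : ℚ)⁻¹ ^ 5]

lemma nrm_inv : padicNorm p ((p : ℚ)⁻¹) = p := by
  have hp0 : (p : ℚ) ≠ 0 := p_pos'.ne'
  have h1 : padicNorm p ((p : ℚ)⁻¹) * padicNorm p (p : ℚ) = 1 := by
    rw [← padicNorm.mul, inv_mul_cancel₀ hp0, padicNorm.one]
  rw [padicNorm.padicNorm_p hp.out.one_lt] at h1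
  have h2 : (p : ℚ) * (p : ℚ)⁻¹ = 1 := mul_inv_cancel₀ hp0
  calc padicNorm p ((p : ℚ)⁻¹) = (p : ℚ) * (padicNorm p ((p : ℚ)⁻¹) * (p : ℚ)⁻¹) := by
        linear_combination (-padicNorm p ((p : ℚ)⁻¹)) * h2
    _ = _ := by rw [h1, mul_one]

end P2

open LV P2 in
theorem P2_of (hC1 : S_C1) (hIX : S_IX) : S_P2 := by
  intro n p hpF hn hp2 hp3 hpn q α β γ hα hβ hγ hβ0 hγ0 m a μ c hlev
  have hp0 : (p : ℚ) ≠ 0 := p_pos'.ne'
  have hp1 : (1 : ℚ) ≤ p := p_one'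
  have hp00 : (0 : ℚ) < p := p_pos'
  set K := Kset n p with hK
  let f : (Fin 3 × Fin m → ℤ) →+ ((x : Ix K μ) → ZMod (p ^ (μ x.1 - x.2))) := (lv p n K μ).comp (ur m)
  let g : (Fin 3 × Fin m → ℤ) →+ (Fin 3 → ((x : Ix K c) → ZMod (p ^ (c x.1 - x.2)))) :=
    AddMonoidHom.mk' (fun v b => lv p n K c (vc m b v)) (by
      intro v w
      funext b
      simp)
  have := fin_lv (p := p) K μ
  have := fin_lv (p := p) K c
  have : Finite (Fin 3 → ((x : Ix K c) → ZMod (p ^ (c x.1 - x.2)))) := inferInstance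
  let M' : Matrix (Fin 3 × Fin m) (Fin 3 × Fin m) ℚ :=
    Matrix.of fun r cc => ((q : ℚ) * sc p cc.1) * M3 (LL n α β γ) m r cc
  have hcardG : Nat.card ((x : Ix K μ) → ZMod (p ^ (μ x.1 - x.2))) = p ^ (∑ κ ∈ K, T1 (μ κ)) := card_lv K μ
  have hcardH : Nat.card (Fin 3 → ((x : Ix K c) → ZMod (p ^ (c x.1 - x.2)))) =
      p ^ (3 * ∑ κ ∈ K, T1 (c κ)) := by
    rw [Nat.card_fun, card_lv K c, Nat.card_eq_fintype_card, Fintype.card_fin, ← pow_mul, mul_comm]
  have key : ∀ u v : Fin 3 × Fin m → ℤ, f u = 0 → g v = 0 →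
      padicNorm p (∑ i, ∑ j, (u i : ℚ) * M' i j * (v j : ℚ)) ≤ (p : ℚ) ^ a := by
    intro u v hu hv
    have hU : ∀ κ ∈ K, Lev p (x0 n κ) (μ κ) (ur m u) := fun κ hκ => lv_ker n K μ (ur m u) hu κ hκ
    have hV : ∀ b : Fin 3, ∀ κ ∈ K, Lev p (x0 n κ) (c κ) (vc m b v) :=
      fun b κ hκ => lv_ker n K c (vc m b v) (congrFun hv b) κ hκ
    have hsum : ∑ i, ∑ j, (u i : ℚ) * M' i j * (v j : ℚ) = ∑ b : Fin 3, (q : ℚ) * sc p b *
        LL n α β γ b ((ur m u * vc m b v).map (Int.castRingHom ℚ)) := by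
      simp only [expd]
      have h1 : ∀ b : Fin 3, (q : ℚ) * sc p b * ∑ r : Fin 3 × Fin m, ∑ j : Fin m,
          (u r : ℚ) * (v (b, j) : ℚ) * LL n α β γ b (X ^ (r.1.1 * m + r.2.1 + j.1)) =
          ∑ r : Fin 3 × Fin m, ∑ j : Fin m, (u r : ℚ) * M' r (b, j) * (v (b, j) : ℚ) := by
        intro b
        rw [Finset.mul_sum]
        apply Finset.sum_congr rfl
        intro r _
        rw [Finset.mul_sum]
        apply Finset.sum_congr rfl
        intro j _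
        change _ = (u r : ℚ) * (((q : ℚ) * sc p b) * LL n α β γ b (X ^ (r.1.1 * m + r.2.1 + j.1))) * (v (b, j) : ℚ)
        ring
      simp only [h1]
      calc ∑ i, ∑ j, (u i : ℚ) * M' i j * (v j : ℚ) = ∑ i, ∑ b : Fin 3, ∑ j : Fin m,
            (u i : ℚ) * M' i (b, j) * (v (b, j) : ℚ) := by
            apply Finset.sum_congr rfl
            intro i _
            rw [Fintype.sum_prod_type]
        _ = _ := Finset.sum_comm
    rw [hsum]
    apply padicNorm.sum_le' _ (by positivity)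
    intro b _
    have hpa : ∀ k ∈ sP n, ∀ i, padicNorm p (pa (sP n) mP
        (PP n * ((ur m u * vc m b v).map (Int.castRingHom ℚ)).comp (xP n)) k i) ≤ (p : ℚ) ^ (a - i) := by
      intro k hk i
      obtain ⟨hkap, hdvd⟩ := kap_mem hpn hk
      have h1 := PB_lev n (kap n p k) k (μ (kap n p k)) hdvd (ur m u) (hU _ hkap)
      have h2 := PB_lev n (kap n p k) k (c (kap n p k)) hdvd (vc m b v) (hV b _ hkap)
      have h3 := PB.mul hp00.le (by positivity) (by positivity) h1 h2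
      rw [← map_mul, ← mul_comp, ← Polynomial.map_mul] at h3
      have hA : (0 : ℚ) ≤ (p : ℚ)⁻¹ ^ μ (kap n p k) * (p : ℚ)⁻¹ ^ c (kap n p k) := by positivity
      have h8 := (hC1 hn hp2 (((ur m u * vc m b v).map (Int.castRingHom ℚ)).comp (xP n)) hk _ hA h3 i).1
      refine h8.trans ?_
      have h6 : (p : ℚ)⁻¹ ^ μ (kap n p k) * (p : ℚ)⁻¹ ^ c (kap n p k) =
          (p : ℚ) ^ (-((μ (kap n p k) : ℤ) + c (kap n p k))) := by
        rw [← pow_add, inv_pow, ← zpow_natCast, ← zpow_neg]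
        push_cast
        rfl
      rw [h6, ← zpow_add₀ hp0]
      apply zpow_le_zpow_right₀ hp1
      have h7 := hlev k hk
      linarith
    have hnorm : ∀ x : ℚ, padicNorm p ((q : ℚ) * sc p b * x) = padicNorm p (sc p b) * padicNorm p ((q : ℚ) * x) := by
      intro x
      rw [← padicNorm.mul]
      congr 1
      ring
    rw [hnorm]
    fin_cases b
    · change padicNorm p 1 * padicNorm p ((q : ℚ) * xa n α _) ≤ _
      rw [padicNorm.one, one_mul]
      exact A_le hp2 q α hα _ a hpa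
    · change padicNorm p ((p : ℚ)⁻¹ ^ 3) * padicNorm p ((q : ℚ) * xb n β _) ≤ _
      have h1 := B_le q β hβ 3 hβ0 _ a hpa
      rw [padicNorm_pow', nrm_inv]
      calc _ ≤ (p : ℚ) ^ 3 * (p : ℚ) ^ (a - (3 : ℕ)) := mul_le_mul_of_nonneg_left h1 (by positivity)
        _ = _ := by
          rw [← zpow_natCast (p : ℚ) 3, ← zpow_add₀ hp0]
          congr 1
          ring
    · change padicNorm p ((p : ℚ)⁻¹ ^ 5) * padicNorm p ((q : ℚ) * xb n γ _) ≤ _
      have h1 := B_le q γ hγ 5 hγ0 _ a hpa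
      rw [padicNorm_pow', nrm_inv]
      calc _ ≤ (p : ℚ) ^ 5 * (p : ℚ) ^ (a - (5 : ℕ)) := mul_le_mul_of_nonneg_left h1 (by positivity)
        _ = _ := by
          rw [← zpow_natCast (p : ℚ) 5, ← zpow_add₀ hp0]
          congr 1
          ring
  have hmain := hIX p hpF M' f g a _ _ hcardG hcardH key
  have hdet : M'.det = ((q : ℚ) ^ (3 * m) * ((p : ℚ)⁻¹ ^ 8) ^ m) * (M3 (LL n α β γ) m).det := by
    have h1 := Matrix.det_mul_row (fun cc : Fin 3 × Fin m => (q : ℚ) * sc p cc.1) (M3 (LL n α β γ) m)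
    change M'.det = _ at h1
    rw [h1]
    congr 1
    rw [Fintype.prod_prod_type]
    simp only [Finset.prod_const, Finset.card_univ, Fintype.card_fin, Fin.prod_univ_three]
    change ((q : ℚ) * 1) ^ m * ((q : ℚ) * (p : ℚ)⁻¹ ^ 3) ^ m * ((q : ℚ) * (p : ℚ)⁻¹ ^ 5) ^ m = _
    rw [← mul_pow, ← mul_pow, pow_mul, ← mul_pow]
    congr 1
    ring
  have hrw : (q : ℚ) ^ (3 * m) * (M3 (LL n α β γ) m).det = ((p : ℚ) ^ 8) ^ m * M'.det := by
    rw [hdet]
    have : ((p : ℚ) ^ 8) ^ m * ((p : ℚ)⁻¹ ^ 8) ^ m = 1 := by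
      rw [← mul_pow, ← mul_pow, mul_inv_cancel₀ hp0, one_pow, one_pow]
    linear_combination (-(q : ℚ) ^ (3 * m) * (M3 (LL n α β γ) m).det) * this
  rw [hrw, padicNorm.mul, padicNorm_pow', padicNorm_pow', padicNorm.padicNorm_p hpF.out.one_lt]
  calc _ ≤ (((p : ℚ)⁻¹) ^ 8) ^ m * (p : ℚ) ^ (a * (Fintype.card (Fin 3 × Fin m) : ℤ) +
        ((∑ κ ∈ K, T1 (μ κ) : ℕ) : ℤ) + ((3 * ∑ κ ∈ K, T1 (c κ) : ℕ) : ℤ)) :=
        mul_le_mul_of_nonneg_left hmain (by positivity)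
    _ = _ := by
      rw [← pow_mul, inv_pow, ← zpow_natCast, ← zpow_neg, ← zpow_add₀ hp0]
      congr 1
      rw [Fintype.card_prod, Fintype.card_fin, Fintype.card_fin, Finset.sum_add_distrib, ← Finset.mul_sum]
      push_cast
      ring

end

end Pool.Agent.L0h38.Q4
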