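import Pool.Agent.L0h38.Q4.Stm

/-!
# The `p`-adic part put together
-/

open Polynomial Pool.Agent.H337R2 Filter Topology

namespace Pool.Agent.L0h38.Q4

noncomputable section

namespace PA

lemma mem_PS {a b : ℝ} {n p : ℕ} : p ∈ PS a b n ↔ p < ⌊b * n⌋₊ + 1 ∧ p.Prime ∧ a * n < p := by
  classical
  simp only [PS, Pool.Agent.N334.W.PS, Finset.mem_filter, Finset.mem_range]

end PA

theorem P_of (hP1 : S_P1) (hP2 : S_P2) (hE2 : S_E2) (hP0 : S_P0) (hS2 : S_S2) (hS1 : S_S1) (hS0 : S_S0)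
    (hNUM : S_NUMP) : S_P := by
  classical
  intro q α β γ hα hβ hγ hβ3 hγ5
  obtain ⟨K, hK⟩ := hE2
  obtain ⟨C, hC⟩ := hS0
  obtain ⟨J, hJ2, hJ⟩ := hNUM C
  have hJ1 : 1 ≤ J := by omega
  have hJ0 : (0 : ℝ) < J := by exact_mod_cast (by omega : 0 < J)
  set tot := e2 J + (-19602 + 9900) - 13068 * (Real.log 4 - Real.log J - Real.eulerMascheroniConstant) + C / J
    with htot
  set ε := (-1700 - tot) / 3 with hε
  have hε0 : 0 < ε := by rw [hε]; linarith
  have hbig : ∀ᶠ ν : ℕ in atTop, (J : ℝ) ^ 2 < ν := (tendsto_natCast_atTop_atTop (R := ℝ)).eventually_gt_atTop _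
  filter_upwards [hS2 K J ε hJ2 hε0, hS1 ε hε0, hC J ε hJ1 hε0, hbig, eventually_ge_atTop 100] with ν h2 h1 h0 hb h100 hne
  set m := 33 * (ν - 1) with hm
  have e3 : 99 * (ν - 1) = 3 * m := by rw [hm]; ring
  rw [e3]
  set z : ℚ := (q : ℚ) ^ (3 * m) * DD ν α β γ with hz
  have hqq : (q : ℚ) ≠ 0 := by exact_mod_cast hα.1.ne'
  have hz0 : z ≠ 0 := mul_ne_zero (pow_ne_zero _ hqq) hne
  have hzM : z = (q : ℚ) ^ (3 * m) * (M3 (LL (2 * ν) α β γ) m).det := rfl
  have hpos : ∀ p : ℕ, p.Prime → (0 : ℝ) < ((padicNorm p z : ℚ) : ℝ) := by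
    intro p hp
    have : Fact p.Prime := ⟨hp⟩
    have h5 : padicNorm p z ≠ 0 := padicNorm.nonzero hz0
    have h6 := padicNorm.nonneg (p := p) z
    exact_mod_cast lt_of_le_of_ne h6 (Ne.symm h5)
  have hν0 : (0 : ℝ) < ν := by exact_mod_cast (by omega : 0 < ν)
  -- the three ranges
  have hsub : (Finset.range (4 * ν)).filter Nat.Prime ⊆
      (PS 0 (2 / J) (2 * ν) ∪ PS (2 / J) 1 (2 * ν)) ∪ (Finset.range (4 * ν)).filter (fun p => p.Prime ∧ 2 * ν < p) := by
    intro p hp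
    rw [Finset.mem_filter, Finset.mem_range] at hp
    rw [Finset.mem_union, Finset.mem_union, PA.mem_PS, PA.mem_PS, Finset.mem_filter, Finset.mem_range]
    by_cases h : 2 * ν < p
    · right; exact ⟨hp.1, hp.2, h⟩
    · left
      rw [not_lt] at h
      by_cases h' : 2 / (J : ℝ) * ((2 * ν : ℕ) : ℝ) < p
      · right
        refine ⟨?_, hp.2, h'⟩
        rw [one_mul, Nat.floor_natCast]
        omega
      · left
        rw [not_lt] at h'
        refine ⟨?_, hp.2, ?_⟩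
        · exact Nat.lt_succ_of_le (Nat.le_floor h')
        · rw [zero_mul]
          exact_mod_cast hp.2.pos
  have hd1 : Disjoint (PS 0 (2 / J) (2 * ν)) (PS (2 / J) 1 (2 * ν)) := by
    rw [Finset.disjoint_left]
    intro p hp hp'
    rw [PA.mem_PS] at hp hp'
    have h1 : (p : ℝ) ≤ 2 / (J : ℝ) * ((2 * ν : ℕ) : ℝ) := by
      have h3 : p ≤ ⌊2 / (J : ℝ) * ((2 * ν : ℕ) : ℝ)⌋₊ := by omega
      exact (Nat.le_floor_iff (by positivity)).1 h3
    linarith [hp'.2.2]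
  have hd2 : Disjoint (PS 0 (2 / J) (2 * ν) ∪ PS (2 / J) 1 (2 * ν))
      ((Finset.range (4 * ν)).filter (fun p => p.Prime ∧ 2 * ν < p)) := by
    rw [Finset.disjoint_left]
    intro p hp hp'
    rw [Finset.mem_union, PA.mem_PS, PA.mem_PS] at hp
    rw [Finset.mem_filter] at hp'
    have hle : p ≤ 2 * ν := by
      rcases hp with hp | hp
      · have h3 : (p : ℝ) ≤ 2 / (J : ℝ) * ((2 * ν : ℕ) : ℝ) :=
          (Nat.le_floor_iff (by positivity)).1 (Nat.lt_succ_iff.1 hp.1)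
        have h4 : 2 / (J : ℝ) ≤ 1 := by
          rw [div_le_one hJ0]; exact_mod_cast hJ2
        have h5 : (p : ℝ) ≤ ((2 * ν : ℕ) : ℝ) := by
          have : 2 / (J : ℝ) * ((2 * ν : ℕ) : ℝ) ≤ 1 * ((2 * ν : ℕ) : ℝ) :=
            mul_le_mul_of_nonneg_right h4 (by positivity)
          linarith
        exact_mod_cast h5
      · have h3 := hp.1
        rw [one_mul, Nat.floor_natCast] at h3
        omega
    omega
  -- upper bounds, each range
  have hb0 : ∀ p ∈ PS 0 (2 / J) (2 * ν), Real.log ((padicNorm p z : ℚ) : ℝ) ≤ Real.log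
    (((p : ℝ) ^ Nat.log p (2 * (2 * ν) + 6 * (33 * (ν - 1)))) ^ (297 * (33 * (ν - 1))) *
      ((∏ i ∈ Finset.range (3 * (33 * (ν - 1))), ((padicNorm p (((2 * i).factorial : ℕ) : ℚ) : ℚ) : ℝ)) *
      ∏ i ∈ Finset.range (33 * (ν - 1)), ((padicNorm p (((2 * i).factorial : ℕ) : ℚ) : ℚ) : ℝ) ^ 3)) := by
    intro p hp
    rw [PA.mem_PS] at hp
    have hfact : Fact p.Prime := ⟨hp.2.1⟩
    apply Real.log_le_log (hpos p hp.2.1)
    have hl := Nat.lt_pow_succ_log_self hp.2.1.one_lt (2 * (2 * ν) + 6 * (33 * (ν - 1)))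
    rw [Nat.succ_eq_add_one] at hl
    have h5 := @hP0 (2 * ν) p hfact (by omega) q α β γ hα hβ hγ m
      (Nat.log p (2 * (2 * ν) + 6 * (33 * (ν - 1)))) (by omega) (by omega)
    rw [← hzM] at h5
    have h6 := (Rat.cast_le (K := ℝ)).2 h5
    refine h6.trans (le_of_eq ?_)
    push_cast
    rfl
  have hb2 : ∀ p ∈ PS (2 / J) 1 (2 * ν), Real.log ((padicNorm p z : ℚ) : ℝ) ≤
      EP K (2 * ν) (33 * (ν - 1)) p * Real.log p := by
    intro p hp
    rw [PA.mem_PS] at hp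
    obtain ⟨hp1, hp2, hp3⟩ := hp
    rw [one_mul, Nat.floor_natCast] at hp1
    have hfact : Fact p.Prime := ⟨hp2⟩
    have hlp : 0 ≤ Real.log p := Real.log_nonneg (by exact_mod_cast hp2.one_lt.le)
    have hsq : 2 * (2 * ν) < p ^ 2 := by
      have h4 : 4 * (ν : ℝ) / J < p := by
        have : 2 / (J : ℝ) * ((2 * ν : ℕ) : ℝ) = 4 * (ν : ℝ) / J := by push_cast; ring
        rwa [this] at hp3
      have h5 : 4 * (ν : ℝ) < p * J := by rwa [div_lt_iff₀ hJ0] at h4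
      have h6 : (2 * (2 * ν) : ℝ) < (p : ℝ) ^ 2 := by
        by_contra hcon
        rw [not_lt] at hcon
        have h7 : (4 * (ν : ℝ)) ^ 2 < (p * J) ^ 2 := by
          apply pow_lt_pow_left₀ h5 (by positivity) (by norm_num)
        have h8 : ((p : ℝ) * J) ^ 2 ≤ (2 * (2 * ν)) * ν := by
          rw [mul_pow]
          have : (p : ℝ) ^ 2 * (J : ℝ) ^ 2 ≤ (2 * (2 * ν)) * (J : ℝ) ^ 2 := by gcongr
          nlinarith
        nlinarith
      exact_mod_cast h6
    have h3p : 3 ≤ p := by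
      have h4 : 4 * (ν : ℝ) / J < p := by
        have : 2 / (J : ℝ) * ((2 * ν : ℕ) : ℝ) = 4 * (ν : ℝ) / J := by push_cast; ring
        rwa [this] at hp3
      have h7 : (4 : ℝ) * J < 4 * ν / J := by
        rw [lt_div_iff₀ hJ0]
        nlinarith
      have hJr : (2 : ℝ) ≤ J := by exact_mod_cast hJ2
      have h8 : (8 : ℝ) < p := by linarith
      have h9 : 8 < p := by exact_mod_cast h8
      omega
    obtain ⟨a, μ, c, hac, hle⟩ := hK (2 * ν) m p hp2 (by omega) hsq h3p (by omega) (by omega)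
    have h5 := @hP2 (2 * ν) p hfact (by omega) hsq h3p (by omega) q α β γ hα hβ hγ hβ3 hγ5 m a μ c hac
    rw [← hzM] at h5
    set e : ℤ := 3 * m * a - 8 * m + ∑ κ ∈ Kset (2 * ν) p, ((T1 (μ κ) : ℤ) + 3 * T1 (c κ)) with he
    have h6 : ((padicNorm p z : ℚ) : ℝ) ≤ (p : ℝ) ^ e := by
      have h8 := (Rat.cast_le (K := ℝ)).2 h5
      rwa [Rat.cast_zpow, Rat.cast_natCast] at h8
    have h7 := Real.log_le_log (hpos p hp2) h6
    rw [Real.log_zpow] at h7
    exact h7.trans (mul_le_mul_of_nonneg_right hle hlp)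
  have hb1 : ∀ p ∈ (Finset.range (4 * ν)).filter (fun p => p.Prime ∧ 2 * ν < p),
      Real.log ((padicNorm p z : ℚ) : ℝ) ≤
      (-297 * ((33 * (ν - 1) : ℕ) : ℝ) + 9900 * (((4 * ν - p - 1) / 2 : ℕ) : ℝ)) * Real.log p := by
    intro p hp
    rw [Finset.mem_filter, Finset.mem_range] at hp
    have hfact : Fact p.Prime := ⟨hp.2.1⟩
    have h5 := @hP1 (2 * ν) p hfact (by omega) hp.2.2 (by omega) q α β γ hα hβ hγ m
    rw [← hzM] at h5
    have h6 : ((padicNorm p z : ℚ) : ℝ) ≤ (p : ℝ) ^ (-297 * (m : ℤ) + 9900 * (((2 * (2 * ν) - p - 1) / 2 : ℕ) : ℤ)) := by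
      have h8 := (Rat.cast_le (K := ℝ)).2 h5
      rwa [Rat.cast_zpow, Rat.cast_natCast] at h8
    have h7 := Real.log_le_log (hpos p hp.2.1) h6
    rw [Real.log_zpow] at h7
    refine h7.trans (le_of_eq ?_)
    have h9 : 2 * (2 * ν) = 4 * ν := by ring
    rw [h9, hm, Int.cast_add, Int.cast_mul, Int.cast_mul, Int.cast_natCast, Int.cast_natCast]
    norm_num
  have key : ∑ p ∈ (Finset.range (4 * ν)).filter Nat.Prime, Real.log ((padicNorm p z : ℚ) : ℝ) ≤
      (∑ p ∈ PS 0 (2 / J) (2 * ν), Real.log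
    (((p : ℝ) ^ Nat.log p (2 * (2 * ν) + 6 * (33 * (ν - 1)))) ^ (297 * (33 * (ν - 1))) *
      ((∏ i ∈ Finset.range (3 * (33 * (ν - 1))), ((padicNorm p (((2 * i).factorial : ℕ) : ℚ) : ℚ) : ℝ)) *
      ∏ i ∈ Finset.range (33 * (ν - 1)), ((padicNorm p (((2 * i).factorial : ℕ) : ℚ) : ℚ) : ℝ) ^ 3)) +
      ∑ p ∈ PS (2 / J) 1 (2 * ν), EP K (2 * ν) (33 * (ν - 1)) p * Real.log p) +
      ∑ p ∈ (Finset.range (4 * ν)).filter (fun p => p.Prime ∧ 2 * ν < p),
        (-297 * ((33 * (ν - 1) : ℕ) : ℝ) + 9900 * (((4 * ν - p - 1) / 2 : ℕ) : ℝ)) * Real.log p := by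
    have heq : (Finset.range (4 * ν)).filter Nat.Prime =
      (PS 0 (2 / J) (2 * ν) ∪ PS (2 / J) 1 (2 * ν)) ∪ (Finset.range (4 * ν)).filter (fun p => p.Prime ∧ 2 * ν < p) := by
      apply Finset.Subset.antisymm hsub
      intro p hp
      rw [Finset.mem_filter, Finset.mem_range]
      rw [Finset.mem_union, Finset.mem_union, PA.mem_PS, PA.mem_PS, Finset.mem_filter, Finset.mem_range] at hp
      rcases hp with (hp | hp) | hp
      · refine ⟨?_, hp.2.1⟩
        have h3 : (p : ℝ) ≤ 2 / (J : ℝ) * ((2 * ν : ℕ) : ℝ) :=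
          (Nat.le_floor_iff (by positivity)).1 (Nat.lt_succ_iff.1 hp.1)
        have h4 : 2 / (J : ℝ) ≤ 1 := by
          rw [div_le_one hJ0]; exact_mod_cast hJ2
        have h5 : (p : ℝ) ≤ ((2 * ν : ℕ) : ℝ) := by
          have : 2 / (J : ℝ) * ((2 * ν : ℕ) : ℝ) ≤ 1 * ((2 * ν : ℕ) : ℝ) :=
            mul_le_mul_of_nonneg_right h4 (by positivity)
          linarith
        have h6 : p ≤ 2 * ν := by exact_mod_cast h5
        omega
      · refine ⟨?_, hp.2.1⟩
        have h3 := hp.1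
        rw [one_mul, Nat.floor_natCast] at h3
        omega
      · exact ⟨hp.1, hp.2.1⟩
    rw [heq, Finset.sum_union hd2, Finset.sum_union hd1]
    exact add_le_add (add_le_add (Finset.sum_le_sum hb0) (Finset.sum_le_sum hb2)) (Finset.sum_le_sum hb1)
  refine key.trans ?_
  have hlog : Real.log (4 * (ν : ℝ) / J) = Real.log 4 + Real.log ν - Real.log J := by
    rw [Real.log_div (by positivity) hJ0.ne', Real.log_mul (by norm_num) hν0.ne']
  rw [hlog] at h0
  have hfin := add_le_add (add_le_add h0 h2) h1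
  refine hfin.trans (le_of_eq ?_)
  have : tot + 3 * ε = -1700 := by rw [hε]; ring
  have h9 : (ν : ℝ) ^ 2 * (tot + 3 * ε) = (ν : ℝ) ^ 2 * (-1700) := by rw [this]
  rw [htot] at h9
  linear_combination h9

end

end Pool.Agent.L0h38.Q4
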