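import Pool.Agent.L0h38.Q4.Stm
import Pool.Agent.N334.W.SS
import Pool.Agent.N334.W.ME

/-!
# S0: the sum over the small primes (helper88)
-/

set_option autoImplicit false

open Filter Topology Finset
open ArithmeticFunction (vonMangoldt)

namespace Pool.Agent.L0h38.Q4

open Pool.Agent.N334.W (SS_log_padic SS_padic_pos SS_G SS_low S_ME)

/-- logarithm of the product -/
theorem S0_term (p K l m : ℕ) (hp : p.Prime) :
    Real.log (((p : ℝ) ^ l) ^ K *
      ((∏ i ∈ Finset.range (3 * m), ((padicNorm p (((2 * i).factorial : ℕ) : ℚ) : ℚ) : ℝ)) *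
      ∏ i ∈ Finset.range m, ((padicNorm p (((2 * i).factorial : ℕ) : ℚ) : ℚ) : ℝ) ^ 3)) =
      (K : ℝ) * ((l : ℝ) * Real.log p) -
        ((∑ i ∈ Finset.range (3 * m), (padicValNat p (2 * i).factorial : ℝ) * Real.log p) +
        3 * ∑ i ∈ Finset.range m, (padicValNat p (2 * i).factorial : ℝ) * Real.log p) := by
  have hp0 : (p : ℝ) ≠ 0 := by exact_mod_cast hp.ne_zero
  have h0 : ∀ i ∈ Finset.range (3 * m),
      ((padicNorm p (((2 * i).factorial : ℕ) : ℚ) : ℚ) : ℝ) ≠ 0 := fun i _ =>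
    (SS_padic_pos p hp _).ne'
  have h1 : ∀ i ∈ Finset.range m,
      ((padicNorm p (((2 * i).factorial : ℕ) : ℚ) : ℚ) : ℝ) ^ 3 ≠ 0 := fun i _ =>
    pow_ne_zero _ (SS_padic_pos p hp _).ne'
  rw [Real.log_mul (pow_ne_zero _ (pow_ne_zero _ hp0))
      (mul_ne_zero (Finset.prod_ne_zero_iff.2 h0) (Finset.prod_ne_zero_iff.2 h1)),
    Real.log_mul (Finset.prod_ne_zero_iff.2 h0) (Finset.prod_ne_zero_iff.2 h1),
    Real.log_pow, Real.log_pow, Real.log_prod h0, Real.log_prod h1]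
  have h2 : ∀ i ∈ Finset.range m,
      Real.log (((padicNorm p (((2 * i).factorial : ℕ) : ℚ) : ℚ) : ℝ) ^ 3) =
        -(3 * ((padicValNat p (2 * i).factorial : ℝ) * Real.log p)) := by
    intro i _
    rw [Real.log_pow, SS_log_padic p hp]
    push_cast
    ring
  have h3 : ∀ i ∈ Finset.range (3 * m),
      Real.log ((padicNorm p (((2 * i).factorial : ℕ) : ℚ) : ℚ) : ℝ) =
        -((padicValNat p (2 * i).factorial : ℝ) * Real.log p) := by
    intro i _
    rw [SS_log_padic p hp]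
  rw [Finset.sum_congr rfl h2, Finset.sum_congr rfl h3, Finset.sum_neg_distrib,
    Finset.sum_neg_distrib, ← Finset.mul_sum]
  ring

theorem S0_even (m : ℕ) :
    ∑ i ∈ Finset.range m, (((2 * i : ℕ)) : ℝ) = (m : ℝ) ^ 2 - m := by
  induction m with
  | zero => simp
  | succ m ih =>
    rw [Finset.sum_range_succ, ih]
    push_cast; ring

/-- lower bound for the valuations -/
theorem S0_low (X0 m : ℕ) :
    ((m : ℝ) ^ 2 - m) * (∑ j ∈ Finset.Icc 1 X0, vonMangoldt j / j) -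
      m * Chebyshev.psi (X0 : ℝ) ≤
      ∑ p ∈ (Finset.range (X0 + 1)).filter Nat.Prime, ∑ i ∈ Finset.range m,
        (padicValNat p (2 * i).factorial : ℝ) * Real.log p := by
  rw [Finset.sum_comm, ← S0_even m, Finset.sum_mul]
  have h3 : (m : ℝ) * Chebyshev.psi (X0 : ℝ) =
      ∑ i ∈ Finset.range m, Chebyshev.psi (X0 : ℝ) := by simp
  rw [h3, ← Finset.sum_sub_distrib]
  exact Finset.sum_le_sum fun i _ => (SS_low X0 (2 * i)).trans (SS_G X0 (2 * i))

theorem S0_main (K n m X0 : ℕ) (hn : 1 ≤ n) :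
    ∑ p ∈ (Finset.range (X0 + 1)).filter Nat.Prime, Real.log
      (((p : ℝ) ^ Nat.log p (2 * n + 6 * m)) ^ K *
      ((∏ i ∈ Finset.range (3 * m), ((padicNorm p (((2 * i).factorial : ℕ) : ℚ) : ℚ) : ℝ)) *
      ∏ i ∈ Finset.range m, ((padicNorm p (((2 * i).factorial : ℕ) : ℚ) : ℚ) : ℝ) ^ 3)) ≤
      (K : ℝ) * (Nat.primeCounting X0 * Real.log (2 * n + 6 * m)) -
        ((12 * (m : ℝ) ^ 2 - 6 * m) * (∑ j ∈ Finset.Icc 1 X0, vonMangoldt j / j) -
          6 * m * Chebyshev.psi (X0 : ℝ)) := by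
  set S := (Finset.range (X0 + 1)).filter Nat.Prime with hS
  have hpr : ∀ p ∈ S, p.Prime := fun p hp => (Finset.mem_filter.1 hp).2
  rw [Finset.sum_congr rfl fun p hp => S0_term p K _ m (hpr p hp), Finset.sum_sub_distrib]
  have h1 : ∑ p ∈ S, (K : ℝ) * (((Nat.log p (2 * n + 6 * m) : ℕ) : ℝ) * Real.log p) ≤
      (K : ℝ) * (Nat.primeCounting X0 * Real.log (2 * n + 6 * m)) := by
    rw [← Finset.mul_sum]
    refine mul_le_mul_of_nonneg_left ?_ (Nat.cast_nonneg _)
    have hc : Nat.primeCounting X0 = S.card := by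
      rw [Nat.primeCounting, Nat.primeCounting', Nat.count_eq_card_filter_range]
    rw [hc, ← nsmul_eq_mul, ← Finset.sum_const]
    refine Finset.sum_le_sum fun p hp => ?_
    rw [← Real.log_pow]
    apply Real.log_le_log
    · have : (0 : ℝ) < p := by exact_mod_cast (hpr p hp).pos
      positivity
    · have h2 : p ^ Nat.log p (2 * n + 6 * m) ≤ 2 * n + 6 * m :=
        Nat.pow_log_le_self p (by omega)
      exact_mod_cast h2
  have h2 := S0_low X0 (3 * m)
  have h3 := S0_low X0 m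
  rw [← hS] at h2 h3
  have h5 : ∑ p ∈ S, 3 * ∑ i ∈ Finset.range m,
      (padicValNat p (2 * i).factorial : ℝ) * Real.log p =
      3 * ∑ p ∈ S, ∑ i ∈ Finset.range m,
        (padicValNat p (2 * i).factorial : ℝ) * Real.log p := by
    rw [Finset.mul_sum]
  rw [Finset.sum_add_distrib, h5]
  push_cast at h2
  set L : ℝ := ∑ j ∈ Finset.Icc 1 X0, vonMangoldt j / j with hL
  have h4 : (12 * (m : ℝ) ^ 2 - 6 * m) * L - 6 * m * Chebyshev.psi (X0 : ℝ) =
      (((3 * (m : ℝ)) ^ 2 - 3 * m) * L - 3 * m * Chebyshev.psi (X0 : ℝ)) +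
      3 * (((m : ℝ) ^ 2 - m) * L - m * Chebyshev.psi (X0 : ℝ)) := by ring
  rw [h4]
  linarith

theorem S0_of (hME : S_ME) : S_S0 := by
  refine ⟨161568, ?_⟩
  intro J ε hJ hε
  have hJ0 : (0 : ℝ) < J := by exact_mod_cast hJ
  -- `X ν = 4ν / J`
  have hX : Tendsto (fun ν : ℕ => (2 / (J : ℝ)) * ((2 * ν : ℕ) : ℝ)) atTop atTop := by
    have h0 : Tendsto (fun ν : ℕ => 2 * ν) atTop atTop :=
      tendsto_atTop_mono (fun ν => by show ν ≤ 2 * ν; omega) tendsto_id
    exact (tendsto_natCast_atTop_atTop.comp h0).const_mul_atTop (by positivity)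
  have hX0 : Tendsto (fun ν : ℕ => ⌊(2 / (J : ℝ)) * ((2 * ν : ℕ) : ℝ)⌋₊) atTop atTop :=
    tendsto_nat_floor_atTop.comp hX
  set ε' : ℝ := ε / 52272 with hε'
  have hε'0 : 0 < ε' := by positivity
  have e1 := hX0.eventually (hME ε' hε'0)
  have e2 : ∀ᶠ ν : ℕ in atTop, Real.log ((2 / (J : ℝ)) * ((2 * ν : ℕ) : ℝ)) - ε' ≤
      Real.log ((⌊(2 / (J : ℝ)) * ((2 * ν : ℕ) : ℝ)⌋₊ : ℕ) : ℝ) := by
    have h1 : Tendsto (fun x : ℝ => Real.log ((⌊x⌋₊ : ℝ) / x)) atTop (𝓝 0) := by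
      have := (Real.continuousAt_log one_ne_zero).tendsto.comp (tendsto_nat_floor_div_atTop (R := ℝ))
      simpa [Function.comp_def] using this
    have h2 := hX.eventually (h1.eventually (lt_mem_nhds (show -ε' < 0 by linarith)))
    filter_upwards [h2, hX.eventually (eventually_ge_atTop 1)] with n hn hn1
    have h3 : (0 : ℝ) < ((⌊(2 / (J : ℝ)) * ((2 * n : ℕ) : ℝ)⌋₊ : ℕ) : ℝ) := by
      exact_mod_cast Nat.floor_pos.2 hn1
    rw [Real.log_div h3.ne' (by linarith)] at hn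
    linarith
  have hl4 : Real.log 4 < 2 := by
    have h1 : Real.log 4 = 2 * Real.log 2 := by
      rw [show (4 : ℝ) = 2 ^ 2 by norm_num, Real.log_pow]; push_cast; ring
    have := Real.log_two_lt_d9
    linarith
  have e3 := hX.eventually (Chebyshev.eventually_primeCounting_le (ε := 2 - Real.log 4)
    (by linarith))
  have e4 : ∀ᶠ ν : ℕ in atTop, Real.log (202 * (ν : ℝ)) ≤
      2 * Real.log ((2 / (J : ℝ)) * ((2 * ν : ℕ) : ℝ)) := by
    have h1 : Tendsto (fun n : ℕ => Real.log (n : ℝ)) atTop atTop :=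
      Real.tendsto_log_atTop.comp tendsto_natCast_atTop_atTop
    filter_upwards [h1.eventually (eventually_ge_atTop
      (Real.log 202 - 2 * Real.log (4 / (J : ℝ)))), eventually_ge_atTop 1] with n hn hn1
    have hn0 : (n : ℝ) ≠ 0 := by
      have : n ≠ 0 := by omega
      exact_mod_cast this
    have h2 : (2 / (J : ℝ)) * ((2 * n : ℕ) : ℝ) = (4 / (J : ℝ)) * n := by push_cast; ring
    rw [h2, Real.log_mul (by positivity) hn0, Real.log_mul (by positivity) hn0]
    linarith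
  have e5 : ∀ᶠ ν : ℕ in atTop, 26334 * Real.log ((2 / (J : ℝ)) * ((2 * ν : ℕ) : ℝ)) ≤
      ε / 2 * ν := by
    have h1 : Tendsto (fun x : ℝ => Real.log x / x) atTop (𝓝 0) := by
      have := Real.isLittleO_log_id_atTop.tendsto_div_nhds_zero
      simpa using this
    have h2 := hX.eventually (h1.eventually (gt_mem_nhds
      (show (0 : ℝ) < ε / 2 / (26334 * (4 / (J : ℝ))) by positivity)))
    filter_upwards [h2, hX.eventually (eventually_ge_atTop 1)] with n hn hn1
    have hXp : 0 < (2 / (J : ℝ)) * ((2 * n : ℕ) : ℝ) := by linarith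
    have hn := (div_lt_div_iff₀ hXp (by positivity)).1 hn
    have h3 : (0 : ℝ) < 4 / (J : ℝ) := by positivity
    have h5 : (2 / (J : ℝ)) * ((2 * n : ℕ) : ℝ) = (4 / (J : ℝ)) * n := by push_cast; ring
    rw [h5] at hn ⊢
    have h4 : (4 / (J : ℝ)) * (26334 * Real.log ((4 / (J : ℝ)) * (n : ℝ))) ≤
        (4 / (J : ℝ)) * (ε / 2 * n) := by nlinarith
    exact le_of_mul_le_mul_left h4 h3
  have e6 : ∀ᶠ ν : ℕ in atTop, Real.eulerMascheroniConstant + 2 * ε' ≤
      Real.log ((2 / (J : ℝ)) * ((2 * ν : ℕ) : ℝ)) :=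
    (Real.tendsto_log_atTop.comp hX).eventually (eventually_ge_atTop _)
  filter_upwards [e1, e2, e3, e4, e5, e6, hX.eventually (eventually_ge_atTop 2),
    eventually_ge_atTop 2] with n h1 h2 h3 h4 h5 h6 h7 hn
  set X : ℝ := (2 / (J : ℝ)) * ((2 * n : ℕ) : ℝ) with hXd
  set X0 : ℕ := ⌊X⌋₊ with hX0d
  set m : ℕ := 33 * (n - 1) with hm
  have hnR : (2 : ℝ) ≤ n := by exact_mod_cast hn
  have hmR : (m : ℝ) = 33 * ((n : ℝ) - 1) := by
    rw [hm]; push_cast [Nat.cast_sub (show 1 ≤ n by omega)]; rfl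
  have hPS : PS 0 (2 / J) (2 * n) = (Finset.range (X0 + 1)).filter Nat.Prime := by
    ext p
    unfold PS Pool.Agent.N334.W.PS
    simp only [Finset.mem_filter, zero_mul]
    constructor
    · rintro ⟨a1, a2, -⟩
      exact ⟨a1, a2⟩
    · rintro ⟨a1, a2⟩
      exact ⟨a1, a2, by exact_mod_cast a2.pos⟩
  rw [hPS]
  refine (S0_main (297 * m) (2 * n) m X0 (by omega)).trans ?_
  have hγ : Real.eulerMascheroniConstant < 1 := by
    have := Real.eulerMascheroniConstant_lt_two_thirds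
    linarith
  -- the first part
  have hlog0 : 0 < Real.log X := Real.log_pos (by linarith)
  have hm0 : (0 : ℝ) ≤ m := Nat.cast_nonneg m
  have hpi : (Nat.primeCounting X0 : ℝ) * Real.log (2 * ((2 * n : ℕ) : ℝ) + 6 * m) ≤ 4 * X := by
    have a1 : Real.log (2 * ((2 * n : ℕ) : ℝ) + 6 * (m : ℝ)) ≤ 2 * Real.log X := by
      refine le_trans (Real.log_le_log ?_ ?_) h4
      · push_cast
        linarith
      · rw [hmR]; push_cast; linarith
    have a2 : (Nat.primeCounting X0 : ℝ) ≤ 2 * X / Real.log X := by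
      have : Real.log 4 + (2 - Real.log 4) = 2 := by ring
      rw [this] at h3
      exact h3
    have a3 : (0 : ℝ) ≤ (Nat.primeCounting X0 : ℝ) := Nat.cast_nonneg _
    calc (Nat.primeCounting X0 : ℝ) * Real.log (2 * ((2 * n : ℕ) : ℝ) + 6 * m)
        ≤ (Nat.primeCounting X0 : ℝ) * (2 * Real.log X) := mul_le_mul_of_nonneg_left a1 a3
      _ ≤ (2 * X / Real.log X) * (2 * Real.log X) :=
          mul_le_mul_of_nonneg_right a2 (by positivity)
      _ = 4 * X := by field_simp; ring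
  have hpsi : Chebyshev.psi (X0 : ℝ) ≤ 6 * X := by
    have a1 : (X0 : ℝ) ≤ X := Nat.floor_le (by linarith)
    have a2 := Chebyshev.psi_le_const_mul_self (x := (X0 : ℝ)) (Nat.cast_nonneg _)
    have a4 : (0 : ℝ) ≤ (X0 : ℝ) := Nat.cast_nonneg _
    nlinarith
  have hmn : (m : ℝ) ≤ 33 * n := by rw [hmR]; linarith
  have hXn : X * n = 4 * (n : ℝ) ^ 2 / J := by rw [hXd]; push_cast; ring
  have p1 : ((297 * m : ℕ) : ℝ) * ((Nat.primeCounting X0 : ℝ) *
      Real.log (2 * ((2 * n : ℕ) : ℝ) + 6 * m)) ≤ 156816 * (n : ℝ) ^ 2 / J := by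
    calc ((297 * m : ℕ) : ℝ) * ((Nat.primeCounting X0 : ℝ) *
          Real.log (2 * ((2 * n : ℕ) : ℝ) + 6 * m))
        ≤ ((297 * m : ℕ) : ℝ) * (4 * X) := mul_le_mul_of_nonneg_left hpi (Nat.cast_nonneg _)
      _ = 297 * (m : ℝ) * (4 * X) := by push_cast; ring
      _ ≤ 297 * (33 * n) * (4 * X) := by
          apply mul_le_mul_of_nonneg_right _ (by linarith)
          linarith
      _ = 39204 * (X * n) := by ring
      _ = 156816 * (n : ℝ) ^ 2 / J := by rw [hXn]; ring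
  have p2 : 6 * (m : ℝ) * Chebyshev.psi (X0 : ℝ) ≤ 4752 * (n : ℝ) ^ 2 / J := by
    calc 6 * (m : ℝ) * Chebyshev.psi (X0 : ℝ) ≤ 6 * (m : ℝ) * (6 * X) :=
          mul_le_mul_of_nonneg_left hpsi (by positivity)
      _ ≤ 6 * (33 * n) * (6 * X) := by
          apply mul_le_mul_of_nonneg_right _ (by linarith)
          linarith
      _ = 1188 * (X * n) := by ring
      _ = 4752 * (n : ℝ) ^ 2 / J := by rw [hXn]; ring
  -- the main part
  set L : ℝ := ∑ j ∈ Finset.Icc 1 X0, vonMangoldt j / j with hL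
  have hL1 : Real.log X - Real.eulerMascheroniConstant - 2 * ε' ≤ L := by linarith
  have hL0 : 0 ≤ Real.log X - Real.eulerMascheroniConstant - 2 * ε' := by linarith
  have hγ0 : 0 ≤ Real.eulerMascheroniConstant := by
    have := Real.one_half_lt_eulerMascheroniConstant
    linarith
  have p3 : 13068 * (n : ℝ) ^ 2 * (Real.log X - Real.eulerMascheroniConstant) -
      ε * (n : ℝ) ^ 2 ≤ (12 * (m : ℝ) ^ 2 - 6 * m) * L := by
    have a1 : 13068 * (n : ℝ) ^ 2 - 26334 * n ≤ 12 * (m : ℝ) ^ 2 - 6 * m := by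
      rw [hmR]
      nlinarith
    have a0 : 0 ≤ 12 * (m : ℝ) ^ 2 - 6 * m := by
      rw [hmR]
      nlinarith
    have a2 : (12 * (m : ℝ) ^ 2 - 6 * m) *
        (Real.log X - Real.eulerMascheroniConstant - 2 * ε') ≤
        (12 * (m : ℝ) ^ 2 - 6 * m) * L := mul_le_mul_of_nonneg_left hL1 a0
    have a3 : (13068 * (n : ℝ) ^ 2 - 26334 * n) *
        (Real.log X - Real.eulerMascheroniConstant - 2 * ε') ≤
        (12 * (m : ℝ) ^ 2 - 6 * m) *
          (Real.log X - Real.eulerMascheroniConstant - 2 * ε') :=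
      mul_le_mul_of_nonneg_right a1 hL0
    have a4 : 26136 * ε' = ε / 2 := by
      rw [hε']; ring
    have a5 : 26334 * (Real.log X - Real.eulerMascheroniConstant - 2 * ε') ≤
        ε / 2 * n := by
      refine le_trans ?_ h5
      apply mul_le_mul_of_nonneg_left _ (by norm_num)
      linarith
    have a6 : (n : ℝ) * (26334 *
        (Real.log X - Real.eulerMascheroniConstant - 2 * ε')) ≤ (n : ℝ) * (ε / 2 * n) :=
      mul_le_mul_of_nonneg_left a5 (by linarith)
    have a7 : (13068 * (n : ℝ) ^ 2 - 26334 * n) *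
        (Real.log X - Real.eulerMascheroniConstant - 2 * ε') =
        13068 * (n : ℝ) ^ 2 * (Real.log X - Real.eulerMascheroniConstant) -
          (26136 * ε') * (n : ℝ) ^ 2 - (n : ℝ) * (26334 *
        (Real.log X - Real.eulerMascheroniConstant - 2 * ε')) := by ring
    rw [a4] at a7
    have a8 : (n : ℝ) * (ε / 2 * n) = ε / 2 * (n : ℝ) ^ 2 := by ring
    rw [a8] at a6
    linarith
  have hXe : (4 * (n : ℝ) / J) = X := by rw [hXd]; push_cast; ring
  rw [hXe]
  have hfin : (n : ℝ) ^ 2 * (-13068 * (Real.log X - Real.eulerMascheroniConstant) +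
      161568 / J + ε) =
      156816 * (n : ℝ) ^ 2 / J + 4752 * (n : ℝ) ^ 2 / J -
      (13068 * (n : ℝ) ^ 2 * (Real.log X - Real.eulerMascheroniConstant) -
      ε * (n : ℝ) ^ 2) := by ring
  rw [hfin]
  linarith

/-- **the sum over the small primes** -/
theorem S0 : S_S0 := S0_of Pool.Agent.N334.W.ME

end Pool.Agent.L0h38.Q4
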