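import Pool.Agent.L0h38.Q4.Stm
import Pool.Agent.N334.W.SE
import Pool.Agent.N334.W.PN

/-!
# S1: the sum of the exponents over `n < p < 2n` (helper98)
-/

set_option autoImplicit false

open Finset Filter Topology

namespace Pool.Agent.L0h38.Q4

open Pool.Agent.N334.W (mem_PS PS_split)

/-- **S1** from PN -/
theorem S1_of (hPN : Pool.Agent.N334.W.S_PN) : S_S1 := by
  intro ε hε
  obtain ⟨δ, hδ⟩ : ∃ δ : ℝ, δ = ε / 16 := ⟨_, rfl⟩
  have hδ0 : 0 < δ := by rw [hδ]; linarith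
  have hlim := hPN 1 2 0 (9999 / 2 + δ) (-4950) (by norm_num) (by norm_num)
  have e : (0 : ℝ) * Real.log (2 / 1) + (9999 / 2 + δ) * (2 - 1) +
      (-4950) * ((2 ^ 2 - 1 ^ 2) / 2) = -4851 / 2 + δ := by ring
  rw [e] at hlim
  have hev := hlim.eventually_lt_const (show -4851 / 2 + δ < -4851 / 2 + 2 * δ by linarith)
  have htwo : Tendsto (fun ν : ℕ => 2 * ν) atTop atTop :=
    tendsto_atTop_mono (fun ν => (by omega : ν ≤ 2 * ν)) tendsto_id
  have hev1 := htwo.eventually hev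
  have hev2 : ∀ᶠ ν : ℕ in atTop, 1 ≤ ν := eventually_ge_atTop 1
  have hev3 : ∀ᶠ ν : ℕ in atTop, 9801 / (2 * δ) ≤ (ν : ℝ) :=
    tendsto_natCast_atTop_atTop.eventually (eventually_ge_atTop _)
  filter_upwards [hev1, hev2, hev3] with ν hn1 hn2 hn3
  have hνR : (1 : ℝ) ≤ ν := by exact_mod_cast hn2
  rw [div_le_iff₀ (by positivity)] at hn3
  rw [div_lt_iff₀ (by positivity)] at hn1
  have h2ν : ((2 * ν : ℕ) : ℝ) = 2 * ν := by push_cast; ring
  have hset : (Finset.range (4 * ν)).filter (fun p => p.Prime ∧ 2 * ν < p) = PS 1 2 (2 * ν) := by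
    ext p
    rw [mem_PS (by norm_num), Finset.mem_filter, Finset.mem_range, h2ν]
    constructor
    · rintro ⟨h1, h2, h3⟩
      refine ⟨h2, ?_, ?_⟩
      · rw [one_mul]
        exact_mod_cast h3
      · have : (p : ℝ) ≤ 4 * ν := by exact_mod_cast h1.le
        linarith
    · rintro ⟨h1, h2, h3⟩
      rw [one_mul] at h2
      have h2' : 2 * ν < p := by exact_mod_cast h2
      have h3' : p ≤ 4 * ν := by
        have : (p : ℝ) ≤ 4 * ν := by linarith
        exact_mod_cast this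
      refine ⟨lt_of_le_of_ne h3' ?_, h1, h2'⟩
      intro h4
      have h5 : 2 ∣ p := ⟨2 * ν, by omega⟩
      rcases (Nat.dvd_prime h1).1 h5 with h6 | h6
      · omega
      · omega
  rw [hset]
  have hmain : ∑ p ∈ PS 1 2 (2 * ν),
      (-297 * ((33 * (ν - 1) : ℕ) : ℝ) + 9900 * (((4 * ν - p - 1) / 2 : ℕ) : ℝ)) * Real.log p ≤
      ∑ p ∈ PS 1 2 (2 * ν), (0 * (((2 * ν : ℕ) : ℝ)) ^ 2 / p +
        (9999 / 2 + δ) * ((2 * ν : ℕ) : ℝ) + (-4950) * p) * Real.log p := by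
    refine Finset.sum_le_sum fun p hp => ?_
    rw [mem_PS (by norm_num), h2ν] at hp
    obtain ⟨hp1, hp2, hp3⟩ := hp
    refine mul_le_mul_of_nonneg_right ?_ (Real.log_natCast_nonneg p)
    have hp4 : p ≤ 4 * ν := by
      have : (p : ℝ) ≤ 4 * ν := by linarith
      exact_mod_cast this
    have h1 : (((4 * ν - p - 1) / 2 : ℕ) : ℝ) ≤ (4 * ν - p) / 2 := by
      have h2 : 2 * ((4 * ν - p - 1) / 2) + p ≤ 4 * ν := by omega
      have h3 : 2 * (((4 * ν - p - 1) / 2 : ℕ) : ℝ) + p ≤ 4 * ν := by exact_mod_cast h2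
      linarith
    have hm : ((33 * (ν - 1) : ℕ) : ℝ) = 33 * ((ν : ℝ) - 1) := by
      rw [Nat.cast_mul, Nat.cast_sub hn2]
      push_cast
      ring
    rw [hm, h2ν, zero_mul, zero_div, zero_add]
    have h4 : (9999 / 2 + δ) * (2 * (ν : ℝ)) = 9999 * ν + ν * (2 * δ) := by ring
    rw [h4]
    linarith
  refine hmain.trans (hn1.le.trans ?_)
  rw [h2ν]
  have h9 : (-4851 / 2 + 2 * δ) * (2 * (ν : ℝ)) ^ 2 = (ν : ℝ) ^ 2 * (-19602 + 9900 + 8 * δ) := by
    ring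
  rw [h9]
  refine mul_le_mul_of_nonneg_left ?_ (by positivity)
  rw [hδ]
  linarith

/-- **S1** -/
theorem S1 : S_S1 := S1_of Pool.Agent.N334.W.thm_PN

end Pool.Agent.L0h38.Q4
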