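import Pool.Agent.L0h38.Q4.Stm
import Pool.Agent.N334.W.SE
import Pool.Agent.N334.W.PN

/-!
# S2: the sum of the exponents over `2n/J < p ≤ n` (helper98)
-/

set_option autoImplicit false

open Finset Filter Topology

namespace Pool.Agent.L0h38.Q4.S2aux

open Pool.Agent.N334.W (mem_PS PS_split)

noncomputable section

/-- the coefficients on a block -/
def be (j : ℕ) : ℝ := (-9801 * (j : ℝ) - 165 + 29403 / 4 * (2 * j + 1)) / 2

def ga (j : ℕ) : ℝ := 10 - 29403 / 16 * ((j : ℝ) * (j + 1))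

def cK (K : ℝ) (j : ℕ) : ℝ := 6534 * ((j : ℝ) + 1) + 165 + |K| * (66 * ((j : ℝ) + 1) + 99) ^ 2

/-- the exponent on a block -/
theorem EP_le (K : ℝ) (ν p j : ℕ) (hν : 1 ≤ ν) (hp0 : 0 < p)
    (h1 : 4 * ν < (j + 1) * p) (h2 : j * p ≤ 4 * ν) (hj : 1 ≤ j) :
    EP K (2 * ν) (33 * (ν - 1)) p ≤ -3267 / 4 * (((2 * ν : ℕ) : ℝ)) ^ 2 / p +
      be j * ((2 * ν : ℕ) : ℝ) + ga j * p + cK K j +
      (if j * p = 4 * ν then 9801 * (ν : ℝ) else 0) := by
  have hm : ((33 * (ν - 1) : ℕ) : ℝ) = 33 * ((ν : ℝ) - 1) := by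
    rw [Nat.cast_mul, Nat.cast_sub hν]
    push_cast
    ring
  have hpR : (0 : ℝ) < p := by exact_mod_cast hp0
  have hνR : (1 : ℝ) ≤ ν := by exact_mod_cast hν
  have h1R : 4 * (ν : ℝ) < (j + 1) * p := by exact_mod_cast h1
  have h2R : (j : ℝ) * p ≤ 4 * ν := by exact_mod_cast h2
  have hj0 : (1 : ℝ) ≤ j := by exact_mod_cast hj
  obtain ⟨x, hx⟩ : ∃ x : ℝ, x = (ν : ℝ) / p := ⟨_, rfl⟩
  have hνx : (ν : ℝ) = x * p := by
    rw [hx]
    field_simp
  have hx0 : 0 ≤ x := by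
    rw [hx]
    positivity
  have hx1 : 4 * x ≤ j + 1 := by
    rw [hx, mul_div_assoc', div_le_iff₀ hpR]
    exact h1R.le
  have hx2 : (j : ℝ) ≤ 4 * x := by
    rw [hx, mul_div_assoc', le_div_iff₀ hpR]
    exact h2R
  -- the proportion
  have hph : (ph (2 * ν) p = 4 * x - j) ∨ (ph (2 * ν) p = 1 ∧ j * p = 4 * ν) := by
    unfold ph
    by_cases h : j * p = 4 * ν
    · right
      refine ⟨?_, h⟩
      have h3 : (2 * (2 * ν) - 1) % p = p - 1 := by
        obtain ⟨i, rfl⟩ : ∃ i, j = i + 1 := ⟨j - 1, by omega⟩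
        have e : 2 * (2 * ν) - 1 = (p - 1) + p * i := by
          have : (i + 1) * p = p * i + p := by ring
          omega
        rw [e, Nat.add_mul_mod_self_left, Nat.mod_eq_of_lt (by omega)]
      rw [h3, Nat.sub_add_cancel hp0]
      exact div_self hpR.ne'
    · left
      have h3 : (2 * (2 * ν) - 1) % p + 1 = 4 * ν - j * p := by
        have e : 2 * (2 * ν) - 1 = (4 * ν - j * p - 1) + p * j := by
          rw [mul_comm p j]
          omega
        have e2 : (j + 1) * p = j * p + p := by ring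
        rw [e, Nat.add_mul_mod_self_left, Nat.mod_eq_of_lt (by omega)]
        omega
      rw [h3, Nat.cast_sub h2]
      push_cast
      rw [hx]
      field_simp
  obtain ⟨φ, hφ⟩ : ∃ φ : ℝ, φ = ph (2 * ν) p := ⟨_, rfl⟩
  rw [← hφ] at hph
  -- the pieces
  have t1 : -12 * (33 * ((ν : ℝ) - 1)) ^ 2 / p ≤ -13068 * (ν : ℝ) ^ 2 / p + 6534 * (j + 1) := by
    have e2 : -12 * (33 * ((ν : ℝ) - 1)) ^ 2 / p = -13068 * (ν : ℝ) ^ 2 / p +
        26136 * x - 13068 / p := by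
      rw [hx]
      field_simp
      ring
    rw [e2]
    have h3 : 0 ≤ 13068 / (p : ℝ) := by positivity
    linarith
  have t2 : (297 * φ - 5) * (33 * ((ν : ℝ) - 1)) ≤ (297 * (4 * x - j) - 5) * (33 * ν) + 165 +
      (if j * p = 4 * ν then 9801 * (ν : ℝ) else 0) := by
    rcases hph with h | ⟨h, h'⟩
    · have h4 : (0 : ℝ) ≤ (if j * p = 4 * ν then 9801 * (ν : ℝ) else 0) := by
        split_ifs <;> positivity
      have h5 : 0 ≤ φ := by rw [h]; linarith
      rw [← h]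
      linarith
    · rw [if_pos h', h]
      have h6 : 4 * x - j = 0 := by
        have : (j : ℝ) * p = 4 * ν := by exact_mod_cast h'
        rw [hνx] at this
        have h7 : (4 * x - j) * p = 0 := by linarith
        rcases mul_eq_zero.1 h7 with h8 | h8
        · exact h8
        · exact absurd h8 hpR.ne'
      rw [h6]
      linarith
  have t3 : φ * (1 - φ) = (4 * x - j) * (1 - (4 * x - j)) := by
    rcases hph with h | ⟨h, h'⟩
    · rw [h]
    · have h6 : 4 * x - j = 0 := by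
        have : (j : ℝ) * p = 4 * ν := by exact_mod_cast h'
        rw [hνx] at this
        have h7 : (4 * x - j) * p = 0 := by linarith
        rcases mul_eq_zero.1 h7 with h8 | h8
        · exact h8
        · exact absurd h8 hpR.ne'
      rw [h, h6]
      ring
  have t4 : K * (8 * (33 * ((ν : ℝ) - 1)) / p + 99) ^ 2 ≤
      |K| * (66 * ((j : ℝ) + 1) + 99) ^ 2 := by
    have h5 : 0 ≤ 8 * (33 * ((ν : ℝ) - 1)) / p := by
      refine div_nonneg ?_ hpR.le
      linarith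
    have h6 : 8 * (33 * ((ν : ℝ) - 1)) / p ≤ 66 * ((j : ℝ) + 1) := by
      have h7 : 8 * (33 * ((ν : ℝ) - 1)) / p ≤ 264 * x := by
        rw [hx, mul_div_assoc']
        refine div_le_div_of_nonneg_right ?_ hpR.le
        linarith
      linarith
    have h7 : (8 * (33 * ((ν : ℝ) - 1)) / p + 99) ^ 2 ≤ (66 * ((j : ℝ) + 1) + 99) ^ 2 :=
      pow_le_pow_left₀ (by positivity) (by linarith) 2
    have h8 : (0 : ℝ) ≤ (8 * (33 * ((ν : ℝ) - 1)) / p + 99) ^ 2 := by positivity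
    calc K * (8 * (33 * ((ν : ℝ) - 1)) / p + 99) ^ 2
        ≤ |K| * (8 * (33 * ((ν : ℝ) - 1)) / p + 99) ^ 2 :=
          mul_le_mul_of_nonneg_right (le_abs_self K) h8
      _ ≤ |K| * (66 * ((j : ℝ) + 1) + 99) ^ 2 := mul_le_mul_of_nonneg_left h7 (abs_nonneg K)
  have e3 : -3267 / 4 * (((2 * ν : ℕ) : ℝ)) ^ 2 / p + be j * ((2 * ν : ℕ) : ℝ) + ga j * p =
      -13068 * (ν : ℝ) ^ 2 / p + (297 * (4 * x - j) - 5) * (33 * ν) +
        29403 / 16 * ((4 * x - j) * (1 - (4 * x - j))) * p + 10 * p := by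
    unfold be ga
    push_cast
    rw [hνx]
    field_simp
    ring
  unfold EP cK
  rw [hm, ← hφ]
  have e4 : 29403 / 16 * φ * (1 - φ) * p = 29403 / 16 * ((4 * x - j) * (1 - (4 * x - j))) * p := by
    rw [← t3]
    ring
  rw [e4]
  linarith

/-- the value on a block -/
def bl (j : ℕ) : ℝ := 4 * (-3267 / 4 * Real.log (((j : ℝ) + 1) / j) +
  be j * (2 / j - 2 / ((j : ℝ) + 1)) +
  ga j * (((2 / (j : ℝ)) ^ 2 - (2 / ((j : ℝ) + 1)) ^ 2) / 2))

theorem block (hPN : Pool.Agent.N334.W.S_PN) (K : ℝ) (j : ℕ) (ε : ℝ) (hj : 2 ≤ j) (hε : 0 < ε) :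
    ∀ᶠ ν : ℕ in atTop, ∑ p ∈ PS (2 / ((j : ℝ) + 1)) (2 / j) (2 * ν),
      EP K (2 * ν) (33 * (ν - 1)) p * Real.log p ≤ (ν : ℝ) ^ 2 * (bl j + ε) := by
  have hjR : (2 : ℝ) ≤ j := by exact_mod_cast hj
  have hlt : 2 / ((j : ℝ) + 1) < 2 / j :=
    div_lt_div_of_pos_left (by norm_num) (by linarith) (by linarith)
  obtain ⟨δ, hδ⟩ : ∃ δ : ℝ, δ = ε / 16 := ⟨_, rfl⟩
  have hδ0 : 0 < δ := by rw [hδ]; linarith
  have hlim := hPN (2 / ((j : ℝ) + 1)) (2 / j) (-3267 / 4) (be j + δ) (ga j) (by positivity) hlt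
  have hΔ : 2 / (j : ℝ) - 2 / ((j : ℝ) + 1) ≤ 1 := by
    have h1 : 2 / (j : ℝ) ≤ 1 := by
      rw [div_le_one (by linarith)]
      linarith
    have h2 : 0 ≤ 2 / ((j : ℝ) + 1) := by positivity
    linarith
  have hlog : 2 / (j : ℝ) / (2 / ((j : ℝ) + 1)) = ((j : ℝ) + 1) / j := by
    field_simp
  rw [hlog] at hlim
  have hlt2 : -3267 / 4 * Real.log (((j : ℝ) + 1) / j) +
      (be j + δ) * (2 / j - 2 / ((j : ℝ) + 1)) +
      ga j * (((2 / (j : ℝ)) ^ 2 - (2 / ((j : ℝ) + 1)) ^ 2) / 2) < bl j / 4 + 2 * δ := by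
    unfold bl
    generalize 2 / (j : ℝ) - 2 / ((j : ℝ) + 1) = Δ at hΔ ⊢
    generalize (2 / (j : ℝ)) ^ 2 - (2 / ((j : ℝ) + 1)) ^ 2 = Δ2
    generalize Real.log (((j : ℝ) + 1) / j) = Δ3
    have h6 : δ * Δ ≤ δ * 1 := mul_le_mul_of_nonneg_left hΔ hδ0.le
    linarith
  have hev := hlim.eventually_lt_const hlt2
  have htwo : Tendsto (fun ν : ℕ => 2 * ν) atTop atTop :=
    tendsto_atTop_mono (fun ν => (by omega : ν ≤ 2 * ν)) tendsto_id
  have hev1 := htwo.eventually hev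
  have hev2 : ∀ᶠ ν : ℕ in atTop, 1 ≤ ν := eventually_ge_atTop 1
  have hev3 : ∀ᶠ ν : ℕ in atTop, cK K j / (2 * δ) ≤ (ν : ℝ) :=
    tendsto_natCast_atTop_atTop.eventually (eventually_ge_atTop _)
  have hev4 : ∀ᶠ x : ℝ in atTop, ‖Real.log x‖ ≤ (2 * δ / 9801) * ‖x‖ :=
    Real.isLittleO_log_id_atTop.def (by positivity)
  have hev5 : ∀ᶠ ν : ℕ in atTop, ‖Real.log ((2 * ν : ℕ) : ℝ)‖ ≤
      (2 * δ / 9801) * ‖((2 * ν : ℕ) : ℝ)‖ :=
    (tendsto_natCast_atTop_atTop.comp htwo).eventually hev4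
  filter_upwards [hev1, hev2, hev3, hev5] with ν hn1 hn2 hn3 hn5
  have hnR : (1 : ℝ) ≤ ν := by exact_mod_cast hn2
  rw [div_le_iff₀ (by positivity)] at hn3
  rw [div_lt_iff₀ (by positivity)] at hn1
  have h2ν : ((2 * ν : ℕ) : ℝ) = 2 * ν := by push_cast; ring
  have hlog0 : 0 ≤ Real.log ((2 * ν : ℕ) : ℝ) := Real.log_natCast_nonneg _
  rw [Real.norm_of_nonneg hlog0, Real.norm_of_nonneg (by positivity)] at hn5
  -- the exceptional prime
  have hex : ∑ p ∈ PS (2 / ((j : ℝ) + 1)) (2 / j) (2 * ν),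
      (if j * p = 4 * ν then 9801 * (ν : ℝ) else 0) * Real.log p ≤
      9801 * (ν : ℝ) * Real.log ((2 * ν : ℕ) : ℝ) := by
    have h3 : ∀ p ∈ PS (2 / ((j : ℝ) + 1)) (2 / j) (2 * ν),
        (if j * p = 4 * ν then 9801 * (ν : ℝ) else 0) * Real.log p ≤
        if p = 4 * ν / j then 9801 * (ν : ℝ) * Real.log ((2 * ν : ℕ) : ℝ) else 0 := by
      intro p hp
      by_cases h : j * p = 4 * ν
      · have h4 : p = 4 * ν / j := by
          rw [← h, Nat.mul_div_cancel_left _ (by omega)]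
        rw [if_pos h, if_pos h4]
        refine mul_le_mul_of_nonneg_left ?_ (by positivity)
        have hp0 : 0 < p := by
          rcases Nat.eq_zero_or_pos p with h5 | h5
          · rw [h5] at h; omega
          · exact h5
        refine Real.log_le_log (by exact_mod_cast hp0) ?_
        have : p ≤ 2 * ν := by
          have h6 : 2 * p ≤ j * p := Nat.mul_le_mul_right p hj
          omega
        exact_mod_cast this
      · rw [if_neg h, zero_mul]
        split_ifs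
        · positivity
        · exact le_rfl
    refine (Finset.sum_le_sum h3).trans ?_
    rw [Finset.sum_ite_eq']
    split_ifs
    · exact le_rfl
    · positivity
  have hmain : ∑ p ∈ PS (2 / ((j : ℝ) + 1)) (2 / j) (2 * ν),
      EP K (2 * ν) (33 * (ν - 1)) p * Real.log p ≤
      ∑ p ∈ PS (2 / ((j : ℝ) + 1)) (2 / j) (2 * ν),
        ((-3267 / 4 * (((2 * ν : ℕ) : ℝ)) ^ 2 / p + (be j + δ) * ((2 * ν : ℕ) : ℝ) + ga j * p) *
          Real.log p + (if j * p = 4 * ν then 9801 * (ν : ℝ) else 0) * Real.log p) := by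
    refine Finset.sum_le_sum fun p hp => ?_
    rw [mem_PS (by positivity)] at hp
    obtain ⟨hp1, hp2, hp3⟩ := hp
    have hp0 : 0 < p := hp1.pos
    have hpR : (0 : ℝ) < p := by exact_mod_cast hp0
    rw [div_mul_eq_mul_div, div_lt_iff₀ (by positivity), h2ν] at hp2
    rw [div_mul_eq_mul_div, le_div_iff₀ (by positivity), h2ν] at hp3
    have h1 : 4 * ν < (j + 1) * p := by
      have : 4 * (ν : ℝ) < (j + 1) * p := by linarith
      exact_mod_cast this
    have h2 : j * p ≤ 4 * ν := by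
      have : (j : ℝ) * p ≤ 4 * ν := by linarith
      exact_mod_cast this
    have h3 := EP_le K ν p j hn2 hp0 h1 h2 (by omega)
    rw [← add_mul]
    refine mul_le_mul_of_nonneg_right ?_ (Real.log_natCast_nonneg p)
    rw [h2ν] at h3 ⊢
    linarith
  refine hmain.trans ?_
  rw [Finset.sum_add_distrib]
  have h7 : 9801 * (ν : ℝ) * Real.log ((2 * ν : ℕ) : ℝ) ≤ 4 * δ * (ν : ℝ) ^ 2 := by
    have : 9801 * (ν : ℝ) * Real.log ((2 * ν : ℕ) : ℝ) ≤
        9801 * (ν : ℝ) * ((2 * δ / 9801) * ((2 * ν : ℕ) : ℝ)) :=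
      mul_le_mul_of_nonneg_left hn5 (by positivity)
    refine this.trans (le_of_eq ?_)
    rw [h2ν]
    ring
  have h8 : (bl j / 4 + 2 * δ) * ((2 * ν : ℕ) : ℝ) ^ 2 = (ν : ℝ) ^ 2 * (bl j + 8 * δ) := by
    rw [h2ν]
    ring
  rw [h8] at hn1
  have h9 : (ν : ℝ) ^ 2 * (bl j + ε) = (ν : ℝ) ^ 2 * (bl j + 8 * δ) + 8 * δ * (ν : ℝ) ^ 2 := by
    rw [hδ]
    ring
  have h10 : 0 ≤ 4 * δ * (ν : ℝ) ^ 2 := by positivity
  rw [h9]
  linarith

theorem e2_two : e2 2 = 0 := by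
  unfold e2 Hn Pool.Agent.N334.W.Hn
  simp [Finset.sum_range_succ]
  norm_num

theorem e2_succ (j : ℕ) (hj : 1 ≤ j) : e2 (j + 1) = e2 j + bl j := by
  have hjR : (1 : ℝ) ≤ j := by exact_mod_cast hj
  have h1 : Hn (j + 1) = Hn j + 1 / ((j : ℝ) + 1) := by
    unfold Hn Pool.Agent.N334.W.Hn
    rw [Finset.sum_range_succ]
  have h2 : Hn j = Hn (j - 1) + 1 / j := by
    unfold Hn Pool.Agent.N334.W.Hn
    obtain ⟨k, rfl⟩ : ∃ k, j = k + 1 := ⟨j - 1, by omega⟩
    rw [Nat.add_sub_cancel, Finset.sum_range_succ]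
    push_cast
    ring
  have h3 : Real.log (((j : ℝ) + 1) / j) = Real.log ((j : ℝ) + 1) - Real.log j :=
    Real.log_div (by positivity) (by positivity)
  unfold e2 bl be ga
  rw [Nat.add_sub_cancel, h1, h3, h2]
  push_cast
  field_simp
  ring

end

end Pool.Agent.L0h38.Q4.S2aux

namespace Pool.Agent.L0h38.Q4

open S2aux
open Pool.Agent.N334.W (mem_PS PS_split)

/-- **S2** from PN -/
theorem S2_of (hPN : Pool.Agent.N334.W.S_PN) : S_S2 := by
  intro K J ε hJ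
  revert ε
  induction J, hJ using Nat.le_induction with
  | base =>
    intro ε hε
    rw [e2_two]
    refine Eventually.of_forall fun ν => ?_
    have h1 : PS (2 / ((2 : ℕ) : ℝ)) 1 (2 * ν) = ∅ := by
      rw [Finset.eq_empty_iff_forall_notMem]
      intro p hp
      rw [mem_PS (by norm_num)] at hp
      have h2 := hp.2.1
      have h3 := hp.2.2
      norm_num at h2 h3
      linarith
    rw [h1, Finset.sum_empty]
    positivity
  | succ J hJ ih =>
    intro ε hε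
    have hJR : (2 : ℝ) ≤ J := by exact_mod_cast hJ
    filter_upwards [ih (ε / 2) (by linarith), block hPN K J (ε / 2) hJ (by linarith)]
      with n h1 h2
    have h3 : 2 / (((J + 1 : ℕ)) : ℝ) = 2 / ((J : ℝ) + 1) := by push_cast; rfl
    have h4 : 2 / ((J : ℝ) + 1) ≤ 2 / J :=
      div_le_div_of_nonneg_left (by norm_num) (by linarith) (by linarith)
    have h5 : 2 / (J : ℝ) ≤ 1 := by
      rw [div_le_one (by linarith)]
      linarith
    rw [h3, PS_split (by positivity) h4 h5, e2_succ J (by omega)]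
    refine (add_le_add h2 h1).trans (le_of_eq ?_)
    ring

/-- **S2** -/
theorem S2 : S_S2 := S2_of Pool.Agent.N334.W.thm_PN

end Pool.Agent.L0h38.Q4
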