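import Pool.Agent.L0h38.Q4.Stm

/-!
# WA: monotonicity of the weights of the summation points
-/

open Polynomial Pool.Agent.H337R2 Filter Topology

namespace Pool.Agent.L0h38.Q4

noncomputable section

namespace WA

/-- `log ((c-n)/(c+n)) ≤ -2n/c` -/
lemma log_ratio {c n : ℝ} (hn : 0 ≤ n) (hc : n < c) :
    Real.log (c - n) - Real.log (c + n) ≤ -(2 * n / c) := by
  have hc0 : 0 < c := lt_of_le_of_lt hn hc
  have hx0 : 0 ≤ n / c := div_nonneg hn hc0.le
  have hx1 : n / c < 1 := (div_lt_one hc0).2 hc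
  have hs := Real.hasSum_log_sub_log_of_abs_lt_one (x := n / c) (by rw [abs_of_nonneg hx0]; exact hx1)
  have h1 := le_hasSum hs 0 (fun k _ => by positivity)
  have h2 : Real.log (c - n) = Real.log c + Real.log (1 - n / c) := by
    rw [← Real.log_mul hc0.ne' (by linarith)]
    congr 1
    field_simp
  have h3 : Real.log (c + n) = Real.log c + Real.log (1 + n / c) := by
    rw [← Real.log_mul hc0.ne' (by linarith)]
    congr 1
    field_simp
  rw [h2, h3]
  have h4 : 2 * n / c = 2 * (n / c) := by ring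
  rw [h4]
  norm_num at h1
  linarith

/-- one step -/
lemma step (n t K : ℕ) (hn : 1 ≤ n) (hK : K + 802 ≤ 198 * n) :
    wt n (t + 1) * ((n : ℝ) + ((t + 1 : ℕ) : ℝ) + 1) ^ K ≤ wt n t * ((n : ℝ) + (t : ℝ) + 1) ^ K := by
  have hnR : (1 : ℝ) ≤ n := by exact_mod_cast hn
  have htR : (0 : ℝ) ≤ t := Nat.cast_nonneg t
  set c : ℝ := (t : ℝ) + n + 1 with hc
  have hcn : (n : ℝ) < c := by rw [hc]; linarith
  have hc0 : 0 < c := by linarith
  have hc2 : 2 ≤ c := by rw [hc]; linarith
  have hw1 : 0 < wt n (t + 1) := by unfold wt; positivity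
  have hw0 : 0 < wt n t := by unfold wt; positivity
  have hf0 : (0 : ℝ) < ((2 * n - 1).factorial : ℝ) := by positivity
  have hf1 : (0 : ℝ) < (t.factorial : ℝ) := by positivity
  have hf2 : (0 : ℝ) < ((t + 2 * n).factorial : ℝ) := by positivity
  have hlw : ∀ s : ℕ, Real.log (wt n s) = 99 * (Real.log ((2 * n - 1).factorial : ℝ) +
      Real.log (s.factorial : ℝ) - Real.log ((s + 2 * n).factorial : ℝ)) +
      401 * Real.log (2 * (s : ℝ) + 2 * n + 1) := by
    intro s
    have h0 : (0 : ℝ) < ((2 * n - 1).factorial : ℝ) := by positivity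
    have h1 : (0 : ℝ) < (s.factorial : ℝ) := by positivity
    have h2 : (0 : ℝ) < ((s + 2 * n).factorial : ℝ) := by positivity
    have h3 : (0 : ℝ) < 2 * (s : ℝ) + 2 * n + 1 := by positivity
    unfold wt
    rw [Real.log_mul (by positivity) (by positivity), Real.log_pow, Real.log_pow,
      Real.log_div (by positivity) (by positivity), Real.log_mul h0.ne' h1.ne']
    push_cast
    ring
  have hP1 : 0 < wt n (t + 1) * ((n : ℝ) + ((t + 1 : ℕ) : ℝ) + 1) ^ K := mul_pos hw1 (by positivity)
  have hP0 : 0 < wt n t * ((n : ℝ) + (t : ℝ) + 1) ^ K := mul_pos hw0 (by positivity)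
  rw [← Real.log_le_log_iff hP1 hP0,
    Real.log_mul hw1.ne' (by positivity), Real.log_mul hw0.ne' (by positivity), Real.log_pow, Real.log_pow,
    hlw, hlw]
  have e1 : Real.log (((t + 1).factorial : ℕ) : ℝ) = Real.log (c - n) + Real.log (t.factorial : ℝ) := by
    rw [Nat.factorial_succ, ← Real.log_mul (by linarith) hf1.ne']
    congr 1
    push_cast
    rw [hc]
    ring
  have e2 : Real.log (((t + 1 + 2 * n).factorial : ℕ) : ℝ) =
      Real.log (c + n) + Real.log ((t + 2 * n).factorial : ℝ) := by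
    rw [show t + 1 + 2 * n = (t + 2 * n) + 1 by ring, Nat.factorial_succ,
      ← Real.log_mul (by linarith) hf2.ne']
    congr 1
    push_cast
    rw [hc]
    ring
  have e3 : Real.log (2 * ((t + 1 : ℕ) : ℝ) + 2 * n + 1) ≤ Real.log (2 * (t : ℝ) + 2 * n + 1) + 2 / c := by
    have h1 : (2 * ((t + 1 : ℕ) : ℝ) + 2 * n + 1) = (2 * (t : ℝ) + 2 * n + 1) * (1 + 2 / (2 * c - 1)) := by
      have : 2 * c - 1 ≠ 0 := by linarith
      have h2 : 2 * (t : ℝ) + 2 * n + 1 = 2 * c - 1 := by rw [hc]; ring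
      rw [h2]
      field_simp
      push_cast
      rw [hc]
      ring
    have h2 : 0 < 2 / (2 * c - 1) := div_pos (by norm_num) (by linarith)
    rw [h1, Real.log_mul (by positivity) (by positivity)]
    have h3 : Real.log (1 + 2 / (2 * c - 1)) ≤ 2 / (2 * c - 1) := by
      have := Real.log_le_sub_one_of_pos (x := 1 + 2 / (2 * c - 1)) (by positivity)
      linarith
    have h4 : 2 / (2 * c - 1) ≤ 2 / c := by
      apply div_le_div_of_nonneg_left (by norm_num) hc0 (by linarith)
    linarith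
  have e4 : Real.log ((n : ℝ) + ((t + 1 : ℕ) : ℝ) + 1) ≤ Real.log ((n : ℝ) + (t : ℝ) + 1) + 1 / c := by
    have h1 : ((n : ℝ) + ((t + 1 : ℕ) : ℝ) + 1) = ((n : ℝ) + (t : ℝ) + 1) * (1 + 1 / c) := by
      have h2 : (n : ℝ) + (t : ℝ) + 1 = c := by rw [hc]; ring
      rw [h2]
      field_simp
      push_cast
      rw [hc]
      ring
    rw [h1, Real.log_mul (by positivity) (by positivity)]
    have h3 : Real.log (1 + 1 / c) ≤ 1 / c := by
      have := Real.log_le_sub_one_of_pos (x := 1 + 1 / c) (by positivity)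
      linarith
    linarith
  have e5 := log_ratio (c := c) (n := n) (by linarith) hcn
  rw [e1, e2]
  have hKR : (K : ℝ) + 802 ≤ 198 * n := by exact_mod_cast hK
  have e6 : (K : ℝ) * Real.log ((n : ℝ) + ((t + 1 : ℕ) : ℝ) + 1) ≤
      K * Real.log ((n : ℝ) + (t : ℝ) + 1) + K * (1 / c) := by
    have := mul_le_mul_of_nonneg_left e4 (Nat.cast_nonneg (α := ℝ) K)
    linarith [mul_add (K : ℝ) (Real.log ((n : ℝ) + (t : ℝ) + 1)) (1 / c)]
  have e7 : 401 * (2 / c) + K * (1 / c) ≤ 99 * (2 * n / c) := by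
    have h1 : 401 * (2 / c) + K * (1 / c) = (K + 802) / c := by ring
    have h2 : 99 * (2 * n / c) = 198 * n / c := by ring
    rw [h1, h2]
    exact div_le_div_of_nonneg_right hKR hc0.le
  linarith

end WA

theorem WA : S_WA := by
  intro E
  filter_upwards [eventually_ge_atTop (E + 802)] with ν hν i hi t hit
  unfold BA
  induction t, hit using Nat.le_induction with
  | base => exact le_refl _
  | succ t hit ih =>
    refine le_trans ?_ ih
    refine WA.step (2 * ν) t _ (by omega) (by omega)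

end

end Pool.Agent.L0h38.Q4
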