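import Pool.Agent.L0h38.Q4.Stm
import Pool.Agent.Dim7.Iface

/-!
# Z1: the linear algebra step, from `dim < 4`, `dim ⟨1, ζ(3), ζ(5), ζ(7)⟩ ≥ 3` and the irrationality of `ζ(3)`
-/

open Polynomial Pool.Agent.H337R2

namespace Pool.Agent.L0h38.Q4

noncomputable section

namespace Z1

lemma denom (N : ℕ) (u : ℕ → ℚ) (hu : ∀ i, N ≤ i → u i = 0) (q : ℕ)
    (hq : ∀ i < N, (u i).den ∣ q) (hq0 : 0 < q) : UInt q u := by
  refine ⟨hq0, fun i => ?_⟩
  by_cases hi : i < N
  · obtain ⟨k, hk⟩ := hq i hi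
    refine ⟨(u i).num * k, ?_⟩
    have h1 : (u i).num = u i * ((u i).den : ℚ) := (Rat.mul_den_eq_num _).symm
    rw [hk]
    push_cast
    rw [h1]
    ring
  · exact ⟨0, by rw [hu i (not_lt.1 hi)]; simp⟩

/-- the list of numbers -/
def fN (N : ℕ) : Fin N → ℝ := fun i => if i.1 = 0 then (1 : ℝ) else zr (2 * i.1 + 1)

lemma mem_one {N : ℕ} (hN : 1 ≤ N) : (1 : ℝ) ∈ Submodule.span ℚ (Set.range (fN N)) :=
  Submodule.subset_span ⟨⟨0, hN⟩, by simp [fN]⟩

lemma mem_zr {N i : ℕ} (hi : Odd i) (h3 : 3 ≤ i) (h7 : i < 2 * N) :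
    zr i ∈ Submodule.span ℚ (Set.range (fN N)) := by
  obtain ⟨k, rfl⟩ := hi
  refine Submodule.subset_span ⟨⟨k, by omega⟩, ?_⟩
  simp only [fN]
  rw [if_neg (by omega)]

/-- three independent numbers -/
lemma linind (c : ℝ) (hirr : Irrational (zr 3)) (hc : c ∉ Submodule.span ℚ {(1 : ℝ), zr 3}) :
    LinearIndependent ℚ ![(1 : ℝ), zr 3, c] := by
  rw [Fintype.linearIndependent_iff]
  intro g hg
  rw [Fin.sum_univ_three] at hg
  simp only [Matrix.cons_val_zero, Matrix.cons_val_one, Matrix.cons_val, Rat.smul_def, mul_one] at hg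
  have h2 : g 2 = 0 := by
    by_contra h2
    apply hc
    rw [Submodule.mem_span_pair]
    refine ⟨-g 0 / g 2, -g 1 / g 2, ?_⟩
    have h2' : ((g 2 : ℚ) : ℝ) ≠ 0 := by exact_mod_cast h2
    rw [Rat.smul_def, Rat.smul_def]
    push_cast
    field_simp
    linarith
  have h1 : g 1 = 0 := by
    by_contra h1
    apply hirr
    refine ⟨-g 0 / g 1, ?_⟩
    have h1' : ((g 1 : ℚ) : ℝ) ≠ 0 := by exact_mod_cast h1
    rw [h2] at hg
    push_cast at hg ⊢
    field_simp
    linarith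
  have h0 : g 0 = 0 := by
    rw [h1, h2] at hg
    have : ((g 0 : ℚ) : ℝ) = 0 := by
      push_cast at hg
      linarith
    exact_mod_cast this
  intro i
  fin_cases i
  · exact h0
  · exact h1
  · exact h2

/-- the conclusion from the choice of `i1` -/
lemma concl (hirr : Irrational (zr 3)) (i1 : ℕ) (h5 : i1 = 5 ∨ i1 = 7)
    (hc : zr i1 ∉ Submodule.span ℚ {(1 : ℝ), zr 3})
    (hlow : ∀ i, Odd i → 3 ≤ i → i < i1 → zr i ∈ Submodule.span ℚ {(1 : ℝ), zr 3})
    (h : Module.finrank ℚ (Submodule.span ℚ (Set.range (fN 50))) < 4) :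
    ∃ (θ θ' : ℝ) (α β γ : ℕ → ℚ) (q i1 : ℕ), UInt q α ∧ UInt q β ∧ UInt q γ ∧ (i1 = 5 ∨ i1 = 7) ∧
      (∀ i < 3, β i = 0) ∧ β 3 ≠ 0 ∧ (∀ i < i1, γ i = 0) ∧ γ i1 ≠ 0 ∧
      (∀ i, Odd i → 3 ≤ i → i ≤ 99 → zr i = (α i : ℝ) + θ * (β i : ℝ) + θ' * (γ i : ℝ)) := by
  classical
  have hodd : Odd i1 := by rcases h5 with h5 | h5 <;> rw [h5] <;> decide
  have hi7 : i1 ≤ 7 := by omega
  have hi3 : 3 < i1 := by omega
  have hfin : FiniteDimensional ℚ (Submodule.span ℚ (Set.range (fN 50))) :=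
    FiniteDimensional.span_of_finite ℚ (Set.finite_range _)
  have hli := linind (zr i1) hirr hc
  have hle : Submodule.span ℚ (Set.range ![(1 : ℝ), zr 3, zr i1]) ≤
      Submodule.span ℚ (Set.range (fN 50)) := by
    rw [Submodule.span_le]
    rintro _ ⟨i, rfl⟩
    fin_cases i
    · exact mem_one (by norm_num)
    · exact mem_zr (by decide) (by norm_num) (by norm_num)
    · exact mem_zr hodd (by omega) (by omega)
  have heq : Submodule.span ℚ (Set.range ![(1 : ℝ), zr 3, zr i1]) =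
      Submodule.span ℚ (Set.range (fN 50)) := by
    apply Submodule.eq_of_le_of_finrank_le hle
    rw [finrank_span_eq_card hli, Fintype.card_fin]
    exact Nat.lt_succ_iff.1 h
  have hset : Set.range ![(1 : ℝ), zr 3, zr i1] = {(1 : ℝ), zr 3, zr i1} := by
    ext x
    simp only [Matrix.range_cons, Matrix.range_empty, Set.union_empty, Set.singleton_union]
  have hex : ∀ i, ∃ ab : ℚ × ℚ × ℚ, (Odd i → 3 ≤ i → i ≤ 99 →
      zr i = (ab.1 : ℝ) + zr 3 * (ab.2.1 : ℝ) + zr i1 * (ab.2.2 : ℝ)) ∧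
      (¬ (Odd i ∧ 3 ≤ i ∧ i ≤ 99) → ab = 0) ∧ (i < i1 → ab.2.2 = 0) := by
    intro i
    by_cases hi : Odd i ∧ 3 ≤ i ∧ i ≤ 99
    · by_cases hii : i < i1
      · obtain ⟨a, b, hab⟩ := Submodule.mem_span_pair.1 (hlow i hi.1 hi.2.1 hii)
        refine ⟨(a, b, 0), fun _ _ _ => ?_, fun hn => absurd hi hn, fun _ => rfl⟩
        rw [← hab, Rat.smul_def, Rat.smul_def]
        push_cast
        ring
      · have h1 := mem_zr (N := 50) hi.1 hi.2.1 (by omega)
        rw [← heq, hset] at h1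
        obtain ⟨a, b, d, hab⟩ := Submodule.mem_span_triple.1 h1
        refine ⟨(a, b, d), fun _ _ _ => ?_, fun hn => absurd hi hn, fun hn => absurd hn hii⟩
        rw [← hab, Rat.smul_def, Rat.smul_def, Rat.smul_def]
        ring
    · exact ⟨0, fun h1 h2 h3 => absurd ⟨h1, h2, h3⟩ hi, fun _ => rfl, fun _ => rfl⟩
  choose ab hab hab0 hab1 using hex
  have hβ3 : (ab 3).2.1 ≠ 0 := by
    intro h0
    apply hirr
    refine ⟨(ab 3).1, ?_⟩
    have h1 := hab 3 (by decide) (by norm_num) (by norm_num)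
    rw [h0, hab1 3 hi3] at h1
    rw [h1]
    simp
  have hγ : (ab i1).2.2 ≠ 0 := by
    intro h0
    apply hc
    have h1 := hab i1 hodd (by omega) (by omega)
    rw [h0] at h1
    rw [Submodule.mem_span_pair]
    refine ⟨(ab i1).1, (ab i1).2.1, ?_⟩
    rw [h1, Rat.smul_def, Rat.smul_def]
    push_cast
    ring
  have hout : ∀ i, 100 ≤ i → ab i = 0 := fun i hi => hab0 i (fun h1 => by omega)
  have hlow0 : ∀ i < 3, ab i = 0 := fun i hi => hab0 i (fun h1 => by omega)
  set q : ℕ := ∏ i ∈ Finset.range 100, ((ab i).1.den * ((ab i).2.1.den * (ab i).2.2.den)) with hq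
  have hq0 : 0 < q := Finset.prod_pos fun i _ =>
    Nat.mul_pos (Rat.den_pos _) (Nat.mul_pos (Rat.den_pos _) (Rat.den_pos _))
  have hdvd : ∀ i < 100, (ab i).1.den * ((ab i).2.1.den * (ab i).2.2.den) ∣ q := fun i hi =>
    Finset.dvd_prod_of_mem (fun i => (ab i).1.den * ((ab i).2.1.den * (ab i).2.2.den))
      (Finset.mem_range.2 hi)
  refine ⟨zr 3, zr i1, fun i => (ab i).1, fun i => (ab i).2.1, fun i => (ab i).2.2, q, i1,
    ?_, ?_, ?_, h5, ?_, hβ3, ?_, hγ, ?_⟩
  · exact denom 100 _ (fun i hi => by simp only [hout i hi]; rfl) q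
      (fun i hi => (Dvd.intro _ rfl).trans (hdvd i hi)) hq0
  · exact denom 100 _ (fun i hi => by simp only [hout i hi]; rfl) q
      (fun i hi => ((Dvd.intro _ rfl).trans (Dvd.intro_left _ rfl)).trans (hdvd i hi)) hq0
  · exact denom 100 _ (fun i hi => by simp only [hout i hi]; rfl) q
      (fun i hi => ((Dvd.intro_left _ rfl).trans (Dvd.intro_left _ rfl)).trans (hdvd i hi)) hq0
  · intro i hi
    show (ab i).2.1 = 0
    rw [hlow0 i hi]
    rfl
  · intro i hi
    exact hab1 i hi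
  · intro i h1 h2 h3
    exact hab i h1 h2 h3

end Z1

/-- Z1, from `Dim7.Z_main` and `Dim7.Z3_irr` -/
theorem Z1_of (h3 : Pool.Agent.Dim7.St_Z_main) (hirr : Irrational (zr 3)) : S_Z1 := by
  intro h
  have h' : Module.finrank ℚ (Submodule.span ℚ (Set.range (Z1.fN 50))) < 4 := h
  have h3' : 3 ≤ Module.finrank ℚ (Submodule.span ℚ (Set.range (Z1.fN 4))) := h3
  by_cases h5 : zr 5 ∈ Submodule.span ℚ {(1 : ℝ), zr 3}
  · have h7 : zr 7 ∉ Submodule.span ℚ {(1 : ℝ), zr 3} := by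
      intro h7
      have hle : Submodule.span ℚ (Set.range (Z1.fN 4)) ≤ Submodule.span ℚ {(1 : ℝ), zr 3} := by
        rw [Submodule.span_le]
        rintro _ ⟨i, rfl⟩
        fin_cases i
        · exact Submodule.subset_span (by simp [Z1.fN])
        · exact Submodule.subset_span (by simp [Z1.fN])
        · exact h5
        · exact h7
      have hfin : FiniteDimensional ℚ (Submodule.span ℚ {(1 : ℝ), zr 3}) :=
        FiniteDimensional.span_of_finite ℚ (Set.toFinite _)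
      have h8 := Submodule.finrank_mono hle
      have h9 : Module.finrank ℚ (Submodule.span ℚ {(1 : ℝ), zr 3}) ≤ 2 := by
        classical
        have h10 := finrank_span_finset_le_card (R := ℚ) ({(1 : ℝ), zr 3} : Finset ℝ)
        rw [Finset.coe_pair] at h10
        exact h10.trans Finset.card_le_two
      omega
    exact Z1.concl hirr 7 (Or.inr rfl) h7 (fun i hi h3i h7i => by
      have : i = 3 ∨ i = 5 := by obtain ⟨k, rfl⟩ := hi; omega
      rcases this with rfl | rfl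
      · exact Submodule.subset_span (by simp)
      · exact h5) h'
  · exact Z1.concl hirr 5 (Or.inl rfl) h5 (fun i hi h3i h7i => by
      have : i = 3 := by obtain ⟨k, rfl⟩ := hi; omega
      subst this
      exact Submodule.subset_span (by simp)) h'

end

end Pool.Agent.L0h38.Q4
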