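import Pool.Agent.L0h38.Q4.A
import Pool.Agent.L0h38.Q4.ARCH
import Pool.Agent.L0h38.Q4.ASA
import Pool.Agent.L0h38.Q4.ASX
import Pool.Agent.L0h38.Q4.C1
import Pool.Agent.L0h38.Q4.CLI
import Pool.Agent.L0h38.Q4.DOM
import Pool.Agent.L0h38.Q4.E2
import Pool.Agent.L0h38.Q4.IX
import Pool.Agent.L0h38.Q4.LF
import Pool.Agent.L0h38.Q4.LOC
import Pool.Agent.L0h38.Q4.NUMA
import Pool.Agent.L0h38.Q4.NUMP
import Pool.Agent.L0h38.Q4.NVA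
import Pool.Agent.L0h38.Q4.NVB
import Pool.Agent.L0h38.Q4.NVC
import Pool.Agent.L0h38.Q4.NVD
import Pool.Agent.L0h38.Q4.OM1
import Pool.Agent.L0h38.Q4.OM2
import Pool.Agent.L0h38.Q4.P0
import Pool.Agent.L0h38.Q4.P2
import Pool.Agent.L0h38.Q4.PA
import Pool.Agent.L0h38.Q4.S0
import Pool.Agent.L0h38.Q4.S1
import Pool.Agent.L0h38.Q4.S2
import Pool.Agent.L0h38.Q4.WA
import Pool.Agent.L0h38.Q4.Z1
import Pool.Agent.L0h38.Q4.ZA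

/-!
# Everything except P1 and the two facts on `ζ(3), ζ(5), ζ(7)`
-/

namespace Pool.Agent.L0h38.Q4

theorem M0 (hP1 : S_P1) (h3 : Pool.Agent.Dim7.St_Z_main) (hirr : Irrational (Pool.Agent.H337R2.zr 3)) : S_Z :=
  Z_of (P_of hP1 (P2_of C1 IX) E2 P0 S2 S1 S0 NUMP) PL
    (A_of LF OM1 OM2 ARCH (DOMX_of CLI) (DOMY_of CLI) WA ASA ASX NUMA)
    (NV_of (NVB_of NVA C1) (NVC_of C1) LOC) (Z1_of h3 hirr)

end Pool.Agent.L0h38.Q4
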