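import Pool.Agent.L0h38.Q4.P1e

/-!
# P1: the primes between `n` and `2n`
-/

open Polynomial Pool.Agent.H337R2

namespace Pool.Agent.L0h38.Q4

noncomputable section

namespace P1_

set_option linter.unusedSectionVars false
set_option linter.unusedVariables false

lemma qxa (n q : ℕ) (α : ℕ → ℚ) (P : ℚ[X]) : (q : ℚ) * xa n α P = ∑ k ∈ sP n, tk n 1 q α P k := by
  unfold xa tk rho
  rw [Finset.sum_comm, Finset.mul_sum]
  apply Finset.sum_congr rfl
  intro i _
  rw [mul_sub, Finset.sum_mul, Finset.mul_sum, Finset.mul_sum, ← Finset.sum_sub_distrib]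
  apply Finset.sum_congr rfl
  intro k _
  ring

lemma qxb (n q : ℕ) (β : ℕ → ℚ) (P : ℚ[X]) : (q : ℚ) * xb n β P = ∑ k ∈ sP n, tk n 0 q β P k := by
  unfold xb tk rho
  rw [Finset.sum_comm, Finset.mul_sum]
  apply Finset.sum_congr rfl
  intro i _
  rw [Finset.sum_mul, Finset.mul_sum]
  apply Finset.sum_congr rfl
  intro k _
  ring

/-- decomposition of the sum over the poles -/
lemma decomp (f : ℕ → ℚ) {n p : ℕ} (h1 : n < p) (h2 : p < 2 * n) (hodd : p % 2 = 1) :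
    ∑ k ∈ sP n, f k = ∑ a ∈ Finset.Icc 1 ((2 * n - p - 1) / 2),
      ((f a + f (2 * n + 1 - a)) + (f (a + p) + f (2 * n + 1 - (a + p)))) +
      (f ((2 * n - p - 1) / 2 + 1) + f ((2 * n - p - 1) / 2 + 1 + p)) +
      ∑ k ∈ Finset.Icc (2 * n - p + 1) p, f k := by
  obtain ⟨N, hN⟩ : ∃ N, (2 * n - p - 1) / 2 = N := ⟨_, rfl⟩
  have hc : 2 * n - p = 2 * N + 1 := by omega
  have e1 : (sP n) = Finset.Ico 1 (2 * n + 1) := by
    ext x; simp only [Finset.mem_Icc, Finset.mem_Ico]; omega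
  have e2 : Finset.Icc 1 N = Finset.Ico 1 (N + 1) := by
    ext x; simp only [Finset.mem_Icc, Finset.mem_Ico]; omega
  have e3 : Finset.Icc (2 * n - p + 1) p = Finset.Ico (2 * N + 2) (p + 1) := by
    ext x; simp only [Finset.mem_Icc, Finset.mem_Ico]; omega
  rw [hN, e1, e2, e3]
  have s1 := Finset.sum_Ico_consecutive f (show 1 ≤ 2 * N + 2 by omega) (show 2 * N + 2 ≤ p + 1 by omega)
  have s2 := Finset.sum_Ico_consecutive f (show 1 ≤ p + 1 by omega) (show p + 1 ≤ 2 * n + 1 by omega)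
  have s3 : ∑ k ∈ Finset.Ico (p + 1) (2 * n + 1), f k = ∑ k ∈ Finset.Ico 1 (2 * N + 2), f (k + p) := by
    symm
    apply Finset.sum_bij (fun k _ => k + p)
    · intro k hk; rw [Finset.mem_Ico] at hk ⊢; omega
    · intro k1 _ k2 _ h; omega
    · intro k hk
      rw [Finset.mem_Ico] at hk
      exact ⟨k - p, by rw [Finset.mem_Ico]; omega, by omega⟩
    · intro k _; rfl
  have key : ∀ g : ℕ → ℚ, ∑ k ∈ Finset.Ico 1 (2 * N + 2), g k =
      ∑ k ∈ Finset.Ico 1 (N + 1), (g k + g (2 * N + 2 - k)) + g (N + 1) := by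
    intro g
    have t1 := Finset.sum_Ico_consecutive g (show 1 ≤ N + 1 by omega) (show N + 1 ≤ 2 * N + 2 by omega)
    have t2 : ∑ k ∈ Finset.Ico (N + 1) (2 * N + 2), g k = g (N + 1) + ∑ k ∈ Finset.Ico (N + 2) (2 * N + 2), g k :=
      Finset.sum_eq_sum_Ico_succ_bot (by omega) g
    have t3 : ∑ k ∈ Finset.Ico (N + 2) (2 * N + 2), g k = ∑ k ∈ Finset.Ico 1 (N + 1), g (2 * N + 2 - k) := by
      apply Finset.sum_bij (fun k _ => 2 * N + 2 - k)
      · intro k hk; rw [Finset.mem_Ico] at hk ⊢; omega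
      · intro k1 h1 k2 h2 h; rw [Finset.mem_Ico] at h1 h2; omega
      · intro k hk
        rw [Finset.mem_Ico] at hk
        exact ⟨2 * N + 2 - k, by rw [Finset.mem_Ico]; omega, by omega⟩
      · intro k hk
        rw [Finset.mem_Ico] at hk
        rw [show 2 * N + 2 - (2 * N + 2 - k) = k by omega]
    rw [← t1, t2, t3, Finset.sum_add_distrib]
    ring
  have k1 := key f
  have k2 := key (fun k => f (k + p))
  rw [← s2, ← s1, s3, k1, k2, Finset.sum_add_distrib, Finset.sum_add_distrib]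
  have r1 : ∑ a ∈ Finset.Ico 1 (N + 1), (f a + f (2 * n + 1 - a) + (f (a + p) + f (2 * n + 1 - (a + p)))) =
      ∑ a ∈ Finset.Ico 1 (N + 1), f a + ∑ a ∈ Finset.Ico 1 (N + 1), f (2 * N + 2 - a) +
      (∑ a ∈ Finset.Ico 1 (N + 1), f (a + p) + ∑ a ∈ Finset.Ico 1 (N + 1), f (2 * N + 2 - a + p)) := by
    rw [← Finset.sum_add_distrib, ← Finset.sum_add_distrib, ← Finset.sum_add_distrib]
    apply Finset.sum_congr rfl
    intro a ha
    rw [Finset.mem_Ico] at ha
    rw [show 2 * n + 1 - a = 2 * N + 2 - a + p by omega, show 2 * n + 1 - (a + p) = 2 * N + 2 - a by omega]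
    ring
  rw [r1]
  ring

variable {p : ℕ} [hp : Fact p.Prime]

lemma wt_norm {δ : ℚ} {q : ℕ} {u : ℕ → ℚ} (hδ : padicNorm p (δ * q) ≤ 1)
    (hu : ∀ i, padicNorm p ((q : ℚ) * u i) ≤ 1) (i k : ℕ) {B : ℚ} (hB : 1 ≤ B)
    (hh : padicNorm p (hs i (k - 1)) ≤ B) : padicNorm p ((q : ℚ) * u i - δ * q * hs i (k - 1)) ≤ B := by
  refine padicNorm.sub.trans (max_le ((hu i).trans hB) ?_)
  rw [padicNorm.mul]
  calc _ ≤ 1 * B := mul_le_mul hδ hh (padicNorm.nonneg _) zero_le_one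
    _ = B := one_mul _

/-- one-pole classes -/
lemma tk_single (hC1I : S_C1I) {n : ℕ} (hn : 1 ≤ n) (h1 : n < p) (h2 : p < 2 * n) {δ : ℚ} {q : ℕ} {u : ℕ → ℚ}
    (hδ : padicNorm p (δ * q) ≤ 1) (hu : ∀ i, padicNorm p ((q : ℚ) * u i) ≤ 1) {F : ℚ[X]} (hF : F ∈ IP p)
    {k : ℕ} (hk : k ∈ Finset.Icc (2 * n - p + 1) p) :
    padicNorm p (tk n δ q u (PP n * F) k) ≤ (p : ℚ)⁻¹ ^ 99 := by
  have hp0 := hp.out.pos
  rw [Finset.mem_Icc] at hk
  have hks : k ∈ sP n := Finset.mem_Icc.2 ⟨by omega, by omega⟩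
  have hno : ∀ k' ∈ sP n, k' ≠ k → ¬ (p : ℤ) ∣ (k' : ℤ) - k := by
    intro k' hk' hne hd
    rw [Finset.mem_Icc] at hk'
    have h3 : ((k' : ℤ) - k) = 0 := Int.eq_zero_of_abs_lt_dvd hd (abs_lt.2 ⟨by omega, by omega⟩)
    omega
  have hpp : 2 * n - 1 < p ^ 2 := by
    have h3 : 2 * p ≤ p * p := Nat.mul_le_mul_right p hp.out.two_le
    rw [pow_two]
    omega
  have hfac : padicNorm p (((2 * n - 1).factorial : ℕ) : ℚ) = (p : ℚ)⁻¹ := by
    rw [norm_factorial hpp]
    have h4 : (2 * n - 1) / p = 1 := by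
      rw [Nat.div_eq_iff (by omega)]
      omega
    rw [h4]
    simp
  unfold tk
  apply padicNorm.sum_le' _ (pow_nonneg (inv_nonneg.2 p_pos'.le) _)
  intro i _
  rw [padicNorm.mul]
  have h5 := hC1I (n := n) (p := p) hn F hks 1 zero_le_one (IP_PB hF k) i hno
  rw [hfac, mul_one] at h5
  have h6 := wt_norm hδ hu i k le_rfl (hs_norm_small i (k - 1) (by omega))
  calc _ ≤ (p : ℚ)⁻¹ ^ 99 * 1 := mul_le_mul h5 h6 (padicNorm.nonneg _) (pow_nonneg (inv_nonneg.2 p_pos'.le) _)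
    _ = _ := mul_one _

/-- the self-mirrored class -/
lemma tk_mid (hC1 : S_C1) {n : ℕ} (hn : 1 ≤ n) (h1 : n < p) (h2 : p < 2 * n) {δ : ℚ} {q : ℕ} {u : ℕ → ℚ}
    (hδ : padicNorm p (δ * q) ≤ 1) (hu : ∀ i, padicNorm p ((q : ℚ) * u i) ≤ 1) {F : ℚ[X]} (hF : F ∈ IP p)
    {k : ℕ} (hks : k ∈ sP n) (hd : (p : ℤ) ∣ 2 * (k : ℤ) - (2 * n + 1)) :
    padicNorm p (tk n δ q u (PP n * F) k) ≤ (p : ℚ)⁻¹ ^ 99 := by
  have hp0 := hp.out.pos
  have hp00 : (0 : ℚ) < p := p_pos'
  have hkk := Finset.mem_Icc.1 hks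
  have hpp : 2 * n < p ^ 2 := by
    have h3 : 2 * p ≤ p * p := Nat.mul_le_mul_right p hp.out.two_le
    rw [pow_two]
    omega
  have hNp : Np n p k ≤ 2 := by
    unfold Np
    have h3 : ((sP n).filter fun k' => k' % p = k % p) ⊆ {k % p, k % p + p} := by
      intro x hx
      rw [Finset.mem_filter, Finset.mem_Icc] at hx
      rw [Finset.mem_insert, Finset.mem_singleton]
      have h4 := Nat.div_add_mod x p
      have h5 : x / p < 2 := by
        rw [Nat.div_lt_iff_lt_mul hp0]; omega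
      rw [hx.2] at h4
      interval_cases h6 : x / p
      · left; omega
      · right; omega
    exact (Finset.card_le_card h3).trans Finset.card_le_two
  have heP : eP n p k ≤ 99 := by
    unfold eP
    have h4 : (2 * n - 1) / p = 1 := by
      rw [Nat.div_eq_iff (by omega)]
      omega
    rw [h4]
    push_cast
    have : (Np n p k : ℤ) ≤ 2 := by exact_mod_cast hNp
    omega
  unfold tk
  apply padicNorm.sum_le' _ (pow_nonneg (inv_nonneg.2 p_pos'.le) _)
  intro i hi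
  rw [Finset.mem_Icc] at hi
  rw [padicNorm.mul]
  have h5 := (hC1 (n := n) (p := p) hn hpp F hks 1 zero_le_one (PB_up zero_le_one (IP_PB hF k)) i).2 hd
  rw [mul_one] at h5
  have h6 := wt_norm hδ hu i k (one_le_pow₀ p_one') (hs_norm_med i (k - 1) (by omega))
  calc _ ≤ (p : ℚ) ^ (eP n p k - i - 401 : ℤ) * (p : ℚ) ^ i := mul_le_mul h5 h6 (padicNorm.nonneg _) (by positivity)
    _ ≤ (p : ℚ)⁻¹ ^ 99 := by
      rw [inv_pow, ← zpow_natCast, ← zpow_natCast, ← zpow_neg, ← zpow_add₀ hp00.ne']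
      apply zpow_le_zpow_right₀ p_one'
      push_cast
      omega

end P1_

open LV P2 P1_ in
theorem P1_of (hC1 : S_C1) (hC1I : S_C1I) (hIX : S_IX) : S_P1 := by
  intro n p hpF hn h1 h2 q α β γ hα hβ hγ m
  have hp0 : (p : ℚ) ≠ 0 := p_pos'.ne'
  have hp1 : (1 : ℚ) ≤ p := p_one'
  have hp00 : (0 : ℚ) < p := p_pos'
  have hodd : p % 2 = 1 := by
    rcases hpF.out.eq_two_or_odd with h | h
    · omega
    · exact h
  obtain ⟨N, hN⟩ : ∃ N, (2 * n - p - 1) / 2 = N := ⟨_, rfl⟩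
  obtain ⟨K, hK⟩ : ∃ K, K = Finset.Icc 1 N := ⟨_, rfl⟩
  let δs : Fin 3 → ℚ := ![1, 0, 0]
  let us : Fin 3 → ℕ → ℚ := ![α, β, γ]
  have hδs : ∀ b, padicNorm p (δs b * q) ≤ 1 := by
    intro b
    fin_cases b
    · show padicNorm p (1 * (q : ℚ)) ≤ 1
      rw [one_mul]; exact padicNorm.of_nat _
    · show padicNorm p (0 * (q : ℚ)) ≤ 1
      simp
    · show padicNorm p (0 * (q : ℚ)) ≤ 1
      simp
  have hus : ∀ b i, padicNorm p ((q : ℚ) * us b i) ≤ 1 := by
    intro b i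
    fin_cases b
    · exact int_u hα i
    · exact int_u hβ i
    · exact int_u hγ i
  have hLL : ∀ (b : Fin 3) (Q : ℚ[X]), (q : ℚ) * LL n α β γ b Q =
      ∑ k ∈ sP n, tk n (δs b) q (us b) (PP n * Q.comp (xP n)) k := by
    intro b Q
    fin_cases b
    · exact qxa n q α _
    · exact qxb n q β _
    · exact qxb n q γ _
  -- the data of the pairs of classes
  have hpm : ∀ a : ℕ, ∃ U : ℚ[X], ∃ E : ℕ → ℚ[X], U ∈ IP p ∧ (∀ j, E j ∈ IP p) ∧ (a ∈ K →
      ∀ (δ : ℚ) (q : ℕ) (u : ℕ → ℚ),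
      padicNorm p (δ * q) ≤ 1 → (∀ i, padicNorm p ((q : ℚ) * u i) ≤ 1) → ∀ F ∈ IP p,
      (PP n * F).comp (-X - C ((2 * n + 1 : ℕ) : ℚ)) = -(PP n * F) →
      padicNorm p ((tk n δ q u (PP n * F) a + tk n δ q u (PP n * F) (2 * n + 1 - a)) +
        (tk n δ q u (PP n * F) (a + p) + tk n δ q u (PP n * F) (2 * n + 1 - (a + p))) -
        (p : ℚ) ^ 99 * rs (a + p) a 100 (U * F * (sit a + sit (a + p)) * GG p a (a + p) δ q u E)) ≤
          (p : ℚ)⁻¹ ^ 99) := by
    intro a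
    by_cases ha : a ∈ K
    · have ha' := ha
      rw [hK, Finset.mem_Icc] at ha'
      obtain ⟨U, hU, E, hE, h⟩ := pair_main (p := p) (n := n) (a := a) (b := a + p)
        (Finset.mem_Icc.2 ⟨by omega, by omega⟩) (Finset.mem_Icc.2 ⟨by omega, by omega⟩) rfl h1
      exact ⟨U, E, hU, hE, fun _ => h⟩
    · exact ⟨0, fun _ => 0, zero_mem _, fun _ => zero_mem _, fun h => absurd h ha⟩
  choose U E hU hE hmain using hpm
  have hG : ∀ (a : ℕ) (b : Fin 3), GG p a (a + p) (δs b) q (us b) (E a) ∈ IP p :=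
    fun a b => GG_mem (hE a) (hδs b) (hus b)
  have hlev : ∀ a : ℕ, ∃ φ : (Fin 3 × Fin m → ℤ) →+ ((i : Fin 99) → ZMod (p ^ (99 - (i : ℕ)))), ∀ v, φ v = 0 →
      PB p (p : ℚ) ((p : ℚ)⁻¹ ^ 99) (TS (-((a + p : ℕ) : ℚ))
        (TT n m (fun b => GG p a (a + p) (δs b) q (us b) (E a)) v)) :=
    fun a => lev_hom n m (a + p) _ (hG a)
  choose φ hφ using hlev
  let f : (Fin 3 × Fin m → ℤ) →+ ((x : Ix K (fun _ => 99)) → ZMod (p ^ ((fun _ => 99) (x.1 : ℕ) - (x.2 : ℕ)))) :=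
    (lv p n K (fun _ => 99)).comp (ur m)
  let g : (Fin 3 × Fin m → ℤ) →+ ((κ : K) → ((i : Fin 99) → ZMod (p ^ (99 - (i : ℕ))))) :=
    AddMonoidHom.mk' (fun v κ => φ κ v) (by
      intro v w
      funext κ
      simp)
  have := fin_lv (p := p) K (fun _ => 99)
  have hfin1 : ∀ i : Fin 99, NeZero (p ^ (99 - (i : ℕ))) := fun i => ⟨pow_ne_zero _ hpF.out.ne_zero⟩
  have : Finite ((κ : K) → ((i : Fin 99) → ZMod (p ^ (99 - (i : ℕ))))) := inferInstance
  have hT1 : T1 99 = 4950 := by unfold T1; norm_num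
  have hKc : K.card = N := by rw [hK, Nat.card_Icc]; omega
  have hcardG : Nat.card ((x : Ix K (fun _ => 99)) → ZMod (p ^ ((fun _ => 99) (x.1 : ℕ) - (x.2 : ℕ)))) =
      p ^ (4950 * N) := by
    rw [card_lv K (fun _ => 99), Finset.sum_const, hKc, hT1, smul_eq_mul, mul_comm]
  have hcardH : Nat.card ((κ : K) → ((i : Fin 99) → ZMod (p ^ (99 - (i : ℕ))))) = p ^ (4950 * N) := by
    rw [Nat.card_pi]
    have h3 : ∀ κ : K, Nat.card ((i : Fin 99) → ZMod (p ^ (99 - (i : ℕ)))) = p ^ 4950 := by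
      intro _
      rw [Nat.card_pi]
      simp only [Nat.card_zmod]
      rw [Finset.prod_pow_eq_pow_sum, sum_T1, hT1]
    rw [Finset.prod_congr rfl (fun κ _ => h3 κ), Finset.prod_const, Finset.card_univ, Fintype.card_coe, hKc,
      ← pow_mul]
  let M' : Matrix (Fin 3 × Fin m) (Fin 3 × Fin m) ℚ := Matrix.of fun r cc => (q : ℚ) * M3 (LL n α β γ) m r cc
  have key : ∀ u v : Fin 3 × Fin m → ℤ, f u = 0 → g v = 0 →
      padicNorm p (∑ i, ∑ j, (u i : ℚ) * M' i j * (v j : ℚ)) ≤ (p : ℚ) ^ (-99 : ℤ) := by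
    intro u v hu hv
    have hU' : ∀ κ ∈ K, Lev p (x0 n κ) 99 (ur m u) := fun κ hκ => lv_ker n K (fun _ => 99) (ur m u) hu κ hκ
    have hV : ∀ κ ∈ K, φ κ v = 0 := fun κ hκ => congrFun hv ⟨κ, hκ⟩
    have hsum : ∑ i, ∑ j, (u i : ℚ) * M' i j * (v j : ℚ) = ∑ b : Fin 3, (q : ℚ) *
        LL n α β γ b ((ur m u * vc m b v).map (Int.castRingHom ℚ)) := by
      simp only [expd]
      have h1 : ∀ b : Fin 3, (q : ℚ) * ∑ r : Fin 3 × Fin m, ∑ j : Fin m,
          (u r : ℚ) * (v (b, j) : ℚ) * LL n α β γ b (X ^ (r.1.1 * m + r.2.1 + j.1)) =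
          ∑ r : Fin 3 × Fin m, ∑ j : Fin m, (u r : ℚ) * M' r (b, j) * (v (b, j) : ℚ) := by
        intro b
        rw [Finset.mul_sum]
        apply Finset.sum_congr rfl
        intro r _
        rw [Finset.mul_sum]
        apply Finset.sum_congr rfl
        intro j _
        change _ = (u r : ℚ) * ((q : ℚ) * LL n α β γ b (X ^ (r.1.1 * m + r.2.1 + j.1))) * (v (b, j) : ℚ)
        ring
      simp only [h1]
      calc ∑ i, ∑ j, (u i : ℚ) * M' i j * (v j : ℚ) = ∑ i, ∑ b : Fin 3, ∑ j : Fin m,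
            (u i : ℚ) * M' i (b, j) * (v (b, j) : ℚ) := by
            apply Finset.sum_congr rfl
            intro i _
            rw [Fintype.sum_prod_type]
        _ = _ := Finset.sum_comm
    have hz : (p : ℚ) ^ (-99 : ℤ) = (p : ℚ)⁻¹ ^ 99 := by
      rw [inv_pow, ← zpow_natCast, ← zpow_neg]; rfl
    have hinv : (0 : ℚ) ≤ (p : ℚ)⁻¹ ^ 99 := by positivity
    rw [hsum, hz]
    obtain ⟨Qx, hQx⟩ : ∃ Qx : ℚ[X], Qx = ((ur m u).map (Int.castRingHom ℚ)).comp (xP n) := ⟨_, rfl⟩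
    obtain ⟨Px, hPx⟩ : ∃ Px : Fin 3 → ℚ[X], ∀ b, Px b = ((vc m b v).map (Int.castRingHom ℚ)).comp (xP n) :=
      ⟨fun b => _, fun _ => rfl⟩
    have hF : ∀ b, ((ur m u * vc m b v).map (Int.castRingHom ℚ)).comp (xP n) = Qx * Px b := by
      intro b
      rw [Polynomial.map_mul, Polynomial.mul_comp, hQx, hPx]
    have hFI : ∀ b, Qx * Px b ∈ IP p := by
      intro b
      rw [← hF]
      exact comp_mem (map_mem _) (xP_mem n)
    have hsymm : ∀ b, (PP n * (Qx * Px b)).comp (-X - C ((2 * n + 1 : ℕ) : ℚ)) = -(PP n * (Qx * Px b)) := by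
      intro b
      rw [← hF]
      exact P_comp n _
    have hL : ∀ b, (q : ℚ) * LL n α β γ b ((ur m u * vc m b v).map (Int.castRingHom ℚ)) =
        ∑ k ∈ sP n, tk n (δs b) q (us b) (PP n * (Qx * Px b)) k := by
      intro b
      rw [hLL, hF]
    rw [Finset.sum_congr rfl (fun b _ => hL b), Finset.sum_comm]
    rw [decomp (fun k => ∑ b : Fin 3, tk n (δs b) q (us b) (PP n * (Qx * Px b)) k) h1 h2 hodd, hN, ← hK]
    refine (padicNorm.nonarchimedean).trans (max_le ((padicNorm.nonarchimedean).trans (max_le ?_ ?_)) ?_)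
    · -- pairs
      apply padicNorm.sum_le' _ hinv
      intro a ha
      have haK := ha
      rw [hK, Finset.mem_Icc] at haK
      have hm := hmain a ha
      have hre : (∑ b : Fin 3, tk n (δs b) q (us b) (PP n * (Qx * Px b)) a +
          ∑ b : Fin 3, tk n (δs b) q (us b) (PP n * (Qx * Px b)) (2 * n + 1 - a)) +
          (∑ b : Fin 3, tk n (δs b) q (us b) (PP n * (Qx * Px b)) (a + p) +
          ∑ b : Fin 3, tk n (δs b) q (us b) (PP n * (Qx * Px b)) (2 * n + 1 - (a + p))) =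
          ∑ b : Fin 3, ((tk n (δs b) q (us b) (PP n * (Qx * Px b)) a +
            tk n (δs b) q (us b) (PP n * (Qx * Px b)) (2 * n + 1 - a)) +
            (tk n (δs b) q (us b) (PP n * (Qx * Px b)) (a + p) +
            tk n (δs b) q (us b) (PP n * (Qx * Px b)) (2 * n + 1 - (a + p))) -
            (p : ℚ) ^ 99 * rs (a + p) a 100 (U a * (Qx * Px b) * (sit a + sit (a + p)) *
              GG p a (a + p) (δs b) q (us b) (E a))) +
          (p : ℚ) ^ 99 * rs (a + p) a 100 (U a * Qx * (sit a + sit (a + p)) *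
            TT n m (fun b => GG p a (a + p) (δs b) q (us b) (E a)) v) := by
        have hTT : U a * Qx * (sit a + sit (a + p)) * TT n m (fun b => GG p a (a + p) (δs b) q (us b) (E a)) v =
            ∑ b : Fin 3, U a * (Qx * Px b) * (sit a + sit (a + p)) *
              GG p a (a + p) (δs b) q (us b) (E a) := by
          unfold TT
          rw [Finset.mul_sum]
          apply Finset.sum_congr rfl
          intro b _
          rw [hPx]
          ring
        rw [hTT, rs_sum, Finset.mul_sum, ← Finset.sum_add_distrib, ← Finset.sum_add_distrib,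
          ← Finset.sum_add_distrib, ← Finset.sum_add_distrib]
        apply Finset.sum_congr rfl
        intro b _
        ring
      rw [hre]
      refine (padicNorm.nonarchimedean).trans (max_le ?_ ?_)
      · apply padicNorm.sum_le' _ hinv
        intro b _
        exact hm (δs b) q (us b) (hδs b) (hus b) (Qx * Px b) (hFI b) (hsymm b)
      · rw [padicNorm.mul, norm_p_pow]
        have hQl : PB p (p : ℚ) ((p : ℚ)⁻¹ ^ 99) (TS (-((a + p : ℕ) : ℚ)) Qx) := by
          rw [hQx]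
          exact PB_lev n a (a + p) 99 (Or.inl ⟨-1, by push_cast; ring⟩) (ur m u) (hU' a ha)
        have hTl := hφ a v (hV a ha)
        have hr := rs_level (p := p) (a := a) (b := a + p) rfl (hU a) hQl hTl
        calc _ ≤ (p : ℚ)⁻¹ ^ 99 * 1 := mul_le_mul_of_nonneg_left hr hinv
          _ = _ := mul_one _
    · -- the self-mirrored class
      refine (padicNorm.nonarchimedean).trans (max_le ?_ ?_)
      · apply padicNorm.sum_le' _ hinv
        intro b _
        apply tk_mid hC1 (by omega) h1 h2 (hδs b) (hus b) (hFI b)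
        · exact Finset.mem_Icc.2 ⟨by omega, by omega⟩
        · exact ⟨-1, by push_cast; omega⟩
      · apply padicNorm.sum_le' _ hinv
        intro b _
        apply tk_mid hC1 (by omega) h1 h2 (hδs b) (hus b) (hFI b)
        · exact Finset.mem_Icc.2 ⟨by omega, by omega⟩
        · exact ⟨1, by push_cast; omega⟩
    · -- one-pole classes
      apply padicNorm.sum_le' _ hinv
      intro k hk
      apply padicNorm.sum_le' _ hinv
      intro b _
      exact tk_single hC1I (by omega) h1 h2 (hδs b) (hus b) (hFI b) hk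
  have hmainIX := hIX p hpF M' f g (-99) _ _ hcardG hcardH key
  have hdet : M'.det = (q : ℚ) ^ (3 * m) * (M3 (LL n α β γ) m).det := by
    have h1 : M' = (q : ℚ) • M3 (LL n α β γ) m := by
      ext r cc
      rfl
    rw [h1, Matrix.det_smul, Fintype.card_prod, Fintype.card_fin, Fintype.card_fin]
  rw [← hdet]
  refine hmainIX.trans (le_of_eq ?_)
  congr 1
  rw [Fintype.card_prod, Fintype.card_fin, Fintype.card_fin, hN]
  push_cast
  ring

end

end Pool.Agent.L0h38.Q4
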