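import Pool.Agent.L0h38.Q4.Stm
import Pool.Agent.Dim7.Iface

/-!
# From the dimension to explicit linearly independent quadruples
-/

open Pool.Agent.H337R2

namespace Pool.Agent.L0h38.Q4

namespace ZB

lemma exists_not_mem {ι κ : Type} [Finite ι] [Finite κ] (f : ι → ℝ) (g : κ → ℝ)
    (h : Module.finrank ℚ (Submodule.span ℚ (Set.range g)) < Module.finrank ℚ (Submodule.span ℚ (Set.range f))) :
    ∃ i, f i ∉ Submodule.span ℚ (Set.range g) := by
  by_contra hcon
  push Not at hcon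
  have hle : Submodule.span ℚ (Set.range f) ≤ Submodule.span ℚ (Set.range g) := by
    rw [Submodule.span_le]
    rintro _ ⟨i, rfl⟩
    exact hcon i
  have : FiniteDimensional ℚ (Submodule.span ℚ (Set.range g)) := FiniteDimensional.span_of_finite ℚ (Set.finite_range g)
  exact absurd (Submodule.finrank_mono hle) (not_le.2 h)

lemma snoc2 (a b c : ℝ) : (Fin.snoc ![a, b] c : Fin 3 → ℝ) = ![a, b, c] := by
  ext k
  fin_cases k <;> rfl

lemma snoc3 (a b c d : ℝ) : (Fin.snoc ![a, b, c] d : Fin 4 → ℝ) = ![a, b, c, d] := by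
  ext k
  fin_cases k <;> rfl

end ZB

open ZB in
/-- `1, ζ(3)`, one of `ζ(5), ζ(7)` and some `ζ(j)`, `j ≤ 99` odd, are linearly independent -/
theorem Z_four_of (hZ : S_Z) (h7 : Pool.Agent.Dim7.St_Z_main) (hZ3 : Irrational (zr 3)) :
    ∃ i ∈ ({5, 7} : Set ℕ), ∃ j : ℕ, Odd j ∧ 5 ≤ j ∧ j ≤ 99 ∧
      LinearIndependent ℚ ![(1 : ℝ), zr 3, zr i, zr j] := by
  have h13 : LinearIndependent ℚ ![(1 : ℝ), zr 3] := by
    rw [LinearIndependent.pair_iff]
    intro s t h
    have h' : (s : ℝ) + (t : ℝ) * zr 3 = 0 := by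
      rw [Rat.smul_def, Rat.smul_def, mul_one] at h
      exact h
    by_cases ht : t = 0
    · refine ⟨?_, ht⟩
      rw [ht] at h'
      have h2 : (s : ℝ) = 0 := by simpa using h'
      exact_mod_cast h2
    · exfalso
      apply hZ3
      refine ⟨-s / t, ?_⟩
      have ht' : (t : ℝ) ≠ 0 := by exact_mod_cast ht
      push_cast
      rw [div_eq_iff ht']
      linarith
  have hs3 : Module.finrank ℚ (Submodule.span ℚ (Set.range ![(1 : ℝ), zr 3])) = 2 := by
    rw [finrank_span_eq_card h13, Fintype.card_fin]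
  have h7' : 3 ≤ Module.finrank ℚ (Submodule.span ℚ
      (Set.range fun i : Fin 4 => if i.1 = 0 then (1 : ℝ) else zr (2 * i.1 + 1))) := h7
  have hZ' : 4 ≤ Module.finrank ℚ (Submodule.span ℚ
      (Set.range fun i : Fin 50 => if i.1 = 0 then (1 : ℝ) else zr (2 * i.1 + 1))) := hZ
  obtain ⟨i, hi, h3⟩ : ∃ i ∈ ({5, 7} : Set ℕ), LinearIndependent ℚ ![(1 : ℝ), zr 3, zr i] := by
    obtain ⟨i, hi⟩ := exists_not_mem (fun i : Fin 4 => if i.1 = 0 then (1 : ℝ) else zr (2 * i.1 + 1))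
      ![(1 : ℝ), zr 3] (by rw [hs3]; omega)
    fin_cases i
    · exact absurd (Submodule.subset_span (Set.mem_range.2 ⟨0, rfl⟩)) hi
    · exact absurd (Submodule.subset_span (Set.mem_range.2 ⟨1, rfl⟩)) hi
    · refine ⟨5, by simp, ?_⟩
      rw [← snoc2]
      exact h13.finSnoc hi
    · refine ⟨7, by simp, ?_⟩
      rw [← snoc2]
      exact h13.finSnoc hi
  refine ⟨i, hi, ?_⟩
  have hs4 : Module.finrank ℚ (Submodule.span ℚ (Set.range ![(1 : ℝ), zr 3, zr i])) = 3 := by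
    rw [finrank_span_eq_card h3, Fintype.card_fin]
  obtain ⟨j, hj⟩ := exists_not_mem (fun i : Fin 50 => if i.1 = 0 then (1 : ℝ) else zr (2 * i.1 + 1))
      ![(1 : ℝ), zr 3, zr i] (by rw [hs4]; omega)
  have hj0 : j.1 ≠ 0 := by
    intro h0
    rw [if_pos h0] at hj
    exact hj (Submodule.subset_span ⟨0, rfl⟩)
  have hj1 : j.1 ≠ 1 := by
    intro h0
    rw [if_neg hj0, h0] at hj
    exact hj (Submodule.subset_span ⟨1, rfl⟩)
  rw [if_neg hj0] at hj
  refine ⟨2 * j.1 + 1, ⟨j.1, rfl⟩, by omega, by omega, ?_⟩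
  rw [← snoc3]
  exact h3.finSnoc hj

end Pool.Agent.L0h38.Q4
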