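import Pool.Agent.L0h38.Q4.M0
import Pool.Agent.L0h38.Q4.P1
import Pool.Agent.L0h38.Q4.ZB
import Pool.Agent.Dim7.Main

/-!
# Four linearly independent numbers among `1, ζ(3), ζ(5), …, ζ(99)`
-/

open Pool.Agent.H337R2

namespace Pool.Agent.L0h38.Q4

/-- dimension at least four -/
theorem Z_main : S_Z := M0 (P1_of C1 C1I IX) Pool.Agent.Dim7.Z_main Pool.Agent.Dim7.Z3_irr

/-- `1, ζ(3)`, one of `ζ(5), ζ(7)` and some `ζ(j)`, `j ≤ 99` odd, are linearly independent -/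
theorem Z_four : ∃ i ∈ ({5, 7} : Set ℕ), ∃ j : ℕ, Odd j ∧ 5 ≤ j ∧ j ≤ 99 ∧
    LinearIndependent ℚ ![(1 : ℝ), zr 3, zr i, zr j] :=
  Z_four_of Z_main Pool.Agent.Dim7.Z_main Pool.Agent.Dim7.Z3_irr

end Pool.Agent.L0h38.Q4
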