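import Pool.Agent.L0h38.Q4.Stm2
import Pool.Agent.H337R2.PAdic

/-!
# NVA: principal coefficients of the partial fractions in the class `r`, `n = 2p`
-/

open Polynomial Pool.Agent.H337R2

namespace Pool.Agent.L0h38.Q4

noncomputable section

namespace NVA_

set_option linter.unusedSectionVars false

variable {p : ℕ} [hp : Fact p.Prime]

lemma PBadd {ρ A : ℚ} {f g : PowerSeries ℚ} (hf : PB p ρ A f) (hg : PB p ρ A g) : PB p ρ A (f + g) := by
  intro j
  rw [map_add]
  exact (padicNorm.nonarchimedean).trans (max_le (hf j) (hg j))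

/-- congruence modulo `p` of integral power series -/
def CG (p : ℕ) (f g : PowerSeries ℚ) : Prop := PB p 1 1 f ∧ PB p 1 1 g ∧ PB p 1 (p : ℚ)⁻¹ (f - g)

lemma hp0 : (0 : ℚ) ≤ (p : ℚ)⁻¹ := by positivity

lemma hp1 : (p : ℚ)⁻¹ ≤ 1 := by
  have : (1 : ℚ) ≤ p := by exact_mod_cast hp.out.one_lt.le
  exact inv_le_one_of_one_le₀ this

lemma CG.mul {f g f' g' : PowerSeries ℚ} (h : CG p f g) (h' : CG p f' g') : CG p (f * f') (g * g') := by
  obtain ⟨h1, h2, h3⟩ := h
  obtain ⟨h1', h2', h3'⟩ := h'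
  refine ⟨?_, ?_, ?_⟩
  · simpa using PB.mul zero_le_one zero_le_one zero_le_one h1 h1'
  · simpa using PB.mul zero_le_one zero_le_one zero_le_one h2 h2'
  · have e1 : f * f' - g * g' = f * (f' - g') + (f - g) * g' := by ring
    rw [e1]
    apply PBadd
    · simpa using PB.mul zero_le_one zero_le_one hp0 h1 h3'
    · simpa using PB.mul zero_le_one hp0 zero_le_one h3 h2'

lemma CG.refl {f : PowerSeries ℚ} (h : PB p 1 1 f) : CG p f f := by
  refine ⟨h, h, ?_⟩
  intro j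
  rw [sub_self, map_zero, padicNorm.zero]
  have := hp0 (p := p)
  positivity

lemma CG.one : CG p 1 1 := CG.refl (PB.one zero_le_one)

lemma CG.pow {f g : PowerSeries ℚ} (h : CG p f g) (n : ℕ) : CG p (f ^ n) (g ^ n) := by
  induction n with
  | zero => simpa using CG.one
  | succ n ih => rw [pow_succ, pow_succ]; exact ih.mul h

lemma CG.prod {ι : Type*} (s : Finset ι) (f g : ι → PowerSeries ℚ) (h : ∀ i ∈ s, CG p (f i) (g i)) :
    CG p (∏ i ∈ s, f i) (∏ i ∈ s, g i) := by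
  classical
  induction s using Finset.induction_on with
  | empty => simpa using CG.one
  | insert a s ha ih =>
    rw [Finset.prod_insert ha, Finset.prod_insert ha]
    exact (h a (Finset.mem_insert_self _ _)).mul (ih fun i hi => h i (Finset.mem_insert_of_mem hi))

lemma norm_le_one_of {a b : ℚ} (hab : padicNorm p (a - b) ≤ (p : ℚ)⁻¹) (hb : padicNorm p b ≤ 1) :
    padicNorm p a ≤ 1 := by
  have e1 : a = (a - b) + b := by ring
  rw [e1]
  exact (padicNorm.nonarchimedean).trans (max_le (hab.trans hp1) hb)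

lemma CG.lin {u a b : ℚ} (hu : padicNorm p u ≤ (p : ℚ)⁻¹) (hab : padicNorm p (a - b) ≤ (p : ℚ)⁻¹)
    (hb : padicNorm p b ≤ 1) : CG p (PowerSeries.C u * PowerSeries.X + PowerSeries.C a) (PowerSeries.C b) := by
  refine ⟨?_, ?_, ?_⟩
  · apply PB.lin zero_le_one zero_le_one (norm_le_one_of hab hb)
    rw [mul_one]; exact hu.trans hp1
  · exact PB.C zero_le_one zero_le_one hb
  · rw [add_sub_assoc, ← map_sub]
    apply PB.lin zero_le_one hp0 hab
    rw [mul_one]; exact hu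

lemma norm_int_le_one (a : ℤ) : padicNorm p (a : ℚ) ≤ 1 := padicNorm.of_int a

lemma norm_p : padicNorm p (p : ℚ) = (p : ℚ)⁻¹ := padicNorm.padicNorm_p hp.out.one_lt

lemma norm_p_mul (a : ℤ) : padicNorm p ((p : ℚ) * a) ≤ (p : ℚ)⁻¹ := by
  rw [padicNorm.mul, norm_p]
  calc (p : ℚ)⁻¹ * padicNorm p (a : ℚ) ≤ (p : ℚ)⁻¹ * 1 :=
        mul_le_mul_of_nonneg_left (norm_int_le_one a) hp0
    _ = _ := mul_one _

/-- the inverse of a unit, rescaled -/
lemma CG.iv {a b : ℤ} (hab : (p : ℤ) ∣ a - b) (hb : ¬ (p : ℤ) ∣ b) :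
    CG p (PowerSeries.rescale (p : ℚ) (iv (a : ℚ))) (PowerSeries.C ((b : ℚ)⁻¹)) := by
  have ha : ¬ (p : ℤ) ∣ a := fun h => hb ((dvd_sub_right h).1 hab)
  have hna : padicNorm p (a : ℚ) = 1 := (padicNorm.int_eq_one_iff a).2 ha
  have hnb : padicNorm p (b : ℚ) = 1 := (padicNorm.int_eq_one_iff b).2 hb
  have ha0 : (a : ℚ) ≠ 0 := by
    intro h; rw [h] at hna; simp at hna
  have hb0 : (b : ℚ) ≠ 0 := by
    intro h; rw [h] at hnb; simp at hnb
  have hinv : ∀ x : ℚ, padicNorm p x = 1 → padicNorm p x⁻¹ = 1 := by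
    intro x hx
    have hx0 : x ≠ 0 := by
      intro h; rw [h] at hx; simp at hx
    have h1 : padicNorm p x⁻¹ * padicNorm p x = 1 := by
      rw [← padicNorm.mul, inv_mul_cancel₀ hx0]; simp
    rw [hx, mul_one] at h1
    exact h1
  have hpow : ∀ (x : ℚ) (m : ℕ), padicNorm p (x ^ m) = padicNorm p x ^ m := by
    intro x m
    induction m with
    | zero => simp
    | succ m ih => rw [pow_succ, pow_succ, padicNorm.mul, ih]
  -- coefficients
  have hco : ∀ l, PowerSeries.coeff l (PowerSeries.rescale (p : ℚ) (Pool.Agent.H337R2.iv (a : ℚ))) =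
      (p : ℚ) ^ l * ((-1) ^ l * (a : ℚ)⁻¹ ^ (l + 1)) := by
    intro l
    rw [PowerSeries.coeff_rescale]
    simp only [Pool.Agent.H337R2.iv, PowerSeries.coeff_mk]
    rw [inv_pow, div_eq_mul_inv]
  have hun : ∀ l, padicNorm p ((-1) ^ l * (a : ℚ)⁻¹ ^ (l + 1)) = 1 := by
    intro l
    rw [padicNorm.mul, hpow, hpow, hinv _ hna]
    simp
  have hpl : ∀ l : ℕ, padicNorm p ((p : ℚ) ^ (l + 1)) ≤ (p : ℚ)⁻¹ := by
    intro l
    rw [hpow, norm_p, pow_succ]
    calc (p : ℚ)⁻¹ ^ l * (p : ℚ)⁻¹ ≤ 1 * (p : ℚ)⁻¹ :=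
          mul_le_mul_of_nonneg_right (pow_le_one₀ hp0 hp1) hp0
      _ = _ := one_mul _
  refine ⟨?_, ?_, ?_⟩
  · intro l
    rw [hco, padicNorm.mul, hun, mul_one, hpow, norm_p, one_pow, mul_one]
    exact pow_le_one₀ hp0 hp1
  · exact PB.C zero_le_one zero_le_one (hinv _ hnb).le
  · intro l
    rw [map_sub, hco, one_pow, mul_one]
    cases l with
    | zero =>
      rw [PowerSeries.coeff_C, if_pos rfl]
      simp only [pow_zero, one_mul, zero_add, pow_one]
      have e1 : (a : ℚ)⁻¹ - (b : ℚ)⁻¹ = ((b - a : ℤ) : ℚ) * ((a : ℚ)⁻¹ * (b : ℚ)⁻¹) := by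
        push_cast
        field_simp
      rw [e1, padicNorm.mul, padicNorm.mul, hinv _ hna, hinv _ hnb]
      obtain ⟨c, hc⟩ := hab
      have e2 : ((b - a : ℤ) : ℚ) = (p : ℚ) * ((-c : ℤ) : ℚ) := by
        have : b - a = p * (-c) := by linarith
        rw [this]; push_cast; ring
      rw [e2, mul_one, mul_one]
      exact norm_p_mul _
    | succ l =>
      rw [PowerSeries.coeff_C, if_neg (by omega), sub_zero, padicNorm.mul, hun, mul_one]
      exact hpl l

lemma rescale_lin (c a : ℚ) : PowerSeries.rescale c (PowerSeries.X + PowerSeries.C a) =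
    PowerSeries.C c * PowerSeries.X + PowerSeries.C a := by
  rw [map_add, PowerSeries.rescale_X, rescale_C']

lemma rescale_iv {c a : ℚ} (hc : c ≠ 0) : PowerSeries.rescale c (iv (a * c)) =
    PowerSeries.C c⁻¹ * iv a := by
  ext l
  rw [PowerSeries.coeff_rescale, PowerSeries.coeff_C_mul]
  simp only [iv, PowerSeries.coeff_mk]
  rw [mul_pow]
  have h2 : c ^ l * ((-1) ^ l / (a ^ (l + 1) * c ^ (l + 1))) = (c ^ l / c ^ (l + 1)) * ((-1) ^ l / a ^ (l + 1)) := by
    rw [div_mul_div_comm, mul_div_assoc', mul_comm (c ^ (l + 1))]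
  rw [h2, pow_succ]
  congr 1
  field_simp

lemma XN_comp (n r : ℕ) : (XN n r).comp (xP n) =
    (X + C (r : ℚ)) * (X + C (2 * (n : ℚ) + 1 - r)) := by
  unfold XN xP
  simp only [Polynomial.sub_comp, Polynomial.X_comp, Polynomial.C_comp]
  have h1 : (C (((n : ℚ) - r) * ((n : ℚ) + 1 - r)) : ℚ[X]) = (C (n : ℚ) - C (r : ℚ)) * (C (n : ℚ) + 1 - C (r : ℚ)) := by
    simp
  have h2 : (C (2 * (n : ℚ) + 1 - r) : ℚ[X]) = 2 * C (n : ℚ) + 1 - C (r : ℚ) := by
    simp only [map_sub, map_add, map_mul, map_one, map_ofNat]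
  have h3 : (C ((n + 1 : ℕ) : ℚ) : ℚ[X]) = C (n : ℚ) + 1 := by
    simp
  rw [h1, h2, h3]
  ring

lemma norm_pow (x : ℚ) (m : ℕ) : padicNorm p (x ^ m) = padicNorm p x ^ m := by
  induction m with
  | zero => simp
  | succ m ih => rw [pow_succ, pow_succ, padicNorm.mul, ih]

lemma norm_one_pow {x : ℚ} (hx : padicNorm p x = 1) (m : ℕ) : padicNorm p (x ^ m) = 1 := by
  rw [norm_pow, hx, one_pow]

lemma norm_one_mul {x y : ℚ} (hx : padicNorm p x = 1) (hy : padicNorm p y = 1) : padicNorm p (x * y) = 1 := by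
  rw [padicNorm.mul, hx, hy, one_mul]

lemma norm_one_inv {x : ℚ} (hx : padicNorm p x = 1) : padicNorm p x⁻¹ = 1 := by
  have hx0 : x ≠ 0 := by
    intro h; rw [h] at hx; simp at hx
  have h1 : padicNorm p x⁻¹ * padicNorm p x = 1 := by
    rw [← padicNorm.mul, inv_mul_cancel₀ hx0]; simp
  rw [hx, mul_one] at h1
  exact h1

lemma norm_one_prod {ι : Type*} (s : Finset ι) (f : ι → ℚ) (h : ∀ i ∈ s, padicNorm p (f i) = 1) :
    padicNorm p (∏ i ∈ s, f i) = 1 := by
  classical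
  induction s using Finset.induction_on with
  | empty => simp
  | insert a s ha ih =>
    rw [Finset.prod_insert ha]
    exact norm_one_mul (h a (Finset.mem_insert_self _ _)) (ih fun i hi => h i (Finset.mem_insert_of_mem hi))

lemma norm_one_int {a : ℤ} (h : ¬ (p : ℤ) ∣ a) : padicNorm p (a : ℚ) = 1 := (padicNorm.int_eq_one_iff a).2 h

/-- `(4p-1)!/p^3` is a unit -/
lemma norm_fac (h5 : 5 ≤ p) : padicNorm p ((((2 * (2 * p) - 1).factorial : ℕ) : ℚ) / (p : ℚ) ^ 3) = 1 := by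
  have h1 : padicValNat p (2 * (2 * p) - 1).factorial = 3 := by
    rw [padicValNat_factorial (b := 2)]
    · have : Finset.Ico 1 2 = {1} := rfl
      rw [this, Finset.sum_singleton, pow_one]
      rw [Nat.div_eq_iff (by omega)]
      omega
    · apply Nat.log_lt_of_lt_pow
      · omega
      · have h3 : 5 * p ≤ p * p := Nat.mul_le_mul_right p h5
        rw [pow_two]
        omega
  have h2 : ((((2 * (2 * p) - 1).factorial : ℕ) : ℚ)) ≠ 0 := by
    exact_mod_cast (Nat.factorial_pos _).ne'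
  have hp0 : (p : ℚ) ≠ 0 := by exact_mod_cast hp.out.ne_zero
  rw [padicNorm.div, padicNorm.eq_zpow_of_nonzero h2, padicValRat.of_nat, h1, norm_pow, norm_p]
  have : (p : ℚ) ^ (-((3 : ℕ) : ℤ)) = (p : ℚ)⁻¹ ^ 3 := by
    rw [zpow_neg, zpow_natCast, inv_pow]
  rw [this]
  exact div_self (by positivity)

/-- the unit of the class `r` -/
def ww (p r : ℕ) : ℚ :=
  ((((2 * (2 * p) - 1).factorial : ℕ) : ℚ) / (p : ℚ) ^ 3) ^ 99 * (1 - 2 * (r : ℚ)) ^ 401 *
    (∏ s ∈ (Finset.Icc 1 ((p - 1) / 2)).erase r, ((((s : ℚ) - r) * (1 - r - s)) ^ 264)) *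
    (∏ m ∈ (Finset.Icc 1 (2 * (2 * p))).filter (fun m => ¬ m % p = r), (((m : ℚ) - r)⁻¹ ^ 99))

lemma ndvd_of_lt {a : ℤ} (h1 : a ≠ 0) (h2 : -(p : ℤ) < a) (h3 : a < p) : ¬ (p : ℤ) ∣ a := by
  intro h
  apply h1
  exact Int.eq_zero_of_abs_lt_dvd h (abs_lt.2 ⟨h2, h3⟩)

lemma norm_ww (h5 : 5 ≤ p) {r : ℕ} (hr1 : 1 ≤ r) (hr2 : 2 * r < p) : padicNorm p (ww p r) = 1 := by
  unfold ww
  apply norm_one_mul
  · apply norm_one_mul
    · apply norm_one_mul
      · exact norm_one_pow (norm_fac h5) _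
      · apply norm_one_pow
        have := norm_one_int (p := p) (a := 1 - 2 * (r : ℤ)) (ndvd_of_lt (by omega) (by omega) (by omega))
        push_cast at this
        exact this
    · apply norm_one_prod
      intro s hs
      rw [Finset.mem_erase, Finset.mem_Icc] at hs
      apply norm_one_pow
      have h2s : 2 * s ≤ p - 1 := by omega
      apply norm_one_mul
      · have := norm_one_int (p := p) (a := (s : ℤ) - r) (ndvd_of_lt (by omega) (by omega) (by omega))
        push_cast at this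
        exact this
      · have := norm_one_int (p := p) (a := 1 - (r : ℤ) - s) (ndvd_of_lt (by omega) (by omega) (by omega))
        push_cast at this
        exact this
  · apply norm_one_prod
    intro m hm
    rw [Finset.mem_filter] at hm
    apply norm_one_pow
    apply norm_one_inv
    have := norm_one_int (p := p) (a := (m : ℤ) - r) (by
      intro h
      apply hm.2
      have h1 : (m : ℤ) % p = (r : ℤ) % p :=
        Int.emod_eq_emod_iff_emod_sub_eq_zero.2 (Int.emod_eq_zero_of_dvd h)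
      have h2 : m % p = r % p := by exact_mod_cast h1
      rw [h2, Nat.mod_eq_of_lt (by omega)])
    push_cast at this
    exact this

/-- rescaled Taylor expansion -/
def ph (p : ℕ) (k : ℚ) : ℚ[X] →+* PowerSeries ℚ := (PowerSeries.rescale (p : ℚ)).comp (TS (-k))

lemma ph_C (k a : ℚ) : ph p k (C a) = PowerSeries.C a := by
  simp only [ph, RingHom.comp_apply, TS_C, rescale_C']

lemma ph_lin (k a : ℚ) : ph p k (X + C a) = PowerSeries.C (p : ℚ) * PowerSeries.X + PowerSeries.C (a - k) := by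
  simp only [ph, RingHom.comp_apply, TS_lin, rescale_lin]
  rw [neg_add_eq_sub]

lemma ph_lin2 (k a : ℚ) : ph p k (2 * X + C a) =
    PowerSeries.C (2 * (p : ℚ)) * PowerSeries.X + PowerSeries.C (a - 2 * k) := by
  have h1 : (2 * X + C a : ℚ[X]) = C 2 * (X + C (a / 2)) := by
    rw [mul_add, ← map_mul, mul_div_cancel₀ a two_ne_zero, map_ofNat]
  rw [h1, map_mul, ph_C, ph_lin, mul_add, ← mul_assoc, ← map_mul, ← map_mul]
  congr 2
  ring

lemma ph_XN (k : ℚ) (s : ℕ) : ph p k ((XN (2 * p) s).comp (xP (2 * p))) =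
    (PowerSeries.C (p : ℚ) * PowerSeries.X + PowerSeries.C ((s : ℚ) - k)) *
      (PowerSeries.C (p : ℚ) * PowerSeries.X + PowerSeries.C (2 * ((2 * p : ℕ) : ℚ) + 1 - s - k)) := by
  rw [XN_comp, map_mul, ph_lin, ph_lin]

lemma ph_poly (k : ℚ) (r e : ℕ) :
    ph p k (PP (2 * p) * (XN (2 * p) r ^ e * OT p r 264).comp (xP (2 * p))) =
    (PowerSeries.C ((((2 * (2 * p) - 1).factorial : ℕ) : ℚ) ^ 99) *
      (PowerSeries.C (2 * (p : ℚ)) * PowerSeries.X + PowerSeries.C (((2 * (2 * p) + 1 : ℕ) : ℚ) - 2 * k)) ^ 401) *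
    (ph p k ((XN (2 * p) r).comp (xP (2 * p))) ^ e *
      ∏ s ∈ (Finset.Icc 1 ((p - 1) / 2)).erase r, ph p k ((XN (2 * p) s).comp (xP (2 * p))) ^ 264) := by
  unfold PP OT
  rw [Polynomial.mul_comp, Polynomial.pow_comp, Polynomial.prod_comp, map_mul (ph p k), map_mul (ph p k),
    map_mul (ph p k), map_pow (ph p k), map_pow (ph p k), map_prod (ph p k), ph_C, ph_lin2]
  congr 2
  apply Finset.prod_congr rfl
  intro s _
  rw [Polynomial.pow_comp, map_pow (ph p k)]

/-- the poles in the class of `r` -/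
lemma split_class (f : ℕ → PowerSeries ℚ) {r j : ℕ} (hr1 : 1 ≤ r) (hr2 : 2 * r < p) (hj : j ≤ 3) :
    ∏ m ∈ (sP (2 * p)).erase (r + j * p), f m =
      (∏ b ∈ (Finset.range 4).erase j, f (r + b * p)) *
      ∏ m ∈ (Finset.Icc 1 (2 * (2 * p))).filter (fun m => ¬ m % p = r), f m := by
  have hp0 : 0 < p := hp.out.pos
  rw [← Finset.prod_filter_mul_prod_filter_not ((sP (2 * p)).erase (r + j * p)) (fun m => m % p = r)]
  congr 1
  · symm
    apply Finset.prod_bij (fun b _ => r + b * p)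
    · intro b hb
      rw [Finset.mem_erase, Finset.mem_range] at hb
      rw [Finset.mem_filter, Finset.mem_erase]
      refine ⟨⟨?_, ?_⟩, ?_⟩
      · intro h
        apply hb.1
        have : b * p = j * p := by omega
        exact Nat.eq_of_mul_eq_mul_right hp0 this
      · show r + b * p ∈ Finset.Icc 1 (2 * (2 * p))
        rw [Finset.mem_Icc]
        have : b * p ≤ 3 * p := Nat.mul_le_mul_right p (by omega)
        omega
      · rw [Nat.add_mul_mod_self_right, Nat.mod_eq_of_lt (by omega)]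
    · intro b1 _ b2 _ h
      have h' : r + b1 * p = r + b2 * p := h
      have : b1 * p = b2 * p := by omega
      exact Nat.eq_of_mul_eq_mul_right hp0 this
    · intro m hm
      rw [Finset.mem_filter, Finset.mem_erase] at hm
      obtain ⟨⟨hm1, hm2⟩, hm3⟩ := hm
      have hm2' : m ∈ Finset.Icc 1 (2 * (2 * p)) := hm2
      rw [Finset.mem_Icc] at hm2'
      have hdm := Nat.div_add_mod m p
      rw [hm3] at hdm
      refine ⟨m / p, ?_, ?_⟩
      · rw [Finset.mem_erase, Finset.mem_range]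
        constructor
        · intro h
          apply hm1
          rw [← hdm, h]
          ring
        · rw [Nat.div_lt_iff_lt_mul hp0]
          by_contra hcon
          push Not at hcon
          have h4 : 4 ≤ m / p := (Nat.le_div_iff_mul_le hp0).2 hcon
          have h5 : p * 4 ≤ p * (m / p) := Nat.mul_le_mul_left p h4
          omega
      · show r + m / p * p = m
        rw [Nat.mul_comm (m / p) p]
        omega
    · intro b _
      rfl
  · apply Finset.prod_congr _ (fun _ _ => rfl)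
    ext m
    rw [Finset.mem_filter, Finset.mem_filter, Finset.mem_erase]
    constructor
    · rintro ⟨⟨_, h2⟩, h3⟩
      exact ⟨h2, h3⟩
    · rintro ⟨h2, h3⟩
      refine ⟨⟨?_, h2⟩, h3⟩
      intro h
      apply h3
      rw [h, Nat.add_mul_mod_self_right, Nat.mod_eq_of_lt (by omega)]

/-- the part of the rescaled series without the power of `p` -/
def FF (p r e j : ℕ) : PowerSeries ℚ :=
  (PowerSeries.C (((((2 * (2 * p) - 1).factorial : ℕ) : ℚ) / (p : ℚ) ^ 3) ^ 99) *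
      (PowerSeries.C (2 * (p : ℚ)) * PowerSeries.X +
        PowerSeries.C (((2 * (2 * p) + 1 : ℕ) : ℚ) - 2 * ((r + j * p : ℕ) : ℚ))) ^ 401) *
    (((PowerSeries.X + PowerSeries.C (-(j : ℚ))) * (PowerSeries.C (p : ℚ) * PowerSeries.X +
        PowerSeries.C (2 * ((2 * p : ℕ) : ℚ) + 1 - r - ((r + j * p : ℕ) : ℚ)))) ^ e *
      ∏ s ∈ (Finset.Icc 1 ((p - 1) / 2)).erase r,
        ((PowerSeries.C (p : ℚ) * PowerSeries.X + PowerSeries.C ((s : ℚ) - ((r + j * p : ℕ) : ℚ))) *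
          (PowerSeries.C (p : ℚ) * PowerSeries.X +
            PowerSeries.C (2 * ((2 * p : ℕ) : ℚ) + 1 - s - ((r + j * p : ℕ) : ℚ)))) ^ 264) *
    ((∏ b ∈ (Finset.range 4).erase j, iv ((b : ℚ) - j) ^ 99) *
      ∏ m ∈ (Finset.Icc 1 (2 * (2 * p))).filter (fun m => ¬ m % p = r),
        PowerSeries.rescale (p : ℚ) (iv (((m : ℤ) - ((r + j * p : ℕ) : ℤ) : ℤ) : ℚ)) ^ 99)

lemma pole_factor (r j b : ℕ) : PowerSeries.rescale (p : ℚ) (iv (-((r + j * p : ℕ) : ℚ) + ((r + b * p : ℕ) : ℚ))) =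
    PowerSeries.C (p : ℚ)⁻¹ * iv ((b : ℚ) - j) := by
  have h1 : (-((r + j * p : ℕ) : ℚ) + ((r + b * p : ℕ) : ℚ)) = ((b : ℚ) - j) * p := by
    push_cast; ring
  rw [h1, rescale_iv (by exact_mod_cast hp.out.ne_zero)]

lemma rescale_VV {r j : ℕ} (hr1 : 1 ≤ r) (hr2 : 2 * r < p) (hj : j ≤ 3) :
    PowerSeries.rescale (p : ℚ) (VV ((sP (2 * p)).erase (r + j * p)) mP (-((r + j * p : ℕ) : ℚ))) =
    PowerSeries.C ((p : ℚ)⁻¹ ^ 297) * ((∏ b ∈ (Finset.range 4).erase j, iv ((b : ℚ) - j) ^ 99) *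
      ∏ m ∈ (Finset.Icc 1 (2 * (2 * p))).filter (fun m => ¬ m % p = r),
        PowerSeries.rescale (p : ℚ) (iv (((m : ℤ) - ((r + j * p : ℕ) : ℤ) : ℤ) : ℚ)) ^ 99) := by
  unfold VV
  rw [map_prod, split_class _ hr1 hr2 hj, ← mul_assoc (PowerSeries.C ((p : ℚ)⁻¹ ^ 297))]
  congr 1
  · have h1 : ∀ b ∈ (Finset.range 4).erase j,
        PowerSeries.rescale (p : ℚ) (iv (-((r + j * p : ℕ) : ℚ) + ((r + b * p : ℕ) : ℚ)) ^ mP (r + b * p)) =
        PowerSeries.C ((p : ℚ)⁻¹ ^ 99) * iv ((b : ℚ) - j) ^ 99 := by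
      intro b _
      rw [map_pow, pole_factor, mul_pow, ← map_pow]
    rw [Finset.prod_congr rfl h1, Finset.prod_mul_distrib]
    congr 1
    rw [Finset.prod_const, ← map_pow, ← pow_mul]
    have h2 : ((Finset.range 4).erase j).card = 3 := by
      rw [Finset.card_erase_of_mem (Finset.mem_range.2 (by omega)), Finset.card_range]
    rw [h2]
  · apply Finset.prod_congr rfl
    intro m _
    rw [map_pow]
    congr 3
    push_cast
    ring

lemma main_eq {r e j : ℕ} (hr1 : 1 ≤ r) (hr2 : 2 * r < p) (hj : j ≤ 3) :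
    PowerSeries.rescale (p : ℚ)
      (TS (-((r + j * p : ℕ) : ℚ)) (PP (2 * p) * (XN (2 * p) r ^ e * OT p r 264).comp (xP (2 * p))) *
        VV ((sP (2 * p)).erase (r + j * p)) mP (-((r + j * p : ℕ) : ℚ))) =
    PowerSeries.C ((p : ℚ) ^ e) * FF p r e j := by
  have hp0 : (p : ℚ) ≠ 0 := by exact_mod_cast hp.out.ne_zero
  have h1 : PowerSeries.rescale (p : ℚ)
      (TS (-((r + j * p : ℕ) : ℚ)) (PP (2 * p) * (XN (2 * p) r ^ e * OT p r 264).comp (xP (2 * p)))) =
      ph p ((r + j * p : ℕ) : ℚ) (PP (2 * p) * (XN (2 * p) r ^ e * OT p r 264).comp (xP (2 * p))) := rfl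
  have h2 : (PowerSeries.C (p : ℚ) * PowerSeries.X + PowerSeries.C ((r : ℚ) - ((r + j * p : ℕ) : ℚ))) =
      PowerSeries.C (p : ℚ) * (PowerSeries.X + PowerSeries.C (-(j : ℚ))) := by
    rw [mul_add, ← map_mul]
    congr 2
    push_cast
    ring
  have h3 : ((((2 * (2 * p) - 1).factorial : ℕ) : ℚ) ^ 99) =
      (p : ℚ) ^ 297 * ((((2 * (2 * p) - 1).factorial : ℕ) : ℚ) / (p : ℚ) ^ 3) ^ 99 := by
    rw [div_pow, ← pow_mul]
    field_simp
  rw [map_mul, rescale_VV hr1 hr2 hj, h1, ph_poly, ph_XN, h2, h3]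
  have h4 : ∀ s ∈ (Finset.Icc 1 ((p - 1) / 2)).erase r,
      ph p ((r + j * p : ℕ) : ℚ) ((XN (2 * p) s).comp (xP (2 * p))) ^ 264 =
      ((PowerSeries.C (p : ℚ) * PowerSeries.X + PowerSeries.C ((s : ℚ) - ((r + j * p : ℕ) : ℚ))) *
          (PowerSeries.C (p : ℚ) * PowerSeries.X +
            PowerSeries.C (2 * ((2 * p : ℕ) : ℚ) + 1 - s - ((r + j * p : ℕ) : ℚ)))) ^ 264 := by
    intro s _
    rw [ph_XN]
  rw [Finset.prod_congr rfl h4]
  unfold FF
  have h5 : PowerSeries.C ((p : ℚ) ^ 297) * PowerSeries.C ((p : ℚ)⁻¹ ^ 297) = (1 : PowerSeries ℚ) := by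
    rw [← map_mul, ← mul_pow, mul_inv_cancel₀ hp0, one_pow, map_one]
  generalize (∏ s ∈ (Finset.Icc 1 ((p - 1) / 2)).erase r,
      ((PowerSeries.C (p : ℚ) * PowerSeries.X + PowerSeries.C ((s : ℚ) - ((r + j * p : ℕ) : ℚ))) *
          (PowerSeries.C (p : ℚ) * PowerSeries.X +
            PowerSeries.C (2 * ((2 * p : ℕ) : ℚ) + 1 - s - ((r + j * p : ℕ) : ℚ)))) ^ 264) = Y1
  generalize ((∏ b ∈ (Finset.range 4).erase j, iv ((b : ℚ) - j) ^ 99) *
      ∏ m ∈ (Finset.Icc 1 (2 * (2 * p))).filter (fun m => ¬ m % p = r),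
        PowerSeries.rescale (p : ℚ) (iv (((m : ℤ) - ((r + j * p : ℕ) : ℤ) : ℤ) : ℚ)) ^ 99) = Y2
  generalize (PowerSeries.C (2 * (p : ℚ)) * PowerSeries.X +
        PowerSeries.C (((2 * (2 * p) + 1 : ℕ) : ℚ) - 2 * ((r + j * p : ℕ) : ℚ))) ^ 401 = Y3
  generalize ((((2 * (2 * p) - 1).factorial : ℕ) : ℚ) / (p : ℚ) ^ 3) ^ 99 = y4
  generalize (PowerSeries.C (p : ℚ) * PowerSeries.X +
        PowerSeries.C (2 * ((2 * p : ℕ) : ℚ) + 1 - r - ((r + j * p : ℕ) : ℚ))) = Y5
  generalize (PowerSeries.X + PowerSeries.C (-(j : ℚ)) : PowerSeries ℚ) = Y6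
  rw [map_mul, mul_pow, mul_pow, mul_pow, ← map_pow]
  generalize (PowerSeries.C ((p : ℚ) ^ 297) : PowerSeries ℚ) = Z1 at *
  generalize (PowerSeries.C ((p : ℚ)⁻¹ ^ 297) : PowerSeries ℚ) = Z2 at *
  generalize (PowerSeries.C ((p : ℚ) ^ e) : PowerSeries ℚ) = Z3 at *
  generalize (PowerSeries.C y4 : PowerSeries ℚ) = Z4 at *
  calc _ = (Z1 * Z2) * (Z3 * (Z4 * Y3 * (Y6 ^ e * Y5 ^ e * Y1) * Y2)) := by ring
    _ = _ := by rw [h5, one_mul]

lemma norm_le_sub {a b : ℤ} (h : (p : ℤ) ∣ a - b) : padicNorm p ((a : ℚ) - b) ≤ (p : ℚ)⁻¹ := by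
  obtain ⟨c, hc⟩ := h
  have : ((a : ℚ) - b) = (p : ℚ) * (c : ℚ) := by
    have h2 : (((a - b : ℤ)) : ℚ) = ((p * c : ℤ) : ℚ) := by rw [hc]
    push_cast at h2
    exact h2
  rw [this]
  exact norm_p_mul c

lemma CG.linp {a b : ℤ} (h : (p : ℤ) ∣ a - b) :
    CG p (PowerSeries.C (p : ℚ) * PowerSeries.X + PowerSeries.C (a : ℚ)) (PowerSeries.C (b : ℚ)) :=
  CG.lin norm_p.le (norm_le_sub h) (norm_int_le_one b)

lemma PB_iv {b j : ℕ} (hb : b < 4) (hj : j ≤ 3) (hbj : b ≠ j) (h5 : 5 ≤ p) :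
    PB p 1 1 (iv ((b : ℚ) - j)) := by
  have h1 := norm_one_int (p := p) (a := (b : ℤ) - j) (ndvd_of_lt (by omega) (by omega) (by omega))
  push_cast at h1
  apply PB.iv
  · intro h
    rw [h] at h1
    simp at h1
  · rw [h1]; simp
  · rw [h1]; simp

/-- the congruence -/
lemma FF_congr (h5 : 5 ≤ p) {r e j : ℕ} (hr1 : 1 ≤ r) (hr2 : 2 * r < p) (hj : j ≤ 3) :
    CG p (FF p r e j) (PowerSeries.C (ww p r * (1 - 2 * (r : ℚ)) ^ e) * ser j e) := by
  have hG : PowerSeries.C (ww p r * (1 - 2 * (r : ℚ)) ^ e) * ser j e =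
      (PowerSeries.C (((((2 * (2 * p) - 1).factorial : ℕ) : ℚ) / (p : ℚ) ^ 3) ^ 99) *
        PowerSeries.C (((1 - 2 * r : ℤ) : ℚ)) ^ 401) *
      (((PowerSeries.X + PowerSeries.C (-(j : ℚ))) * PowerSeries.C (((1 - 2 * r : ℤ) : ℚ))) ^ e *
        ∏ s ∈ (Finset.Icc 1 ((p - 1) / 2)).erase r,
          (PowerSeries.C (((s - r : ℤ) : ℚ)) * PowerSeries.C (((1 - r - s : ℤ) : ℚ))) ^ 264) *
      ((∏ b ∈ (Finset.range 4).erase j, iv ((b : ℚ) - j) ^ 99) *
        ∏ m ∈ (Finset.Icc 1 (2 * (2 * p))).filter (fun m => ¬ m % p = r),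
          PowerSeries.C ((((m - r : ℤ)) : ℚ)⁻¹) ^ 99) := by
    unfold ww ser
    have e1 : ∀ s ∈ (Finset.Icc 1 ((p - 1) / 2)).erase r,
        (PowerSeries.C (((s - r : ℤ) : ℚ)) * PowerSeries.C (((1 - r - s : ℤ) : ℚ)) : PowerSeries ℚ) ^ 264 =
        PowerSeries.C ((((s : ℚ) - r) * (1 - r - s)) ^ 264) := by
      intro s _
      rw [← map_mul, ← map_pow]
      push_cast
      rfl
    have e2 : ∀ m ∈ (Finset.Icc 1 (2 * (2 * p))).filter (fun m => ¬ m % p = r),
        (PowerSeries.C ((((m - r : ℤ)) : ℚ)⁻¹) : PowerSeries ℚ) ^ 99 =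
        PowerSeries.C (((m : ℚ) - r)⁻¹ ^ 99) := by
      intro m _
      rw [← map_pow]
      push_cast
      rfl
    rw [Finset.prod_congr rfl e1, Finset.prod_congr rfl e2]
    rw [← map_prod (PowerSeries.C (R := ℚ)), ← map_prod (PowerSeries.C (R := ℚ))]
    have e3 : (((1 - 2 * r : ℤ) : ℚ)) = 1 - 2 * (r : ℚ) := by push_cast; ring
    rw [e3]
    generalize (∏ s ∈ (Finset.Icc 1 ((p - 1) / 2)).erase r, (((s : ℚ) - r) * (1 - r - s)) ^ 264) = y1
    generalize (∏ m ∈ (Finset.Icc 1 (2 * (2 * p))).filter (fun m => ¬ m % p = r), ((m : ℚ) - r)⁻¹ ^ 99) = y2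
    generalize ((((2 * (2 * p) - 1).factorial : ℕ) : ℚ) / (p : ℚ) ^ 3) ^ 99 = y3
    generalize 1 - 2 * (r : ℚ) = y4
    generalize (∏ b ∈ (Finset.range 4).erase j, iv ((b : ℚ) - j) ^ 99) = Y5
    generalize (PowerSeries.X + PowerSeries.C (-(j : ℚ)) : PowerSeries ℚ) = Y6
    rw [mul_pow Y6]
    simp only [map_mul, map_pow]
    generalize (PowerSeries.C y4 : PowerSeries ℚ) ^ 401 = Z4
    ring
  rw [hG]
  unfold FF
  apply CG.mul
  · apply CG.mul
    · apply CG.mul
      · apply CG.refl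
        exact PB.C zero_le_one zero_le_one (norm_one_pow (norm_fac h5) _).le
      · apply CG.pow
        have h1 : (((2 * (2 * p) + 1 : ℕ) : ℚ) - 2 * ((r + j * p : ℕ) : ℚ)) =
            (((2 * (2 * p) + 1) - 2 * (r + j * p) : ℤ) : ℚ) := by push_cast; ring
        rw [h1]
        apply CG.lin
        · have := norm_p_mul (p := p) 2
          rw [mul_comm] at this
          exact_mod_cast this
        · apply norm_le_sub
          exact ⟨4 - 2 * j, by ring⟩
        · exact norm_int_le_one _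
    · apply CG.mul
      · apply CG.pow
        apply CG.mul
        · apply CG.refl
          apply PB.linX zero_le_one zero_le_one _ (by norm_num)
          have := norm_int_le_one (p := p) (-(j : ℤ))
          push_cast at this
          exact this
        · have h1 : (2 * ((2 * p : ℕ) : ℚ) + 1 - r - ((r + j * p : ℕ) : ℚ)) =
              ((2 * (2 * p) + 1 - r - (r + j * p) : ℤ) : ℚ) := by push_cast; ring
          rw [h1]
          apply CG.linp
          exact ⟨4 - j, by ring⟩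
      · apply CG.prod
        intro s _
        apply CG.pow
        apply CG.mul
        · have h1 : ((s : ℚ) - ((r + j * p : ℕ) : ℚ)) = ((s - (r + j * p) : ℤ) : ℚ) := by push_cast; ring
          rw [h1]
          apply CG.linp
          exact ⟨-j, by ring⟩
        · have h1 : (2 * ((2 * p : ℕ) : ℚ) + 1 - s - ((r + j * p : ℕ) : ℚ)) =
              ((2 * (2 * p) + 1 - s - (r + j * p) : ℤ) : ℚ) := by push_cast; ring
          rw [h1]
          apply CG.linp
          exact ⟨4 - j, by ring⟩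
  · apply CG.mul
    · apply CG.refl
      have h1 := PB.prod (p := p) (ρ := 1) ((Finset.range 4).erase j) (fun _ => 1)
        (fun b => iv ((b : ℚ) - j) ^ 99) zero_le_one (fun _ _ => zero_le_one) (by
          intro b hb
          rw [Finset.mem_erase, Finset.mem_range] at hb
          have := PB.pow zero_le_one zero_le_one (PB_iv hb.2 hj hb.1 h5) 99
          simpa using this)
      simpa using h1
    · apply CG.prod
      intro m hm
      rw [Finset.mem_filter] at hm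
      apply CG.pow
      apply CG.iv
      · refine ⟨-j, ?_⟩
        push_cast
        ring
      · intro h
        apply hm.2
        have h1 : (m : ℤ) % p = (r : ℤ) % p :=
          Int.emod_eq_emod_iff_emod_sub_eq_zero.2 (Int.emod_eq_zero_of_dvd h)
        have h2 : m % p = r % p := by exact_mod_cast h1
        rw [h2, Nat.mod_eq_of_lt (by omega)]

end NVA_

open NVA_ in
theorem NVA : S_NVA := by
  intro p hp h300 r hr1 hr2
  refine ⟨ww p r, norm_ww (by omega) hr1 hr2, ?_⟩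
  intro e j i he hj hi1 hi2
  have hp0 : (p : ℚ) ≠ 0 := by exact_mod_cast hp.out.ne_zero
  have hpa : pa (sP (2 * p)) mP (PP (2 * p) * (XN (2 * p) r ^ e * OT p r 264).comp (xP (2 * p))) (r + j * p) i =
      PowerSeries.coeff (99 - i)
        (TS (-((r + j * p : ℕ) : ℚ)) (PP (2 * p) * (XN (2 * p) r ^ e * OT p r 264).comp (xP (2 * p))) *
          VV ((sP (2 * p)).erase (r + j * p)) mP (-((r + j * p : ℕ) : ℚ))) := by
    unfold pa pfc
    rw [if_pos hi2]
  have h1 := congrArg (PowerSeries.coeff (99 - i)) (main_eq (p := p) (e := e) hr1 hr2 hj)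
  rw [PowerSeries.coeff_rescale, PowerSeries.coeff_C_mul] at h1
  rw [hpa]
  have h2 : (p : ℚ) ^ (99 - (e : ℤ) - i) = ((p : ℚ) ^ e)⁻¹ * (p : ℚ) ^ (99 - i) := by
    have e1 : (99 - (e : ℤ) - i) = -(e : ℤ) + ((99 - i : ℕ) : ℤ) := by
      rw [Nat.cast_sub hi2]
      push_cast
      ring
    rw [e1, zpow_add₀ hp0, zpow_neg, zpow_natCast, zpow_natCast]
  rw [h2, mul_assoc, h1, ← mul_assoc, inv_mul_cancel₀ (pow_ne_zero _ hp0), one_mul]
  have h3 := (FF_congr (p := p) (e := e) (by omega) hr1 hr2 hj).2.2 (99 - i)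
  rw [map_sub, PowerSeries.coeff_C_mul, one_pow, mul_one] at h3
  exact h3

end

end Pool.Agent.L0h38.Q4
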