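import Pool.Agent.L0h38.Q4.Defs
import Pool.Agent.H337R2.Sym

/-!
# P1, part a: `p`-integral polynomials, residues at two points
-/

open Polynomial Pool.Agent.H337R2

namespace Pool.Agent.L0h38.Q4

noncomputable section

namespace P1_

set_option linter.unusedSectionVars false
set_option linter.unusedVariables false

section IPdef

variable {p : ℕ} [hp : Fact p.Prime]

/-- p-integral polynomials -/
def IP (p : ℕ) [hp : Fact p.Prime] : Subring ℚ[X] where
  carrier := {f | ∀ j, padicNorm p (f.coeff j) ≤ 1}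
  mul_mem' := by
    intro f g hf hg j
    rw [Polynomial.coeff_mul]
    apply padicNorm.sum_le' _ zero_le_one
    intro x _
    rw [padicNorm.mul]
    exact mul_le_one₀ (hf _) (padicNorm.nonneg _) (hg _)
  one_mem' := by
    intro j
    rw [Polynomial.coeff_one]
    split_ifs <;> simp
  add_mem' := by
    intro f g hf hg j
    rw [Polynomial.coeff_add]
    exact (padicNorm.nonarchimedean).trans (max_le (hf _) (hg _))
  zero_mem' := by intro j; simp
  neg_mem' := by
    intro f hf j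
    rw [Polynomial.coeff_neg, padicNorm.neg]
    exact hf j

lemma mem_IP {f : ℚ[X]} : f ∈ IP p ↔ ∀ j, padicNorm p (f.coeff j) ≤ 1 := Iff.rfl

lemma C_mem {a : ℚ} (ha : padicNorm p a ≤ 1) : (C a : ℚ[X]) ∈ IP p := by
  intro j
  rw [Polynomial.coeff_C]
  split_ifs
  · exact ha
  · rw [padicNorm.zero]; exact zero_le_one

lemma X_mem : (X : ℚ[X]) ∈ IP p := by
  intro j
  rw [Polynomial.coeff_X]
  split_ifs <;> simp

lemma XC_mem (a : ℤ) : (X + C (a : ℚ) : ℚ[X]) ∈ IP p := add_mem X_mem (C_mem (padicNorm.of_int _))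

lemma norm_pow_le {x : ℚ} (hx : padicNorm p x ≤ 1) (k : ℕ) : padicNorm p (x ^ k) ≤ 1 := by
  induction k with
  | zero => simp
  | succ k ih => rw [pow_succ, padicNorm.mul]; exact mul_le_one₀ ih (padicNorm.nonneg _) hx

/-- division by a linear factor -/
lemma divide (a : ℤ) {f : ℚ[X]} (hf : f ∈ IP p) :
    ∃ c : ℚ, padicNorm p c ≤ 1 ∧ ∃ g ∈ IP p, f = C c + (X + C (a : ℚ)) * g := by
  have ha : padicNorm p (-(a : ℚ)) ≤ 1 := by rw [padicNorm.neg]; exact padicNorm.of_int _
  refine ⟨∑ j ∈ Finset.range (f.natDegree + 1), f.coeff j * (-(a : ℚ)) ^ j, ?_,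
    ∑ j ∈ Finset.range (f.natDegree + 1), C (f.coeff j) *
      ∑ i ∈ Finset.range j, X ^ i * (C (-(a : ℚ))) ^ (j - 1 - i), ?_, ?_⟩
  · apply padicNorm.sum_le' _ zero_le_one
    intro j _
    rw [padicNorm.mul]
    exact mul_le_one₀ (hf j) (padicNorm.nonneg _) (norm_pow_le ha j)
  · refine sum_mem fun j _ => mul_mem (C_mem (hf j)) (sum_mem fun i _ => ?_)
    exact mul_mem (pow_mem X_mem _) (pow_mem (C_mem ha) _)
  · conv_lhs => rw [f.as_sum_range_C_mul_X_pow]
    rw [map_sum, Finset.mul_sum, ← Finset.sum_add_distrib]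
    refine Finset.sum_congr rfl fun j _ => ?_
    have h := (Commute.all (X : ℚ[X]) (C (-(a : ℚ)))).geom_sum₂_mul j
    have h2 : (X + C (a : ℚ) : ℚ[X]) = X - C (-(a : ℚ)) := by rw [map_neg]; ring
    rw [map_mul, map_pow, h2]
    linear_combination -(C (f.coeff j)) * h

/-- the linear factor at the site `-k` -/
def sit (k : ℕ) : ℚ[X] := X + C (k : ℚ)

lemma sit_mem (k : ℕ) : sit k ∈ IP p := by
  have := XC_mem (p := p) (k : ℤ)
  simpa [sit] using this

/-- the levels -/
def bl (a b l : ℕ) : ℚ[X] := (sit b * sit a) ^ (l / 2) * sit b ^ (l % 2)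

lemma bl_succ (a b l : ℕ) : bl a b (l + 1) = bl a b l * (if l % 2 = 0 then sit b else sit a) := by
  unfold bl
  rcases Nat.even_or_odd' l with ⟨c, rfl | rfl⟩
  · rw [if_pos (by omega), show (2 * c + 1) / 2 = c by omega, show (2 * c + 1) % 2 = 1 by omega,
      show 2 * c / 2 = c by omega, show 2 * c % 2 = 0 by omega]
    ring
  · rw [if_neg (by omega), show (2 * c + 1 + 1) / 2 = c + 1 by omega,
      show (2 * c + 1 + 1) % 2 = 0 by omega, show (2 * c + 1) / 2 = c by omega,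
      show (2 * c + 1) % 2 = 1 by omega]
    ring

theorem rep (a b : ℕ) {f : ℚ[X]} (hf : f ∈ IP p) (N : ℕ) : ∃ u : ℕ → ℚ, (∀ l, padicNorm p (u l) ≤ 1) ∧
    ∃ H ∈ IP p, f = ∑ l ∈ Finset.range N, C (u l) * bl a b l + bl a b N * H := by
  induction N with
  | zero => exact ⟨fun _ => 0, by simp, f, hf, by simp [bl]⟩
  | succ N ih =>
    obtain ⟨u, hu, H, hH, e⟩ := ih
    obtain ⟨c, hc, g, hg, e2⟩ := divide (p := p) (if N % 2 = 0 then (b : ℤ) else a) hH
    refine ⟨Function.update u N c, ?_, g, hg, ?_⟩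
    · intro l
      by_cases h : l = N
      · rw [h, Function.update_self]; exact hc
      · rw [Function.update_of_ne h]; exact hu l
    · rw [Finset.sum_range_succ, Function.update_self, bl_succ]
      have e3 : ∑ x ∈ Finset.range N, C (Function.update u N c x) * bl a b x =
          ∑ x ∈ Finset.range N, C (u x) * bl a b x := by
        refine Finset.sum_congr rfl fun x hx => ?_
        rw [Function.update_of_ne (Finset.mem_range.1 hx).ne]
      rw [e3]
      have e4 : (X + C (((if N % 2 = 0 then (b : ℤ) else a : ℤ)) : ℚ) : ℚ[X]) =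
          if N % 2 = 0 then sit b else sit a := by
        split_ifs <;> simp [sit]
      rw [e4] at e2
      conv_lhs => rw [e, e2]
      ring

end IPdef

/-! ### residues at the two points `-a`, `-b` -/

/-- residue of `F / ((X + a)(X + b))^M` at `-a` -/
def rs (a b M : ℕ) (F : ℚ[X]) : ℚ :=
  PowerSeries.coeff (M - 1) (TS (-(a : ℚ)) F * iv ((b : ℚ) - a) ^ M)

lemma rs_add (a b M : ℕ) (F G : ℚ[X]) : rs a b M (F + G) = rs a b M F + rs a b M G := by
  unfold rs; rw [map_add, add_mul, map_add]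

lemma rs_sub (a b M : ℕ) (F G : ℚ[X]) : rs a b M (F - G) = rs a b M F - rs a b M G := by
  unfold rs; rw [map_sub, sub_mul, map_sub]

lemma rs_C_mul (a b M : ℕ) (c : ℚ) (F : ℚ[X]) : rs a b M (C c * F) = c * rs a b M F := by
  unfold rs; rw [map_mul (TS (-(a : ℚ))), TS_C, mul_assoc, PowerSeries.coeff_C_mul]

lemma rs_sum {ι : Type*} (a b M : ℕ) (s : Finset ι) (F : ι → ℚ[X]) :
    rs a b M (∑ i ∈ s, F i) = ∑ i ∈ s, rs a b M (F i) := by
  unfold rs; rw [map_sum, Finset.sum_mul, map_sum]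

lemma TS_sit (a k : ℕ) : TS (-(a : ℚ)) (sit k) = PowerSeries.X + PowerSeries.C ((k : ℚ) - a) := by
  unfold sit; rw [TS_lin, neg_add_eq_sub]

lemma TS_sit_self (a : ℕ) : TS (-(a : ℚ)) (sit a) = PowerSeries.X := by
  rw [TS_sit, sub_self, map_zero, add_zero]

lemma rs_kill (a b M : ℕ) (hM : 1 ≤ M) (G : ℚ[X]) : rs a b M (sit a ^ M * G) = 0 := by
  unfold rs
  rw [map_mul (TS (-(a : ℚ))), map_pow (TS (-(a : ℚ))), TS_sit_self, mul_assoc, PowerSeries.coeff_X_pow_mul',
    if_neg (by omega)]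

lemma sit_iv {a b : ℕ} (hab : a ≠ b) : TS (-(a : ℚ)) (sit b) * iv ((b : ℚ) - a) = 1 := by
  rw [TS_sit]
  apply lin_mul_iv
  intro h
  apply hab
  have : (a : ℚ) = b := by linarith
  exact_mod_cast this

lemma rs_raise {a b : ℕ} (hab : a ≠ b) (M : ℕ) (hM : 1 ≤ M) (F : ℚ[X]) :
    rs a b (M + 1) (F * (sit a * sit b)) = rs a b M F := by
  unfold rs
  rw [map_mul (TS (-(a : ℚ))), map_mul (TS (-(a : ℚ))), TS_sit_self]
  have h1 := sit_iv hab
  have h2 : TS (-(a : ℚ)) F * (PowerSeries.X * TS (-(a : ℚ)) (sit b)) * iv ((b : ℚ) - a) ^ (M + 1) =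
      PowerSeries.X * (TS (-(a : ℚ)) F * iv ((b : ℚ) - a) ^ M) := by
    rw [pow_succ]
    linear_combination (PowerSeries.X * TS (-(a : ℚ)) F * iv ((b : ℚ) - a) ^ M) * h1
  rw [h2, show M + 1 - 1 = (M - 1) + 1 by omega, PowerSeries.coeff_succ_X_mul]

lemma rs_unit {a b : ℕ} (hab : a ≠ b) (M : ℕ) (hM : 1 ≤ M) : rs a b M (sit a ^ (M - 1) * sit b ^ M) = 1 := by
  unfold rs
  rw [map_mul (TS (-(a : ℚ))), map_pow (TS (-(a : ℚ))), map_pow (TS (-(a : ℚ))), TS_sit_self, mul_assoc, ← mul_pow,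
    sit_iv hab, one_pow, mul_one, PowerSeries.coeff_X_pow, if_pos rfl]

lemma rs_pa {a b : ℕ} (hab : a ≠ b) (M : ℕ) (hM : 1 ≤ M) (F : ℚ[X]) :
    rs a b M F = pa {a, b} (fun _ => M) F a 1 := by
  unfold rs pa pfc VV
  rw [if_pos hM]
  have h1 : ({a, b} : Finset ℕ).erase a = {b} := by
    ext x
    simp only [Finset.mem_erase, Finset.mem_insert, Finset.mem_singleton]
    constructor
    · rintro ⟨h1, h2 | h2⟩
      · exact absurd h2 h1
      · exact h2
    · intro h
      exact ⟨by rw [h]; exact hab.symm, Or.inr h⟩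
  rw [h1, Finset.prod_singleton, neg_add_eq_sub]

lemma rs_sum_zero {a b : ℕ} (hab : a ≠ b) (M : ℕ) (hM : 1 ≤ M) (F : ℚ[X]) (hF : F.natDegree + 2 ≤ 2 * M) :
    rs a b M F + rs b a M F = 0 := by
  rw [rs_pa hab M hM, rs_pa hab.symm M hM, Finset.pair_comm b a]
  have h := residue_sum {a, b} (fun _ => M) F (by
    rw [QQ_natDegree, Finset.sum_pair hab]; omega)
  rwa [Finset.sum_pair hab] at h

lemma natDegree_bl (a b l : ℕ) : (bl a b l).natDegree ≤ l := by
  unfold bl
  have h1 : ∀ k : ℕ, (sit k).natDegree ≤ 1 := fun k => by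
    unfold sit; exact natDegree_X_add_C _ |>.le
  refine natDegree_mul_le.trans ?_
  have h2 : (sit b * sit a).natDegree ≤ 2 := natDegree_mul_le.trans (by have := h1 a; have := h1 b; omega)
  have h3 : ((sit b * sit a) ^ (l / 2)).natDegree ≤ l / 2 * 2 :=
    natDegree_pow_le.trans (Nat.mul_le_mul_left _ h2)
  have h4 : (sit b ^ (l % 2)).natDegree ≤ l % 2 * 1 := natDegree_pow_le.trans (Nat.mul_le_mul_left _ (h1 b))
  omega

variable {p : ℕ} [hp : Fact p.Prime]

/-- the sum of the two residues is `p`-integral -/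
theorem rs_int {a b : ℕ} (hab : a ≠ b) (M : ℕ) (hM : 1 ≤ M) {F : ℚ[X]} (hF : F ∈ IP p) :
    padicNorm p (rs a b M F + rs b a M F) ≤ 1 := by
  obtain ⟨u, hu, H, hH, e⟩ := rep (p := p) a b hF (2 * M)
  have hbl : bl a b (2 * M) = sit a ^ M * sit b ^ M := by
    unfold bl
    rw [show 2 * M / 2 = M by omega, show 2 * M % 2 = 0 by omega, pow_zero, mul_one, mul_pow, mul_comm]
  have hH1 : rs a b M (bl a b (2 * M) * H) = 0 := by
    rw [hbl, mul_assoc]
    exact rs_kill a b M hM _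
  have hH2 : rs b a M (bl a b (2 * M) * H) = 0 := by
    rw [hbl, mul_comm (sit a ^ M), mul_assoc]
    exact rs_kill b a M hM _
  have h1 : rs a b M F + rs b a M F = ∑ l ∈ Finset.range (2 * M), u l * (rs a b M (bl a b l) + rs b a M (bl a b l)) := by
    rw [e, rs_add, rs_add, hH1, hH2, add_zero, add_zero, rs_sum, rs_sum, ← Finset.sum_add_distrib]
    apply Finset.sum_congr rfl
    intro l _
    rw [rs_C_mul, rs_C_mul, mul_add]
  rw [h1]
  apply padicNorm.sum_le' _ zero_le_one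
  intro l hl
  rw [Finset.mem_range] at hl
  rw [padicNorm.mul]
  apply mul_le_one₀ (hu l) (padicNorm.nonneg _)
  by_cases hl2 : l + 2 ≤ 2 * M
  · rw [rs_sum_zero hab M hM _ (by have := natDegree_bl a b l; omega)]
    simp
  · have hl3 : l = 2 * (M - 1) + 1 := by omega
    have hbl2 : bl a b l = sit a ^ (M - 1) * sit b ^ M := by
      unfold bl
      rw [show l / 2 = M - 1 by omega, show l % 2 = 1 by omega, mul_pow]
      obtain ⟨k, rfl⟩ : ∃ k, M = k + 1 := ⟨M - 1, by omega⟩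
      rw [show k + 1 - 1 = k by omega]
      ring
    have h2 : rs b a M (bl a b l) = 0 := by
      rw [hbl2, mul_comm]
      exact rs_kill b a M hM _
    rw [h2, add_zero, hbl2, rs_unit hab M hM]
    simp

end P1_

end

end Pool.Agent.L0h38.Q4
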