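import Pool.Agent.L0h38.Q4.P1a

/-!
# P1, part b: coprimality, reduction to a class
-/

open Polynomial Pool.Agent.H337R2

namespace Pool.Agent.L0h38.Q4

noncomputable section

namespace P1_

set_option linter.unusedSectionVars false
set_option linter.unusedVariables false

variable {p : ℕ} [hp : Fact p.Prime]

lemma norm_one_inv {x : ℚ} (hx : padicNorm p x = 1) : padicNorm p x⁻¹ = 1 := by
  have hx0 : x ≠ 0 := by
    intro h; rw [h] at hx; simp at hx
  have h1 : padicNorm p x⁻¹ * padicNorm p x = 1 := by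
    rw [← padicNorm.mul, inv_mul_cancel₀ hx0]; simp
  rw [hx, mul_one] at h1
  exact h1

/-- linear factor in the ring `IP p` -/
def sI (p : ℕ) [hp : Fact p.Prime] (k : ℕ) : IP p := ⟨sit k, sit_mem k⟩

lemma cop_lin {a k : ℕ} (h : ¬ (p : ℤ) ∣ (a : ℤ) - k) : IsCoprime (sI p a) (sI p k) := by
  have hn : padicNorm p ((a : ℚ) - k) = 1 := by
    have := (padicNorm.int_eq_one_iff (p := p) ((a : ℤ) - k)).2 h
    push_cast at this
    exact this
  have h0 : (a : ℚ) - k ≠ 0 := by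
    intro h; rw [h] at hn; simp at hn
  have hc : (C (((a : ℚ) - k)⁻¹) : ℚ[X]) ∈ IP p := C_mem (norm_one_inv hn).le
  refine ⟨⟨_, hc⟩, -⟨_, hc⟩, ?_⟩
  apply Subtype.ext
  show C (((a : ℚ) - k)⁻¹) * sit a + (-C (((a : ℚ) - k)⁻¹)) * sit k = 1
  have h1 : C (((a : ℚ) - k)⁻¹) * (sit a - sit k) = 1 := by
    unfold sit
    rw [add_sub_add_left_eq_sub, ← map_sub, ← map_mul, inv_mul_cancel₀ h0, map_one]
  linear_combination h1

/-- Bezout identity for a class and the rest -/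
lemma bez {a b : ℕ} (s' : Finset ℕ) (ha : ∀ m ∈ s', ¬ (p : ℤ) ∣ (a : ℤ) - m)
    (hb : ∀ m ∈ s', ¬ (p : ℤ) ∣ (b : ℤ) - m) (N h : ℕ) :
    ∃ A ∈ IP p, ∃ V ∈ IP p, A * (sit a * sit b) ^ N + V * ∏ m ∈ s', sit m ^ h = 1 := by
  have h1 : IsCoprime ((sI p a * sI p b) ^ N) (∏ m ∈ s', sI p m ^ h) := by
    apply IsCoprime.pow_left
    apply IsCoprime.prod_right
    intro m hm
    apply IsCoprime.pow_right
    exact IsCoprime.mul_left (cop_lin (ha m hm)) (cop_lin (hb m hm))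
  obtain ⟨A, V, e⟩ := h1
  refine ⟨A.1, A.2, V.1, V.2, ?_⟩
  have e2 := congrArg (IP p).subtype e
  rw [map_add, map_mul, map_mul, map_pow, map_mul, map_prod, map_one] at e2
  simp only [map_pow] at e2
  exact e2

/-- reduction of the expansion at `-a` to the class `{a, b}` -/
lemma red {a b : ℕ} {s : Finset ℕ} (hb : b ∈ s) (hab : a ≠ b) {A V : ℚ[X]} {N : ℕ} (hN : 99 ≤ N)
    (hV : A * (sit a * sit b) ^ N + V * ∏ m ∈ (s.erase a).erase b, sit m ^ 99 = 1) (P : ℚ[X]) :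
    ∃ Z : PowerSeries ℚ, TS (-(a : ℚ)) P * VV (s.erase a) mP (-(a : ℚ)) =
      TS (-(a : ℚ)) (P * V) * iv ((b : ℚ) - a) ^ 99 + PowerSeries.X ^ 99 * Z := by
  have h1 : VV (s.erase a) mP (-(a : ℚ)) = iv ((b : ℚ) - a) ^ 99 * VV ((s.erase a).erase b) mP (-(a : ℚ)) := by
    unfold VV
    rw [← Finset.mul_prod_erase (s.erase a) _ (Finset.mem_erase.2 ⟨hab.symm, hb⟩), neg_add_eq_sub]
  have h2 : TS (-(a : ℚ)) (∏ m ∈ (s.erase a).erase b, sit m ^ 99) * VV ((s.erase a).erase b) mP (-(a : ℚ)) = 1 := by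
    have := TS_QQ_mul_VV ((s.erase a).erase b) mP (-(a : ℚ)) (by
      intro m hm _ h
      have : (m : ℚ) = a := by linarith
      have : m = a := by exact_mod_cast this
      rw [this] at hm
      simp at hm)
    exact this
  have h3 := congrArg (TS (-(a : ℚ))) hV
  rw [map_add, map_mul (TS (-(a : ℚ))), map_mul (TS (-(a : ℚ))), map_pow (TS (-(a : ℚ))) (sit a * sit b),
    map_mul (TS (-(a : ℚ))) (sit a), TS_sit_self, map_one] at h3
  obtain ⟨N', rfl⟩ : ∃ N', N = 99 + N' := ⟨N - 99, by omega⟩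
  refine ⟨TS (-(a : ℚ)) P * iv ((b : ℚ) - a) ^ 99 * VV ((s.erase a).erase b) mP (-(a : ℚ)) *
    TS (-(a : ℚ)) A * PowerSeries.X ^ N' * TS (-(a : ℚ)) (sit b) ^ (99 + N'), ?_⟩
  rw [h1, map_mul (TS (-(a : ℚ))) P]
  rw [mul_pow, pow_add PowerSeries.X] at h3
  generalize TS (-(a : ℚ)) (∏ m ∈ (s.erase a).erase b, sit m ^ 99) = Y1 at *
  generalize VV ((s.erase a).erase b) mP (-(a : ℚ)) = Y2 at *
  generalize TS (-(a : ℚ)) P = Y3 at *
  generalize TS (-(a : ℚ)) V = Y4 at *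
  generalize TS (-(a : ℚ)) A = Y5 at *
  generalize TS (-(a : ℚ)) (sit b) ^ (99 + N') = Y6 at *
  generalize iv ((b : ℚ) - a) ^ 99 = Y7 at *
  generalize (PowerSeries.X : PowerSeries ℚ) ^ 99 = Y8 at *
  generalize (PowerSeries.X : PowerSeries ℚ) ^ N' = Y9 at *
  linear_combination (-(Y3 * Y7 * Y2)) * h3 + (Y3 * Y7 * Y4) * h2

/-- expansion of `1/(X+m)` at `-a` -/
lemma exp_iv {a b m : ℕ} (hma : m ≠ a) {A E : ℚ[X]} {N : ℕ} (hN : 99 ≤ N)
    (hE : A * (sit a * sit b) ^ N + E * sit m = 1) :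
    ∃ Z : PowerSeries ℚ, iv ((m : ℚ) - a) = TS (-(a : ℚ)) E + PowerSeries.X ^ 99 * Z := by
  have h3 := congrArg (TS (-(a : ℚ))) hE
  rw [map_add, map_mul (TS (-(a : ℚ))), map_mul (TS (-(a : ℚ))) E, map_pow (TS (-(a : ℚ))),
    map_mul (TS (-(a : ℚ))) (sit a), TS_sit_self, map_one] at h3
  have h4 := sit_iv (a := a) (b := m) (fun h => hma h.symm)
  obtain ⟨N', rfl⟩ : ∃ N', N = 99 + N' := ⟨N - 99, by omega⟩
  refine ⟨iv ((m : ℚ) - a) * TS (-(a : ℚ)) A * PowerSeries.X ^ N' * TS (-(a : ℚ)) (sit b) ^ (99 + N'), ?_⟩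
  rw [mul_pow, pow_add PowerSeries.X] at h3
  generalize TS (-(a : ℚ)) A = Y1 at *
  generalize TS (-(a : ℚ)) (sit m) = Y2 at *
  generalize iv ((m : ℚ) - a) = Y3 at *
  generalize TS (-(a : ℚ)) E = Y4 at *
  generalize (PowerSeries.X : PowerSeries ℚ) ^ 99 = Y8 at *
  generalize TS (-(a : ℚ)) (sit b) ^ (99 + N') = Y6 at *
  generalize (PowerSeries.X : PowerSeries ℚ) ^ N' = Y9 at *
  linear_combination (-Y3) * h3 + Y4 * h4

/-! ### the weights -/

/-- the weights of a pole and its mirror image -/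
def Wk (n : ℕ) (δ : ℚ) (q : ℕ) (u : ℕ → ℚ) (k : ℕ) : PowerSeries ℚ :=
  PowerSeries.mk fun j => (1 + (-1) ^ j) * ((q : ℚ) * u (j + 1)) -
    δ * q * (hs (j + 1) (k - 1) + (-1) ^ j * hs (j + 1) (2 * n - k))

/-- the part of the weights with `u` -/
def Uo (q : ℕ) (u : ℕ → ℚ) : PowerSeries ℚ := PowerSeries.mk fun j => (1 + (-1) ^ j) * ((q : ℚ) * u (j + 1))

lemma W_eq (n : ℕ) (δ : ℚ) (q : ℕ) (u : ℕ → ℚ) {k : ℕ} (hk : k ∈ sP n) :
    Wk n δ q u k = Uo q u + PowerSeries.C (δ * q) *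
      (∑ m ∈ (sP n).filter (fun m => m < k), iv ((m : ℚ) - k) -
        ∑ m ∈ (sP n).filter (fun m => k < m), iv ((m : ℚ) - k)) := by
  rw [Finset.mem_Icc] at hk
  ext j
  rw [map_add, PowerSeries.coeff_C_mul, map_sub, map_sum, map_sum]
  simp only [Wk, Uo, iv, PowerSeries.coeff_mk]
  have h1 : ∑ m ∈ (sP n).filter (fun m => m < k), (-1 : ℚ) ^ j / ((m : ℚ) - k) ^ (j + 1) = -hs (j + 1) (k - 1) := by
    unfold hs
    rw [← Finset.sum_neg_distrib]
    symm
    apply Finset.sum_bij (fun l _ => k - 1 - l)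
    · intro l hl
      rw [Finset.mem_range] at hl
      rw [Finset.mem_filter]
      refine ⟨Finset.mem_Icc.2 ⟨by omega, by omega⟩, by omega⟩
    · intro l1 h1 l2 h2 h
      rw [Finset.mem_range] at h1 h2
      omega
    · intro m hm
      rw [Finset.mem_filter] at hm
      have hm1 := Finset.mem_Icc.1 hm.1
      refine ⟨k - 1 - m, Finset.mem_range.2 (by omega), by omega⟩
    · intro l hl
      rw [Finset.mem_range] at hl
      have e1 : (((k - 1 - l : ℕ) : ℚ) - k) = -((l : ℚ) + 1) := by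
        rw [Nat.cast_sub (by omega), Nat.cast_sub (by omega)]
        push_cast; ring
      rw [e1, neg_pow ((l : ℚ) + 1), pow_succ (-1 : ℚ)]
      rcases neg_one_pow_eq_or ℚ j with h | h <;> rw [h] <;> simp [neg_div, div_neg]
  have h2 : ∑ m ∈ (sP n).filter (fun m => k < m), (-1 : ℚ) ^ j / ((m : ℚ) - k) ^ (j + 1) =
      (-1) ^ j * hs (j + 1) (2 * n - k) := by
    unfold hs
    rw [Finset.mul_sum]
    symm
    apply Finset.sum_bij (fun l _ => k + 1 + l)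
    · intro l hl
      rw [Finset.mem_range] at hl
      rw [Finset.mem_filter]
      refine ⟨Finset.mem_Icc.2 ⟨by omega, by omega⟩, by omega⟩
    · intro l1 h1 l2 h2 h
      omega
    · intro m hm
      rw [Finset.mem_filter] at hm
      have hm1 := Finset.mem_Icc.1 hm.1
      refine ⟨m - k - 1, Finset.mem_range.2 (by omega), by omega⟩
    · intro l hl
      have e1 : (((k + 1 + l : ℕ) : ℚ) - k) = (l : ℚ) + 1 := by
        push_cast; ring
      rw [e1]
      ring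
  rw [h1, h2]
  ring

/-- the functional at one pole -/
def tk (n : ℕ) (δ : ℚ) (q : ℕ) (u : ℕ → ℚ) (P : ℚ[X]) (k : ℕ) : ℚ :=
  ∑ i ∈ Finset.Icc 1 99, pa (sP n) mP P k i * ((q : ℚ) * u i - δ * q * hs i (k - 1))

lemma coeff_sum (s : Finset ℕ) (P : ℚ[X]) (k : ℕ) (W : PowerSeries ℚ) :
    ∑ i ∈ Finset.Icc 1 99, pa s mP P k i * PowerSeries.coeff (i - 1) W =
      PowerSeries.coeff 98 (TS (-(k : ℚ)) P * VV (s.erase k) mP (-(k : ℚ)) * W) := by
  rw [PowerSeries.coeff_mul]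
  symm
  apply Finset.sum_bij (fun x _ => x.2 + 1)
  · intro x hx
    rw [Finset.HasAntidiagonal.mem_antidiagonal] at hx
    rw [Finset.mem_Icc]; omega
  · intro x hx y hy h
    rw [Finset.HasAntidiagonal.mem_antidiagonal] at hx hy
    ext <;> omega
  · intro i hi
    rw [Finset.mem_Icc] at hi
    exact ⟨(99 - i, i - 1), by rw [Finset.HasAntidiagonal.mem_antidiagonal]; simp only; omega, by simp only; omega⟩
  · intro x hx
    rw [Finset.HasAntidiagonal.mem_antidiagonal] at hx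
    unfold pa pfc
    have h1 : x.2 + 1 ≤ mP k := by show x.2 + 1 ≤ 99; omega
    rw [if_pos h1]
    have h2 : mP k - (x.2 + 1) = x.1 := by show 99 - (x.2 + 1) = x.1; omega
    rw [h2, Nat.add_sub_cancel]

/-- a pole and its mirror image -/
lemma pair_eq (n : ℕ) (δ : ℚ) (q : ℕ) (u : ℕ → ℚ) (P : ℚ[X])
    (hP : P.comp (-X - C ((2 * n + 1 : ℕ) : ℚ)) = -P) {k : ℕ} (hk : k ∈ sP n) :
    tk n δ q u P k + tk n δ q u P (2 * n + 1 - k) =
      PowerSeries.coeff 98 (TS (-(k : ℚ)) P * VV ((sP n).erase k) mP (-(k : ℚ)) * Wk n δ q u k) := by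
  rw [← coeff_sum]
  unfold tk
  rw [← Finset.sum_add_distrib]
  apply Finset.sum_congr rfl
  intro i hi
  rw [Finset.mem_Icc] at hi
  have hkk := Finset.mem_Icc.1 hk
  have h1 : pa (sP n) mP P (2 * n + 1 - k) i = (-1) ^ (i - 1) * pa (sP n) mP P k i := by
    unfold pa
    have h99 : ∀ x : ℕ, mP x = 99 := fun _ => rfl
    rw [h99, if_pos hi.2, if_pos hi.2]
    have h2 := pfc_reflect (sP n) mP P (2 * n + 1) (by
      intro m hm
      rw [Finset.mem_Icc] at hm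
      exact ⟨by omega, Finset.mem_Icc.2 ⟨by omega, by omega⟩⟩) (fun _ _ => rfl) hP (by
        rw [Finset.sum_const, Nat.card_Icc]
        simp [h99, Nat.even_mul]) hk (j := 99 - i) (by rw [h99]; omega)
    rw [h2]
    show -(-1) ^ (99 - (99 - i)) * pfc (sP n) mP P k (99 - i) = _
    rw [show 99 - (99 - i) = (i - 1) + 1 by omega, pow_succ]
    ring
  rw [h1]
  simp only [Wk, PowerSeries.coeff_mk]
  rw [show i - 1 + 1 = i by omega, show 2 * n + 1 - k - 1 = 2 * n - k by omega]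
  ring

/-- version with abstract arguments -/
lemma red' {a b : ℕ} {s : Finset ℕ} (hb : b ∈ s) (hab : a ≠ b) {A V D : ℚ[X]} {N : ℕ} (hN : 99 ≤ N)
    (s' : Finset ℕ) (hs' : s' = (s.erase a).erase b) (hD : D = (sit a * sit b) ^ N)
    (hV : A * D + V * ∏ m ∈ s', sit m ^ 99 = 1) (P P' : ℚ[X]) (hP : P * V = P') :
    ∃ Z : PowerSeries ℚ, TS (-(a : ℚ)) P * VV (s.erase a) mP (-(a : ℚ)) =
      TS (-(a : ℚ)) P' * iv ((b : ℚ) - a) ^ 99 + PowerSeries.X ^ 99 * Z := by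
  rw [hs', hD] at hV
  rw [← hP]
  exact red hb hab hN hV P

end P1_

end

end Pool.Agent.L0h38.Q4
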