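import Pool.Agent.L0h38.Q4.P1b

/-!
# P1, part c: the functionals on a class with two poles, modulo `p^99`
-/

open Polynomial Pool.Agent.H337R2

namespace Pool.Agent.L0h38.Q4

noncomputable section

namespace P1_

set_option linter.unusedSectionVars false
set_option linter.unusedVariables false

/-- the poles without `a`, `b` -/
def sd (n a b : ℕ) : Finset ℕ := ((sP n).erase a).erase b

/-- the part with `u` -/
def Up (q : ℕ) (u : ℕ → ℚ) (c : ℕ) : ℚ[X] :=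
  ∑ j ∈ Finset.range 99, C ((1 + (-1) ^ j) * ((q : ℚ) * u (j + 1))) * sit c ^ j

/-- the polynomial for the pole `-c` -/
def Cc (n a b : ℕ) (δ : ℚ) (q : ℕ) (u : ℕ → ℚ) (E : ℕ → ℚ[X]) (c : ℕ) : ℚ[X] :=
  Up q u c + C (δ * q) * (∑ m ∈ (sd n a b).filter (fun m => m < c), E m -
    ∑ m ∈ (sd n a b).filter (fun m => c < m), E m)

def U2 (q : ℕ) (u : ℕ → ℚ) (a b : ℕ) : ℚ[X] :=
  ∑ j ∈ Finset.range 99, C ((1 + (-1) ^ j) * ((q : ℚ) * u (j + 1))) *
    ∑ l ∈ Finset.range (j / 2), (sit b ^ 2) ^ l * (sit a ^ 2) ^ (j / 2 - 1 - l)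

/-- the multiplier -/
def GG (p a b : ℕ) (δ : ℚ) (q : ℕ) (u : ℕ → ℚ) (E : ℕ → ℚ[X]) : ℚ[X] :=
  C (δ * q) + (sit a * sit b) * (C (p : ℚ) * U2 q u a b +
    C (δ * q) * ∑ m ∈ Finset.Ioo a b, E m * E (a + b - m))

lemma Uo_eq (q : ℕ) (u : ℕ → ℚ) (c : ℕ) :
    ∃ Z : PowerSeries ℚ, Uo q u = TS (-(c : ℚ)) (Up q u c) + PowerSeries.X ^ 99 * Z := by
  have h1 : TS (-(c : ℚ)) (Up q u c) = ∑ j ∈ Finset.range 99,
      PowerSeries.C ((1 + (-1) ^ j) * ((q : ℚ) * u (j + 1))) * PowerSeries.X ^ j := by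
    unfold Up
    rw [map_sum]
    apply Finset.sum_congr rfl
    intro j _
    rw [map_mul (TS (-(c : ℚ))), map_pow (TS (-(c : ℚ))), TS_C, TS_sit_self]
  have h2 : (PowerSeries.X : PowerSeries ℚ) ^ 99 ∣ Uo q u - TS (-(c : ℚ)) (Up q u c) := by
    rw [PowerSeries.X_pow_dvd_iff]
    intro m hm
    rw [h1, map_sub, map_sum]
    have h3 : ∀ j ∈ Finset.range 99, PowerSeries.coeff m (PowerSeries.C ((1 + (-1) ^ j) * ((q : ℚ) * u (j + 1))) *
        PowerSeries.X ^ j) = if j = m then (1 + (-1) ^ m) * ((q : ℚ) * u (m + 1)) else 0 := by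
      intro j _
      rw [PowerSeries.coeff_C_mul, PowerSeries.coeff_X_pow]
      by_cases h : j = m
      · rw [if_pos h.symm, if_pos h, h, mul_one]
      · rw [if_neg (fun h' => h h'.symm), if_neg h, mul_zero]
    rw [Finset.sum_congr rfl h3, Finset.sum_ite_eq', if_pos (Finset.mem_range.2 hm)]
    simp only [Uo, PowerSeries.coeff_mk, sub_self]
  obtain ⟨Z, hZ⟩ := h2
  exact ⟨Z, by rw [← hZ]; ring⟩

section

variable {n a b : ℕ}

lemma sum_iv (c : ℕ) (s : Finset ℕ) {E A : ℕ → ℚ[X]} {N : ℕ} (hN : 99 ≤ N)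
    (hc : c = a ∨ c = b) (hs : ∀ m ∈ s, m ≠ c)
    (hE : ∀ m ∈ s, A m * (sit a * sit b) ^ N + E m * sit m = 1) :
    ∃ Z : PowerSeries ℚ, ∑ m ∈ s, iv ((m : ℚ) - c) = TS (-(c : ℚ)) (∑ m ∈ s, E m) + PowerSeries.X ^ 99 * Z := by
  classical
  induction s using Finset.induction_on with
  | empty => exact ⟨0, by simp⟩
  | insert m s hm ih =>
    obtain ⟨Z, hZ⟩ := ih (fun m' hm' => hs m' (Finset.mem_insert_of_mem hm'))
      (fun m' hm' => hE m' (Finset.mem_insert_of_mem hm'))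
    have hm1 := hE m (Finset.mem_insert_self _ _)
    have hm2 := hs m (Finset.mem_insert_self _ _)
    obtain ⟨Z', hZ'⟩ : ∃ Z' : PowerSeries ℚ, iv ((m : ℚ) - c) = TS (-(c : ℚ)) (E m) + PowerSeries.X ^ 99 * Z' := by
      rcases hc with h | h
      · rw [h] at hm2 ⊢
        exact exp_iv (b := b) hm2 hN hm1
      · rw [h] at hm2 ⊢
        rw [mul_comm (sit a)] at hm1
        exact exp_iv (b := a) hm2 hN hm1
    refine ⟨Z' + Z, ?_⟩
    rw [Finset.sum_insert hm, Finset.sum_insert hm, map_add, hZ, hZ']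
    ring

/-- the weights at `-a` -/
lemma W_a (ha : a ∈ sP n) (hb : b ∈ sP n) (hab : a < b) (δ : ℚ) (q : ℕ) (u : ℕ → ℚ) {E A : ℕ → ℚ[X]} {N : ℕ}
    (hN : 99 ≤ N) (hE : ∀ m ∈ sd n a b, A m * (sit a * sit b) ^ N + E m * sit m = 1) :
    ∃ Z : PowerSeries ℚ, Wk n δ q u a = TS (-(a : ℚ)) (Cc n a b δ q u E a) -
      PowerSeries.C (δ * q) * iv ((b : ℚ) - a) + PowerSeries.X ^ 99 * Z := by
  obtain ⟨Z1, h1⟩ := Uo_eq q u a
  obtain ⟨Z2, h2⟩ := sum_iv (a := a) (b := b) a ((sd n a b).filter (fun m => m < a)) hN (Or.inl rfl)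
    (fun m hm => by rw [Finset.mem_filter] at hm; omega)
    (fun m hm => hE m (Finset.mem_filter.1 hm).1)
  obtain ⟨Z3, h3⟩ := sum_iv (a := a) (b := b) a ((sd n a b).filter (fun m => a < m)) hN (Or.inl rfl)
    (fun m hm => by rw [Finset.mem_filter] at hm; omega)
    (fun m hm => hE m (Finset.mem_filter.1 hm).1)
  have e1 : (sP n).filter (fun m => m < a) = (sd n a b).filter (fun m => m < a) := by
    ext m
    simp only [sd, Finset.mem_filter, Finset.mem_erase]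
    constructor
    · rintro ⟨h4, h5⟩
      exact ⟨⟨by omega, by omega, h4⟩, h5⟩
    · rintro ⟨⟨_, _, h4⟩, h5⟩
      exact ⟨h4, h5⟩
  have e2 : (sP n).filter (fun m => a < m) = insert b ((sd n a b).filter (fun m => a < m)) := by
    ext m
    simp only [sd, Finset.mem_filter, Finset.mem_erase, Finset.mem_insert]
    constructor
    · rintro ⟨h4, h5⟩
      by_cases h6 : m = b
      · exact Or.inl h6
      · exact Or.inr ⟨⟨h6, by omega, h4⟩, h5⟩
    · rintro (h4 | ⟨⟨_, _, h4⟩, h5⟩)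
      · rw [h4]; exact ⟨hb, hab⟩
      · exact ⟨h4, h5⟩
  have e3 : b ∉ (sd n a b).filter (fun m => a < m) := by
    simp [sd]
  rw [W_eq n δ q u ha, e1, e2, Finset.sum_insert e3, h1, h2, h3]
  refine ⟨Z1 + PowerSeries.C (δ * q) * (Z2 - Z3), ?_⟩
  unfold Cc
  rw [map_add, map_mul (TS (-(a : ℚ))), TS_C, map_sub]
  ring

/-- the weights at `-b` -/
lemma W_b (ha : a ∈ sP n) (hb : b ∈ sP n) (hab : a < b) (δ : ℚ) (q : ℕ) (u : ℕ → ℚ) {E A : ℕ → ℚ[X]} {N : ℕ}
    (hN : 99 ≤ N) (hE : ∀ m ∈ sd n a b, A m * (sit a * sit b) ^ N + E m * sit m = 1) :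
    ∃ Z : PowerSeries ℚ, Wk n δ q u b = TS (-(b : ℚ)) (Cc n a b δ q u E b) +
      PowerSeries.C (δ * q) * iv ((a : ℚ) - b) + PowerSeries.X ^ 99 * Z := by
  obtain ⟨Z1, h1⟩ := Uo_eq q u b
  obtain ⟨Z2, h2⟩ := sum_iv (a := a) (b := b) b ((sd n a b).filter (fun m => m < b)) hN (Or.inr rfl)
    (fun m hm => by rw [Finset.mem_filter] at hm; omega)
    (fun m hm => hE m (Finset.mem_filter.1 hm).1)
  obtain ⟨Z3, h3⟩ := sum_iv (a := a) (b := b) b ((sd n a b).filter (fun m => b < m)) hN (Or.inr rfl)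
    (fun m hm => by rw [Finset.mem_filter] at hm; omega)
    (fun m hm => hE m (Finset.mem_filter.1 hm).1)
  have e1 : (sP n).filter (fun m => b < m) = (sd n a b).filter (fun m => b < m) := by
    ext m
    simp only [sd, Finset.mem_filter, Finset.mem_erase]
    constructor
    · rintro ⟨h4, h5⟩
      exact ⟨⟨by omega, by omega, h4⟩, h5⟩
    · rintro ⟨⟨_, _, h4⟩, h5⟩
      exact ⟨h4, h5⟩
  have e2 : (sP n).filter (fun m => m < b) = insert a ((sd n a b).filter (fun m => m < b)) := by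
    ext m
    simp only [sd, Finset.mem_filter, Finset.mem_erase, Finset.mem_insert]
    constructor
    · rintro ⟨h4, h5⟩
      by_cases h6 : m = a
      · exact Or.inl h6
      · exact Or.inr ⟨⟨by omega, h6, h4⟩, h5⟩
    · rintro (h4 | ⟨⟨_, _, h4⟩, h5⟩)
      · rw [h4]; exact ⟨ha, hab⟩
      · exact ⟨h4, h5⟩
  have e3 : a ∉ (sd n a b).filter (fun m => m < b) := by
    simp [sd]
  rw [W_eq n δ q u hb, e1, e2, Finset.sum_insert e3, h1, h2, h3]
  refine ⟨Z1 + PowerSeries.C (δ * q) * (Z2 - Z3), ?_⟩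
  unfold Cc
  rw [map_add, map_mul (TS (-(b : ℚ))), TS_C, map_sub]
  ring

lemma coeff_res (a b : ℕ) (F G : ℚ[X]) (c : ℚ) (Z Z' W : PowerSeries ℚ)
    (hW : W = TS (-(a : ℚ)) G + PowerSeries.C c * iv ((b : ℚ) - a) + PowerSeries.X ^ 99 * Z') :
    PowerSeries.coeff 98 ((TS (-(a : ℚ)) F * iv ((b : ℚ) - a) ^ 99 + PowerSeries.X ^ 99 * Z) * W) =
      rs a b 99 (F * G) + c * rs a b 100 (F * sit a) := by
  have h1 : (TS (-(a : ℚ)) F * iv ((b : ℚ) - a) ^ 99 + PowerSeries.X ^ 99 * Z) * W =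
      TS (-(a : ℚ)) (F * G) * iv ((b : ℚ) - a) ^ 99 + PowerSeries.C c * (TS (-(a : ℚ)) F * iv ((b : ℚ) - a) ^ (99 + 1)) +
        PowerSeries.X ^ 99 * (Z * W + TS (-(a : ℚ)) F * iv ((b : ℚ) - a) ^ 99 * Z') := by
    rw [map_mul (TS (-(a : ℚ))) F G, pow_succ]
    generalize iv ((b : ℚ) - a) ^ 99 = Y1
    generalize (PowerSeries.X : PowerSeries ℚ) ^ 99 = Y2 at *
    rw [add_mul]
    conv_lhs => rw [hW]
    conv_rhs => rw [hW]
    ring
  rw [h1, map_add, map_add, PowerSeries.coeff_C_mul, PowerSeries.coeff_X_pow_mul', if_neg (by norm_num), add_zero]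
  congr 1
  congr 1
  unfold rs
  rw [map_mul (TS (-(a : ℚ))), TS_sit_self, mul_comm (TS (-(a : ℚ)) F) PowerSeries.X, mul_assoc]
  show _ = PowerSeries.coeff (98 + 1) (PowerSeries.X * _)
  rw [PowerSeries.coeff_succ_X_mul]

end

/-! ### the difference of the two polynomials -/

lemma Up_sub (q : ℕ) (u : ℕ → ℚ) {p a b : ℕ} (hb : b = a + p) :
    Up q u b - Up q u a = (sit a + sit b) * (C (p : ℚ) * U2 q u a b) := by
  unfold Up U2
  rw [← Finset.sum_sub_distrib, Finset.mul_sum, Finset.mul_sum]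
  apply Finset.sum_congr rfl
  intro j _
  rcases Nat.even_or_odd' j with ⟨l, rfl | rfl⟩
  · rw [show 2 * l / 2 = l by omega, pow_mul, pow_mul]
    have h1 := geom_sum₂_mul (sit b ^ 2) (sit a ^ 2) l
    have h2 : sit b ^ 2 - sit a ^ 2 = C (p : ℚ) * (sit a + sit b) := by
      have h3 : sit b = sit a + C (p : ℚ) := by
        unfold sit
        rw [hb, add_assoc, ← map_add]
        push_cast
        rfl
      rw [h3]
      ring
    rw [h2] at h1
    linear_combination (-C ((1 + ((-1) ^ 2) ^ l) * ((q : ℚ) * u (2 * l + 1)))) * h1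
  · have h0 : (1 + (-1 : ℚ) ^ (2 * l + 1)) = 0 := by
      rw [pow_succ, pow_mul]; norm_num
    rw [h0]
    simp

lemma E_pair {p a b m : ℕ} (hm : m ≤ a + b) {D A1 A2 E1 E2 : ℚ[X]} (h1 : A1 * D + E1 * sit m = 1)
    (h2 : A2 * D + E2 * sit (a + b - m) = 1) :
    E1 + E2 = (sit a + sit b) * (E1 * E2) + D * (E1 * A2 + E2 * A1) := by
  have h3 : sit m + sit (a + b - m) = sit a + sit b := by
    unfold sit
    rw [Nat.cast_sub hm]
    push_cast
    simp only [map_sub, map_add]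
    ring
  rw [← h3]
  linear_combination (-E1) * h2 + (-E2) * h1

lemma Cc_sub {n p a b : ℕ} (ha : a ∈ sP n) (hb : b ∈ sP n) (hbp : b = a + p) (hp0 : 0 < p) (δ : ℚ) (q : ℕ)
    (u : ℕ → ℚ) {E A : ℕ → ℚ[X]} {N : ℕ}
    (hE : ∀ m ∈ sd n a b, A m * (sit a * sit b) ^ N + E m * sit m = 1) :
    ∃ Z : ℚ[X], Cc n a b δ q u E b - Cc n a b δ q u E a = (sit a + sit b) * (C (p : ℚ) * U2 q u a b +
      C (δ * q) * ∑ m ∈ Finset.Ioo a b, E m * E (a + b - m)) + (sit a * sit b) ^ N * Z := by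
  have haa := Finset.mem_Icc.1 ha
  have hbb := Finset.mem_Icc.1 hb
  have e1 : ∑ m ∈ (sd n a b).filter (fun m => m < b), E m =
      ∑ m ∈ (sd n a b).filter (fun m => m < a), E m + ∑ m ∈ Finset.Ioo a b, E m := by
    rw [← Finset.sum_union]
    · apply Finset.sum_congr _ (fun _ _ => rfl)
      ext m
      simp only [sd, Finset.mem_filter, Finset.mem_erase, Finset.mem_union, Finset.mem_Ioo, Finset.mem_Icc]
      omega
    · rw [Finset.disjoint_left]
      intro m h1 h2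
      rw [Finset.mem_filter] at h1
      rw [Finset.mem_Ioo] at h2
      omega
  have e2 : ∑ m ∈ (sd n a b).filter (fun m => a < m), E m =
      ∑ m ∈ (sd n a b).filter (fun m => b < m), E m + ∑ m ∈ Finset.Ioo a b, E m := by
    rw [← Finset.sum_union]
    · apply Finset.sum_congr _ (fun _ _ => rfl)
      ext m
      simp only [sd, Finset.mem_filter, Finset.mem_erase, Finset.mem_union, Finset.mem_Ioo, Finset.mem_Icc]
      omega
    · rw [Finset.disjoint_left]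
      intro m h1 h2
      rw [Finset.mem_filter] at h1
      rw [Finset.mem_Ioo] at h2
      omega
  have e3 : ∑ m ∈ Finset.Ioo a b, E m = ∑ m ∈ Finset.Ioo a b, E (a + b - m) := by
    apply Finset.sum_bij (fun m _ => a + b - m)
    · intro m hm
      rw [Finset.mem_Ioo] at hm ⊢
      omega
    · intro m1 h1 m2 h2 h
      rw [Finset.mem_Ioo] at h1 h2
      omega
    · intro m hm
      rw [Finset.mem_Ioo] at hm
      exact ⟨a + b - m, by rw [Finset.mem_Ioo]; omega, by omega⟩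
    · intro m hm
      rw [Finset.mem_Ioo] at hm
      rw [show a + b - (a + b - m) = m by omega]
  have e4 : ∑ m ∈ Finset.Ioo a b, E m + ∑ m ∈ Finset.Ioo a b, E m =
      (sit a + sit b) * (∑ m ∈ Finset.Ioo a b, E m * E (a + b - m)) + (sit a * sit b) ^ N *
        ∑ m ∈ Finset.Ioo a b, (E m * A (a + b - m) + E (a + b - m) * A m) := by
    conv_lhs => rw [e3]
    conv_lhs => enter [1]; rw [← e3]
    rw [← Finset.sum_add_distrib, Finset.mul_sum, Finset.mul_sum, ← Finset.sum_add_distrib]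
    apply Finset.sum_congr rfl
    intro m hm
    rw [Finset.mem_Ioo] at hm
    have hm1 : m ∈ sd n a b := by
      simp only [sd, Finset.mem_erase, Finset.mem_Icc]
      omega
    have hm2 : a + b - m ∈ sd n a b := by
      simp only [sd, Finset.mem_erase, Finset.mem_Icc]
      omega
    exact E_pair (p := p) (by omega) (hE m hm1) (hE (a + b - m) hm2)
  have e5 := Up_sub q u hbp
  refine ⟨C (δ * q) * ∑ m ∈ Finset.Ioo a b, (E m * A (a + b - m) + E (a + b - m) * A m), ?_⟩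
  unfold Cc
  rw [e1, e2]
  linear_combination e5 + (C (δ * q)) * e4

lemma Cc_sub' {n p a b : ℕ} (ha : a ∈ sP n) (hb : b ∈ sP n) (hbp : b = a + p) (hp0 : 0 < p) (δ : ℚ) (q : ℕ)
    (u : ℕ → ℚ) {E A : ℕ → ℚ[X]} {N : ℕ} {D : ℚ[X]} (hD : D = (sit a * sit b) ^ N)
    (hE : ∀ m ∈ sd n a b, A m * D + E m * sit m = 1) :
    ∃ Y2 Z : ℚ[X], GG p a b δ q u E = C (δ * q) + (sit a * sit b) * Y2 ∧
      Cc n a b δ q u E b - Cc n a b δ q u E a = (sit a + sit b) * Y2 + D * Z := by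
  rw [hD] at hE ⊢
  obtain ⟨Z, hZ⟩ := Cc_sub ha hb hbp hp0 δ q u hE
  refine ⟨C (p : ℚ) * U2 q u a b + C (δ * q) * ∑ m ∈ Finset.Ioo a b, E m * E (a + b - m), Z, ?_, hZ⟩
  unfold GG
  congr 1

lemma W_a' {n a b : ℕ} (ha : a ∈ sP n) (hb : b ∈ sP n) (hab : a < b) (δ : ℚ) (q : ℕ) (u : ℕ → ℚ)
    {E A : ℕ → ℚ[X]} {N : ℕ} (hN : 99 ≤ N) {D : ℚ[X]} (hD : D = (sit a * sit b) ^ N)
    (hE : ∀ m ∈ sd n a b, A m * D + E m * sit m = 1) :
    ∃ Z : PowerSeries ℚ, Wk n δ q u a = TS (-(a : ℚ)) (Cc n a b δ q u E a) +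
      PowerSeries.C (-(δ * q)) * iv ((b : ℚ) - a) + PowerSeries.X ^ 99 * Z := by
  rw [hD] at hE
  obtain ⟨Z, hZ⟩ := W_a ha hb hab δ q u hN hE
  refine ⟨Z, ?_⟩
  rw [hZ, map_neg]
  generalize (PowerSeries.X : PowerSeries ℚ) ^ 99 = Y
  ring

lemma W_b' {n a b : ℕ} (ha : a ∈ sP n) (hb : b ∈ sP n) (hab : a < b) (δ : ℚ) (q : ℕ) (u : ℕ → ℚ)
    {E A : ℕ → ℚ[X]} {N : ℕ} (hN : 99 ≤ N) {D : ℚ[X]} (hD : D = (sit a * sit b) ^ N)
    (hE : ∀ m ∈ sd n a b, A m * D + E m * sit m = 1) :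
    ∃ Z : PowerSeries ℚ, Wk n δ q u b = TS (-(b : ℚ)) (Cc n a b δ q u E b) +
      PowerSeries.C (δ * q) * iv ((a : ℚ) - b) + PowerSeries.X ^ 99 * Z := by
  rw [hD] at hE
  exact W_b ha hb hab δ q u hN hE

/-- the algebraic part of the identity -/
lemma key_id {a b : ℕ} (hne : a ≠ b) (F Ca Cb Y2 Z5 D : ℚ[X]) (hD : D = (sit a * sit b) ^ 100)
    (h : Cb - Ca = (sit a + sit b) * Y2 + D * Z5) :
    rs b a 99 (F * Cb) = rs b a 99 (F * Ca) + rs b a 100 (F * (sit a + sit b) * ((sit a * sit b) * Y2)) := by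
  have e1 : F * Cb = F * Ca + F * ((sit a + sit b) * Y2 + D * Z5) := by
    rw [← h]; ring
  rw [e1, rs_add]
  congr 1
  have h1 := rs_raise hne.symm 99 (by norm_num) (F * ((sit a + sit b) * Y2 + D * Z5))
  rw [← h1]
  have e2 : F * ((sit a + sit b) * Y2 + D * Z5) * (sit b * sit a) =
      F * (sit a + sit b) * ((sit a * sit b) * Y2) +
        sit b ^ 100 * (F * sit a ^ 100 * Z5 * (sit b * sit a)) := by
    rw [hD, mul_pow]
    generalize sit a ^ 100 = T1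
    generalize sit b ^ 100 = T2
    ring
  rw [e2, rs_add, rs_kill b a 100 (by norm_num), add_zero]

end P1_

end

end Pool.Agent.L0h38.Q4
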