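import Pool.Agent.L0h38.Q4.P1c
import Pool.Agent.L0h38.Q4.P2

/-!
# P1, part d: the main estimate for a pair of classes; level conditions for the columns
-/

open Polynomial Pool.Agent.H337R2

namespace Pool.Agent.L0h38.Q4

noncomputable section

namespace P1_

set_option linter.unusedSectionVars false
set_option linter.unusedVariables false

variable {p : ℕ} [hp : Fact p.Prime]

lemma sum_mem_IP {ι : Type*} (s : Finset ι) (f : ι → ℚ[X]) (h : ∀ i ∈ s, f i ∈ IP p) : ∑ i ∈ s, f i ∈ IP p :=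
  sum_mem h

lemma norm_two_le : padicNorm p (2 : ℚ) ≤ 1 := by
  have := padicNorm.of_int (p := p) 2
  push_cast at this
  exact this

lemma coef_norm (j : ℕ) {x : ℚ} (hx : padicNorm p x ≤ 1) : padicNorm p ((1 + (-1) ^ j) * x) ≤ 1 := by
  rcases neg_one_pow_eq_or ℚ j with h | h <;> rw [h]
  · rw [show (1 + 1 : ℚ) = 2 by norm_num, padicNorm.mul]
    exact mul_le_one₀ norm_two_le (padicNorm.nonneg _) hx
  · simp

lemma Up_mem {q : ℕ} {u : ℕ → ℚ} (hu : ∀ i, padicNorm p ((q : ℚ) * u i) ≤ 1) (c : ℕ) : Up q u c ∈ IP p := by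
  unfold Up
  apply sum_mem_IP
  intro j _
  exact mul_mem (C_mem (coef_norm j (hu _))) (pow_mem (sit_mem c) _)

lemma U2_mem {q : ℕ} {u : ℕ → ℚ} (hu : ∀ i, padicNorm p ((q : ℚ) * u i) ≤ 1) (a b : ℕ) : U2 q u a b ∈ IP p := by
  unfold U2
  apply sum_mem_IP
  intro j _
  refine mul_mem (C_mem (coef_norm j (hu _))) (sum_mem_IP _ _ fun l _ => ?_)
  exact mul_mem (pow_mem (pow_mem (sit_mem b) _) _) (pow_mem (pow_mem (sit_mem a) _) _)

lemma Cc_mem {n a b q : ℕ} {δ : ℚ} {u : ℕ → ℚ} {E : ℕ → ℚ[X]} (hE : ∀ m, E m ∈ IP p)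
    (hδ : padicNorm p (δ * q) ≤ 1) (hu : ∀ i, padicNorm p ((q : ℚ) * u i) ≤ 1) (c : ℕ) :
    Cc n a b δ q u E c ∈ IP p := by
  unfold Cc
  refine add_mem (Up_mem hu c) (mul_mem (C_mem hδ) (sub_mem ?_ ?_))
  · exact sum_mem_IP _ _ fun m _ => hE m
  · exact sum_mem_IP _ _ fun m _ => hE m

lemma GG_mem {a b q : ℕ} {δ : ℚ} {u : ℕ → ℚ} {E : ℕ → ℚ[X]} (hE : ∀ m, E m ∈ IP p)
    (hδ : padicNorm p (δ * q) ≤ 1) (hu : ∀ i, padicNorm p ((q : ℚ) * u i) ≤ 1) :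
    GG p a b δ q u E ∈ IP p := by
  unfold GG
  refine add_mem (C_mem hδ) (mul_mem (mul_mem (sit_mem a) (sit_mem b)) (add_mem ?_ ?_))
  · exact mul_mem (C_mem (padicNorm.of_nat p)) (U2_mem hu a b)
  · exact mul_mem (C_mem hδ) (sum_mem_IP _ _ fun m _ => mul_mem (hE _) (hE _))

/-- the numerator is divisible by `p^99` -/
lemma PPV {n : ℕ} (h1 : p ≤ 2 * n - 1) {V : ℚ[X]} (hV : V ∈ IP p) :
    ∃ U ∈ IP p, PP n * V = C ((p : ℚ) ^ 99) * U := by
  obtain ⟨f, hf⟩ := (Nat.Prime.dvd_factorial hp.out).2 h1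
  have h2 : (C (((2 * n - 1).factorial : ℚ) ^ 99) : ℚ[X]) = C ((p : ℚ) ^ 99) * C ((f : ℚ) ^ 99) := by
    rw [hf, Nat.cast_mul, mul_pow, map_mul]
  refine ⟨C ((f : ℚ) ^ 99) * (2 * X + C ((2 * n + 1 : ℕ) : ℚ)) ^ 401 * V, ?_, ?_⟩
  · refine mul_mem (mul_mem (C_mem (norm_pow_le (padicNorm.of_nat f) _)) (pow_mem (add_mem ?_ ?_) _)) hV
    · exact mul_mem (by
        have : (C (2 : ℚ) : ℚ[X]) ∈ IP p := C_mem norm_two_le
        rwa [map_ofNat] at this) X_mem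
    · exact C_mem (padicNorm.of_nat _)
  · unfold PP
    rw [h2]
    generalize (2 * X + C ((2 * n + 1 : ℕ) : ℚ)) ^ 401 = Y
    rw [mul_assoc, mul_assoc, mul_assoc]

lemma norm_p_pow (N : ℕ) : padicNorm p ((p : ℚ) ^ N) = (p : ℚ)⁻¹ ^ N := by
  have h : ∀ N : ℕ, padicNorm p ((p : ℚ) ^ N) = (padicNorm p (p : ℚ)) ^ N := by
    intro N
    induction N with
    | zero => simp
    | succ N ih => rw [pow_succ, pow_succ, padicNorm.mul, ih]
  rw [h, padicNorm.padicNorm_p hp.out.one_lt]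

/-- the main identity for a pair of classes -/
theorem pair_main {n a b : ℕ} (ha : a ∈ sP n) (hb : b ∈ sP n) (hbp : b = a + p) (h2n : n < p) :
    ∃ U ∈ IP p, ∃ E : ℕ → ℚ[X], (∀ m, E m ∈ IP p) ∧ ∀ (δ : ℚ) (q : ℕ) (u : ℕ → ℚ),
      padicNorm p (δ * q) ≤ 1 → (∀ i, padicNorm p ((q : ℚ) * u i) ≤ 1) → ∀ F ∈ IP p,
      (PP n * F).comp (-X - C ((2 * n + 1 : ℕ) : ℚ)) = -(PP n * F) →
      padicNorm p ((tk n δ q u (PP n * F) a + tk n δ q u (PP n * F) (2 * n + 1 - a)) +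
        (tk n δ q u (PP n * F) b + tk n δ q u (PP n * F) (2 * n + 1 - b)) -
        (p : ℚ) ^ 99 * rs b a 100 (U * F * (sit a + sit b) * GG p a b δ q u E)) ≤ (p : ℚ)⁻¹ ^ 99 := by
  have hp0 : 0 < p := hp.out.pos
  have haa := Finset.mem_Icc.1 ha
  have hbb := Finset.mem_Icc.1 hb
  have hab : a < b := by omega
  have hne : a ≠ b := by omega
  have hsd : ∀ m ∈ sd n a b, ¬ (p : ℤ) ∣ (a : ℤ) - m ∧ ¬ (p : ℤ) ∣ (b : ℤ) - m := by
    intro m hm
    simp only [sd, Finset.mem_erase, Finset.mem_Icc] at hm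
    have h1 : ¬ (p : ℤ) ∣ (a : ℤ) - m := by
      rintro ⟨c, hc⟩
      have h3 : c ≠ 0 := by
        rintro rfl
        omega
      rcases lt_or_gt_of_ne h3 with h4 | h4
      · by_cases h5 : c = -1
        · subst h5; omega
        · have h6 : c ≤ -2 := by omega
          have h7 : (p : ℤ) * c ≤ p * (-2) := mul_le_mul_of_nonneg_left h6 (by positivity)
          omega
      · have h7 : (p : ℤ) * 1 ≤ p * c := mul_le_mul_of_nonneg_left h4 (by positivity)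
        omega
    refine ⟨h1, ?_⟩
    intro h
    apply h1
    have h3 : (a : ℤ) - m = ((b : ℤ) - m) - p := by rw [hbp]; push_cast; ring
    rw [h3]
    exact dvd_sub h dvd_rfl
  obtain ⟨D, hD⟩ : ∃ D : ℚ[X], D = (sit a * sit b) ^ 100 := ⟨_, rfl⟩
  obtain ⟨A0, hA0, V, hV, eV⟩ := bez (p := p) (a := a) (b := b) (sd n a b) (fun m hm => (hsd m hm).1)
    (fun m hm => (hsd m hm).2) 100 99
  rw [← hD] at eV
  have hEx : ∀ m, ∃ A E : ℚ[X], E ∈ IP p ∧ (m ∈ sd n a b → A * D + E * sit m = 1) := by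
    intro m
    by_cases hm : m ∈ sd n a b
    · obtain ⟨A, hA, E, hE, e⟩ := bez (p := p) (a := a) (b := b) {m}
        (fun m' hm' => by rw [Finset.mem_singleton] at hm'; rw [hm']; exact (hsd m hm).1)
        (fun m' hm' => by rw [Finset.mem_singleton] at hm'; rw [hm']; exact (hsd m hm).2) 100 1
      rw [Finset.prod_singleton, pow_one, ← hD] at e
      exact ⟨A, E, hE, fun _ => e⟩
    · exact ⟨0, 0, zero_mem _, fun h => absurd h hm⟩
  choose A E hE eE using hEx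
  obtain ⟨U, hU, eU⟩ := PPV (p := p) (n := n) (by omega) hV
  refine ⟨U, hU, E, hE, ?_⟩
  intro δ q u hδ hu F hF hsym
  have ePV : PP n * F * V = C ((p : ℚ) ^ 99) * (U * F) := by
    rw [mul_right_comm, eU, mul_assoc]
  have hD' : D = (sit b * sit a) ^ 100 := by rw [hD, mul_comm (sit b) (sit a)]
  have hsd1 : sd n a b = ((sP n).erase a).erase b := by unfold sd; rfl
  have hsd2 : sd n a b = ((sP n).erase b).erase a := by
    rw [hsd1]; exact Finset.erase_right_comm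
  obtain ⟨Z1, hZ1⟩ := red' (s := sP n) hb hne (by norm_num : 99 ≤ 100) (sd n a b) hsd1 hD eV (PP n * F) _ ePV
  obtain ⟨Z2, hZ2⟩ := red' (s := sP n) ha hne.symm (by norm_num : 99 ≤ 100) (sd n a b) hsd2 hD' eV (PP n * F) _ ePV
  obtain ⟨Z3, hZ3⟩ := W_a' ha hb hab δ q u (by norm_num : 99 ≤ 100) hD eE
  obtain ⟨Z4, hZ4⟩ := W_b' ha hb hab δ q u (by norm_num : 99 ≤ 100) hD eE
  obtain ⟨Y2, Z5, hGG, hZ5⟩ := Cc_sub' ha hb hbp hp0 δ q u hD eE
  rw [pair_eq n δ q u _ hsym ha, pair_eq n δ q u _ hsym hb, hZ1, hZ2]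
  rw [coeff_res a b _ _ _ Z1 Z3 _ hZ3, coeff_res b a _ _ _ Z2 Z4 _ hZ4]
  have ha1 : ∀ G : ℚ[X], C ((p : ℚ) ^ 99) * (U * F) * G = C ((p : ℚ) ^ 99) * (U * F * G) := fun G => mul_assoc _ _ _
  rw [ha1, ha1, ha1, ha1, rs_C_mul, rs_C_mul, rs_C_mul, rs_C_mul]
  -- the identity
  have k1 := key_id hne (U * F) _ _ Y2 Z5 D hD hZ5
  have k2 : rs b a 100 (U * F * (sit a + sit b) * GG p a b δ q u E) =
      (δ * q) * (rs b a 100 (U * F * sit a) + rs b a 100 (U * F * sit b)) +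
      rs b a 100 (U * F * (sit a + sit b) * ((sit a * sit b) * Y2)) := by
    have t1 : rs b a 100 (U * F * (sit a + sit b) * C (δ * q)) =
        (δ * q) * (rs b a 100 (U * F * sit a) + rs b a 100 (U * F * sit b)) := by
      rw [mul_comm _ (C (δ * q)), rs_C_mul, mul_add, rs_add]
    rw [hGG, mul_add (U * F * (sit a + sit b)), rs_add, t1]
  have hUF : U * F ∈ IP p := mul_mem hU hF
  have i1 := rs_int (p := p) hne 99 (by norm_num) (mul_mem hUF (Cc_mem (n := n) (a := a) (b := b) hE hδ hu a))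
  have i2 := rs_int (p := p) hne 100 (by norm_num) (mul_mem hUF (sit_mem (p := p) a))
  rw [k1, k2]
  generalize rs b a 100 (U * F * (sit a + sit b) * ((sit a * sit b) * Y2)) = r1 at *
  generalize rs b a 100 (U * F * sit b) = r2 at *
  generalize rs a b 100 (U * F * sit a) = r3 at *
  generalize rs b a 100 (U * F * sit a) = r4 at *
  generalize rs a b 99 (U * F * Cc n a b δ q u E a) = r5 at *
  generalize rs b a 99 (U * F * Cc n a b δ q u E a) = r6 at *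
  have hfin : ((p : ℚ) ^ 99 * r5 + -(δ * ↑q) * ((p : ℚ) ^ 99 * r3) +
      ((p : ℚ) ^ 99 * (r6 + r1) + δ * ↑q * ((p : ℚ) ^ 99 * r2)) -
      (p : ℚ) ^ 99 * (δ * ↑q * (r4 + r2) + r1)) =
      (p : ℚ) ^ 99 * ((r5 + r6) - (δ * q) * (r3 + r4)) := by
    generalize (p : ℚ) ^ 99 = P
    ring
  rw [hfin, padicNorm.mul, norm_p_pow]
  have hle : padicNorm p ((r5 + r6) - (δ * q) * (r3 + r4)) ≤ 1 := by
    refine padicNorm.sub.trans (max_le i1 ?_)
    rw [padicNorm.mul]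
    exact mul_le_one₀ hδ (padicNorm.nonneg _) i2
  calc (p : ℚ)⁻¹ ^ 99 * _ ≤ (p : ℚ)⁻¹ ^ 99 * 1 := mul_le_mul_of_nonneg_left hle (by positivity)
    _ = _ := mul_one _

end P1_

end

end Pool.Agent.L0h38.Q4
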