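import Pool.Agent.L0h38.Q4.P1d

/-!
# P1, part e: levels, one-pole classes, the self-mirrored class
-/

open Polynomial Pool.Agent.H337R2

namespace Pool.Agent.L0h38.Q4

noncomputable section

namespace P1_

set_option linter.unusedSectionVars false
set_option linter.unusedVariables false

variable {p : ℕ} [hp : Fact p.Prime]

lemma xP_comp (n : ℕ) : (xP n).comp (-X - C ((2 * n + 1 : ℕ) : ℚ)) = xP n := by
  have h1 : (C ((2 * n + 1 : ℕ) : ℚ) : ℚ[X]) = C (n : ℚ) + C ((n + 1 : ℕ) : ℚ) := by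
    rw [← map_add]
    congr 1
    push_cast
    ring
  unfold xP
  rw [h1]
  simp only [Polynomial.mul_comp, Polynomial.add_comp, Polynomial.X_comp, Polynomial.C_comp]
  ring

lemma PP_comp (n : ℕ) : (PP n).comp (-X - C ((2 * n + 1 : ℕ) : ℚ)) = -PP n := by
  unfold PP
  rw [Polynomial.mul_comp, Polynomial.C_comp, Polynomial.pow_comp]
  have h1 : (2 * X + C ((2 * n + 1 : ℕ) : ℚ) : ℚ[X]).comp (-X - C ((2 * n + 1 : ℕ) : ℚ)) =
      -(2 * X + C ((2 * n + 1 : ℕ) : ℚ)) := by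
    simp only [Polynomial.add_comp, Polynomial.mul_comp, Polynomial.X_comp, Polynomial.C_comp,
      Polynomial.ofNat_comp]
    ring
  rw [h1, Odd.neg_pow (by norm_num), mul_neg]

lemma P_comp (n : ℕ) (Q : ℚ[X]) :
    (PP n * Q.comp (xP n)).comp (-X - C ((2 * n + 1 : ℕ) : ℚ)) = -(PP n * Q.comp (xP n)) := by
  rw [Polynomial.mul_comp, PP_comp, Polynomial.comp_assoc, xP_comp, neg_mul]

/-! ### integrality -/

lemma XC_PB (c : ℕ) : PB p 1 1 (PowerSeries.X + PowerSeries.C (-(c : ℚ))) := by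
  apply PB.linX zero_le_one zero_le_one _ (by norm_num)
  have := padicNorm.of_int (p := p) (-(c : ℤ))
  push_cast at this
  exact this

/-- expansions of `p`-integral polynomials -/
lemma IP_PB {f : ℚ[X]} (hf : f ∈ IP p) (c : ℕ) : PB p 1 1 (TS (-(c : ℚ)) f) := by
  have h1 : TS (-(c : ℚ)) f = ∑ j ∈ Finset.range (f.natDegree + 1), PowerSeries.C (f.coeff j) *
      (PowerSeries.X + PowerSeries.C (-(c : ℚ))) ^ j := by
    conv_lhs => rw [f.as_sum_range_C_mul_X_pow]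
    rw [map_sum]
    apply Finset.sum_congr rfl
    intro j _
    rw [map_mul (TS (-(c : ℚ))), map_pow (TS (-(c : ℚ))), TS_C, TS_X]
  rw [h1]
  apply LV.PB_sum zero_le_one zero_le_one
  intro j _
  have h2 := PB.pow zero_le_one zero_le_one (XC_PB (p := p) c) j
  have h3 := PB.mul zero_le_one zero_le_one (by positivity) (PB.C zero_le_one zero_le_one (hf j)) h2
  simpa using h3

lemma PB_up {A : ℚ} (hA : 0 ≤ A) {f : PowerSeries ℚ} (h : PB p 1 A f) : PB p (p : ℚ) A f := by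
  intro j
  refine (h j).trans ?_
  rw [one_pow]
  exact mul_le_mul_of_nonneg_left (one_le_pow₀ p_one') hA

lemma map_mem (Q : ℤ[X]) : Q.map (Int.castRingHom ℚ) ∈ IP p := by
  intro j
  rw [coeff_map]
  exact padicNorm.of_int _

lemma xP_mem (n : ℕ) : xP n ∈ IP p := mul_mem (sit_mem n) (sit_mem (n + 1))

lemma comp_mem {f g : ℚ[X]} (hf : f ∈ IP p) (hg : g ∈ IP p) : f.comp g ∈ IP p := by
  rw [comp_eq_sum_left]
  unfold Polynomial.sum
  apply sum_mem_IP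
  intro j _
  exact mul_mem (C_mem (hf j)) (pow_mem hg _)

/-! ### the level of the residue -/

lemma two_sit {a b : ℕ} (hbp : b = a + p) : PB p (p : ℚ) (p : ℚ)⁻¹ (TS (-(b : ℚ)) (sit a + sit b)) := by
  have hp0 : (0 : ℚ) < p := p_pos'
  have hinv : (0 : ℚ) ≤ (p : ℚ)⁻¹ := inv_nonneg.2 hp0.le
  have h1 : TS (-(b : ℚ)) (sit a + sit b) = PowerSeries.C 2 * PowerSeries.X + PowerSeries.C (-(p : ℚ)) := by
    rw [map_add, TS_sit, TS_sit_self]
    have h2 : (a : ℚ) - b = -(p : ℚ) := by rw [hbp]; push_cast; ring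
    have h3 : (PowerSeries.C (2 : ℚ) : PowerSeries ℚ) = 2 := by
      rw [map_ofNat]
    rw [h2, h3]
    ring
  rw [h1]
  apply PB.lin hp0.le hinv
  · rw [padicNorm.neg, padicNorm.padicNorm_p hp.out.one_lt]
  · rw [inv_mul_cancel₀ hp0.ne']
    exact norm_two_le

lemma iv_level {a b : ℕ} (hbp : b = a + p) : PB p (p : ℚ) (p : ℚ) (iv ((a : ℚ) - b)) := by
  have hp0 : (0 : ℚ) < p := p_pos'
  have h2 : (a : ℚ) - b = -(p : ℚ) := by rw [hbp]; push_cast; ring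
  rw [h2]
  have h3 : (padicNorm p (-(p : ℚ)))⁻¹ = p := by
    rw [padicNorm.neg, padicNorm.padicNorm_p hp.out.one_lt, inv_inv]
  apply PB.iv (neg_ne_zero.2 hp0.ne') h3.le h3.le

/-- the residue of a product of level 198 -/
lemma rs_level {a b : ℕ} (hbp : b = a + p) {U Q T : ℚ[X]} (hU : U ∈ IP p)
    (hQ : PB p (p : ℚ) ((p : ℚ)⁻¹ ^ 99) (TS (-(b : ℚ)) Q)) (hT : PB p (p : ℚ) ((p : ℚ)⁻¹ ^ 99) (TS (-(b : ℚ)) T)) :
    padicNorm p (rs b a 100 (U * Q * (sit a + sit b) * T)) ≤ 1 := by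
  have hp0 : (0 : ℚ) < p := p_pos'
  have hinv : (0 : ℚ) ≤ (p : ℚ)⁻¹ := inv_nonneg.2 hp0.le
  have h99 : (0 : ℚ) ≤ (p : ℚ)⁻¹ ^ 99 := by positivity
  have h1 := PB.mul hp0.le zero_le_one h99 (PB_up zero_le_one (IP_PB hU b)) hQ
  have h2 := PB.mul hp0.le (mul_nonneg zero_le_one h99) hinv h1 (two_sit (p := p) hbp)
  have h3 := PB.mul hp0.le (mul_nonneg (mul_nonneg zero_le_one h99) hinv) h99 h2 hT
  have h4 := PB.pow hp0.le hp0.le (iv_level (p := p) hbp) 100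
  have h5 := PB.mul hp0.le (mul_nonneg (mul_nonneg (mul_nonneg zero_le_one h99) hinv) h99) (by positivity) h3 h4
  rw [← map_mul, ← map_mul, ← map_mul] at h5
  have h6 := h5 99
  unfold rs
  refine h6.trans (le_of_eq ?_)
  have e1 : (p : ℚ) ^ 100 = (p : ℚ) * (p : ℚ) ^ 99 := by rw [← pow_succ']
  have e2 : (p : ℚ)⁻¹ ^ 99 * (p : ℚ) ^ 99 = 1 := by rw [← mul_pow, inv_mul_cancel₀ hp0.ne', one_pow]
  have e3 : (p : ℚ)⁻¹ * (p : ℚ) = 1 := inv_mul_cancel₀ hp0.ne'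
  rw [e1]
  generalize (p : ℚ) ^ 99 = x at *
  generalize (p : ℚ)⁻¹ ^ 99 = y at *
  generalize (p : ℚ)⁻¹ = z at *
  calc 1 * y * z * y * ((p : ℚ) * x) * x = (y * x) * (y * x) * (z * p) := by ring
    _ = 1 := by rw [e2, e3]; norm_num

/-! ### approximation by integers and the level conditions for the columns -/

lemma approx (N : ℕ) {x : ℚ} (hx : padicNorm p x ≤ 1) : ∃ z : ℤ, padicNorm p (x - z) ≤ (p : ℚ)⁻¹ ^ N := by
  have hden : ¬ p ∣ x.den := by
    intro h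
    have h1 : ¬ (p : ℤ) ∣ x.num := by
      intro h2
      have h3 : p ∣ x.num.natAbs := Int.natCast_dvd.1 h2
      have h4 := Nat.dvd_gcd h3 h
      rw [x.reduced] at h4
      exact hp.out.one_lt.ne' (Nat.dvd_one.1 h4)
    have h5 := (padicNorm.int_eq_one_iff (p := p) x.num).2 h1
    have h6 := (padicNorm.nat_lt_one_iff (p := p) x.den).2 h
    have h7 : padicNorm p x * padicNorm p (x.den : ℚ) = 1 := by
      rw [← padicNorm.mul, Rat.mul_den_eq_num, h5]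
    have h8 : padicNorm p x * padicNorm p (x.den : ℚ) ≤ 1 * padicNorm p (x.den : ℚ) :=
      mul_le_mul_of_nonneg_right hx (padicNorm.nonneg _)
    linarith
  have hcop : IsCoprime (x.den : ℤ) ((p : ℤ) ^ N) := by
    have h1 : Nat.Coprime x.den (p ^ N) := ((Nat.Prime.coprime_iff_not_dvd hp.out).2 hden).symm.pow_right N
    have h2 := Nat.isCoprime_iff_coprime.2 h1
    push_cast at h2
    exact h2
  obtain ⟨u, v, e⟩ := hcop
  refine ⟨x.num * u, ?_⟩
  have hd1 : padicNorm p (x.den : ℚ) = 1 := (padicNorm.nat_eq_one_iff (p := p) x.den).2 hden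
  have hd0 : (x.den : ℚ) ≠ 0 := by exact_mod_cast x.den_ne_zero
  have e' : (u : ℚ) * x.den + v * (p : ℚ) ^ N = 1 := by exact_mod_cast e
  have h1 : (x - ((x.num * u : ℤ) : ℚ)) * x.den = ((x.num * v : ℤ) : ℚ) * (p : ℚ) ^ N := by
    have h2 := Rat.mul_den_eq_num x
    push_cast
    linear_combination h2 - (x.num : ℚ) * e'
  have h3 : padicNorm p (x - ((x.num * u : ℤ) : ℚ)) = padicNorm p (((x.num * v : ℤ) : ℚ) * (p : ℚ) ^ N) := by
    rw [← h1, padicNorm.mul, hd1, mul_one]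
  rw [h3, padicNorm.mul, norm_p_pow]
  calc _ ≤ 1 * (p : ℚ)⁻¹ ^ N := mul_le_mul_of_nonneg_right (padicNorm.of_int _) (pow_nonneg (inv_nonneg.2 p_pos'.le) _)
    _ = _ := one_mul _

/-- the polynomial of the columns -/
def TT (n m : ℕ) (G : Fin 3 → ℚ[X]) (v : Fin 3 × Fin m → ℤ) : ℚ[X] :=
  ∑ b : Fin 3, G b * ((P2.vc m b v).map (Int.castRingHom ℚ)).comp (xP n)

lemma TT_eq (n m : ℕ) (G : Fin 3 → ℚ[X]) (v : Fin 3 × Fin m → ℤ) :
    TT n m G v = ∑ c : Fin 3 × Fin m, C ((v c : ℤ) : ℚ) * (G c.1 * xP n ^ (c.2 : ℕ)) := by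
  unfold TT
  rw [Fintype.sum_prod_type]
  apply Finset.sum_congr rfl
  intro b _
  change G b * ((∑ j : Fin m, C (v (b, j)) * X ^ j.1).map (Int.castRingHom ℚ)).comp (xP n) = _
  rw [Polynomial.map_sum, Polynomial.sum_comp, Finset.mul_sum]
  apply Finset.sum_congr rfl
  intro j _
  simp only [Polynomial.map_mul, Polynomial.map_C, Polynomial.map_pow, Polynomial.map_X, Int.coe_castRingHom,
    Polynomial.mul_comp, Polynomial.C_comp, Polynomial.pow_comp, Polynomial.X_comp]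
  ring

theorem lev_hom (n m k : ℕ) (G : Fin 3 → ℚ[X]) (hG : ∀ b, G b ∈ IP p) :
    ∃ φ : (Fin 3 × Fin m → ℤ) →+ ((i : Fin 99) → ZMod (p ^ (99 - (i : ℕ)))), ∀ v, φ v = 0 →
      PB p (p : ℚ) ((p : ℚ)⁻¹ ^ 99) (TS (-(k : ℚ)) (TT n m G v)) := by
  have hp0 : (0 : ℚ) < p := p_pos'
  have hinv : (0 : ℚ) ≤ (p : ℚ)⁻¹ := inv_nonneg.2 hp0.le
  have hinv1 : (p : ℚ)⁻¹ ≤ 1 := inv_le_one_of_one_le₀ p_one'
  have hmem : ∀ c : Fin 3 × Fin m, G c.1 * xP n ^ (c.2 : ℕ) ∈ IP p := fun c => mul_mem (hG _) (pow_mem (xP_mem n) _)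
  have hap : ∀ (c : Fin 3 × Fin m) (i : ℕ), ∃ z : ℤ,
      padicNorm p (PowerSeries.coeff i (TS (-(k : ℚ)) (G c.1 * xP n ^ (c.2 : ℕ))) - z) ≤ (p : ℚ)⁻¹ ^ 99 := by
    intro c i
    apply approx
    have := IP_PB (hmem c) k i
    simpa using this
  choose z hz using hap
  let φ : (Fin 3 × Fin m → ℤ) →+ ((i : Fin 99) → ZMod (p ^ (99 - (i : ℕ)))) :=
    AddMonoidHom.mk' (fun v i => ((∑ c, v c * z c i : ℤ) : ZMod (p ^ (99 - (i : ℕ))))) (by
      intro v w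
      funext i
      simp only [Pi.add_apply, add_mul, Finset.sum_add_distrib]
      push_cast
      rfl)
  refine ⟨φ, ?_⟩
  intro v hv i
  have hco : PowerSeries.coeff i (TS (-(k : ℚ)) (TT n m G v)) = ∑ c : Fin 3 × Fin m, ((v c : ℤ) : ℚ) *
      PowerSeries.coeff i (TS (-(k : ℚ)) (G c.1 * xP n ^ (c.2 : ℕ))) := by
    rw [TT_eq, map_sum, map_sum]
    apply Finset.sum_congr rfl
    intro c _
    rw [map_mul (TS (-(k : ℚ))) (C _), TS_C, PowerSeries.coeff_C_mul]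
  by_cases hi : i < 99
  · have h1 : φ v ⟨i, hi⟩ = 0 := by rw [hv]; rfl
    change (((∑ c, v c * z c i : ℤ)) : ZMod (p ^ (99 - i))) = 0 at h1
    rw [ZMod.intCast_zmod_eq_zero_iff_dvd] at h1
    have h2 := (padicNorm.dvd_iff_norm_le (p := p) (n := 99 - i) (z := ∑ c, v c * z c i)).1 (by exact_mod_cast h1)
    have h3 : (p : ℚ) ^ (-((99 - i : ℕ) : ℤ)) = (p : ℚ)⁻¹ ^ 99 * (p : ℚ) ^ i := by
      rw [zpow_neg, zpow_natCast, ← inv_pow]
      have h4 : (p : ℚ)⁻¹ ^ 99 = (p : ℚ)⁻¹ ^ (99 - i) * (p : ℚ)⁻¹ ^ i := by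
        rw [← pow_add]; congr 1; omega
      rw [h4, mul_assoc, ← mul_pow, inv_mul_cancel₀ hp0.ne', one_pow, mul_one]
    rw [h3] at h2
    have h5 : PowerSeries.coeff i (TS (-(k : ℚ)) (TT n m G v)) = ((∑ c, v c * z c i : ℤ) : ℚ) +
        ∑ c : Fin 3 × Fin m, ((v c : ℤ) : ℚ) *
          (PowerSeries.coeff i (TS (-(k : ℚ)) (G c.1 * xP n ^ (c.2 : ℕ))) - z c i) := by
      rw [hco]
      push_cast
      rw [← Finset.sum_add_distrib]
      apply Finset.sum_congr rfl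
      intro c _
      ring
    rw [h5]
    refine (padicNorm.nonarchimedean).trans (max_le h2 ?_)
    apply padicNorm.sum_le' _ (by positivity)
    intro c _
    rw [padicNorm.mul]
    calc _ ≤ 1 * ((p : ℚ)⁻¹ ^ 99) := mul_le_mul (padicNorm.of_int _) (hz c i) (padicNorm.nonneg _) zero_le_one
      _ ≤ (p : ℚ)⁻¹ ^ 99 * (p : ℚ) ^ i := by
        rw [one_mul]
        exact le_mul_of_one_le_right (by positivity) (one_le_pow₀ p_one')
  · have h6 : padicNorm p (PowerSeries.coeff i (TS (-(k : ℚ)) (TT n m G v))) ≤ 1 := by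
      rw [hco]
      apply padicNorm.sum_le' _ zero_le_one
      intro c _
      rw [padicNorm.mul]
      have := IP_PB (hmem c) k i
      rw [one_pow, mul_one] at this
      exact mul_le_one₀ (padicNorm.of_int _) (padicNorm.nonneg _) this
    refine h6.trans ?_
    have h7 : (p : ℚ) ^ 99 ≤ (p : ℚ) ^ i := pow_le_pow_right₀ p_one' (by omega)
    have h8 : (p : ℚ)⁻¹ ^ 99 * (p : ℚ) ^ 99 = 1 := by rw [← mul_pow, inv_mul_cancel₀ hp0.ne', one_pow]
    rw [← h8]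
    exact mul_le_mul_of_nonneg_left h7 (by positivity)

end P1_

end

end Pool.Agent.L0h38.Q4
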