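import Pool.Agent.L0h38.Q4.P0

/-! PL: the large primes; `theorem PL : S_PL` is in `Q4/P0.lean`. -/
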