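import Pool.Agent.L0h38.Q4.Defs
import Pool.Agent.N334.W.Stm

/-!
# The statements of the parts of the proof (interface)

Each part is a proposition `S_XX`; the proof goes to its own file `Pool/Agent/L0h38/Q4/XX.lean` with the theorem
`Pool.Agent.L0h38.Q4.XX : S_XX` (or `XX_of (h : S_YY) ... : S_XX`).
-/

open Polynomial Pool.Agent.H337R2 Filter Topology

namespace Pool.Agent.L0h38.Q4

noncomputable section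

/-! ### linear forms -/

/-- LF: the series -/
def S_LF : Prop := ∀ (n : ℕ) (α β γ : ℕ → ℚ) (θ θ' : ℝ) (Q : ℚ[X]), 1 ≤ n →
  (∀ i, Odd i → 3 ≤ i → i ≤ 99 → zr i = (α i : ℝ) + θ * (β i : ℝ) + θ' * (γ i : ℝ)) →
  2 * Q.natDegree + 403 ≤ 198 * n →
  HasSum (fun t : ℕ => wt n t * ((Q.eval (((n + t : ℕ) : ℚ) * (((n + t : ℕ) : ℚ) + 1)) : ℚ) : ℝ))
    (((AL n α Q : ℚ) : ℝ) + θ * ((BL n β Q : ℚ) : ℝ) + θ' * ((BL n γ Q : ℚ) : ℝ))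

/-- OM1: `B` in terms of Hasse derivatives at the nodes -/
def S_OM1 : Prop := ∀ (n : ℕ) (β : ℕ → ℚ) (Q : ℚ[X]),
  BL n β Q = ∑ k ∈ sP n, ∑ l ∈ Finset.range 99,
    om n β k l * (hasseDeriv l Q).eval (((n : ℚ) - k) * ((n : ℚ) + 1 - k))

/-- OM2: bounds of the coefficients -/
def S_OM2 : Prop := ∀ β : ℕ → ℚ, ∃ K : ℕ, ∀ n : ℕ, 2 ≤ n → ∀ k ∈ sP n, ∀ l < 99,
  |((om n β k l : ℚ) : ℝ)| ≤ (n : ℝ) ^ K * (((2 * n - 1).choose (k - 1) : ℕ) : ℝ) ^ 99 *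
    |2 * (n : ℝ) + 1 - 2 * k| ^ l

/-! ### archimedean part -/

/-- ARCH: bound for the truncated three-block determinants -/
def S_ARCH : Prop := ∃ C : ℕ, ∀ (n m T NX NY : ℕ) (W : ℕ → ℝ) (ω : Fin 2 → ℕ → ℕ → ℝ) (K D1 D2 : ℝ) (B : ℕ → ℝ),
  2 ≤ n → 1 ≤ m → 2 * m = 132 * NX → m = 132 * NY → (∀ t, 0 ≤ W t) → 1 ≤ K →
  (∀ a, ∀ j < n, ∀ l < 99, |ω a j l| ≤ K * bb n j ^ 99 * (2 * (j : ℝ) + 1) ^ l) →
  (∀ S ⊆ Finset.range n, S.card = NX → (∏ a ∈ S, bb n a) * vd 1 S ^ 2 ≤ D1) →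
  (∀ S ⊆ Finset.range n, S.card = NY → (∏ a ∈ S, bb n a) * vd 1 S ^ 4 ≤ D2) →
  (∀ i < m, ∀ t, i ≤ t → W t * ((n : ℝ) + t + 1) ^ (4 * m + 4 * i + 1000) ≤ B i) →
  |(MT3 n m T W ω).det| ≤
    ((n : ℝ) + m) ^ (C * m) * K ^ (2 * m) * (∏ i ∈ Finset.range m, B i) * D1 ^ 8712 * D2 ^ 8712

/-- CLI: the products for the inner classical weight are bounded by the classical Hankel determinant -/
def S_CLI : Prop := ∀ (L N : ℕ) (S : Finset ℕ), N ≤ L → S ⊆ Finset.range L → S.card = N →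
  (∏ a ∈ S, ((2 * (a : ℝ) + 1) / (((L - 1 - a).factorial : ℝ) * ((L + a).factorial : ℝ)) ^ 2)) * vd 1 S ^ 2 ≤
    DcI L N

/-- DOMX: domination by the classical weight with `L = 2n` -/
def S_DOMX : Prop := ∀ (n N : ℕ) (S : Finset ℕ), 1 ≤ n → S ⊆ Finset.range n → S.card = N →
  (∏ a ∈ S, bb n a) * vd 1 S ^ 2 ≤ DX n N

/-- DOMY: domination by the classical weight with `L = 4n` -/
def S_DOMY : Prop := ∀ (n N : ℕ) (S : Finset ℕ), 1 ≤ n → S ⊆ Finset.range n → S.card = N →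
  (∏ a ∈ S, bb n a) * vd 1 S ^ 4 ≤ DY n N

/-- WA: monotonicity of the weights of the summation points -/
def S_WA : Prop := ∀ E : ℕ, ∀ᶠ ν : ℕ in atTop, ∀ i < 33 * (ν - 1), ∀ t, i ≤ t →
  wt (2 * ν) t * ((2 * ν : ℕ) + (t : ℝ) + 1) ^ (4 * (33 * (ν - 1)) + 4 * i + E) ≤ BA E (2 * ν) (33 * (ν - 1)) i

/-- ASA: size of the product of the `BA` -/
def S_ASA : Prop := ∀ E : ℕ, ∀ ε : ℝ, 0 < ε → ∀ᶠ ν : ℕ in atTop,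
  ∑ i ∈ Finset.range (33 * (ν - 1)), Real.log (BA E (2 * ν) (33 * (ν - 1)) i) ≤
    6534 * (ν : ℝ) ^ 2 * Real.log ν + (cA1 + ε) * (ν : ℝ) ^ 2

/-- ASX: size of `DX` and `DY` -/
def S_ASX : Prop := ∀ ε : ℝ, 0 < ε → ∀ᶠ ν : ℕ in atTop, ν % 4 = 1 →
  8712 * Real.log (DX (2 * ν) ((ν - 1) / 2)) + 8712 * Real.log (DY (2 * ν) ((ν - 1) / 4)) ≤
    6534 * (ν : ℝ) ^ 2 * Real.log ν + (cX1 + ε) * (ν : ℝ) ^ 2

/-- NUMA -/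
def S_NUMA : Prop := cA1 + cX1 < 1600

/-- **the archimedean part** -/
def S_A : Prop := ∀ (α β γ : ℕ → ℚ) (θ θ' : ℝ),
  (∀ i, Odd i → 3 ≤ i → i ≤ 99 → zr i = (α i : ℝ) + θ * (β i : ℝ) + θ' * (γ i : ℝ)) →
  ∀ᶠ ν : ℕ in atTop, ν % 4 = 1 → DD ν α β γ ≠ 0 →
    Real.log |((DD ν α β γ : ℚ) : ℝ)| ≤ 13068 * (ν : ℝ) ^ 2 * Real.log ν + 1600 * (ν : ℝ) ^ 2

/-! ### `p`-adic part -/

/-- IX: index lemma -/
def S_IX : Prop := ∀ {ι : Type} [Fintype ι] [DecidableEq ι] {G H : Type} [AddCommGroup G] [AddCommGroup H]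
  [Finite G] [Finite H] (p : ℕ) (_ : Fact p.Prime) (M : Matrix ι ι ℚ) (f : (ι → ℤ) →+ G) (g : (ι → ℤ) →+ H)
  (c : ℤ) (a b : ℕ), Nat.card G = p ^ a → Nat.card H = p ^ b →
  (∀ u v : ι → ℤ, f u = 0 → g v = 0 → padicNorm p (∑ i, ∑ j, (u i : ℚ) * M i j * (v j : ℚ)) ≤ (p : ℚ) ^ c) →
  padicNorm p M.det ≤ (p : ℚ) ^ (c * (Fintype.card ι : ℤ) + a + b)

/-- C1: size of the partial fraction coefficients -/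
def S_C1 : Prop := ∀ {n p : ℕ} [Fact p.Prime], 1 ≤ n → 2 * n < p ^ 2 → ∀ (E : ℚ[X]) {k : ℕ},
    k ∈ sP n → ∀ (A : ℚ), 0 ≤ A → PB p (p : ℚ) A (TS (-(k : ℚ)) E) → ∀ (i : ℕ),
    padicNorm p (pa (sP n) mP (PP n * E) k i) ≤ (p : ℚ) ^ (eP n p k - i : ℤ) * A ∧
    ((p : ℤ) ∣ 2 * (k : ℤ) - (2 * n + 1) →
      padicNorm p (pa (sP n) mP (PP n * E) k i) ≤ (p : ℚ) ^ (eP n p k - i - 401 : ℤ) * A)

/-- C1I: classes with one pole -/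
def S_C1I : Prop := ∀ {n p : ℕ} [Fact p.Prime], 1 ≤ n → ∀ (E : ℚ[X]) {k : ℕ},
    k ∈ sP n → ∀ (A : ℚ), 0 ≤ A → PB p 1 A (TS (-(k : ℚ)) E) → ∀ (i : ℕ),
    (∀ k' ∈ sP n, k' ≠ k → ¬ (p : ℤ) ∣ (k' : ℤ) - k) →
    padicNorm p (pa (sP n) mP (PP n * E) k i) ≤ padicNorm p (((2 * n - 1).factorial : ℕ) : ℚ) ^ 99 * A

/-- P1: the primes between `n` and `2n` -/
def S_P1 : Prop := ∀ {n p : ℕ} [Fact p.Prime], 100 ≤ n → n < p → p < 2 * n → ∀ (q : ℕ) (α β γ : ℕ → ℚ),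
  UInt q α → UInt q β → UInt q γ → ∀ m : ℕ,
  padicNorm p ((q : ℚ) ^ (3 * m) * (M3 (LL n α β γ) m).det) ≤
    (p : ℚ) ^ (-297 * (m : ℤ) + 9900 * (((2 * n - p - 1) / 2 : ℕ) : ℤ))

/-- P2: the primes between `√(2n)` and `n`; `μ`, `c`: levels of the rows and of the columns -/
def S_P2 : Prop := ∀ {n p : ℕ} [Fact p.Prime], 1 ≤ n → 2 * n < p ^ 2 → 3 ≤ p → p ≤ n →
  ∀ (q : ℕ) (α β γ : ℕ → ℚ), UInt q α → UInt q β → UInt q γ → (∀ i < 3, β i = 0) → (∀ i < 5, γ i = 0) →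
  ∀ (m : ℕ) (a : ℤ) (μ c : ℕ → ℕ), (∀ k ∈ sP n, eP n p k - a ≤ μ (kap n p k) + c (kap n p k)) →
  padicNorm p ((q : ℚ) ^ (3 * m) * (M3 (LL n α β γ) m).det) ≤
    (p : ℚ) ^ (3 * m * a - 8 * m + ∑ κ ∈ Kset n p, ((T1 (μ κ) : ℤ) + 3 * T1 (c κ)))

/-- E2: the choice of the levels -/
def S_E2 : Prop := ∃ K : ℝ, ∀ n m p : ℕ, p.Prime → 1 ≤ n → 2 * n < p ^ 2 → 3 ≤ p → p ≤ n → 99 * p ≤ 8 * m →
  ∃ (a : ℤ) (μ c : ℕ → ℕ), (∀ k ∈ sP n, eP n p k - a ≤ μ (kap n p k) + c (kap n p k)) ∧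
    ((3 * m * a - 8 * m + ∑ κ ∈ Kset n p, ((T1 (μ κ) : ℤ) + 3 * T1 (c κ)) : ℤ) : ℝ) ≤ EP K n m p

/-- P0: the small primes -/
def S_P0 : Prop := ∀ {n p : ℕ} [Fact p.Prime], 1 ≤ n → ∀ (q : ℕ) (α β γ : ℕ → ℚ),
  UInt q α → UInt q β → UInt q γ → ∀ m l : ℕ, 2 * n < p ^ (l + 1) → 6 * m < p ^ (l + 1) →
  padicNorm p ((q : ℚ) ^ (3 * m) * (M3 (LL n α β γ) m).det) ≤
    ((p : ℚ) ^ l) ^ (297 * m) * ((∏ i ∈ Finset.range (3 * m), padicNorm p (((2 * i).factorial : ℕ) : ℚ)) *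
      ∏ i ∈ Finset.range m, padicNorm p (((2 * i).factorial : ℕ) : ℚ) ^ 3)

/-- PL: the large primes -/
def S_PL : Prop := ∀ {n p : ℕ} [Fact p.Prime], 1 ≤ n → 2 * n ≤ p → ∀ (q : ℕ) (α β γ : ℕ → ℚ),
  UInt q α → UInt q β → UInt q γ → ∀ m : ℕ,
  padicNorm p ((q : ℚ) ^ (3 * m) * (M3 (LL n α β γ) m).det) ≤ 1

/-- primes in `(a n, b n]` -/
abbrev PS := Pool.Agent.N334.W.PS

/-- S2: sum over `2n/J < p ≤ n` -/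
def S_S2 : Prop := ∀ (K : ℝ) (J : ℕ) (ε : ℝ), 2 ≤ J → 0 < ε → ∀ᶠ ν : ℕ in atTop,
  ∑ p ∈ PS (2 / J) 1 (2 * ν), EP K (2 * ν) (33 * (ν - 1)) p * Real.log p ≤ (ν : ℝ) ^ 2 * (e2 J + ε)

/-- S1: sum over `n < p < 2n` -/
def S_S1 : Prop := ∀ ε : ℝ, 0 < ε → ∀ᶠ ν : ℕ in atTop,
  ∑ p ∈ (Finset.range (4 * ν)).filter (fun p => p.Prime ∧ 2 * ν < p),
    (-297 * ((33 * (ν - 1) : ℕ) : ℝ) + 9900 * (((4 * ν - p - 1) / 2 : ℕ) : ℝ)) * Real.log p ≤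
    (ν : ℝ) ^ 2 * (-19602 + 9900 + ε)

/-- S0: the small primes -/
def S_S0 : Prop := ∃ C : ℝ, ∀ (J : ℕ) (ε : ℝ), 1 ≤ J → 0 < ε → ∀ᶠ ν : ℕ in atTop,
  ∑ p ∈ PS 0 (2 / J) (2 * ν), Real.log
    (((p : ℝ) ^ Nat.log p (2 * (2 * ν) + 6 * (33 * (ν - 1)))) ^ (297 * (33 * (ν - 1))) *
      ((∏ i ∈ Finset.range (3 * (33 * (ν - 1))), ((padicNorm p (((2 * i).factorial : ℕ) : ℚ) : ℚ) : ℝ)) *
      ∏ i ∈ Finset.range (33 * (ν - 1)), ((padicNorm p (((2 * i).factorial : ℕ) : ℚ) : ℚ) : ℝ) ^ 3)) ≤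
    (ν : ℝ) ^ 2 * (-13068 * (Real.log (4 * ν / J) - Real.eulerMascheroniConstant) + C / J + ε)

/-- NUMP: the final numerical inequality of the `p`-adic part -/
def S_NUMP : Prop := ∀ C : ℝ, ∃ J : ℕ, 2 ≤ J ∧
  e2 J + (-19602 + 9900) - 13068 * (Real.log 4 - Real.log J - Real.eulerMascheroniConstant) + C / J < -1700

/-- **the `p`-adic part** -/
def S_P : Prop := ∀ (q : ℕ) (α β γ : ℕ → ℚ), UInt q α → UInt q β → UInt q γ →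
  (∀ i < 3, β i = 0) → (∀ i < 5, γ i = 0) → ∀ᶠ ν : ℕ in atTop, DD ν α β γ ≠ 0 →
    ∑ p ∈ (Finset.range (4 * ν)).filter Nat.Prime,
      Real.log ((padicNorm p ((q : ℚ) ^ (99 * (ν - 1)) * DD ν α β γ) : ℚ) : ℝ) ≤
    -13068 * (ν : ℝ) ^ 2 * Real.log ν - 1700 * (ν : ℝ) ^ 2

/-! ### non-vanishing at `n = 2p` -/

/-- NVA: the polynomials `(x - x_r)^l ∏_{s ≠ r} (x - x_s)^66`: the block structure -/
def S_LOC : Prop := ∀ i1 : ℕ, i1 = 5 ∨ i1 = 7 → (Mloc i1).det ≠ 0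

/-- NV: non-vanishing at primes -/
def S_NV : Prop := ∀ (α β γ : ℕ → ℚ) (q i1 : ℕ), UInt q α → UInt q β → UInt q γ → (i1 = 5 ∨ i1 = 7) →
  (∀ i < 3, β i = 0) → β 3 ≠ 0 → (∀ i < i1, γ i = 0) → γ i1 ≠ 0 →
  ∃ p0 : ℕ, ∀ p : ℕ, p0 ≤ p → p.Prime → DD p α β γ ≠ 0

/-! ### conclusion -/

/-- Z1: reduction -/
def S_Z1 : Prop :=
  Module.finrank ℚ (Submodule.span ℚ
      (Set.range fun i : Fin 50 => if i.1 = 0 then (1 : ℝ) else zr (2 * i.1 + 1))) < 4 →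
    ∃ (θ θ' : ℝ) (α β γ : ℕ → ℚ) (q i1 : ℕ), UInt q α ∧ UInt q β ∧ UInt q γ ∧ (i1 = 5 ∨ i1 = 7) ∧
      (∀ i < 3, β i = 0) ∧ β 3 ≠ 0 ∧ (∀ i < i1, γ i = 0) ∧ γ i1 ≠ 0 ∧
      (∀ i, Odd i → 3 ≤ i → i ≤ 99 → zr i = (α i : ℝ) + θ * (β i : ℝ) + θ' * (γ i : ℝ))

def S_Z : Prop := 4 ≤ Module.finrank ℚ (Submodule.span ℚ
      (Set.range fun i : Fin 50 => if i.1 = 0 then (1 : ℝ) else zr (2 * i.1 + 1)))

end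

end Pool.Agent.L0h38.Q4
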