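import Pool.Agent.L0h38.Q4.Stm
import Pool.Agent.H336R2.HD.A5

/-!
# Z: assembly
-/

open Polynomial Pool.Agent.H337R2 Filter Topology

namespace Pool.Agent.L0h38.Q4

noncomputable section

namespace ZA

theorem contra_of (hPm : S_P) (hPl : S_PL)
    (α β γ : ℕ → ℚ) (q : ℕ) (hα : UInt q α) (hβ : UInt q β) (hγ : UInt q γ)
    (hβ3 : ∀ i < 3, β i = 0) (hγ5 : ∀ i < 5, γ i = 0)
    (hA : ∀ᶠ ν : ℕ in atTop, ν % 4 = 1 → DD ν α β γ ≠ 0 →
      Real.log |((DD ν α β γ : ℚ) : ℝ)| ≤ 13068 * (ν : ℝ) ^ 2 * Real.log ν + 1600 * (ν : ℝ) ^ 2)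
    (hH6 : ∃ p0 : ℕ, ∀ p : ℕ, p0 ≤ p → p.Prime → DD p α β γ ≠ 0) : False := by
  obtain ⟨p0, hp0⟩ := hH6
  have hq : 0 < q := hα.1
  have hP := hPm q α β γ hα hβ hγ hβ3 hγ5
  have hq0 : (0 : ℝ) < q := by exact_mod_cast hq
  have hlq : 0 ≤ Real.log q := Real.log_nonneg (by exact_mod_cast hq)
  -- the power of q
  have hQ : ∀ᶠ n : ℕ in atTop, 99 * (n : ℝ) * Real.log q < (n : ℝ) ^ 2 := by
    have h1 : ∀ᶠ n : ℕ in atTop, 99 * Real.log q < (n : ℝ) :=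
      (tendsto_natCast_atTop_atTop (R := ℝ)).eventually_gt_atTop _
    filter_upwards [h1, eventually_ge_atTop 1] with n h2 h3
    have h4 : (1 : ℝ) ≤ n := by exact_mod_cast h3
    nlinarith
  obtain ⟨N, hN⟩ := eventually_atTop.1 ((hP.and hA).and (hQ.and (eventually_ge_atTop 1)))
  obtain ⟨n, hnp, hn, hmod⟩ := Nat.exists_prime_gt_modEq_one (k := 4) (max N p0) (by norm_num)
  have hnN : N ≤ n := (le_max_left _ _).trans hn.le
  have hn4 : n % 4 = 1 := hmod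
  obtain ⟨⟨h1, h2⟩, h3, h4⟩ := hN n hnN
  have hne := hp0 n ((le_max_right _ _).trans hn.le) hnp
  have h1' := h1 hne
  have h2' := h2 hn4 hne
  set z : ℚ := (q : ℚ) ^ (99 * (n - 1)) * DD n α β γ with hz
  have hqq : (q : ℚ) ≠ 0 := by exact_mod_cast hq.ne'
  have hz0 : z ≠ 0 := mul_ne_zero (pow_ne_zero _ hqq) hne
  have hS : ∀ p ∈ (Finset.range (4 * n)).filter Nat.Prime, p.Prime := fun p hp =>
    (Finset.mem_filter.1 hp).2
  have hprod := Pool.Agent.H336R2.HD.A5_prod_formula z hz0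
    ((Finset.range (4 * n)).filter Nat.Prime) hS
    (fun p => ((padicNorm p z : ℚ) : ℝ)) (fun p _ => le_rfl) (fun p hp hpS => by
      have hfact : Fact p.Prime := ⟨hp⟩
      have h5 := @hPl (2 * n) p hfact (by omega) (by
        by_contra hlt
        apply hpS
        rw [Finset.mem_filter, Finset.mem_range]
        exact ⟨by omega, hp⟩) q α β γ hα hβ hγ (33 * (n - 1))
      have e : 3 * (33 * (n - 1)) = 99 * (n - 1) := by ring
      rw [e] at h5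
      exact h5)
  have hpos : ∀ p ∈ (Finset.range (4 * n)).filter Nat.Prime,
      ((padicNorm p z : ℚ) : ℝ) ≠ 0 := by
    intro p hp
    have : Fact p.Prime := ⟨hS p hp⟩
    have h5 : padicNorm p z ≠ 0 := padicNorm.nonzero hz0
    exact_mod_cast h5
  have hDpos : 0 < |((DD n α β γ : ℚ) : ℝ)| := abs_pos.2 (by exact_mod_cast hne)
  have habs : |(z : ℝ)| = (q : ℝ) ^ (99 * (n - 1)) * |((DD n α β γ : ℚ) : ℝ)| := by
    rw [hz]
    push_cast
    rw [abs_mul, abs_of_pos (pow_pos hq0 _)]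
  have hlog := Real.log_nonneg hprod
  rw [habs, Real.log_mul (mul_pos (pow_pos hq0 _) hDpos).ne' (Finset.prod_ne_zero_iff.2 hpos),
    Real.log_mul (pow_pos hq0 _).ne' hDpos.ne', Real.log_pow,
    Real.log_prod (fun p hp => hpos p hp)] at hlog
  have hmq : ((99 * (n - 1) : ℕ) : ℝ) * Real.log q ≤ 99 * n * Real.log q := by
    apply mul_le_mul_of_nonneg_right _ hlq
    have : 99 * (n - 1) ≤ 99 * n := by omega
    exact_mod_cast this
  have hn1 : (1 : ℝ) ≤ n := by exact_mod_cast h4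
  have hn2 : (1 : ℝ) ≤ (n : ℝ) ^ 2 := by nlinarith
  nlinarith

end ZA

/-- The conclusion, all inputs as hypotheses. -/
theorem Z_of (h1 : S_P) (h2 : S_PL) (h3 : S_A) (h4 : S_NV) (h5 : S_Z1) : S_Z := by
  show 4 ≤ Module.finrank ℚ (Submodule.span ℚ
      (Set.range fun i : Fin 50 => if i.1 = 0 then (1 : ℝ) else zr (2 * i.1 + 1)))
  by_contra hcon
  rw [not_le] at hcon
  obtain ⟨θ, θ', α, β, γ, q, i1, hα, hβ, hγ, hi1, hβ0, hβ1, hγ0, hγ1, hz⟩ := h5 hcon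
  exact ZA.contra_of h1 h2 α β γ q hα hβ hγ hβ0 (fun i hi => hγ0 i (by omega)) (h3 α β γ θ θ' hz)
    (h4 α β γ q i1 hα hβ hγ hi1 hβ0 hβ1 hγ0 hγ1)

end

end Pool.Agent.L0h38.Q4
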